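import Pool.Agent.Helper11.CT.T.Tm1_34_m1_m1_u_q

set_option autoImplicit false
set_option linter.all false

namespace Helper11.CT.Tm1_34_m1_m1_u

open Helper11.CT

noncomputable def t2 : Tre :=
  (.Q [0,0,0,1,0,0,0,0,0,1] (.pp false [-1,1]) (.R ⟨0,false,false,true,[1,0,-1],[0,1],[1,1,1],(⟨0,
  [(19,0)]⟩,⟨0,[(20,0)]⟩),(⟨0,[(23,0)]⟩,⟨0,[(22,0)]⟩),⟨0,[(5,0)]⟩,.k,.k,.k,.k,.k,.k,⟨true,0,⟨0,[(26,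
  0)]⟩,⟨0,[(3,0),(9,0)]⟩⟩,⟨false,1,⟨1,[(7,0),(2,0),(0,0),(15,1)]⟩,⟨0,[(13,0)]⟩⟩,⟨false,0,⟨0,[(2,0),
  (7,0),(0,0)]⟩,⟨1,[(18,1),(8,0),(0,0)]⟩⟩,⟨true,0,⟨0,[(0,0),(13,0)]⟩,⟨0,[(1,0)]⟩⟩,⟨false,0,⟨0,[]⟩,
  ⟨0,[]⟩⟩,⟨false,0,⟨0,[]⟩,⟨0,[]⟩⟩,[.o ⟨false,0,⟨0,[(25,0)]⟩,⟨1,[(21,0),(4,1),(1,0)]⟩⟩,.a ⟨true,0,⟨0,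
  [(0,0)]⟩,⟨0,[(26,0)]⟩⟩ ⟨false,0,⟨0,[]⟩,⟨3,[(8,0),(0,0),(17,1)]⟩⟩ ⟨true,0,⟨0,[(3,0)]⟩,⟨0,[(13,0),
  (12,0)]⟩⟩,.e ⟨false,0,⟨1,[(16,0),(0,0)]⟩,⟨1,[(27,0),(0,0)]⟩⟩ ⟨false,0,⟨0,[(3,0)]⟩,⟨1,[(13,1),(12,
  1),(0,0),(0,0)]⟩⟩,.o ⟨false,0,⟨0,[(13,0)]⟩,⟨7,[(7,3),(0,0),(0,0),(11,1),(5,3)]⟩⟩]⟩) (.Q [0,0,0,-1,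
  0,0,1,1,0,0,-1] (.p false [0,0,1] [] (⟨0,[(20,0)]⟩,⟨0,[(19,0)]⟩) .k 0 (⟨0,[]⟩,⟨0,[]⟩) .k .k) (.Q
  [0,0,0,0,0,0,-1,-1,0,0,1] (.p true [0,0,1] [] (⟨0,[(21,0)]⟩,⟨0,[(20,0)]⟩) .k 0 (⟨0,[]⟩,⟨0,[]⟩) .k
  .k) (.R ⟨2,true,false,true,[0,1],[0,0,1],[0,0,1],(⟨0,[]⟩,⟨0,[]⟩),(⟨0,[(22,0)]⟩,⟨0,[(21,0)]⟩),⟨0,
  []⟩,.k,.k,.k,.k,.k,.k,⟨true,0,⟨2,[(17,0),(0,0),(1,1),(5,1)]⟩,⟨0,[(1,0),(6,0)]⟩⟩,⟨false,0,⟨0,[(2,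
  0),(2,0)]⟩,⟨0,[(19,0),(9,0)]⟩⟩,⟨true,0,⟨0,[(28,0)]⟩,⟨0,[(27,0)]⟩⟩,⟨false,0,⟨0,[(1,0)]⟩,⟨0,[(0,0),
  (26,0),(2,0)]⟩⟩,⟨false,1,⟨3,[(10,0),(0,0),(18,1)]⟩,⟨0,[]⟩⟩,⟨true,0,⟨0,[(16,0)]⟩,⟨0,[(0,0)]⟩⟩,[]⟩)
  (.R ⟨2,true,false,false,[0,1],[1,0,-1],[0,1,1],(⟨0,[]⟩,⟨0,[]⟩),(⟨0,[(21,0)]⟩,⟨0,[(22,0)]⟩),⟨0,[]⟩,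
  .k,.k,.k,.k,.k,.k,⟨false,0,⟨0,[(1,0),(6,0)]⟩,⟨1,[(20,1),(8,0),(0,0)]⟩⟩,⟨true,0,⟨0,[(15,0)]⟩,⟨1,
  [(9,0),(2,0),(0,0)]⟩⟩,⟨false,0,⟨0,[(28,0)]⟩,⟨0,[(27,0),(2,0)]⟩⟩,⟨true,0,⟨0,[(3,0)]⟩,⟨1,[(0,0),(4,
  0),(2,0),(3,0),(0,0),(2,0)]⟩⟩,⟨true,0,⟨0,[(32,0)]⟩,⟨0,[]⟩⟩,⟨false,1,⟨0,[(14,0),(15,0)]⟩,⟨0,[(0,0),
  (11,0),(0,0)]⟩⟩,[]⟩)) (.Q [0,0,0,0,0,1,0,0,0,0,-1] (.ed true [1,-1,1] .k) (.Q [0,0,0,0,0,0,-1,0,0,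
  1,1] (.p true [1,-1,1] [] (⟨0,[(22,0),(1,0)]⟩,⟨0,[(0,0)]⟩) .k 0 (⟨0,[]⟩,⟨0,[]⟩) .k .k) (.R ⟨0,
  false,false,true,[0,1,-1],[0,1],[0,0,1],(⟨0,[(1,0)]⟩,⟨0,[(23,0),(1,0)]⟩),(⟨0,[(26,0)]⟩,⟨0,[(25,
  0)]⟩),⟨0,[(23,0)]⟩,.k,.k,.k,.k,.k,.k,⟨false,1,⟨1,[(29,1),(0,0),(0,0)]⟩,⟨0,[(28,0)]⟩⟩,⟨true,0,⟨0,
  [(3,0),(2,0)]⟩,⟨0,[(20,0)]⟩⟩,⟨false,1,⟨3,[(0,1),(4,1),(11,1),(11,3),(0,0),(0,2)]⟩,⟨0,[(2,0),(0,0),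
  (2,0)]⟩⟩,⟨true,0,⟨0,[(17,0)]⟩,⟨2,[(0,0),(1,0),(1,0),(16,0)]⟩⟩,⟨false,0,⟨0,[]⟩,⟨0,[]⟩⟩,⟨false,0,⟨0,
  []⟩,⟨0,[]⟩⟩,[.o ⟨false,0,⟨0,[(28,0)]⟩,⟨3,[(3,3),(7,0),(0,0),(18,1)]⟩⟩,.o ⟨false,1,⟨3,[(11,0),(0,
  0),(15,3),(2,1)]⟩,⟨0,[(3,0)]⟩⟩,.o ⟨false,1,⟨7,[(0,3),(10,0),(0,0),(3,3),(13,5)]⟩,⟨2,[(3,0),(1,1),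
  (0,2),(0,1),(2,0),(16,0)]⟩⟩,.a ⟨true,0,⟨0,[(0,0)]⟩,⟨0,[(3,0),(2,0)]⟩⟩ ⟨false,1,⟨3,[(11,0),(0,0),
  (18,1)]⟩,⟨0,[]⟩⟩ ⟨true,0,⟨0,[(3,0),(2,0),(21,0)]⟩,⟨0,[(0,0),(2,0)]⟩⟩]⟩) (.Q [0,1,-1,0,0,0,0,0,-1,
  0,0,1] (.p true [0,0,0,1] [] (⟨0,[(14,0)]⟩,⟨0,[(13,0)]⟩) .k 0 (⟨0,[]⟩,⟨0,[]⟩) .k .k) (.Q [0,1,1,0,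
  0,0,0,0,1,0,0,-1] (.p false [0,0,0,1] [] (⟨0,[(15,0)]⟩,⟨0,[(14,0)]⟩) .k 0 (⟨0,[]⟩,⟨0,[]⟩) .k .k)
  (.K ⟨0,[0,0,0,1],0,0,(⟨0,[(16,0)]⟩,⟨0,[(15,0)]⟩),.k,(.r (-1) ⟨1,[(14,0),(16,1),(0,0)]⟩ ⟨2,[(1,2),
  (0,0),(12,2),(2,1),(2,0),(7,2),(0,2)]⟩),(.x 0 ⟨0,[(28,0)]⟩ ⟨3,[(13,0),(0,0),(11,1),(0,3)]⟩),.k,.k,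
  [⟨0,[(16,0)]⟩,⟨0,[(15,0)]⟩,⟨0,[(1,0)]⟩,⟨0,[(0,0)]⟩]⟩) (.Q [0,0,0,0,0,1,0,0,0,-1,0,1] (.ed false
  [0,1,0,1] .k) (.R ⟨0,false,false,false,[1,0,0,-1],[1,0,-1],[0,1,0,0,0,0,0,0,-1],(⟨0,[(16,0)]⟩,⟨0,
  [(17,0)]⟩),(⟨0,[(25,0)]⟩,⟨0,[(26,0)]⟩),⟨0,[(0,0)]⟩,.k,.k,(.x (-1) ⟨3,[(14,0),(0,0),(11,1),(0,3)]⟩
  ⟨0,[(29,0)]⟩),.k,.k,.k,⟨false,0,⟨0,[(1,0),(4,0),(5,0),(3,0),(3,0)]⟩,⟨1,[(15,0),(8,1),(9,0)]⟩⟩,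
  ⟨true,0,⟨0,[(16,0),(2,0)]⟩,⟨2,[(3,0),(9,0),(3,2)]⟩⟩,⟨true,0,⟨0,[(36,0)]⟩,⟨0,[]⟩⟩,⟨false,1,⟨1,[(15,
  0),(0,1),(2,1),(4,1),(9,0)]⟩,⟨0,[(1,0),(18,0)]⟩⟩,⟨false,0,⟨0,[]⟩,⟨0,[]⟩⟩,⟨false,0,⟨0,[]⟩,⟨0,[]⟩⟩,
  [.o ⟨false,0,⟨0,[(5,0),(0,0)]⟩,⟨3,[(14,0),(0,0),(4,3),(13,1)]⟩⟩,.o ⟨false,1,⟨2,[(5,0),(1,0),(13,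
  0),(5,0),(6,1)]⟩,⟨0,[(20,0)]⟩⟩,.o ⟨false,1,⟨1,[(1,0),(0,0),(12,0),(11,0)]⟩,⟨2,[(3,0),(12,2),(2,1),
  (2,0)]⟩⟩,.a ⟨true,0,⟨0,[(17,0)]⟩,⟨0,[(16,0)]⟩⟩ ⟨false,0,⟨2,[(1,2),(1,0),(6,0),(1,0),(3,2),(3,0)]⟩,
  ⟨1,[(15,0),(6,0),(0,0),(10,0)]⟩⟩ ⟨true,0,⟨0,[(5,0),(0,0),(9,0)]⟩,⟨0,[(17,0),(2,0)]⟩⟩]⟩) (.R ⟨1,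
  false,false,false,[1,0,0,-1],[1,0,-1],[1,1,0,0,0,0,0,0,-1],(⟨0,[(16,0)]⟩,⟨0,[(17,0)]⟩),(⟨0,[(25,
  0)]⟩,⟨0,[(26,0)]⟩),⟨0,[(0,0)]⟩,.k,.k,(.x (-1) ⟨3,[(14,0),(0,0),(11,1),(0,3)]⟩ ⟨0,[(29,0)]⟩),.k,
  (.x 0 ⟨0,[(3,0),(22,0),(1,0)]⟩ ⟨3,[(4,3),(9,0),(0,0),(7,3),(9,1)]⟩),.k,⟨false,0,⟨0,[(1,0),(4,0),
  (5,0),(3,0),(3,0)]⟩,⟨1,[(15,0),(8,1),(9,0)]⟩⟩,⟨true,0,⟨0,[(16,0),(2,0)]⟩,⟨2,[(3,0),(9,0),(3,2)]⟩⟩,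
  ⟨false,0,⟨0,[]⟩,⟨3,[(14,0),(0,0),(18,1)]⟩⟩,⟨false,1,⟨1,[(15,0),(0,1),(2,1),(4,1),(9,0)]⟩,⟨0,[(1,
  0),(18,0)]⟩⟩,⟨true,0,⟨0,[(31,0)]⟩,⟨0,[(32,0)]⟩⟩,⟨false,1,⟨5,[(5,5),(9,2),(0,5),(2,1),(2,1),(4,1),
  (2,1),(3,0)]⟩,⟨0,[(1,0),(18,0),(11,0)]⟩⟩,[.o ⟨false,0,⟨0,[(5,0),(0,0)]⟩,⟨3,[(14,0),(0,0),(4,3),
  (13,1)]⟩⟩,.o ⟨false,1,⟨2,[(5,0),(1,0),(13,0),(5,0),(6,1)]⟩,⟨0,[(20,0)]⟩⟩,.o ⟨false,1,⟨1,[(1,0),(0,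
  0),(12,0),(11,0)]⟩,⟨2,[(3,0),(12,2),(2,1),(2,0)]⟩⟩,.a ⟨true,0,⟨0,[(17,0)]⟩,⟨0,[(16,0)]⟩⟩ ⟨false,0,
  ⟨2,[(1,2),(1,0),(6,0),(1,0),(3,2),(3,0)]⟩,⟨1,[(15,0),(6,0),(0,0),(10,0)]⟩⟩ ⟨true,0,⟨0,[(5,0),(0,
  0),(9,0)]⟩,⟨0,[(17,0),(2,0)]⟩⟩]⟩))) (.Q [0,-1,-1,1,1,0,-1,-1,-1,0,1,1] (.p true [1,-1,1] [1,0,0,
  -1] (⟨0,[(24,0),(1,0)]⟩,⟨0,[(2,0)]⟩) .k 2 (⟨0,[(14,0)]⟩,⟨0,[(15,0)]⟩) .k (.x 0 ⟨0,[(20,0),(3,0)]⟩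
  ⟨0,[(17,0),(5,0),(7,0)]⟩)) (.Q [0,1,-1,-1,0,0,0,0,-1,-1,0,1] (.p true [0,0,0,1] [1] (⟨0,[(16,0)]⟩,
  ⟨0,[(15,0)]⟩) .k 1 (⟨0,[]⟩,⟨0,[]⟩) .k .k) (.R ⟨2,true,false,true,[0,1],[1,0,0,-1],[0,1,1],(⟨0,[]⟩,
  ⟨0,[]⟩),(⟨0,[(16,0)]⟩,⟨0,[(17,0)]⟩),⟨0,[]⟩,.k,.k,.k,(.x 0 ⟨0,[(29,0)]⟩ ⟨3,[(14,0),(0,0),(11,1),(0,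
  3)]⟩),.k,.k,⟨true,0,⟨0,[(2,0),(14,0),(18,0)]⟩,⟨0,[(0,0),(15,0),(13,0),(0,0)]⟩⟩,⟨false,1,⟨1,[(17,
  1),(9,0),(5,0)]⟩,⟨0,[(16,0)]⟩⟩,⟨false,0,⟨0,[(32,0)]⟩,⟨0,[(31,0),(2,0)]⟩⟩,⟨true,0,⟨0,[(0,0)]⟩,⟨1,
  [(2,1),(6,0),(2,0),(3,0),(0,0),(18,0)]⟩⟩,⟨true,0,⟨0,[(36,0)]⟩,⟨0,[]⟩⟩,⟨false,1,⟨3,[(0,1),(0,1),
  (18,1),(6,0),(6,0)]⟩,⟨0,[(2,0),(13,0),(0,0)]⟩⟩,[]⟩) (.Q [0,0,0,0,0,1,0,0,0,-1,0,1] (.ed false [0,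
  1,0,1] .k) (.I [0,0,-2,-1,1,0,0,0,-1] (.R ⟨0,false,false,true,[1,0,0,-1],[0,1],[0,1,0,0,0,0,0,0,
  -1],(⟨0,[(18,0)]⟩,⟨0,[(19,0)]⟩),(⟨0,[(31,0)]⟩,⟨0,[(30,0)]⟩),⟨0,[(1,0)]⟩,.k,.k,(.x (-1) ⟨3,[(16,0),
  (0,0),(11,1),(0,3)]⟩ ⟨0,[(31,0)]⟩),(.x (-1) ⟨3,[(16,0),(0,0),(11,1),(0,3)]⟩ ⟨0,[(31,0)]⟩),.k,.k,
  ⟨false,1,⟨0,[(0,0)]⟩,⟨0,[(4,0),(14,0),(13,0)]⟩⟩,⟨true,0,⟨0,[(18,0)]⟩,⟨2,[(5,0),(13,2),(1,1),(2,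
  0)]⟩⟩,⟨true,0,⟨0,[(38,0)]⟩,⟨0,[]⟩⟩,⟨false,0,⟨0,[(2,0),(35,0)]⟩,⟨17,[(0,11),(2,3),(1,3),(2,9),(1,
  3),(5,0),(2,13),(12,5),(3,0)]⟩⟩,⟨false,0,⟨0,[]⟩,⟨0,[]⟩⟩,⟨false,0,⟨0,[]⟩,⟨0,[]⟩⟩,[.o ⟨false,0,⟨0,
  [(33,0)]⟩,⟨3,[(8,3),(7,0),(0,0),(18,1)]⟩⟩,.o ⟨false,1,⟨3,[(16,0),(0,0),(15,3),(2,1)]⟩,⟨0,[(8,
  0)]⟩⟩,.o ⟨false,1,⟨1,[(19,1),(9,0),(5,0)]⟩,⟨2,[(5,0),(12,2),(2,1),(2,0)]⟩⟩,.a ⟨true,0,⟨0,[(19,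
  0)]⟩,⟨0,[(18,0)]⟩⟩ ⟨false,1,⟨1,[(16,0),(18,0)]⟩,⟨0,[(4,0),(14,0)]⟩⟩ ⟨true,0,⟨0,[(18,0),(14,0)]⟩,
  ⟨0,[(8,0),(10,0)]⟩⟩]⟩) (.Q [0,0,1,0,-1,0,-1,-1,1,0,1,-1] (.p true [0,0,1] [0,0,0,1] (⟨0,[(28,0)]⟩,
  ⟨0,[(27,0)]⟩) .k 2 (⟨0,[(19,0)]⟩,⟨0,[(18,0)]⟩) .k (.r (-1) ⟨1,[(10,1),(5,0),(1,1),(0,1),(15,0)]⟩
  ⟨0,[(0,0),(25,0),(7,0),(0,0)]⟩)) (.K ⟨0,[0,0,0,1],0,(-1),(⟨0,[(20,0)]⟩,⟨0,[(19,0)]⟩),.k,(.x 0 ⟨0,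
  [(22,0),(2,0),(5,0)]⟩ ⟨0,[(32,0),(3,0)]⟩),(.x 0 ⟨0,[(32,0)]⟩ ⟨3,[(17,0),(0,0),(11,1),(0,3)]⟩),.k,
  .k,[⟨0,[(20,0)]⟩,⟨0,[(19,0)]⟩,⟨1,[(17,0),(2,1),(15,0),(2,1)]⟩,⟨0,[(0,0),(22,0)]⟩]⟩) (.I [1,1,0,0,
  0,0,0,0,-1] (.R ⟨0,false,false,false,[1,0,0,-1],[1,0,-1],[],(⟨0,[(20,0)]⟩,⟨0,[(21,0)]⟩),(⟨0,[(29,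
  0)]⟩,⟨0,[(30,0)]⟩),⟨0,[(3,0)]⟩,.k,.k,(.x (-1) ⟨3,[(18,0),(0,0),(11,1),(0,3)]⟩ ⟨0,[(33,0)]⟩),.k,.k,
  .k,⟨false,1,⟨0,[(12,0),(7,0),(0,0),(15,0)]⟩,⟨0,[(28,0)]⟩⟩,⟨true,0,⟨0,[(20,0),(2,0)]⟩,⟨2,[(7,0),(9,
  0),(3,2)]⟩⟩,⟨true,0,⟨0,[(2,0),(33,0),(0,0)]⟩,⟨0,[(0,0)]⟩⟩,⟨false,0,⟨0,[(4,0),(6,0)]⟩,⟨0,[(1,0)]⟩⟩,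
  ⟨false,0,⟨0,[]⟩,⟨0,[]⟩⟩,⟨false,0,⟨0,[]⟩,⟨0,[]⟩⟩,[.o ⟨false,0,⟨0,[(9,0),(0,0)]⟩,⟨3,[(1,1),(4,1),
  (11,0),(0,0),(4,1)]⟩⟩,.o ⟨false,1,⟨2,[(5,0),(0,0),(4,0),(13,0),(5,0),(6,0)]⟩,⟨0,[(24,0)]⟩⟩,.o
  ⟨false,1,⟨1,[(21,1),(9,0),(5,0)]⟩,⟨0,[(0,0),(5,0)]⟩⟩,.a ⟨true,0,⟨0,[(21,0)]⟩,⟨0,[(20,0)]⟩⟩ ⟨false,
  1,⟨1,[(37,0),(0,0)]⟩,⟨1,[(26,0),(0,0)]⟩⟩ ⟨true,0,⟨0,[(9,0),(0,0),(9,0)]⟩,⟨0,[(21,0),(2,0)]⟩⟩]⟩)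
  (.R ⟨0,false,false,false,[1,0,0,-1],[1,0,-1],[0,1,0,0,0,0,0,0,-1],(⟨0,[(20,0)]⟩,⟨0,[(21,0)]⟩),(⟨0,
  [(29,0)]⟩,⟨0,[(30,0)]⟩),⟨0,[(3,0)]⟩,.k,.k,(.x (-1) ⟨3,[(18,0),(0,0),(11,1),(0,3)]⟩ ⟨0,[(33,0)]⟩),
  .k,.k,.k,⟨false,1,⟨0,[(1,0),(8,0),(5,0),(3,0)]⟩,⟨0,[(0,0),(27,0)]⟩⟩,⟨true,0,⟨0,[(20,0),(2,0)]⟩,⟨2,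
  [(7,0),(9,0),(3,2)]⟩⟩,⟨true,0,⟨0,[(40,0)]⟩,⟨0,[]⟩⟩,⟨false,0,⟨0,[(4,0),(6,0)]⟩,⟨0,[(1,0)]⟩⟩,⟨false,
  0,⟨0,[]⟩,⟨0,[]⟩⟩,⟨false,0,⟨0,[]⟩,⟨0,[]⟩⟩,[.o ⟨false,0,⟨0,[(9,0),(0,0)]⟩,⟨3,[(1,1),(4,1),(11,0),(0,
  0),(4,1)]⟩⟩,.o ⟨false,1,⟨2,[(5,0),(0,0),(4,0),(13,0),(5,0),(6,0)]⟩,⟨0,[(24,0)]⟩⟩,.o ⟨false,1,⟨1,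
  [(21,1),(9,0),(5,0)]⟩,⟨8,[(2,1),(3,1),(0,0),(4,1),(1,1),(3,1),(1,6),(5,0)]⟩⟩,.a ⟨true,0,⟨0,[(21,
  0)]⟩,⟨0,[(20,0)]⟩⟩ ⟨false,1,⟨1,[(18,0),(18,0)]⟩,⟨6,[(0,0),(1,1),(16,1),(14,2),(1,1)]⟩⟩ ⟨true,0,⟨0,
  [(9,0),(0,0),(9,0)]⟩,⟨0,[(21,0),(2,0)]⟩⟩]⟩)))) (.I [1,0,-2,-1,1,0,0,0,-1] (.R ⟨1,false,false,true,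
  [1,0,0,-1],[0,1],[1,1,0,0,0,0,0,0,-1],(⟨0,[(18,0)]⟩,⟨0,[(19,0)]⟩),(⟨0,[(31,0)]⟩,⟨0,[(30,0)]⟩),⟨0,
  [(1,0)]⟩,.k,.k,(.x (-1) ⟨3,[(16,0),(0,0),(11,1),(0,3)]⟩ ⟨0,[(31,0)]⟩),(.x (-1) ⟨3,[(16,0),(0,0),
  (11,1),(0,3)]⟩ ⟨0,[(31,0)]⟩),(.r (-1) ⟨0,[(0,0),(33,0)]⟩ ⟨2,[(2,2),(2,0),(13,2),(1,1),(2,0),(8,
  2)]⟩),.k,⟨false,1,⟨0,[(0,0)]⟩,⟨0,[(4,0),(14,0),(13,0)]⟩⟩,⟨true,0,⟨0,[(18,0)]⟩,⟨2,[(5,0),(13,2),(1,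
  1),(2,0)]⟩⟩,⟨false,0,⟨0,[]⟩,⟨3,[(16,0),(0,0),(18,1)]⟩⟩,⟨false,0,⟨0,[(2,0),(35,0)]⟩,⟨17,[(0,11),(2,
  3),(1,3),(2,9),(1,3),(5,0),(2,13),(12,5),(3,0)]⟩⟩,⟨true,0,⟨0,[(33,0)]⟩,⟨0,[(34,0)]⟩⟩,⟨false,0,⟨0,
  [(2,0),(30,0)]⟩,⟨5,[(0,3),(7,5),(7,0),(2,5),(12,1),(1,1),(1,0)]⟩⟩,[.o ⟨false,0,⟨0,[(33,0)]⟩,⟨3,
  [(8,3),(7,0),(0,0),(18,1)]⟩⟩,.o ⟨false,1,⟨3,[(16,0),(0,0),(15,3),(2,1)]⟩,⟨0,[(8,0)]⟩⟩,.o ⟨false,1,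
  ⟨1,[(19,1),(9,0),(5,0)]⟩,⟨2,[(5,0),(12,2),(2,1),(2,0)]⟩⟩,.a ⟨true,0,⟨0,[(19,0)]⟩,⟨0,[(18,0)]⟩⟩
  ⟨false,1,⟨1,[(16,0),(18,0)]⟩,⟨0,[(4,0),(14,0)]⟩⟩ ⟨true,0,⟨0,[(18,0),(14,0)]⟩,⟨0,[(8,0),(10,
  0)]⟩⟩]⟩) (.I [0,0,-1,-1,0,0,0,0,1] (.I [0,1,1,0,0,0,0,0,-1] (.R ⟨1,false,false,false,[1,0,0,-1],
  [1,-1],[0,1,0,-1,0,0,0,0,-1],(⟨0,[(20,0)]⟩,⟨0,[(21,0)]⟩),(⟨0,[(32,0)]⟩,⟨0,[(33,0)]⟩),⟨0,[(3,0)]⟩,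
  .k,.k,(.x (-1) ⟨3,[(18,0),(0,0),(11,1),(0,3)]⟩ ⟨0,[(33,0)]⟩),(.r (-1) ⟨17,[(2,7),(1,1),(0,1),(6,
  1),(0,1),(4,17),(0,4),(11,0),(3,3)]⟩ ⟨0,[(1,0)]⟩),.k,.k,⟨true,0,⟨0,[(0,0)]⟩,⟨1,[(1,0),(0,0),(31,
  0),(2,0)]⟩⟩,⟨false,0,⟨2,[(0,0),(5,0),(0,0),(12,1),(2,0)]⟩,⟨0,[(21,0),(15,0)]⟩⟩,⟨false,0,⟨0,[(36,
  0)]⟩,⟨0,[(35,0),(2,0)]⟩⟩,⟨false,0,⟨0,[(6,0),(29,0)]⟩,⟨0,[(5,0),(18,0)]⟩⟩,⟨true,0,⟨0,[(40,0)]⟩,⟨0,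
  []⟩⟩,⟨false,0,⟨0,[(6,0)]⟩,⟨1,[(18,0),(2,1),(15,0)]⟩⟩,[.o ⟨false,0,⟨0,[(10,0)]⟩,⟨3,[(18,0),(0,0),
  (15,3),(2,1)]⟩⟩,.o ⟨false,1,⟨3,[(10,3),(7,0),(0,0),(18,1)]⟩,⟨0,[(35,0)]⟩⟩,.o ⟨false,1,⟨1,[(21,1),
  (9,0),(5,0)]⟩,⟨2,[(0,0),(5,0),(0,0),(12,1),(2,0)]⟩⟩,.a ⟨true,0,⟨0,[(21,0)]⟩,⟨0,[(20,0)]⟩⟩ ⟨false,
  1,⟨0,[(1,0),(16,0)]⟩,⟨1,[(2,1),(34,0),(0,0)]⟩⟩ ⟨true,0,⟨0,[(10,0),(9,0)]⟩,⟨0,[(21,0),(13,0)]⟩⟩]⟩)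
  (.I [0,0,-1,-1,1,0,0,1,-1] (.R ⟨1,false,false,false,[1,0,0,-1],[1,0,-1],[0,0,0,-1,0,0,0,0,-1],(⟨0,
  [(21,0)]⟩,⟨0,[(22,0)]⟩),(⟨0,[(30,0)]⟩,⟨0,[(31,0)]⟩),⟨0,[(4,0)]⟩,.k,.k,(.x (-1) ⟨3,[(19,0),(0,0),
  (11,1),(0,3)]⟩ ⟨0,[(34,0)]⟩),.k,(.r (-1) ⟨0,[(0,0)]⟩ ⟨9,[(3,3),(6,3),(3,1),(5,2),(6,1),(1,5),(2,
  0)]⟩),.k,⟨false,1,⟨0,[(0,0)]⟩,⟨14,[(1,5),(1,2),(4,1),(1,3),(3,1),(5,2),(8,10),(6,5)]⟩⟩,⟨true,0,⟨0,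
  [(21,0),(2,0)]⟩,⟨2,[(8,0),(9,0),(3,2)]⟩⟩,⟨true,0,⟨0,[(37,0)]⟩,⟨0,[(36,0)]⟩⟩,⟨false,0,⟨0,[(5,0),(6,
  0)]⟩,⟨0,[(1,0),(17,0),(2,0),(2,0)]⟩⟩,⟨false,1,⟨3,[(19,0),(0,0),(18,1)]⟩,⟨0,[]⟩⟩,⟨false,0,⟨0,[(7,
  0),(2,0)]⟩,⟨2,[(0,2),(7,0),(9,0),(3,2)]⟩⟩,[.o ⟨false,0,⟨0,[(10,0),(0,0)]⟩,⟨3,[(19,0),(0,0),(4,3),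
  (13,1)]⟩⟩,.o ⟨false,1,⟨2,[(6,0),(0,0),(4,0),(13,0),(5,0),(6,0)]⟩,⟨0,[(25,0)]⟩⟩,.o ⟨false,1,⟨1,
  [(22,1),(9,0),(5,0)]⟩,⟨8,[(3,1),(3,1),(0,0),(4,1),(1,1),(3,1),(1,6),(5,0)]⟩⟩,.a ⟨true,0,⟨0,[(22,
  0)]⟩,⟨0,[(21,0)]⟩⟩ ⟨false,1,⟨0,[(1,0),(17,0),(17,0)]⟩,⟨17,[(3,7),(1,1),(0,1),(6,1),(0,1),(5,4),
  (11,0),(3,3)]⟩⟩ ⟨true,0,⟨0,[(10,0),(0,0),(9,0)]⟩,⟨0,[(22,0),(2,0)]⟩⟩]⟩) (.R ⟨1,false,false,true,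
  [1,0,0,-1],[1,-1,1],[1,1,0,0,0,0,0,0,-1],(⟨0,[(21,0)]⟩,⟨0,[(22,0)]⟩),(⟨0,[(31,0),(1,0)]⟩,⟨0,[(9,
  0)]⟩),⟨0,[(4,0)]⟩,.k,.k,(.x (-1) ⟨3,[(19,0),(0,0),(11,1),(0,3)]⟩ ⟨0,[(34,0)]⟩),(.r 0 ⟨0,[(0,0),
  (18,0)]⟩ ⟨1,[(2,1),(22,1),(2,1),(9,0),(0,0)]⟩),.k,.k,⟨true,0,⟨0,[(0,0),(18,0)]⟩,⟨0,[(2,0),(10,0),
  (7,0),(0,0)]⟩⟩,⟨false,0,⟨8,[(3,0),(3,0),(0,4),(4,0),(1,0),(3,0),(1,7),(5,4)]⟩,⟨0,[(1,0),(0,0),(14,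
  0),(1,0),(2,0)]⟩⟩,⟨false,0,⟨0,[]⟩,⟨3,[(19,0),(0,0),(18,1)]⟩⟩,⟨false,0,⟨0,[(7,0),(17,0),(11,0)]⟩,
  ⟨0,[(6,0)]⟩⟩,⟨true,0,⟨0,[(36,0)]⟩,⟨0,[(37,0)]⟩⟩,⟨false,0,⟨0,[(7,0),(17,0)]⟩,⟨0,[(6,0),(30,0)]⟩⟩,
  [.o ⟨false,0,⟨0,[(11,0),(13,0)]⟩,⟨3,[(5,1),(0,1),(19,1),(5,0),(6,0)]⟩⟩,.o ⟨false,1,⟨3,[(11,3),(7,
  0),(0,0),(4,3),(13,1)]⟩,⟨0,[(10,0)]⟩⟩,.o ⟨false,1,⟨1,[(22,1),(9,0),(5,0)]⟩,⟨8,[(3,1),(3,1),(0,0),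
  (4,1),(1,1),(3,1),(1,6),(5,0)]⟩⟩,.a ⟨true,0,⟨0,[(22,0)]⟩,⟨0,[(21,0)]⟩⟩ ⟨false,1,⟨1,[(19,0),(18,
  0)]⟩,⟨9,[(2,0),(0,2),(16,2),(14,4),(1,1)]⟩⟩ ⟨true,0,⟨0,[(11,0),(9,0),(3,0)]⟩,⟨0,[(10,0),(11,
  0)]⟩⟩]⟩))) (.I [1,0,-1,-1,1,0,0,1,-1] (.I [0,-1,0,-1,0,0,0,0,1] (.R ⟨1,false,false,false,[1,0,0,
  -1],[1,-1],[1,1,0,0,0,0,0,0,-1],(⟨0,[(21,0)]⟩,⟨0,[(22,0)]⟩),(⟨0,[(33,0)]⟩,⟨0,[(34,0)]⟩),⟨0,[(4,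
  0)]⟩,.k,.k,(.x (-1) ⟨3,[(19,0),(0,0),(11,1),(0,3)]⟩ ⟨0,[(34,0)]⟩),(.x (-1) ⟨0,[(34,0),(3,0)]⟩ ⟨0,
  [(24,0),(2,0),(5,0)]⟩),.k,.k,⟨true,0,⟨0,[(2,0),(38,0)]⟩,⟨0,[(0,0)]⟩⟩,⟨false,0,⟨3,[(2,0),(4,0),(5,
  0),(1,0),(5,2),(5,0)]⟩,⟨0,[(22,0),(15,0)]⟩⟩,⟨false,0,⟨0,[]⟩,⟨3,[(19,0),(0,0),(18,1)]⟩⟩,⟨false,0,
  ⟨0,[(7,0),(29,0)]⟩,⟨0,[(6,0),(18,0)]⟩⟩,⟨true,0,⟨0,[(36,0)]⟩,⟨0,[(37,0)]⟩⟩,⟨false,0,⟨0,[(7,0)]⟩,⟨1,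
  [(19,0),(2,1),(15,0)]⟩⟩,[.o ⟨false,0,⟨0,[(11,0)]⟩,⟨3,[(19,0),(0,0),(15,3),(2,1)]⟩⟩,.o ⟨false,1,⟨3,
  [(11,3),(7,0),(0,0),(18,1)]⟩,⟨0,[(36,0)]⟩⟩,.o ⟨false,1,⟨1,[(22,1),(9,0),(5,0)]⟩,⟨3,[(2,0),(4,0),
  (5,0),(1,0),(5,2),(5,0)]⟩⟩,.a ⟨true,0,⟨0,[(22,0)]⟩,⟨0,[(21,0)]⟩⟩ ⟨false,1,⟨1,[(19,0),(18,0)]⟩,⟨15,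
  [(0,3),(2,3),(16,3),(6,0),(0,0),(6,5)]⟩⟩ ⟨true,0,⟨0,[(11,0),(9,0)]⟩,⟨0,[(22,0),(13,0)]⟩⟩]⟩) (.R
  ⟨1,false,false,false,[1,0,0,-1],[1,-1],[1,0,0,0,0,0,0,0,-1],(⟨0,[(21,0)]⟩,⟨0,[(22,0)]⟩),(⟨0,[(33,
  0)]⟩,⟨0,[(34,0)]⟩),⟨0,[(4,0)]⟩,.k,.k,(.x (-1) ⟨3,[(19,0),(0,0),(11,1),(0,3)]⟩ ⟨0,[(34,0)]⟩),(.r 0
  ⟨0,[(0,1),(2,0),(0,1),(6,1),(10,1),(11,1),(0,0),(2,0)]⟩ ⟨1,[(20,0),(16,1),(0,0)]⟩),.k,.k,⟨true,0,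
  ⟨0,[(2,0)]⟩,⟨0,[(3,0),(33,1),(0,0)]⟩⟩,⟨false,0,⟨3,[(2,0),(4,0),(5,0),(1,0),(5,2),(5,0)]⟩,⟨0,[(22,
  0),(15,0)]⟩⟩,⟨true,0,⟨0,[]⟩,⟨0,[(41,0)]⟩⟩,⟨false,0,⟨0,[(7,0),(29,0)]⟩,⟨0,[(6,0),(18,0)]⟩⟩,⟨false,
  1,⟨0,[(36,0),(2,0)]⟩,⟨0,[(37,0)]⟩⟩,⟨false,0,⟨0,[(7,0)]⟩,⟨1,[(19,0),(2,1),(15,0)]⟩⟩,[.o ⟨false,0,
  ⟨0,[(11,0)]⟩,⟨3,[(19,0),(0,0),(15,3),(2,1)]⟩⟩,.o ⟨false,1,⟨3,[(11,3),(7,0),(0,0),(18,1)]⟩,⟨0,[(36,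
  0)]⟩⟩,.o ⟨false,1,⟨1,[(22,1),(9,0),(5,0)]⟩,⟨3,[(2,0),(4,0),(5,0),(1,0),(5,2),(5,0)]⟩⟩,.a ⟨true,0,
  ⟨0,[(22,0)]⟩,⟨0,[(21,0)]⟩⟩ ⟨false,1,⟨0,[(0,0),(34,0),(1,0),(0,0)]⟩,⟨5,[(3,1),(16,1),(6,0),(0,0),
  (8,1)]⟩⟩ ⟨true,0,⟨0,[(11,0),(9,0)]⟩,⟨0,[(22,0),(13,0)]⟩⟩]⟩)) (.I [0,0,1,1,-1,0,0,0,2] (.R ⟨1,
  false,false,false,[1,0,0,-1],[1,-1],[1,1,0,0,0,0,0,0,-1],(⟨0,[(21,0)]⟩,⟨0,[(22,0)]⟩),(⟨0,[(33,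
  0)]⟩,⟨0,[(34,0)]⟩),⟨0,[(4,0)]⟩,.k,.k,(.x (-1) ⟨3,[(19,0),(0,0),(11,1),(0,3)]⟩ ⟨0,[(34,0)]⟩),(.x
  (-1) ⟨0,[(34,0),(3,0)]⟩ ⟨0,[(24,0),(2,0),(5,0)]⟩),.k,.k,⟨true,0,⟨0,[(2,0),(38,0)]⟩,⟨1,[(0,0),(34,
  0),(1,2),(0,0)]⟩⟩,⟨false,0,⟨3,[(2,0),(4,0),(5,0),(1,0),(5,2),(5,0)]⟩,⟨0,[(22,0),(15,0)]⟩⟩,⟨false,
  0,⟨0,[]⟩,⟨3,[(19,0),(0,0),(18,1)]⟩⟩,⟨false,0,⟨0,[(7,0),(29,0)]⟩,⟨0,[(6,0),(18,0)]⟩⟩,⟨true,0,⟨0,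
  [(36,0)]⟩,⟨0,[(37,0)]⟩⟩,⟨false,0,⟨0,[(7,0)]⟩,⟨1,[(19,0),(2,1),(15,0)]⟩⟩,[.o ⟨false,0,⟨0,[(11,0)]⟩,
  ⟨3,[(19,0),(0,0),(15,3),(2,1)]⟩⟩,.o ⟨false,1,⟨3,[(11,3),(7,0),(0,0),(18,1)]⟩,⟨0,[(36,0)]⟩⟩,.o
  ⟨false,1,⟨1,[(22,1),(9,0),(5,0)]⟩,⟨3,[(2,0),(4,0),(5,0),(1,0),(5,2),(5,0)]⟩⟩,.a ⟨true,0,⟨0,[(22,
  0)]⟩,⟨0,[(21,0)]⟩⟩ ⟨false,1,⟨1,[(19,0),(18,0)]⟩,⟨9,[(0,0),(2,1),(16,2),(14,4),(1,2)]⟩⟩ ⟨true,0,⟨0,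
  [(11,0),(9,0)]⟩,⟨0,[(22,0),(13,0)]⟩⟩]⟩) (.R ⟨1,false,false,false,[1,0,0,-1],[1,-1],[0,0,0,-1,0,0,
  0,0,-1],(⟨0,[(21,0)]⟩,⟨0,[(22,0)]⟩),(⟨0,[(33,0)]⟩,⟨0,[(34,0)]⟩),⟨0,[(4,0)]⟩,.k,.k,(.x (-1) ⟨3,
  [(19,0),(0,0),(11,1),(0,3)]⟩ ⟨0,[(34,0)]⟩),(.r 0 ⟨0,[(0,0),(0,0),(15,0),(7,0),(9,0)]⟩ ⟨1,[(20,0),
  (16,1),(0,0)]⟩),.k,.k,⟨true,0,⟨0,[(2,0),(34,0)]⟩,⟨0,[(3,0),(33,0),(0,0)]⟩⟩,⟨false,0,⟨3,[(2,0),(4,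
  0),(5,0),(1,0),(5,2),(5,0)]⟩,⟨0,[(22,0),(15,0)]⟩⟩,⟨true,0,⟨0,[(37,0)]⟩,⟨0,[(36,0)]⟩⟩,⟨false,0,⟨0,
  [(7,0),(29,0)]⟩,⟨0,[(6,0),(18,0)]⟩⟩,⟨false,1,⟨3,[(19,0),(0,0),(18,1)]⟩,⟨0,[]⟩⟩,⟨false,0,⟨0,[(7,
  0)]⟩,⟨9,[(0,3),(5,3),(13,0),(1,5),(2,3),(12,0)]⟩⟩,[.o ⟨false,0,⟨0,[(11,0)]⟩,⟨3,[(19,0),(0,0),(15,
  3),(2,1)]⟩⟩,.o ⟨false,1,⟨3,[(11,3),(7,0),(0,0),(18,1)]⟩,⟨0,[(36,0)]⟩⟩,.o ⟨false,1,⟨1,[(22,1),(9,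
  0),(5,0)]⟩,⟨3,[(2,0),(4,0),(5,0),(1,0),(5,2),(5,0)]⟩⟩,.a ⟨true,0,⟨0,[(22,0)]⟩,⟨0,[(21,0)]⟩⟩
  ⟨false,1,⟨1,[(0,0),(34,0),(1,0),(0,0)]⟩,⟨17,[(3,7),(1,1),(0,1),(6,1),(0,1),(5,4),(11,0),(3,3)]⟩⟩
  ⟨true,0,⟨0,[(11,0),(9,0)]⟩,⟨0,[(22,0),(13,0)]⟩⟩]⟩))))))) (.I [0,0,-1,-1,0,0,0,0,1] (.K ⟨0,[0,0,0,
  1],0,(-1),(⟨0,[(17,0)]⟩,⟨0,[(16,0)]⟩),.k,(.r 0 ⟨0,[(0,0)]⟩ ⟨3,[(9,3),(4,2),(0,0),(3,3)]⟩),(.x 0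
  ⟨0,[(29,0)]⟩ ⟨3,[(14,0),(0,0),(11,1),(0,3)]⟩),.k,.k,[⟨0,[(17,0)]⟩,⟨0,[(16,0)]⟩,⟨1,[(14,0),(2,1),
  (15,0),(2,1)]⟩,⟨0,[(1,0),(3,0)]⟩]⟩) (.K ⟨0,[0,0,0,1],0,(-1),(⟨0,[(17,0)]⟩,⟨0,[(16,0)]⟩),.k,(.x 0
  ⟨0,[(19,0),(2,0),(5,0)]⟩ ⟨0,[(29,0),(3,0)]⟩),(.x 0 ⟨0,[(29,0)]⟩ ⟨3,[(14,0),(0,0),(11,1),(0,3)]⟩),
  .k,.k,[⟨0,[(17,0)]⟩,⟨0,[(16,0)]⟩,⟨1,[(14,0),(2,1),(15,0),(2,1)]⟩,⟨0,[(1,0),(3,0)]⟩]⟩))))) (.Q [0,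
  0,0,-1,0,0,1,1,0,1,-1] (.p false [0,0,1] [1] (⟨0,[(22,0)]⟩,⟨0,[(21,0)]⟩) .k 1 (⟨0,[]⟩,⟨0,[]⟩) .k
  .k) (.R ⟨2,true,false,false,[0,1],[1,1,-1],[0,1,1],(⟨0,[]⟩,⟨0,[]⟩),(⟨0,[(22,0),(3,0)]⟩,⟨0,[(1,
  0)]⟩),⟨0,[]⟩,.k,.k,.k,.k,.k,.k,⟨true,0,⟨0,[(0,0),(2,0),(5,0)]⟩,⟨2,[(2,1),(3,1),(0,0),(11,0),(7,
  1)]⟩⟩,⟨false,1,⟨0,[(16,0),(13,0)]⟩,⟨1,[(10,0),(2,0),(0,0)]⟩⟩,⟨false,0,⟨0,[(29,0)]⟩,⟨0,[(28,0),(2,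
  0)]⟩⟩,⟨true,0,⟨0,[(2,0),(0,0)]⟩,⟨0,[(0,0),(27,0)]⟩⟩,⟨true,0,⟨0,[(33,0)]⟩,⟨0,[]⟩⟩,⟨false,1,⟨1,[(2,
  1),(21,0),(6,0)]⟩,⟨0,[(0,0)]⟩⟩,[]⟩) (.Q [0,-1,0,-1,0,0,-1,-1,0,-1,1] (.p true [0,0,1] [1] (⟨0,
  [(23,0)]⟩,⟨0,[(22,0)]⟩) .k 1 (⟨0,[]⟩,⟨0,[]⟩) .k .k) (.Q [0,1,0,1,0,0,1,1,0,2,-1] (.p false [-1,1,
  1] [1] (⟨0,[(9,0)]⟩,⟨0,[(23,0),(2,0)]⟩) .k 1 (⟨0,[]⟩,⟨0,[]⟩) .k .k) (.K ⟨1,[2,-1,-1],0,0,(⟨0,[(24,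
  0),(2,0)]⟩,⟨0,[(10,0)]⟩),.k,(.r (-1) ⟨0,[(23,0),(7,1),(0,0)]⟩ ⟨1,[(0,0),(6,0),(10,0),(10,1),(0,
  2)]⟩),.k,.k,.k,[⟨1,[(12,0),(2,2),(0,2)]⟩,⟨10,[(2,1),(4,3),(1,1),(8,11),(2,4),(7,0)]⟩,⟨0,[(0,0)]⟩,
  ⟨0,[(1,0)]⟩]⟩) (.I [1,1,1,0,-1,0,0,0,-1] (.Q [0,1,1,0,0,0,0,0,1,0,0,-1] (.p false [0,0,0,1] []
  (⟨0,[(17,0)]⟩,⟨0,[(16,0)]⟩) .k 0 (⟨0,[]⟩,⟨0,[]⟩) .k .k) (.K ⟨0,[0,0,0,1],0,0,(⟨0,[(18,0)]⟩,⟨0,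
  [(17,0)]⟩),.k,(.r (-1) ⟨1,[(16,0),(16,1),(0,0)]⟩ ⟨2,[(1,0),(13,0),(15,1),(0,2)]⟩),(.x 0 ⟨0,[(30,
  0)]⟩ ⟨3,[(15,0),(0,0),(11,1),(0,3)]⟩),.k,.k,[⟨0,[(18,0)]⟩,⟨0,[(17,0)]⟩,⟨0,[(1,0),(16,0),(15,0)]⟩,
  ⟨0,[(0,0)]⟩]⟩) (.R ⟨0,false,false,false,[1,0,-1],[1,0,0,-1],[1,1,1],(⟨0,[(26,0)]⟩,⟨0,[(27,0)]⟩),
  (⟨0,[(17,0)]⟩,⟨0,[(18,0)]⟩),⟨0,[(12,0)]⟩,.k,.k,.k,.k,.k,.k,⟨true,0,⟨0,[(1,0),(14,0)]⟩,⟨2,[(0,1),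
  (0,0),(15,1),(10,0),(2,0)]⟩⟩,⟨false,1,⟨11,[(0,1),(1,1),(1,1),(9,5),(1,0),(1,9),(2,3),(12,10)]⟩,⟨0,
  [(17,0),(2,0)]⟩⟩,⟨false,0,⟨0,[(9,0),(7,0),(0,0)]⟩,⟨1,[(25,1),(8,0),(0,0)]⟩⟩,⟨true,0,⟨0,[(0,0),(20,
  0)]⟩,⟨2,[(1,2),(0,0),(1,0),(11,2),(0,2),(4,0)]⟩⟩,⟨false,0,⟨0,[]⟩,⟨0,[]⟩⟩,⟨false,0,⟨0,[]⟩,⟨0,[]⟩⟩,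
  [.o ⟨false,0,⟨2,[(0,2),(3,0),(6,0),(9,1)]⟩,⟨7,[(15,0),(0,4),(0,7),(2,3),(2,3),(4,1)]⟩⟩,.a ⟨true,0,
  ⟨0,[(0,0)]⟩,⟨0,[(1,0),(14,0),(0,0)]⟩⟩ ⟨false,0,⟨0,[]⟩,⟨3,[(15,0),(0,0),(17,1)]⟩⟩ ⟨true,0,⟨2,[(0,
  2),(1,0),(7,0),(3,0),(6,0)]⟩,⟨0,[(1,0),(14,0),(0,0),(2,0)]⟩⟩,.o ⟨false,1,⟨3,[(15,0),(0,0),(3,3),
  (13,1)]⟩,⟨2,[(2,0),(7,0),(3,0),(6,0)]⟩⟩,.o ⟨false,0,⟨0,[(20,0)]⟩,⟨7,[(14,3),(0,0),(0,0),(11,1),(5,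
  3)]⟩⟩]⟩)) (.Q [0,1,1,0,-1,0,0,0,1,0,0,-1] (.p false [0,0,0,1] [] (⟨0,[(17,0)]⟩,⟨0,[(16,0)]⟩) .k 0
  (⟨0,[]⟩,⟨0,[]⟩) .k .k) (.I [0,0,-1,-1,0,0,0,0,1] (.K ⟨0,[0,0,0,1],0,(-1),(⟨0,[(19,0)]⟩,⟨0,[(18,
  0)]⟩),.k,(.r 0 ⟨0,[(0,0)]⟩ ⟨3,[(11,3),(4,2),(0,0),(3,3)]⟩),(.x 0 ⟨0,[(31,0)]⟩ ⟨3,[(16,0),(0,0),
  (11,1),(0,3)]⟩),.k,.k,[⟨0,[(19,0)]⟩,⟨0,[(18,0)]⟩,⟨1,[(16,0),(2,1),(15,0),(2,1)]⟩,⟨0,[(1,0)]⟩]⟩)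
  (.K ⟨0,[0,0,0,1],0,(-1),(⟨0,[(19,0)]⟩,⟨0,[(18,0)]⟩),.k,(.x 0 ⟨0,[(21,0),(2,0),(5,0)]⟩ ⟨0,[(31,0),
  (3,0)]⟩),(.x 0 ⟨0,[(31,0)]⟩ ⟨3,[(16,0),(0,0),(11,1),(0,3)]⟩),.k,.k,[⟨0,[(19,0)]⟩,⟨0,[(18,0)]⟩,⟨1,
  [(16,0),(2,1),(15,0),(2,1)]⟩,⟨0,[(1,0)]⟩]⟩)) (.Q [0,1,-1,0,0,0,0,0,-1,0,0,1] (.p true [0,0,0,1]
  [] (⟨0,[(18,0)]⟩,⟨0,[(17,0)]⟩) .k 0 (⟨0,[]⟩,⟨0,[]⟩) .k .k) (.Q [0,0,-1,0,0,0,1,1,-1,0,-1,1] (.p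
  false [0,0,1] [0,0,0,1] (⟨0,[(28,0)]⟩,⟨0,[(27,0)]⟩) .k 2 (⟨0,[(19,0)]⟩,⟨0,[(18,0)]⟩) .k (.x (-1)
  ⟨7,[(15,3),(0,0),(0,0),(10,7),(0,1),(5,3)]⟩ ⟨0,[(21,0),(5,0)]⟩)) (.Q [0,0,0,0,0,-1,0,0,0,1,0,-1]
  (.ed true [0,1,0,1] .k) (.R ⟨1,false,false,false,[1,0,0,-1],[1,0,-1],[1,1,0,0,0,0,0,0,-1],(⟨0,
  [(20,0)]⟩,⟨0,[(21,0)]⟩),(⟨0,[(29,0)]⟩,⟨0,[(30,0)]⟩),⟨0,[(0,0)]⟩,.k,.k,(.x (-1) ⟨3,[(18,0),(0,0),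
  (11,1),(0,3)]⟩ ⟨0,[(33,0)]⟩),.k,(.x 0 ⟨2,[(5,0),(2,2),(4,0),(3,0),(6,0)]⟩ ⟨3,[(18,0),(0,0),(3,3),
  (5,3),(3,3),(3,1)]⟩),.k,⟨false,0,⟨0,[(1,0),(8,0),(5,0),(3,0)]⟩,⟨1,[(19,0),(8,1),(9,0)]⟩⟩,⟨true,0,
  ⟨0,[(20,0),(2,0)]⟩,⟨2,[(5,0),(7,0),(3,0),(3,2),(2,0)]⟩⟩,⟨false,0,⟨0,[]⟩,⟨3,[(18,0),(0,0),(18,
  1)]⟩⟩,⟨false,1,⟨1,[(19,0),(0,1),(2,1),(4,1),(9,0)]⟩,⟨0,[(1,0)]⟩⟩,⟨true,0,⟨0,[(35,0)]⟩,⟨0,[(36,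
  0)]⟩⟩,⟨false,1,⟨1,[(7,0),(1,0),(9,0),(0,1),(2,0),(2,0),(11,0)]⟩,⟨0,[(1,0),(34,0)]⟩⟩,[.o ⟨false,0,
  ⟨2,[(5,0),(1,0),(17,0)]⟩,⟨3,[(18,0),(0,0),(4,3),(13,1)]⟩⟩,.o ⟨false,1,⟨9,[(5,1),(3,1),(15,5),(5,
  2),(6,6)]⟩,⟨0,[(24,0)]⟩⟩,.o ⟨false,1,⟨1,[(21,1),(9,0),(5,0)]⟩,⟨11,[(5,0),(1,1),(4,3),(1,0),(5,11),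
  (2,1),(2,5)]⟩⟩,.a ⟨true,0,⟨0,[(21,0)]⟩,⟨0,[(20,0)]⟩⟩ ⟨false,0,⟨2,[(1,1),(0,0),(2,0),(1,0),(12,
  2)]⟩,⟨1,[(19,0),(6,0),(0,0),(10,0)]⟩⟩ ⟨true,0,⟨2,[(5,0),(1,0),(12,2),(4,0)]⟩,⟨0,[(21,0),(2,
  0)]⟩⟩]⟩) (.R ⟨0,false,false,false,[1,0,0,-1],[1,0,-1],[0,1,0,0,0,0,0,0,-1],(⟨0,[(20,0)]⟩,⟨0,[(21,
  0)]⟩),(⟨0,[(29,0)]⟩,⟨0,[(30,0)]⟩),⟨0,[(0,0)]⟩,.k,.k,(.x (-1) ⟨3,[(18,0),(0,0),(11,1),(0,3)]⟩ ⟨0,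
  [(33,0)]⟩),.k,.k,.k,⟨false,0,⟨0,[(1,0),(8,0),(5,0),(3,0)]⟩,⟨1,[(19,0),(8,1),(9,0)]⟩⟩,⟨true,0,⟨0,
  [(20,0),(2,0)]⟩,⟨2,[(5,0),(7,0),(3,0),(3,2),(2,0)]⟩⟩,⟨true,0,⟨0,[(40,0)]⟩,⟨0,[]⟩⟩,⟨false,1,⟨1,
  [(19,0),(0,1),(2,1),(4,1),(9,0)]⟩,⟨0,[(1,0)]⟩⟩,⟨false,0,⟨0,[]⟩,⟨0,[]⟩⟩,⟨false,0,⟨0,[]⟩,⟨0,[]⟩⟩,
  [.o ⟨false,0,⟨2,[(5,0),(1,0),(17,0)]⟩,⟨3,[(18,0),(0,0),(4,3),(13,1)]⟩⟩,.o ⟨false,1,⟨9,[(5,1),(3,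
  1),(15,5),(5,2),(6,6)]⟩,⟨0,[(24,0)]⟩⟩,.o ⟨false,1,⟨1,[(21,1),(9,0),(5,0)]⟩,⟨11,[(5,0),(1,1),(4,3),
  (1,0),(5,11),(2,1),(2,5)]⟩⟩,.a ⟨true,0,⟨0,[(21,0)]⟩,⟨0,[(20,0)]⟩⟩ ⟨false,0,⟨2,[(1,1),(0,0),(2,0),
  (1,0),(12,2)]⟩,⟨1,[(19,0),(6,0),(0,0),(10,0)]⟩⟩ ⟨true,0,⟨2,[(5,0),(1,0),(12,2),(4,0)]⟩,⟨0,[(21,0),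
  (2,0)]⟩⟩]⟩)) (.K ⟨0,[0,0,0,1],0,0,(⟨0,[(20,0)]⟩,⟨0,[(19,0)]⟩),.k,(.r (-1) ⟨1,[(18,0),(16,1),(0,
  0)]⟩ ⟨4,[(1,4),(4,1),(4,1),(7,4),(2,0),(2,2),(7,3),(0,2)]⟩),(.x 0 ⟨0,[(32,0)]⟩ ⟨3,[(17,0),(0,0),
  (11,1),(0,3)]⟩),.k,.k,[⟨0,[(20,0)]⟩,⟨0,[(19,0)]⟩,⟨0,[(1,0)]⟩,⟨0,[(0,0),(22,0)]⟩]⟩)) (.Q [0,0,0,0,
  0,-1,0,0,0,1,0,-1] (.ed true [0,1,0,1] .k) (.I [1,-1,-2,-1,1,0,0,0,-1] (.R ⟨1,false,false,true,[1,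
  0,0,-1],[0,1],[1,0,0,0,0,0,0,0,-1],(⟨0,[(20,0)]⟩,⟨0,[(21,0)]⟩),(⟨0,[(33,0)]⟩,⟨0,[(32,0)]⟩),⟨0,[(1,
  0)]⟩,.k,.k,(.x (-1) ⟨3,[(18,0),(0,0),(11,1),(0,3)]⟩ ⟨0,[(33,0)]⟩),(.x (-1) ⟨3,[(18,0),(0,0),(11,
  1),(0,3)]⟩ ⟨0,[(33,0)]⟩),(.r (-1) ⟨0,[(0,0),(35,0),(3,0)]⟩ ⟨0,[(2,0),(10,0),(7,0),(1,0),(11,0)]⟩),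
  .k,⟨false,1,⟨0,[(0,0)]⟩,⟨0,[(2,0),(18,0),(13,0),(4,0)]⟩⟩,⟨true,0,⟨0,[(20,0)]⟩,⟨11,[(5,0),(1,1),(4,
  3),(1,0),(6,11),(1,1),(2,5)]⟩⟩,⟨true,0,⟨0,[]⟩,⟨0,[(40,0)]⟩⟩,⟨false,0,⟨1,[(2,1),(10,0),(2,0),(3,0),
  (0,0),(18,0)]⟩,⟨0,[(3,0),(6,0)]⟩⟩,⟨false,1,⟨0,[(35,0),(2,0)]⟩,⟨0,[(36,0)]⟩⟩,⟨false,0,⟨0,[(2,0),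
  (10,0),(2,0)]⟩,⟨0,[(3,0),(6,0),(25,0)]⟩⟩,[.o ⟨false,0,⟨0,[(35,0)]⟩,⟨3,[(10,3),(7,0),(0,0),(18,
  1)]⟩⟩,.o ⟨false,1,⟨3,[(18,0),(0,0),(15,3),(2,1)]⟩,⟨0,[(10,0)]⟩⟩,.o ⟨false,1,⟨1,[(21,1),(9,0),(5,
  0)]⟩,⟨11,[(5,0),(1,1),(4,3),(1,0),(5,11),(2,1),(2,5)]⟩⟩,.a ⟨true,0,⟨0,[(21,0)]⟩,⟨0,[(20,0)]⟩⟩
  ⟨false,1,⟨25,[(0,15),(6,3),(4,3),(0,7),(2,3),(1,4),(15,1),(3,4)]⟩,⟨0,[(2,0),(18,0),(18,0)]⟩⟩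
  ⟨true,0,⟨0,[(20,0),(14,0)]⟩,⟨0,[(10,0),(10,0)]⟩⟩]⟩) (.I [0,0,-1,-1,1,0,0,1,-1] (.R ⟨1,false,false,
  false,[1,0,0,-1],[1,0,-1],[0,0,0,-1,0,0,0,0,-1],(⟨0,[(21,0)]⟩,⟨0,[(22,0)]⟩),(⟨0,[(30,0)]⟩,⟨0,[(31,
  0)]⟩),⟨0,[(2,0)]⟩,.k,.k,(.x (-1) ⟨3,[(19,0),(0,0),(11,1),(0,3)]⟩ ⟨0,[(34,0)]⟩),.k,(.r (-1) ⟨0,[(0,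
  0)]⟩ ⟨3,[(1,1),(6,0),(5,0),(5,0),(8,2),(9,0)]⟩),.k,⟨false,1,⟨0,[(0,0)]⟩,⟨0,[(1,0),(5,0),(6,0),(23,
  0)]⟩⟩,⟨true,0,⟨0,[(21,0),(2,0)]⟩,⟨2,[(6,0),(7,0),(3,0),(3,2),(2,0)]⟩⟩,⟨true,0,⟨0,[(37,0)]⟩,⟨0,
  [(36,0)]⟩⟩,⟨false,0,⟨5,[(1,0),(1,2),(3,2),(2,1),(9,0),(0,2),(4,0),(8,0)]⟩,⟨0,[(4,0),(20,0)]⟩⟩,
  ⟨false,1,⟨3,[(19,0),(0,0),(18,1)]⟩,⟨0,[]⟩⟩,⟨false,0,⟨0,[(3,0),(6,0)]⟩,⟨2,[(0,1),(3,0),(6,0),(6,0),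
  (3,1),(2,0)]⟩⟩,[.o ⟨false,0,⟨2,[(6,0),(1,0),(17,0)]⟩,⟨3,[(19,0),(0,0),(4,3),(13,1)]⟩⟩,.o ⟨false,1,
  ⟨9,[(6,1),(3,1),(15,5),(5,2),(6,6)]⟩,⟨0,[(25,0)]⟩⟩,.o ⟨false,1,⟨1,[(22,1),(9,0),(5,0)]⟩,⟨7,[(1,1),
  (4,1),(6,1),(5,0),(1,7),(5,1),(4,0)]⟩⟩,.a ⟨true,0,⟨0,[(22,0)]⟩,⟨0,[(21,0)]⟩⟩ ⟨false,1,⟨3,[(0,1),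
  (3,1),(1,0),(0,0),(10,0),(2,1)]⟩,⟨2,[(1,1),(3,0),(30,0),(2,0)]⟩⟩ ⟨true,0,⟨2,[(6,0),(1,0),(12,2),
  (4,0)]⟩,⟨0,[(22,0),(2,0)]⟩⟩]⟩) (.R ⟨1,false,false,false,[1,0,0,-1],[1,0,-1],[1,1,0,0,0,0,0,0,-1],
  (⟨0,[(21,0)]⟩,⟨0,[(22,0)]⟩),(⟨0,[(30,0)]⟩,⟨0,[(31,0)]⟩),⟨0,[(2,0)]⟩,.k,.k,(.x (-1) ⟨3,[(19,0),(0,
  0),(11,1),(0,3)]⟩ ⟨0,[(34,0)]⟩),.k,(.x 0 ⟨2,[(6,0),(2,2),(4,0),(3,0),(6,0)]⟩ ⟨3,[(19,0),(0,0),(3,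
  3),(5,3),(3,3),(3,1)]⟩),.k,⟨false,1,⟨0,[(4,0),(6,0),(5,0),(3,0),(3,0)]⟩,⟨3,[(0,1),(4,1),(1,1),(10,
  0),(2,0),(0,0)]⟩⟩,⟨true,0,⟨0,[(21,0),(2,0)]⟩,⟨4,[(0,0),(3,0),(1,0),(11,1),(3,3),(2,1)]⟩⟩,⟨false,0,
  ⟨0,[]⟩,⟨3,[(19,0),(0,0),(18,1)]⟩⟩,⟨false,0,⟨7,[(0,0),(2,4),(3,2),(2,1),(9,0),(0,2),(4,1),(1,0),(6,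
  0)]⟩,⟨0,[(4,0),(20,0)]⟩⟩,⟨true,0,⟨0,[(36,0)]⟩,⟨0,[(37,0)]⟩⟩,⟨false,0,⟨0,[(3,0),(6,0)]⟩,⟨0,[(4,0),
  (20,0),(11,0)]⟩⟩,[.o ⟨false,0,⟨2,[(6,0),(1,0),(17,0)]⟩,⟨3,[(19,0),(0,0),(4,3),(13,1)]⟩⟩,.o ⟨false,
  1,⟨9,[(6,1),(3,1),(15,5),(5,2),(6,6)]⟩,⟨0,[(25,0)]⟩⟩,.o ⟨false,1,⟨1,[(22,1),(9,0),(5,0)]⟩,⟨7,[(1,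
  1),(4,1),(6,1),(5,0),(1,7),(5,1),(4,0)]⟩⟩,.a ⟨true,0,⟨0,[(22,0)]⟩,⟨0,[(21,0)]⟩⟩ ⟨false,1,⟨1,[(19,
  0),(18,0)]⟩,⟨1,[(1,0),(3,0),(29,0),(1,0)]⟩⟩ ⟨true,0,⟨2,[(6,0),(1,0),(12,2),(4,0)]⟩,⟨0,[(22,0),(2,
  0)]⟩⟩]⟩))) (.I [1,0,0,0,0,0,0,0,1] (.R ⟨0,false,false,false,[1,0,0,-1],[1,0,-1],[0,1,0,0,0,0,0,0,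
  -1],(⟨0,[(20,0)]⟩,⟨0,[(21,0)]⟩),(⟨0,[(29,0)]⟩,⟨0,[(30,0)]⟩),⟨0,[(1,0)]⟩,.k,.k,(.x (-1) ⟨3,[(18,0),
  (0,0),(11,1),(0,3)]⟩ ⟨0,[(33,0)]⟩),.k,.k,.k,⟨false,1,⟨0,[(3,0),(6,0),(5,0),(3,0),(3,0)]⟩,⟨0,[(0,
  0),(5,0),(6,0)]⟩⟩,⟨true,0,⟨0,[(20,0),(2,0)]⟩,⟨2,[(5,0),(7,0),(3,0),(3,2),(2,0)]⟩⟩,⟨true,0,⟨0,[(40,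
  0)]⟩,⟨0,[]⟩⟩,⟨false,0,⟨3,[(0,0),(1,2),(3,0),(2,0),(10,0),(4,1),(8,0)]⟩,⟨0,[(3,0),(20,0)]⟩⟩,⟨false,
  0,⟨0,[]⟩,⟨0,[]⟩⟩,⟨false,0,⟨0,[]⟩,⟨0,[]⟩⟩,[.o ⟨false,0,⟨2,[(5,0),(1,0),(17,0)]⟩,⟨3,[(18,0),(0,0),
  (4,3),(13,1)]⟩⟩,.o ⟨false,1,⟨9,[(5,1),(3,1),(15,5),(5,2),(6,6)]⟩,⟨0,[(24,0)]⟩⟩,.o ⟨false,1,⟨1,
  [(21,1),(9,0),(5,0)]⟩,⟨11,[(5,0),(1,1),(4,3),(1,0),(5,11),(2,1),(2,5)]⟩⟩,.a ⟨true,0,⟨0,[(21,0)]⟩,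
  ⟨0,[(20,0)]⟩⟩ ⟨false,1,⟨1,[(18,0),(18,0)]⟩,⟨3,[(0,3),(25,0),(0,0),(6,1)]⟩⟩ ⟨true,0,⟨2,[(5,0),(1,
  0),(12,2),(4,0)]⟩,⟨0,[(21,0),(2,0)]⟩⟩]⟩) (.R ⟨0,false,false,true,[1,0,0,-1],[0,1],[0,1,0,0,0,0,0,
  0,-1],(⟨0,[(20,0)]⟩,⟨0,[(21,0)]⟩),(⟨0,[(33,0)]⟩,⟨0,[(32,0)]⟩),⟨0,[(1,0)]⟩,.k,.k,(.x (-1) ⟨3,[(18,
  0),(0,0),(11,1),(0,3)]⟩ ⟨0,[(33,0)]⟩),(.x (-1) ⟨3,[(18,0),(0,0),(11,1),(0,3)]⟩ ⟨0,[(33,0)]⟩),.k,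
  .k,⟨false,1,⟨0,[(0,0),(35,0),(0,0)]⟩,⟨0,[(2,0),(18,0),(13,0)]⟩⟩,⟨true,0,⟨0,[(20,0)]⟩,⟨11,[(5,0),
  (1,1),(4,3),(1,0),(6,11),(1,1),(2,5)]⟩⟩,⟨true,0,⟨0,[(40,0)]⟩,⟨0,[]⟩⟩,⟨false,0,⟨1,[(2,1),(10,0),(2,
  0),(3,0),(0,0),(18,0)]⟩,⟨0,[(3,0),(6,0)]⟩⟩,⟨false,0,⟨0,[]⟩,⟨0,[]⟩⟩,⟨false,0,⟨0,[]⟩,⟨0,[]⟩⟩,[.o
  ⟨false,0,⟨0,[(35,0)]⟩,⟨3,[(10,3),(7,0),(0,0),(18,1)]⟩⟩,.o ⟨false,1,⟨3,[(18,0),(0,0),(15,3),(2,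
  1)]⟩,⟨0,[(10,0)]⟩⟩,.o ⟨false,1,⟨1,[(21,1),(9,0),(5,0)]⟩,⟨6,[(0,0),(1,0),(4,0),(4,1),(1,0),(5,5),
  (2,0),(2,2)]⟩⟩,.a ⟨true,0,⟨0,[(21,0)]⟩,⟨0,[(20,0)]⟩⟩ ⟨false,1,⟨1,[(18,0),(18,0)]⟩,⟨0,[(2,0),(18,
  0)]⟩⟩ ⟨true,0,⟨0,[(20,0),(14,0)]⟩,⟨0,[(10,0),(10,0)]⟩⟩]⟩))))))) (.Q [0,-1,-1,-1,1,0,0,0,-1,-1,0,
  1] (.p true [0,0,0,1] [1] (⟨0,[(15,0)]⟩,⟨0,[(14,0)]⟩) .k 1 (⟨0,[]⟩,⟨0,[]⟩) .k .k) (.I [1,-1,0,0,0,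
  0,0,-1,1] (.Q [0,0,0,0,0,1,0,0,0,-1,0,1] (.ed false [0,1,0,1] .k) (.R ⟨0,false,false,false,[1,0,0,
  -1],[1,0,-1],[0,1,0,0,0,0,0,0,-1],(⟨0,[(17,0)]⟩,⟨0,[(18,0)]⟩),(⟨0,[(26,0)]⟩,⟨0,[(27,0)]⟩),⟨0,[(0,
  0)]⟩,.k,.k,(.x (-1) ⟨3,[(15,0),(0,0),(11,1),(0,3)]⟩ ⟨0,[(30,0)]⟩),.k,.k,.k,⟨false,1,⟨0,[(2,0),(10,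
  0),(3,0),(3,0)]⟩,⟨0,[(1,0)]⟩⟩,⟨true,0,⟨0,[(17,0),(2,0)]⟩,⟨0,[(7,0),(2,0),(7,0)]⟩⟩,⟨true,0,⟨0,[(37,
  0)]⟩,⟨0,[]⟩⟩,⟨false,0,⟨0,[(1,0),(15,0),(2,0)]⟩,⟨0,[(2,0),(0,0)]⟩⟩,⟨false,0,⟨0,[]⟩,⟨0,[]⟩⟩,⟨false,
  0,⟨0,[]⟩,⟨0,[]⟩⟩,[.o ⟨false,0,⟨1,[(4,0),(3,0)]⟩,⟨3,[(15,0),(0,0),(4,3),(13,1)]⟩⟩,.o ⟨false,1,⟨3,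
  [(4,0),(3,0),(13,1),(5,0),(6,2)]⟩,⟨0,[(21,0)]⟩⟩,.o ⟨false,1,⟨1,[(18,1),(9,0),(5,0)]⟩,⟨10,[(4,1),
  (4,3),(1,1),(5,10),(2,0),(2,4),(7,0)]⟩⟩,.a ⟨true,0,⟨0,[(18,0)]⟩,⟨0,[(17,0)]⟩⟩ ⟨false,1,⟨1,[(15,0),
  (18,0)]⟩,⟨0,[(1,0),(7,0),(7,0),(0,0)]⟩⟩ ⟨true,0,⟨1,[(4,0),(3,0),(8,1)]⟩,⟨0,[(18,0),(2,0)]⟩⟩]⟩)
  (.I [0,0,-1,-1,1,0,0,1,-1] (.R ⟨1,false,false,false,[1,0,0,-1],[1,0,-1],[0,0,0,-1,0,0,0,0,-1],(⟨0,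
  [(18,0)]⟩,⟨0,[(19,0)]⟩),(⟨0,[(27,0)]⟩,⟨0,[(28,0)]⟩),⟨0,[(1,0)]⟩,.k,.k,(.x (-1) ⟨3,[(16,0),(0,0),
  (11,1),(0,3)]⟩ ⟨0,[(31,0)]⟩),.k,(.r (-1) ⟨0,[(0,0)]⟩ ⟨1,[(2,1),(21,0),(0,0),(7,1)]⟩),.k,⟨false,1,
  ⟨0,[(0,0)]⟩,⟨0,[(2,0),(30,0)]⟩⟩,⟨true,0,⟨0,[(18,0),(2,0)]⟩,⟨0,[(8,0),(2,0),(7,0)]⟩⟩,⟨true,0,⟨0,
  [(34,0)]⟩,⟨0,[(33,0)]⟩⟩,⟨false,0,⟨0,[(2,0),(15,0),(2,0)]⟩,⟨0,[(3,0),(0,0)]⟩⟩,⟨false,1,⟨3,[(16,0),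
  (0,0),(18,1)]⟩,⟨0,[]⟩⟩,⟨false,0,⟨2,[(2,2),(2,0),(4,0),(3,0),(3,2),(2,0),(10,0),(0,0)]⟩,⟨2,[(0,1),
  (2,0),(11,0),(3,1),(2,0)]⟩⟩,[.o ⟨false,0,⟨1,[(5,0),(3,0)]⟩,⟨3,[(16,0),(0,0),(4,3),(13,1)]⟩⟩,.o
  ⟨false,1,⟨3,[(5,0),(3,0),(13,1),(5,0),(6,2)]⟩,⟨0,[(22,0)]⟩⟩,.o ⟨false,1,⟨1,[(19,1),(9,0),(5,0)]⟩,
  ⟨10,[(5,1),(4,3),(1,1),(5,10),(2,0),(2,4),(7,0)]⟩⟩,.a ⟨true,0,⟨0,[(19,0)]⟩,⟨0,[(18,0)]⟩⟩ ⟨false,1,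
  ⟨0,[(3,0),(14,0)]⟩,⟨0,[(2,0),(1,0),(16,0)]⟩⟩ ⟨true,0,⟨1,[(5,0),(3,0),(8,1)]⟩,⟨0,[(19,0),(2,
  0)]⟩⟩]⟩) (.R ⟨1,false,false,false,[1,0,0,-1],[1,0,-1],[1,1,0,0,0,0,0,0,-1],(⟨0,[(18,0)]⟩,⟨0,[(19,
  0)]⟩),(⟨0,[(27,0)]⟩,⟨0,[(28,0)]⟩),⟨0,[(1,0)]⟩,.k,.k,(.x (-1) ⟨3,[(16,0),(0,0),(11,1),(0,3)]⟩ ⟨0,
  [(31,0)]⟩),.k,(.x 0 ⟨0,[(6,0),(1,0),(2,0)]⟩ ⟨3,[(16,0),(0,0),(3,3),(5,3),(3,3),(3,1)]⟩),.k,⟨false,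
  1,⟨0,[(3,0),(10,0),(3,0),(3,0)]⟩,⟨0,[(0,0),(3,0),(0,0),(0,2),(1,2),(18,2),(3,2),(0,0),(2,0)]⟩⟩,
  ⟨true,0,⟨0,[(18,0),(2,0)]⟩,⟨2,[(0,0),(2,0),(11,0),(3,1),(2,0)]⟩⟩,⟨false,0,⟨0,[]⟩,⟨3,[(16,0),(0,0),
  (18,1)]⟩⟩,⟨false,0,⟨0,[(2,0),(15,0),(2,0)]⟩,⟨0,[(3,0),(0,0)]⟩⟩,⟨true,0,⟨0,[(33,0)]⟩,⟨0,[(34,0)]⟩⟩,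
  ⟨false,0,⟨4,[(0,0),(1,1),(2,2),(4,0),(3,0),(2,0),(0,4),(2,0),(10,1)]⟩,⟨0,[(3,0),(0,0),(29,0)]⟩⟩,
  [.o ⟨false,0,⟨1,[(5,0),(3,0)]⟩,⟨3,[(16,0),(0,0),(4,3),(13,1)]⟩⟩,.o ⟨false,1,⟨3,[(5,0),(3,0),(13,
  1),(5,0),(6,2)]⟩,⟨0,[(22,0)]⟩⟩,.o ⟨false,1,⟨1,[(19,1),(9,0),(5,0)]⟩,⟨10,[(0,1),(9,3),(1,1),(3,0),
  (1,10),(2,0),(2,2),(4,0),(2,0)]⟩⟩,.a ⟨true,0,⟨0,[(19,0)]⟩,⟨0,[(18,0)]⟩⟩ ⟨false,1,⟨1,[(16,0),(18,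
  0)]⟩,⟨3,[(0,1),(9,1),(6,0),(0,1),(0,1),(12,1),(1,1),(0,0)]⟩⟩ ⟨true,0,⟨1,[(5,0),(3,0),(8,1)]⟩,⟨0,
  [(19,0),(2,0)]⟩⟩]⟩))) (.Q [0,1,-1,0,0,0,0,0,-1,0,0,1] (.p true [0,0,0,1] [] (⟨0,[(17,0)]⟩,⟨0,[(16,
  0)]⟩) .k 0 (⟨0,[]⟩,⟨0,[]⟩) .k .k) (.Q [0,1,1,0,0,0,0,0,1,0,0,-1] (.p false [0,0,0,1] [] (⟨0,[(18,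
  0)]⟩,⟨0,[(17,0)]⟩) .k 0 (⟨0,[]⟩,⟨0,[]⟩) .k .k) (.K ⟨0,[0,0,0,1],0,0,(⟨0,[(19,0)]⟩,⟨0,[(18,0)]⟩),
  .k,(.r (-1) ⟨1,[(17,0),(16,1),(0,0)]⟩ ⟨3,[(2,3),(2,0),(1,1),(3,0),(12,1),(1,0),(5,1)]⟩),(.x 0 ⟨0,
  [(31,0)]⟩ ⟨3,[(16,0),(0,0),(11,1),(0,3)]⟩),.k,.k,[⟨0,[(19,0)]⟩,⟨0,[(18,0)]⟩,⟨0,[(1,0)]⟩,⟨0,[(0,
  0)]⟩]⟩) (.Q [0,0,0,0,0,1,0,0,0,-1,0,1] (.ed false [0,1,0,1] .k) (.R ⟨0,false,false,false,[1,0,0,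
  -1],[1,0,-1],[0,1,0,0,0,0,0,0,-1],(⟨0,[(19,0)]⟩,⟨0,[(20,0)]⟩),(⟨0,[(28,0)]⟩,⟨0,[(29,0)]⟩),⟨0,[(0,
  0)]⟩,.k,.k,(.x (-1) ⟨3,[(17,0),(0,0),(11,1),(0,3)]⟩ ⟨0,[(32,0)]⟩),.k,.k,.k,⟨false,0,⟨0,[(1,0),(7,
  0),(5,0),(3,0),(3,0)]⟩,⟨1,[(18,0),(8,1),(9,0)]⟩⟩,⟨true,0,⟨0,[(19,0),(2,0)]⟩,⟨0,[(9,0),(2,0),(7,
  0)]⟩⟩,⟨true,0,⟨0,[(39,0)]⟩,⟨0,[]⟩⟩,⟨false,1,⟨1,[(18,0),(0,1),(2,1),(4,1),(9,0)]⟩,⟨0,[(1,0),(21,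
  0)]⟩⟩,⟨false,0,⟨0,[]⟩,⟨0,[]⟩⟩,⟨false,0,⟨0,[]⟩,⟨0,[]⟩⟩,[.o ⟨false,0,⟨1,[(6,0),(3,0)]⟩,⟨3,[(17,0),
  (0,0),(4,3),(13,1)]⟩⟩,.o ⟨false,1,⟨3,[(6,0),(3,0),(13,1),(5,0),(6,2)]⟩,⟨0,[(23,0)]⟩⟩,.o ⟨false,1,
  ⟨1,[(20,1),(9,0),(5,0)]⟩,⟨10,[(6,1),(4,3),(1,1),(5,10),(2,0),(2,4),(7,0)]⟩⟩,.a ⟨true,0,⟨0,[(20,
  0)]⟩,⟨0,[(19,0)]⟩⟩ ⟨false,0,⟨2,[(1,2),(4,0),(6,0),(5,2),(3,1)]⟩,⟨1,[(18,0),(6,0),(0,0),(10,0)]⟩⟩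
  ⟨true,0,⟨1,[(6,0),(3,0),(8,1)]⟩,⟨0,[(20,0),(2,0)]⟩⟩]⟩) (.R ⟨1,false,false,false,[1,0,0,-1],[1,0,
  -1],[1,1,0,0,0,0,0,0,-1],(⟨0,[(19,0)]⟩,⟨0,[(20,0)]⟩),(⟨0,[(28,0)]⟩,⟨0,[(29,0)]⟩),⟨0,[(0,0)]⟩,.k,
  .k,(.x (-1) ⟨3,[(17,0),(0,0),(11,1),(0,3)]⟩ ⟨0,[(32,0)]⟩),.k,(.x 0 ⟨0,[(7,0),(1,0),(2,0)]⟩ ⟨3,
  [(17,0),(0,0),(3,3),(5,3),(3,3),(3,1)]⟩),.k,⟨false,0,⟨0,[(1,0),(7,0),(5,0),(3,0),(3,0)]⟩,⟨1,[(18,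
  0),(8,1),(9,0)]⟩⟩,⟨true,0,⟨0,[(19,0),(2,0)]⟩,⟨0,[(9,0),(2,0),(7,0)]⟩⟩,⟨false,0,⟨0,[]⟩,⟨3,[(17,0),
  (0,0),(18,1)]⟩⟩,⟨false,1,⟨1,[(18,0),(0,1),(2,1),(4,1),(9,0)]⟩,⟨0,[(1,0),(21,0)]⟩⟩,⟨true,0,⟨0,[(34,
  0)]⟩,⟨0,[(35,0)]⟩⟩,⟨false,1,⟨1,[(6,0),(1,0),(9,0),(0,1),(2,0),(2,0),(11,0)]⟩,⟨0,[(1,0),(21,0),(11,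
  0)]⟩⟩,[.o ⟨false,0,⟨1,[(6,0),(3,0)]⟩,⟨3,[(17,0),(0,0),(4,3),(13,1)]⟩⟩,.o ⟨false,1,⟨3,[(6,0),(3,0),
  (13,1),(5,0),(6,2)]⟩,⟨0,[(23,0)]⟩⟩,.o ⟨false,1,⟨1,[(20,1),(9,0),(5,0)]⟩,⟨10,[(6,1),(4,3),(1,1),(5,
  10),(2,0),(2,4),(7,0)]⟩⟩,.a ⟨true,0,⟨0,[(20,0)]⟩,⟨0,[(19,0)]⟩⟩ ⟨false,0,⟨2,[(1,2),(4,0),(6,0),(5,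
  2),(3,1)]⟩,⟨1,[(18,0),(6,0),(0,0),(10,0)]⟩⟩ ⟨true,0,⟨1,[(6,0),(3,0),(8,1)]⟩,⟨0,[(20,0),(2,
  0)]⟩⟩]⟩))) (.Q [0,0,0,0,0,-1,0,0,0,1,0,-1] (.ed true [0,1,0,1] .k) (.I [1,0,0,0,0,0,0,0,-1] (.R
  ⟨1,false,false,true,[1,0,0,-1],[0,1],[1,1,0,0,0,0,0,0,-1],(⟨0,[(19,0)]⟩,⟨0,[(20,0)]⟩),(⟨0,[(32,
  0)]⟩,⟨0,[(31,0)]⟩),⟨0,[(1,0)]⟩,.k,.k,(.x (-1) ⟨3,[(17,0),(0,0),(11,1),(0,3)]⟩ ⟨0,[(32,0)]⟩),(.x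
  (-1) ⟨3,[(17,0),(0,0),(11,1),(0,3)]⟩ ⟨0,[(32,0)]⟩),(.r (-1) ⟨0,[(0,0),(34,1),(0,0)]⟩ ⟨0,[(2,0),(9,
  0),(7,0),(1,0),(11,0)]⟩),.k,⟨false,1,⟨0,[(0,0),(34,0),(0,0)]⟩,⟨0,[(2,0),(17,0),(13,0)]⟩⟩,⟨true,0,
  ⟨0,[(19,0)]⟩,⟨10,[(6,1),(4,3),(1,1),(6,10),(1,0),(2,4),(7,0)]⟩⟩,⟨false,0,⟨0,[]⟩,⟨3,[(17,0),(0,0),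
  (18,1)]⟩⟩,⟨false,0,⟨2,[(2,2),(2,0),(6,0),(2,0),(3,0),(0,0),(3,0)]⟩,⟨0,[(4,0)]⟩⟩,⟨true,0,⟨0,[(34,
  0)]⟩,⟨0,[(35,0)]⟩⟩,⟨false,0,⟨0,[(2,0),(9,0),(2,0)]⟩,⟨0,[(4,0),(30,0)]⟩⟩,[.o ⟨false,0,⟨0,[(34,0)]⟩,
  ⟨3,[(2,1),(1,1),(4,1),(7,0),(0,0)]⟩⟩,.o ⟨false,1,⟨3,[(17,0),(0,0),(15,3),(2,1)]⟩,⟨0,[(9,0)]⟩⟩,.o
  ⟨false,1,⟨1,[(20,1),(9,0),(5,0)]⟩,⟨6,[(0,0),(1,0),(3,0),(4,1),(1,0),(5,5),(2,0),(2,2)]⟩⟩,.a ⟨true,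
  0,⟨0,[(20,0)]⟩,⟨0,[(19,0)]⟩⟩ ⟨false,1,⟨1,[(17,0),(18,0)]⟩,⟨0,[(2,0),(17,0)]⟩⟩ ⟨true,0,⟨0,[(19,0),
  (14,0)]⟩,⟨0,[(9,0),(10,0)]⟩⟩]⟩) (.R ⟨1,false,false,false,[1,0,0,-1],[1,-1],[1,0,0,0,0,0,0,0,-1],
  (⟨0,[(19,0)]⟩,⟨0,[(20,0)]⟩),(⟨0,[(31,0)]⟩,⟨0,[(32,0)]⟩),⟨0,[(1,0)]⟩,.k,.k,(.x (-1) ⟨3,[(17,0),(0,
  0),(11,1),(0,3)]⟩ ⟨0,[(32,0)]⟩),(.r 0 ⟨3,[(3,3),(2,0),(1,1),(3,0),(12,1),(1,0),(5,1)]⟩ ⟨1,[(18,0),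
  (16,1),(0,0)]⟩),.k,.k,⟨true,0,⟨3,[(3,3),(2,0),(1,1),(3,0),(12,1),(1,0),(5,1)]⟩,⟨0,[(0,0),(34,
  0)]⟩⟩,⟨false,0,⟨10,[(6,1),(4,3),(1,1),(5,10),(2,0),(2,4),(7,0)]⟩,⟨0,[(20,0),(15,0)]⟩⟩,⟨true,0,⟨0,
  []⟩,⟨0,[(39,0)]⟩⟩,⟨false,0,⟨0,[(2,0),(32,0)]⟩,⟨0,[(4,0),(7,0),(2,0)]⟩⟩,⟨false,1,⟨0,[(34,0),(2,
  0)]⟩,⟨0,[(35,0)]⟩⟩,⟨false,0,⟨0,[(2,0)]⟩,⟨1,[(17,0),(2,1),(15,0)]⟩⟩,[.o ⟨false,0,⟨0,[(9,0)]⟩,⟨3,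
  [(17,0),(0,0),(15,3),(2,1)]⟩⟩,.o ⟨false,1,⟨3,[(2,1),(1,1),(4,1),(7,0),(0,0)]⟩,⟨0,[(34,0)]⟩⟩,.o
  ⟨false,1,⟨1,[(20,1),(9,0),(5,0)]⟩,⟨10,[(6,1),(4,3),(1,1),(5,10),(2,0),(2,4),(7,0)]⟩⟩,.a ⟨true,0,
  ⟨0,[(20,0)]⟩,⟨0,[(19,0)]⟩⟩ ⟨false,1,⟨2,[(3,0),(0,1),(1,0),(5,0),(6,1),(13,0),(2,0)]⟩,⟨1,[(0,1),
  (24,0),(0,0)]⟩⟩ ⟨true,0,⟨0,[(9,0),(9,0)]⟩,⟨0,[(20,0),(13,0)]⟩⟩]⟩)) (.I [0,0,0,0,0,0,0,-1,1] (.R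
  ⟨0,false,false,false,[1,0,0,-1],[1,0,-1],[0,0,0,0,0,0,0,-1],(⟨0,[(19,0)]⟩,⟨0,[(20,0)]⟩),(⟨0,[(28,
  0)]⟩,⟨0,[(29,0)]⟩),⟨0,[(1,0)]⟩,.k,.k,(.x (-1) ⟨3,[(17,0),(0,0),(11,1),(0,3)]⟩ ⟨0,[(32,0)]⟩),.k,.k,
  .k,⟨false,1,⟨3,[(17,0),(0,0),(17,1)]⟩,⟨0,[]⟩⟩,⟨true,0,⟨0,[(19,0),(2,0)]⟩,⟨0,[(9,0),(2,0),(7,0)]⟩⟩,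
  ⟨true,0,⟨0,[(0,0)]⟩,⟨0,[(3,0)]⟩⟩,⟨false,0,⟨1,[(2,1),(5,0),(1,0),(8,0),(0,0)]⟩,⟨0,[(4,0),(0,0)]⟩⟩,
  ⟨false,0,⟨0,[]⟩,⟨0,[]⟩⟩,⟨false,0,⟨0,[]⟩,⟨0,[]⟩⟩,[.o ⟨false,0,⟨1,[(6,0),(3,0)]⟩,⟨3,[(17,0),(0,0),
  (4,3),(13,1)]⟩⟩,.o ⟨false,1,⟨3,[(6,0),(3,0),(13,1),(5,0),(6,2)]⟩,⟨0,[(23,0)]⟩⟩,.o ⟨false,1,⟨1,
  [(20,1),(9,0),(5,0)]⟩,⟨10,[(6,1),(4,3),(1,1),(5,10),(2,0),(2,4),(7,0)]⟩⟩,.a ⟨true,0,⟨0,[(20,0)]⟩,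
  ⟨0,[(19,0)]⟩⟩ ⟨false,1,⟨1,[(27,1),(8,0),(0,0)]⟩,⟨0,[(11,0),(7,0),(0,0)]⟩⟩ ⟨true,0,⟨1,[(6,0),(3,0),
  (8,1)]⟩,⟨0,[(20,0),(2,0)]⟩⟩]⟩) (.R ⟨0,false,false,true,[1,0,0,-1],[0,1],[0,1,0,0,0,0,0,0,-1],(⟨0,
  [(19,0)]⟩,⟨0,[(20,0)]⟩),(⟨0,[(32,0)]⟩,⟨0,[(31,0)]⟩),⟨0,[(1,0)]⟩,.k,.k,(.x (-1) ⟨3,[(17,0),(0,0),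
  (11,1),(0,3)]⟩ ⟨0,[(32,0)]⟩),(.x (-1) ⟨3,[(17,0),(0,0),(11,1),(0,3)]⟩ ⟨0,[(32,0)]⟩),.k,.k,⟨false,
  1,⟨0,[(0,0),(26,0),(7,0),(0,0)]⟩,⟨0,[(2,0),(17,0),(13,0)]⟩⟩,⟨true,0,⟨0,[(19,0)]⟩,⟨10,[(6,1),(4,3),
  (1,1),(6,10),(1,0),(2,4),(7,0)]⟩⟩,⟨true,0,⟨0,[(39,0)]⟩,⟨0,[]⟩⟩,⟨false,0,⟨2,[(2,2),(2,0),(6,0),(2,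
  0),(3,0),(0,0),(3,0)]⟩,⟨0,[(4,0)]⟩⟩,⟨false,0,⟨0,[]⟩,⟨0,[]⟩⟩,⟨false,0,⟨0,[]⟩,⟨0,[]⟩⟩,[.o ⟨false,0,
  ⟨0,[(34,0)]⟩,⟨3,[(2,1),(1,1),(4,1),(7,0),(0,0)]⟩⟩,.o ⟨false,1,⟨3,[(17,0),(0,0),(15,3),(2,1)]⟩,⟨0,
  [(9,0)]⟩⟩,.o ⟨false,1,⟨1,[(20,1),(9,0),(5,0)]⟩,⟨5,[(0,0),(1,0),(3,0),(4,0),(1,0),(5,4),(2,0),(2,
  2)]⟩⟩,.a ⟨true,0,⟨0,[(20,0)]⟩,⟨0,[(19,0)]⟩⟩ ⟨false,1,⟨1,[(17,0),(18,0)]⟩,⟨0,[(2,0),(17,0)]⟩⟩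
  ⟨true,0,⟨0,[(19,0),(14,0)]⟩,⟨0,[(9,0),(10,0)]⟩⟩]⟩))))) (.I [0,0,-1,-1,0,0,0,0,1] (.K ⟨0,[0,0,0,1],
  0,(-1),(⟨0,[(17,0)]⟩,⟨0,[(16,0)]⟩),.k,(.r 0 ⟨0,[(0,0)]⟩ ⟨3,[(9,3),(4,2),(0,0),(3,3)]⟩),(.x 0 ⟨0,
  [(29,0)]⟩ ⟨3,[(14,0),(0,0),(11,1),(0,3)]⟩),.k,.k,[⟨0,[(17,0)]⟩,⟨0,[(16,0)]⟩,⟨1,[(14,0),(2,1),(15,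
  0),(2,1)]⟩,⟨0,[(1,0),(4,0)]⟩]⟩) (.K ⟨0,[0,0,0,1],0,(-1),(⟨0,[(17,0)]⟩,⟨0,[(16,0)]⟩),.k,(.x 0 ⟨0,
  [(19,0),(2,0),(5,0)]⟩ ⟨0,[(29,0),(3,0)]⟩),(.x 0 ⟨0,[(29,0)]⟩ ⟨3,[(14,0),(0,0),(11,1),(0,3)]⟩),.k,
  .k,[⟨0,[(17,0)]⟩,⟨0,[(16,0)]⟩,⟨1,[(14,0),(2,1),(15,0),(2,1)]⟩,⟨0,[(1,0),(4,0)]⟩]⟩))))))))

theorem ok2 : chk (cU (-1) true 10) t2 l4 = true := by decide +kernel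

noncomputable def t6 : Tre :=
  (.R ⟨2,false,false,false,[0,1],[1,-1],[],(⟨0,[]⟩,⟨0,[]⟩),(⟨0,[(20,0)]⟩,⟨0,[(21,0)]⟩),⟨0,[]⟩,.k,.k,
  .k,(.r 0 ⟨1,[(14,0),(0,0),(6,1),(0,3)]⟩ ⟨0,[(24,1),(0,0)]⟩),.k,.k,⟨true,0,⟨3,[(14,0),(0,0),(6,1),
  (0,3)]⟩,⟨0,[(24,0)]⟩⟩,⟨false,0,⟨4,[(2,1),(8,0),(0,1),(1,0),(7,2),(0,1)]⟩,⟨0,[(8,0),(0,0),(15,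
  0)]⟩⟩,⟨false,1,⟨1,[(24,1),(0,0),(0,0)]⟩,⟨3,[(14,0),(0,0),(6,1),(0,3)]⟩⟩,⟨true,0,⟨0,[(1,1),(3,0)]⟩,
  ⟨0,[(0,0),(22,0)]⟩⟩,⟨false,1,⟨1,[(25,0),(0,0)]⟩,⟨1,[(14,0),(0,0)]⟩⟩,⟨false,1,⟨1,[(19,0),(4,1),(1,
  0)]⟩,⟨0,[(0,0)]⟩⟩,[.a ⟨true,0,⟨0,[(24,0)]⟩,⟨0,[(0,0)]⟩⟩ ⟨false,1,⟨3,[(6,0),(0,0),(17,1)]⟩,⟨0,[]⟩⟩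
  ⟨true,0,⟨0,[(1,0),(12,0)]⟩,⟨0,[(0,0)]⟩⟩,.o ⟨false,1,⟨1,[(19,0),(4,1),(1,0)]⟩,⟨0,[(23,0)]⟩⟩,.o
  ⟨false,1,⟨3,[(6,0),(0,0),(17,1)]⟩,⟨4,[(2,1),(8,0),(0,1),(1,0),(7,2),(0,1)]⟩⟩,.e ⟨false,1,⟨1,[(25,
  0),(0,0)]⟩,⟨1,[(14,0),(0,0)]⟩⟩ ⟨false,1,⟨1,[(19,0),(4,1),(1,0)]⟩,⟨0,[(0,0)]⟩⟩]⟩)

theorem ok6 : chk (cU (-1) true 10) t6 l5 = true := by decide +kernel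

noncomputable def t11 : Tre :=
  (.Q [0,0,0,0,0,0,-1,0,0,1,1] (.p true [1,-1,1] [] (⟨0,[(24,0),(1,0)]⟩,⟨0,[(0,0)]⟩) .k 0 (⟨0,[]⟩,
  ⟨0,[]⟩) .k .k) (.R ⟨0,false,false,true,[0,1,-1],[0,1],[0,0,1],(⟨0,[(1,0)]⟩,⟨0,[(25,0),(1,0)]⟩),
  (⟨0,[(28,0)]⟩,⟨0,[(27,0)]⟩),⟨0,[(25,0)]⟩,.k,.k,.k,.k,.k,.k,⟨false,1,⟨1,[(31,1),(0,0),(0,0)]⟩,⟨0,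
  [(30,0)]⟩⟩,⟨true,0,⟨0,[(3,0)]⟩,⟨0,[(22,0)]⟩⟩,⟨false,1,⟨1,[(0,0),(7,0),(10,1),(11,0),(1,1)]⟩,⟨0,
  [(2,0),(0,0)]⟩⟩,⟨true,0,⟨0,[(19,0)]⟩,⟨1,[(0,0),(5,0),(16,0)]⟩⟩,⟨false,0,⟨0,[]⟩,⟨0,[]⟩⟩,⟨false,0,
  ⟨0,[]⟩,⟨0,[]⟩⟩,[.o ⟨false,0,⟨0,[(30,0)]⟩,⟨1,[(26,0),(4,1),(1,0)]⟩⟩,.o ⟨false,1,⟨3,[(13,0),(0,0),
  (15,3),(2,1)]⟩,⟨0,[(7,0)]⟩⟩,.o ⟨false,1,⟨1,[(0,1),(25,0),(5,0)]⟩,⟨0,[(3,1),(14,0)]⟩⟩,.a ⟨true,0,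
  ⟨0,[(0,0)]⟩,⟨0,[(3,0)]⟩⟩ ⟨false,1,⟨3,[(13,0),(0,0),(18,1)]⟩,⟨0,[]⟩⟩ ⟨true,0,⟨0,[(3,0),(26,0)]⟩,⟨1,
  [(0,0),(7,0),(22,0)]⟩⟩]⟩) (.Q [0,-1,1,0,0,0,0,0,1,0,0,-1] (.p false [0,0,0,1] [] (⟨0,[(16,0)]⟩,⟨0,
  [(15,0)]⟩) .k 0 (⟨0,[]⟩,⟨0,[]⟩) .k .k) (.Q [0,-1,-1,0,1,0,-1,-1,-1,-1,1,1] (.p true [0,0,1] [1,0,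
  0,-1] (⟨0,[(26,0)]⟩,⟨0,[(25,0)]⟩) .k 2 (⟨0,[(16,0)]⟩,⟨0,[(17,0)]⟩) .k (.x 0 ⟨0,[(22,0),(3,0)]⟩ ⟨3,
  [(9,1),(2,1),(12,3),(1,0),(5,1),(0,0)]⟩)) (.Q [0,0,0,0,0,1,0,0,0,-1,0,1] (.ed false [0,1,0,1] .k)
  (.I [0,0,-2,-1,1,0,0,0,-1] (.R ⟨0,false,false,true,[1,0,0,-1],[0,1],[0,1,0,0,0,0,0,0,-1],(⟨0,[(19,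
  0)]⟩,⟨0,[(20,0)]⟩),(⟨0,[(32,0)]⟩,⟨0,[(31,0)]⟩),⟨0,[(1,0)]⟩,.k,.k,(.x (-1) ⟨3,[(17,0),(0,0),(11,1),
  (0,3)]⟩ ⟨0,[(32,0)]⟩),(.x (-1) ⟨3,[(17,0),(0,0),(11,1),(0,3)]⟩ ⟨0,[(32,0)]⟩),.k,.k,⟨false,1,⟨0,
  [(0,0)]⟩,⟨0,[(3,0),(16,0),(13,0)]⟩⟩,⟨true,0,⟨0,[(19,0)]⟩,⟨2,[(4,0),(15,2),(1,1),(2,0)]⟩⟩,⟨true,0,
  ⟨0,[(39,0)]⟩,⟨0,[]⟩⟩,⟨false,0,⟨2,[(3,2),(2,0),(1,1),(10,0),(0,0),(3,0)]⟩,⟨1,[(0,0),(1,0),(8,0),(8,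
  0),(2,0),(9,0)]⟩⟩,⟨false,0,⟨0,[]⟩,⟨0,[]⟩⟩,⟨false,0,⟨0,[]⟩,⟨0,[]⟩⟩,[.o ⟨false,0,⟨0,[(34,0)]⟩,⟨1,
  [(30,0),(4,1),(1,0)]⟩⟩,.o ⟨false,1,⟨3,[(17,0),(0,0),(15,3),(2,1)]⟩,⟨0,[(11,0)]⟩⟩,.o ⟨false,1,⟨1,
  [(20,1),(9,0),(5,0)]⟩,⟨2,[(4,0),(14,2),(2,1),(2,0)]⟩⟩,.a ⟨true,0,⟨0,[(20,0)]⟩,⟨0,[(19,0)]⟩⟩
  ⟨false,1,⟨1,[(17,0),(18,0)]⟩,⟨0,[(3,0),(16,0)]⟩⟩ ⟨true,0,⟨0,[(19,0),(14,0)]⟩,⟨0,[(11,0),(8,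
  0)]⟩⟩]⟩) (.I [0,-1,-1,-1,1,0,0,0,-1] (.R ⟨0,false,false,false,[1,0,0,-1],[0,1,-1],[0,0,0,-1,0,0,0,
  0,-1],(⟨0,[(20,0)]⟩,⟨0,[(21,0)]⟩),(⟨0,[(6,0)]⟩,⟨0,[(30,0),(1,0)]⟩),⟨0,[(2,0)]⟩,.k,.k,(.x (-1) ⟨3,
  [(18,0),(0,0),(11,1),(0,3)]⟩ ⟨0,[(33,0)]⟩),(.r (-1) ⟨0,[(0,0),(8,0),(3,0)]⟩ ⟨9,[(1,3),(5,5),(9,1),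
  (1,2),(6,1),(1,3),(2,0)]⟩),.k,.k,⟨true,1,⟨0,[(0,0),(8,0),(3,0),(22,0)]⟩,⟨2,[(1,2),(3,0),(1,2),(9,
  0)]⟩⟩,⟨false,1,⟨0,[(20,0),(6,0),(9,0)]⟩,⟨0,[(5,0),(15,0)]⟩⟩,⟨true,0,⟨0,[(36,0)]⟩,⟨0,[(35,0)]⟩⟩,
  ⟨false,0,⟨1,[(1,0),(5,0),(2,0),(9,1),(4,0),(8,0)]⟩,⟨0,[(0,0),(4,0),(3,0),(3,0),(7,0)]⟩⟩,⟨false,0,
  ⟨0,[]⟩,⟨0,[]⟩⟩,⟨false,0,⟨0,[]⟩,⟨0,[]⟩⟩,[.o ⟨false,0,⟨0,[(7,0)]⟩,⟨5,[(0,1),(11,1),(0,1),(5,0),(4,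
  5),(1,1),(4,0),(6,1)]⟩⟩,.o ⟨false,1,⟨3,[(7,3),(10,0),(0,0),(18,1)]⟩,⟨0,[(12,0),(11,0)]⟩⟩,.o
  ⟨false,1,⟨1,[(21,1),(9,0),(5,0)]⟩,⟨2,[(5,0),(14,2),(2,1),(2,0)]⟩⟩,.a ⟨true,0,⟨0,[(21,0)]⟩,⟨0,[(20,
  0)]⟩⟩ ⟨false,1,⟨0,[(0,0)]⟩,⟨3,[(1,1),(17,0),(15,1),(2,0)]⟩⟩ ⟨true,0,⟨0,[(7,0),(12,0)]⟩,⟨0,[(12,0),
  (8,0),(2,0)]⟩⟩]⟩) (.K ⟨0,[0,0,0,1],0,(-1),(⟨0,[(21,0)]⟩,⟨0,[(20,0)]⟩),.k,(.x 0 ⟨0,[(23,0),(2,0),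
  (5,0)]⟩ ⟨0,[(33,0),(3,0)]⟩),(.x 0 ⟨0,[(33,0)]⟩ ⟨3,[(18,0),(0,0),(11,1),(0,3)]⟩),.k,.k,[⟨0,[(21,
  0)]⟩,⟨0,[(20,0)]⟩,⟨1,[(18,0),(2,1),(15,0),(2,1)]⟩,⟨0,[(0,0),(11,0),(7,0)]⟩]⟩))) (.I [1,0,-2,-1,1,
  0,0,0,-1] (.R ⟨1,false,false,true,[1,0,0,-1],[0,1],[1,1,0,0,0,0,0,0,-1],(⟨0,[(19,0)]⟩,⟨0,[(20,
  0)]⟩),(⟨0,[(32,0)]⟩,⟨0,[(31,0)]⟩),⟨0,[(1,0)]⟩,.k,.k,(.x (-1) ⟨3,[(17,0),(0,0),(11,1),(0,3)]⟩ ⟨0,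
  [(32,0)]⟩),(.x (-1) ⟨3,[(17,0),(0,0),(11,1),(0,3)]⟩ ⟨0,[(32,0)]⟩),(.r (-1) ⟨0,[(0,0),(34,0)]⟩ ⟨3,
  [(3,3),(16,3),(4,0),(0,0),(6,1),(0,7)]⟩),.k,⟨false,1,⟨0,[(0,0)]⟩,⟨0,[(3,0),(16,0),(13,0)]⟩⟩,⟨true,
  0,⟨0,[(19,0)]⟩,⟨2,[(4,0),(15,2),(1,1),(2,0)]⟩⟩,⟨false,0,⟨0,[]⟩,⟨3,[(17,0),(0,0),(18,1)]⟩⟩,⟨false,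
  0,⟨2,[(3,2),(2,0),(1,1),(10,0),(0,0),(3,0)]⟩,⟨1,[(0,0),(1,0),(8,0),(8,0),(2,0),(9,0)]⟩⟩,⟨true,0,
  ⟨0,[(34,0)]⟩,⟨0,[(35,0)]⟩⟩,⟨false,0,⟨0,[(3,0),(2,0),(1,0)]⟩,⟨5,[(0,3),(10,5),(5,0),(2,5),(12,1),
  (1,1),(1,0)]⟩⟩,[.o ⟨false,0,⟨0,[(34,0)]⟩,⟨1,[(30,0),(4,1),(1,0)]⟩⟩,.o ⟨false,1,⟨3,[(17,0),(0,0),
  (15,3),(2,1)]⟩,⟨0,[(11,0)]⟩⟩,.o ⟨false,1,⟨1,[(20,1),(9,0),(5,0)]⟩,⟨2,[(4,0),(14,2),(2,1),(2,0)]⟩⟩,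
  .a ⟨true,0,⟨0,[(20,0)]⟩,⟨0,[(19,0)]⟩⟩ ⟨false,1,⟨1,[(17,0),(18,0)]⟩,⟨0,[(3,0),(16,0)]⟩⟩ ⟨true,0,⟨0,
  [(19,0),(14,0)]⟩,⟨0,[(11,0),(8,0)]⟩⟩]⟩) (.I [0,-1,-1,-1,1,0,0,0,-1] (.R ⟨1,false,false,false,[1,0,
  0,-1],[0,1,-1],[0,0,0,-1,0,0,0,0,-1],(⟨0,[(20,0)]⟩,⟨0,[(21,0)]⟩),(⟨0,[(6,0)]⟩,⟨0,[(30,0),(1,0)]⟩),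
  ⟨0,[(2,0)]⟩,.k,.k,(.x (-1) ⟨3,[(18,0),(0,0),(11,1),(0,3)]⟩ ⟨0,[(33,0)]⟩),(.r (-1) ⟨0,[(0,0),(8,0),
  (3,0)]⟩ ⟨9,[(1,3),(5,5),(9,1),(1,2),(6,1),(1,3),(2,0)]⟩),(.r (-2) ⟨3,[(0,5),(8,3),(3,3),(5,0),(16,
  1),(0,0),(2,1)]⟩ ⟨2,[(1,2),(3,0),(1,2),(9,0)]⟩),.k,⟨true,1,⟨0,[(0,0),(8,0),(3,0),(22,0)]⟩,⟨2,[(1,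
  2),(3,0),(1,2),(9,0)]⟩⟩,⟨false,1,⟨0,[(20,0),(6,0),(9,0)]⟩,⟨0,[(5,0),(15,0)]⟩⟩,⟨true,0,⟨0,[(36,
  0)]⟩,⟨0,[(35,0)]⟩⟩,⟨false,0,⟨1,[(1,0),(5,0),(2,0),(9,1),(4,0),(8,0)]⟩,⟨0,[(0,0),(4,0),(3,0),(3,0),
  (7,0)]⟩⟩,⟨false,1,⟨3,[(18,0),(0,0),(18,1)]⟩,⟨0,[]⟩⟩,⟨false,0,⟨2,[(1,0),(2,0),(2,3),(1,0),(0,0),(9,
  1),(13,0)]⟩,⟨0,[(0,0),(11,0),(8,0),(2,0)]⟩⟩,[.o ⟨false,0,⟨0,[(7,0)]⟩,⟨5,[(0,1),(11,1),(0,1),(5,0),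
  (4,5),(1,1),(4,0),(6,1)]⟩⟩,.o ⟨false,1,⟨3,[(7,3),(10,0),(0,0),(18,1)]⟩,⟨0,[(12,0),(11,0)]⟩⟩,.o
  ⟨false,1,⟨1,[(21,1),(9,0),(5,0)]⟩,⟨2,[(5,0),(14,2),(2,1),(2,0)]⟩⟩,.a ⟨true,0,⟨0,[(21,0)]⟩,⟨0,[(20,
  0)]⟩⟩ ⟨false,1,⟨0,[(0,0)]⟩,⟨3,[(1,1),(17,0),(15,1),(2,0)]⟩⟩ ⟨true,0,⟨0,[(7,0),(12,0)]⟩,⟨0,[(12,0),
  (8,0),(2,0)]⟩⟩]⟩) (.K ⟨0,[0,0,0,1],0,(-1),(⟨0,[(21,0)]⟩,⟨0,[(20,0)]⟩),.k,(.x 0 ⟨0,[(23,0),(2,0),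
  (5,0)]⟩ ⟨0,[(33,0),(3,0)]⟩),(.x 0 ⟨0,[(33,0)]⟩ ⟨3,[(18,0),(0,0),(11,1),(0,3)]⟩),.k,.k,[⟨0,[(21,
  0)]⟩,⟨0,[(20,0)]⟩,⟨1,[(18,0),(2,1),(15,0),(2,1)]⟩,⟨0,[(0,0),(11,0),(7,0)]⟩]⟩)))) (.I [0,0,-1,-1,0,
  0,0,0,1] (.K ⟨0,[0,0,0,1],0,(-1),(⟨0,[(19,0)]⟩,⟨0,[(18,0)]⟩),.k,(.r 0 ⟨0,[(0,0)]⟩ ⟨1,[(16,0),(7,
  0),(0,0),(7,1),(2,0)]⟩),(.x 0 ⟨0,[(31,0)]⟩ ⟨3,[(16,0),(0,0),(11,1),(0,3)]⟩),.k,.k,[⟨0,[(19,0)]⟩,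
  ⟨0,[(18,0)]⟩,⟨1,[(16,0),(2,1),(15,0),(2,1)]⟩,⟨0,[(1,0),(7,0)]⟩]⟩) (.K ⟨0,[0,0,0,1],0,(-1),(⟨0,
  [(19,0)]⟩,⟨0,[(18,0)]⟩),.k,(.x 0 ⟨0,[(21,0),(2,0),(5,0)]⟩ ⟨0,[(31,0),(3,0)]⟩),(.x 0 ⟨0,[(31,0)]⟩
  ⟨3,[(16,0),(0,0),(11,1),(0,3)]⟩),.k,.k,[⟨0,[(19,0)]⟩,⟨0,[(18,0)]⟩,⟨1,[(16,0),(2,1),(15,0),(2,1)]⟩,
  ⟨0,[(1,0),(7,0)]⟩]⟩))) (.Q [0,1,1,0,0,0,0,0,1,0,0,-1] (.p false [0,0,0,1] [] (⟨0,[(17,0)]⟩,⟨0,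
  [(16,0)]⟩) .k 0 (⟨0,[]⟩,⟨0,[]⟩) .k .k) (.K ⟨0,[0,0,0,1],0,0,(⟨0,[(18,0)]⟩,⟨0,[(17,0)]⟩),.k,(.r
  (-1) ⟨1,[(16,0),(16,1),(0,0)]⟩ ⟨2,[(1,2),(0,0),(14,2),(2,1),(2,0),(7,2),(0,2)]⟩),(.x 0 ⟨0,[(30,
  0)]⟩ ⟨3,[(15,0),(0,0),(11,1),(0,3)]⟩),.k,.k,[⟨0,[(18,0)]⟩,⟨0,[(17,0)]⟩,⟨0,[(1,0)]⟩,⟨0,[(0,0)]⟩]⟩)
  (.Q [0,0,0,0,0,1,0,0,0,-1,0,1] (.ed false [0,1,0,1] .k) (.R ⟨0,false,false,false,[1,0,0,-1],[1,0,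
  -1],[0,1,0,0,0,0,0,0,-1],(⟨0,[(18,0)]⟩,⟨0,[(19,0)]⟩),(⟨0,[(27,0)]⟩,⟨0,[(28,0)]⟩),⟨0,[(0,0)]⟩,.k,
  .k,(.x (-1) ⟨3,[(16,0),(0,0),(11,1),(0,3)]⟩ ⟨0,[(31,0)]⟩),.k,.k,.k,⟨false,0,⟨5,[(1,4),(0,0),(0,1),
  (7,3),(2,3),(3,5),(3,5)]⟩,⟨1,[(17,0),(8,1),(9,0)]⟩⟩,⟨true,0,⟨0,[(18,0),(2,0)]⟩,⟨2,[(3,0),(11,0),
  (3,2)]⟩⟩,⟨true,0,⟨0,[(38,0)]⟩,⟨0,[]⟩⟩,⟨false,1,⟨1,[(17,0),(0,1),(2,1),(4,1),(9,0)]⟩,⟨0,[(1,0),(20,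
  0)]⟩⟩,⟨false,0,⟨0,[]⟩,⟨0,[]⟩⟩,⟨false,0,⟨0,[]⟩,⟨0,[]⟩⟩,[.o ⟨false,0,⟨0,[(9,0)]⟩,⟨3,[(16,0),(0,0),
  (4,3),(13,1)]⟩⟩,.o ⟨false,1,⟨3,[(9,1),(13,1),(5,0),(6,2)]⟩,⟨0,[(22,0)]⟩⟩,.o ⟨false,1,⟨1,[(2,0),(5,
  0),(10,0),(9,0)]⟩,⟨2,[(3,0),(14,2),(2,1),(2,0)]⟩⟩,.a ⟨true,0,⟨0,[(19,0)]⟩,⟨0,[(18,0)]⟩⟩ ⟨false,0,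
  ⟨2,[(1,1),(0,0),(0,1),(7,0),(2,0),(3,2)]⟩,⟨1,[(17,0),(6,0),(0,0),(10,0)]⟩⟩ ⟨true,0,⟨0,[(9,0),(8,
  0)]⟩,⟨0,[(19,0),(2,0)]⟩⟩]⟩) (.R ⟨1,false,false,false,[1,0,0,-1],[1,0,-1],[0,0,0,-1,0,0,0,0,-1],
  (⟨0,[(18,0)]⟩,⟨0,[(19,0)]⟩),(⟨0,[(27,0)]⟩,⟨0,[(28,0)]⟩),⟨0,[(0,0)]⟩,.k,.k,(.x (-1) ⟨3,[(16,0),(0,
  0),(11,1),(0,3)]⟩ ⟨0,[(31,0)]⟩),.k,(.r 0 ⟨0,[(1,0),(9,0),(6,0),(3,0)]⟩ ⟨3,[(5,3),(10,0),(0,2),(6,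
  3)]⟩),.k,⟨false,0,⟨0,[(1,0),(9,0),(6,0),(3,0)]⟩,⟨7,[(5,7),(9,3),(0,0),(0,4),(11,1)]⟩⟩,⟨true,0,⟨0,
  [(18,0),(2,0)]⟩,⟨2,[(3,0),(11,0),(3,2)]⟩⟩,⟨true,0,⟨0,[(34,0)]⟩,⟨0,[(33,0)]⟩⟩,⟨false,1,⟨1,[(17,0),
  (0,1),(2,1),(4,1),(9,0)]⟩,⟨0,[(1,0),(20,0)]⟩⟩,⟨false,1,⟨3,[(16,0),(0,0),(18,1)]⟩,⟨0,[]⟩⟩,⟨false,1,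
  ⟨5,[(5,5),(11,2),(0,5),(2,1),(2,1),(4,1),(2,1),(3,0)]⟩,⟨0,[(1,0),(20,0),(11,0)]⟩⟩,[.o ⟨false,0,⟨0,
  [(9,0)]⟩,⟨3,[(16,0),(0,0),(4,3),(13,1)]⟩⟩,.o ⟨false,1,⟨3,[(9,1),(13,1),(5,0),(6,2)]⟩,⟨0,[(22,
  0)]⟩⟩,.o ⟨false,1,⟨1,[(2,0),(5,0),(10,0),(9,0)]⟩,⟨2,[(3,0),(14,2),(2,1),(2,0)]⟩⟩,.a ⟨true,0,⟨0,
  [(19,0)]⟩,⟨0,[(18,0)]⟩⟩ ⟨false,0,⟨0,[(1,0),(8,0),(7,0)]⟩,⟨1,[(17,0),(6,0),(0,0),(7,1),(2,0)]⟩⟩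
  ⟨true,0,⟨0,[(9,0),(8,0)]⟩,⟨0,[(19,0),(2,0)]⟩⟩]⟩)))))

theorem ok11 : chk (cU (-1) true 10) t11 l11 = true := by decide +kernel

noncomputable def t27 : Tre :=
  (.Q [0,-1,0,-1,0,0,-1,-1,0,0,1] (.p true [0,0,1] [] (⟨0,[(19,0)]⟩,⟨0,[(18,0)]⟩) .k 0 (⟨0,[]⟩,⟨0,
  []⟩) .k .k) (.K ⟨1,[1,-1,-1],0,0,(⟨0,[(5,0)]⟩,⟨0,[(20,0),(2,0)]⟩),.k,(.r (-1) ⟨1,[(0,0),(2,1),(11,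
  0),(10,0),(0,1)]⟩ ⟨0,[(1,0),(4,0),(6,0),(10,0),(0,0)]⟩),.k,.k,.k,[⟨1,[(7,0),(2,0),(0,0)]⟩,⟨1,[(13,
  1),(2,0),(0,0)]⟩,⟨0,[(1,0),(4,0)]⟩,⟨0,[(0,0)]⟩]⟩) (.Q [0,0,0,0,0,0,1,0,0,0,-1] (.p false [0,0,1]
  [] (⟨0,[(20,0)]⟩,⟨0,[(19,0)]⟩) .k 0 (⟨0,[]⟩,⟨0,[]⟩) .k .k) (.Q [0,0,0,0,0,1,0,0,0,0,-1] (.ed true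
  [1,-1,1] .k) (.Q [0,0,0,0,0,0,-1,-1,0,0,1] (.p true [0,0,1] [] (⟨0,[(22,0)]⟩,⟨0,[(21,0)]⟩) .k 0
  (⟨0,[]⟩,⟨0,[]⟩) .k .k) (.Q [0,0,0,0,0,0,-1,0,0,1,1] (.p true [1,-1,1] [] (⟨0,[(23,0),(1,0)]⟩,⟨0,
  [(1,0)]⟩) .k 0 (⟨0,[]⟩,⟨0,[]⟩) .k .k) (.R ⟨0,false,false,true,[0,1,-1],[0,1],[1,1],(⟨0,[(2,0)]⟩,
  ⟨0,[(24,0),(1,0)]⟩),(⟨0,[(27,0)]⟩,⟨0,[(26,0)]⟩),⟨0,[(24,0)]⟩,.k,.k,.k,.k,.k,.k,⟨false,1,⟨0,[(30,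
  0),(0,0)]⟩,⟨3,[(20,0),(0,0),(6,1),(0,3)]⟩⟩,⟨true,0,⟨0,[(3,0)]⟩,⟨0,[(21,0)]⟩⟩,⟨false,1,⟨1,[(8,1),
  (21,1),(0,0),(0,0)]⟩,⟨0,[(22,0),(5,0),(0,0)]⟩⟩,⟨true,0,⟨0,[(18,0)]⟩,⟨0,[(1,0)]⟩⟩,⟨false,0,⟨0,[]⟩,
  ⟨0,[]⟩⟩,⟨false,0,⟨0,[]⟩,⟨0,[]⟩⟩,[.o ⟨false,0,⟨0,[(29,0)]⟩,⟨1,[(25,0),(4,1),(1,0)]⟩⟩,.e ⟨true,0,⟨0,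
  []⟩,⟨1,[(20,0),(0,0)]⟩⟩ ⟨true,0,⟨1,[(4,0),(15,0),(1,0),(5,0),(0,0)]⟩,⟨0,[(6,0)]⟩⟩,.o ⟨false,1,⟨1,
  [(0,1),(24,0),(5,0)]⟩,⟨0,[(3,1),(13,0)]⟩⟩,.a ⟨true,0,⟨0,[(0,0)]⟩,⟨0,[(3,0)]⟩⟩ ⟨false,1,⟨3,[(12,0),
  (0,0),(17,1)]⟩,⟨3,[(20,0),(0,0),(6,1)]⟩⟩ ⟨true,0,⟨0,[(4,0),(17,0)]⟩,⟨0,[(6,0)]⟩⟩]⟩) (.Q [0,0,0,-1,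
  0,0,1,1,0,0,-1] (.p false [0,0,1] [] (⟨0,[(24,0)]⟩,⟨0,[(23,0)]⟩) .k 0 (⟨0,[]⟩,⟨0,[]⟩) .k .k) (.R
  ⟨2,true,false,true,[0,1],[0,0,1],[0,0,1],(⟨0,[]⟩,⟨0,[]⟩),(⟨0,[(25,0)]⟩,⟨0,[(24,0)]⟩),⟨0,[]⟩,.k,.k,
  .k,.k,.k,.k,⟨true,0,⟨2,[(20,0),(0,0),(1,1),(5,1)]⟩,⟨0,[(9,0)]⟩⟩,⟨false,0,⟨0,[(4,0)]⟩,⟨7,[(7,3),(3,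
  3),(1,0),(0,0),(17,3),(0,1)]⟩⟩,⟨true,0,⟨0,[(31,0)]⟩,⟨0,[(30,0)]⟩⟩,⟨false,0,⟨0,[(0,0)]⟩,⟨0,[(11,0),
  (11,0),(9,0)]⟩⟩,⟨false,1,⟨3,[(13,0),(0,0),(18,1)]⟩,⟨0,[]⟩⟩,⟨true,0,⟨0,[(19,0)]⟩,⟨0,[(2,0)]⟩⟩,[]⟩)
  (.I [0,0,-1,-1,0,0,0,-2] (.Q [0,-1,0,-1,0,0,-2,-2,0,-1,2] (.p true [0,0,1] [1,0,-1] (⟨0,[(26,0)]⟩,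
  ⟨0,[(25,0)]⟩) .k 2 (⟨0,[(25,0)]⟩,⟨0,[(26,0)]⟩) .k (.r (-1) ⟨0,[(10,1),(23,0)]⟩ ⟨0,[(24,1)]⟩)) (.R
  ⟨1,true,false,true,[1,0,-1],[0,0,1],[0,1,0,-1,0,0,0,-1],(⟨0,[(26,0)]⟩,⟨0,[(27,0)]⟩),(⟨0,[(27,0)]⟩,
  ⟨0,[(26,0)]⟩),⟨0,[(12,0)]⟩,.k,.k,.k,.k,(.r 0 ⟨0,[(1,0)]⟩ ⟨0,[(7,0),(3,0),(12,0),(10,0)]⟩),.k,
  ⟨false,0,⟨0,[(1,0)]⟩,⟨3,[(7,1),(3,5),(1,1),(17,1),(2,0),(0,2)]⟩⟩,⟨true,0,⟨0,[(14,0)]⟩,⟨1,[(0,0),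
  (10,1),(1,0),(6,0),(10,0)]⟩⟩,⟨false,0,⟨0,[(33,0)]⟩,⟨7,[(2,3),(4,3),(7,0),(0,0),(18,5)]⟩⟩,⟨true,0,
  ⟨0,[(8,0),(2,0)]⟩,⟨1,[(0,0),(1,0),(16,0)]⟩⟩,⟨true,0,⟨0,[(37,0)]⟩,⟨0,[]⟩⟩,⟨false,1,⟨7,[(7,3),(0,7),
  (2,3),(1,3),(1,0),(0,0),(18,5)]⟩,⟨0,[(0,0)]⟩⟩,[]⟩) (.R ⟨1,true,false,true,[1,0,-1],[0,1,1],[1,1,0,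
  0,0,0,0,-1],(⟨0,[(26,0)]⟩,⟨0,[(27,0)]⟩),(⟨0,[(27,0),(2,0)]⟩,⟨0,[(12,0)]⟩),⟨0,[(12,0)]⟩,.k,.k,.k,
  (.r 0 ⟨0,[(1,0)]⟩ ⟨11,[(0,7),(10,7),(1,3),(1,0),(0,0),(3,7),(3,3),(10,9)]⟩),(.r (-1) ⟨3,[(1,3),
  (13,0),(0,0),(16,3),(0,1)]⟩ ⟨0,[(0,0),(12,0),(6,0),(10,0)]⟩),.k,⟨true,0,⟨0,[(1,0)]⟩,⟨3,[(0,2),(10,
  1),(1,0),(6,2),(3,1),(6,2)]⟩⟩,⟨false,1,⟨0,[(14,0),(19,0)]⟩,⟨1,[(3,0),(5,1),(3,1),(6,0),(10,0)]⟩⟩,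
  ⟨false,0,⟨0,[]⟩,⟨3,[(15,0),(0,0),(18,1)]⟩⟩,⟨true,0,⟨0,[(0,0)]⟩,⟨2,[(1,1),(0,1),(0,0),(5,2),(10,
  1)]⟩⟩,⟨true,0,⟨0,[(32,0)]⟩,⟨0,[(33,0)]⟩⟩,⟨false,1,⟨7,[(0,7),(1,3),(4,3),(7,0),(0,0),(18,5)]⟩,⟨5,
  [(1,3),(0,3),(0,4),(5,11),(10,0),(10,2)]⟩⟩,[]⟩)) (.I [1,-1,0,0,0,0,0,-1,1] (.I [0,0,-1,-1,1,0,0,1,
  -1] (.Q [0,0,0,0,0,1,0,0,0,-1,0,1] (.ed false [0,1,0,1] .k) (.Q [0,0,-1,0,1,0,1,1,-1,0,-1,1] (.p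
  false [0,0,1] [0,0,0,1] (⟨0,[(29,0)]⟩,⟨0,[(28,0)]⟩) .k 2 (⟨0,[(20,0)]⟩,⟨0,[(19,0)]⟩) .k (.r (-1)
  ⟨5,[(1,1),(1,1),(13,2),(0,0)]⟩ ⟨0,[(2,0),(36,0)]⟩)) (.R ⟨0,false,false,false,[1,0,0,-1],[1,0,-1],
  [0,1,0,0,0,0,0,0,-1],(⟨0,[(20,0)]⟩,⟨0,[(21,0)]⟩),(⟨0,[(29,0)]⟩,⟨0,[(30,0)]⟩),⟨0,[(1,0)]⟩,.k,.k,
  (.x (-1) ⟨3,[(18,0),(0,0),(11,1),(0,3)]⟩ ⟨0,[(33,0)]⟩),.k,.k,.k,⟨false,1,⟨7,[(2,5),(7,3),(5,1),(1,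
  0),(6,1),(11,0)]⟩,⟨0,[(3,0)]⟩⟩,⟨true,0,⟨0,[(20,0),(2,0)]⟩,⟨2,[(6,0),(10,0),(3,2)]⟩⟩,⟨true,0,⟨0,
  [(40,0)]⟩,⟨0,[]⟩⟩,⟨false,0,⟨0,[(3,0),(16,0),(2,0)]⟩,⟨0,[(0,0)]⟩⟩,⟨false,0,⟨0,[]⟩,⟨0,[]⟩⟩,⟨false,0,
  ⟨0,[]⟩,⟨0,[]⟩⟩,[.o ⟨false,0,⟨0,[(5,0),(0,0),(5,0)]⟩,⟨11,[(2,1),(1,1),(6,5),(6,2),(0,3),(11,2)]⟩⟩,
  .o ⟨false,1,⟨0,[(22,0),(15,0)]⟩,⟨0,[(24,0)]⟩⟩,.o ⟨false,1,⟨1,[(21,1),(9,0),(5,0)]⟩,⟨2,[(6,0),(13,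
  2),(2,1),(2,0)]⟩⟩,.a ⟨true,0,⟨0,[(21,0)]⟩,⟨0,[(20,0)]⟩⟩ ⟨false,1,⟨1,[(18,0),(18,0)]⟩,⟨1,[(3,1),(0,
  0),(8,0),(13,0)]⟩⟩ ⟨true,0,⟨0,[(5,0),(0,0),(5,0),(7,0)]⟩,⟨0,[(21,0),(2,0)]⟩⟩]⟩) (.K ⟨0,[0,0,0,1],
  0,(-1),(⟨0,[(21,0)]⟩,⟨0,[(20,0)]⟩),.k,(.x 0 ⟨0,[(23,0),(2,0),(5,0)]⟩ ⟨0,[(33,0),(3,0)]⟩),(.x 0 ⟨0,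
  [(33,0)]⟩ ⟨3,[(18,0),(0,0),(11,1),(0,3)]⟩),.k,.k,[⟨0,[(21,0)]⟩,⟨0,[(20,0)]⟩,⟨1,[(18,0),(2,1),(15,
  0),(2,1)]⟩,⟨0,[(0,0),(23,0)]⟩]⟩)) (.I [1,-1,-1,0,1,0,0,0,-1] (.R ⟨1,false,false,false,[1,0,0,-1],
  [1,0,-1],[1,0,0,0,0,0,0,0,-1],(⟨0,[(20,0)]⟩,⟨0,[(21,0)]⟩),(⟨0,[(29,0)]⟩,⟨0,[(30,0)]⟩),⟨0,[(1,0)]⟩,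
  .k,.k,(.x (-1) ⟨3,[(18,0),(0,0),(11,1),(0,3)]⟩ ⟨0,[(33,0)]⟩),.k,(.r (-1) ⟨0,[(2,0)]⟩ ⟨1,[(3,1),
  (22,0),(0,0),(7,1)]⟩),.k,⟨false,1,⟨0,[(0,0),(13,0)]⟩,⟨0,[(3,0),(36,0)]⟩⟩,⟨true,0,⟨0,[(20,0),(2,
  0)]⟩,⟨2,[(6,0),(10,0),(3,2)]⟩⟩,⟨true,0,⟨0,[]⟩,⟨0,[(40,0)]⟩⟩,⟨false,0,⟨0,[(3,0),(16,0),(2,0)]⟩,⟨9,
  [(0,3),(1,3),(3,1),(3,3),(0,1),(6,0),(2,9),(15,0)]⟩⟩,⟨false,1,⟨7,[(5,3),(4,3),(7,0),(0,0),(18,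
  5)]⟩,⟨0,[(36,0)]⟩⟩,⟨false,0,⟨2,[(3,2),(0,0),(0,1),(0,0),(13,2),(2,1)]⟩,⟨2,[(2,2),(3,0),(10,0),(3,
  2)]⟩⟩,[.o ⟨false,0,⟨0,[(5,0),(0,0),(5,0)]⟩,⟨11,[(2,1),(1,1),(6,5),(6,2),(0,3),(11,2)]⟩⟩,.o ⟨false,
  1,⟨0,[(22,0),(15,0)]⟩,⟨0,[(24,0)]⟩⟩,.o ⟨false,1,⟨1,[(21,1),(9,0),(5,0)]⟩,⟨2,[(6,0),(13,2),(2,1),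
  (2,0)]⟩⟩,.a ⟨true,0,⟨0,[(21,0)]⟩,⟨0,[(20,0)]⟩⟩ ⟨false,1,⟨0,[(0,0)]⟩,⟨1,[(3,1),(10,1),(11,0),(0,
  0)]⟩⟩ ⟨true,0,⟨0,[(5,0),(0,0),(5,0),(7,0)]⟩,⟨0,[(21,0),(2,0)]⟩⟩]⟩) (.R ⟨1,false,false,false,[1,0,
  0,-1],[0,1,-1],[1,1,0,0,0,0,0,0,-1],(⟨0,[(20,0)]⟩,⟨0,[(21,0)]⟩),(⟨0,[(8,0)]⟩,⟨0,[(30,0),(1,0)]⟩),
  ⟨0,[(1,0)]⟩,.k,.k,(.x (-1) ⟨3,[(18,0),(0,0),(11,1),(0,3)]⟩ ⟨0,[(33,0)]⟩),(.r (-1) ⟨0,[(2,0)]⟩ ⟨26,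
  [(0,5),(2,8),(0,0),(0,22),(4,2),(8,5),(6,19)]⟩),(.r (-2) ⟨5,[(2,7),(10,1),(5,0),(5,1),(10,1),(0,
  1),(0,0)]⟩ ⟨3,[(0,3),(4,5),(0,0),(3,1),(6,0),(8,0),(7,2)]⟩),.k,⟨true,1,⟨0,[(2,0),(37,0)]⟩,⟨2,[(0,
  2),(4,2),(0,0),(10,0),(16,2)]⟩⟩,⟨false,1,⟨11,[(2,1),(9,3),(3,5),(2,0),(0,11),(4,1),(11,4),(0,3)]⟩,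
  ⟨0,[(6,0),(14,0)]⟩⟩,⟨false,0,⟨0,[]⟩,⟨3,[(18,0),(0,0),(18,1)]⟩⟩,⟨false,0,⟨2,[(0,0),(4,2),(13,0),(0,
  2),(13,1)]⟩,⟨0,[(2,0),(3,0),(14,0)]⟩⟩,⟨true,0,⟨0,[(35,0)]⟩,⟨0,[(36,0)]⟩⟩,⟨false,0,⟨2,[(3,2),(0,1),
  (0,3),(14,2),(5,0)]⟩,⟨0,[(2,0),(3,0),(14,0),(14,0)]⟩⟩,[.o ⟨false,0,⟨0,[(5,0)]⟩,⟨5,[(2,1),(1,1),(8,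
  5),(5,0),(11,2)]⟩⟩,.o ⟨false,1,⟨3,[(5,3),(12,0),(0,0),(18,1)]⟩,⟨0,[(0,0),(1,0),(3,0)]⟩⟩,.o ⟨false,
  1,⟨1,[(21,1),(9,0),(5,0)]⟩,⟨2,[(6,0),(13,2),(2,1),(2,0)]⟩⟩,.a ⟨true,0,⟨0,[(21,0)]⟩,⟨0,[(20,0)]⟩⟩
  ⟨false,1,⟨1,[(18,0),(18,0)]⟩,⟨2,[(0,0),(18,0),(14,1)]⟩⟩ ⟨true,0,⟨0,[(5,0),(14,0)]⟩,⟨0,[(0,0),(1,
  0),(3,0),(14,0)]⟩⟩]⟩))) (.I [0,0,-1,-1,0,0,0,0,1] (.K ⟨0,[0,0,0,1],0,(-1),(⟨0,[(20,0)]⟩,⟨0,[(19,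
  0)]⟩),.k,(.r 0 ⟨0,[(0,0)]⟩ ⟨11,[(3,3),(0,7),(12,8),(0,2),(6,7)]⟩),(.x 0 ⟨0,[(32,0)]⟩ ⟨3,[(17,0),
  (0,0),(11,1),(0,3)]⟩),.k,.k,[⟨0,[(20,0)]⟩,⟨0,[(19,0)]⟩,⟨1,[(17,0),(2,1),(15,0),(2,1)]⟩,⟨0,[(1,0),
  (3,0),(5,0),(1,0),(5,0)]⟩]⟩) (.K ⟨0,[0,0,0,1],0,(-1),(⟨0,[(20,0)]⟩,⟨0,[(19,0)]⟩),.k,(.x 0 ⟨0,[(22,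
  0),(2,0),(5,0)]⟩ ⟨0,[(32,0),(3,0)]⟩),(.x 0 ⟨0,[(32,0)]⟩ ⟨3,[(17,0),(0,0),(11,1),(0,3)]⟩),.k,.k,
  [⟨0,[(20,0)]⟩,⟨0,[(19,0)]⟩,⟨1,[(17,0),(2,1),(15,0),(2,1)]⟩,⟨0,[(1,0),(3,0),(5,0),(1,0),(5,
  0)]⟩]⟩))) (.I [1,-1,1,0,0,0,0,0,1] (.Q [0,0,0,0,0,1,0,0,0,-1,0,1] (.ed false [0,1,0,1] .k) (.I [0,
  0,-2,-1,1,0,0,0,-1] (.R ⟨0,false,false,true,[1,0,0,-1],[0,1],[0,1,0,0,0,0,0,0,-1],(⟨0,[(20,0)]⟩,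
  ⟨0,[(21,0)]⟩),(⟨0,[(33,0)]⟩,⟨0,[(32,0)]⟩),⟨0,[(1,0)]⟩,.k,.k,(.x (-1) ⟨3,[(18,0),(0,0),(11,1),(0,
  3)]⟩ ⟨0,[(33,0)]⟩),(.x (-1) ⟨3,[(18,0),(0,0),(11,1),(0,3)]⟩ ⟨0,[(33,0)]⟩),.k,.k,⟨false,1,⟨0,[(0,
  0)]⟩,⟨0,[(2,0),(32,0)]⟩⟩,⟨true,0,⟨0,[(20,0)]⟩,⟨2,[(6,0),(14,2),(1,1),(2,0)]⟩⟩,⟨true,0,⟨0,[(40,
  0)]⟩,⟨0,[]⟩⟩,⟨false,0,⟨0,[(2,0),(17,0),(14,0)]⟩,⟨1,[(0,1),(5,0),(14,1),(1,0),(10,0)]⟩⟩,⟨false,0,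
  ⟨0,[]⟩,⟨0,[]⟩⟩,⟨false,0,⟨0,[]⟩,⟨0,[]⟩⟩,[.o ⟨false,0,⟨0,[(35,0)]⟩,⟨1,[(31,0),(4,1),(1,0)]⟩⟩,.o
  ⟨false,1,⟨7,[(5,3),(4,3),(7,2),(0,2),(18,1)]⟩,⟨0,[(6,0),(5,0)]⟩⟩,.o ⟨false,1,⟨1,[(21,1),(9,0),(5,
  0)]⟩,⟨2,[(6,0),(13,2),(2,1),(2,0)]⟩⟩,.a ⟨true,0,⟨0,[(21,0)]⟩,⟨0,[(20,0)]⟩⟩ ⟨false,1,⟨1,[(18,0),
  (18,0)]⟩,⟨0,[(2,0)]⟩⟩ ⟨true,0,⟨0,[(20,0),(14,0)]⟩,⟨0,[(6,0),(5,0),(8,0)]⟩⟩]⟩) (.R ⟨0,false,false,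
  false,[1,0,0,-1],[1,-1],[1],(⟨0,[(20,0)]⟩,⟨0,[(21,0)]⟩),(⟨0,[(32,0)]⟩,⟨0,[(33,0)]⟩),⟨0,[(1,0)]⟩,
  .k,.k,(.x (-1) ⟨3,[(18,0),(0,0),(11,1),(0,3)]⟩ ⟨0,[(33,0)]⟩),(.r 0 ⟨8,[(0,2),(2,5),(1,5),(0,1),
  (10,1),(0,2),(15,2)]⟩ ⟨1,[(19,0),(16,1),(0,0)]⟩),.k,.k,⟨true,0,⟨15,[(0,7),(4,3),(4,3),(7,4),(0,0),
  (18,1)]⟩,⟨0,[(36,0)]⟩⟩,⟨false,0,⟨2,[(6,0),(13,2),(2,1),(2,0)]⟩,⟨0,[(21,0),(15,0)]⟩⟩,⟨true,0,⟨0,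
  [(0,0),(35,0),(0,0)]⟩,⟨0,[(3,0),(24,0)]⟩⟩,⟨false,0,⟨0,[(2,0),(3,0),(5,0),(7,0)]⟩,⟨13,[(3,3),(1,9),
  (0,1),(3,3),(0,1),(6,4),(2,13),(12,3),(2,8)]⟩⟩,⟨false,0,⟨0,[]⟩,⟨0,[]⟩⟩,⟨false,0,⟨0,[]⟩,⟨0,[]⟩⟩,
  [.o ⟨false,0,⟨0,[(6,0),(5,0)]⟩,⟨7,[(5,3),(4,3),(7,2),(0,2),(18,1)]⟩⟩,.o ⟨false,1,⟨1,[(31,0),(4,1),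
  (1,0)]⟩,⟨0,[(35,0)]⟩⟩,.o ⟨false,1,⟨1,[(21,1),(9,0),(5,0)]⟩,⟨2,[(6,0),(13,2),(2,1),(2,0)]⟩⟩,.a
  ⟨true,0,⟨0,[(21,0)]⟩,⟨0,[(20,0)]⟩⟩ ⟨false,1,⟨1,[(37,0),(0,0)]⟩,⟨1,[(26,0),(0,0)]⟩⟩ ⟨true,0,⟨0,[(6,
  0),(5,0),(7,0)]⟩,⟨0,[(21,0),(13,0)]⟩⟩]⟩)) (.I [0,-1,0,-1,0,0,0,-1,-1] (.R ⟨1,false,false,true,[1,
  0,0,-1],[0,0,1],[0,0,0,-1,0,0,0,0,-1],(⟨0,[(20,0)]⟩,⟨0,[(21,0)]⟩),(⟨0,[(30,0)]⟩,⟨0,[(29,0)]⟩),⟨0,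
  [(1,0)]⟩,.k,.k,(.x (-1) ⟨3,[(18,0),(0,0),(11,1),(0,3)]⟩ ⟨0,[(33,0)]⟩),.k,(.x (-1) ⟨3,[(15,3),(2,
  0),(0,0),(3,3),(13,1)]⟩ ⟨2,[(6,0),(10,0),(12,2),(2,2)]⟩),.k,⟨true,0,⟨0,[(0,0)]⟩,⟨1,[(2,1),(7,0),
  (3,0),(1,0),(23,0)]⟩⟩,⟨false,0,⟨2,[(6,0),(10,0),(2,2)]⟩,⟨0,[(21,0),(1,0),(13,0)]⟩⟩,⟨true,0,⟨0,
  [(36,0)]⟩,⟨0,[(35,0)]⟩⟩,⟨false,0,⟨0,[(2,0),(17,0),(3,0)]⟩,⟨2,[(0,2),(3,0),(0,1),(0,0),(14,2),(1,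
  1),(13,2)]⟩⟩,⟨false,1,⟨3,[(18,0),(0,0),(18,1)]⟩,⟨0,[]⟩⟩,⟨false,0,⟨0,[(2,0),(7,0),(9,0)]⟩,⟨0,[(0,
  0),(20,0),(1,0),(13,0)]⟩⟩,[.o ⟨false,0,⟨0,[(24,0)]⟩,⟨0,[(22,0),(15,0)]⟩⟩,.o ⟨false,1,⟨7,[(3,3),(7,
  3),(6,0),(0,2),(11,1),(6,1)]⟩,⟨0,[(5,0),(0,0),(5,0)]⟩⟩,.o ⟨false,1,⟨1,[(21,1),(9,0),(5,0)]⟩,⟨2,
  [(6,0),(13,2),(2,1),(2,0)]⟩⟩,.a ⟨true,0,⟨0,[(21,0)]⟩,⟨0,[(20,0)]⟩⟩ ⟨false,1,⟨1,[(0,0),(2,0),(32,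
  0),(0,0),(0,0)]⟩,⟨0,[(2,0),(32,0)]⟩⟩ ⟨true,0,⟨0,[(20,0),(3,0)]⟩,⟨0,[(5,0),(0,0),(5,0),(8,0)]⟩⟩]⟩)
  (.I [0,0,2,1,-1,0,0,-1,1] (.R ⟨1,false,false,false,[1,0,0,-1],[1,0,-1],[0,0,0,-1,0,0,0,0,-1],(⟨0,
  [(21,0)]⟩,⟨0,[(22,0)]⟩),(⟨0,[(30,0)]⟩,⟨0,[(31,0)]⟩),⟨0,[(2,0)]⟩,.k,.k,(.x (-1) ⟨3,[(19,0),(0,0),
  (11,1),(0,3)]⟩ ⟨0,[(34,0)]⟩),.k,(.r (-1) ⟨1,[(4,1),(32,1),(0,0),(0,0)]⟩ ⟨15,[(0,7),(5,7),(11,3),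
  (0,0),(0,4),(11,1)]⟩),.k,⟨false,1,⟨1,[(4,1),(32,1),(0,0),(0,0)]⟩,⟨0,[(0,0),(37,0)]⟩⟩,⟨true,0,⟨0,
  [(21,0),(2,0)]⟩,⟨2,[(7,0),(10,0),(3,2)]⟩⟩,⟨true,0,⟨0,[(37,0)]⟩,⟨0,[(36,0)]⟩⟩,⟨false,0,⟨0,[(3,0),
  (2,0),(0,0),(5,0),(7,0)]⟩,⟨5,[(4,3),(2,1),(4,1),(6,0),(2,5),(15,2),(0,1)]⟩⟩,⟨false,1,⟨3,[(19,0),
  (0,0),(18,1)]⟩,⟨0,[]⟩⟩,⟨false,0,⟨2,[(1,0),(1,1),(2,3),(0,2),(5,1),(7,2),(13,0)]⟩,⟨1,[(4,1),(9,1),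
  (7,1),(15,0),(0,0)]⟩⟩,[.o ⟨false,0,⟨0,[(6,0),(0,0),(5,0)]⟩,⟨7,[(4,3),(7,3),(6,0),(0,2),(11,1),(6,
  1)]⟩⟩,.o ⟨false,1,⟨0,[(23,0),(15,0)]⟩,⟨0,[(25,0)]⟩⟩,.o ⟨false,1,⟨1,[(22,1),(9,0),(5,0)]⟩,⟨2,[(7,
  0),(13,2),(2,1),(2,0)]⟩⟩,.a ⟨true,0,⟨0,[(22,0)]⟩,⟨0,[(21,0)]⟩⟩ ⟨false,1,⟨0,[(4,0),(24,0),(5,0),(1,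
  0),(0,0)]⟩,⟨9,[(0,3),(4,1),(0,1),(4,1),(8,2),(18,0)]⟩⟩ ⟨true,0,⟨0,[(6,0),(0,0),(5,0),(7,0)]⟩,⟨0,
  [(22,0),(2,0)]⟩⟩]⟩) (.R ⟨1,false,false,true,[1,0,0,-1],[0,1],[0,1,0,-1,0,0,0,0,-1],(⟨0,[(21,0)]⟩,
  ⟨0,[(22,0)]⟩),(⟨0,[(34,0)]⟩,⟨0,[(33,0)]⟩),⟨0,[(2,0)]⟩,.k,.k,(.x (-1) ⟨3,[(19,0),(0,0),(11,1),(0,
  3)]⟩ ⟨0,[(34,0)]⟩),(.x (-1) ⟨3,[(19,0),(0,0),(11,1),(0,3)]⟩ ⟨0,[(34,0)]⟩),(.r (-1) ⟨0,[(0,0),(28,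
  0),(7,0)]⟩ ⟨5,[(1,2),(1,2),(1,1),(0,6),(20,6)]⟩),.k,⟨false,1,⟨0,[(0,0),(28,0),(7,0)]⟩,⟨0,[(3,0),
  (2,0),(4,0)]⟩⟩,⟨true,0,⟨0,[(21,0)]⟩,⟨2,[(7,0),(14,2),(1,1),(2,0)]⟩⟩,⟨false,0,⟨0,[(37,0)]⟩,⟨7,[(6,
  3),(4,3),(7,0),(0,0),(18,5)]⟩⟩,⟨false,0,⟨1,[(1,0),(1,0),(2,0),(14,1),(5,0)]⟩,⟨15,[(0,13),(6,5),(6,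
  1),(4,0),(2,15),(0,7),(5,5),(2,0),(2,11)]⟩⟩,⟨true,0,⟨0,[(41,0)]⟩,⟨0,[]⟩⟩,⟨false,0,⟨0,[(3,0),(2,0),
  (4,0),(9,0)]⟩,⟨0,[(0,0),(13,0),(7,0),(0,0),(11,0)]⟩⟩,[.o ⟨false,0,⟨0,[(36,0)]⟩,⟨1,[(32,0),(4,1),
  (1,0)]⟩⟩,.o ⟨false,1,⟨7,[(6,3),(4,3),(7,2),(0,2),(18,1)]⟩,⟨0,[(7,0),(5,0)]⟩⟩,.o ⟨false,1,⟨1,[(22,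
  1),(9,0),(5,0)]⟩,⟨2,[(7,0),(13,2),(2,1),(2,0)]⟩⟩,.a ⟨true,0,⟨0,[(22,0)]⟩,⟨0,[(21,0)]⟩⟩ ⟨false,1,
  ⟨3,[(0,1),(13,1),(4,0),(6,1),(12,0)]⟩,⟨5,[(1,2),(1,2),(2,2),(0,0),(10,0),(16,2)]⟩⟩ ⟨true,0,⟨0,
  [(21,0),(14,0)]⟩,⟨0,[(7,0),(5,0),(8,0)]⟩⟩]⟩)))) (.Q [0,1,1,0,0,0,0,0,1,0,0,-1] (.p false [0,0,0,
  1] [] (⟨0,[(19,0)]⟩,⟨0,[(18,0)]⟩) .k 0 (⟨0,[]⟩,⟨0,[]⟩) .k .k) (.K ⟨0,[0,0,0,1],0,0,(⟨0,[(20,0)]⟩,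
  ⟨0,[(19,0)]⟩),.k,(.r (-1) ⟨1,[(18,0),(16,1),(0,0)]⟩ ⟨6,[(1,1),(0,4),(1,5),(4,0),(15,4),(7,3)]⟩),
  (.x 0 ⟨0,[(32,0)]⟩ ⟨3,[(17,0),(0,0),(11,1),(0,3)]⟩),.k,.k,[⟨0,[(20,0)]⟩,⟨0,[(19,0)]⟩,⟨0,[(1,0),
  (18,0)]⟩,⟨0,[(0,0)]⟩]⟩) (.Q [0,0,0,0,0,1,0,0,0,-1,0,1] (.ed false [0,1,0,1] .k) (.R ⟨0,false,
  false,false,[1,0,0,-1],[1,0,-1],[0,1,0,0,0,0,0,0,-1],(⟨0,[(20,0)]⟩,⟨0,[(21,0)]⟩),(⟨0,[(29,0)]⟩,⟨0,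
  [(30,0)]⟩),⟨0,[(0,0)]⟩,.k,.k,(.x (-1) ⟨3,[(18,0),(0,0),(11,1),(0,3)]⟩ ⟨0,[(33,0)]⟩),.k,.k,.k,
  ⟨false,0,⟨2,[(1,1),(0,0),(3,1),(5,0),(1,2),(1,0),(3,1)]⟩,⟨1,[(19,0),(8,1),(9,0)]⟩⟩,⟨true,0,⟨0,
  [(20,0),(2,0)]⟩,⟨2,[(6,0),(10,0),(3,2)]⟩⟩,⟨true,0,⟨0,[(40,0)]⟩,⟨0,[]⟩⟩,⟨false,1,⟨1,[(19,0),(0,1),
  (2,1),(4,1),(9,0)]⟩,⟨0,[(1,0),(22,0)]⟩⟩,⟨false,0,⟨0,[]⟩,⟨0,[]⟩⟩,⟨false,0,⟨0,[]⟩,⟨0,[]⟩⟩,[.o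
  ⟨false,0,⟨0,[(5,0),(0,0),(5,0)]⟩,⟨7,[(3,3),(7,3),(6,0),(0,2),(11,1),(6,1)]⟩⟩,.o ⟨false,1,⟨0,[(22,
  0),(15,0)]⟩,⟨0,[(24,0)]⟩⟩,.o ⟨false,1,⟨1,[(21,1),(9,0),(5,0)]⟩,⟨2,[(6,0),(13,2),(2,1),(2,0)]⟩⟩,.a
  ⟨true,0,⟨0,[(21,0)]⟩,⟨0,[(20,0)]⟩⟩ ⟨false,0,⟨2,[(1,1),(0,0),(3,1),(5,0),(3,0),(3,1)]⟩,⟨1,[(19,0),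
  (6,0),(0,0),(10,0)]⟩⟩ ⟨true,0,⟨0,[(5,0),(0,0),(5,0),(7,0)]⟩,⟨0,[(21,0),(2,0)]⟩⟩]⟩) (.R ⟨1,false,
  false,false,[1,0,0,-1],[1,0,-1],[0,0,0,-1,0,0,0,0,-1],(⟨0,[(20,0)]⟩,⟨0,[(21,0)]⟩),(⟨0,[(29,0)]⟩,
  ⟨0,[(30,0)]⟩),⟨0,[(0,0)]⟩,.k,.k,(.x (-1) ⟨3,[(18,0),(0,0),(11,1),(0,3)]⟩ ⟨0,[(33,0)]⟩),.k,(.r 0
  ⟨0,[(1,0),(4,0),(5,0),(1,0),(5,0)]⟩ ⟨3,[(5,3),(12,0),(0,2),(6,3)]⟩),.k,⟨false,0,⟨0,[(1,0),(4,0),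
  (5,0),(1,0),(5,0)]⟩,⟨7,[(5,7),(11,3),(0,0),(0,4),(11,1)]⟩⟩,⟨true,0,⟨0,[(20,0),(2,0)]⟩,⟨2,[(6,0),
  (10,0),(3,2)]⟩⟩,⟨true,0,⟨0,[(36,0)]⟩,⟨0,[(35,0)]⟩⟩,⟨false,1,⟨1,[(19,0),(0,1),(2,1),(4,1),(9,0)]⟩,
  ⟨0,[(1,0),(22,0)]⟩⟩,⟨false,1,⟨3,[(18,0),(0,0),(18,1)]⟩,⟨0,[]⟩⟩,⟨false,1,⟨5,[(5,5),(13,2),(0,5),(2,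
  1),(2,1),(4,1),(2,1),(3,0)]⟩,⟨0,[(1,0),(11,0),(0,0)]⟩⟩,[.o ⟨false,0,⟨0,[(5,0),(0,0),(5,0)]⟩,⟨7,
  [(3,3),(7,3),(6,0),(0,2),(11,1),(6,1)]⟩⟩,.o ⟨false,1,⟨0,[(22,0),(15,0)]⟩,⟨0,[(24,0)]⟩⟩,.o ⟨false,
  1,⟨1,[(21,1),(9,0),(5,0)]⟩,⟨2,[(6,0),(13,2),(2,1),(2,0)]⟩⟩,.a ⟨true,0,⟨0,[(21,0)]⟩,⟨0,[(20,0)]⟩⟩
  ⟨false,0,⟨0,[(1,0),(4,0),(5,0),(7,0)]⟩,⟨11,[(4,3),(0,7),(12,2),(0,8),(6,7)]⟩⟩ ⟨true,0,⟨0,[(5,0),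
  (0,0),(5,0),(7,0)]⟩,⟨0,[(21,0),(2,0)]⟩⟩]⟩)))))))) (.R ⟨2,true,false,true,[0,1],[0,1,1],[1,0,1,1],
  (⟨0,[]⟩,⟨0,[]⟩),(⟨0,[(23,0),(2,0)]⟩,⟨0,[(8,0)]⟩),⟨0,[]⟩,.k,.k,.k,.k,.k,.k,⟨false,1,⟨1,[(21,1),(8,
  0),(0,0)]⟩,⟨0,[(7,0)]⟩⟩,⟨true,0,⟨0,[(2,0)]⟩,⟨0,[(20,0)]⟩⟩,⟨true,0,⟨0,[]⟩,⟨0,[(33,0)]⟩⟩,⟨false,0,
  ⟨0,[(0,0)]⟩,⟨0,[(18,0),(12,0)]⟩⟩,⟨false,1,⟨0,[(28,0),(2,0)]⟩,⟨0,[(29,0)]⟩⟩,⟨true,0,⟨0,[(3,0)]⟩,⟨0,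
  [(5,0),(15,0)]⟩⟩,[]⟩)) (.Q [0,0,0,1,0,0,1,1,0,1,-1] (.p false [0,0,1] [1] (⟨0,[(22,0)]⟩,⟨0,[(21,
  0)]⟩) .k 1 (⟨0,[]⟩,⟨0,[]⟩) .k .k) (.Q [0,0,0,1,0,0,0,0,0,1] (.pp false [-1,1]) (.R ⟨1,false,false,
  false,[0,0,1],[1,-1],[0,1,0,-1,0,0,0,1],(⟨0,[(24,0)]⟩,⟨0,[(23,0)]⟩),(⟨0,[(26,0)]⟩,⟨0,[(27,0)]⟩),
  ⟨0,[(2,0)]⟩,.k,.k,.k,.k,.k,.k,⟨false,0,⟨0,[(8,0)]⟩,⟨1,[(22,1),(8,0),(0,0)]⟩⟩,⟨true,0,⟨0,[(17,0)]⟩,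
  ⟨2,[(0,0),(5,0),(4,1)]⟩⟩,⟨false,0,⟨0,[(30,0)]⟩,⟨0,[(29,0),(2,0)]⟩⟩,⟨false,1,⟨1,[(6,1),(15,1),(2,
  0),(6,0)]⟩,⟨0,[(1,0)]⟩⟩,⟨true,0,⟨0,[(34,0)]⟩,⟨0,[]⟩⟩,⟨false,1,⟨0,[(16,0),(15,0)]⟩,⟨1,[(1,0),(3,0),
  (0,0)]⟩⟩,[.a ⟨true,0,⟨0,[(30,0)]⟩,⟨0,[(0,0)]⟩⟩ ⟨true,0,⟨0,[(8,0),(21,0)]⟩,⟨0,[(22,0),(5,0),(0,
  0)]⟩⟩ ⟨false,1,⟨1,[(6,1),(18,0),(5,0)]⟩,⟨0,[(0,0),(2,0)]⟩⟩,.o ⟨false,1,⟨1,[(25,0),(4,1),(1,0)]⟩,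
  ⟨0,[(29,0)]⟩⟩,.o ⟨false,0,⟨0,[(3,0)]⟩,⟨3,[(12,0),(0,0),(3,3),(13,1)]⟩⟩,.o ⟨false,0,⟨0,[(20,0)]⟩,
  ⟨0,[(17,0),(13,0)]⟩⟩]⟩) (.R ⟨2,true,false,true,[0,1],[0,1,1],[1,0,1,1],(⟨0,[]⟩,⟨0,[]⟩),(⟨0,[(24,
  0),(2,0)]⟩,⟨0,[(9,0)]⟩),⟨0,[]⟩,.k,.k,.k,.k,.k,.k,⟨false,1,⟨1,[(22,1),(8,0),(0,0)]⟩,⟨0,[(8,0)]⟩⟩,
  ⟨true,0,⟨0,[(3,0)]⟩,⟨0,[(21,0)]⟩⟩,⟨true,0,⟨0,[]⟩,⟨0,[(34,0)]⟩⟩,⟨false,0,⟨0,[(0,0),(0,0)]⟩,⟨0,[(19,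
  0),(12,0)]⟩⟩,⟨false,1,⟨0,[(29,0),(2,0)]⟩,⟨0,[(30,0)]⟩⟩,⟨true,0,⟨0,[(4,0)]⟩,⟨0,[(6,0),(15,0)]⟩⟩,
  []⟩)) (.Q [0,0,0,0,0,0,1,1,0,1,-1] (.p false [0,0,1] [1] (⟨0,[(23,0)]⟩,⟨0,[(22,0)]⟩) .k 1 (⟨0,[]⟩,
  ⟨0,[]⟩) .k .k) (.R ⟨2,true,false,false,[0,1],[1,0,-1],[0,1,1],(⟨0,[]⟩,⟨0,[]⟩),(⟨0,[(23,0)]⟩,⟨0,
  [(24,0)]⟩),⟨0,[]⟩,.k,.k,.k,.k,.k,.k,⟨false,0,⟨0,[(8,0)]⟩,⟨1,[(22,1),(8,0),(0,0)]⟩⟩,⟨true,0,⟨0,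
  [(17,0)]⟩,⟨1,[(11,0),(2,0),(0,0)]⟩⟩,⟨false,0,⟨0,[(30,0)]⟩,⟨0,[(29,0),(2,0)]⟩⟩,⟨true,0,⟨0,[(1,0)]⟩,
  ⟨0,[(0,0),(28,0)]⟩⟩,⟨true,0,⟨0,[(34,0)]⟩,⟨0,[]⟩⟩,⟨false,1,⟨0,[(16,0),(15,0)]⟩,⟨0,[(0,0)]⟩⟩,[]⟩)
  (.R ⟨2,true,false,false,[0,1],[1,1,-1],[0,1,1],(⟨0,[]⟩,⟨0,[]⟩),(⟨0,[(23,0),(3,0)]⟩,⟨0,[(2,0)]⟩),
  ⟨0,[]⟩,.k,.k,.k,.k,.k,.k,⟨true,0,⟨0,[(8,0),(21,0)]⟩,⟨0,[(22,0),(5,0),(0,0)]⟩⟩,⟨false,1,⟨0,[(17,0),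
  (13,0)]⟩,⟨1,[(11,0),(2,0),(0,0)]⟩⟩,⟨false,0,⟨0,[(30,0)]⟩,⟨0,[(29,0),(2,0)]⟩⟩,⟨true,0,⟨0,[(0,0)]⟩,
  ⟨2,[(5,1),(2,1),(5,0),(0,0),(3,0)]⟩⟩,⟨true,0,⟨0,[(34,0)]⟩,⟨0,[]⟩⟩,⟨false,1,⟨0,[(0,0),(28,0),(2,
  0)]⟩,⟨0,[(5,0),(0,0)]⟩⟩,[]⟩)))) (.K ⟨0,[1,-1,-1],0,0,(⟨0,[(6,0)]⟩,⟨0,[(21,0),(2,0)]⟩),.k,(.r (-1)
  ⟨0,[(19,0),(7,1),(0,0)]⟩ ⟨0,[(1,0),(16,0),(6,0),(0,0)]⟩),.k,.k,.k,[⟨1,[(8,0),(2,0),(0,0)]⟩,⟨0,[(0,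
  0)]⟩,⟨0,[(2,0),(4,0)]⟩,⟨0,[(13,0),(13,0)]⟩]⟩)))

theorem ok27 : chk (cU (-1) true 10) t27 l17 = true := by decide +kernel

noncomputable def t42 : Tre :=
  (.R ⟨1,false,false,true,[0,-1,1],[1,-1],[1],(⟨1,[(1,0),(24,0)]⟩,⟨0,[(25,0),(3,0)]⟩),(⟨0,[(28,0)]⟩,
  ⟨0,[(29,0)]⟩),⟨0,[(1,0)]⟩,.k,.k,(.r (-1) ⟨0,[(0,0),(2,0),(32,0)]⟩ ⟨1,[(2,1),(19,2),(0,0)]⟩),.k,.k,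
  .k,⟨true,0,⟨6,[(2,2),(5,0),(11,0),(1,1),(7,3)]⟩,⟨0,[(32,0),(3,0)]⟩⟩,⟨false,1,⟨3,[(3,1),(8,1),(14,
  0),(6,0)]⟩,⟨4,[(6,0),(6,1),(9,0),(1,1),(2,0)]⟩⟩,⟨false,0,⟨1,[(2,0),(19,0),(1,0),(5,0)]⟩,⟨7,[(4,5),
  (3,3),(5,0),(0,0),(20,5)]⟩⟩,⟨true,0,⟨0,[(18,0)]⟩,⟨7,[(0,4),(7,0),(0,0),(2,3),(0,1),(6,0)]⟩⟩,
  ⟨false,0,⟨1,[(2,1),(6,0),(9,0),(2,0),(7,0)]⟩,⟨0,[(4,0),(15,0),(2,0)]⟩⟩,⟨false,1,⟨7,[(2,3),(11,0),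
  (0,0),(5,3),(5,3),(6,1)]⟩,⟨0,[(0,0)]⟩⟩,[.a ⟨true,0,⟨0,[(32,0),(3,0)]⟩,⟨0,[(0,0),(1,0)]⟩⟩ ⟨true,0,
  ⟨0,[]⟩,⟨1,[(22,0),(0,0)]⟩⟩ ⟨false,1,⟨0,[(3,0),(32,0)]⟩,⟨22,[(0,2),(1,10),(5,3),(4,19),(9,8),(6,
  9)]⟩⟩,.e ⟨false,1,⟨1,[(33,0),(0,0)]⟩,⟨0,[(36,0)]⟩⟩ ⟨false,1,⟨0,[(3,0)]⟩,⟨9,[(2,3),(5,1),(4,9),(8,
  0),(0,6)]⟩⟩,.o ⟨false,0,⟨0,[(22,0)]⟩,⟨3,[(3,1),(8,1),(14,0),(6,0)]⟩⟩,.e ⟨false,1,⟨1,[(33,0),(0,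
  0)]⟩,⟨1,[(22,0),(0,0)]⟩⟩ ⟨false,1,⟨0,[(3,0)]⟩,⟨19,[(2,7),(5,3),(4,19),(8,6),(0,18),(6,9)]⟩⟩]⟩)

theorem ok42 : chk (cU (-1) true 10) t42 l29 = true := by decide +kernel

noncomputable def t43 : Tre :=
  (.K ⟨0,[1,1,-1],1,0,(⟨0,[(26,0),(3,0)]⟩,⟨1,[(2,0),(24,0)]⟩),.k,.k,(.r 0 ⟨3,[(0,3),(2,3),(11,0),(0,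
  0),(11,1)]⟩ ⟨1,[(4,0),(0,0),(3,0),(0,0),(2,0),(19,2)]⟩),.k,.k,[⟨0,[(0,0)]⟩,⟨4,[(3,1),(0,0),(0,3),
  (3,0),(0,0),(2,3)]⟩,⟨0,[(17,0),(0,0),(2,0),(11,0)]⟩,⟨0,[(1,0)]⟩]⟩)

theorem ok43 : chk (cU (-1) true 10) t43 l30 = true := by decide +kernel

noncomputable def t45 : Tre :=
  (.Q [0,1,-1,0,0,0,0,0,-1,0,0,1] (.p true [0,0,0,1] [] (⟨0,[(20,0)]⟩,⟨0,[(19,0)]⟩) .k 0 (⟨0,[]⟩,⟨0,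
  []⟩) .k .k) (.Q [0,1,1,0,0,0,0,0,1,0,0,-1] (.p false [0,0,0,1] [] (⟨0,[(21,0)]⟩,⟨0,[(20,0)]⟩) .k
  0 (⟨0,[]⟩,⟨0,[]⟩) .k .k) (.K ⟨0,[0,0,0,1],0,0,(⟨0,[(22,0)]⟩,⟨0,[(21,0)]⟩),.k,(.r (-1) ⟨1,[(9,0),
  (10,0),(20,0)]⟩ ⟨6,[(1,6),(0,0),(2,5),(7,1),(7,6),(3,1),(1,3),(7,7)]⟩),(.x 0 ⟨0,[(34,0)]⟩ ⟨15,[(6,
  3),(5,3),(6,6),(0,6),(11,1)]⟩),.k,.k,[⟨0,[(22,0)]⟩,⟨0,[(21,0)]⟩,⟨0,[(1,0)]⟩,⟨0,[(0,0)]⟩]⟩) (.I [0,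
  0,-2,-2,0,0,0,0,-1] (.Q [0,0,0,0,0,-1,0,0,0,1,0,-1] (.ed true [0,1,0,1] .k) (.Q [0,0,0,1,0,0,0,0,
  0,1,0,-1] (.p false [0,0,0,1] [1] (⟨0,[(24,0)]⟩,⟨0,[(23,0)]⟩) .k 1 (⟨0,[]⟩,⟨0,[]⟩) .k .k) (.R ⟨1,
  false,false,false,[1,0,0,-1],[0,1],[0,0,0,-1,0,0,0,0,-1],(⟨0,[(24,0)]⟩,⟨0,[(25,0)]⟩),(⟨0,[(37,
  0)]⟩,⟨0,[(36,0)]⟩),⟨0,[(1,0)]⟩,.k,.k,(.x (-1) ⟨15,[(9,3),(5,3),(6,6),(0,6),(11,1)]⟩ ⟨0,[(37,0)]⟩),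
  (.x (-1) ⟨15,[(9,3),(5,3),(6,6),(0,6),(11,1)]⟩ ⟨0,[(37,0)]⟩),(.r 0 ⟨0,[(2,0)]⟩ ⟨19,[(10,15),(5,7),
  (5,4),(0,14),(6,23),(0,7)]⟩),.k,⟨false,0,⟨0,[(2,0)]⟩,⟨39,[(10,31),(5,15),(4,3),(0,8),(0,28),(6,
  23),(4,1)]⟩⟩,⟨true,0,⟨0,[(24,0)]⟩,⟨6,[(5,3),(2,2),(7,0),(8,6),(2,0),(1,1),(7,3)]⟩⟩,⟨true,0,⟨0,
  [(40,0)]⟩,⟨0,[(39,0)]⟩⟩,⟨false,1,⟨1,[(0,1),(22,0),(6,0),(0,0),(10,0)]⟩,⟨0,[(3,0),(1,0)]⟩⟩,⟨false,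
  1,⟨3,[(22,0),(0,0),(18,1)]⟩,⟨0,[]⟩⟩,⟨false,1,⟨9,[(0,9),(9,3),(5,1),(6,4),(6,5),(0,1),(10,4)]⟩,⟨4,
  [(2,2),(0,1),(1,3),(19,2),(1,0),(2,0),(7,0)]⟩⟩,[.e ⟨false,0,⟨5,[(0,1),(1,3),(0,0),(0,0),(22,1),(2,
  1)]⟩,⟨9,[(10,3),(5,1),(0,1),(4,1),(0,6),(11,0)]⟩⟩ ⟨false,0,⟨0,[(0,0)]⟩,⟨19,[(4,3),(0,3),(6,7),(9,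
  0),(0,2),(1,15),(9,7)]⟩⟩,.o ⟨false,1,⟨9,[(10,3),(5,1),(0,1),(4,1),(0,1),(11,0),(6,4)]⟩,⟨0,[(5,
  0)]⟩⟩,.o ⟨false,1,⟨1,[(3,0),(0,0),(18,0),(11,0)]⟩,⟨2,[(0,1),(4,1),(18,0),(2,0),(2,0),(7,0)]⟩⟩,.a
  ⟨true,0,⟨0,[(25,0)]⟩,⟨0,[(24,0)]⟩⟩ ⟨false,0,⟨32,[(0,6),(1,25),(0,6),(4,7),(7,3),(0,0),(12,5),(7,
  16)]⟩,⟨19,[(10,7),(5,3),(5,4),(0,14),(6,11),(0,3)]⟩⟩ ⟨true,0,⟨0,[(0,0)]⟩,⟨0,[(5,0),(19,0)]⟩⟩]⟩)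
  (.R ⟨1,false,false,false,[1,0,0,-1],[0,1],[0,0,0,-1,0,0,0,0,-1],(⟨0,[(24,0)]⟩,⟨0,[(25,0)]⟩),(⟨0,
  [(37,0)]⟩,⟨0,[(36,0)]⟩),⟨0,[(1,0)]⟩,.k,.k,(.x (-1) ⟨15,[(9,3),(5,3),(6,6),(0,6),(11,1)]⟩ ⟨0,[(37,
  0)]⟩),(.x (-1) ⟨15,[(9,3),(5,3),(6,6),(0,6),(11,1)]⟩ ⟨0,[(37,0)]⟩),(.r 0 ⟨0,[(2,0)]⟩ ⟨19,[(10,15),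
  (5,7),(5,4),(0,14),(6,23),(0,7)]⟩),.k,⟨false,0,⟨0,[(2,0)]⟩,⟨39,[(10,31),(5,15),(4,3),(0,8),(0,28),
  (6,23),(4,1)]⟩⟩,⟨true,0,⟨0,[(24,0)]⟩,⟨6,[(0,4),(9,1),(5,0),(8,1),(1,1),(2,3)]⟩⟩,⟨true,0,⟨0,[(40,
  0)]⟩,⟨0,[(39,0)]⟩⟩,⟨false,1,⟨9,[(10,3),(5,1),(6,4),(0,9),(5,5),(0,1),(10,4)]⟩,⟨0,[(3,0),(1,0)]⟩⟩,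
  ⟨false,1,⟨3,[(22,0),(0,0),(18,1)]⟩,⟨0,[]⟩⟩,⟨false,1,⟨29,[(10,23),(5,11),(4,3),(1,14),(0,29),(5,
  15),(4,1),(2,1),(3,12)]⟩,⟨5,[(0,3),(1,3),(0,0),(0,0),(22,1),(2,1)]⟩⟩,[.a ⟨true,0,⟨4,[(10,1),(3,0),
  (1,0),(7,1),(0,1),(7,1),(2,0)]⟩,⟨0,[(40,0)]⟩⟩ ⟨false,0,⟨10,[(2,6),(0,2),(0,0),(3,1),(7,0),(7,3),
  (2,1),(2,3)]⟩,⟨9,[(10,3),(5,1),(0,1),(4,1),(0,6),(11,0)]⟩⟩ ⟨true,0,⟨4,[(10,1),(5,0),(7,4),(5,2),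
  (0,0)]⟩,⟨0,[(0,0)]⟩⟩,.o ⟨false,1,⟨9,[(10,3),(5,1),(0,1),(4,1),(0,1),(11,0),(6,4)]⟩,⟨0,[(5,0)]⟩⟩,
  .o ⟨false,1,⟨1,[(3,0),(0,0),(18,0),(11,0)]⟩,⟨6,[(5,3),(2,2),(7,0),(7,6),(3,0),(1,1),(7,3)]⟩⟩,.e
  ⟨false,0,⟨18,[(2,18),(5,0),(1,6),(5,3),(0,0),(12,5),(7,9)]⟩,⟨19,[(10,7),(5,3),(5,4),(0,14),(6,11),
  (0,3)]⟩⟩ ⟨false,1,⟨9,[(10,3),(5,1),(0,1),(4,1),(0,1),(0,9),(10,0),(6,4)]⟩,⟨0,[(0,0)]⟩⟩]⟩)) (.R ⟨0,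
  false,false,false,[1,0,0,-1],[1,0,-1],[1,0,0,0,0,0,0,0,-1],(⟨0,[(23,0)]⟩,⟨0,[(24,0)]⟩),(⟨0,[(32,
  0)]⟩,⟨0,[(33,0)]⟩),⟨0,[(0,0)]⟩,.k,.k,(.x (-1) ⟨15,[(8,3),(5,3),(6,6),(0,6),(11,1)]⟩ ⟨0,[(36,0)]⟩),
  .k,.k,.k,⟨false,0,⟨18,[(1,18),(5,3),(1,8),(5,15),(0,3),(12,4),(7,1)]⟩,⟨3,[(21,0),(0,2),(8,3)]⟩⟩,
  ⟨true,0,⟨0,[(23,0),(2,0)]⟩,⟨8,[(0,3),(7,0),(5,0),(1,2),(7,4),(4,2)]⟩⟩,⟨true,0,⟨0,[]⟩,⟨0,[(43,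
  0)]⟩⟩,⟨false,1,⟨1,[(22,0),(0,1),(2,1),(4,1),(9,0)]⟩,⟨0,[(2,0),(24,0)]⟩⟩,⟨false,0,⟨0,[]⟩,⟨0,[]⟩⟩,
  ⟨false,0,⟨0,[]⟩,⟨0,[]⟩⟩,[.a ⟨true,0,⟨4,[(5,1),(3,0),(2,1),(20,3),(2,1)]⟩,⟨3,[(13,0),(1,1),(0,0),
  (15,1),(2,0),(3,1)]⟩⟩ ⟨false,0,⟨18,[(1,18),(5,1),(1,13),(5,7),(0,1),(12,11),(7,0)]⟩,⟨3,[(21,0),(0,
  2)]⟩⟩ ⟨true,0,⟨0,[(23,0),(2,0),(4,0)]⟩,⟨5,[(0,3),(7,0),(5,0),(0,2),(0,2),(7,1),(14,2)]⟩⟩,.o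
  ⟨false,1,⟨0,[(25,0),(15,0)]⟩,⟨0,[(27,0)]⟩⟩,.o ⟨false,1,⟨1,[(2,0),(0,0),(18,0),(11,0)]⟩,⟨6,[(4,3),
  (2,2),(7,0),(7,6),(3,0),(1,1),(7,3)]⟩⟩,.e ⟨false,0,⟨18,[(1,18),(5,6),(1,10),(5,8),(0,6),(12,3),(7,
  12)]⟩,⟨3,[(21,0),(0,2),(6,1),(0,1)]⟩⟩ ⟨false,1,⟨0,[(23,0),(1,0),(15,0)]⟩,⟨5,[(0,3),(7,0),(5,0),(0,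
  2),(0,2),(7,1),(14,2)]⟩⟩]⟩)) (.Q [0,0,0,0,0,-1,0,0,0,1,0,-1] (.ed true [0,1,0,1] .k) (.Q [0,0,0,0,
  0,0,-1,-1,0,0,1,-1] (.p true [0,0,1] [0,0,0,1] (⟨0,[(33,0)]⟩,⟨0,[(32,0)]⟩) .k 2 (⟨0,[(24,0)]⟩,⟨0,
  [(23,0)]⟩) .k (.r 0 ⟨13,[(2,12),(0,0),(0,9),(2,1),(7,7),(7,13),(2,1),(2,3)]⟩ ⟨15,[(1,3),(3,7),(15,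
  4),(0,10)]⟩)) (.R ⟨1,false,false,false,[1,0,0,-1],[1,0,-1],[1,1,0,0,0,0,0,0,-1],(⟨0,[(24,0)]⟩,⟨0,
  [(25,0)]⟩),(⟨0,[(33,0)]⟩,⟨0,[(34,0)]⟩),⟨0,[(1,0)]⟩,.k,.k,(.x (-1) ⟨15,[(9,3),(5,3),(6,6),(0,6),
  (11,1)]⟩ ⟨0,[(37,0)]⟩),.k,(.x 0 ⟨44,[(5,3),(2,3),(0,26),(4,8),(2,7),(10,3),(1,10),(7,5)]⟩ ⟨4,[(7,
  0),(5,1),(8,1),(0,1),(9,0),(3,6)]⟩),.k,⟨false,0,⟨0,[(0,0),(2,0),(1,0),(10,0),(0,0),(2,0),(19,0)]⟩,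
  ⟨15,[(2,3),(3,7),(15,0),(0,6),(18,7)]⟩⟩,⟨true,0,⟨0,[(24,0),(2,0)]⟩,⟨8,[(2,1),(0,1),(1,3),(11,3),
  (7,6),(4,0),(7,0)]⟩⟩,⟨false,0,⟨0,[]⟩,⟨3,[(22,0),(0,0),(18,1)]⟩⟩,⟨false,1,⟨1,[(0,1),(22,0),(6,0),
  (0,0),(10,0)]⟩,⟨0,[(3,0),(24,0)]⟩⟩,⟨true,0,⟨0,[(39,0)]⟩,⟨0,[(40,0)]⟩⟩,⟨false,1,⟨7,[(0,7),(1,3),
  (19,0),(0,2),(18,3)]⟩,⟨0,[(3,0),(24,0),(11,0)]⟩⟩,[.e ⟨false,0,⟨1,[(0,1),(2,0),(0,0),(23,1)]⟩,⟨1,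
  [(23,0),(18,0)]⟩⟩ ⟨false,0,⟨0,[(0,0)]⟩,⟨9,[(4,5),(7,1),(3,3),(0,3),(5,2),(1,3),(2,1),(6,1),(6,
  2)]⟩⟩,.o ⟨false,1,⟨0,[(26,0),(15,0)]⟩,⟨0,[(28,0)]⟩⟩,.o ⟨false,1,⟨1,[(3,0),(0,0),(18,0),(11,0)]⟩,
  ⟨3,[(0,2),(4,0),(10,0),(7,0),(3,0),(1,1),(7,0)]⟩⟩,.a ⟨true,0,⟨0,[(25,0)]⟩,⟨0,[(24,0)]⟩⟩ ⟨false,0,
  ⟨0,[(0,0),(2,0),(24,0)]⟩,⟨1,[(23,0),(6,0),(0,0),(10,0)]⟩⟩ ⟨true,0,⟨0,[(0,0)]⟩,⟨0,[(25,0),(2,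
  0)]⟩⟩]⟩) (.I [0,1,-1,-2,0,0,0,1,-1] (.R ⟨1,false,false,false,[1,0,0,-1],[1,1,-1],[0,1,0,-1,0,0,0,
  0,-1],(⟨0,[(25,0)]⟩,⟨0,[(26,0)]⟩),(⟨0,[(34,0),(3,0)]⟩,⟨1,[(10,0),(24,0)]⟩),⟨0,[(2,0)]⟩,.k,.k,(.x
  (-1) ⟨15,[(10,3),(5,3),(6,6),(0,6),(11,1)]⟩ ⟨0,[(38,0)]⟩),(.x 0 ⟨44,[(6,3),(2,3),(0,26),(4,8),(2,
  7),(10,3),(1,10),(7,5)]⟩ ⟨4,[(8,0),(5,1),(8,1),(0,1),(9,0),(3,6)]⟩),(.r (-1) ⟨73,[(0,41),(3,1),(3,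
  3),(4,39),(3,15),(0,1),(4,14),(1,1),(16,14)]⟩ ⟨0,[(3,0),(29,0)]⟩),.k,⟨true,0,⟨0,[(0,0)]⟩,⟨0,[(3,
  0),(15,0)]⟩⟩,⟨false,1,⟨5,[(8,3),(14,0),(0,0),(0,5),(2,1)]⟩,⟨9,[(1,7),(1,1),(0,0),(0,0),(1,3),(23,
  1)]⟩⟩,⟨false,0,⟨0,[(41,0)]⟩,⟨25,[(3,7),(7,3),(5,1),(0,1),(4,3),(12,0),(5,7),(0,12)]⟩⟩,⟨false,1,⟨5,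
  [(3,1),(3,1),(3,1),(12,1),(0,5),(2,3),(7,0),(6,2)]⟩,⟨11,[(0,4),(0,4),(2,6),(1,1),(11,1),(10,1),(1,
  0),(7,0)]⟩⟩,⟨true,0,⟨0,[(45,0)]⟩,⟨0,[]⟩⟩,⟨false,1,⟨2,[(3,0),(7,1),(7,0),(4,0),(0,2),(2,0),(7,0),
  (6,0)]⟩,⟨25,[(0,20),(0,20),(2,4),(1,1),(0,7),(10,1),(12,0),(7,8)]⟩⟩,[.a ⟨true,0,⟨4,[(7,0),(3,2),
  (2,0),(20,1),(2,0)]⟩,⟨0,[(1,0),(23,0),(15,0)]⟩⟩ ⟨false,0,⟨8,[(0,5),(3,1),(0,0),(1,0),(1,3),(8,0),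
  (6,2),(5,1)]⟩,⟨17,[(3,3),(4,3),(2,3),(5,1),(0,3),(5,6),(14,1),(3,6)]⟩⟩ ⟨true,0,⟨2,[(9,0),(1,0),(7,
  0),(5,2),(2,1),(2,0)]⟩,⟨0,[(1,0),(39,0)]⟩⟩,.o ⟨false,1,⟨0,[(9,0),(33,0)]⟩,⟨0,[(29,0),(11,0)]⟩⟩,.o
  ⟨false,1,⟨1,[(4,0),(0,0),(18,0),(11,0)]⟩,⟨6,[(6,3),(2,2),(7,0),(7,6),(3,0),(1,1),(7,3)]⟩⟩,.e
  ⟨false,0,⟨0,[(4,0),(1,0),(18,0)]⟩,⟨7,[(3,3),(19,0),(0,2),(18,3)]⟩⟩ ⟨false,1,⟨0,[(9,0),(15,0),(17,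
  0)]⟩,⟨0,[(1,0),(39,0)]⟩⟩]⟩) (.Q [0,1,1,-1,0,0,0,0,1,0,0,-1] (.p false [0,0,0,1] [] (⟨0,[(26,0)]⟩,
  ⟨0,[(25,0)]⟩) .k 0 (⟨0,[]⟩,⟨0,[]⟩) .k .k) (.R ⟨1,false,false,true,[1,0,0,-1],[1,-1],[1,1],(⟨0,
  [(26,0)]⟩,⟨0,[(27,0)]⟩),(⟨0,[(38,0)]⟩,⟨0,[(39,0)]⟩),⟨0,[(3,0)]⟩,.k,.k,(.x (-1) ⟨15,[(11,3),(5,3),
  (6,6),(0,6),(11,1)]⟩ ⟨0,[(39,0)]⟩),(.r 0 ⟨6,[(5,4),(0,1),(3,2),(1,0),(5,1),(7,6),(2,3),(2,7)]⟩ ⟨9,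
  [(0,1),(5,1),(7,3),(10,4),(17,0)]⟩),.k,.k,⟨true,0,⟨4,[(12,1),(5,0),(13,2),(0,0)]⟩,⟨0,[(42,0)]⟩⟩,
  ⟨false,0,⟨6,[(7,3),(2,2),(7,0),(7,6),(3,0),(1,1),(7,3)]⟩,⟨1,[(5,0),(0,0),(18,0),(17,0)]⟩⟩,⟨false,
  1,⟨3,[(24,0),(0,2)]⟩,⟨6,[(5,6),(1,3),(2,2),(7,0),(7,6),(3,0),(1,1),(7,3)]⟩⟩,⟨true,0,⟨0,[(0,0)]⟩,
  ⟨0,[(5,0),(35,0)]⟩⟩,⟨false,1,⟨7,[(4,3),(19,0),(0,2),(17,3)]⟩,⟨1,[(5,0),(0,0),(0,1),(18,1),(13,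
  1)]⟩⟩,⟨false,1,⟨15,[(0,7),(3,3),(19,2),(0,4),(0,7),(10,3),(6,3)]⟩,⟨0,[(5,0)]⟩⟩,[.o ⟨false,0,⟨0,
  [(7,0)]⟩,⟨17,[(1,3),(2,3),(13,1),(5,3),(18,6),(0,6)]⟩⟩,.e ⟨true,0,⟨0,[]⟩,⟨1,[(32,0),(0,0)]⟩⟩
  ⟨true,0,⟨2,[(7,1),(18,2),(2,0),(2,0),(7,0),(1,0)]⟩,⟨1,[(2,0),(9,0),(14,0)]⟩⟩,.o ⟨false,1,⟨1,[(5,
  0),(0,0),(18,0),(11,0)]⟩,⟨6,[(7,3),(2,2),(7,0),(7,6),(3,0),(1,1),(7,3)]⟩⟩,.a ⟨true,0,⟨0,[(27,0)]⟩,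
  ⟨0,[(26,0)]⟩⟩ ⟨false,1,⟨3,[(24,0),(0,0),(17,1)]⟩,⟨3,[(32,0),(0,0),(6,1)]⟩⟩ ⟨true,0,⟨0,[(7,0),(18,
  0)]⟩,⟨1,[(2,0),(9,0),(14,0)]⟩⟩]⟩) (.K ⟨1,[1,-1,0,-1],0,0,(⟨0,[(3,0)]⟩,⟨0,[(27,0),(11,0)]⟩),(.x
  (-1) ⟨15,[(11,3),(5,3),(6,6),(0,6),(11,1)]⟩ ⟨0,[(39,0)]⟩),(.r (-1) ⟨7,[(5,0),(0,2),(0,3),(6,5),(9,
  1),(1,3)]⟩ ⟨0,[(0,4),(0,5),(1,4),(3,6),(10,2),(0,1),(2,3),(16,4),(2,14)]⟩),.k,.k,.k,[⟨1,[(26,1),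
  (5,0),(0,0)]⟩,⟨4,[(1,0),(0,0),(2,0),(1,1),(19,2),(1,2),(2,1)]⟩,⟨0,[(1,0),(20,0),(3,0),(3,0),(11,
  1)]⟩,⟨0,[(5,0),(36,0)]⟩]⟩)))) (.I [0,1,-1,0,0,0,0,1,-1] (.R ⟨0,false,false,false,[1,0,0,-1],[1,0,
  -1],[0,1,0,0,0,0,0,0,-1],(⟨0,[(24,0)]⟩,⟨0,[(25,0)]⟩),(⟨0,[(33,0)]⟩,⟨0,[(34,0)]⟩),⟨0,[(1,0)]⟩,.k,
  .k,(.x (-1) ⟨15,[(9,3),(5,3),(6,6),(0,6),(11,1)]⟩ ⟨0,[(37,0)]⟩),.k,.k,.k,⟨false,0,⟨0,[(0,0)]⟩,⟨15,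
  [(2,3),(3,7),(15,0),(0,6),(18,7)]⟩⟩,⟨true,0,⟨0,[(24,0),(2,0)]⟩,⟨8,[(1,3),(7,0),(5,0),(1,2),(7,4),
  (4,2)]⟩⟩,⟨true,0,⟨0,[(44,0)]⟩,⟨0,[]⟩⟩,⟨false,1,⟨15,[(2,3),(3,7),(15,0),(0,6),(0,15),(2,15),(14,
  7)]⟩,⟨0,[(3,0),(24,0)]⟩⟩,⟨false,0,⟨0,[]⟩,⟨0,[]⟩⟩,⟨false,0,⟨0,[]⟩,⟨0,[]⟩⟩,[.a ⟨true,0,⟨4,[(6,1),(3,
  0),(2,1),(20,3),(2,1)]⟩,⟨3,[(14,0),(1,1),(0,0),(15,1),(2,0),(3,1)]⟩⟩ ⟨false,0,⟨0,[(0,0),(31,0)]⟩,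
  ⟨1,[(23,0),(18,0)]⟩⟩ ⟨true,0,⟨0,[(24,0),(2,0),(4,0)]⟩,⟨5,[(1,3),(7,0),(5,0),(0,2),(0,2),(7,1),(14,
  2)]⟩⟩,.o ⟨false,1,⟨0,[(26,0),(15,0)]⟩,⟨0,[(28,0)]⟩⟩,.o ⟨false,1,⟨1,[(3,0),(0,0),(18,0),(11,0)]⟩,
  ⟨6,[(5,3),(2,2),(7,0),(7,6),(3,0),(1,1),(7,3)]⟩⟩,.e ⟨false,0,⟨0,[(0,0),(17,0)]⟩,⟨1,[(23,0),(6,0),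
  (0,0),(10,0)]⟩⟩ ⟨false,1,⟨0,[(24,0),(1,0),(15,0)]⟩,⟨5,[(1,3),(7,0),(5,0),(0,2),(0,2),(7,1),(14,
  2)]⟩⟩]⟩) (.R ⟨0,false,false,true,[1,0,0,-1],[1,0,-1],[1,1],(⟨0,[(24,0)]⟩,⟨0,[(25,0)]⟩),(⟨0,[(33,
  0)]⟩,⟨0,[(34,0)]⟩),⟨0,[(1,0)]⟩,.k,.k,(.x (-1) ⟨15,[(9,3),(5,3),(6,6),(0,6),(11,1)]⟩ ⟨0,[(37,0)]⟩),
  .k,.k,.k,⟨false,1,⟨6,[(12,1),(3,2),(3,0),(1,0),(0,0),(4,0),(12,2)]⟩,⟨0,[(32,0)]⟩⟩,⟨true,0,⟨0,[(24,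
  0),(2,0)]⟩,⟨8,[(1,3),(7,0),(5,0),(1,2),(7,4),(4,2)]⟩⟩,⟨false,1,⟨3,[(22,0),(0,2)]⟩,⟨6,[(3,6),(1,3),
  (2,2),(7,0),(7,6),(3,0),(1,1),(7,3)]⟩⟩,⟨true,0,⟨0,[(0,0),(4,0),(14,0),(3,0)]⟩,⟨0,[(3,0),(24,0)]⟩⟩,
  ⟨false,0,⟨0,[]⟩,⟨0,[]⟩⟩,⟨false,0,⟨0,[]⟩,⟨0,[]⟩⟩,[.o ⟨false,0,⟨0,[(26,0)]⟩,⟨0,[(28,0),(13,0)]⟩⟩,.e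
  ⟨true,0,⟨0,[]⟩,⟨1,[(30,0),(0,0)]⟩⟩ ⟨true,0,⟨0,[(24,0),(2,0),(4,0)]⟩,⟨5,[(1,3),(7,0),(5,0),(0,2),
  (0,2),(7,1),(14,2)]⟩⟩,.o ⟨false,1,⟨1,[(3,0),(0,0),(18,0),(11,0)]⟩,⟨6,[(5,3),(2,2),(7,0),(7,6),(3,
  0),(1,1),(7,3)]⟩⟩,.a ⟨true,0,⟨0,[(25,0)]⟩,⟨0,[(24,0)]⟩⟩ ⟨false,1,⟨3,[(22,0),(0,0),(17,1)]⟩,⟨3,
  [(30,0),(0,0),(6,1)]⟩⟩ ⟨true,0,⟨0,[(24,0),(1,0)]⟩,⟨5,[(1,3),(7,0),(5,0),(0,2),(0,2),(7,1),(14,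
  2)]⟩⟩]⟩))))) (.I [0,0,-2,-2,1,0,0,0,-1] (.I [0,0,0,0,0,0,0,0,1] (.Q [0,0,0,0,0,-1,0,0,0,1,0,-1]
  (.ed true [0,1,0,1] .k) (.I [0,0,1,1,0,0,0,0,-1] (.Q [0,0,0,1,0,0,1,1,0,1,-1,-1] (.p false [0,0,
  1] [1,0,0,-1] (⟨0,[(34,0)]⟩,⟨0,[(33,0)]⟩) .k 2 (⟨0,[(24,0)]⟩,⟨0,[(25,0)]⟩) .k (.x 0 ⟨0,[(30,0),(3,
  0)]⟩ ⟨4,[(7,2),(5,0),(8,0),(0,0),(9,2),(3,0)]⟩)) (.R ⟨1,false,false,false,[1,0,0,-1],[0,1,1],[1,0,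
  0,0,0,0,0,0,-1],(⟨0,[(25,0)]⟩,⟨0,[(26,0)]⟩),(⟨0,[(35,0),(2,0)]⟩,⟨0,[(20,0)]⟩),⟨0,[(2,0)]⟩,.k,.k,
  (.x (-1) ⟨15,[(10,3),(5,3),(6,6),(0,6),(11,1)]⟩ ⟨0,[(38,0)]⟩),(.r (-1) ⟨15,[(4,3),(2,7),(15,8),(0,
  2)]⟩ ⟨9,[(3,9),(7,1),(5,5),(13,2),(0,0)]⟩),(.r (-1) ⟨15,[(4,11),(2,7),(15,2),(0,0)]⟩ ⟨9,[(3,9),(7,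
  5),(5,7),(13,8),(0,2)]⟩),.k,⟨false,1,⟨6,[(4,2),(2,2),(0,0),(2,0),(6,0),(4,1),(18,0)]⟩,⟨9,[(3,9),
  (7,1),(5,5),(13,2),(0,0)]⟩⟩,⟨true,0,⟨10,[(0,3),(5,1),(0,1),(10,1),(6,6),(5,2),(7,0)]⟩,⟨0,[(26,0),
  (1,0)]⟩⟩,⟨true,0,⟨0,[]⟩,⟨0,[(45,0)]⟩⟩,⟨false,0,⟨8,[(0,3),(2,5),(1,2),(5,0),(5,2),(4,2),(2,1),(13,
  2)]⟩,⟨1,[(7,0),(4,0),(10,0),(2,1),(1,0)]⟩⟩,⟨false,1,⟨9,[(11,3),(5,1),(0,1),(4,1),(0,1),(11,0),(6,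
  4)]⟩,⟨0,[(41,0)]⟩⟩,⟨false,0,⟨3,[(0,1),(2,1),(1,1),(5,1),(5,1),(0,0),(3,0),(16,0)]⟩,⟨15,[(4,11),(2,
  7),(15,2),(0,0),(1,15),(1,15)]⟩⟩,[.e ⟨false,1,⟨1,[(23,0),(18,0)]⟩,⟨0,[(3,0)]⟩⟩ ⟨false,0,⟨0,[(0,
  0)]⟩,⟨5,[(7,0),(4,0),(0,1),(12,5),(1,0),(1,3),(5,1),(6,0)]⟩⟩,.o ⟨false,1,⟨9,[(11,1),(5,5),(0,5),
  (4,0),(0,0),(11,2),(6,4)]⟩,⟨0,[(27,0),(13,0)]⟩⟩,.o ⟨false,1,⟨1,[(26,1),(9,0),(5,0)]⟩,⟨1,[(1,0),(3,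
  0),(0,0),(18,0)]⟩⟩,.a ⟨true,0,⟨0,[(26,0)]⟩,⟨0,[(25,0)]⟩⟩ ⟨false,1,⟨26,[(4,8),(3,7),(2,7),(1,0),(3,
  3),(0,7),(4,8),(15,12)]⟩,⟨1,[(3,1),(27,0),(0,0)]⟩⟩ ⟨true,0,⟨0,[(0,0)]⟩,⟨0,[(26,0),(0,0),(13,
  0)]⟩⟩]⟩) (.R ⟨1,false,false,false,[1,0,0,-1],[1,-1],[1,0,0,0,0,0,0,0,-1],(⟨0,[(25,0)]⟩,⟨0,[(26,
  0)]⟩),(⟨0,[(37,0)]⟩,⟨0,[(38,0)]⟩),⟨0,[(2,0)]⟩,.k,.k,(.x (-1) ⟨15,[(10,3),(5,3),(6,6),(0,6),(11,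
  1)]⟩ ⟨0,[(38,0)]⟩),(.r 0 ⟨0,[(1,0)]⟩ ⟨1,[(13,0),(10,0),(20,0)]⟩),.k,.k,⟨true,0,⟨0,[(1,0)]⟩,⟨0,[(3,
  0),(37,0)]⟩⟩,⟨false,0,⟨1,[(1,0),(3,0),(0,0),(18,0)]⟩,⟨0,[(26,0),(15,0)]⟩⟩,⟨true,0,⟨0,[]⟩,⟨0,[(45,
  0)]⟩⟩,⟨false,0,⟨0,[(5,0),(35,0)]⟩,⟨19,[(8,3),(2,7),(5,3),(0,5),(4,9),(2,19),(9,0),(5,4)]⟩⟩,⟨false,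
  1,⟨9,[(11,3),(5,1),(0,1),(4,1),(0,1),(11,0),(6,4)]⟩,⟨0,[(41,0)]⟩⟩,⟨false,0,⟨0,[(5,0)]⟩,⟨1,[(23,0),
  (2,1),(15,0)]⟩⟩,[.a ⟨true,0,⟨0,[(41,0)]⟩,⟨4,[(11,1),(3,0),(1,0),(7,1),(0,1),(7,1),(2,0)]⟩⟩ ⟨false,
  1,⟨1,[(23,0),(18,0)]⟩,⟨0,[(3,0)]⟩⟩ ⟨true,0,⟨2,[(6,1),(18,2),(2,0),(2,0),(7,0),(1,0)]⟩,⟨1,[(0,0),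
  (10,0),(5,0),(0,0),(7,0)]⟩⟩,.o ⟨false,1,⟨3,[(13,1),(14,1),(2,1),(4,0),(6,0)]⟩,⟨0,[(40,0)]⟩⟩,.o
  ⟨false,1,⟨1,[(26,1),(9,0),(5,0)]⟩,⟨1,[(1,0),(3,0),(0,0),(18,0)]⟩⟩,.e ⟨false,1,⟨26,[(4,8),(3,7),(2,
  7),(1,0),(3,3),(0,7),(4,8),(15,12)]⟩,⟨1,[(3,1),(27,0),(0,0)]⟩⟩ ⟨false,1,⟨7,[(4,3),(0,7),(17,2),(0,
  0)]⟩,⟨1,[(0,0),(10,0),(5,0),(0,0),(7,0)]⟩⟩]⟩)) (.Q [0,0,0,1,0,0,0,0,0,1,0,-1] (.p false [0,0,0,1]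
  [1] (⟨0,[(25,0)]⟩,⟨0,[(24,0)]⟩) .k 1 (⟨0,[]⟩,⟨0,[]⟩) .k .k) (.R ⟨1,false,false,false,[1,0,0,-1],
  [0,1],[0,0,0,-1,0,0,0,0,-1],(⟨0,[(25,0)]⟩,⟨0,[(26,0)]⟩),(⟨0,[(38,0)]⟩,⟨0,[(37,0)]⟩),⟨0,[(2,0)]⟩,
  .k,.k,(.x (-1) ⟨15,[(10,3),(5,3),(6,6),(0,6),(11,1)]⟩ ⟨0,[(38,0)]⟩),(.x (-1) ⟨15,[(10,3),(5,3),(6,
  6),(0,6),(11,1)]⟩ ⟨0,[(38,0)]⟩),(.r (-1) ⟨0,[(4,0)]⟩ ⟨4,[(3,4),(7,3),(5,1),(13,5),(0,1)]⟩),.k,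
  ⟨false,1,⟨0,[(4,0)]⟩,⟨18,[(3,18),(5,1),(1,13),(5,7),(0,1),(12,11),(7,0)]⟩⟩,⟨true,0,⟨0,[(25,0)]⟩,
  ⟨6,[(6,3),(2,2),(7,0),(8,6),(2,0),(1,1),(7,3)]⟩⟩,⟨true,0,⟨0,[(41,0)]⟩,⟨0,[(40,0)]⟩⟩,⟨false,0,⟨0,
  [(0,0),(4,0),(20,0)]⟩,⟨10,[(4,2),(1,7),(1,3),(0,1),(7,0),(0,2),(4,3),(2,10),(12,4)]⟩⟩,⟨false,1,⟨3,
  [(23,0),(0,0),(18,1)]⟩,⟨0,[]⟩⟩,⟨false,0,⟨3,[(0,2),(2,1),(1,1),(5,1),(5,0),(4,0),(3,0),(12,0)]⟩,⟨5,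
  [(4,3),(1,3),(16,0),(2,5),(9,0),(2,1)]⟩⟩,[.e ⟨false,1,⟨7,[(4,3),(18,2),(0,0)]⟩,⟨6,[(1,0),(1,5),(5,
  1),(1,1),(5,1),(0,1),(20,0)]⟩⟩ ⟨false,0,⟨0,[(0,0)]⟩,⟨41,[(4,9),(1,5),(5,3),(0,5),(4,1),(5,4),(1,
  41),(9,16)]⟩⟩,.o ⟨false,1,⟨9,[(11,3),(5,1),(0,1),(4,1),(0,1),(11,0),(6,4)]⟩,⟨0,[(6,0)]⟩⟩,.o
  ⟨false,1,⟨1,[(26,1),(9,0),(5,0)]⟩,⟨2,[(0,1),(5,1),(18,0),(2,0),(2,0),(7,0)]⟩⟩,.a ⟨true,0,⟨0,[(26,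
  0)]⟩,⟨0,[(25,0)]⟩⟩ ⟨false,1,⟨26,[(4,8),(3,1),(2,1),(1,6),(3,0),(0,1),(4,8),(15,9)]⟩,⟨4,[(3,4),(7,
  1),(5,0),(13,2),(0,0)]⟩⟩ ⟨true,0,⟨0,[(0,0)]⟩,⟨0,[(6,0),(19,0)]⟩⟩]⟩) (.R ⟨1,false,false,false,[1,0,
  0,-1],[0,1],[0,0,0,-1,0,0,0,0,-1],(⟨0,[(25,0)]⟩,⟨0,[(26,0)]⟩),(⟨0,[(38,0)]⟩,⟨0,[(37,0)]⟩),⟨0,[(2,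
  0)]⟩,.k,.k,(.x (-1) ⟨15,[(10,3),(5,3),(6,6),(0,6),(11,1)]⟩ ⟨0,[(38,0)]⟩),(.x (-1) ⟨15,[(10,3),(5,
  3),(6,6),(0,6),(11,1)]⟩ ⟨0,[(38,0)]⟩),(.r (-1) ⟨0,[(4,0)]⟩ ⟨4,[(3,4),(7,3),(5,1),(13,5),(0,1)]⟩),
  .k,⟨false,1,⟨0,[(4,0)]⟩,⟨18,[(0,0),(2,17),(1,0),(3,0),(1,14),(5,7),(0,1),(12,11)]⟩⟩,⟨true,0,⟨0,
  [(25,0)]⟩,⟨6,[(0,4),(10,1),(5,0),(8,1),(1,1),(2,3)]⟩⟩,⟨true,0,⟨0,[(41,0)]⟩,⟨0,[(40,0)]⟩⟩,⟨false,0,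
  ⟨24,[(3,17),(1,6),(5,9),(5,4),(4,6),(2,17),(6,3),(6,8)]⟩,⟨1,[(0,1),(22,0),(18,0)]⟩⟩,⟨false,1,⟨3,
  [(23,0),(0,0),(18,1)]⟩,⟨0,[]⟩⟩,⟨false,0,⟨9,[(3,5),(1,3),(5,7),(5,3),(0,0),(3,2),(2,5),(13,2)]⟩,⟨7,
  [(0,7),(3,3),(18,2),(0,0)]⟩⟩,[.a ⟨true,0,⟨4,[(11,1),(3,0),(1,0),(7,1),(0,1),(7,1),(2,0)]⟩,⟨0,[(41,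
  0)]⟩⟩ ⟨false,1,⟨7,[(4,3),(18,2),(0,0)]⟩,⟨6,[(0,0),(0,0),(1,4),(1,0),(3,0),(1,2),(5,1),(0,1)]⟩⟩
  ⟨true,0,⟨4,[(11,1),(5,0),(7,4),(5,2),(0,0)]⟩,⟨0,[(0,0)]⟩⟩,.o ⟨false,1,⟨9,[(11,3),(5,1),(0,1),(4,
  1),(0,1),(11,0),(6,4)]⟩,⟨0,[(6,0)]⟩⟩,.o ⟨false,1,⟨1,[(26,1),(9,0),(5,0)]⟩,⟨6,[(6,3),(2,2),(7,0),
  (7,6),(3,0),(1,1),(7,3)]⟩⟩,.e ⟨false,1,⟨26,[(4,8),(3,1),(2,1),(1,6),(3,0),(0,1),(4,8),(15,9)]⟩,⟨4,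
  [(3,4),(7,1),(5,0),(13,2),(0,0)]⟩⟩ ⟨false,1,⟨9,[(11,3),(5,1),(0,1),(4,1),(0,1),(0,9),(10,0),(6,
  4)]⟩,⟨0,[(0,0)]⟩⟩]⟩))) (.R ⟨0,false,false,false,[1,0,0,-1],[1,0,-1],[1,0,0,0,0,0,0,0,-1],(⟨0,[(23,
  0)]⟩,⟨0,[(24,0)]⟩),(⟨0,[(32,0)]⟩,⟨0,[(33,0)]⟩),⟨0,[(0,0)]⟩,.k,.k,(.x (-1) ⟨15,[(8,3),(5,3),(6,6),
  (0,6),(11,1)]⟩ ⟨0,[(36,0)]⟩),.k,.k,.k,⟨false,1,⟨6,[(2,2),(3,0),(2,0),(5,3),(0,0),(4,1),(18,0)]⟩,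
  ⟨0,[(1,0),(29,0)]⟩⟩,⟨true,0,⟨0,[(23,0),(2,0)]⟩,⟨8,[(0,3),(7,0),(5,0),(1,2),(7,4),(4,2)]⟩⟩,⟨true,0,
  ⟨0,[]⟩,⟨0,[(43,0)]⟩⟩,⟨false,0,⟨4,[(3,4),(1,1),(3,0),(2,1),(20,3),(2,1)]⟩,⟨119,[(0,7),(1,29),(3,
  23),(1,1),(5,1),(0,59),(0,71),(4,44),(2,111),(9,20)]⟩⟩,⟨false,0,⟨0,[]⟩,⟨0,[]⟩⟩,⟨false,0,⟨0,[]⟩,⟨0,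
  []⟩⟩,[.a ⟨true,0,⟨4,[(5,1),(3,0),(2,1),(20,3),(2,1)]⟩,⟨3,[(13,0),(1,1),(0,0),(15,1),(2,0),(3,
  1)]⟩⟩ ⟨false,1,⟨1,[(21,0),(18,0)]⟩,⟨0,[(1,0)]⟩⟩ ⟨true,0,⟨0,[(23,0),(2,0),(4,0)]⟩,⟨5,[(0,3),(7,0),
  (5,0),(0,2),(0,2),(7,1),(14,2)]⟩⟩,.o ⟨false,1,⟨0,[(25,0),(15,0)]⟩,⟨0,[(27,0)]⟩⟩,.o ⟨false,1,⟨1,
  [(24,1),(9,0),(5,0)]⟩,⟨6,[(4,3),(2,2),(7,0),(7,6),(3,0),(1,1),(7,3)]⟩⟩,.e ⟨false,1,⟨26,[(2,8),(3,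
  7),(2,7),(1,0),(3,3),(0,7),(4,8),(15,12)]⟩,⟨1,[(1,1),(27,0),(0,0)]⟩⟩ ⟨false,1,⟨17,[(3,11),(1,2),
  (3,3),(0,4),(10,5),(1,5),(2,0),(1,7),(12,6)]⟩,⟨5,[(0,3),(7,0),(5,0),(0,2),(0,2),(7,1),(14,
  2)]⟩⟩]⟩)) (.Q [0,0,0,0,0,-1,0,0,0,1,0,-1] (.ed true [0,1,0,1] .k) (.Q [0,0,0,1,0,0,0,0,0,1,0,-1]
  (.p false [0,0,0,1] [1] (⟨0,[(24,0)]⟩,⟨0,[(23,0)]⟩) .k 1 (⟨0,[]⟩,⟨0,[]⟩) .k .k) (.R ⟨1,false,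
  false,true,[1,0,0,-1],[0,1],[1,1,0,0,0,0,0,0,-1],(⟨0,[(24,0)]⟩,⟨0,[(25,0)]⟩),(⟨0,[(37,0)]⟩,⟨0,
  [(36,0)]⟩),⟨0,[(1,0)]⟩,.k,.k,(.x (-1) ⟨15,[(9,3),(5,3),(6,6),(0,6),(11,1)]⟩ ⟨0,[(37,0)]⟩),(.x
  (-1) ⟨15,[(9,3),(5,3),(6,6),(0,6),(11,1)]⟩ ⟨0,[(37,0)]⟩),(.r (-1) ⟨0,[(3,0)]⟩ ⟨4,[(4,4),(5,1),(5,
  0),(8,4),(4,2),(0,0),(7,4)]⟩),.k,⟨false,1,⟨1,[(2,0),(0,0),(37,0)]⟩,⟨0,[(4,0),(20,0),(13,0)]⟩⟩,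
  ⟨true,0,⟨0,[(24,0)]⟩,⟨6,[(5,3),(2,2),(7,0),(8,6),(2,0),(1,1),(7,3)]⟩⟩,⟨false,0,⟨0,[]⟩,⟨3,[(22,0),
  (0,0),(18,1)]⟩⟩,⟨false,0,⟨4,[(4,4),(9,0),(5,4),(0,1),(9,0),(1,1),(2,0)]⟩,⟨18,[(2,18),(2,2),(1,3),
  (4,7),(4,1),(7,18),(9,6),(2,6)]⟩⟩,⟨true,0,⟨0,[(39,0)]⟩,⟨0,[(40,0)]⟩⟩,⟨false,0,⟨7,[(0,2),(3,7),(5,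
  1),(5,0),(0,0),(2,7),(0,3),(3,2)]⟩,⟨3,[(2,2),(0,0),(1,1),(6,1),(12,3),(9,0),(2,1)]⟩⟩,[.o ⟨false,0,
  ⟨0,[(39,0)]⟩,⟨3,[(12,1),(14,1),(2,1),(4,0),(6,0)]⟩⟩,.a ⟨true,0,⟨0,[(0,0),(24,0)]⟩,⟨0,[(40,0)]⟩⟩
  ⟨true,0,⟨0,[(2,0)]⟩,⟨0,[(4,0),(20,0),(18,0)]⟩⟩ ⟨false,0,⟨0,[(0,0)]⟩,⟨41,[(3,9),(1,5),(5,3),(0,5),
  (4,1),(5,4),(1,41),(9,16)]⟩⟩,.o ⟨false,1,⟨1,[(25,1),(9,0),(5,0)]⟩,⟨2,[(0,0),(1,0),(1,0),(0,0),(18,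
  0),(2,0),(2,0)]⟩⟩,.e ⟨false,1,⟨1,[(22,0),(18,0)]⟩,⟨0,[(4,0),(20,0)]⟩⟩ ⟨false,0,⟨0,[(0,0)]⟩,⟨3,
  [(12,1),(12,3),(1,1),(2,1),(4,0),(6,0)]⟩⟩]⟩) (.R ⟨1,false,false,true,[1,0,0,-1],[0,1],[1,1,0,0,0,
  0,0,0,-1],(⟨0,[(24,0)]⟩,⟨0,[(25,0)]⟩),(⟨0,[(37,0)]⟩,⟨0,[(36,0)]⟩),⟨0,[(1,0)]⟩,.k,.k,(.x (-1) ⟨15,
  [(9,3),(5,3),(6,6),(0,6),(11,1)]⟩ ⟨0,[(37,0)]⟩),(.x (-1) ⟨15,[(9,3),(5,3),(6,6),(0,6),(11,1)]⟩ ⟨0,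
  [(37,0)]⟩),(.r (-1) ⟨0,[(3,0)]⟩ ⟨4,[(4,4),(5,1),(5,0),(8,4),(4,2),(0,0),(7,4)]⟩),.k,⟨false,1,⟨1,
  [(2,0),(0,0),(37,0)]⟩,⟨0,[(4,0),(20,0),(13,0)]⟩⟩,⟨true,0,⟨0,[(24,0)]⟩,⟨6,[(0,4),(9,1),(5,0),(8,1),
  (1,1),(2,3)]⟩⟩,⟨false,0,⟨0,[]⟩,⟨3,[(22,0),(0,0),(18,1)]⟩⟩,⟨false,0,⟨4,[(4,4),(9,0),(5,4),(0,1),(9,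
  0),(1,1),(2,0)]⟩,⟨23,[(0,19),(1,17),(4,7),(4,1),(4,3),(4,2),(2,3),(16,10)]⟩⟩,⟨true,0,⟨0,[(39,0)]⟩,
  ⟨0,[(40,0)]⟩⟩,⟨false,0,⟨19,[(4,19),(5,7),(3,2),(1,3),(0,0),(2,19),(0,9),(11,5),(2,2)]⟩,⟨3,[(0,3),
  (1,1),(9,1),(9,0),(19,0)]⟩⟩,[.o ⟨false,0,⟨0,[(39,0)]⟩,⟨15,[(0,7),(3,7),(7,3),(9,4),(0,0),(11,3),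
  (6,1)]⟩⟩,.e ⟨true,0,⟨0,[(2,0)]⟩,⟨0,[(4,0),(20,0),(18,0)]⟩⟩ ⟨true,0,⟨4,[(10,1),(5,0),(7,4),(5,2),
  (0,0)]⟩,⟨0,[(0,0)]⟩⟩,.o ⟨false,1,⟨1,[(25,1),(9,0),(5,0)]⟩,⟨11,[(2,4),(1,4),(0,2),(2,1),(7,0),(7,
  6),(2,1),(2,3)]⟩⟩,.a ⟨true,0,⟨0,[(25,0)]⟩,⟨0,[(24,0)]⟩⟩ ⟨false,1,⟨1,[(22,0),(18,0)]⟩,⟨0,[(4,0),
  (20,0)]⟩⟩ ⟨true,0,⟨0,[(24,0),(14,0)]⟩,⟨0,[(0,0)]⟩⟩]⟩)) (.I [1,1,0,0,0,0,0,0,1] (.R ⟨1,false,false,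
  false,[0,0,0,1],[0,0,1],[1,1,0,0,0,0,0,0,1],(⟨0,[(25,0)]⟩,⟨0,[(24,0)]⟩),(⟨0,[(34,0)]⟩,⟨0,[(33,
  0)]⟩),⟨2,[(1,0),(7,0),(5,0),(9,1)]⟩,.k,.k,(.r (-1) ⟨3,[(0,0),(2,0),(8,0),(10,1)]⟩ ⟨4,[(2,4),(7,1),
  (5,0),(13,2),(0,0)]⟩),.k,(.r (-1) ⟨15,[(3,3),(2,7),(15,0),(0,10)]⟩ ⟨9,[(2,9),(7,1),(5,5),(13,2),
  (0,0)]⟩),.k,⟨true,0,⟨0,[(0,0),(31,0)]⟩,⟨1,[(2,1),(13,0),(21,0),(1,0)]⟩⟩,⟨false,1,⟨3,[(17,1),(7,3),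
  (9,0),(5,2)]⟩,⟨0,[(24,0),(2,0)]⟩⟩,⟨false,0,⟨0,[]⟩,⟨3,[(22,0),(0,0),(18,1)]⟩⟩,⟨false,1,⟨119,[(1,
  51),(0,23),(4,41),(1,12),(2,29),(2,12),(0,59),(0,80),(4,47),(2,67),(12,44)]⟩,⟨0,[(4,0),(24,0)]⟩⟩,
  ⟨true,0,⟨0,[(39,0)]⟩,⟨0,[(40,0)]⟩⟩,⟨false,1,⟨9,[(1,3),(0,1),(4,5),(1,0),(0,1),(4,0),(0,5),(0,8),
  (4,3),(2,5),(12,4)]⟩,⟨0,[(4,0),(24,0),(10,0)]⟩⟩,[.a ⟨true,0,⟨3,[(14,0),(1,1),(0,0),(15,1),(2,0),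
  (3,1)]⟩,⟨4,[(6,1),(3,0),(2,1),(20,3),(2,1)]⟩⟩ ⟨true,0,⟨0,[(0,0)]⟩,⟨3,[(2,3),(27,0),(0,0),(6,1)]⟩⟩
  ⟨false,1,⟨9,[(7,3),(4,1),(3,3),(0,5),(7,9),(2,1),(6,0),(5,2)]⟩,⟨0,[(2,0),(1,0),(24,0)]⟩⟩,.o
  ⟨false,1,⟨0,[(28,0),(13,0)]⟩,⟨0,[(26,0)]⟩⟩,.o ⟨false,0,⟨11,[(2,4),(1,4),(0,2),(2,1),(7,0),(7,6),
  (2,1),(2,3)]⟩,⟨1,[(25,1),(9,0),(5,0)]⟩⟩,.o ⟨false,0,⟨0,[(24,0),(2,0),(2,0)]⟩,⟨14,[(1,3),(5,11),(1,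
  0),(5,0),(1,5),(7,10),(9,2)]⟩⟩]⟩) (.R ⟨0,false,false,true,[1,0,0,-1],[1,0,-1],[0,0,0,-1,0,0,0,0,
  -1],(⟨0,[(24,0)]⟩,⟨0,[(25,0)]⟩),(⟨0,[(33,0)]⟩,⟨0,[(34,0)]⟩),⟨0,[(1,0)]⟩,.k,.k,(.x (-1) ⟨15,[(9,3),
  (5,3),(6,6),(0,6),(11,1)]⟩ ⟨0,[(37,0)]⟩),.k,.k,.k,⟨false,1,⟨7,[(0,2),(2,0),(8,4),(3,3),(5,1)]⟩,⟨5,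
  [(4,5),(0,1),(0,0),(1,2),(8,4),(2,5),(4,5),(3,0)]⟩⟩,⟨true,0,⟨0,[(24,0),(2,0)]⟩,⟨8,[(1,3),(7,0),(5,
  0),(1,2),(7,4),(4,2)]⟩⟩,⟨true,0,⟨0,[(40,0)]⟩,⟨0,[(39,0)]⟩⟩,⟨false,0,⟨0,[(4,0),(24,0)]⟩,⟨79,[(0,
  41),(6,15),(4,19),(3,39),(0,47),(4,18),(2,79),(9,15),(6,8)]⟩⟩,⟨false,0,⟨0,[]⟩,⟨0,[]⟩⟩,⟨false,0,⟨0,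
  []⟩,⟨0,[]⟩⟩,[.o ⟨false,0,⟨0,[(26,0)]⟩,⟨0,[(28,0),(13,0)]⟩⟩,.e ⟨true,0,⟨0,[(0,0),(39,0)]⟩,⟨0,[(4,
  0),(20,0),(13,0),(4,0)]⟩⟩ ⟨true,0,⟨0,[(2,0),(1,0),(24,0)]⟩,⟨5,[(1,3),(7,0),(5,0),(0,2),(0,2),(7,
  1),(14,2)]⟩⟩,.o ⟨false,1,⟨1,[(25,1),(9,0),(5,0)]⟩,⟨11,[(2,4),(1,4),(0,2),(2,1),(7,0),(7,6),(2,1),
  (2,3)]⟩⟩,.a ⟨true,0,⟨0,[(25,0)]⟩,⟨0,[(24,0)]⟩⟩ ⟨false,1,⟨7,[(0,1),(11,3),(9,2),(19,0)]⟩,⟨0,[(4,0),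
  (20,0),(13,0)]⟩⟩ ⟨true,0,⟨0,[(24,0),(1,0)]⟩,⟨5,[(1,3),(7,0),(5,0),(0,2),(0,2),(7,1),(14,
  2)]⟩⟩]⟩)))) (.Q [0,0,0,0,0,-1,0,0,0,1,0,-1] (.ed true [0,1,0,1] .k) (.I [0,1,-2,-2,1,0,0,0,-1]
  (.Q [0,0,-1,-1,1,0,0,0,-1,-1,0,1] (.p true [0,0,0,1] [1] (⟨0,[(24,0)]⟩,⟨0,[(23,0)]⟩) .k 1 (⟨0,[]⟩,
  ⟨0,[]⟩) .k .k) (.Q [0,0,0,1,0,0,0,0,0,1,0,-1] (.p false [0,0,0,1] [1] (⟨0,[(25,0)]⟩,⟨0,[(24,0)]⟩)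
  .k 1 (⟨0,[]⟩,⟨0,[]⟩) .k .k) (.R ⟨1,false,false,false,[1,0,0,-1],[0,1],[0,1,0,-1,0,0,0,0,-1],(⟨0,
  [(25,0)]⟩,⟨0,[(26,0)]⟩),(⟨0,[(38,0)]⟩,⟨0,[(37,0)]⟩),⟨0,[(3,0)]⟩,.k,.k,(.x (-1) ⟨15,[(10,3),(5,3),
  (6,6),(0,6),(11,1)]⟩ ⟨0,[(38,0)]⟩),(.x (-1) ⟨15,[(10,3),(5,3),(6,6),(0,6),(11,1)]⟩ ⟨0,[(38,0)]⟩),
  (.x 0 ⟨41,[(4,1),(1,3),(3,29),(3,11),(1,5),(6,0),(7,23),(4,0),(2,1)]⟩ ⟨3,[(23,0),(0,0),(13,7),(3,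
  1)]⟩),.k,⟨false,1,⟨0,[(2,0)]⟩,⟨1,[(4,1),(37,0),(0,0)]⟩⟩,⟨true,0,⟨0,[(25,0)]⟩,⟨4,[(1,1),(2,1),(1,
  1),(19,2),(1,0),(2,0),(7,0)]⟩⟩,⟨false,0,⟨0,[(41,0)]⟩,⟨9,[(11,3),(5,1),(0,1),(4,1),(0,1),(11,0),(6,
  4)]⟩⟩,⟨false,0,⟨6,[(0,2),(3,2),(8,0),(10,1),(0,3),(13,2)]⟩,⟨0,[(1,0)]⟩⟩,⟨true,0,⟨0,[(45,0)]⟩,⟨0,
  []⟩⟩,⟨false,0,⟨7,[(0,7),(3,5),(8,1),(10,0),(18,2)]⟩,⟨0,[(1,0),(39,0)]⟩⟩,[.e ⟨false,1,⟨7,[(2,3),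
  (20,2),(0,0),(20,3)]⟩,⟨8,[(4,8),(3,1),(2,1),(1,6),(3,0),(0,1),(20,0)]⟩⟩ ⟨false,0,⟨0,[(0,0)]⟩,⟨43,
  [(1,13),(4,9),(1,3),(4,9),(4,1),(5,6),(1,29),(9,8)]⟩⟩,.o ⟨false,1,⟨9,[(11,3),(5,1),(0,1),(4,1),(0,
  1),(11,0),(6,4)]⟩,⟨0,[(6,0)]⟩⟩,.o ⟨false,1,⟨1,[(26,1),(9,0),(5,0)]⟩,⟨3,[(0,0),(3,0),(0,0),(0,2),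
  (16,0),(1,1),(13,0)]⟩⟩,.a ⟨true,0,⟨0,[(26,0)]⟩,⟨0,[(25,0)]⟩⟩ ⟨false,1,⟨15,[(2,3),(10,3),(9,6),(0,
  0)]⟩,⟨7,[(4,5),(8,1),(10,0),(18,2)]⟩⟩ ⟨true,0,⟨0,[(0,0)]⟩,⟨0,[(6,0),(19,0)]⟩⟩]⟩) (.R ⟨1,false,
  false,false,[1,0,0,-1],[0,1],[0,1,0,-1,0,0,0,0,-1],(⟨0,[(25,0)]⟩,⟨0,[(26,0)]⟩),(⟨0,[(38,0)]⟩,⟨0,
  [(37,0)]⟩),⟨0,[(3,0)]⟩,.k,.k,(.x (-1) ⟨15,[(10,3),(5,3),(6,6),(0,6),(11,1)]⟩ ⟨0,[(38,0)]⟩),(.x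
  (-1) ⟨15,[(10,3),(5,3),(6,6),(0,6),(11,1)]⟩ ⟨0,[(38,0)]⟩),(.x 0 ⟨41,[(4,1),(1,3),(3,29),(3,11),(1,
  5),(6,0),(7,23),(4,0),(2,1)]⟩ ⟨3,[(23,0),(0,0),(13,7),(3,1)]⟩),.k,⟨false,1,⟨0,[(2,0)]⟩,⟨1,[(4,1),
  (37,0),(0,0)]⟩⟩,⟨true,0,⟨0,[(25,0)]⟩,⟨7,[(0,7),(3,3),(18,2),(0,0)]⟩⟩,⟨false,0,⟨0,[(41,0)]⟩,⟨9,
  [(11,3),(5,1),(0,1),(4,1),(0,1),(11,0),(6,4)]⟩⟩,⟨false,0,⟨7,[(4,5),(8,1),(10,0),(0,7),(17,2)]⟩,⟨0,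
  [(1,0)]⟩⟩,⟨true,0,⟨0,[(45,0)]⟩,⟨0,[]⟩⟩,⟨false,0,⟨1,[(4,1),(20,1),(16,0),(0,0)]⟩,⟨15,[(0,15),(1,3),
  (10,3),(9,6),(0,0)]⟩⟩,[.a ⟨true,0,⟨4,[(11,1),(3,0),(1,0),(7,1),(0,1),(7,1),(2,0)]⟩,⟨0,[(41,0)]⟩⟩
  ⟨false,1,⟨7,[(2,3),(20,2),(0,0),(20,3)]⟩,⟨8,[(4,8),(3,1),(2,1),(1,6),(3,0),(0,1),(20,0)]⟩⟩ ⟨true,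
  0,⟨7,[(4,3),(18,2),(0,0),(0,7)]⟩,⟨0,[(0,0)]⟩⟩,.o ⟨false,1,⟨9,[(11,3),(5,1),(0,1),(4,1),(0,1),(11,
  0),(6,4)]⟩,⟨0,[(6,0)]⟩⟩,.o ⟨false,1,⟨1,[(26,1),(9,0),(5,0)]⟩,⟨5,[(4,1),(1,3),(16,0),(1,5),(10,0),
  (2,1)]⟩⟩,.e ⟨false,1,⟨15,[(2,3),(10,3),(9,6),(0,0)]⟩,⟨7,[(4,5),(8,1),(10,0),(18,2)]⟩⟩ ⟨false,1,⟨9,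
  [(11,3),(5,1),(0,1),(4,1),(0,1),(0,9),(10,0),(6,4)]⟩,⟨0,[(0,0)]⟩⟩]⟩)) (.R ⟨1,true,false,false,[1,
  0,0,-1],[0,1],[0,1,0,-1,0,0,0,0,-1],(⟨0,[(24,0)]⟩,⟨0,[(25,0)]⟩),(⟨0,[(37,0)]⟩,⟨0,[(36,0)]⟩),⟨0,
  [(2,0)]⟩,.k,.k,(.x (-1) ⟨15,[(9,3),(5,3),(6,6),(0,6),(11,1)]⟩ ⟨0,[(37,0)]⟩),(.x (-1) ⟨15,[(9,3),
  (5,3),(6,6),(0,6),(11,1)]⟩ ⟨0,[(37,0)]⟩),(.x 0 ⟨41,[(3,1),(1,3),(3,29),(3,11),(1,5),(6,0),(7,23),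
  (4,0),(2,1)]⟩ ⟨3,[(22,0),(0,0),(13,7),(3,1)]⟩),.k,⟨false,1,⟨0,[(1,0)]⟩,⟨1,[(3,1),(37,0),(0,0)]⟩⟩,
  ⟨true,0,⟨0,[(24,0)]⟩,⟨5,[(3,1),(1,3),(16,0),(2,5),(9,0),(2,1)]⟩⟩,⟨false,0,⟨0,[(40,0)]⟩,⟨9,[(10,3),
  (5,1),(0,1),(4,1),(0,1),(11,0),(6,4)]⟩⟩,⟨true,(-1),⟨0,[(0,0)]⟩,⟨33,[(1,11),(3,13),(1,3),(0,3),(8,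
  1),(4,10),(2,33),(2,3),(6,6)]⟩⟩,⟨true,0,⟨0,[(44,0)]⟩,⟨0,[]⟩⟩,⟨false,0,⟨25,[(0,11),(3,7),(5,15),(5,
  7),(0,1),(3,5),(1,2),(0,5),(17,8)]⟩,⟨0,[(1,0),(3,0),(10,0),(1,1),(6,0)]⟩⟩,[]⟩)) (.Q [0,0,0,1,0,0,
  1,1,0,1,-1,-1] (.p false [0,0,1] [1,0,0,-1] (⟨0,[(33,0)]⟩,⟨0,[(32,0)]⟩) .k 2 (⟨0,[(23,0)]⟩,⟨0,
  [(24,0)]⟩) .k (.r 0 ⟨0,[(0,0),(10,0),(7,0),(7,0),(11,0)]⟩ ⟨3,[(21,2),(0,0),(8,3)]⟩)) (.R ⟨1,false,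
  false,false,[1,0,0,-1],[0,1,1],[1,1,0,0,0,0,0,0,-1],(⟨0,[(24,0)]⟩,⟨0,[(25,0)]⟩),(⟨0,[(34,0),(2,
  0)]⟩,⟨0,[(19,0)]⟩),⟨0,[(2,0)]⟩,.k,.k,(.x (-1) ⟨15,[(9,3),(5,3),(6,6),(0,6),(11,1)]⟩ ⟨0,[(37,0)]⟩),
  (.r (-1) ⟨23,[(5,1),(0,9),(5,5),(4,1),(4,14),(0,2),(5,3)]⟩ ⟨10,[(3,4),(8,1),(3,4),(3,0),(2,2),(4,
  0),(11,0)]⟩),(.x 0 ⟨46,[(1,3),(3,7),(3,20),(3,27),(1,11),(6,1),(7,8),(4,1),(2,1)]⟩ ⟨7,[(14,3),(7,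
  2),(0,2),(13,11),(3,1)]⟩),.k,⟨false,1,⟨1,[(5,0),(0,0),(5,0),(4,0),(2,1),(1,0)]⟩,⟨23,[(1,13),(10,
  7),(3,11),(6,4),(18,0)]⟩⟩,⟨true,0,⟨10,[(0,3),(4,1),(0,1),(10,1),(6,6),(5,2),(7,0)]⟩,⟨0,[(25,0),(1,
  0)]⟩⟩,⟨false,0,⟨0,[]⟩,⟨3,[(22,0),(0,0),(18,1)]⟩⟩,⟨false,0,⟨4,[(0,0),(0,0),(2,1),(11,1),(0,1),(5,
  0),(0,1),(13,0)]⟩,⟨1,[(6,0),(4,0),(10,0),(2,1),(1,0)]⟩⟩,⟨true,0,⟨0,[(39,0)]⟩,⟨0,[(40,0)]⟩⟩,⟨false,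
  0,⟨3,[(0,3),(0,1),(21,0),(18,0)]⟩,⟨1,[(6,0),(4,0),(10,0),(2,1),(1,0),(12,1)]⟩⟩,[.e ⟨false,1,⟨1,
  [(22,0),(18,0),(2,1)]⟩,⟨2,[(1,4),(3,1),(1,3),(2,7),(5,3),(0,5),(4,0),(17,27)]⟩⟩ ⟨false,0,⟨0,[(0,
  0)]⟩,⟨5,[(6,0),(4,0),(0,1),(12,5),(1,0),(1,3),(5,1),(6,0)]⟩⟩,.o ⟨false,1,⟨9,[(10,1),(5,5),(0,5),
  (4,0),(0,0),(11,2),(6,4)]⟩,⟨0,[(26,0),(13,0)]⟩⟩,.o ⟨false,1,⟨1,[(25,1),(9,0),(5,0)]⟩,⟨2,[(1,0),(2,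
  0),(0,1),(16,0),(1,1)]⟩⟩,.a ⟨true,0,⟨0,[(25,0)]⟩,⟨0,[(24,0)]⟩⟩ ⟨false,1,⟨1,[(22,0),(18,0)]⟩,⟨2,
  [(1,0),(21,0),(14,0),(1,1)]⟩⟩ ⟨true,0,⟨0,[(0,0)]⟩,⟨0,[(25,0),(0,0),(13,0)]⟩⟩]⟩) (.R ⟨1,false,
  false,false,[1,0,0,-1],[1,0,-1],[1,1,0,0,0,0,0,0,-1],(⟨0,[(24,0)]⟩,⟨0,[(25,0)]⟩),(⟨0,[(33,0)]⟩,⟨0,
  [(34,0)]⟩),⟨0,[(2,0)]⟩,.k,.k,(.x (-1) ⟨15,[(9,3),(5,3),(6,6),(0,6),(11,1)]⟩ ⟨0,[(37,0)]⟩),.k,(.x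
  0 ⟨64,[(1,3),(3,7),(3,38),(4,12),(2,11),(4,1),(7,14),(4,1),(2,1)]⟩ ⟨4,[(7,0),(5,1),(8,1),(0,1),(9,
  0),(3,6)]⟩),.k,⟨false,1,⟨3,[(11,0),(0,0),(3,0),(0,0),(2,2),(1,1),(5,1),(11,0)]⟩,⟨23,[(1,13),(4,
  11),(5,7),(10,4),(18,0)]⟩⟩,⟨true,0,⟨0,[(24,0),(2,0)]⟩,⟨12,[(1,1),(3,3),(11,5),(4,0),(2,12),(4,0),
  (4,0),(2,0)]⟩⟩,⟨false,0,⟨0,[]⟩,⟨3,[(22,0),(0,0),(18,1)]⟩⟩,⟨false,0,⟨2,[(0,1),(3,2),(5,0),(13,1)]⟩,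
  ⟨13,[(0,1),(4,1),(1,3),(4,1),(3,7),(0,9),(4,6),(2,11),(9,0)]⟩⟩,⟨true,0,⟨0,[(39,0)]⟩,⟨0,[(40,0)]⟩⟩,
  ⟨false,0,⟨2,[(0,0),(3,2),(5,1),(13,0)]⟩,⟨1,[(5,0),(6,0),(3,0),(0,0),(4,0),(2,1)]⟩⟩,[.a ⟨true,0,⟨2,
  [(0,1),(9,0),(13,1)]⟩,⟨3,[(14,0),(1,1),(0,0),(15,1),(2,0),(3,1)]⟩⟩ ⟨false,1,⟨1,[(22,0),(18,0),(2,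
  1)]⟩,⟨2,[(1,4),(3,1),(1,3),(2,7),(5,3),(0,5),(4,0),(17,27)]⟩⟩ ⟨true,0,⟨4,[(3,0),(0,0),(1,1),(15,
  0),(1,3),(2,3),(1,0)]⟩,⟨0,[(0,0),(15,0),(0,0)]⟩⟩,.o ⟨false,1,⟨0,[(26,0),(15,0)]⟩,⟨0,[(28,0)]⟩⟩,.o
  ⟨false,1,⟨1,[(25,1),(9,0),(5,0)]⟩,⟨2,[(1,0),(2,0),(0,1),(16,0),(1,1)]⟩⟩,.e ⟨false,1,⟨1,[(22,0),
  (18,0)]⟩,⟨2,[(1,0),(21,0),(14,0),(1,1)]⟩⟩ ⟨false,1,⟨17,[(4,11),(1,2),(3,3),(0,4),(10,5),(1,5),(2,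
  0),(1,7),(12,6)]⟩,⟨0,[(0,0),(15,0),(0,0)]⟩⟩]⟩))) (.R ⟨0,false,false,false,[1,0,0,-1],[1,0,-1],[0,
  1,0,0,0,0,0,0,-1],(⟨0,[(22,0)]⟩,⟨0,[(23,0)]⟩),(⟨0,[(31,0)]⟩,⟨0,[(32,0)]⟩),⟨0,[(0,0)]⟩,.k,.k,(.x
  (-1) ⟨15,[(7,3),(5,3),(6,6),(0,6),(11,1)]⟩ ⟨0,[(35,0)]⟩),.k,.k,.k,⟨false,1,⟨3,[(9,0),(0,0),(3,0),
  (0,0),(2,2),(1,1),(5,1),(11,0)]⟩,⟨6,[(1,4),(2,1),(5,3),(5,2),(4,0)]⟩⟩,⟨true,0,⟨0,[(22,0),(2,0)]⟩,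
  ⟨5,[(0,3),(6,0),(5,0),(5,2),(3,1)]⟩⟩,⟨true,0,⟨0,[(42,0)]⟩,⟨0,[]⟩⟩,⟨false,0,⟨12,[(1,3),(0,8),(1,5),
  (3,0),(0,3),(12,3),(6,7),(6,1)]⟩,⟨149,[(0,31),(4,35),(1,7),(2,29),(2,7),(0,59),(0,77),(4,74),(2,
  117),(2,29),(6,8)]⟩⟩,⟨false,0,⟨0,[]⟩,⟨0,[]⟩⟩,⟨false,0,⟨0,[]⟩,⟨0,[]⟩⟩,[.a ⟨true,0,⟨4,[(4,1),(3,0),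
  (2,1),(20,3),(2,1)]⟩,⟨3,[(12,0),(1,1),(0,0),(15,1),(2,0),(3,1)]⟩⟩ ⟨false,1,⟨1,[(20,0),(18,0),(2,
  1)]⟩,⟨0,[(1,0),(8,0)]⟩⟩ ⟨true,0,⟨4,[(1,0),(0,0),(1,1),(15,0),(1,3),(2,3),(1,0)]⟩,⟨5,[(0,3),(6,0),
  (5,0),(0,2),(0,2),(7,1),(14,2)]⟩⟩,.o ⟨false,1,⟨0,[(24,0),(15,0)]⟩,⟨0,[(26,0)]⟩⟩,.o ⟨false,1,⟨1,
  [(23,1),(9,0),(5,0)]⟩,⟨5,[(1,1),(1,3),(16,0),(1,5),(10,0),(2,1)]⟩⟩,.e ⟨false,1,⟨1,[(20,0),(18,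
  0)]⟩,⟨0,[(2,0),(20,0)]⟩⟩ ⟨false,1,⟨17,[(2,11),(1,2),(3,3),(0,4),(10,5),(1,5),(2,0),(1,7),(12,6)]⟩,
  ⟨5,[(0,3),(6,0),(5,0),(0,2),(0,2),(7,1),(14,2)]⟩⟩]⟩))))

theorem ok45 : chk (cU (-1) true 10) t45 l32 = true := by decide +kernel

noncomputable def t91 : Tre :=
  (.Q [0,0,0,0,0,0,1,1,0,1,-1] (.p false [0,0,1] [1] (⟨0,[(32,0)]⟩,⟨0,[(31,0)]⟩) .k 1 (⟨0,[]⟩,⟨0,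
  []⟩) .k .k) (.R ⟨1,false,false,false,[0,-1,1],[1,0,-1],[1,0,0,0,0,0,0,-1],(⟨0,[(9,0)]⟩,⟨0,[(32,0),
  (3,0)]⟩),(⟨0,[(32,0)]⟩,⟨0,[(33,0)]⟩),⟨0,[(2,0)]⟩,.k,.k,(.r (-1) ⟨1,[(1,0),(1,0),(4,0),(34,0)]⟩ ⟨3,
  [(4,1),(0,1),(8,1),(13,1),(0,4),(0,0)]⟩),(.r (-1) ⟨107,[(1,89),(1,73),(0,23),(7,11),(3,15),(2,11),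
  (1,16),(0,16)]⟩ ⟨0,[(6,0),(7,0),(14,0)]⟩),(.r (-1) ⟨0,[(1,0),(1,0)]⟩ ⟨1,[(5,1),(8,1),(14,2),(0,
  0)]⟩),.k,⟨true,0,⟨0,[]⟩,⟨1,[(29,0),(0,0)]⟩⟩,⟨false,1,⟨0,[(3,0)]⟩,⟨1,[(20,1),(8,0),(0,0)]⟩⟩,⟨false,
  0,⟨3,[(5,0),(0,1),(7,2),(2,1),(11,2),(7,0)]⟩,⟨107,[(1,89),(1,73),(0,23),(7,11),(3,15),(2,11),(1,
  16),(0,16)]⟩⟩,⟨true,0,⟨0,[(5,0)]⟩,⟨0,[(1,0),(36,0)]⟩⟩,⟨false,0,⟨7,[(5,6),(7,1),(0,6),(2,1),(11,4),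
  (7,2)]⟩,⟨5,[(1,5),(1,3),(12,1),(4,0),(0,0)]⟩⟩,⟨false,1,⟨27,[(4,7),(0,31),(7,3),(0,3),(6,6),(0,6),
  (17,3),(0,9)]⟩,⟨0,[(1,0)]⟩⟩,[.a ⟨true,0,⟨1,[(6,0),(16,0),(0,0)]⟩,⟨0,[(0,0)]⟩⟩ ⟨true,0,⟨0,[(31,
  0)]⟩,⟨19,[(1,5),(2,3),(7,3),(3,5),(12,2),(0,6)]⟩⟩ ⟨false,1,⟨1,[(3,0),(2,0),(33,0)]⟩,⟨23,[(1,9),(2,
  1),(7,1),(1,13),(14,16),(0,4)]⟩⟩,.o ⟨false,1,⟨7,[(6,3),(14,0),(0,0),(11,1),(6,3)]⟩,⟨0,[(27,0)]⟩⟩,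
  .o ⟨false,0,⟨0,[(29,0)]⟩,⟨7,[(3,3),(17,0),(0,0),(11,1)]⟩⟩,.o ⟨false,0,⟨1,[(29,2),(0,0)]⟩,⟨2,[(1,
  0),(1,2),(3,0),(5,2)]⟩⟩]⟩) (.R ⟨2,true,false,false,[0,1],[1,1,-1],[0,1,1],(⟨0,[]⟩,⟨0,[]⟩),(⟨0,
  [(32,0),(3,0)]⟩,⟨0,[(9,0)]⟩),⟨0,[]⟩,.k,.k,.k,.k,.k,.k,⟨true,0,⟨0,[(0,0),(0,0),(17,0)]⟩,⟨1,[(5,0),
  (8,0),(14,0),(7,0)]⟩⟩,⟨false,1,⟨7,[(3,3),(17,0),(0,0),(11,1)]⟩,⟨1,[(20,0),(2,0),(0,0)]⟩⟩,⟨false,0,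
  ⟨0,[(39,0)]⟩,⟨27,[(4,7),(0,3),(7,3),(0,3),(6,6),(0,6),(17,3),(0,9)]⟩⟩,⟨true,0,⟨0,[(0,0)]⟩,⟨4,[(1,
  2),(12,1),(4,1),(8,0),(9,1)]⟩⟩,⟨true,0,⟨0,[(43,0)]⟩,⟨0,[]⟩⟩,⟨false,1,⟨13,[(4,1),(0,7),(7,1),(7,1),
  (0,1),(11,2),(5,0),(0,5)]⟩,⟨1,[(1,0),(21,0),(0,0)]⟩⟩,[]⟩))

theorem ok91 : chk (cU (-1) true 10) t91 l56 = true := by decide +kernel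

noncomputable def t119 : Tre :=
  (.R ⟨1,false,false,true,[1,0,-1],[0,1,1],[0,1,2,1,0,0,0,1],(⟨0,[(26,0)]⟩,⟨0,[(27,0)]⟩),(⟨0,[(27,
  0),(2,0)]⟩,⟨0,[(12,0)]⟩),⟨0,[(12,0)]⟩,.k,.k,.k,(.x 0 ⟨0,[(9,0)]⟩ ⟨1,[(14,1),(12,3),(0,0),(1,1),(3,
  0)]⟩),(.r (-1) ⟨0,[(0,0),(13,0),(19,0)]⟩ ⟨0,[(4,0),(1,0),(17,0)]⟩),.k,⟨true,0,⟨1,[(23,0),(0,0)]⟩,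
  ⟨0,[]⟩⟩,⟨false,1,⟨0,[(14,0),(19,0)]⟩,⟨0,[(10,0)]⟩⟩,⟨false,0,⟨1,[(1,1),(8,1),(12,0),(0,0)]⟩,⟨1,[(2,
  0),(8,0),(13,2),(8,0)]⟩⟩,⟨false,0,⟨0,[(1,0)]⟩,⟨1,[(0,0),(18,0),(2,0),(12,1)]⟩⟩,⟨false,0,⟨0,[(4,0),
  (1,0),(17,0)]⟩,⟨0,[(2,0),(22,1)]⟩⟩,⟨true,0,⟨0,[(1,0),(30,0)]⟩,⟨0,[(0,0)]⟩⟩,[.o ⟨false,0,⟨0,[(6,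
  0)]⟩,⟨7,[(0,3),(14,0),(0,0),(11,1),(6,3)]⟩⟩,.a ⟨true,0,⟨2,[(1,1),(9,0),(1,0),(3,0),(0,0)]⟩,⟨1,[(0,
  0),(16,0),(0,0)]⟩⟩ ⟨false,0,⟨1,[(4,0),(1,0),(17,0)]⟩,⟨1,[(0,0),(13,0),(19,1)]⟩⟩ ⟨true,0,⟨3,[(1,1),
  (5,0),(0,0),(5,0)]⟩,⟨3,[(0,1),(9,1),(12,0),(0,0)]⟩⟩,.o ⟨false,1,⟨3,[(10,1),(4,0),(0,0),(11,0),(5,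
  0)]⟩,⟨0,[(7,0),(25,0)]⟩⟩,.o ⟨false,0,⟨0,[(20,0)]⟩,⟨7,[(14,3),(0,0),(0,0),(11,1),(5,3)]⟩⟩]⟩)

theorem ok119 : chk (cU (-1) true 10) t119 l67 = true := by decide +kernel

noncomputable def t123 : Tre :=
  (.K ⟨0,[1,1,-1],1,0,(⟨0,[(31,0),(3,0)]⟩,⟨0,[(8,0)]⟩),.k,.k,(.x (-1) ⟨0,[(0,0)]⟩ ⟨2,[(8,3),(1,0),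
  (4,0),(12,4)]⟩),.k,.k,[⟨0,[(4,0),(33,0)]⟩,⟨0,[(1,0)]⟩,⟨1,[(6,0),(15,0),(0,0),(14,2),(3,1)]⟩,⟨0,
  [(3,0)]⟩]⟩)

theorem ok123 : chk (cU (-1) true 10) t123 l72 = true := by decide +kernel

noncomputable def t127 : Tre :=
  (.Q [0,-1,0,1,0,0,0,0,0,1] (.pp false [-1,1]) (.Q [0,1,0,-2,0,0,0,0,0,-1] (.pp true [-1,1]) (.R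
  ⟨2,false,false,true,[0,1],[1,-1],[0,1],(⟨0,[]⟩,⟨0,[]⟩),(⟨0,[(39,0)]⟩,⟨0,[(40,0)]⟩),⟨0,[]⟩,.k,.k,
  .k,(.r 0 ⟨12,[(2,7),(6,1),(0,3),(9,3),(4,4),(0,4),(3,1)]⟩ ⟨5,[(0,0),(2,1),(8,2),(11,0),(7,1),(11,
  0)]⟩),.k,.k,⟨true,0,⟨25,[(2,7),(6,1),(0,3),(9,3),(4,4),(0,4),(3,1)]⟩,⟨0,[(43,0)]⟩⟩,⟨false,0,⟨2,
  [(0,0),(6,0),(6,0),(23,0)]⟩,⟨9,[(3,1),(0,0),(1,4),(5,1),(5,7),(13,1),(4,0),(1,1)]⟩⟩,⟨false,1,⟨11,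
  [(0,0),(2,1),(8,2),(11,0),(0,2),(0,2),(5,1),(11,0)]⟩,⟨2,[(2,0),(11,0),(30,0)]⟩⟩,⟨true,0,⟨0,[(0,
  0)]⟩,⟨8,[(1,3),(0,1),(3,1),(3,0),(7,3),(4,3)]⟩⟩,⟨false,1,⟨3,[(25,0),(0,0),(17,1)]⟩,⟨3,[(33,0),(0,
  0),(6,1)]⟩⟩,⟨false,1,⟨3,[(0,1),(24,0),(0,0),(11,0),(6,0)]⟩,⟨0,[(1,0)]⟩⟩,[.e ⟨true,0,⟨0,[(47,0)]⟩,
  ⟨3,[(33,0),(0,0),(6,1)]⟩⟩ ⟨true,0,⟨1,[(0,0),(29,0),(2,0),(13,0)]⟩,⟨0,[(1,0)]⟩⟩,.a ⟨true,0,⟨0,[(43,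
  0)]⟩,⟨6,[(1,1),(2,0),(4,0),(8,1),(4,1),(13,0),(1,1)]⟩⟩ ⟨false,1,⟨3,[(25,0),(0,0),(17,1)]⟩,⟨0,[]⟩⟩
  ⟨true,0,⟨11,[(0,6),(6,0),(6,0),(15,2),(2,2),(4,0),(2,2)]⟩,⟨6,[(1,1),(2,0),(4,0),(8,1),(4,1),(13,
  0),(1,1)]⟩⟩,.o ⟨false,1,⟨3,[(25,0),(0,0),(17,1)]⟩,⟨2,[(0,0),(6,0),(6,0),(23,0)]⟩⟩,.e ⟨false,1,⟨3,
  [(25,0),(0,0),(17,1)]⟩,⟨3,[(33,0),(0,0),(6,1)]⟩⟩ ⟨false,1,⟨3,[(0,1),(24,0),(0,0),(11,0),(6,0)]⟩,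
  ⟨0,[(1,0)]⟩⟩]⟩) (.Q [0,1,0,-3,0,0,0,0,0,-1] (.pp true [-1,1]) (.R ⟨1,false,false,false,[1,-1],[0,
  1],[0,1],(⟨0,[(40,0)]⟩,⟨0,[(41,0)]⟩),(⟨0,[(41,0)]⟩,⟨0,[(40,0)]⟩),⟨1,[(14,0),(1,0),(23,0)]⟩,.k,.k,
  (.r (-1) ⟨12,[(0,1),(3,3),(8,5),(11,1),(7,3),(11,2)]⟩ ⟨12,[(3,7),(6,1),(0,3),(9,3),(4,4),(0,4),(3,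
  1)]⟩),(.r (-1) ⟨12,[(0,1),(3,3),(8,5),(11,1),(7,3),(11,2)]⟩ ⟨12,[(3,7),(6,1),(0,3),(9,3),(4,4),(0,
  4),(3,1)]⟩),(.r (-2) ⟨51,[(0,11),(3,23),(8,35),(11,11),(0,12),(0,12),(5,23),(11,17)]⟩ ⟨12,[(3,11),
  (6,2),(0,5),(9,5),(4,0),(0,0),(3,2)]⟩),.k,⟨false,1,⟨6,[(0,0),(3,1),(20,0),(7,1),(11,4),(2,3)]⟩,⟨2,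
  [(3,0),(11,0),(30,0)]⟩⟩,⟨true,1,⟨9,[(4,1),(0,0),(1,4),(5,1),(5,7),(13,1),(4,0),(1,1)]⟩,⟨0,[(0,0),
  (2,0),(11,0)]⟩⟩,⟨false,0,⟨25,[(3,7),(6,1),(0,3),(9,3),(4,4),(0,4),(3,1)]⟩,⟨7,[(13,3),(12,0),(0,0),
  (18,1)]⟩⟩,⟨false,0,⟨0,[(1,0)]⟩,⟨11,[(0,7),(25,2),(0,2),(11,1),(6,3)]⟩⟩,⟨false,0,⟨35,[(1,7),(1,15),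
  (7,7),(9,3),(2,7),(1,4),(0,4),(11,5)]⟩,⟨9,[(0,1),(9,1),(2,7),(12,0),(0,0),(7,1),(10,1)]⟩⟩,⟨true,0,
  ⟨0,[(1,0),(41,0)]⟩,⟨0,[(0,0)]⟩⟩,[.a ⟨true,0,⟨6,[(2,1),(2,0),(4,0),(8,1),(4,1),(13,0),(1,1)]⟩,⟨0,
  [(44,0)]⟩⟩ ⟨true,0,⟨0,[(48,0)]⟩,⟨3,[(34,0),(0,0),(6,1)]⟩⟩ ⟨false,1,⟨0,[(7,0),(11,0)]⟩,⟨14,[(0,6),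
  (7,2),(6,2),(15,1),(2,1),(4,2),(2,1)]⟩⟩,.e ⟨false,1,⟨3,[(26,0),(0,0),(17,1)]⟩,⟨0,[]⟩⟩ ⟨false,1,⟨2,
  [(1,1),(5,0),(5,0),(5,0),(25,0)]⟩,⟨10,[(0,3),(7,0),(22,4),(0,0),(1,3),(4,0),(8,5)]⟩⟩,.o ⟨false,0,
  ⟨2,[(0,0),(2,0),(11,0),(23,0)]⟩,⟨3,[(26,0),(0,0),(17,1)]⟩⟩,.o ⟨false,0,⟨0,[(31,0),(2,0)]⟩,⟨0,[(45,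
  0)]⟩⟩]⟩) (.Q [0,1,-1,0,0,0,0,0,-1,0,0,1] (.p true [0,0,0,1] [] (⟨0,[(29,0)]⟩,⟨0,[(28,0)]⟩) .k 0
  (⟨0,[]⟩,⟨0,[]⟩) .k .k) (.Q [0,1,1,0,0,0,0,0,1,0,0,-1] (.p false [0,0,0,1] [] (⟨0,[(30,0)]⟩,⟨0,
  [(29,0)]⟩) .k 0 (⟨0,[]⟩,⟨0,[]⟩) .k .k) (.K ⟨0,[0,0,0,1],0,0,(⟨0,[(31,0)]⟩,⟨0,[(30,0)]⟩),.k,(.r
  (-1) ⟨7,[(6,1),(8,1),(11,0),(1,3),(2,0),(2,0)]⟩ ⟨5,[(1,1),(3,0),(4,0),(2,0),(6,0),(7,1),(1,1),(2,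
  2),(10,0)]⟩),(.x 0 ⟨0,[(43,0)]⟩ ⟨11,[(16,3),(1,3),(9,4),(0,4),(11,1)]⟩),.k,.k,[⟨0,[(31,0)]⟩,⟨0,
  [(30,0)]⟩,⟨0,[(1,0)]⟩,⟨0,[(0,0)]⟩]⟩) (.I [0,1,1,1,-1,0,0,0,-1] (.Q [0,0,-2,0,1,0,0,0,0,-1,0,1]
  (.p true [0,0,0,1] [1] (⟨0,[(32,0)]⟩,⟨0,[(31,0)]⟩) .k 1 (⟨0,[]⟩,⟨0,[]⟩) .k .k) (.Q [0,0,0,0,0,-1,
  0,0,0,0,0,1] (.ed false [1,-1,0,1] .k) (.R ⟨1,false,false,true,[0,0,0,1],[0,-1,1],[1,0,0,0,0,0,0,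
  0,1],(⟨0,[(34,0)]⟩,⟨0,[(33,0)]⟩),(⟨0,[(19,0)]⟩,⟨0,[(42,0),(3,0)]⟩),⟨0,[(0,0)]⟩,.k,.k,(.r (-1) ⟨7,
  [(9,1),(8,1),(11,0),(1,3),(2,0),(2,0)]⟩ ⟨24,[(2,2),(5,6),(6,0),(0,1),(3,2),(5,1),(4,10),(4,0)]⟩),
  (.r 0 ⟨1,[(8,0),(23,0),(8,0)]⟩ ⟨8,[(2,0),(6,5),(7,0),(2,0),(5,0),(4,3)]⟩),.k,.k,⟨false,1,⟨5,[(5,
  1),(26,2),(8,5),(2,0),(6,1)]⟩,⟨0,[(2,0),(6,0)]⟩⟩,⟨true,0,⟨3,[(1,1),(11,1),(3,0),(12,0),(3,1),(14,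
  2)]⟩,⟨0,[(33,0),(2,0)]⟩⟩,⟨true,0,⟨0,[]⟩,⟨0,[(53,0)]⟩⟩,⟨false,0,⟨0,[(3,0),(33,0),(11,0)]⟩,⟨9,[(13,
  3),(0,5),(11,1),(5,4),(0,9),(10,0),(6,7)]⟩⟩,⟨false,1,⟨11,[(5,3),(25,2),(0,2),(11,1),(6,3)]⟩,⟨0,
  [(49,0)]⟩⟩,⟨false,0,⟨0,[(3,0),(33,0)]⟩,⟨5,[(13,3),(4,1),(7,1),(5,2),(0,5),(4,1),(5,1),(6,2)]⟩⟩,
  [.o ⟨false,0,⟨0,[(37,0),(11,0)]⟩,⟨0,[(14,0),(36,0)]⟩⟩,.a ⟨true,0,⟨0,[(9,0),(5,0)]⟩,⟨0,[(12,0),(0,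
  0)]⟩⟩ ⟨true,1,⟨1,[(32,0),(18,0)]⟩,⟨0,[(2,0),(46,0)]⟩⟩ ⟨false,1,⟨4,[(1,1),(7,1),(7,0),(0,0),(11,0),
  (3,2),(2,0)]⟩,⟨9,[(13,3),(0,5),(11,1),(6,9),(10,0),(6,2)]⟩⟩,.o ⟨false,0,⟨1,[(13,0),(4,0),(4,0),(9,
  1),(2,1),(0,0)]⟩,⟨7,[(1,3),(29,0),(0,0),(1,3),(9,1)]⟩⟩,.o ⟨false,0,⟨0,[(33,0),(2,0),(2,0)]⟩,⟨0,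
  [(1,0)]⟩⟩]⟩) (.R ⟨0,false,false,true,[0,0,0,1],[0,-1,1],[1,0,0,0,0,0,0,0,1],(⟨0,[(34,0)]⟩,⟨0,[(33,
  0)]⟩),(⟨0,[(19,0)]⟩,⟨0,[(42,0),(3,0)]⟩),⟨0,[(0,0)]⟩,.k,.k,(.r (-1) ⟨7,[(9,1),(8,1),(11,0),(1,3),
  (2,0),(2,0)]⟩ ⟨24,[(2,2),(5,6),(6,0),(0,1),(3,2),(5,1),(4,10),(4,0)]⟩),(.r 0 ⟨1,[(8,0),(23,0),(8,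
  0)]⟩ ⟨8,[(2,0),(6,5),(7,0),(2,0),(5,0),(4,3)]⟩),.k,.k,⟨false,1,⟨5,[(5,1),(26,2),(8,5),(2,0),(6,
  1)]⟩,⟨0,[(2,0),(6,0)]⟩⟩,⟨true,0,⟨3,[(1,1),(11,1),(3,0),(12,0),(3,1),(14,2)]⟩,⟨0,[(33,0),(2,0)]⟩⟩,
  ⟨true,0,⟨0,[]⟩,⟨0,[(53,0)]⟩⟩,⟨false,0,⟨0,[(3,0),(33,0),(11,0)]⟩,⟨9,[(13,3),(0,5),(11,1),(5,4),(0,
  9),(10,0),(6,7)]⟩⟩,⟨false,0,⟨0,[]⟩,⟨0,[]⟩⟩,⟨false,0,⟨0,[]⟩,⟨0,[]⟩⟩,[.o ⟨false,0,⟨0,[(37,0),(11,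
  0)]⟩,⟨0,[(14,0),(36,0)]⟩⟩,.a ⟨true,0,⟨0,[(9,0),(5,0)]⟩,⟨0,[(12,0),(0,0)]⟩⟩ ⟨true,1,⟨1,[(32,0),(18,
  0)]⟩,⟨0,[(2,0),(46,0)]⟩⟩ ⟨false,1,⟨4,[(1,1),(7,1),(7,0),(0,0),(11,0),(3,2),(2,0)]⟩,⟨9,[(13,3),(0,
  5),(11,1),(6,9),(10,0),(6,2)]⟩⟩,.o ⟨false,0,⟨12,[(0,4),(10,1),(13,0),(7,7),(2,3),(2,3),(4,1)]⟩,⟨7,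
  [(1,3),(29,0),(0,0),(1,3),(9,1)]⟩⟩,.o ⟨false,0,⟨0,[(33,0),(2,0),(2,0)]⟩,⟨0,[(1,0)]⟩⟩]⟩)) (.K ⟨0,
  [1,0,0,-1],1,0,(⟨0,[(32,0)]⟩,⟨0,[(33,0)]⟩),.k,(.x (-1) ⟨11,[(18,3),(1,3),(9,4),(0,4),(11,1)]⟩ ⟨0,
  [(45,0)]⟩),(.r 0 ⟨24,[(1,2),(5,6),(6,0),(0,1),(3,2),(5,1),(4,10),(4,0)]⟩ ⟨7,[(8,1),(8,1),(11,0),
  (1,3),(2,0),(2,0)]⟩),.k,.k,[⟨0,[(0,0)]⟩,⟨1,[(2,0),(0,0),(27,0),(17,0)]⟩,⟨1,[(0,0),(30,0),(0,0),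
  (19,1)]⟩,⟨0,[(2,0),(31,0),(1,0)]⟩]⟩)) (.Q [0,0,0,0,0,1,0,0,0,-1,0,1] (.ed false [0,1,0,1] .k) (.Q
  [0,1,1,0,0,0,-1,-1,1,0,1,-1] (.p true [0,0,1] [0,0,0,1] (⟨0,[(42,0)]⟩,⟨0,[(41,0)]⟩) .k 2 (⟨0,[(33,
  0)]⟩,⟨0,[(32,0)]⟩) .k (.r 0 ⟨0,[(2,0),(29,0),(2,0),(0,0)]⟩ ⟨3,[(30,0),(0,2),(8,3)]⟩)) (.R ⟨0,
  false,false,true,[1,0,0,-1],[1,0,-1],[1,1],(⟨0,[(33,0)]⟩,⟨0,[(34,0)]⟩),(⟨0,[(42,0)]⟩,⟨0,[(43,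
  0)]⟩),⟨0,[(1,0)]⟩,.k,.k,(.x (-1) ⟨11,[(19,3),(1,3),(9,4),(0,4),(11,1)]⟩ ⟨0,[(46,0)]⟩),.k,.k,.k,
  ⟨false,1,⟨29,[(9,9),(2,7),(3,9),(9,5),(4,4),(0,4),(11,1)]⟩,⟨0,[(41,0)]⟩⟩,⟨true,0,⟨0,[(33,0),(2,
  0)]⟩,⟨6,[(1,3),(1,0),(0,0),(6,0),(9,0),(8,2),(1,0),(1,0)]⟩⟩,⟨false,1,⟨3,[(31,0),(0,2)]⟩,⟨1,[(3,1),
  (9,0),(4,0),(4,0),(9,1),(2,1),(0,0)]⟩⟩,⟨true,0,⟨0,[(0,0)]⟩,⟨0,[(3,0),(33,0)]⟩⟩,⟨false,0,⟨0,[]⟩,⟨0,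
  []⟩⟩,⟨false,0,⟨0,[]⟩,⟨0,[]⟩⟩,[.o ⟨false,0,⟨0,[(35,0)]⟩,⟨35,[(9,7),(7,11),(2,3),(10,2),(0,2),(6,
  11),(4,5),(6,15)]⟩⟩,.e ⟨true,0,⟨0,[]⟩,⟨1,[(39,0),(0,0)]⟩⟩ ⟨true,0,⟨8,[(0,1),(12,1),(4,0),(8,2),(3,
  0),(1,6),(1,1),(0,4)]⟩,⟨4,[(1,2),(7,0),(1,0),(5,1),(10,0),(5,1)]⟩⟩,.o ⟨false,1,⟨1,[(3,0),(0,0),
  (27,0),(11,0)]⟩,⟨1,[(13,0),(4,0),(4,0),(9,1),(2,1),(0,0)]⟩⟩,.a ⟨true,0,⟨0,[(34,0)]⟩,⟨0,[(33,0)]⟩⟩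
  ⟨false,1,⟨3,[(31,0),(0,0),(17,1)]⟩,⟨3,[(39,0),(0,0),(6,1)]⟩⟩ ⟨true,0,⟨0,[(33,0),(1,0)]⟩,⟨4,[(1,2),
  (7,0),(1,0),(5,1),(10,0),(5,1)]⟩⟩]⟩) (.R ⟨0,false,false,false,[1,0,0,-1],[0,-1,1],[1,1,1],(⟨0,
  [(33,0)]⟩,⟨0,[(34,0)]⟩),(⟨0,[(19,0)]⟩,⟨0,[(42,0),(3,0)]⟩),⟨0,[(1,0)]⟩,.k,.k,(.x (-1) ⟨11,[(19,3),
  (1,3),(9,4),(0,4),(11,1)]⟩ ⟨0,[(46,0)]⟩),(.r 1 ⟨0,[(0,0),(12,0),(19,0),(1,0)]⟩ ⟨19,[(9,11),(7,3),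
  (8,3),(4,8),(0,18)]⟩),.k,.k,⟨true,(-1),⟨0,[(13,0),(39,0)]⟩,⟨2,[(9,1),(10,0),(30,0)]⟩⟩,⟨false,0,⟨0,
  [(33,0),(5,0)]⟩,⟨0,[(0,0),(1,0),(26,0),(5,0)]⟩⟩,⟨true,0,⟨1,[(13,0),(15,0),(2,0),(4,0),(11,1)]⟩,⟨0,
  [(0,0),(32,0),(1,0)]⟩⟩,⟨false,1,⟨5,[(9,3),(5,0),(1,0),(8,1),(5,2),(0,5),(5,6),(7,2)]⟩,⟨0,[(3,0),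
  (10,0)]⟩⟩,⟨false,0,⟨0,[]⟩,⟨0,[]⟩⟩,⟨false,0,⟨0,[]⟩,⟨0,[]⟩⟩,[.a ⟨true,0,⟨0,[(9,0),(5,0)]⟩,⟨0,[(12,
  0),(0,0)]⟩⟩ ⟨false,0,⟨0,[(53,0)]⟩,⟨1,[(50,0),(0,0)]⟩⟩ ⟨true,0,⟨1,[(17,0),(15,1),(2,0),(2,0),(9,
  2)]⟩,⟨0,[(0,0),(1,0),(10,0),(15,0),(5,0)]⟩⟩,.o ⟨false,1,⟨2,[(9,1),(10,0),(18,2),(11,0)]⟩,⟨0,[(14,
  0)]⟩⟩,.o ⟨false,1,⟨1,[(3,0),(0,0),(27,0),(11,0)]⟩,⟨1,[(13,0),(4,0),(4,0),(9,1),(2,1),(0,0)]⟩⟩,.e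
  ⟨false,0,⟨0,[]⟩,⟨3,[(31,0),(0,0),(18,1)]⟩⟩ ⟨false,1,⟨2,[(9,1),(10,0),(12,2),(5,2),(11,0)]⟩,⟨0,[(0,
  0),(1,0),(10,0),(15,0),(5,0)]⟩⟩]⟩)) (.I [0,1,1,0,0,0,0,1,1] (.R ⟨1,false,false,true,[1,0,0,-1],[0,
  0,1],[1,0,0,0,0,0,0,0,-1],(⟨0,[(33,0)]⟩,⟨0,[(34,0)]⟩),(⟨0,[(43,0)]⟩,⟨0,[(42,0)]⟩),⟨0,[(1,0)]⟩,.k,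
  .k,(.x (-1) ⟨11,[(19,3),(1,3),(9,4),(0,4),(11,1)]⟩ ⟨0,[(46,0)]⟩),.k,(.r 0 ⟨0,[(3,0),(9,0),(4,0),
  (14,0),(1,0),(1,0)]⟩ ⟨10,[(0,2),(7,0),(7,2),(3,2),(5,2),(4,3),(0,7)]⟩),.k,⟨true,0,⟨9,[(3,7),(9,8),
  (4,4),(4,0),(7,0),(1,7),(1,1),(1,0),(6,2)]⟩,⟨0,[(0,0)]⟩⟩,⟨false,0,⟨1,[(13,0),(4,0),(4,0),(9,1),(3,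
  0)]⟩,⟨4,[(12,2),(13,0),(7,4),(9,1)]⟩⟩,⟨true,0,⟨0,[]⟩,⟨0,[(53,0)]⟩⟩,⟨true,0,⟨1,[(0,0),(1,0),(10,0),
  (19,1),(3,1)]⟩,⟨0,[(3,0),(31,0)]⟩⟩,⟨false,1,⟨11,[(5,3),(25,2),(0,2),(11,1),(6,3)]⟩,⟨0,[(49,0)]⟩⟩,
  ⟨true,0,⟨0,[(0,0),(22,0),(9,0)]⟩,⟨0,[(3,0),(31,0),(13,0)]⟩⟩,[.o ⟨false,0,⟨0,[(37,0)]⟩,⟨0,[(35,0),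
  (15,0)]⟩⟩,.e ⟨true,0,⟨1,[(3,1),(9,0),(4,0),(4,0),(9,1),(2,1),(0,0)]⟩,⟨4,[(0,2),(12,0),(16,0),(1,
  0),(2,0),(2,0),(10,0)]⟩⟩ ⟨true,0,⟨1,[(17,0),(15,1),(2,0),(2,0),(9,0)]⟩,⟨1,[(0,0),(1,0),(0,1),(9,
  0),(21,1)]⟩⟩,.o ⟨false,1,⟨1,[(3,0),(0,0),(27,0),(11,0)]⟩,⟨1,[(13,0),(4,0),(4,0),(9,1),(2,1),(0,
  0)]⟩⟩,.a ⟨true,0,⟨0,[(34,0)]⟩,⟨0,[(33,0)]⟩⟩ ⟨false,1,⟨47,[(3,13),(1,11),(12,17),(12,16),(1,13),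
  (10,12),(2,1)]⟩,⟨1,[(0,0),(1,0),(10,0)]⟩⟩ ⟨true,0,⟨0,[(33,0),(3,0)]⟩,⟨1,[(0,0),(1,0),(0,1),(9,0),
  (21,1)]⟩⟩]⟩) (.I [0,1,1,0,-1,0,0,0,-1] (.R ⟨1,false,false,false,[1,0,0,-1],[1,-1],[0,1,0,-1,0,0,0,
  0,-1],(⟨0,[(34,0)]⟩,⟨0,[(35,0)]⟩),(⟨0,[(46,0)]⟩,⟨0,[(47,0)]⟩),⟨0,[(2,0)]⟩,.k,.k,(.x (-1) ⟨11,[(20,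
  3),(1,3),(9,4),(0,4),(11,1)]⟩ ⟨0,[(47,0)]⟩),(.r 0 ⟨8,[(0,0),(8,2),(7,0),(3,0),(5,0),(4,3)]⟩ ⟨7,
  [(10,1),(8,1),(11,0),(1,3),(2,0),(2,0)]⟩),.k,.k,⟨true,(-1),⟨0,[(0,0)]⟩,⟨1,[(33,0),(18,0)]⟩⟩,
  ⟨false,0,⟨1,[(14,0),(4,0),(4,0),(9,1),(2,1),(0,0)]⟩,⟨1,[(4,0),(0,0),(27,0),(17,0)]⟩⟩,⟨false,0,⟨0,
  [(50,0)]⟩,⟨11,[(6,3),(25,2),(0,2),(11,1),(6,3)]⟩⟩,⟨false,1,⟨5,[(19,1),(13,2),(0,5),(2,3),(2,3),(4,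
  0),(2,1),(1,1)]⟩,⟨6,[(4,3),(0,2),(0,0),(8,1),(1,0)]⟩⟩,⟨true,0,⟨0,[(54,0)]⟩,⟨0,[]⟩⟩,⟨false,1,⟨5,
  [(33,2),(0,5),(2,1),(2,1),(4,1),(2,1),(3,0)]⟩,⟨1,[(4,0),(0,0)]⟩⟩,[.a ⟨true,0,⟨0,[(50,0)]⟩,⟨6,[(8,
  1),(2,0),(4,0),(8,1),(4,1),(13,0),(1,1)]⟩⟩ ⟨false,0,⟨5,[(0,3),(0,0),(3,0),(4,2),(20,0),(2,0),(1,
  1),(14,0)]⟩,⟨5,[(6,1),(26,2),(11,0),(6,1)]⟩⟩ ⟨true,0,⟨0,[(14,0),(4,0),(14,0),(2,0),(0,0)]⟩,⟨5,[(4,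
  1),(4,0),(5,0),(1,0),(12,0),(2,0),(1,3)]⟩⟩,.o ⟨false,1,⟨3,[(19,1),(17,1),(2,1),(4,0),(6,0)]⟩,⟨0,
  [(49,0)]⟩⟩,.o ⟨false,1,⟨1,[(4,0),(0,0),(27,0),(11,0)]⟩,⟨1,[(14,0),(4,0),(4,0),(9,1),(2,1),(0,
  0)]⟩⟩,.e ⟨false,0,⟨1,[(0,0),(0,0),(8,0)]⟩,⟨11,[(9,3),(11,3),(10,2),(0,8),(18,3)]⟩⟩ ⟨false,1,⟨3,
  [(19,1),(14,3),(2,1),(2,1),(4,0),(6,0)]⟩,⟨5,[(4,1),(4,0),(5,0),(1,0),(12,0),(2,0),(1,3)]⟩⟩]⟩) (.Q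
  [0,-1,-1,1,0,0,0,0,-1,0,0,1] (.p true [0,0,0,1] [] (⟨0,[(35,0)]⟩,⟨0,[(34,0)]⟩) .k 0 (⟨0,[]⟩,⟨0,
  []⟩) .k .k) (.Q [0,1,1,-2,0,0,0,0,1,0,0,-1] (.p false [0,0,0,1] [] (⟨0,[(36,0)]⟩,⟨0,[(35,0)]⟩) .k
  0 (⟨0,[]⟩,⟨0,[]⟩) .k .k) (.R ⟨1,false,false,false,[1,-1],[1,0,0,-1],[0,1],(⟨0,[(48,0)]⟩,⟨0,[(49,
  0)]⟩),(⟨0,[(36,0)]⟩,⟨0,[(37,0)]⟩),⟨1,[(22,0),(1,0),(23,0)]⟩,.k,.k,(.r (-1) ⟨2,[(0,0),(6,0),(13,1),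
  (31,0)]⟩ ⟨12,[(11,7),(6,1),(0,3),(9,3),(4,4),(0,4),(3,1)]⟩),(.r (-1) ⟨5,[(0,0),(6,0),(13,1),(13,
  2),(17,0)]⟩ ⟨29,[(3,2),(3,0),(3,2),(4,9),(2,6),(9,7),(4,12),(1,0),(3,1)]⟩),(.r (-2) ⟨11,[(0,3),(6,
  3),(13,7),(12,2),(0,8),(17,3)]⟩ ⟨38,[(3,29),(3,6),(8,30),(1,8),(0,18),(9,34),(4,0),(1,6),(3,
  22)]⟩),.k,⟨false,1,⟨1,[(35,0),(17,0),(2,1)]⟩,⟨19,[(0,4),(2,15),(2,4),(11,1),(1,7),(8,7),(4,1),(4,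
  1),(10,1)]⟩⟩,⟨true,1,⟨9,[(1,3),(5,5),(13,1),(13,4),(17,2)]⟩,⟨0,[(0,0),(2,0),(12,0),(3,0),(8,0)]⟩⟩,
  ⟨false,0,⟨25,[(11,7),(6,1),(0,3),(9,3),(4,4),(0,4),(3,1)]⟩,⟨7,[(21,3),(12,0),(0,0),(18,1)]⟩⟩,
  ⟨false,0,⟨0,[(1,0)]⟩,⟨35,[(0,23),(10,3),(11,3),(10,8),(0,14),(0,11),(10,5),(6,9)]⟩⟩,⟨false,0,⟨45,
  [(8,7),(2,19),(7,9),(9,5),(2,7),(1,6),(0,6),(11,5)]⟩,⟨6,[(0,1),(20,4),(12,0),(2,1),(12,0),(3,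
  0)]⟩⟩,⟨true,0,⟨4,[(1,2),(5,1),(0,0),(8,1),(1,0)]⟩,⟨0,[(0,0)]⟩⟩,[.a ⟨true,0,⟨1,[(6,0),(0,0)]⟩,⟨0,
  [(0,0),(8,0)]⟩⟩ ⟨true,0,⟨0,[(56,0)]⟩,⟨3,[(42,0),(0,0),(6,1)]⟩⟩ ⟨false,1,⟨4,[(1,1),(5,2),(13,0),
  (31,3)]⟩,⟨17,[(0,11),(10,7),(11,7),(11,2),(0,5),(10,2),(6,1)]⟩⟩,.e ⟨false,1,⟨3,[(34,0),(0,0),(17,
  1)]⟩,⟨0,[]⟩⟩ ⟨false,1,⟨4,[(1,3),(5,0),(13,1),(31,2)]⟩,⟨47,[(0,39),(10,23),(7,11),(9,7),(2,7),(1,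
  6),(0,10),(0,7),(10,5)]⟩⟩,.o ⟨false,0,⟨1,[(0,0),(5,0),(19,1),(12,1)]⟩,⟨3,[(34,0),(0,0),(17,1)]⟩⟩,
  .o ⟨false,0,⟨0,[(39,0),(2,0)]⟩,⟨0,[(53,0)]⟩⟩]⟩) (.I [0,0,1,1,-1,0,0,-1,-1] (.Q [0,0,-2,0,1,0,-1,0,
  0,-1,1,1] (.p true [0,0,1] [1,0,0,-1] (⟨0,[(47,0)]⟩,⟨0,[(46,0)]⟩) .k 2 (⟨0,[(37,0)]⟩,⟨0,[(38,
  0)]⟩) .k (.r (-1) ⟨19,[(13,3),(7,7),(8,7),(4,2),(0,12)]⟩ ⟨7,[(0,3),(21,1),(11,0),(0,1),(3,0),(2,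
  0),(2,1)]⟩)) (.R ⟨1,false,false,false,[1,0,0,-1],[0,-1,1],[0,1,0,-1,0,0,0,0,-1],(⟨0,[(38,0)]⟩,⟨0,
  [(39,0)]⟩),(⟨0,[(24,0)]⟩,⟨0,[(47,0),(3,0)]⟩),⟨0,[(6,0)]⟩,.k,.k,(.x (-1) ⟨11,[(24,3),(1,3),(9,4),
  (0,4),(11,1)]⟩ ⟨0,[(51,0)]⟩),(.r 1 ⟨0,[(1,0)]⟩ ⟨19,[(14,11),(7,3),(8,3),(4,8),(0,18)]⟩),.k,.k,
  ⟨true,(-1),⟨0,[(1,0),(52,0),(3,0)]⟩,⟨5,[(14,1),(10,3),(11,2),(18,0)]⟩⟩,⟨false,0,⟨0,[(38,0),(5,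
  0)]⟩,⟨0,[(0,0)]⟩⟩,⟨false,0,⟨0,[(54,0)]⟩,⟨11,[(10,3),(25,2),(0,2),(11,1),(6,3)]⟩⟩,⟨false,1,⟨5,[(14,
  3),(5,0),(1,0),(8,1),(5,2),(0,5),(5,6),(7,2)]⟩,⟨0,[(8,0),(10,0)]⟩⟩,⟨true,0,⟨0,[(58,0)]⟩,⟨0,[]⟩⟩,
  ⟨false,1,⟨5,[(14,1),(10,3),(11,2),(0,5),(5,5),(11,0)]⟩,⟨0,[(8,0),(31,0)]⟩⟩,[.a ⟨true,0,⟨0,[(14,0),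
  (5,0)]⟩,⟨0,[(17,0),(0,0)]⟩⟩ ⟨false,0,⟨0,[(1,0),(12,0),(43,0)]⟩,⟨5,[(10,1),(26,2),(11,0),(6,1)]⟩⟩
  ⟨true,0,⟨1,[(22,0),(15,1),(2,0),(2,0),(9,2)]⟩,⟨0,[(0,0),(17,0)]⟩⟩,.o ⟨false,1,⟨2,[(14,1),(10,0),
  (18,2),(11,0)]⟩,⟨0,[(19,0)]⟩⟩,.o ⟨false,1,⟨15,[(0,7),(34,3),(0,0),(0,0),(1,7),(9,5)]⟩,⟨1,[(18,0),
  (4,0),(4,0),(9,1),(2,1),(0,0)]⟩⟩,.e ⟨false,0,⟨0,[(1,0),(12,0)]⟩,⟨11,[(13,3),(11,3),(10,2),(0,8),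
  (18,3)]⟩⟩ ⟨false,1,⟨2,[(14,1),(10,0),(12,2),(5,2),(11,0)]⟩,⟨0,[(0,0),(17,0)]⟩⟩]⟩) (.Q [0,0,-1,0,0,
  0,0,0,-1,-1,0,2] (.p true [0,0,0,1] [1,0,0,-1] (⟨0,[(39,0)]⟩,⟨0,[(38,0)]⟩) .k 2 (⟨0,[(38,0)]⟩,⟨0,
  [(39,0)]⟩) .k (.r (-1) ⟨0,[(37,0)]⟩ ⟨8,[(1,9),(12,5),(7,1),(8,1),(4,3)]⟩)) (.I [1,1,0,0,-1,0,0,0,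
  -2] (.R ⟨1,false,false,false,[1,0,0,-1],[0,0,0,1],[1,1,0,0,0,0,0,0,-1],(⟨0,[(40,0)]⟩,⟨0,[(41,
  0)]⟩),(⟨0,[(41,0)]⟩,⟨0,[(40,0)]⟩),⟨0,[(8,0)]⟩,.k,.k,(.x (-1) ⟨11,[(26,3),(1,3),(9,4),(0,4),(11,
  1)]⟩ ⟨0,[(53,0)]⟩),.k,(.r 0 ⟨5,[(0,4),(24,2),(12,0),(19,0)]⟩ ⟨25,[(15,7),(6,1),(0,3),(9,3),(4,4),
  (0,30),(3,1)]⟩),.k,⟨true,(-1),⟨0,[(0,0)]⟩,⟨3,[(39,3),(6,0),(0,0),(6,1)]⟩⟩,⟨false,0,⟨4,[(2,1),(30,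
  0),(6,7),(10,1)]⟩,⟨1,[(1,1),(37,0),(17,0)]⟩⟩,⟨false,0,⟨0,[]⟩,⟨3,[(38,0),(0,0),(18,1)]⟩⟩,⟨false,1,
  ⟨9,[(2,7),(30,3),(5,9),(0,11),(10,2),(6,4)]⟩,⟨6,[(0,2),(0,5),(2,1),(11,0),(4,0),(3,1),(4,0)]⟩⟩,
  ⟨true,0,⟨0,[(55,0)]⟩,⟨0,[(56,0)]⟩⟩,⟨false,1,⟨14,[(2,5),(12,4),(11,4),(5,2),(5,14),(0,23),(10,5),
  (6,4)]⟩,⟨1,[(0,0),(0,1),(23,0)]⟩⟩,[.a ⟨true,0,⟨0,[(2,0),(6,0),(26,0)]⟩,⟨1,[(10,0),(0,0)]⟩⟩ ⟨false,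
  0,⟨1,[(0,0),(56,0),(2,0)]⟩,⟨1,[(39,0),(18,0)]⟩⟩ ⟨true,0,⟨9,[(2,7),(30,3),(5,4),(0,11),(10,2)]⟩,⟨0,
  [(1,0)]⟩⟩,.o ⟨false,1,⟨9,[(2,3),(30,1),(5,4),(0,5),(10,3),(6,4)]⟩,⟨3,[(0,0),(0,1),(19,1),(3,0),
  (18,1)]⟩⟩,.o ⟨false,1,⟨7,[(1,3),(36,0),(0,2),(11,1),(5,1)]⟩,⟨4,[(2,1),(30,0),(6,2),(10,1)]⟩⟩,.e
  ⟨false,0,⟨0,[(0,0),(5,0)]⟩,⟨1,[(39,0),(6,0),(0,0),(10,0)]⟩⟩ ⟨false,1,⟨9,[(2,3),(30,1),(5,4),(0,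
  15),(10,3),(6,4)]⟩,⟨0,[(1,0)]⟩⟩]⟩) (.K ⟨1,[1,-1,0,-1],0,0,(⟨0,[(8,0)]⟩,⟨0,[(41,0),(11,0)]⟩),(.x
  (-1) ⟨11,[(26,3),(1,3),(9,4),(0,4),(11,1)]⟩ ⟨0,[(53,0)]⟩),(.r (-1) ⟨15,[(2,3),(4,3),(3,3),(4,9),
  (8,5),(11,0),(0,3),(3,4),(2,0)]⟩ ⟨51,[(15,31),(6,7),(0,15),(9,15),(4,6),(0,32),(3,7)]⟩),.k,.k,.k,
  [⟨5,[(2,1),(35,0),(0,0),(0,3),(6,1)]⟩,⟨4,[(0,0),(0,1),(18,0),(20,0),(1,2),(0,0),(1,1),(9,0)]⟩,⟨1,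
  [(2,0),(33,0),(2,0),(0,0),(14,0)]⟩,⟨0,[(10,0),(45,0)]⟩]⟩)) (.K ⟨1,[1,-1,0,-1],0,0,(⟨0,[(7,0)]⟩,⟨0,
  [(40,0),(11,0)]⟩),(.x (-1) ⟨11,[(25,3),(1,3),(9,4),(0,4),(11,1)]⟩ ⟨0,[(52,0)]⟩),(.r (-1) ⟨15,[(1,
  3),(4,3),(3,3),(4,9),(8,5),(11,0),(0,3),(3,4),(2,0)]⟩ ⟨51,[(14,31),(6,7),(0,15),(9,15),(4,6),(0,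
  32),(3,7)]⟩),.k,.k,.k,[⟨5,[(1,1),(35,0),(0,0),(0,3),(6,1)]⟩,⟨3,[(8,0),(0,0),(9,1),(20,2),(1,1),(0,
  1),(6,0),(4,0)]⟩,⟨3,[(0,1),(20,0),(0,0),(12,0),(2,0),(5,1),(14,0)]⟩,⟨0,[(9,0),(45,0)]⟩]⟩))) (.Q
  [0,0,0,1,0,0,0,0,0,1,0,-1] (.p false [0,0,0,1] [1] (⟨0,[(38,0)]⟩,⟨0,[(37,0)]⟩) .k 1 (⟨0,[]⟩,⟨0,
  []⟩) .k .k) (.R ⟨1,false,false,true,[1,0,0,-1],[0,1],[1,0,0,0,0,0,0,0,-1],(⟨0,[(38,0)]⟩,⟨0,[(39,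
  0)]⟩),(⟨0,[(51,0)]⟩,⟨0,[(50,0)]⟩),⟨0,[(6,0)]⟩,.k,.k,(.x (-1) ⟨11,[(24,3),(1,3),(9,4),(0,4),(11,
  1)]⟩ ⟨0,[(51,0)]⟩),(.x (-1) ⟨11,[(24,3),(1,3),(9,4),(0,4),(11,1)]⟩ ⟨0,[(51,0)]⟩),(.r (-1) ⟨11,[(5,
  4),(3,0),(4,8),(20,1),(0,2),(1,0),(1,2),(2,0),(10,5)]⟩ ⟨51,[(13,31),(6,7),(0,15),(9,15),(4,6),(0,
  32),(3,7)]⟩),.k,⟨false,1,⟨113,[(5,77),(8,63),(2,11),(3,5),(3,1),(10,17),(12,2),(6,16)]⟩,⟨1,[(18,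
  0),(15,0),(2,0),(4,0)]⟩⟩,⟨true,0,⟨0,[(38,0)]⟩,⟨3,[(7,0),(0,0),(9,1),(20,2),(1,1),(0,1),(6,0),(4,
  0)]⟩⟩,⟨true,0,⟨0,[]⟩,⟨0,[(58,0)]⟩⟩,⟨false,0,⟨0,[(1,0),(11,0),(24,0)]⟩,⟨21,[(8,11),(14,5),(12,4),
  (2,9),(9,10),(2,1),(1,9)]⟩⟩,⟨false,1,⟨11,[(10,3),(25,2),(0,2),(11,1),(6,3)]⟩,⟨0,[(54,0)]⟩⟩,⟨false,
  0,⟨0,[(0,0),(0,0),(11,0)]⟩,⟨21,[(8,11),(14,5),(12,4),(2,9),(9,10),(2,1),(1,31)]⟩⟩,[.o ⟨false,0,⟨0,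
  [(53,0)]⟩,⟨3,[(23,1),(17,1),(2,1),(4,0),(6,0)]⟩⟩,.a ⟨true,0,⟨7,[(1,0),(7,0),(2,3),(7,0),(8,1),(4,
  1),(3,0),(4,0)]⟩,⟨0,[(54,0)]⟩⟩ ⟨true,0,⟨9,[(5,7),(14,0),(1,3),(8,3),(4,0),(4,0),(10,0),(1,4)]⟩,⟨0,
  [(1,0),(16,0),(39,0)]⟩⟩ ⟨false,0,⟨0,[(0,0)]⟩,⟨5,[(9,1),(13,1),(13,0),(1,3),(9,2),(4,1)]⟩⟩,.o
  ⟨false,1,⟨13,[(3,3),(5,5),(13,1),(13,4),(1,3),(9,6)]⟩,⟨1,[(18,0),(4,0),(4,0),(9,1),(2,1),(0,0)]⟩⟩,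
  .e ⟨false,1,⟨56,[(5,20),(8,6),(2,11),(3,5),(3,1),(10,17),(12,2),(6,16)]⟩,⟨0,[(1,0),(16,0)]⟩⟩
  ⟨false,0,⟨0,[(0,0)]⟩,⟨3,[(23,1),(15,3),(1,1),(2,1),(4,0),(6,0)]⟩⟩]⟩) (.Q [0,0,-1,-2,0,0,0,0,-1,-1,
  0,1] (.p true [0,0,0,1] [1] (⟨0,[(39,0)]⟩,⟨0,[(38,0)]⟩) .k 1 (⟨0,[]⟩,⟨0,[]⟩) .k .k) (.R ⟨1,true,
  false,true,[1,0,0,-1],[0,1],[1,0,0,0,0,0,0,0,-1],(⟨0,[(39,0)]⟩,⟨0,[(40,0)]⟩),(⟨0,[(52,0)]⟩,⟨0,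
  [(51,0)]⟩),⟨0,[(7,0)]⟩,.k,.k,(.x (-1) ⟨11,[(25,3),(1,3),(9,4),(0,4),(11,1)]⟩ ⟨0,[(52,0)]⟩),(.x
  (-1) ⟨11,[(25,3),(1,3),(9,4),(0,4),(11,1)]⟩ ⟨0,[(52,0)]⟩),(.r (-1) ⟨15,[(0,3),(5,3),(8,9),(8,1),
  (11,2),(0,3),(1,3),(1,2),(2,2)]⟩ ⟨51,[(14,31),(6,7),(0,15),(9,15),(4,6),(0,32),(3,7)]⟩),.k,⟨false,
  1,⟨113,[(6,77),(8,63),(2,11),(3,5),(3,1),(10,17),(12,2),(6,16)]⟩,⟨1,[(19,0),(15,0),(2,0),(4,0)]⟩⟩,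
  ⟨true,0,⟨0,[(39,0)]⟩,⟨2,[(1,0),(19,0),(18,1),(1,0),(7,0)]⟩⟩,⟨true,0,⟨0,[]⟩,⟨0,[(59,0)]⟩⟩,⟨false,0,
  ⟨0,[(2,0),(11,0),(24,0)]⟩,⟨19,[(0,5),(8,5),(14,3),(12,3),(2,7),(9,6),(6,4)]⟩⟩,⟨false,1,⟨11,[(11,
  3),(25,2),(0,2),(11,1),(6,3)]⟩,⟨0,[(55,0)]⟩⟩,⟨true,0,⟨1,[(14,0),(13,0),(6,0),(2,0),(0,1)]⟩,⟨0,[(0,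
  0)]⟩⟩,[]⟩) (.R ⟨1,false,false,true,[1,0,0,-1],[0,1],[1,0,0,0,0,0,0,0,-1],(⟨0,[(39,0)]⟩,⟨0,[(40,
  0)]⟩),(⟨0,[(52,0)]⟩,⟨0,[(51,0)]⟩),⟨0,[(7,0)]⟩,.k,.k,(.x (-1) ⟨11,[(25,3),(1,3),(9,4),(0,4),(11,
  1)]⟩ ⟨0,[(52,0)]⟩),(.x (-1) ⟨11,[(25,3),(1,3),(9,4),(0,4),(11,1)]⟩ ⟨0,[(52,0)]⟩),(.r (-1) ⟨11,[(6,
  4),(3,0),(4,8),(20,1),(0,2),(1,0),(1,2),(2,0),(10,5)]⟩ ⟨51,[(14,31),(6,7),(0,15),(9,15),(4,6),(0,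
  32),(3,7)]⟩),.k,⟨false,1,⟨113,[(6,77),(8,63),(2,11),(3,5),(3,1),(10,17),(12,2),(6,16)]⟩,⟨1,[(19,
  0),(15,0),(2,0),(4,0)]⟩⟩,⟨true,0,⟨0,[(39,0)]⟩,⟨2,[(1,0),(19,0),(18,1),(1,0),(7,0)]⟩⟩,⟨true,0,⟨0,
  []⟩,⟨0,[(59,0)]⟩⟩,⟨false,0,⟨1,[(0,0),(1,0),(16,0),(19,0)]⟩,⟨6,[(1,2),(7,2),(14,1),(12,1),(2,0),(9,
  1),(6,0)]⟩⟩,⟨false,1,⟨11,[(11,3),(25,2),(0,2),(11,1),(6,3)]⟩,⟨0,[(55,0)]⟩⟩,⟨false,0,⟨0,[(0,0)]⟩,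
  ⟨29,[(1,27),(4,1),(2,1),(5,1),(8,13),(12,12),(12,0),(2,5)]⟩⟩,[.o ⟨false,0,⟨0,[(54,0)]⟩,⟨3,[(24,1),
  (17,1),(2,1),(4,0),(6,0)]⟩⟩,.e ⟨true,0,⟨9,[(6,7),(14,0),(1,3),(8,3),(4,0),(4,0),(10,0),(1,4)]⟩,⟨0,
  [(2,0),(16,0),(39,0)]⟩⟩ ⟨true,0,⟨4,[(0,1),(20,0),(15,0),(1,2),(2,0)]⟩,⟨0,[(1,0)]⟩⟩,.o ⟨false,1,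
  ⟨13,[(4,3),(5,5),(13,1),(13,4),(1,3),(9,6)]⟩,⟨1,[(19,0),(4,0),(4,0),(9,1),(2,1),(0,0)]⟩⟩,.a ⟨true,
  0,⟨0,[(40,0)]⟩,⟨0,[(39,0)]⟩⟩ ⟨false,1,⟨56,[(6,20),(8,6),(2,11),(3,5),(3,1),(10,17),(12,2),(6,
  16)]⟩,⟨0,[(2,0),(16,0)]⟩⟩ ⟨true,0,⟨0,[(39,0),(14,0)]⟩,⟨0,[(1,0)]⟩⟩]⟩))))) (.R ⟨2,false,false,true,
  [0,1],[0,0,0,1],[1],(⟨0,[]⟩,⟨0,[]⟩),(⟨0,[(36,0)]⟩,⟨0,[(35,0)]⟩),⟨0,[]⟩,.k,.k,.k,(.r 0 ⟨29,[(2,2),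
  (3,0),(3,2),(4,9),(2,6),(9,7),(4,12),(1,0),(3,1)]⟩ ⟨9,[(0,1),(5,1),(13,3),(13,4),(17,0)]⟩),.k,.k,
  ⟨true,0,⟨9,[(2,7),(14,0),(1,3),(8,3),(4,0),(4,0),(10,0),(1,4)]⟩,⟨5,[(0,3),(9,0),(13,0),(6,0),(2,
  0),(1,3)]⟩⟩,⟨false,0,⟨28,[(0,12),(1,10),(12,4),(3,7),(13,0),(1,15),(2,15),(7,3),(2,0)]⟩,⟨0,[(1,0),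
  (4,0)]⟩⟩,⟨false,1,⟨7,[(20,3),(12,0),(0,0),(18,1)]⟩,⟨25,[(10,7),(6,1),(0,3),(9,3),(4,4),(0,4),(3,
  1)]⟩⟩,⟨true,0,⟨0,[(0,0)]⟩,⟨6,[(5,3),(0,2),(0,0),(8,1),(1,0)]⟩⟩,⟨false,1,⟨1,[(52,0),(0,0)]⟩,⟨1,
  [(41,0),(0,0)]⟩⟩,⟨false,1,⟨11,[(0,11),(6,3),(25,2),(0,2),(11,1),(6,3)]⟩,⟨0,[(5,0)]⟩⟩,[.e ⟨true,0,
  ⟨0,[]⟩,⟨1,[(41,0),(0,0)]⟩⟩ ⟨true,0,⟨25,[(0,25),(9,7),(6,1),(0,3),(9,3),(4,4),(0,4),(3,1)]⟩,⟨0,[(5,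
  0)]⟩⟩,.a ⟨true,0,⟨0,[(0,0),(8,0)]⟩,⟨1,[(5,0),(0,0)]⟩⟩ ⟨false,1,⟨1,[(52,0),(0,0)]⟩,⟨0,[(55,0)]⟩⟩
  ⟨true,0,⟨2,[(0,2),(9,0),(11,0),(30,0)]⟩,⟨1,[(5,0),(0,0)]⟩⟩,.o ⟨false,1,⟨3,[(33,0),(0,0),(17,1)]⟩,
  ⟨1,[(15,0),(4,0),(4,0),(12,1),(0,0)]⟩⟩,.e ⟨false,1,⟨1,[(52,0),(0,0)]⟩,⟨1,[(41,0),(0,0)]⟩⟩ ⟨false,
  1,⟨11,[(0,11),(6,3),(25,2),(0,2),(11,1),(6,3)]⟩,⟨0,[(5,0)]⟩⟩]⟩))))))) (.I [0,0,-1,-1,0,0,0,0,1]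
  (.Q [0,0,-2,0,1,0,0,0,0,-1,0,1] (.p true [0,0,0,1] [1] (⟨0,[(31,0)]⟩,⟨0,[(30,0)]⟩) .k 1 (⟨0,[]⟩,
  ⟨0,[]⟩) .k .k) (.Q [0,0,0,0,0,-1,0,0,0,0,0,1] (.ed false [1,-1,0,1] .k) (.R ⟨1,false,false,true,
  [0,0,0,1],[0,-1,1],[1,0,0,0,0,0,0,0,1],(⟨0,[(33,0)]⟩,⟨0,[(32,0)]⟩),(⟨0,[(18,0)]⟩,⟨0,[(41,0),(3,
  0)]⟩),⟨0,[(0,0)]⟩,.k,.k,(.r 0 ⟨0,[(2,0)]⟩ ⟨51,[(7,15),(6,3),(0,7),(9,7),(4,48),(0,22),(3,3)]⟩),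
  (.r 1 ⟨0,[(2,0),(4,0)]⟩ ⟨19,[(8,11),(7,3),(8,3),(4,18),(0,8)]⟩),.k,.k,⟨false,0,⟨45,[(1,8),(0,22),
  (0,8),(0,10),(2,15),(5,1),(8,1),(3,27),(4,6)]⟩,⟨1,[(8,0),(19,0),(1,0),(5,0),(11,0)]⟩⟩,⟨true,0,⟨3,
  [(1,1),(10,1),(3,0),(12,0),(3,1),(14,2)]⟩,⟨0,[(32,0),(2,0)]⟩⟩,⟨true,0,⟨0,[]⟩,⟨0,[(52,0)]⟩⟩,⟨false,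
  1,⟨1,[(1,0),(14,0),(13,0),(2,0),(14,2)]⟩,⟨9,[(2,0),(0,8),(0,2),(8,1),(11,1),(0,3),(5,0),(4,3)]⟩⟩,
  ⟨false,1,⟨11,[(4,3),(25,2),(0,2),(11,1),(6,3)]⟩,⟨0,[(48,0)]⟩⟩,⟨false,1,⟨1,[(1,0),(14,0),(13,0),(2,
  0),(14,0)]⟩,⟨7,[(2,0),(0,6),(2,0),(18,1),(0,3),(5,0),(4,3)]⟩⟩,[.o ⟨false,0,⟨0,[(36,0),(11,0)]⟩,⟨0,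
  [(13,0),(36,0)]⟩⟩,.a ⟨true,0,⟨0,[(8,0),(5,0)]⟩,⟨0,[(11,0),(0,0)]⟩⟩ ⟨true,0,⟨11,[(1,0),(0,8),(0,0),
  (0,0),(2,1),(11,1),(11,0),(14,3)]⟩,⟨1,[(12,0),(15,0),(1,0),(5,0),(11,1)]⟩⟩ ⟨false,1,⟨4,[(1,1),(6,
  1),(7,0),(0,0),(11,0),(3,2),(2,0)]⟩,⟨31,[(3,9),(3,7),(5,15),(11,5),(0,3),(3,4),(1,21),(4,3),(12,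
  2)]⟩⟩,.o ⟨false,0,⟨1,[(12,0),(4,0),(4,0),(9,1),(2,1),(0,0)]⟩,⟨7,[(1,3),(28,0),(0,0),(1,3),(9,
  1)]⟩⟩,.o ⟨false,0,⟨0,[(32,0),(2,0),(2,0)]⟩,⟨0,[(1,0)]⟩⟩]⟩) (.R ⟨0,false,false,true,[0,0,0,1],[0,
  -1,1],[1,0,0,0,0,0,0,0,1],(⟨0,[(33,0)]⟩,⟨0,[(32,0)]⟩),(⟨0,[(18,0)]⟩,⟨0,[(41,0),(3,0)]⟩),⟨0,[(0,
  0)]⟩,.k,.k,(.r 0 ⟨0,[(2,0)]⟩ ⟨51,[(7,15),(6,3),(0,7),(9,7),(4,48),(0,22),(3,3)]⟩),(.r 1 ⟨0,[(2,0),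
  (4,0)]⟩ ⟨19,[(8,11),(7,3),(8,3),(4,18),(0,8)]⟩),.k,.k,⟨false,0,⟨45,[(1,8),(0,22),(0,8),(0,10),(2,
  15),(5,1),(8,1),(3,27),(4,6)]⟩,⟨1,[(8,0),(19,0),(1,0),(5,0),(11,0)]⟩⟩,⟨true,0,⟨3,[(1,1),(10,1),(3,
  0),(12,0),(3,1),(14,2)]⟩,⟨0,[(32,0),(2,0)]⟩⟩,⟨true,0,⟨0,[]⟩,⟨0,[(52,0)]⟩⟩,⟨false,1,⟨1,[(1,0),(14,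
  0),(13,0),(2,0),(14,2)]⟩,⟨9,[(2,0),(0,8),(0,2),(8,1),(11,1),(0,3),(5,0),(4,3)]⟩⟩,⟨false,0,⟨0,[]⟩,
  ⟨0,[]⟩⟩,⟨false,0,⟨0,[]⟩,⟨0,[]⟩⟩,[.o ⟨false,0,⟨0,[(36,0),(11,0)]⟩,⟨0,[(13,0),(36,0)]⟩⟩,.a ⟨true,0,
  ⟨0,[(8,0),(5,0)]⟩,⟨0,[(11,0),(0,0)]⟩⟩ ⟨true,0,⟨11,[(1,0),(0,8),(0,0),(0,0),(2,1),(11,1),(11,0),
  (14,3)]⟩,⟨1,[(12,0),(15,0),(1,0),(5,0),(11,1)]⟩⟩ ⟨false,1,⟨4,[(1,1),(6,1),(7,0),(0,0),(11,0),(3,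
  2),(2,0)]⟩,⟨31,[(3,9),(3,7),(5,15),(11,5),(0,3),(3,4),(1,21),(4,3),(12,2)]⟩⟩,.o ⟨false,0,⟨12,[(0,
  4),(9,1),(13,0),(7,7),(2,3),(2,3),(4,1)]⟩,⟨7,[(1,3),(28,0),(0,0),(1,3),(9,1)]⟩⟩,.o ⟨false,0,⟨0,
  [(32,0),(2,0),(2,0)]⟩,⟨0,[(1,0)]⟩⟩]⟩)) (.Q [0,0,-1,-1,1,0,-1,-1,-1,-1,1,1] (.p true [0,0,1] [1,0,
  0,-1] (⟨0,[(41,0)]⟩,⟨0,[(40,0)]⟩) .k 2 (⟨0,[(31,0)]⟩,⟨0,[(32,0)]⟩) .k (.r 0 ⟨9,[(1,7),(11,0),(0,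
  1),(0,2),(8,4),(5,0),(3,0)]⟩ ⟨3,[(29,2),(0,0),(8,3)]⟩)) (.K ⟨0,[1,0,0,-1],1,1,(⟨0,[(32,0)]⟩,⟨0,
  [(33,0)]⟩),.k,(.x (-1) ⟨11,[(18,3),(1,3),(9,4),(0,4),(11,1)]⟩ ⟨0,[(45,0)]⟩),(.r (-1) ⟨51,[(7,15),
  (6,3),(0,7),(9,7),(4,48),(0,22),(3,3)]⟩ ⟨0,[(2,0)]⟩),.k,.k,[⟨0,[(1,0)]⟩,⟨0,[(33,0),(15,0)]⟩,⟨0,
  [(1,0),(0,0),(44,0)]⟩,⟨0,[(0,0),(20,0)]⟩]⟩) (.K ⟨0,[0,0,0,1],0,(-1),(⟨0,[(33,0)]⟩,⟨0,[(32,0)]⟩),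
  .k,(.r 0 ⟨0,[(2,0)]⟩ ⟨51,[(7,15),(6,3),(0,7),(9,7),(4,48),(0,22),(3,3)]⟩),(.x 0 ⟨0,[(45,0)]⟩ ⟨11,
  [(18,3),(1,3),(9,4),(0,4),(11,1)]⟩),.k,.k,[⟨0,[(33,0)]⟩,⟨0,[(32,0)]⟩,⟨1,[(30,0),(2,1),(15,0),(2,
  1)]⟩,⟨0,[(0,0),(33,0),(13,0)]⟩]⟩))) (.I [0,0,0,0,0,0,0,0,1] (.Q [0,0,0,0,0,-1,0,0,0,1,0,-1] (.ed
  true [0,1,0,1] .k) (.Q [0,-1,-1,0,1,0,1,1,-1,0,-1,1] (.p false [0,0,1] [0,0,0,1] (⟨0,[(42,0)]⟩,⟨0,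
  [(41,0)]⟩) .k 2 (⟨0,[(33,0)]⟩,⟨0,[(32,0)]⟩) .k (.r (-1) ⟨19,[(8,3),(7,7),(8,7),(4,12),(0,2)]⟩ ⟨0,
  [(1,0),(38,0)]⟩)) (.I [0,0,1,1,0,0,0,1,-1] (.Q [0,1,0,-1,0,0,0,0,0,-1,0,1] (.p true [0,0,0,1] [1]
  (⟨0,[(35,0)]⟩,⟨0,[(34,0)]⟩) .k 1 (⟨0,[]⟩,⟨0,[]⟩) .k .k) (.R ⟨1,false,false,false,[1,0,0,-1],[1,
  -1],[1,0,0,0,0,0,0,0,-1],(⟨0,[(35,0)]⟩,⟨0,[(36,0)]⟩),(⟨0,[(47,0)]⟩,⟨0,[(48,0)]⟩),⟨0,[(3,0)]⟩,.k,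
  .k,(.x (-1) ⟨11,[(21,3),(1,3),(9,4),(0,4),(11,1)]⟩ ⟨0,[(48,0)]⟩),(.r 0 ⟨2,[(1,0),(8,0),(22,0)]⟩
  ⟨7,[(11,1),(8,1),(11,0),(1,3),(2,0),(2,0)]⟩),.k,.k,⟨true,0,⟨0,[(5,0)]⟩,⟨0,[(4,0),(46,0)]⟩⟩,⟨false,
  0,⟨1,[(1,0),(4,0),(8,0),(4,0),(14,0),(1,0),(1,0)]⟩,⟨0,[(36,0),(15,0)]⟩⟩,⟨true,0,⟨0,[]⟩,⟨0,[(55,
  0)]⟩⟩,⟨false,0,⟨0,[(6,0),(44,0)]⟩,⟨4,[(2,4),(4,0),(8,0),(23,3),(9,0)]⟩⟩,⟨false,1,⟨11,[(7,3),(25,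
  2),(0,2),(11,1),(6,3)]⟩,⟨0,[(51,0)]⟩⟩,⟨false,0,⟨0,[(6,0)]⟩,⟨0,[(2,0),(37,0)]⟩⟩,[.a ⟨true,0,⟨0,
  [(51,0)]⟩,⟨6,[(9,1),(2,0),(4,0),(8,1),(4,1),(13,0),(1,1)]⟩⟩ ⟨false,1,⟨1,[(33,0),(18,0)]⟩,⟨0,[(4,
  0)]⟩⟩ ⟨true,0,⟨1,[(1,0),(4,0),(8,0),(4,0),(14,0),(1,0),(1,0),(11,1)]⟩,⟨1,[(0,0),(6,0),(28,0)]⟩⟩,
  .o ⟨false,1,⟨3,[(20,1),(17,1),(2,1),(4,0),(6,0)]⟩,⟨0,[(50,0)]⟩⟩,.o ⟨false,1,⟨1,[(36,1),(9,0),(5,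
  0)]⟩,⟨1,[(1,0),(4,0),(8,0),(4,0),(14,0),(1,0),(1,0)]⟩⟩,.e ⟨false,1,⟨14,[(1,6),(5,2),(8,2),(3,10),
  (4,2),(3,3),(3,3)]⟩,⟨5,[(0,0),(3,0),(1,0),(10,1),(10,0),(5,1),(16,0)]⟩⟩ ⟨false,1,⟨11,[(6,9),(4,1),
  (8,3),(12,4),(1,1),(4,1),(0,1),(4,0)]⟩,⟨1,[(0,0),(6,0),(28,0)]⟩⟩]⟩) (.R ⟨1,false,false,false,[1,0,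
  0,-1],[1,0,-1],[1,0,0,0,0,0,0,0,-1],(⟨0,[(35,0)]⟩,⟨0,[(36,0)]⟩),(⟨0,[(44,0)]⟩,⟨0,[(45,0)]⟩),⟨0,
  [(3,0)]⟩,.k,.k,(.x (-1) ⟨11,[(21,3),(1,3),(9,4),(0,4),(11,1)]⟩ ⟨0,[(48,0)]⟩),.k,(.r (-1) ⟨2,[(1,
  0),(9,1),(21,0)]⟩ ⟨1,[(10,0),(23,0),(8,0)]⟩),.k,⟨false,1,⟨5,[(1,3),(9,1),(21,0),(18,2)]⟩,⟨0,[(4,
  0),(38,0)]⟩⟩,⟨true,0,⟨0,[(35,0),(2,0)]⟩,⟨1,[(15,0),(4,0),(4,0),(10,1),(2,0)]⟩⟩,⟨true,0,⟨0,[]⟩,⟨0,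
  [(55,0)]⟩⟩,⟨false,0,⟨3,[(0,0),(3,0),(1,2),(8,0),(4,0),(7,0),(0,0),(10,1)]⟩,⟨0,[(2,0),(52,0)]⟩⟩,
  ⟨false,1,⟨11,[(7,3),(25,2),(0,2),(11,1),(6,3)]⟩,⟨0,[(51,0)]⟩⟩,⟨false,0,⟨4,[(0,0),(3,0),(1,3),(0,
  0),(8,0),(11,0),(0,1),(10,1)]⟩,⟨2,[(2,0),(17,0),(12,0),(2,1),(2,1),(11,0)]⟩⟩,[.e ⟨false,1,⟨1,[(33,
  0),(18,0)]⟩,⟨0,[(4,0)]⟩⟩ ⟨false,0,⟨0,[(0,0),(36,0),(13,0)]⟩,⟨3,[(2,1),(31,0),(1,1),(2,1),(12,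
  0)]⟩⟩,.o ⟨false,1,⟨0,[(37,0),(15,0)]⟩,⟨0,[(39,0)]⟩⟩,.o ⟨false,1,⟨1,[(36,1),(9,0),(5,0)]⟩,⟨2,[(0,
  0),(14,0),(19,1),(2,0),(0,0),(6,0),(4,1)]⟩⟩,.a ⟨true,0,⟨0,[(36,0)]⟩,⟨0,[(35,0)]⟩⟩ ⟨false,1,⟨8,[(0,
  2),(0,1),(0,2),(13,2),(3,3),(8,1),(3,1)]⟩,⟨2,[(4,0),(12,0),(16,0),(3,0),(12,0)]⟩⟩ ⟨true,0,⟨0,[(0,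
  0),(36,0),(13,0)]⟩,⟨0,[(36,0),(2,0)]⟩⟩]⟩)) (.Q [0,0,-2,0,1,0,0,0,0,-1,0,1] (.p true [0,0,0,1] [1]
  (⟨0,[(35,0)]⟩,⟨0,[(34,0)]⟩) .k 1 (⟨0,[]⟩,⟨0,[]⟩) .k .k) (.Q [0,0,0,1,0,0,0,0,0,0,0,1] (.p true [0,
  0,0,1] [] (⟨0,[(36,0)]⟩,⟨0,[(35,0)]⟩) .k 0 (⟨0,[]⟩,⟨0,[]⟩) .k .k) (.R ⟨1,false,false,false,[1,0,0,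
  -1],[1,-1],[1,1,0,0,0,0,0,0,-1],(⟨0,[(36,0)]⟩,⟨0,[(37,0)]⟩),(⟨0,[(48,0)]⟩,⟨0,[(49,0)]⟩),⟨0,[(4,
  0)]⟩,.k,.k,(.x (-1) ⟨11,[(22,3),(1,3),(9,4),(0,4),(11,1)]⟩ ⟨0,[(49,0)]⟩),(.x (-1) ⟨0,[(49,0),(3,
  0)]⟩ ⟨9,[(14,3),(13,1),(5,1),(0,1),(6,4),(0,4)]⟩),.k,.k,⟨true,0,⟨0,[(6,0),(49,0)]⟩,⟨1,[(2,1),(17,
  0),(8,0),(20,0),(1,0)]⟩⟩,⟨false,0,⟨1,[(16,0),(4,0),(4,0),(9,1),(2,1),(0,0)]⟩,⟨2,[(1,0),(13,1),(17,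
  0),(3,1)]⟩⟩,⟨false,0,⟨0,[]⟩,⟨3,[(34,0),(0,0),(18,1)]⟩⟩,⟨false,0,⟨0,[(7,0),(44,0)]⟩,⟨3,[(0,2),(0,
  0),(13,0),(11,0),(6,1)]⟩⟩,⟨true,0,⟨0,[(51,0)]⟩,⟨0,[(52,0)]⟩⟩,⟨false,0,⟨0,[(7,0)]⟩,⟨5,[(1,0),(13,
  1),(17,0),(0,2),(2,4)]⟩⟩,[.a ⟨true,0,⟨0,[(52,0)]⟩,⟨6,[(10,1),(2,0),(4,0),(8,1),(4,1),(13,0),(1,
  1)]⟩⟩ ⟨false,1,⟨1,[(34,0),(18,0),(2,1)]⟩,⟨0,[(2,0),(16,0),(9,0),(0,0),(21,0)]⟩⟩ ⟨true,0,⟨0,[(16,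
  0),(4,0),(14,0),(2,0),(0,0)]⟩,⟨0,[(0,0)]⟩⟩,.o ⟨false,1,⟨3,[(21,1),(17,1),(2,1),(4,0),(6,0)]⟩,⟨0,
  [(51,0)]⟩⟩,.o ⟨false,1,⟨7,[(1,3),(32,0),(0,0),(1,3),(9,1)]⟩,⟨1,[(16,0),(4,0),(4,0),(9,1),(2,1),(0,
  0)]⟩⟩,.e ⟨false,1,⟨1,[(34,0),(18,0)]⟩,⟨5,[(5,3),(12,0),(16,0),(3,0),(10,2),(1,0)]⟩⟩ ⟨false,1,⟨11,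
  [(7,9),(4,1),(8,3),(12,4),(1,1),(4,1),(0,1),(4,0)]⟩,⟨0,[(0,0)]⟩⟩]⟩) (.R ⟨1,false,false,false,[1,0,
  0,-1],[1,-1],[1,1,0,0,0,0,0,0,-1],(⟨0,[(36,0)]⟩,⟨0,[(37,0)]⟩),(⟨0,[(48,0)]⟩,⟨0,[(49,0)]⟩),⟨0,[(4,
  0)]⟩,.k,.k,(.x (-1) ⟨11,[(22,3),(1,3),(9,4),(0,4),(11,1)]⟩ ⟨0,[(49,0)]⟩),(.x (-1) ⟨5,[(0,0),(0,0),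
  (11,2),(12,0),(6,0),(12,2),(6,1)]⟩ ⟨9,[(14,3),(13,1),(5,1),(0,1),(6,4),(0,4)]⟩),.k,.k,⟨true,0,⟨0,
  [(6,0),(49,0)]⟩,⟨1,[(2,1),(17,0),(8,0),(20,0),(1,0)]⟩⟩,⟨false,0,⟨6,[(0,1),(5,0),(0,0),(8,0),(19,
  3),(2,1),(0,0),(1,0),(4,0)]⟩,⟨2,[(1,0),(13,1),(17,0),(3,1)]⟩⟩,⟨false,0,⟨0,[]⟩,⟨3,[(34,0),(0,0),
  (18,1)]⟩⟩,⟨false,0,⟨0,[(7,0),(44,0)]⟩,⟨15,[(1,6),(6,2),(6,0),(11,3),(4,2),(1,7),(2,8)]⟩⟩,⟨true,0,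
  ⟨0,[(51,0)]⟩,⟨0,[(52,0)]⟩⟩,⟨false,0,⟨0,[(7,0)]⟩,⟨5,[(1,0),(13,1),(17,0),(0,2),(2,4)]⟩⟩,[.e ⟨false,
  1,⟨1,[(34,0),(18,0),(2,1)]⟩,⟨0,[(0,0),(0,0),(0,0),(5,0),(7,0),(2,0),(9,0),(22,3)]⟩⟩ ⟨false,0,⟨0,
  [(0,0)]⟩,⟨15,[(1,6),(6,2),(6,0),(11,3),(4,2),(1,3),(0,3),(1,8)]⟩⟩,.o ⟨false,1,⟨3,[(21,1),(17,1),
  (2,1),(4,0),(6,0)]⟩,⟨0,[(51,0)]⟩⟩,.o ⟨false,1,⟨7,[(1,3),(32,0),(0,0),(1,3),(9,1)]⟩,⟨6,[(0,1),(5,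
  0),(0,0),(8,0),(19,3),(2,1),(0,0),(1,0),(4,0)]⟩⟩,.a ⟨true,0,⟨0,[(37,0)]⟩,⟨0,[(36,0)]⟩⟩ ⟨false,1,
  ⟨1,[(34,0),(18,0)]⟩,⟨5,[(5,3),(12,0),(16,0),(3,0),(10,2),(1,0)]⟩⟩ ⟨true,0,⟨0,[(0,0)]⟩,⟨0,[(37,0),
  (13,0)]⟩⟩]⟩)) (.Q [0,1,1,0,-1,0,0,0,1,1,0,-1] (.p false [0,0,0,1] [1] (⟨0,[(36,0)]⟩,⟨0,[(35,0)]⟩)
  .k 1 (⟨0,[]⟩,⟨0,[]⟩) .k .k) (.K ⟨0,[1,0,0,-1],1,1,(⟨0,[(36,0)]⟩,⟨0,[(37,0)]⟩),.k,(.x (-1) ⟨11,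
  [(22,3),(1,3),(9,4),(0,4),(11,1)]⟩ ⟨0,[(49,0)]⟩),(.r 0 ⟨0,[(1,0),(1,0),(13,0)]⟩ ⟨5,[(2,1),(9,1),
  (21,0),(0,2)]⟩),.k,.k,[⟨0,[(1,0)]⟩,⟨0,[(37,0),(15,0)]⟩,⟨0,[(0,0)]⟩,⟨0,[(3,0),(34,0),(17,0)]⟩]⟩)
  (.R ⟨1,false,false,false,[1,0,0,-1],[1,-1,-1],[1,1,0,0,0,0,0,0,-1],(⟨0,[(36,0)]⟩,⟨0,[(37,0)]⟩),
  (⟨0,[(31,0)]⟩,⟨0,[(46,0),(2,0)]⟩),⟨0,[(4,0)]⟩,.k,.k,(.x (-1) ⟨11,[(22,3),(1,3),(9,4),(0,4),(11,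
  1)]⟩ ⟨0,[(49,0)]⟩),(.x (-1) ⟨5,[(21,1),(4,3),(6,0),(4,0),(1,0),(5,5),(2,5),(3,3)]⟩ ⟨9,[(14,1),(13,
  5),(5,0),(0,0),(6,4),(0,4)]⟩),.k,.k,⟨true,0,⟨0,[(0,0),(0,0),(30,0),(7,0)]⟩,⟨6,[(2,4),(13,1),(4,0),
  (13,0),(14,2),(1,1)]⟩⟩,⟨false,0,⟨3,[(1,0),(27,1),(6,2),(10,0)]⟩,⟨2,[(0,0),(1,0),(22,0),(7,0),(3,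
  1),(15,1)]⟩⟩,⟨false,0,⟨0,[]⟩,⟨3,[(34,0),(0,0),(18,1)]⟩⟩,⟨false,0,⟨19,[(1,5),(0,3),(4,13),(8,7),(4,
  11),(7,5),(5,0),(5,7),(12,0)]⟩,⟨0,[(3,0),(47,0)]⟩⟩,⟨true,0,⟨0,[(51,0)]⟩,⟨0,[(52,0)]⟩⟩,⟨false,0,⟨6,
  [(2,0),(4,5),(2,0),(18,1),(0,2),(5,0),(4,2)]⟩,⟨0,[(3,0),(52,0)]⟩⟩,[.e ⟨false,1,⟨1,[(34,0),(18,0),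
  (2,1)]⟩,⟨0,[(2,0),(16,0),(9,0),(0,0),(21,0)]⟩⟩ ⟨false,0,⟨0,[(1,0),(15,0),(3,0)]⟩,⟨3,[(0,0),(2,0),
  (15,0),(5,0),(9,0),(1,1),(13,0),(1,0)]⟩⟩,.o ⟨false,1,⟨19,[(16,7),(4,13),(17,9),(1,11),(0,1),(4,4),
  (6,8)]⟩,⟨0,[(25,0)]⟩⟩,.o ⟨false,1,⟨1,[(37,1),(9,0),(5,0)]⟩,⟨1,[(1,0),(34,0),(10,0)]⟩⟩,.a ⟨true,0,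
  ⟨0,[(37,0)]⟩,⟨0,[(36,0)]⟩⟩ ⟨false,1,⟨1,[(34,0),(18,0)]⟩,⟨5,[(5,3),(12,0),(16,0),(3,0),(10,2),(1,
  0)]⟩⟩ ⟨true,0,⟨0,[(1,0),(15,0),(3,0)]⟩,⟨0,[(25,0),(11,0)]⟩⟩]⟩)))) (.Q [0,0,2,0,-1,0,0,0,0,1,0,-1]
  (.p false [0,0,0,1] [1] (⟨0,[(34,0)]⟩,⟨0,[(33,0)]⟩) .k 1 (⟨0,[]⟩,⟨0,[]⟩) .k .k) (.K ⟨0,[1,0,0,-1],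
  1,1,(⟨0,[(34,0)]⟩,⟨0,[(35,0)]⟩),.k,(.x (-1) ⟨11,[(20,3),(1,3),(9,4),(0,4),(11,1)]⟩ ⟨0,[(47,0)]⟩),
  (.x (-1) ⟨0,[(47,0),(3,0)]⟩ ⟨9,[(12,3),(13,1),(5,1),(0,1),(6,4),(0,4)]⟩),.k,.k,[⟨0,[(0,0)]⟩,⟨0,
  [(35,0),(15,0)]⟩,⟨2,[(0,0),(0,2),(8,0),(7,0),(6,0),(9,0)]⟩,⟨0,[(4,0),(10,0),(3,0),(15,0),(2,
  0)]⟩]⟩) (.R ⟨1,false,false,true,[1,0,0,-1],[0,0,0,1],[1,1,0,0,0,0,0,0,-1],(⟨0,[(34,0)]⟩,⟨0,[(35,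
  0)]⟩),(⟨0,[(35,0)]⟩,⟨0,[(34,0)]⟩),⟨0,[(2,0)]⟩,.k,.k,(.x (-1) ⟨11,[(20,3),(1,3),(9,4),(0,4),(11,
  1)]⟩ ⟨0,[(47,0)]⟩),.k,(.r (-2) ⟨31,[(10,7),(8,7),(11,3),(0,38),(0,6),(5,7),(5,1)]⟩ ⟨0,[(0,0),(0,
  1),(16,0),(16,0),(12,0)]⟩),.k,⟨true,1,⟨0,[(32,0)]⟩,⟨0,[(0,0),(0,1),(16,0),(16,0),(12,0),(1,0)]⟩⟩,
  ⟨false,0,⟨3,[(1,1),(30,0),(1,5),(3,1),(6,0),(2,1)]⟩,⟨0,[(0,0),(34,0)]⟩⟩,⟨false,0,⟨0,[]⟩,⟨3,[(32,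
  0),(0,0),(18,1)]⟩⟩,⟨false,(-1),⟨59,[(1,60),(3,52),(2,7),(1,26),(5,28),(1,16),(14,2),(0,5),(6,1)]⟩,
  ⟨0,[(0,0),(3,1),(14,0),(15,0)]⟩⟩,⟨true,0,⟨0,[(49,0)]⟩,⟨0,[(50,0)]⟩⟩,⟨false,(-1),⟨26,[(1,27),(3,
  19),(2,5),(7,1),(0,3),(0,8),(2,1),(11,2),(0,5)]⟩,⟨0,[(0,0),(3,1),(14,0),(15,0),(14,0)]⟩⟩,[.e
  ⟨false,1,⟨1,[(32,0),(18,0),(2,1)]⟩,⟨2,[(0,0),(0,1),(1,0),(13,0),(1,0),(15,0),(12,1)]⟩⟩ ⟨false,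
  (-1),⟨0,[(1,1),(2,0),(13,0),(0,0)]⟩,⟨1,[(0,1),(31,0),(2,1),(16,0)]⟩⟩,.o ⟨false,0,⟨5,[(1,1),(3,3),
  (26,0),(0,0),(4,1)]⟩,⟨0,[(0,0),(3,0),(45,0)]⟩⟩,.o ⟨false,1,⟨7,[(0,3),(31,0),(0,0),(1,3),(9,1)]⟩,
  ⟨3,[(1,1),(30,0),(1,1),(3,1),(6,0),(2,1)]⟩⟩,.a ⟨true,0,⟨0,[(35,0)]⟩,⟨0,[(34,0)]⟩⟩ ⟨false,1,⟨1,
  [(32,0),(18,0)]⟩,⟨5,[(3,3),(12,0),(16,0),(3,0),(10,2),(1,0)]⟩⟩ ⟨true,(-1),⟨0,[(1,1),(2,0),(13,0),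
  (0,0)]⟩,⟨0,[(0,0),(3,0),(30,0),(14,0)]⟩⟩]⟩))) (.Q [0,0,-2,0,1,0,-1,0,0,-1,1,1] (.p true [0,0,1]
  [1,0,0,-1] (⟨0,[(42,0)]⟩,⟨0,[(41,0)]⟩) .k 2 (⟨0,[(32,0)]⟩,⟨0,[(33,0)]⟩) .k (.x 0 ⟨0,[(38,0),(3,
  0)]⟩ ⟨79,[(9,27),(1,19),(8,19),(3,15),(5,10),(0,10),(11,9)]⟩)) (.R ⟨1,false,false,true,[0,0,0,1],
  [1,1,-1],[0,1,0,-1,0,0,0,0,1],(⟨0,[(34,0)]⟩,⟨0,[(33,0)]⟩),(⟨0,[(42,0),(3,0)]⟩,⟨0,[(19,0)]⟩),⟨3,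
  [(0,0),(10,0),(9,0),(12,2)]⟩,.k,.k,(.x 0 ⟨9,[(11,3),(13,1),(5,1),(0,1),(6,4),(0,4)]⟩ ⟨0,[(46,0),
  (3,0)]⟩),(.r (-1) ⟨4,[(2,0),(6,2),(7,0),(8,0),(5,1)]⟩ ⟨1,[(8,0),(22,0),(9,0)]⟩),(.r (-1) ⟨0,[(2,
  0),(6,0)]⟩ ⟨3,[(8,3),(22,2),(0,0)]⟩),.k,⟨false,1,⟨0,[(2,0),(6,0)]⟩,⟨9,[(5,1),(2,4),(5,1),(8,1),(7,
  4),(9,2)]⟩⟩,⟨true,1,⟨0,[(0,0)]⟩,⟨1,[(3,0),(0,0),(8,0),(1,0),(17,0),(3,0),(11,2)]⟩⟩,⟨false,0,⟨0,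
  [(49,0)]⟩,⟨11,[(5,3),(25,2),(0,2),(11,1),(6,3)]⟩⟩,⟨false,1,⟨1,[(0,1),(7,0),(22,0),(9,0)]⟩,⟨0,[(4,
  0),(4,0),(5,0)]⟩⟩,⟨true,0,⟨0,[(53,0)]⟩,⟨0,[]⟩⟩,⟨false,1,⟨9,[(0,9),(4,1),(2,4),(5,1),(8,1),(7,4),
  (9,2)]⟩,⟨0,[(4,0),(4,0),(5,0),(33,0)]⟩⟩,[.o ⟨false,0,⟨0,[(14,0)]⟩,⟨2,[(9,1),(10,0),(18,2),(11,
  0)]⟩⟩,.a ⟨true,0,⟨0,[(12,0),(0,0)]⟩,⟨0,[(9,0),(5,0)]⟩⟩ ⟨true,0,⟨0,[(2,0),(46,0)]⟩,⟨0,[(3,0)]⟩⟩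
  ⟨false,1,⟨4,[(0,4),(4,0),(8,0),(8,0),(17,3)]⟩,⟨8,[(4,3),(4,0),(5,2),(1,1),(8,0),(4,1),(1,4),(3,3),
  (11,11)]⟩⟩,.o ⟨false,0,⟨1,[(13,0),(4,0),(4,0),(9,1),(2,1),(0,0)]⟩,⟨15,[(0,7),(29,3),(0,0),(0,0),
  (1,7),(9,5)]⟩⟩,.o ⟨false,0,⟨0,[(33,0),(2,0),(2,0)]⟩,⟨35,[(0,27),(0,7),(9,1),(6,9),(2,1),(1,19),(6,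
  2),(4,4),(1,4)]⟩⟩]⟩) (.I [0,0,1,1,0,0,0,0,-1] (.R ⟨1,false,false,false,[0,0,0,1],[0,-1,1],[1,0,0,
  0,0,0,0,0,1],(⟨0,[(35,0)]⟩,⟨0,[(34,0)]⟩),(⟨0,[(20,0)]⟩,⟨0,[(43,0),(3,0)]⟩),⟨1,[(2,0),(17,0),(1,0),
  (12,0)]⟩,.k,.k,(.x 0 ⟨9,[(12,3),(13,1),(5,1),(0,1),(6,4),(0,4)]⟩ ⟨0,[(47,0),(3,0)]⟩),(.r 0 ⟨1,[(9,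
  0),(23,0),(8,0)]⟩ ⟨0,[(0,0),(9,0)]⟩),.k,.k,⟨false,0,⟨4,[(3,4),(2,0),(8,0),(8,0),(17,3)]⟩,⟨0,[(0,
  0),(9,0)]⟩⟩,⟨true,0,⟨6,[(2,3),(9,0),(9,0),(8,2),(3,2),(15,0)]⟩,⟨4,[(1,0),(25,2),(6,3),(10,0)]⟩⟩,
  ⟨true,0,⟨0,[]⟩,⟨0,[(54,0)]⟩⟩,⟨false,1,⟨4,[(2,2),(1,4),(5,0),(1,0),(5,1),(0,4),(9,0),(5,1)]⟩,⟨12,
  [(5,10),(0,1),(2,0),(5,3),(14,0),(2,0),(0,1),(4,7)]⟩⟩,⟨false,1,⟨11,[(6,3),(25,2),(0,2),(11,1),(6,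
  3)]⟩,⟨0,[(50,0)]⟩⟩,⟨false,1,⟨7,[(2,7),(1,1),(2,2),(2,1),(1,1),(4,2),(1,4),(2,1),(9,2)]⟩,⟨0,[(5,0),
  (33,0)]⟩⟩,[.a ⟨true,0,⟨0,[(10,0),(5,0)]⟩,⟨0,[(13,0),(0,0)]⟩⟩ ⟨true,0,⟨0,[(3,0)]⟩,⟨0,[(4,0),(45,
  0)]⟩⟩ ⟨false,1,⟨41,[(2,23),(7,27),(1,5),(4,6),(4,5),(8,10),(3,17),(15,19)]⟩,⟨31,[(5,9),(3,7),(5,
  15),(11,5),(0,3),(3,4),(1,21),(4,3),(12,2)]⟩⟩,.o ⟨false,1,⟨2,[(10,1),(10,0),(18,2),(11,0)]⟩,⟨0,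
  [(15,0)]⟩⟩,.o ⟨false,0,⟨4,[(1,1),(25,0),(6,2),(10,1)]⟩,⟨1,[(35,1),(9,0),(5,0)]⟩⟩,.o ⟨false,0,⟨19,
  [(1,15),(25,7),(4,4),(0,4),(0,3),(10,5)]⟩,⟨3,[(2,3),(9,0),(0,0),(1,1),(1,0),(1,1),(2,0),(28,
  1)]⟩⟩]⟩) (.R ⟨0,false,false,false,[1,0,0,-1],[1,-1],[1,0,0,-1,0,0,0,0,-1],(⟨0,[(34,0)]⟩,⟨0,[(35,
  0)]⟩),(⟨0,[(46,0)]⟩,⟨0,[(47,0)]⟩),⟨0,[(2,0)]⟩,.k,.k,(.x (-1) ⟨11,[(20,3),(1,3),(9,4),(0,4),(11,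
  1)]⟩ ⟨0,[(47,0)]⟩),(.x (-1) ⟨0,[(47,0),(3,0)]⟩ ⟨9,[(12,3),(13,1),(5,1),(0,1),(6,4),(0,4)]⟩),.k,.k,
  ⟨true,0,⟨0,[(4,0),(45,0)]⟩,⟨0,[(3,0)]⟩⟩,⟨false,0,⟨4,[(1,1),(25,0),(6,2),(10,1)]⟩,⟨0,[(35,0),(15,
  0)]⟩⟩,⟨true,0,⟨0,[(50,0)]⟩,⟨0,[(49,0)]⟩⟩,⟨false,0,⟨0,[(5,0),(44,0)]⟩,⟨19,[(2,2),(3,3),(8,3),(1,1),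
  (2,0),(1,0),(9,9),(2,16),(15,9)]⟩⟩,⟨false,0,⟨0,[]⟩,⟨0,[]⟩⟩,⟨false,0,⟨0,[]⟩,⟨0,[]⟩⟩,[.a ⟨true,0,⟨0,
  [(50,0)]⟩,⟨6,[(8,1),(2,0),(4,0),(8,1),(4,1),(13,0),(1,1)]⟩⟩ ⟨false,1,⟨7,[(10,1),(8,1),(11,0),(0,
  3),(3,0),(2,0)]⟩,⟨40,[(0,4),(2,35),(2,7),(2,1),(5,7),(1,4),(9,0),(17,1)]⟩⟩ ⟨true,0,⟨19,[(1,16),(8,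
  4),(8,4),(7,5),(6,2),(4,4),(5,6)]⟩,⟨19,[(2,2),(3,3),(8,3),(1,1),(2,0),(1,0),(12,16)]⟩⟩,.o ⟨false,
  1,⟨3,[(19,1),(17,1),(2,1),(4,0),(6,0)]⟩,⟨0,[(49,0)]⟩⟩,.o ⟨false,1,⟨1,[(35,1),(9,0),(5,0)]⟩,⟨4,[(1,
  1),(25,0),(6,2),(10,1)]⟩⟩,.e ⟨false,1,⟨0,[(4,0),(14,0)]⟩,⟨4,[(3,0),(5,0),(4,0),(2,0),(9,0),(5,
  1)]⟩⟩ ⟨false,1,⟨15,[(1,1),(3,11),(4,1),(8,5),(12,6),(0,0),(0,1),(4,1),(5,1)]⟩,⟨19,[(2,2),(3,3),(8,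
  3),(1,1),(2,0),(1,0),(12,16)]⟩⟩]⟩)))) (.Q [0,0,0,0,0,-1,0,0,0,1,0,-1] (.ed true [0,1,0,1] .k) (.Q
  [0,0,2,0,-1,0,1,0,0,1,-1,-1] (.p false [0,0,1] [1,0,0,-1] (⟨0,[(42,0)]⟩,⟨0,[(41,0)]⟩) .k 2 (⟨0,
  [(32,0)]⟩,⟨0,[(33,0)]⟩) .k (.r (-1) ⟨19,[(8,3),(7,7),(8,7),(4,2),(0,12)]⟩ ⟨0,[(1,0),(38,0)]⟩))
  (.R ⟨1,false,false,true,[1,0,0,-1],[0,1],[1,1,0,0,0,0,0,0,-1],(⟨0,[(33,0)]⟩,⟨0,[(34,0)]⟩),(⟨0,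
  [(46,0)]⟩,⟨0,[(45,0)]⟩),⟨0,[(1,0)]⟩,.k,.k,(.x (-1) ⟨11,[(19,3),(1,3),(9,4),(0,4),(11,1)]⟩ ⟨0,[(46,
  0)]⟩),(.x (-1) ⟨11,[(19,3),(1,3),(9,4),(0,4),(11,1)]⟩ ⟨0,[(46,0)]⟩),(.r (-1) ⟨3,[(2,3),(6,1),(8,
  1),(11,0),(4,0),(2,0)]⟩ ⟨22,[(3,6),(4,11),(6,2),(0,5),(9,5),(5,14),(3,2)]⟩),.k,⟨false,1,⟨7,[(2,7),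
  (6,1),(8,1),(11,0),(4,0),(2,0),(11,3)]⟩,⟨3,[(4,1),(3,0),(13,0),(6,0),(2,0),(1,1)]⟩⟩,⟨true,0,⟨0,
  [(33,0)]⟩,⟨1,[(13,0),(4,0),(4,0),(10,1),(1,1),(0,0)]⟩⟩,⟨false,0,⟨0,[]⟩,⟨3,[(31,0),(0,0),(18,1)]⟩⟩,
  ⟨false,0,⟨4,[(0,1),(3,0),(0,0),(23,1),(2,1),(0,1)]⟩,⟨0,[(2,0),(15,0),(4,0),(10,0),(1,0)]⟩⟩,⟨true,
  0,⟨0,[(48,0)]⟩,⟨0,[(49,0)]⟩⟩,⟨false,0,⟨5,[(4,1),(0,0),(2,1),(7,0),(12,1),(2,1),(0,3),(14,0)]⟩,⟨1,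
  [(2,1),(10,0),(4,2),(4,0),(10,1),(1,1),(0,0)]⟩⟩,[.o ⟨false,0,⟨0,[(48,0)]⟩,⟨3,[(18,1),(17,1),(2,1),
  (4,0),(6,0)]⟩⟩,.a ⟨true,0,⟨6,[(7,1),(2,0),(4,0),(8,1),(4,1),(13,0),(1,1)]⟩,⟨0,[(49,0)]⟩⟩ ⟨true,0,
  ⟨0,[(2,0)]⟩,⟨3,[(4,1),(8,0),(15,0),(2,0),(1,1),(2,0),(11,1)]⟩⟩ ⟨false,0,⟨1,[(0,0),(4,0),(3,0),(4,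
  0),(18,0)]⟩,⟨7,[(9,1),(8,1),(11,0),(3,7),(0,0),(2,0),(5,3)]⟩⟩,.o ⟨false,1,⟨1,[(34,1),(9,0),(5,
  0)]⟩,⟨4,[(0,1),(25,0),(6,2),(10,1)]⟩⟩,.e ⟨false,1,⟨1,[(31,0),(18,0)]⟩,⟨0,[(4,0),(29,0)]⟩⟩ ⟨false,
  0,⟨1,[(0,0),(4,0),(3,0),(4,0),(18,0)]⟩,⟨3,[(18,1),(15,3),(1,1),(2,1),(4,0),(6,0)]⟩⟩]⟩) (.R ⟨1,
  false,false,true,[1,0,0,-1],[0,0,1],[1,1,0,0,0,0,0,0,-1],(⟨0,[(33,0)]⟩,⟨0,[(34,0)]⟩),(⟨0,[(43,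
  0)]⟩,⟨0,[(42,0)]⟩),⟨0,[(1,0)]⟩,.k,.k,(.x (-1) ⟨11,[(19,3),(1,3),(9,4),(0,4),(11,1)]⟩ ⟨0,[(46,
  0)]⟩),.k,(.r (-1) ⟨3,[(18,1),(11,0),(0,1),(3,0),(2,0),(2,1)]⟩ ⟨0,[(0,0),(3,0),(8,0),(3,0),(11,0),
  (19,1)]⟩),.k,⟨true,0,⟨0,[(2,0),(38,0)]⟩,⟨0,[(0,0),(3,0),(8,0),(3,0),(11,0),(19,2)]⟩⟩,⟨false,0,⟨1,
  [(13,0),(4,0),(4,0),(9,1),(3,0)]⟩,⟨19,[(0,11),(25,3),(4,2),(0,2),(1,7),(9,1)]⟩⟩,⟨false,0,⟨0,[]⟩,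
  ⟨3,[(31,0),(0,0),(18,1)]⟩⟩,⟨false,0,⟨16,[(4,10),(4,6),(5,9),(1,0),(11,2),(2,2),(0,5),(3,7)]⟩,⟨2,
  [(0,1),(1,0),(24,2),(3,0),(2,0),(1,0)]⟩⟩,⟨true,0,⟨0,[(48,0)]⟩,⟨0,[(49,0)]⟩⟩,⟨false,0,⟨8,[(4,4),
  (10,1),(0,1),(0,0),(11,1),(2,1),(0,3),(3,2)]⟩,⟨3,[(0,0),(1,1),(15,1),(8,2),(3,0),(2,2),(0,0),(0,
  1)]⟩⟩,[.o ⟨false,0,⟨0,[(37,0)]⟩,⟨0,[(35,0),(15,0)]⟩⟩,.e ⟨true,0,⟨0,[(2,0)]⟩,⟨3,[(4,1),(8,0),(15,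
  0),(2,0),(1,1),(2,0),(11,1)]⟩⟩ ⟨true,0,⟨8,[(4,3),(4,0),(5,2),(1,1),(8,0),(4,1),(1,4),(3,3),(11,
  2)]⟩,⟨0,[(0,0),(12,0),(35,0)]⟩⟩,.o ⟨false,1,⟨15,[(0,7),(29,3),(0,0),(0,0),(1,7),(9,5)]⟩,⟨3,[(2,0),
  (1,0),(8,0),(19,2),(2,0),(0,0),(6,0),(4,0)]⟩⟩,.a ⟨true,0,⟨0,[(34,0)]⟩,⟨0,[(33,0)]⟩⟩ ⟨false,1,⟨1,
  [(31,0),(18,0)]⟩,⟨0,[(4,0),(29,0)]⟩⟩ ⟨true,0,⟨0,[(33,0),(3,0)]⟩,⟨0,[(0,0),(12,0),(35,0)]⟩⟩]⟩))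
  (.I [0,0,-2,-2,1,0,0,0,1] (.I [0,0,0,0,0,0,0,0,-1] (.R ⟨0,false,false,true,[1,0,0,-1],[1,0,-1],[0,
  1,0,0,0,0,0,0,-1],(⟨0,[(34,0)]⟩,⟨0,[(35,0)]⟩),(⟨0,[(43,0)]⟩,⟨0,[(44,0)]⟩),⟨0,[(2,0)]⟩,.k,.k,(.x
  (-1) ⟨11,[(20,3),(1,3),(9,4),(0,4),(11,1)]⟩ ⟨0,[(47,0)]⟩),.k,.k,.k,⟨false,1,⟨14,[(0,4),(9,4),(2,
  3),(3,4),(9,2),(4,4),(12,0)]⟩,⟨0,[(1,0),(7,0)]⟩⟩,⟨true,0,⟨0,[(34,0),(2,0)]⟩,⟨6,[(2,3),(9,0),(9,0),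
  (8,2),(3,2),(15,0)]⟩⟩,⟨true,0,⟨0,[(54,0)]⟩,⟨0,[]⟩⟩,⟨false,0,⟨0,[(5,0),(33,0)]⟩,⟨13,[(0,1),(1,10),
  (3,1),(5,1),(4,5),(1,9),(0,0),(0,1),(0,2),(9,5),(2,2)]⟩⟩,⟨false,0,⟨0,[]⟩,⟨0,[]⟩⟩,⟨false,0,⟨0,[]⟩,
  ⟨0,[]⟩⟩,[.o ⟨false,0,⟨0,[(36,0)]⟩,⟨35,[(10,7),(7,11),(2,3),(10,2),(0,2),(6,11),(4,5),(6,15)]⟩⟩,.e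
  ⟨true,0,⟨0,[(0,0)]⟩,⟨33,[(1,8),(0,4),(2,4),(6,1),(1,3),(1,12),(9,0),(0,7),(2,0),(2,9),(4,3)]⟩⟩
  ⟨true,0,⟨4,[(5,1),(8,1),(4,0),(7,0),(4,0),(1,2),(1,1),(2,0)]⟩,⟨4,[(2,2),(7,0),(1,0),(5,1),(10,0),
  (5,1)]⟩⟩,.o ⟨false,1,⟨1,[(35,1),(9,0),(5,0)]⟩,⟨3,[(0,0),(4,0),(8,0),(19,2),(2,0),(0,0),(6,0),(4,
  0)]⟩⟩,.a ⟨true,0,⟨0,[(35,0)]⟩,⟨0,[(34,0)]⟩⟩ ⟨false,1,⟨1,[(32,0),(18,0)]⟩,⟨0,[(5,0),(29,0)]⟩⟩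
  ⟨true,0,⟨0,[(34,0),(1,0)]⟩,⟨4,[(2,2),(7,0),(1,0),(5,1),(10,0),(5,1)]⟩⟩]⟩) (.N [0,0,0,1] 0 ⟨0,[(0,
  0)]⟩ ⟨0,[(3,0)]⟩ .k)) (.Q [0,0,0,0,0,0,-1,-1,0,-1,1,1] (.p true [0,0,1] [1,0,0,-1] (⟨0,[(43,0)]⟩,
  ⟨0,[(42,0)]⟩) .k 2 (⟨0,[(33,0)]⟩,⟨0,[(34,0)]⟩) .k (.r (-1) ⟨19,[(9,3),(7,7),(8,7),(4,2),(0,12)]⟩
  ⟨0,[(2,0),(38,0)]⟩)) (.R ⟨0,false,false,true,[1,0,0,-1],[0,0,1],[1,0,0,0,0,0,0,0,-1],(⟨0,[(34,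
  0)]⟩,⟨0,[(35,0)]⟩),(⟨0,[(44,0)]⟩,⟨0,[(43,0)]⟩),⟨0,[(2,0)]⟩,.k,.k,(.x (-1) ⟨11,[(20,3),(1,3),(9,4),
  (0,4),(11,1)]⟩ ⟨0,[(47,0)]⟩),.k,.k,.k,⟨true,0,⟨0,[(3,0),(24,0)]⟩,⟨0,[(5,0),(24,0),(4,0),(2,0),(11,
  0)]⟩⟩,⟨false,0,⟨1,[(14,0),(4,0),(4,0),(9,1),(3,0)]⟩,⟨4,[(13,2),(13,0),(7,4),(9,1)]⟩⟩,⟨true,0,⟨0,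
  []⟩,⟨0,[(54,0)]⟩⟩,⟨false,0,⟨16,[(5,10),(4,6),(5,9),(1,0),(11,2),(2,2),(0,5),(3,7)]⟩,⟨5,[(0,5),(0,
  0),(1,0),(2,1),(12,3),(12,1),(12,0)]⟩⟩,⟨false,0,⟨0,[]⟩,⟨0,[]⟩⟩,⟨false,0,⟨0,[]⟩,⟨0,[]⟩⟩,[.o ⟨false,
  0,⟨0,[(38,0)]⟩,⟨0,[(36,0),(15,0)]⟩⟩,.e ⟨true,0,⟨0,[(1,0),(17,0)]⟩,⟨1,[(14,0),(15,0),(2,0),(4,0),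
  (11,1)]⟩⟩ ⟨true,0,⟨8,[(5,3),(4,0),(5,2),(1,1),(8,0),(4,1),(1,4),(3,3),(11,2)]⟩,⟨0,[(0,0)]⟩⟩,.o
  ⟨false,1,⟨1,[(35,1),(9,0),(5,0)]⟩,⟨3,[(3,0),(1,0),(8,0),(19,2),(2,0),(0,0),(6,0),(4,0)]⟩⟩,.a
  ⟨true,0,⟨0,[(35,0)]⟩,⟨0,[(34,0)]⟩⟩ ⟨false,1,⟨5,[(1,0),(1,0),(2,1),(12,3),(12,1),(12,0)]⟩,⟨8,[(2,
  2),(2,2),(6,0),(3,1),(12,0),(0,2),(2,2),(16,4)]⟩⟩ ⟨true,0,⟨0,[(34,0),(3,0)]⟩,⟨0,[(0,0)]⟩⟩]⟩) (.R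
  ⟨0,false,false,true,[1,0,0,-1],[0,0,1],[1,0,0,0,0,0,0,0,-1],(⟨0,[(34,0)]⟩,⟨0,[(35,0)]⟩),(⟨0,[(44,
  0)]⟩,⟨0,[(43,0)]⟩),⟨0,[(2,0)]⟩,.k,.k,(.x (-1) ⟨11,[(20,3),(1,3),(9,4),(0,4),(11,1)]⟩ ⟨0,[(47,
  0)]⟩),.k,.k,.k,⟨true,0,⟨0,[(3,0),(24,0)]⟩,⟨0,[(5,0),(24,0),(4,0),(2,0),(11,0)]⟩⟩,⟨false,0,⟨0,[(0,
  0),(41,0)]⟩,⟨4,[(13,2),(13,0),(7,4),(9,1)]⟩⟩,⟨true,0,⟨0,[]⟩,⟨0,[(54,0)]⟩⟩,⟨false,0,⟨3,[(0,1),(4,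
  1),(4,0),(5,1),(13,0),(2,0),(4,0),(11,0)]⟩,⟨14,[(2,14),(0,4),(9,8),(6,4),(1,4),(4,2),(0,14),(3,4),
  (12,0)]⟩⟩,⟨false,0,⟨0,[]⟩,⟨0,[]⟩⟩,⟨false,0,⟨0,[]⟩,⟨0,[]⟩⟩,[.o ⟨false,0,⟨0,[(38,0)]⟩,⟨0,[(36,0),
  (15,0)]⟩⟩,.a ⟨true,0,⟨2,[(10,0),(5,0),(1,0),(15,0),(0,0)]⟩,⟨0,[(14,0),(4,0),(10,0)]⟩⟩ ⟨true,0,⟨0,
  [(1,0),(17,0)]⟩,⟨1,[(14,0),(15,0),(2,0),(4,0),(11,1)]⟩⟩ ⟨false,0,⟨0,[(0,0)]⟩,⟨5,[(15,3),(3,1),(15,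
  5),(3,1),(5,0),(5,0),(0,1)]⟩⟩,.o ⟨false,1,⟨1,[(35,1),(9,0),(5,0)]⟩,⟨4,[(0,2),(4,1),(8,0),(17,0),
  (3,1),(0,0),(12,0)]⟩⟩,.e ⟨false,1,⟨5,[(1,0),(1,0),(2,1),(12,3),(12,1),(12,0)]⟩,⟨8,[(2,2),(2,2),(6,
  0),(3,1),(12,0),(0,2),(2,2),(16,4)]⟩⟩ ⟨false,0,⟨0,[(0,0)]⟩,⟨0,[(35,0),(0,0),(15,0)]⟩⟩]⟩)))))))))
  (.Q [0,1,-1,0,0,0,0,0,-1,0,0,1] (.p true [0,0,0,1] [] (⟨0,[(27,0)]⟩,⟨0,[(26,0)]⟩) .k 0 (⟨0,[]⟩,⟨0,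
  []⟩) .k .k) (.Q [0,0,1,1,0,0,0,0,1,1,0,-1] (.p false [0,0,0,1] [1] (⟨0,[(28,0)]⟩,⟨0,[(27,0)]⟩) .k
  1 (⟨0,[]⟩,⟨0,[]⟩) .k .k) (.K ⟨0,[0,0,0,1],0,0,(⟨0,[(29,0)]⟩,⟨0,[(28,0)]⟩),.k,(.r (-1) ⟨21,[(2,1),
  (1,3),(8,5),(11,1),(1,10),(5,3),(11,0)]⟩ ⟨4,[(1,0),(0,0),(0,1),(11,1),(10,1),(1,0)]⟩),(.x 0 ⟨0,
  [(41,0)]⟩ ⟨11,[(14,3),(1,3),(9,4),(0,4),(11,1)]⟩),.k,.k,[⟨0,[(29,0)]⟩,⟨0,[(28,0)]⟩,⟨0,[(1,0)]⟩,⟨0,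
  [(0,0),(1,0)]⟩]⟩) (.Q [0,0,-1,0,0,0,0,0,-1,-1,0,1] (.p true [0,0,0,1] [1] (⟨0,[(29,0)]⟩,⟨0,[(28,
  0)]⟩) .k 1 (⟨0,[]⟩,⟨0,[]⟩) .k .k) (.I [0,1,1,1,-1,0,0,0,-1] (.Q [0,0,0,0,0,-1,0,0,0,0,0,1] (.ed
  false [1,-1,0,1] .k) (.R ⟨1,false,false,true,[0,0,0,1],[0,1],[1,0,0,0,0,0,0,0,1],(⟨0,[(32,0)]⟩,⟨0,
  [(31,0)]⟩),(⟨0,[(44,0)]⟩,⟨0,[(43,0)]⟩),⟨0,[(0,0)]⟩,.k,.k,(.r (-1) ⟨21,[(5,1),(1,3),(8,5),(11,1),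
  (1,10),(5,3),(11,0)]⟩ ⟨24,[(1,2),(4,6),(6,0),(0,1),(3,2),(5,1),(4,10),(4,0)]⟩),(.r (-1) ⟨21,[(5,
  1),(1,3),(8,5),(11,1),(1,10),(5,3),(11,0)]⟩ ⟨24,[(1,2),(4,6),(6,0),(0,1),(3,2),(5,1),(4,10),(4,
  0)]⟩),(.r (-2) ⟨15,[(7,7),(8,7),(11,3),(0,2),(0,10),(5,7),(5,1)]⟩ ⟨2,[(1,2),(4,0),(11,0),(30,
  0)]⟩),.k,⟨false,2,⟨7,[(16,3),(12,0),(0,4),(17,3),(0,1)]⟩,⟨0,[(1,0)]⟩⟩,⟨true,1,⟨0,[(32,0),(15,0)]⟩,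
  ⟨1,[(5,1),(5,1),(3,0),(8,0),(6,1),(13,0),(1,0)]⟩⟩,⟨true,0,⟨0,[]⟩,⟨0,[(51,0)]⟩⟩,⟨false,0,⟨12,[(2,
  12),(3,3),(1,4),(4,0),(0,1),(26,4),(1,9)]⟩,⟨17,[(5,1),(10,7),(13,8),(0,17),(2,13),(2,13),(4,0),(2,
  5)]⟩⟩,⟨false,1,⟨4,[(6,0),(3,0),(1,0),(1,0),(14,0),(0,0),(18,2)]⟩,⟨0,[(47,0)]⟩⟩,⟨false,0,⟨2,[(2,2),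
  (3,1),(1,0),(1,0),(3,0),(26,0),(1,1)]⟩,⟨5,[(5,0),(10,2),(13,2),(0,5),(2,4),(2,4),(7,1),(1,4)]⟩⟩,
  [.o ⟨false,0,⟨0,[(46,0)]⟩,⟨3,[(16,1),(17,1),(2,1),(4,0),(6,0)]⟩⟩,.a ⟨true,0,⟨12,[(6,3),(1,4),(4,
  0),(0,1),(26,4),(1,9)]⟩,⟨0,[(47,0)]⟩⟩ ⟨true,1,⟨1,[(30,0),(18,0)]⟩,⟨0,[(1,0),(45,0)]⟩⟩ ⟨false,1,
  ⟨11,[(2,1),(3,3),(3,3),(3,1),(15,0),(1,9),(15,10)]⟩,⟨2,[(5,1),(25,2),(2,0),(2,0),(7,0),(1,0)]⟩⟩,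
  .o ⟨false,0,⟨10,[(5,3),(5,1),(1,0),(1,0),(15,10),(2,2),(7,2),(2,1)]⟩,⟨3,[(2,1),(1,1),(25,1),(11,
  0),(6,0)]⟩⟩,.o ⟨false,0,⟨0,[(31,0),(2,0),(2,0)]⟩,⟨1,[(2,1),(27,0),(17,0)]⟩⟩]⟩) (.R ⟨0,false,false,
  true,[0,0,0,1],[0,1],[1,0,0,0,0,0,0,0,1],(⟨0,[(32,0)]⟩,⟨0,[(31,0)]⟩),(⟨0,[(44,0)]⟩,⟨0,[(43,0)]⟩),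
  ⟨0,[(0,0)]⟩,.k,.k,(.r (-1) ⟨21,[(5,1),(1,3),(8,5),(11,1),(1,10),(5,3),(11,0)]⟩ ⟨24,[(1,2),(4,6),
  (6,0),(0,1),(3,2),(5,1),(4,10),(4,0)]⟩),(.r (-1) ⟨21,[(5,1),(1,3),(8,5),(11,1),(1,10),(5,3),(11,
  0)]⟩ ⟨24,[(1,2),(4,6),(6,0),(0,1),(3,2),(5,1),(4,10),(4,0)]⟩),.k,.k,⟨false,2,⟨7,[(16,3),(12,0),(0,
  4),(17,3),(0,1)]⟩,⟨0,[(1,0)]⟩⟩,⟨true,1,⟨0,[(32,0),(15,0)]⟩,⟨4,[(0,4),(8,1),(3,2),(9,0),(0,0),(9,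
  1),(2,0),(9,2)]⟩⟩,⟨true,0,⟨0,[]⟩,⟨0,[(51,0)]⟩⟩,⟨false,0,⟨12,[(2,12),(3,3),(1,4),(4,0),(0,1),(26,
  4),(1,9)]⟩,⟨51,[(0,4),(8,1),(6,25),(6,0),(6,25),(0,46),(2,42),(2,42),(4,1),(2,12)]⟩⟩,⟨false,0,⟨0,
  []⟩,⟨0,[]⟩⟩,⟨false,0,⟨0,[]⟩,⟨0,[]⟩⟩,[.o ⟨false,0,⟨0,[(46,0)]⟩,⟨3,[(16,1),(17,1),(2,1),(4,0),(6,
  0)]⟩⟩,.a ⟨true,0,⟨12,[(6,3),(1,4),(4,0),(0,1),(26,4),(1,9)]⟩,⟨0,[(47,0)]⟩⟩ ⟨true,1,⟨1,[(30,0),(18,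
  0)]⟩,⟨0,[(1,0),(45,0)]⟩⟩ ⟨false,1,⟨11,[(2,1),(3,3),(3,3),(3,1),(15,0),(1,9),(15,10)]⟩,⟨12,[(0,4),
  (4,1),(3,1),(6,1),(6,0),(7,7),(2,5),(2,5),(9,6)]⟩⟩,.o ⟨false,0,⟨12,[(0,4),(8,1),(13,0),(7,7),(2,
  3),(2,3),(4,1)]⟩,⟨3,[(2,1),(1,1),(25,1),(11,0),(6,0)]⟩⟩,.o ⟨false,0,⟨0,[(31,0),(2,0),(2,0)]⟩,⟨1,
  [(2,1),(27,0),(17,0)]⟩⟩]⟩)) (.Q [0,0,0,0,0,1,0,0,0,-1,0,1] (.ed false [0,1,0,1] .k) (.R ⟨0,false,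
  false,true,[1,0,0,-1],[0,0,1],[0,1,1,0,0,0,0,1],(⟨0,[(31,0)]⟩,⟨0,[(32,0)]⟩),(⟨0,[(41,0)]⟩,⟨0,[(40,
  0)]⟩),⟨0,[(0,0)]⟩,.k,.k,(.x (-1) ⟨11,[(17,3),(1,3),(9,4),(0,4),(11,1)]⟩ ⟨0,[(44,0)]⟩),.k,.k,.k,
  ⟨true,0,⟨1,[(37,0),(0,0)]⟩,⟨0,[]⟩⟩,⟨false,0,⟨4,[(5,1),(9,0),(5,0),(3,1),(2,0),(2,4)]⟩,⟨4,[(10,2),
  (13,0),(7,4),(9,1)]⟩⟩,⟨false,1,⟨19,[(7,3),(7,7),(8,7),(4,2),(0,12),(6,9),(0,9)]⟩,⟨0,[(2,0),(22,0),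
  (5,0)]⟩⟩,⟨true,0,⟨0,[(1,0),(3,0),(5,0),(3,0),(11,0),(3,0),(15,0)]⟩,⟨0,[(3,0),(6,0),(0,0)]⟩⟩,
  ⟨false,0,⟨0,[]⟩,⟨0,[]⟩⟩,⟨false,0,⟨0,[]⟩,⟨0,[]⟩⟩,[.o ⟨false,0,⟨0,[(35,0)]⟩,⟨0,[(33,0),(15,0)]⟩⟩,.e
  ⟨true,0,⟨2,[(7,0),(5,0),(1,0),(8,1),(12,0)]⟩,⟨0,[(39,0)]⟩⟩ ⟨true,0,⟨1,[(15,0),(15,1),(2,0),(2,0),
  (9,0)]⟩,⟨0,[(1,0),(1,0),(7,0),(15,0)]⟩⟩,.o ⟨false,1,⟨3,[(2,1),(1,1),(25,1),(11,0),(6,0)]⟩,⟨10,[(5,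
  3),(5,1),(1,0),(1,0),(15,10),(2,2),(7,2),(2,1)]⟩⟩,.a ⟨true,0,⟨0,[(32,0)]⟩,⟨0,[(31,0)]⟩⟩ ⟨false,1,
  ⟨4,[(7,0),(7,1),(8,1),(4,1),(0,1)]⟩,⟨0,[(25,0)]⟩⟩ ⟨true,0,⟨0,[(31,0),(3,0)]⟩,⟨0,[(1,0),(1,0),(7,
  0),(15,0)]⟩⟩]⟩) (.R ⟨1,false,false,false,[1,0,0,-1],[0,-1,1],[1,1,0,0,0,0,0,0,-1],(⟨0,[(31,0)]⟩,
  ⟨0,[(32,0)]⟩),(⟨0,[(17,0)]⟩,⟨0,[(40,0),(3,0)]⟩),⟨0,[(0,0)]⟩,.k,.k,(.x (-1) ⟨11,[(17,3),(1,3),(9,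
  4),(0,4),(11,1)]⟩ ⟨0,[(44,0)]⟩),(.r 1 ⟨0,[(2,0),(8,0),(19,0)]⟩ ⟨19,[(7,11),(7,3),(8,3),(4,8),(0,
  18)]⟩),.k,.k,⟨true,(-1),⟨1,[(2,0),(1,0),(0,0),(0,0),(4,0),(19,1)]⟩,⟨5,[(7,3),(5,0),(1,0),(8,1),(5,
  2),(6,0),(7,2)]⟩⟩,⟨false,0,⟨0,[(31,0),(5,0)]⟩,⟨0,[(1,0),(0,0),(24,0)]⟩⟩,⟨false,0,⟨0,[]⟩,⟨3,[(29,
  0),(0,0),(18,1)]⟩⟩,⟨false,1,⟨5,[(7,3),(5,0),(1,0),(8,1),(5,2),(0,5),(5,6),(7,2)]⟩,⟨0,[(2,0),(7,0),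
  (0,0)]⟩⟩,⟨true,0,⟨0,[(46,0)]⟩,⟨0,[(47,0)]⟩⟩,⟨false,1,⟨5,[(7,1),(10,3),(11,2),(0,5),(5,5),(11,0)]⟩,
  ⟨0,[(3,0),(6,0),(0,0)]⟩⟩,[.a ⟨true,0,⟨0,[(7,0),(5,0)]⟩,⟨0,[(10,0),(0,0)]⟩⟩ ⟨false,0,⟨6,[(2,3),(1,
  2),(0,1),(6,0),(7,0),(10,6)]⟩,⟨1,[(30,0),(18,0)]⟩⟩ ⟨true,0,⟨1,[(15,0),(15,1),(2,0),(2,0),(9,2)]⟩,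
  ⟨0,[(1,0),(0,0),(8,0),(15,0)]⟩⟩,.o ⟨false,1,⟨2,[(7,1),(10,0),(18,2),(11,0)]⟩,⟨0,[(12,0)]⟩⟩,.o
  ⟨false,1,⟨3,[(2,1),(1,1),(25,1),(11,0),(6,0)]⟩,⟨10,[(5,3),(5,1),(1,0),(1,0),(15,10),(2,2),(7,2),
  (2,1)]⟩⟩,.e ⟨false,0,⟨0,[(2,0),(28,0)]⟩,⟨1,[(30,0),(6,0),(0,0),(10,0)]⟩⟩ ⟨false,1,⟨2,[(7,1),(10,
  0),(12,2),(5,2),(11,0)]⟩,⟨0,[(1,0),(0,0),(8,0),(15,0)]⟩⟩]⟩))) (.R ⟨2,true,false,false,[0,1],[1,0,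
  0,-1],[0,1,1],(⟨0,[]⟩,⟨0,[]⟩),(⟨0,[(29,0)]⟩,⟨0,[(30,0)]⟩),⟨0,[]⟩,.k,.k,.k,(.x 0 ⟨0,[(42,0)]⟩ ⟨11,
  [(15,3),(1,3),(9,4),(0,4),(11,1)]⟩),.k,.k,⟨true,0,⟨2,[(0,0),(2,1),(7,0),(13,0),(2,0),(1,0)]⟩,⟨9,
  [(1,7),(2,1),(3,0),(1,0),(1,0),(3,0),(10,0),(1,7),(13,4)]⟩⟩,⟨false,1,⟨1,[(30,1),(9,0),(5,0)]⟩,⟨0,
  [(29,0)]⟩⟩,⟨false,0,⟨0,[(45,0)]⟩,⟨4,[(4,0),(3,0),(1,0),(1,0),(14,0),(0,0),(18,2)]⟩⟩,⟨true,0,⟨0,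
  [(1,0)]⟩,⟨0,[(0,0),(43,0)]⟩⟩,⟨true,0,⟨0,[(49,0)]⟩,⟨0,[]⟩⟩,⟨false,1,⟨6,[(1,3),(0,2),(7,1),(1,0),
  (27,0),(6,5)]⟩,⟨0,[(0,0)]⟩⟩,[]⟩))) (.I [0,0,0,0,0,0,0,0,1] (.I [0,0,1,1,0,0,0,1,-1] (.Q [0,0,0,0,
  0,0,-1,-1,0,0,1,-1] (.p true [0,0,1] [0,0,0,1] (⟨0,[(39,0)]⟩,⟨0,[(38,0)]⟩) .k 2 (⟨0,[(30,0)]⟩,⟨0,
  [(29,0)]⟩) .k (.r (-1) ⟨11,[(0,7),(4,3),(21,4),(0,2)]⟩ ⟨0,[(1,0),(35,0)]⟩)) (.R ⟨1,false,false,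
  false,[1,0,0,-1],[1,0,-1],[1,0,0,0,0,0,0,0,-1],(⟨0,[(30,0)]⟩,⟨0,[(31,0)]⟩),(⟨0,[(39,0)]⟩,⟨0,[(40,
  0)]⟩),⟨6,[(0,2),(5,0),(1,0),(4,0),(2,0),(1,1),(11,3)]⟩,.k,.k,(.x (-1) ⟨11,[(16,3),(1,3),(9,4),(0,
  4),(11,1)]⟩ ⟨0,[(43,0)]⟩),.k,(.r (-1) ⟨2,[(1,0),(4,1),(21,0)]⟩ ⟨1,[(5,0),(23,0),(8,0)]⟩),.k,
  ⟨false,1,⟨5,[(1,3),(4,1),(21,0),(18,2)]⟩,⟨0,[(2,0),(35,0)]⟩⟩,⟨true,0,⟨0,[(30,0),(2,0)]⟩,⟨4,[(4,1),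
  (9,0),(5,0),(3,1),(2,0),(3,4)]⟩⟩,⟨true,0,⟨0,[]⟩,⟨0,[(50,0)]⟩⟩,⟨false,0,⟨1,[(0,0),(1,0),(0,0),(31,
  0),(8,0)]⟩,⟨4,[(1,0),(2,1),(8,1),(1,1),(4,0),(7,1),(2,4),(15,0)]⟩⟩,⟨false,1,⟨4,[(5,0),(3,0),(1,0),
  (1,0),(14,0),(0,0),(18,2)]⟩,⟨0,[(46,0)]⟩⟩,⟨false,0,⟨17,[(0,8),(1,5),(0,7),(1,8),(3,6),(13,0),(5,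
  1),(0,0),(13,4)]⟩,⟨1,[(4,0),(9,0),(0,0),(12,0),(2,1)]⟩⟩,[.e ⟨false,1,⟨1,[(28,0),(18,0)]⟩,⟨0,[(2,
  0)]⟩⟩ ⟨false,0,⟨0,[(0,0)]⟩,⟨23,[(6,7),(6,7),(13,3),(0,2),(0,2),(1,23),(9,5),(5,3)]⟩⟩,.o ⟨false,1,
  ⟨0,[(32,0),(15,0)]⟩,⟨0,[(34,0)]⟩⟩,.o ⟨false,1,⟨1,[(31,1),(9,0),(5,0)]⟩,⟨9,[(1,1),(1,3),(0,3),(5,
  1),(17,0),(1,5),(10,0)]⟩⟩,.a ⟨true,0,⟨0,[(31,0)]⟩,⟨0,[(30,0)]⟩⟩ ⟨false,1,⟨5,[(1,3),(13,1),(8,3),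
  (3,0),(18,2)]⟩,⟨5,[(2,0),(0,0),(0,0),(7,1),(10,0),(5,1),(1,0),(14,0)]⟩⟩ ⟨true,0,⟨0,[(0,0)]⟩,⟨0,
  [(31,0),(2,0)]⟩⟩]⟩) (.Q [0,0,0,0,0,-1,0,0,0,0,0,1] (.ed false [1,-1,0,1] .k) (.R ⟨1,false,false,
  true,[0,0,0,1],[0,1],[0,1,0,-1,0,0,0,0,1],(⟨0,[(32,0)]⟩,⟨0,[(31,0)]⟩),(⟨0,[(44,0)]⟩,⟨0,[(43,0)]⟩),
  ⟨0,[(0,0)]⟩,.k,.k,(.r (-1) ⟨21,[(5,1),(1,3),(8,5),(11,1),(1,10),(5,3),(11,0)]⟩ ⟨2,[(2,0),(3,0),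
  (22,0)]⟩),(.r (-1) ⟨21,[(5,1),(1,3),(8,5),(11,1),(1,10),(5,3),(11,0)]⟩ ⟨2,[(2,0),(3,0),(22,0)]⟩),
  (.r (-1) ⟨10,[(3,10),(1,1),(1,3),(8,5),(11,1),(7,3),(11,0)]⟩ ⟨11,[(2,7),(3,7),(22,4),(0,2)]⟩),.k,
  ⟨false,1,⟨10,[(3,10),(1,1),(1,3),(8,5),(11,1),(7,3),(11,0)]⟩,⟨8,[(2,4),(3,4),(3,2),(10,2),(7,
  1)]⟩⟩,⟨true,1,⟨0,[(32,0),(15,0)]⟩,⟨1,[(5,1),(5,1),(3,0),(8,0),(6,1),(13,0),(1,0)]⟩⟩,⟨false,0,⟨0,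
  [(47,0)]⟩,⟨4,[(6,0),(3,0),(1,0),(1,0),(14,0),(0,0),(18,2)]⟩⟩,⟨false,1,⟨3,[(1,0),(4,0),(3,2),(10,
  1),(7,1),(2,2)]⟩,⟨0,[(4,0),(42,0)]⟩⟩,⟨true,0,⟨0,[(51,0)]⟩,⟨0,[]⟩⟩,⟨false,1,⟨3,[(1,2),(4,2),(3,4),
  (10,1),(7,1),(2,0)]⟩,⟨0,[(4,0),(42,1)]⟩⟩,[.o ⟨false,0,⟨0,[(46,0)]⟩,⟨3,[(16,1),(17,1),(2,1),(4,0),
  (6,0)]⟩⟩,.a ⟨true,0,⟨12,[(6,3),(1,4),(4,0),(0,1),(26,4),(1,9)]⟩,⟨0,[(47,0)]⟩⟩ ⟨true,0,⟨0,[(3,0),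
  (43,0)]⟩,⟨2,[(2,0),(3,0),(22,0)]⟩⟩ ⟨false,1,⟨0,[(10,0),(10,0),(10,0)]⟩,⟨5,[(2,0),(1,2),(0,2),(5,
  0),(17,0),(1,2),(15,4)]⟩⟩,.o ⟨false,0,⟨9,[(2,1),(1,3),(0,3),(5,1),(17,0),(1,5),(10,0)]⟩,⟨1,[(32,
  1),(9,0),(5,0)]⟩⟩,.e ⟨false,1,⟨21,[(5,1),(1,3),(8,5),(11,1),(1,10),(5,3),(11,0)]⟩,⟨0,[(2,0),(22,
  0)]⟩⟩ ⟨false,1,⟨0,[(10,0),(10,0),(10,0)]⟩,⟨2,[(2,0),(1,2),(6,0),(17,0),(17,4)]⟩⟩]⟩) (.R ⟨0,false,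
  false,true,[0,0,0,1],[0,1],[0,1,0,0,0,0,0,0,1],(⟨0,[(32,0)]⟩,⟨0,[(31,0)]⟩),(⟨0,[(44,0)]⟩,⟨0,[(43,
  0)]⟩),⟨0,[(0,0)]⟩,.k,.k,(.r (-1) ⟨21,[(5,1),(1,3),(8,5),(11,1),(1,10),(5,3),(11,0)]⟩ ⟨2,[(2,0),(3,
  0),(22,0)]⟩),(.r (-1) ⟨21,[(5,1),(1,3),(8,5),(11,1),(1,10),(5,3),(11,0)]⟩ ⟨2,[(2,0),(3,0),(22,
  0)]⟩),.k,.k,⟨false,1,⟨10,[(3,10),(1,0),(1,1),(8,2),(11,0),(7,1),(11,5)]⟩,⟨2,[(2,0),(3,0),(22,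
  0)]⟩⟩,⟨true,1,⟨0,[(32,0),(15,0)]⟩,⟨16,[(0,14),(3,1),(0,1),(3,5),(3,11),(9,2),(0,1),(4,0),(4,7),
  (12,9)]⟩⟩,⟨true,0,⟨0,[(51,0)]⟩,⟨0,[]⟩⟩,⟨false,1,⟨3,[(1,0),(4,0),(3,2),(10,1),(7,1),(2,2)]⟩,⟨0,[(4,
  0),(42,0)]⟩⟩,⟨false,0,⟨0,[]⟩,⟨0,[]⟩⟩,⟨false,0,⟨0,[]⟩,⟨0,[]⟩⟩,[.o ⟨false,0,⟨0,[(46,0)]⟩,⟨3,[(16,1),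
  (17,1),(2,1),(4,0),(6,0)]⟩⟩,.a ⟨true,0,⟨12,[(6,3),(1,4),(4,0),(0,1),(26,4),(1,9)]⟩,⟨0,[(47,0)]⟩⟩
  ⟨true,0,⟨0,[(3,0)]⟩,⟨2,[(2,0),(8,0),(17,0),(17,1)]⟩⟩ ⟨false,1,⟨0,[(10,0),(10,0),(10,0)]⟩,⟨26,[(0,
  4),(3,11),(0,11),(3,1),(3,3),(9,0),(0,1),(4,5),(1,9),(15,18)]⟩⟩,.o ⟨false,0,⟨9,[(2,1),(1,3),(0,3),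
  (5,1),(17,0),(1,5),(10,0)]⟩,⟨1,[(32,1),(9,0),(5,0)]⟩⟩,.e ⟨false,1,⟨1,[(30,0),(17,0)]⟩,⟨0,[(2,0),
  (8,0),(4,0)]⟩⟩ ⟨false,1,⟨0,[(10,0),(10,0),(10,0)]⟩,⟨43,[(0,9),(3,33),(4,3),(3,12),(9,1),(5,16),(4,
  12),(10,4),(1,56)]⟩⟩]⟩))) (.Q [0,0,0,0,0,0,-1,-1,0,0,1,-1] (.p true [0,0,1] [0,0,0,1] (⟨0,[(39,
  0)]⟩,⟨0,[(38,0)]⟩) .k 2 (⟨0,[(30,0)]⟩,⟨0,[(29,0)]⟩) .k (.r (-1) ⟨19,[(5,3),(7,7),(8,7),(4,12),(0,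
  2)]⟩ ⟨3,[(0,1),(3,0),(23,0),(8,0)]⟩)) (.Q [0,0,-1,0,1,0,1,1,-1,0,-1,1] (.p false [0,0,1] [0,0,0,
  1] (⟨0,[(40,0)]⟩,⟨0,[(39,0)]⟩) .k 2 (⟨0,[(31,0)]⟩,⟨0,[(30,0)]⟩) .k (.r (-1) ⟨19,[(6,3),(7,7),(8,
  7),(4,12),(0,2)]⟩ ⟨3,[(1,1),(3,0),(23,0),(8,0)]⟩)) (.R ⟨1,false,false,false,[1,0,0,-1],[1,0,-1],
  [1,1,0,0,0,0,0,0,-1],(⟨0,[(31,0)]⟩,⟨0,[(32,0)]⟩),(⟨0,[(40,0)]⟩,⟨0,[(41,0)]⟩),⟨6,[(1,2),(5,0),(1,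
  0),(4,0),(2,0),(1,1),(11,3)]⟩,.k,.k,(.x (-1) ⟨11,[(17,3),(1,3),(9,4),(0,4),(11,1)]⟩ ⟨0,[(44,0)]⟩),
  .k,(.x 0 ⟨5,[(5,0),(3,0),(6,0),(0,3),(3,2),(6,0),(12,0)]⟩ ⟨9,[(8,5),(14,1),(5,1),(0,1),(6,4),(0,
  4)]⟩),.k,⟨false,1,⟨1,[(7,0),(12,0),(6,0),(1,0)]⟩,⟨2,[(2,2),(3,0),(11,0),(30,0)]⟩⟩,⟨true,0,⟨0,[(31,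
  0),(2,0)]⟩,⟨4,[(5,1),(9,0),(5,0),(3,1),(2,0),(3,4)]⟩⟩,⟨false,0,⟨0,[]⟩,⟨3,[(29,0),(0,0),(18,1)]⟩⟩,
  ⟨false,0,⟨5,[(1,2),(0,1),(1,1),(1,0),(17,0),(5,0),(0,0),(6,0),(6,1)]⟩,⟨0,[(0,0)]⟩⟩,⟨true,0,⟨0,
  [(46,0)]⟩,⟨0,[(47,0)]⟩⟩,⟨false,0,⟨35,[(1,8),(0,5),(1,21),(1,20),(3,16),(13,4),(5,3),(0,4),(13,
  6)]⟩,⟨0,[(0,0),(46,0)]⟩⟩,[.e ⟨false,1,⟨1,[(29,0),(18,0),(2,1)]⟩,⟨0,[(2,0),(11,0),(9,0),(0,0),(21,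
  0)]⟩⟩ ⟨false,0,⟨0,[(1,0)]⟩,⟨25,[(0,13),(1,3),(4,3),(6,5),(15,4),(1,11),(9,2)]⟩⟩,.o ⟨false,1,⟨0,
  [(33,0),(15,0)]⟩,⟨0,[(35,0)]⟩⟩,.o ⟨false,1,⟨1,[(32,1),(9,0),(5,0)]⟩,⟨4,[(1,0),(2,1),(0,1),(5,0),
  (3,0),(13,0),(1,1),(2,0)]⟩⟩,.a ⟨true,0,⟨0,[(32,0)]⟩,⟨0,[(31,0)]⟩⟩ ⟨false,1,⟨1,[(29,0),(18,0)]⟩,⟨0,
  [(4,0),(27,0)]⟩⟩ ⟨true,0,⟨0,[(1,0)]⟩,⟨0,[(32,0),(2,0)]⟩⟩]⟩) (.R ⟨1,true,false,false,[0,0,1],[0,0,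
  0,1],[1,1,0,0,0,0,0,1],(⟨0,[(41,0)]⟩,⟨0,[(40,0)]⟩),(⟨0,[(32,0)]⟩,⟨0,[(31,0)]⟩),⟨0,[(17,0)]⟩,.k,.k,
  .k,.k,(.x 0 ⟨5,[(5,0),(3,0),(6,0),(0,3),(3,2),(6,0),(12,0)]⟩ ⟨9,[(8,5),(14,1),(5,1),(0,1),(6,4),
  (0,4)]⟩),.k,⟨false,1,⟨1,[(7,0),(12,0),(6,0),(1,0)]⟩,⟨2,[(2,2),(3,0),(11,0),(30,0)]⟩⟩,⟨true,0,⟨0,
  [(31,0),(2,0)]⟩,⟨4,[(5,1),(9,0),(5,0),(3,1),(2,0),(3,4)]⟩⟩,⟨false,0,⟨0,[]⟩,⟨3,[(29,0),(0,0),(18,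
  1)]⟩⟩,⟨true,(-1),⟨0,[(0,0)]⟩,⟨1,[(29,0),(2,1),(2,1),(12,0)]⟩⟩,⟨true,0,⟨0,[(46,0)]⟩,⟨0,[(47,0)]⟩⟩,
  ⟨false,0,⟨8,[(0,2),(0,1),(2,3),(1,3),(3,2),(16,0),(2,0),(18,2)]⟩,⟨1,[(5,0),(9,0),(0,0),(12,0),(2,
  1)]⟩⟩,[]⟩)) (.Q [0,0,-2,0,1,0,0,0,0,-1,0,1] (.p true [0,0,0,1] [1] (⟨0,[(31,0)]⟩,⟨0,[(30,0)]⟩) .k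
  1 (⟨0,[]⟩,⟨0,[]⟩) .k .k) (.Q [0,0,0,0,0,-1,0,0,0,0,0,1] (.ed false [1,-1,0,1] .k) (.R ⟨1,false,
  false,true,[0,0,0,1],[0,1],[1,0,0,0,0,0,0,0,1],(⟨0,[(33,0)]⟩,⟨0,[(32,0)]⟩),(⟨0,[(45,0)]⟩,⟨0,[(44,
  0)]⟩),⟨0,[(0,0)]⟩,.k,.k,(.x 0 ⟨9,[(10,3),(13,1),(5,1),(0,1),(6,4),(0,4)]⟩ ⟨9,[(6,0),(2,4),(7,0),
  (4,2),(6,0),(12,4),(6,3)]⟩),(.x 0 ⟨9,[(10,3),(13,1),(5,1),(0,1),(6,4),(0,4)]⟩ ⟨9,[(6,0),(2,4),(7,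
  0),(4,2),(6,0),(12,4),(6,3)]⟩),(.r (-1) ⟨11,[(3,7),(4,7),(21,0),(0,2)]⟩ ⟨51,[(7,31),(6,7),(0,15),
  (9,15),(4,32),(0,6),(3,7)]⟩),.k,⟨false,1,⟨5,[(1,0),(1,1),(0,2),(0,0),(5,1),(3,0),(1,2),(28,0)]⟩,
  ⟨1,[(12,0),(15,0),(1,0),(5,0)]⟩⟩,⟨true,1,⟨2,[(1,0),(9,1),(17,0),(3,1)]⟩,⟨1,[(6,1),(5,1),(3,0),(8,
  0),(6,1),(13,0),(1,0)]⟩⟩,⟨true,0,⟨0,[]⟩,⟨0,[(52,0)]⟩⟩,⟨false,1,⟨21,[(1,6),(5,5),(3,9),(3,2),(7,3),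
  (6,10),(2,14)]⟩,⟨0,[(5,0),(42,0)]⟩⟩,⟨false,1,⟨4,[(7,0),(3,0),(1,0),(1,0),(14,0),(0,0),(18,2)]⟩,⟨0,
  [(48,0)]⟩⟩,⟨false,1,⟨21,[(1,8),(5,13),(3,15),(3,6),(7,1),(6,10),(2,12)]⟩,⟨0,[(5,0),(42,1)]⟩⟩,[.o
  ⟨false,0,⟨0,[(47,0)]⟩,⟨3,[(17,1),(17,1),(2,1),(4,0),(6,0)]⟩⟩,.a ⟨true,0,⟨12,[(7,3),(1,4),(4,0),(0,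
  1),(26,4),(1,9)]⟩,⟨0,[(48,0)]⟩⟩ ⟨true,0,⟨0,[(3,0),(15,0)]⟩,⟨1,[(6,0),(7,0),(13,0),(1,0),(17,0)]⟩⟩
  ⟨false,1,⟨10,[(1,5),(5,1),(3,6),(3,0),(7,4),(9,4)]⟩,⟨10,[(5,3),(0,7),(7,1),(10,0),(4,1),(1,6),(13,
  1),(1,4)]⟩⟩,.o ⟨false,0,⟨4,[(5,1),(0,2),(0,0),(11,0),(10,0),(1,2)]⟩,⟨7,[(1,3),(28,0),(0,0),(1,3),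
  (9,1)]⟩⟩,.o ⟨false,0,⟨0,[(32,0),(2,0),(2,0)]⟩,⟨0,[(1,0)]⟩⟩]⟩) (.R ⟨0,false,false,true,[0,0,0,1],
  [0,1],[1,0,0,0,0,0,0,0,1],(⟨0,[(33,0)]⟩,⟨0,[(32,0)]⟩),(⟨0,[(45,0)]⟩,⟨0,[(44,0)]⟩),⟨0,[(0,0)]⟩,.k,
  .k,(.x 0 ⟨9,[(10,3),(13,1),(5,1),(0,1),(6,4),(0,4)]⟩ ⟨4,[(0,0),(0,0),(7,1),(19,0),(12,1),(6,1)]⟩),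
  (.x 0 ⟨9,[(10,3),(13,1),(5,1),(0,1),(6,4),(0,4)]⟩ ⟨4,[(0,0),(0,0),(7,1),(19,0),(12,1),(6,1)]⟩),.k,
  .k,⟨false,1,⟨5,[(1,0),(1,1),(0,2),(0,0),(5,1),(3,0),(1,2),(28,0)]⟩,⟨1,[(12,0),(15,0),(1,0),(5,
  0)]⟩⟩,⟨true,1,⟨2,[(1,0),(9,1),(17,0),(3,1)]⟩,⟨4,[(0,4),(9,1),(3,2),(9,0),(0,0),(9,1),(2,0),(9,
  2)]⟩⟩,⟨true,0,⟨0,[]⟩,⟨0,[(52,0)]⟩⟩,⟨false,1,⟨21,[(1,6),(5,5),(3,9),(3,2),(7,3),(6,10),(2,14)]⟩,⟨0,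
  [(5,0),(42,0)]⟩⟩,⟨false,0,⟨0,[]⟩,⟨0,[]⟩⟩,⟨false,0,⟨0,[]⟩,⟨0,[]⟩⟩,[.o ⟨false,0,⟨0,[(47,0)]⟩,⟨3,
  [(17,1),(17,1),(2,1),(4,0),(6,0)]⟩⟩,.a ⟨true,0,⟨12,[(7,3),(1,4),(4,0),(0,1),(26,4),(1,9)]⟩,⟨0,
  [(48,0)]⟩⟩ ⟨true,0,⟨0,[(3,0),(15,0)]⟩,⟨1,[(6,0),(7,0),(13,0),(1,0),(17,0)]⟩⟩ ⟨false,1,⟨10,[(1,5),
  (5,1),(3,6),(3,0),(7,4),(9,4)]⟩,⟨12,[(0,4),(4,3),(0,3),(3,1),(13,0),(5,1),(1,3),(5,1),(0,1),(8,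
  8)]⟩⟩,.o ⟨false,0,⟨12,[(0,4),(9,1),(13,0),(7,7),(2,3),(2,3),(4,1)]⟩,⟨7,[(1,3),(28,0),(0,0),(1,3),
  (9,1)]⟩⟩,.o ⟨false,0,⟨0,[(32,0),(2,0),(2,0)]⟩,⟨0,[(1,0)]⟩⟩]⟩)) (.Q [0,-1,-1,1,1,0,0,0,-1,0,0,1]
  (.p true [0,0,0,1] [] (⟨0,[(32,0)]⟩,⟨0,[(31,0)]⟩) .k 0 (⟨0,[]⟩,⟨0,[]⟩) .k .k) (.R ⟨1,false,false,
  false,[1,0,0,-1],[1,-1],[1,1,0,0,0,0,0,0,-1],(⟨0,[(32,0)]⟩,⟨0,[(33,0)]⟩),(⟨0,[(44,0)]⟩,⟨0,[(45,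
  0)]⟩),⟨3,[(1,1),(8,0),(0,0),(1,1),(1,0),(1,1),(2,0),(11,1)]⟩,.k,.k,(.x (-1) ⟨11,[(18,3),(1,3),(9,
  4),(0,4),(11,1)]⟩ ⟨0,[(45,0)]⟩),(.x (-1) ⟨9,[(6,0),(2,4),(7,0),(4,2),(6,0),(12,4),(6,3)]⟩ ⟨9,[(10,
  3),(13,1),(5,1),(0,1),(6,4),(0,4)]⟩),.k,.k,⟨true,0,⟨1,[(12,0),(15,0),(1,0),(5,0)]⟩,⟨13,[(1,2),(0,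
  3),(0,12),(1,0),(0,0),(1,2),(10,5),(5,1),(20,3)]⟩⟩,⟨false,0,⟨1,[(1,0),(30,0),(10,0)]⟩,⟨0,[(33,0),
  (15,0)]⟩⟩,⟨false,0,⟨0,[]⟩,⟨3,[(30,0),(0,0),(18,1)]⟩⟩,⟨false,0,⟨0,[(5,0),(42,0)]⟩,⟨0,[(0,0),(51,
  0)]⟩⟩,⟨true,0,⟨0,[(47,0)]⟩,⟨0,[(48,0)]⟩⟩,⟨false,0,⟨0,[(5,0)]⟩,⟨8,[(0,4),(1,1),(3,0),(1,1),(20,0),
  (0,1),(2,1),(3,3)]⟩⟩,[.a ⟨true,0,⟨0,[(48,0)]⟩,⟨12,[(7,3),(1,4),(4,0),(0,1),(26,4),(1,9)]⟩⟩ ⟨false,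
  1,⟨1,[(30,0),(18,0),(2,1)]⟩,⟨0,[(3,0),(11,0),(9,0),(0,0),(21,0)]⟩⟩ ⟨true,0,⟨19,[(1,9),(3,7),(0,
  11),(10,3),(12,4),(0,0),(0,1)]⟩,⟨1,[(2,0),(4,0),(3,0),(21,0)]⟩⟩,.o ⟨false,1,⟨3,[(17,1),(17,1),(2,
  1),(4,0),(6,0)]⟩,⟨0,[(47,0)]⟩⟩,.o ⟨false,1,⟨1,[(33,1),(9,0),(5,0)]⟩,⟨1,[(1,0),(30,0),(10,0)]⟩⟩,.e
  ⟨false,1,⟨1,[(30,0),(18,0)]⟩,⟨8,[(1,0),(0,1),(0,0),(0,2),(0,0),(6,0),(12,0),(5,1),(14,3)]⟩⟩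
  ⟨false,1,⟨9,[(5,7),(0,1),(10,3),(12,4),(0,0),(0,1)]⟩,⟨1,[(2,0),(4,0),(3,0),(21,0)]⟩⟩]⟩) (.K ⟨0,[1,
  0,0,-1],1,1,(⟨0,[(32,0)]⟩,⟨0,[(33,0)]⟩),.k,(.x (-1) ⟨11,[(18,3),(1,3),(9,4),(0,4),(11,1)]⟩ ⟨0,
  [(45,0)]⟩),(.r (-1) ⟨51,[(7,15),(6,3),(0,7),(9,7),(4,48),(0,22),(3,3)]⟩ ⟨0,[(0,0),(1,0),(8,0),(14,
  0)]⟩),.k,.k,[⟨0,[(1,0)]⟩,⟨0,[(33,0),(15,0)]⟩,⟨8,[(0,4),(0,3),(1,3),(5,0),(4,0),(0,1),(12,3),(13,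
  0),(1,1)]⟩,⟨1,[(2,0),(3,0),(6,0),(16,0),(2,0),(15,0)]⟩]⟩))))) (.Q [0,0,0,0,0,-1,0,0,0,1,0,-1]
  (.ed true [0,1,0,1] .k) (.Q [0,0,0,1,0,0,0,0,0,1,0,-1] (.p false [0,0,0,1] [1] (⟨0,[(30,0)]⟩,⟨0,
  [(29,0)]⟩) .k 1 (⟨0,[]⟩,⟨0,[]⟩) .k .k) (.R ⟨1,false,false,true,[1,0,0,-1],[0,1],[1,1,0,0,0,0,0,0,
  -1],(⟨0,[(30,0)]⟩,⟨0,[(31,0)]⟩),(⟨0,[(43,0)]⟩,⟨0,[(42,0)]⟩),⟨0,[(1,0)]⟩,.k,.k,(.x (-1) ⟨11,[(16,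
  3),(1,3),(9,4),(0,4),(11,1)]⟩ ⟨0,[(43,0)]⟩),(.x (-1) ⟨11,[(16,3),(1,3),(9,4),(0,4),(11,1)]⟩ ⟨0,
  [(43,0)]⟩),(.r (-1) ⟨10,[(2,10),(1,1),(1,3),(8,5),(11,1),(7,3),(11,0)]⟩ ⟨51,[(5,31),(6,7),(0,15),
  (9,15),(4,6),(0,32),(3,7)]⟩),.k,⟨false,1,⟨10,[(2,10),(1,0),(1,1),(8,2),(11,0),(7,1),(11,5)]⟩,⟨6,
  [(3,2),(0,0),(0,1),(7,0),(12,1),(2,1),(1,2)]⟩⟩,⟨true,0,⟨0,[(30,0)]⟩,⟨10,[(4,3),(5,1),(1,0),(1,0),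
  (16,10),(1,2),(7,2),(2,1)]⟩⟩,⟨false,0,⟨0,[]⟩,⟨3,[(28,0),(0,0),(18,1)]⟩⟩,⟨false,0,⟨2,[(0,0),(2,0),
  (8,0),(13,0),(2,0),(0,0)]⟩,⟨3,[(2,3),(1,0),(6,0),(3,2),(1,0),(2,0),(10,3),(9,0),(2,0)]⟩⟩,⟨true,0,
  ⟨0,[(45,0)]⟩,⟨0,[(46,0)]⟩⟩,⟨false,0,⟨14,[(0,11),(2,4),(1,3),(6,0),(0,1),(12,4),(2,4),(1,1)]⟩,⟨13,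
  [(2,11),(1,7),(10,9),(12,0),(2,13),(9,2),(2,5)]⟩⟩,[.o ⟨false,0,⟨0,[(45,0)]⟩,⟨3,[(15,1),(17,1),(2,
  1),(4,0),(6,0)]⟩⟩,.a ⟨true,0,⟨0,[(0,0),(30,0)]⟩,⟨0,[(46,0)]⟩⟩ ⟨true,0,⟨0,[(2,0)]⟩,⟨3,[(3,1),(0,0),
  (7,0),(13,0),(2,0),(1,1),(14,0)]⟩⟩ ⟨false,0,⟨0,[(0,0)]⟩,⟨21,[(4,1),(1,3),(8,5),(11,1),(3,21),(3,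
  3),(5,10),(5,0)]⟩⟩,.o ⟨false,1,⟨1,[(31,1),(9,0),(5,0)]⟩,⟨10,[(2,0),(0,4),(0,4),(0,0),(4,0),(2,0),
  (14,1),(1,5),(2,1)]⟩⟩,.e ⟨false,1,⟨1,[(28,0),(18,0)]⟩,⟨0,[(3,0),(27,0)]⟩⟩ ⟨false,0,⟨0,[(0,0)]⟩,⟨3,
  [(15,1),(15,3),(1,1),(2,1),(4,0),(6,0)]⟩⟩]⟩) (.R ⟨1,false,false,true,[1,0,0,-1],[0,1],[1,1,0,0,0,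
  0,0,0,-1],(⟨0,[(30,0)]⟩,⟨0,[(31,0)]⟩),(⟨0,[(43,0)]⟩,⟨0,[(42,0)]⟩),⟨0,[(1,0)]⟩,.k,.k,(.x (-1) ⟨11,
  [(16,3),(1,3),(9,4),(0,4),(11,1)]⟩ ⟨0,[(43,0)]⟩),(.x (-1) ⟨11,[(16,3),(1,3),(9,4),(0,4),(11,1)]⟩
  ⟨0,[(43,0)]⟩),(.r (-1) ⟨10,[(2,10),(1,1),(1,3),(8,5),(11,1),(7,3),(11,0)]⟩ ⟨51,[(5,31),(6,7),(0,
  15),(9,15),(4,6),(0,32),(3,7)]⟩),.k,⟨false,1,⟨10,[(2,10),(1,0),(1,1),(8,2),(11,0),(7,1),(11,5)]⟩,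
  ⟨14,[(0,2),(2,4),(1,3),(6,0),(0,1),(12,4),(2,4),(1,1)]⟩⟩,⟨true,0,⟨0,[(30,0)]⟩,⟨2,[(0,0),(11,0),
  (18,1),(1,0),(7,0)]⟩⟩,⟨false,0,⟨0,[]⟩,⟨3,[(28,0),(0,0),(18,1)]⟩⟩,⟨false,0,⟨38,[(3,12),(1,5),(1,0),
  (4,7),(0,2),(12,12),(2,12),(0,25),(9,0),(1,1)]⟩,⟨1,[(0,1),(1,1),(44,0),(0,0)]⟩⟩,⟨true,0,⟨0,[(45,
  0)]⟩,⟨0,[(46,0)]⟩⟩,⟨false,0,⟨35,[(3,11),(1,19),(1,0),(1,6),(3,9),(12,11),(2,11),(0,23),(9,0),(1,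
  1)]⟩,⟨3,[(0,3),(1,1),(12,1),(12,0),(19,0)]⟩⟩,[.o ⟨false,0,⟨0,[(45,0)]⟩,⟨15,[(0,7),(2,7),(11,3),
  (12,4),(0,0),(11,3),(6,1)]⟩⟩,.e ⟨true,0,⟨0,[(2,0)]⟩,⟨2,[(0,0),(2,0),(8,0),(13,0),(2,0),(16,0)]⟩⟩
  ⟨true,0,⟨143,[(3,3),(1,43),(6,11),(0,19),(5,3),(3,27),(4,28),(0,26),(0,139)]⟩,⟨0,[(0,0)]⟩⟩,.o
  ⟨false,1,⟨1,[(31,1),(9,0),(5,0)]⟩,⟨10,[(2,0),(0,4),(0,4),(0,0),(4,0),(2,0),(14,1),(1,5),(2,1)]⟩⟩,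
  .a ⟨true,0,⟨0,[(31,0)]⟩,⟨0,[(30,0)]⟩⟩ ⟨false,1,⟨1,[(28,0),(18,0)]⟩,⟨0,[(3,0),(27,0)]⟩⟩ ⟨true,0,⟨0,
  [(30,0),(14,0)]⟩,⟨0,[(0,0)]⟩⟩]⟩)) (.I [0,1,0,-1,0,0,0,0,1] (.R ⟨1,false,false,false,[0,0,0,1],[0,
  1],[0,1,0,-1,0,0,0,0,1],(⟨0,[(31,0)]⟩,⟨0,[(30,0)]⟩),(⟨0,[(43,0)]⟩,⟨0,[(42,0)]⟩),⟨1,[(1,0),(14,0),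
  (1,0),(12,0)]⟩,.k,.k,(.r (-1) ⟨11,[(0,3),(14,3),(12,0),(0,4),(17,1)]⟩ ⟨4,[(2,0),(2,0),(4,0),(2,0),
  (9,0),(4,1)]⟩),(.r (-1) ⟨11,[(0,3),(14,3),(12,0),(0,4),(17,1)]⟩ ⟨4,[(2,0),(2,0),(4,0),(2,0),(9,0),
  (4,1)]⟩),(.x 1 ⟨9,[(8,7),(3,1),(9,3),(0,1),(12,2),(0,0),(8,1)]⟩ ⟨7,[(7,7),(19,3),(0,0),(0,0),(10,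
  7),(0,1),(5,3)]⟩),.k,⟨false,1,⟨10,[(0,10),(3,0),(1,1),(8,2),(11,0),(7,1),(11,5)]⟩,⟨21,[(2,15),(2,
  9),(3,6),(1,6),(1,6),(3,2),(10,2),(15,12)]⟩⟩,⟨true,1,⟨0,[(31,0),(15,0)]⟩,⟨1,[(4,1),(5,1),(3,0),(8,
  0),(6,1),(13,0),(1,0)]⟩⟩,⟨false,0,⟨0,[(46,0)]⟩,⟨4,[(5,0),(3,0),(1,0),(1,0),(14,0),(0,0),(18,2)]⟩⟩,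
  ⟨false,1,⟨47,[(1,2),(0,23),(2,3),(3,39),(3,1),(2,0),(1,0),(1,35),(7,11),(2,44),(12,23)]⟩,⟨11,[(0,
  4),(2,8),(0,3),(7,0),(15,0),(1,2),(6,0),(8,3)]⟩⟩,⟨true,0,⟨0,[(50,0)]⟩,⟨0,[]⟩⟩,⟨false,1,⟨47,[(1,
  14),(0,23),(2,19),(3,55),(3,9),(2,4),(1,4),(1,35),(7,11),(2,32),(12,23)]⟩,⟨11,[(0,4),(2,8),(0,3),
  (7,0),(15,0),(1,2),(6,0),(8,15)]⟩⟩,[.a ⟨true,0,⟨12,[(5,3),(1,4),(4,0),(0,1),(26,4),(1,9)]⟩,⟨0,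
  [(46,0)]⟩⟩ ⟨true,0,⟨0,[(0,0)]⟩,⟨10,[(2,6),(2,2),(3,0),(1,0),(1,0),(3,1),(10,1),(15,4)]⟩⟩ ⟨false,1,
  ⟨0,[(9,0),(10,0),(10,0)]⟩,⟨10,[(3,3),(0,7),(7,1),(10,0),(4,1),(1,6),(13,1),(1,4)]⟩⟩,.o ⟨false,1,
  ⟨4,[(5,0),(3,0),(1,0),(1,0),(14,0),(0,0),(18,2)]⟩,⟨0,[(4,0)]⟩⟩,.o ⟨false,0,⟨10,[(2,0),(0,4),(0,4),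
  (0,0),(4,0),(2,0),(14,1),(1,5),(2,1)]⟩,⟨1,[(31,1),(9,0),(5,0)]⟩⟩,.o ⟨false,0,⟨0,[(30,0),(2,0),(2,
  0)]⟩,⟨3,[(1,3),(6,0),(0,0),(1,1),(1,0),(1,1),(2,0),(28,1)]⟩⟩]⟩) (.Q [0,0,0,0,0,0,-1,-1,0,-1,1,1]
  (.p true [0,0,1] [1,0,0,-1] (⟨0,[(40,0)]⟩,⟨0,[(39,0)]⟩) .k 2 (⟨0,[(30,0)]⟩,⟨0,[(31,0)]⟩) .k (.r
  (-1) ⟨19,[(6,3),(7,7),(8,7),(4,2),(0,12)]⟩ ⟨0,[(2,0),(35,0)]⟩)) (.R ⟨0,false,false,true,[1,0,0,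
  -1],[0,0,1],[1,0,0,0,0,0,0,0,-1],(⟨0,[(31,0)]⟩,⟨0,[(32,0)]⟩),(⟨0,[(41,0)]⟩,⟨0,[(40,0)]⟩),⟨0,[(2,
  0)]⟩,.k,.k,(.x (-1) ⟨11,[(17,3),(1,3),(9,4),(0,4),(11,1)]⟩ ⟨0,[(44,0)]⟩),.k,.k,.k,⟨true,0,⟨0,[(3,
  0),(21,0)]⟩,⟨0,[(4,0),(22,0),(4,0),(2,0),(11,0)]⟩⟩,⟨false,0,⟨4,[(5,1),(9,0),(5,0),(3,1),(2,0),(2,
  4)]⟩,⟨4,[(10,2),(13,0),(7,4),(9,1)]⟩⟩,⟨true,0,⟨0,[]⟩,⟨0,[(51,0)]⟩⟩,⟨false,0,⟨16,[(4,10),(2,6),(5,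
  9),(1,0),(11,2),(2,2),(0,5),(3,7)]⟩,⟨9,[(0,9),(0,3),(14,1),(12,2),(18,2),(0,1)]⟩⟩,⟨false,0,⟨0,[]⟩,
  ⟨0,[]⟩⟩,⟨false,0,⟨0,[]⟩,⟨0,[]⟩⟩,[.o ⟨false,0,⟨0,[(35,0)]⟩,⟨0,[(33,0),(15,0)]⟩⟩,.e ⟨true,0,⟨0,[(1,
  0),(45,0)]⟩,⟨1,[(5,0),(7,0),(13,0),(2,0),(16,0)]⟩⟩ ⟨true,0,⟨8,[(4,3),(2,0),(5,2),(1,1),(8,0),(4,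
  1),(1,4),(3,3),(11,2)]⟩,⟨0,[(0,0)]⟩⟩,.o ⟨false,1,⟨1,[(32,1),(9,0),(5,0)]⟩,⟨10,[(1,0),(2,4),(0,3),
  (0,0),(4,0),(17,1),(1,5),(2,1),(0,1)]⟩⟩,.a ⟨true,0,⟨0,[(32,0)]⟩,⟨0,[(31,0)]⟩⟩ ⟨false,1,⟨9,[(1,3),
  (14,1),(12,2),(18,2),(0,1)]⟩,⟨3,[(4,1),(0,0),(7,0),(13,0),(2,0),(1,1),(14,0)]⟩⟩ ⟨true,0,⟨0,[(31,
  0),(3,0)]⟩,⟨0,[(0,0)]⟩⟩]⟩) (.R ⟨0,false,false,true,[1,0,0,-1],[0,0,1],[1,0,0,0,0,0,0,0,-1],(⟨0,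
  [(31,0)]⟩,⟨0,[(32,0)]⟩),(⟨0,[(41,0)]⟩,⟨0,[(40,0)]⟩),⟨0,[(2,0)]⟩,.k,.k,(.x (-1) ⟨11,[(17,3),(1,3),
  (9,4),(0,4),(11,1)]⟩ ⟨0,[(44,0)]⟩),.k,.k,.k,⟨true,0,⟨0,[(3,0),(21,0)]⟩,⟨0,[(4,0),(22,0),(4,0),(2,
  0),(11,0)]⟩⟩,⟨false,0,⟨3,[(0,0),(4,0),(15,0),(3,0),(2,0),(2,2)]⟩,⟨4,[(10,2),(13,0),(7,4),(9,1)]⟩⟩,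
  ⟨true,0,⟨0,[]⟩,⟨0,[(51,0)]⟩⟩,⟨false,0,⟨3,[(0,1),(3,1),(2,0),(5,1),(13,0),(2,0),(4,0),(11,0)]⟩,⟨33,
  [(1,17),(10,21),(3,19),(7,5),(0,11),(3,7),(2,33),(9,2),(6,2)]⟩⟩,⟨false,0,⟨0,[]⟩,⟨0,[]⟩⟩,⟨false,0,
  ⟨0,[]⟩,⟨0,[]⟩⟩,[.o ⟨false,0,⟨0,[(35,0)]⟩,⟨0,[(33,0),(15,0)]⟩⟩,.a ⟨true,0,⟨2,[(7,0),(5,0),(1,0),
  (15,0),(0,0)]⟩,⟨0,[(11,0),(4,0),(10,0)]⟩⟩ ⟨true,0,⟨0,[(1,0),(45,0)]⟩,⟨1,[(5,0),(7,0),(13,0),(2,0),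
  (16,0)]⟩⟩ ⟨false,0,⟨0,[(0,0)]⟩,⟨5,[(12,3),(3,1),(15,5),(3,1),(5,0),(5,0),(0,1)]⟩⟩,.o ⟨false,1,⟨1,
  [(32,1),(9,0),(5,0)]⟩,⟨7,[(0,1),(3,1),(0,1),(5,1),(17,0),(1,3),(2,1),(7,0)]⟩⟩,.e ⟨false,1,⟨9,[(1,
  3),(14,1),(12,2),(18,2),(0,1)]⟩,⟨3,[(4,1),(0,0),(7,0),(13,0),(2,0),(1,1),(14,0)]⟩⟩ ⟨false,0,⟨0,
  [(0,0)]⟩,⟨0,[(32,0),(0,0),(15,0)]⟩⟩]⟩)))))))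

theorem ok127 : chk (cU (-1) true 10) t127 r75 = true := by decide +kernel

noncomputable def t132 : Tre :=
  (.Q [0,0,1,0,-1,0,0,0,1,1,0,-1] (.p false [0,0,0,1] [1] (⟨0,[(22,0)]⟩,⟨0,[(21,0)]⟩) .k 1 (⟨0,[]⟩,
  ⟨0,[]⟩) .k .k) (.Q [0,0,-1,2,1,0,0,0,-1,0,0,1] (.p true [0,0,0,1] [] (⟨0,[(23,0)]⟩,⟨0,[(22,0)]⟩)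
  .k 0 (⟨0,[]⟩,⟨0,[]⟩) .k .k) (.Q [0,1,-1,0,1,0,0,0,-1,-1,0,1] (.p true [0,0,0,1] [1] (⟨0,[(24,0)]⟩,
  ⟨0,[(23,0)]⟩) .k 1 (⟨0,[]⟩,⟨0,[]⟩) .k .k) (.R ⟨1,false,false,true,[1,-1],[1,0,0,-1],[0,1,1],(⟨0,
  [(36,0)]⟩,⟨0,[(37,0)]⟩),(⟨0,[(24,0)]⟩,⟨0,[(25,0)]⟩),⟨1,[(10,0),(1,0),(23,0)]⟩,.k,.k,(.r (-1) ⟨0,
  [(9,0),(34,0)]⟩ ⟨12,[(4,9),(0,1),(1,3),(3,3),(5,1),(2,1),(1,4),(0,4)]⟩),(.x 0 ⟨5,[(10,1),(1,1),(4,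
  1),(12,6),(0,2)]⟩ ⟨0,[(37,0),(3,0)]⟩),(.r (-1) ⟨3,[(2,1),(6,3),(13,0),(1,1),(0,1),(1,1),(12,0)]⟩
  ⟨51,[(4,39),(0,7),(1,15),(3,15),(5,7),(2,7),(1,32),(0,6)]⟩),.k,⟨false,0,⟨9,[(2,7),(2,3),(1,1),(1,
  3),(13,0),(1,7),(9,2)]⟩,⟨1,[(22,0),(18,0)]⟩⟩,⟨true,1,⟨0,[(25,0),(15,0)]⟩,⟨0,[(3,0),(20,0),(2,
  0)]⟩⟩,⟨true,(-1),⟨0,[(3,0),(16,0)]⟩,⟨1,[(9,0),(31,0),(2,0)]⟩⟩,⟨false,1,⟨18,[(0,0),(0,11),(6,0),(0,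
  2),(12,2),(2,5),(3,1)]⟩,⟨3,[(2,3),(6,1),(17,1),(2,1),(4,0),(6,0)]⟩⟩,⟨false,0,⟨12,[(4,9),(0,1),(1,
  3),(3,3),(5,1),(2,1),(1,4),(0,4)]⟩,⟨0,[(9,0)]⟩⟩,⟨false,1,⟨0,[(1,0)]⟩,⟨0,[(2,0),(6,0),(17,0),(2,
  0)]⟩⟩,[.o ⟨false,1,⟨0,[(0,0)]⟩,⟨1,[(2,1),(32,0),(6,0)]⟩⟩,.a ⟨true,1,⟨18,[(0,1),(0,4),(6,1),(0,5),
  (12,5),(2,11),(3,3)]⟩,⟨0,[(2,0)]⟩⟩ ⟨true,0,⟨1,[(30,0),(0,0)]⟩,⟨0,[]⟩⟩ ⟨false,2,⟨6,[(0,1),(0,4),(6,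
  1),(0,5),(19,3),(11,0)]⟩,⟨2,[(2,2),(0,0),(23,0),(7,0)]⟩⟩,.o ⟨false,0,⟨2,[(3,0),(23,0),(7,0)]⟩,⟨3,
  [(22,0),(0,0),(17,1)]⟩⟩,.o ⟨false,0,⟨0,[(27,0),(2,0)]⟩,⟨0,[(41,0)]⟩⟩]⟩) (.K ⟨0,[0,0,0,1],0,(-1),
  (⟨0,[(25,0)]⟩,⟨0,[(24,0)]⟩),.k,(.x 0 ⟨5,[(10,1),(1,1),(4,1),(12,6),(0,2)]⟩ ⟨0,[(37,0),(3,0)]⟩),
  (.x 0 ⟨0,[(37,0)]⟩ ⟨11,[(10,3),(1,3),(9,4),(0,4),(11,1)]⟩),.k,.k,[⟨0,[(25,0)]⟩,⟨0,[(24,0)]⟩,⟨2,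
  [(1,0),(7,0),(12,0),(2,1),(18,3)]⟩,⟨0,[(0,0),(25,0),(1,0)]⟩]⟩)) (.R ⟨1,true,false,true,[1,-1],[1,
  0,0,-1],[0,1,1],(⟨0,[(35,0)]⟩,⟨0,[(36,0)]⟩),(⟨0,[(23,0)]⟩,⟨0,[(24,0)]⟩),⟨1,[(9,0),(1,0),(23,0)]⟩,
  .k,.k,(.r (-1) ⟨0,[(8,0),(34,0)]⟩ ⟨12,[(3,9),(0,1),(1,3),(3,3),(5,1),(2,1),(1,4),(0,4)]⟩),(.x 0
  ⟨5,[(9,1),(1,1),(4,1),(12,6),(0,2)]⟩ ⟨0,[(36,0),(3,0)]⟩),(.r (-1) ⟨3,[(0,1),(7,1),(13,0),(1,1),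
  (15,2),(2,1)]⟩ ⟨51,[(3,39),(0,7),(1,15),(3,15),(5,7),(2,7),(1,32),(0,6)]⟩),.k,⟨false,0,⟨4,[(0,1),
  (0,0),(2,1),(1,0),(15,0),(1,2),(12,0),(2,1)]⟩,⟨1,[(21,0),(18,0)]⟩⟩,⟨true,1,⟨0,[(24,0),(15,0)]⟩,⟨0,
  [(2,0),(20,0),(2,0)]⟩⟩,⟨true,(-1),⟨0,[(2,0),(16,0)]⟩,⟨1,[(8,0),(31,0),(2,0)]⟩⟩,⟨false,1,⟨1,[(4,0),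
  (1,0),(1,0),(8,0),(1,0),(1,0),(2,1)]⟩,⟨9,[(0,4),(0,2),(20,0),(0,1),(2,0),(2,0),(4,1),(6,4)]⟩⟩,
  ⟨false,0,⟨12,[(3,9),(0,1),(1,3),(3,3),(5,1),(2,1),(1,4),(0,4)]⟩,⟨0,[(8,0)]⟩⟩,⟨true,1,⟨5,[(4,3),(1,
  1),(7,1),(4,1),(1,2),(2,5),(15,2)]⟩,⟨0,[(0,0)]⟩⟩,[]⟩)) (.Q [0,-1,1,-2,0,0,0,0,1,0,0,-1] (.p false
  [0,0,0,1] [] (⟨0,[(23,0)]⟩,⟨0,[(22,0)]⟩) .k 0 (⟨0,[]⟩,⟨0,[]⟩) .k .k) (.I [0,0,-1,-1,1,0,0,1,-1]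
  (.I [1,-1,-2,-1,1,0,0,0,1] (.Q [0,0,0,-1,0,0,-1,-1,0,0,1,-1] (.p true [0,0,1] [0,0,0,1] (⟨0,[(35,
  0)]⟩,⟨0,[(34,0)]⟩) .k 2 (⟨0,[(26,0)]⟩,⟨0,[(25,0)]⟩) .k (.r (-1) ⟨5,[(1,1),(7,1),(8,1),(4,2),(0,
  0)]⟩ ⟨0,[(0,0),(4,0),(39,0)]⟩)) (.I [0,0,1,1,0,0,0,1,-1] (.R ⟨1,false,false,false,[1,0,0,-1],[1,
  -1,-1],[1,0,0,0,0,0,0,0,-1],(⟨0,[(27,0)]⟩,⟨0,[(28,0)]⟩),(⟨0,[(22,0)]⟩,⟨0,[(37,0),(2,0)]⟩),⟨2,[(1,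
  1),(8,0),(2,0),(1,0),(11,0)]⟩,.k,.k,(.x (-1) ⟨11,[(13,3),(1,3),(9,4),(0,4),(11,1)]⟩ ⟨0,[(40,0)]⟩),
  (.r 0 ⟨0,[(0,0)]⟩ ⟨3,[(12,1),(11,0),(1,1),(2,0),(2,0),(2,1)]⟩),.k,.k,⟨true,0,⟨0,[(0,0)]⟩,⟨0,[(2,
  0),(3,0),(25,0)]⟩⟩,⟨false,0,⟨0,[(27,0),(2,0)]⟩,⟨5,[(12,1),(4,3),(6,0),(3,5),(0,0),(1,0),(12,3)]⟩⟩,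
  ⟨true,0,⟨0,[]⟩,⟨0,[(47,0)]⟩⟩,⟨false,0,⟨8,[(1,3),(0,3),(1,2),(2,4),(12,1),(5,0),(0,1),(6,0),(6,
  0)]⟩,⟨3,[(5,1),(4,1),(14,0),(2,1),(15,0)]⟩⟩,⟨false,1,⟨23,[(8,7),(1,3),(7,3),(4,3),(1,2),(0,2),(18,
  17)]⟩,⟨0,[(43,0)]⟩⟩,⟨false,0,⟨34,[(2,20),(1,9),(2,22),(0,14),(5,2),(5,9),(5,1),(0,24),(13,7)]⟩,⟨3,
  [(3,1),(1,1),(4,0),(13,0),(3,1)]⟩⟩,[.e ⟨false,1,⟨1,[(25,0),(18,0)]⟩,⟨0,[(2,0),(3,0),(16,0)]⟩⟩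
  ⟨false,0,⟨0,[(1,0)]⟩,⟨3,[(5,1),(4,1),(15,0),(1,1),(15,0)]⟩⟩,.o ⟨false,1,⟨35,[(4,13),(0,13),(6,3),
  (7,7),(0,15),(10,19),(5,6),(6,10)]⟩,⟨0,[(16,0)]⟩⟩,.o ⟨false,1,⟨13,[(2,3),(2,5),(2,1),(7,1),(9,0),
  (1,7),(9,2)]⟩,⟨2,[(6,0),(20,2),(2,0),(7,0)]⟩⟩,.a ⟨true,0,⟨0,[(28,0)]⟩,⟨0,[(27,0)]⟩⟩ ⟨false,1,⟨5,
  [(0,3),(11,1),(8,3),(3,0),(18,2)]⟩,⟨7,[(2,0),(1,0),(1,2),(2,0),(10,0),(2,1),(2,2),(1,0)]⟩⟩ ⟨true,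
  0,⟨0,[(1,0)]⟩,⟨0,[(16,0),(11,0)]⟩⟩]⟩) (.R ⟨1,false,false,false,[1,0,0,-1],[1,-1,-1],[0,1,0,-1,0,0,
  0,0,-1],(⟨0,[(27,0)]⟩,⟨0,[(28,0)]⟩),(⟨0,[(22,0)]⟩,⟨0,[(37,0),(2,0)]⟩),⟨2,[(1,1),(8,0),(2,0),(1,0),
  (11,0)]⟩,.k,.k,(.x (-1) ⟨11,[(13,3),(1,3),(9,4),(0,4),(11,1)]⟩ ⟨0,[(40,0)]⟩),(.x (-1) ⟨5,[(12,1),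
  (4,3),(6,0),(4,0),(1,0),(5,5),(2,5),(3,3)]⟩ ⟨5,[(15,1),(3,1),(0,1),(12,4),(0,2)]⟩),.k,.k,⟨true,0,
  ⟨0,[(3,0),(2,0),(16,0)]⟩,⟨0,[(2,0),(4,0)]⟩⟩,⟨false,0,⟨0,[(27,0),(2,0)]⟩,⟨3,[(0,1),(4,1),(4,0),(13,
  0),(3,1),(15,1)]⟩⟩,⟨false,0,⟨0,[(43,0)]⟩,⟨23,[(8,7),(1,3),(7,3),(4,3),(1,2),(0,2),(18,17)]⟩⟩,
  ⟨false,0,⟨10,[(0,1),(0,4),(0,1),(1,2),(2,3),(12,2),(5,1),(0,2),(13,2)]⟩,⟨3,[(5,1),(4,1),(14,0),(2,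
  1),(15,0)]⟩⟩,⟨true,0,⟨0,[(47,0)]⟩,⟨0,[]⟩⟩,⟨false,0,⟨34,[(2,20),(1,9),(2,22),(0,14),(5,2),(5,9),(5,
  1),(0,24),(13,7)]⟩,⟨3,[(3,1),(1,1),(4,0),(13,0),(3,1)]⟩⟩,[.e ⟨false,1,⟨1,[(12,0),(12,0),(21,2)]⟩,
  ⟨0,[(0,0),(9,0),(9,0),(0,0)]⟩⟩ ⟨false,0,⟨0,[(1,0)]⟩,⟨3,[(5,1),(4,1),(15,0),(1,1),(15,0)]⟩⟩,.o
  ⟨false,1,⟨35,[(4,13),(0,13),(6,3),(7,7),(0,15),(10,19),(5,6),(6,10)]⟩,⟨0,[(16,0)]⟩⟩,.o ⟨false,1,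
  ⟨13,[(2,3),(2,5),(2,1),(7,1),(9,0),(1,7),(9,2)]⟩,⟨2,[(6,0),(20,2),(2,0),(7,0)]⟩⟩,.a ⟨true,0,⟨0,
  [(28,0)]⟩,⟨0,[(27,0)]⟩⟩ ⟨false,1,⟨1,[(12,0),(12,0),(21,0)]⟩,⟨17,[(0,2),(1,6),(4,10),(0,0),(1,0),
  (3,12),(8,0),(2,3)]⟩⟩ ⟨true,0,⟨0,[(1,0)]⟩,⟨0,[(16,0),(11,0)]⟩⟩]⟩)) (.Q [0,0,0,0,0,-1,0,0,0,0,0,1]
  (.ed false [1,-1,0,1] .k) (.R ⟨1,false,false,false,[0,0,0,1],[0,-1,1],[1,0,0,0,0,0,0,0,1],(⟨0,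
  [(28,0)]⟩,⟨0,[(27,0)]⟩),(⟨0,[(13,0)]⟩,⟨0,[(36,0),(3,0)]⟩),⟨0,[(0,0)]⟩,.k,.k,(.x 0 ⟨5,[(13,1),(1,
  1),(4,1),(12,6),(0,2)]⟩ ⟨0,[(40,0),(3,0)]⟩),(.r 0 ⟨3,[(7,1),(0,0),(9,0),(2,0),(4,1)]⟩ ⟨0,[(3,
  0)]⟩),.k,.k,⟨false,0,⟨0,[(2,0),(4,0),(34,0)]⟩,⟨0,[(3,0)]⟩⟩,⟨true,0,⟨3,[(1,0),(4,0),(5,0),(4,0),(6,
  0),(3,2),(0,0)]⟩,⟨0,[(27,0),(2,0)]⟩⟩,⟨true,0,⟨0,[]⟩,⟨0,[(47,0)]⟩⟩,⟨false,1,⟨2,[(1,1),(1,2),(2,0),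
  (5,0),(8,1),(6,0)]⟩,⟨34,[(2,13),(1,4),(2,21),(0,24),(1,2),(3,5),(5,7),(5,7),(0,29)]⟩⟩,⟨false,1,
  ⟨23,[(8,7),(1,3),(7,3),(4,3),(1,2),(0,2),(18,17)]⟩,⟨0,[(43,0)]⟩⟩,⟨false,1,⟨0,[(1,0),(1,0),(17,
  0)]⟩,⟨8,[(2,1),(1,2),(2,3),(0,3),(11,1),(5,1),(0,5),(4,0)]⟩⟩,[.a ⟨true,0,⟨1,[(11,0),(15,0),(0,0),
  (14,2)]⟩,⟨0,[(21,0),(1,0)]⟩⟩ ⟨true,0,⟨0,[(2,0),(3,0),(16,0)]⟩,⟨0,[(3,0),(3,0)]⟩⟩ ⟨false,1,⟨2,[(1,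
  0),(10,1),(15,1),(2,1),(12,0)]⟩,⟨9,[(7,3),(0,5),(11,1),(6,9),(10,0),(6,2)]⟩⟩,.o ⟨false,1,⟨37,[(1,
  7),(1,13),(0,15),(0,7),(5,7),(0,3),(13,2),(6,13),(11,8)]⟩,⟨0,[(8,0)]⟩⟩,.o ⟨false,0,⟨2,[(6,0),(20,
  2),(2,0),(7,0)]⟩,⟨7,[(1,1),(0,1),(2,3),(20,0),(1,1),(0,1),(8,0)]⟩⟩,.o ⟨false,0,⟨0,[(27,0),(2,0),
  (2,0)]⟩,⟨0,[(1,0),(6,0),(3,0)]⟩⟩]⟩) (.R ⟨0,false,false,false,[0,0,0,1],[0,-1,1],[1,0,0,0,0,0,0,0,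
  1],(⟨0,[(28,0)]⟩,⟨0,[(27,0)]⟩),(⟨0,[(13,0)]⟩,⟨0,[(36,0),(3,0)]⟩),⟨0,[(0,0)]⟩,.k,.k,(.x 0 ⟨5,[(13,
  1),(1,1),(4,1),(12,6),(0,2)]⟩ ⟨0,[(40,0),(3,0)]⟩),(.r 0 ⟨3,[(7,1),(0,0),(9,0),(2,0),(4,1)]⟩ ⟨0,
  [(3,0)]⟩),.k,.k,⟨false,0,⟨0,[(2,0),(4,0),(34,0)]⟩,⟨0,[(3,0)]⟩⟩,⟨true,0,⟨3,[(1,0),(4,0),(5,0),(4,
  0),(6,0),(3,2),(0,0)]⟩,⟨0,[(27,0),(2,0)]⟩⟩,⟨true,0,⟨0,[]⟩,⟨0,[(47,0)]⟩⟩,⟨false,1,⟨2,[(1,1),(1,2),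
  (2,0),(5,0),(8,1),(6,0)]⟩,⟨34,[(2,13),(1,4),(2,21),(0,24),(1,2),(3,5),(5,7),(5,7),(0,29)]⟩⟩,
  ⟨false,0,⟨0,[]⟩,⟨0,[]⟩⟩,⟨false,0,⟨0,[]⟩,⟨0,[]⟩⟩,[.a ⟨true,0,⟨1,[(11,0),(15,0),(0,0),(14,2)]⟩,⟨0,
  [(21,0),(1,0)]⟩⟩ ⟨true,0,⟨0,[(2,0),(3,0),(16,0)]⟩,⟨0,[(3,0),(3,0)]⟩⟩ ⟨false,1,⟨2,[(1,0),(10,1),
  (15,1),(2,1),(12,0)]⟩,⟨9,[(7,3),(0,5),(11,1),(6,9),(10,0),(6,2)]⟩⟩,.o ⟨false,1,⟨37,[(1,7),(1,13),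
  (0,15),(0,7),(5,7),(0,3),(13,2),(6,13),(11,8)]⟩,⟨0,[(8,0)]⟩⟩,.o ⟨false,0,⟨2,[(6,0),(20,2),(2,0),
  (7,0)]⟩,⟨7,[(1,1),(0,1),(2,3),(20,0),(1,1),(0,1),(8,0)]⟩⟩,.o ⟨false,0,⟨0,[(27,0),(2,0),(2,0)]⟩,⟨0,
  [(1,0),(6,0),(3,0)]⟩⟩]⟩))) (.I [1,0,1,2,0,0,0,1,1] (.Q [0,0,0,0,0,0,1,1,0,1,-1,-1] (.p false [0,0,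
  1] [1,0,0,-1] (⟨0,[(36,0)]⟩,⟨0,[(35,0)]⟩) .k 2 (⟨0,[(26,0)]⟩,⟨0,[(27,0)]⟩) .k (.r (-1) ⟨2,[(2,0),
  (7,0),(8,0),(5,1)]⟩ ⟨1,[(1,1),(9,0),(8,0),(13,0),(8,0)]⟩)) (.Q [0,0,0,0,0,-1,0,0,0,1,0,-1] (.ed
  true [0,1,0,1] .k) (.R ⟨1,false,false,true,[1,0,0,-1],[0,1],[0,1,0,-1,0,0,0,0,-1],(⟨0,[(28,0)]⟩,
  ⟨0,[(29,0)]⟩),(⟨0,[(41,0)]⟩,⟨0,[(40,0)]⟩),⟨0,[(0,0)]⟩,.k,.k,(.x (-1) ⟨11,[(14,3),(1,3),(9,4),(0,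
  4),(11,1)]⟩ ⟨0,[(41,0)]⟩),(.x (-1) ⟨11,[(14,3),(1,3),(9,4),(0,4),(11,1)]⟩ ⟨0,[(41,0)]⟩),(.r (-1)
  ⟨1,[(3,1),(9,2),(31,0),(2,0)]⟩ ⟨11,[(2,7),(5,7),(17,2),(0,4)]⟩),.k,⟨false,1,⟨1,[(3,1),(9,2),(31,
  0),(2,0)]⟩,⟨11,[(2,7),(5,1),(0,2),(9,2),(2,2),(4,1)]⟩⟩,⟨true,0,⟨0,[(28,0)]⟩,⟨2,[(7,0),(21,2),(1,
  0),(7,0)]⟩⟩,⟨false,0,⟨0,[(44,0)]⟩,⟨15,[(2,3),(6,3),(9,3),(6,2),(0,0),(17,1),(0,9)]⟩⟩,⟨false,0,⟨2,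
  [(2,0),(5,0),(18,0),(0,2)]⟩,⟨6,[(3,3),(2,2),(0,2),(1,4),(1,0),(1,10),(1,3),(6,0),(6,3)]⟩⟩,⟨true,0,
  ⟨0,[(48,0)]⟩,⟨0,[]⟩⟩,⟨false,0,⟨11,[(2,7),(5,1),(0,2),(9,2),(2,2),(4,1),(0,11)]⟩,⟨4,[(3,1),(2,2),
  (0,2),(1,0),(3,6),(1,0),(5,0),(7,1)]⟩⟩,[.o ⟨false,0,⟨0,[(43,0)]⟩,⟨3,[(5,1),(0,1),(32,0),(6,0)]⟩⟩,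
  .a ⟨true,0,⟨3,[(11,0),(10,1),(1,1),(3,2),(0,2)]⟩,⟨0,[(44,0)]⟩⟩ ⟨true,0,⟨0,[(3,0),(9,0)]⟩,⟨2,[(2,
  0),(5,0),(18,0)]⟩⟩ ⟨false,0,⟨0,[(1,0),(20,0),(1,0)]⟩,⟨9,[(6,1),(6,3),(13,0),(1,7),(0,1),(1,1),(6,
  2),(4,1)]⟩⟩,.o ⟨false,1,⟨1,[(29,1),(9,0),(5,0)]⟩,⟨10,[(1,1),(1,1),(1,1),(2,1),(12,0),(6,6),(10,
  3)]⟩⟩,.e ⟨false,1,⟨1,[(13,0),(12,0),(21,0)]⟩,⟨3,[(2,2),(2,0),(16,2),(6,0)]⟩⟩ ⟨false,0,⟨0,[(1,0),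
  (20,0),(1,0)]⟩,⟨3,[(5,1),(0,1),(22,3),(9,0),(6,0)]⟩⟩]⟩) (.I [1,0,0,0,0,0,0,0,-1] (.I [0,0,0,0,0,0,
  0,0,-1] (.R ⟨0,false,false,true,[1,0,0,-1],[0,1],[0,1,0,0,0,0,0,0,-1],(⟨0,[(30,0)]⟩,⟨0,[(31,0)]⟩),
  (⟨0,[(43,0)]⟩,⟨0,[(42,0)]⟩),⟨0,[(2,0)]⟩,.k,.k,(.x (-1) ⟨11,[(16,3),(1,3),(9,4),(0,4),(11,1)]⟩ ⟨0,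
  [(43,0)]⟩),(.x (-1) ⟨11,[(16,3),(1,3),(9,4),(0,4),(11,1)]⟩ ⟨0,[(43,0)]⟩),.k,.k,⟨false,1,⟨1,[(0,1),
  (14,0),(31,0),(2,0)]⟩,⟨2,[(4,0),(5,0),(18,0)]⟩⟩,⟨true,0,⟨0,[(30,0)]⟩,⟨2,[(9,0),(21,2),(1,0),(7,
  0)]⟩⟩,⟨true,0,⟨0,[(50,0)]⟩,⟨0,[]⟩⟩,⟨false,0,⟨2,[(4,0),(5,0),(18,0),(0,2)]⟩,⟨7,[(0,2),(1,2),(5,4),
  (0,0),(5,3),(0,0),(1,0),(14,0),(10,1)]⟩⟩,⟨false,0,⟨0,[]⟩,⟨0,[]⟩⟩,⟨false,0,⟨0,[]⟩,⟨0,[]⟩⟩,[.o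
  ⟨false,0,⟨0,[(45,0)]⟩,⟨3,[(7,1),(0,1),(32,0),(6,0)]⟩⟩,.a ⟨true,0,⟨3,[(13,0),(10,1),(1,1),(3,2),(0,
  2)]⟩,⟨0,[(46,0)]⟩⟩ ⟨true,0,⟨0,[(0,0)]⟩,⟨3,[(4,0),(2,0),(1,0),(19,0),(1,0),(3,0)]⟩⟩ ⟨false,0,⟨0,
  [(3,0),(20,0),(1,0)]⟩,⟨9,[(8,1),(6,3),(13,0),(1,7),(0,1),(1,1),(6,2),(4,1)]⟩⟩,.o ⟨false,1,⟨1,[(31,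
  1),(9,0),(5,0)]⟩,⟨10,[(3,1),(1,1),(1,1),(2,1),(12,0),(6,6),(10,3)]⟩⟩,.e ⟨false,1,⟨1,[(28,0),(18,
  0)]⟩,⟨1,[(4,0),(2,0),(16,0),(6,0)]⟩⟩ ⟨false,0,⟨0,[(3,0),(20,0),(1,0)]⟩,⟨3,[(7,1),(0,1),(22,3),(9,
  0),(6,0)]⟩⟩]⟩) (.N [0,0,0,1] 0 ⟨0,[(0,0)]⟩ ⟨0,[(1,0)]⟩ .k)) (.R ⟨0,false,false,false,[1,0,0,-1],
  [0,0,1],[1,0,0,0,0,0,0,0,-1],(⟨0,[(29,0)]⟩,⟨0,[(30,0)]⟩),(⟨0,[(39,0)]⟩,⟨0,[(38,0)]⟩),⟨0,[(1,0)]⟩,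
  .k,.k,(.x (-1) ⟨11,[(15,3),(1,3),(9,4),(0,4),(11,1)]⟩ ⟨0,[(42,0)]⟩),.k,.k,.k,⟨true,0,⟨1,[(4,1),(9,
  0),(8,0),(13,0),(8,0)]⟩,⟨6,[(0,3),(2,0),(2,1),(6,1),(8,1),(7,1),(2,1),(2,1)]⟩⟩,⟨false,0,⟨0,[(2,0),
  (34,0)]⟩,⟨1,[(0,0),(6,0),(14,0),(7,0),(15,0)]⟩⟩,⟨true,0,⟨0,[]⟩,⟨0,[(49,0)]⟩⟩,⟨false,0,⟨12,[(0,2),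
  (2,0),(2,6),(4,0),(0,4),(0,0),(14,0),(0,5),(13,2)]⟩,⟨7,[(4,0),(2,6),(6,1),(7,0),(0,4),(1,2),(4,0),
  (3,2)]⟩⟩,⟨false,0,⟨0,[]⟩,⟨0,[]⟩⟩,⟨false,0,⟨0,[]⟩,⟨0,[]⟩⟩,[.e ⟨false,1,⟨1,[(27,0),(18,0)]⟩,⟨0,[(0,
  0)]⟩⟩ ⟨false,0,⟨0,[(2,0)]⟩,⟨9,[(7,1),(2,7),(3,3),(13,0),(1,7),(3,1),(12,2)]⟩⟩,.o ⟨false,1,⟨19,[(5,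
  3),(0,1),(0,1),(5,7),(14,1),(6,3),(4,2),(6,8)]⟩,⟨0,[(31,0)]⟩⟩,.o ⟨false,1,⟨0,[(0,0),(6,0)]⟩,⟨10,
  [(2,1),(1,1),(1,1),(2,1),(12,0),(6,6),(10,3)]⟩⟩,.a ⟨true,0,⟨0,[(30,0)]⟩,⟨0,[(29,0)]⟩⟩ ⟨false,1,⟨3,
  [(4,1),(9,1),(1,1),(6,1),(3,0),(18,2)]⟩,⟨10,[(0,1),(5,0),(1,1),(2,1),(10,1),(5,3),(1,0),(18,0)]⟩⟩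
  ⟨true,0,⟨0,[(2,0)]⟩,⟨0,[(30,0),(0,0)]⟩⟩]⟩))) (.Q [0,0,0,0,0,-1,0,0,0,1,0,-1] (.ed true [0,1,0,1]
  .k) (.R ⟨1,false,false,true,[1,0,0,-1],[0,0,1],[0,1,0,-1,0,0,0,0,-1],(⟨0,[(28,0)]⟩,⟨0,[(29,0)]⟩),
  (⟨0,[(38,0)]⟩,⟨0,[(37,0)]⟩),⟨0,[(0,0)]⟩,.k,.k,(.x (-1) ⟨11,[(14,3),(1,3),(9,4),(0,4),(11,1)]⟩ ⟨0,
  [(41,0)]⟩),.k,(.r (-1) ⟨3,[(13,1),(11,0),(0,1),(3,0),(2,0),(2,1)]⟩ ⟨0,[(2,0),(41,0)]⟩),.k,⟨true,0,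
  ⟨0,[(3,0),(9,0),(22,0)]⟩,⟨0,[(2,0),(41,0)]⟩⟩,⟨false,0,⟨7,[(7,1),(5,1),(4,3),(6,0),(2,7),(1,0),(1,
  0)]⟩,⟨13,[(1,3),(0,1),(3,3),(6,1),(7,5),(5,0),(1,5),(2,1),(12,6)]⟩⟩,⟨false,0,⟨0,[(44,0)]⟩,⟨15,[(2,
  3),(6,3),(9,3),(6,2),(0,0),(17,1),(0,9)]⟩⟩,⟨false,0,⟨4,[(2,0),(2,1),(4,0),(1,0),(14,0),(0,2),(3,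
  1)]⟩,⟨2,[(1,0),(1,0),(2,1),(6,1),(1,0),(6,2),(1,1)]⟩⟩,⟨true,0,⟨0,[(48,0)]⟩,⟨0,[]⟩⟩,⟨false,0,⟨8,
  [(2,1),(2,2),(2,1),(2,2),(5,2),(9,1),(0,5)]⟩,⟨3,[(1,2),(1,0),(2,0),(6,2),(8,0),(1,0),(1,0),(15,
  0)]⟩⟩,[.o ⟨false,0,⟨0,[(32,0)]⟩,⟨0,[(30,0),(15,0)]⟩⟩,.e ⟨true,0,⟨0,[(3,0),(9,0)]⟩,⟨2,[(2,0),(5,0),
  (18,0)]⟩⟩ ⟨true,0,⟨27,[(3,7),(1,11),(5,3),(0,7),(13,4),(0,2),(0,15),(3,3)]⟩,⟨0,[(1,0)]⟩⟩,.o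
  ⟨false,1,⟨13,[(1,7),(4,5),(4,1),(1,3),(3,3),(9,2),(11,0)]⟩,⟨8,[(3,1),(1,1),(1,0),(1,0),(5,0),(12,
  6),(10,2)]⟩⟩,.a ⟨true,0,⟨0,[(29,0)]⟩,⟨0,[(28,0)]⟩⟩ ⟨false,1,⟨1,[(13,0),(12,0),(21,0)]⟩,⟨3,[(2,2),
  (2,0),(16,2),(6,0)]⟩⟩ ⟨true,0,⟨0,[(28,0),(3,0)]⟩,⟨0,[(1,0)]⟩⟩]⟩) (.I [0,0,-2,-2,1,0,0,0,1] (.R ⟨1,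
  false,false,false,[0,0,0,1],[0,0,1],[0,1,0,-1,0,0,0,0,1],(⟨0,[(30,0)]⟩,⟨0,[(29,0)]⟩),(⟨0,[(39,
  0)]⟩,⟨0,[(38,0)]⟩),⟨1,[(1,0),(13,0),(1,0),(12,0)]⟩,.k,.k,(.r (-1) ⟨7,[(0,3),(26,0),(0,2)]⟩ ⟨20,
  [(4,4),(4,2),(0,1),(1,1),(3,4),(6,3),(1,1),(1,7)]⟩),.k,(.r (-1) ⟨7,[(0,3),(26,0),(0,2),(8,7)]⟩ ⟨2,
  [(4,1),(0,0),(10,1),(29,0)]⟩),.k,⟨true,0,⟨0,[(0,0),(8,0),(39,0)]⟩,⟨0,[(4,0),(7,0),(1,0),(7,0),(0,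
  0)]⟩⟩,⟨false,1,⟨3,[(2,0),(11,0),(4,1),(6,0),(3,2),(2,0),(12,2)]⟩,⟨12,[(4,1),(1,1),(3,0),(5,0),(5,
  5),(6,10),(10,1)]⟩⟩,⟨false,0,⟨0,[(45,0)]⟩,⟨15,[(3,3),(6,3),(9,3),(6,2),(0,0),(17,1),(0,9)]⟩⟩,
  ⟨false,1,⟨6,[(2,0),(1,1),(2,2),(4,3),(1,4),(12,0),(2,2),(12,1)]⟩,⟨4,[(3,1),(2,2),(3,1),(12,1),(5,
  1),(4,2)]⟩⟩,⟨true,0,⟨0,[(49,0)]⟩,⟨0,[]⟩⟩,⟨false,1,⟨3,[(2,2),(1,0),(2,0),(4,3),(1,2),(8,0),(1,0),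
  (1,0),(15,0)]⟩,⟨4,[(3,0),(2,3),(3,0),(12,0),(5,0),(4,3)]⟩⟩,[.a ⟨true,0,⟨1,[(13,0),(15,0),(0,0),
  (14,0)]⟩,⟨0,[(2,0),(26,0)]⟩⟩ ⟨true,0,⟨0,[(0,0),(7,0),(16,0)]⟩,⟨7,[(4,5),(9,1),(1,5),(6,5),(3,0),
  (18,2)]⟩⟩ ⟨false,1,⟨2,[(2,0),(9,0),(1,1),(3,1),(11,1),(15,0)]⟩,⟨51,[(6,17),(2,11),(0,23),(11,9),
  (0,7),(3,8),(1,33),(4,7),(12,2)]⟩⟩,.o ⟨false,1,⟨19,[(5,3),(0,1),(0,1),(5,7),(14,1),(6,3),(4,2),(6,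
  8)]⟩,⟨0,[(31,0)]⟩⟩,.o ⟨false,0,⟨8,[(4,1),(1,1),(1,0),(1,0),(5,0),(12,6),(10,2)]⟩,⟨7,[(0,1),(1,3),
  (4,3),(4,1),(15,0),(11,0)]⟩⟩,.o ⟨false,0,⟨11,[(3,1),(0,5),(1,5),(2,1),(17,2),(0,1),(0,5),(10,2)]⟩,
  ⟨1,[(2,1),(7,0),(1,0),(1,1),(3,0)]⟩⟩]⟩) (.R ⟨0,false,false,true,[1,0,0,-1],[0,0,1],[1,0,0,0,0,0,0,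
  0,-1],(⟨0,[(29,0)]⟩,⟨0,[(30,0)]⟩),(⟨0,[(39,0)]⟩,⟨0,[(38,0)]⟩),⟨0,[(1,0)]⟩,.k,.k,(.x (-1) ⟨11,[(15,
  3),(1,3),(9,4),(0,4),(11,1)]⟩ ⟨0,[(42,0)]⟩),.k,.k,.k,⟨true,0,⟨0,[(0,0),(13,0),(22,0)]⟩,⟨13,[(3,2),
  (2,8),(1,0),(16,11),(2,0),(1,8),(2,10)]⟩⟩,⟨false,0,⟨7,[(8,1),(5,1),(4,3),(6,0),(2,7),(1,0),(1,
  0)]⟩,⟨13,[(2,3),(0,1),(3,3),(6,1),(7,5),(5,0),(1,5),(2,1),(12,6)]⟩⟩,⟨true,0,⟨0,[]⟩,⟨0,[(49,0)]⟩⟩,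
  ⟨false,0,⟨4,[(3,0),(2,1),(4,0),(1,0),(14,0),(0,2),(3,1)]⟩,⟨3,[(0,1),(1,3),(11,1),(12,0),(18,1),(0,
  0)]⟩⟩,⟨false,0,⟨0,[]⟩,⟨0,[]⟩⟩,⟨false,0,⟨0,[]⟩,⟨0,[]⟩⟩,[.o ⟨false,0,⟨0,[(33,0)]⟩,⟨0,[(31,0),(15,
  0)]⟩⟩,.e ⟨true,0,⟨0,[(0,0),(13,0)]⟩,⟨4,[(6,0),(1,1),(16,1),(2,1),(1,0),(18,3)]⟩⟩ ⟨true,0,⟨27,[(4,
  7),(1,11),(5,3),(0,7),(13,4),(0,2),(0,15),(3,3)]⟩,⟨0,[(2,0)]⟩⟩,.o ⟨false,1,⟨13,[(2,7),(4,5),(4,1),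
  (1,3),(3,3),(9,2),(11,0)]⟩,⟨31,[(0,2),(2,0),(0,6),(1,8),(2,0),(0,0),(7,0),(10,22),(10,10)]⟩⟩,.a
  ⟨true,0,⟨0,[(30,0)]⟩,⟨0,[(29,0)]⟩⟩ ⟨false,1,⟨3,[(0,1),(13,1),(12,0),(18,1),(0,0)]⟩,⟨3,[(3,0),(2,
  0),(1,0),(19,0),(1,0),(3,0)]⟩⟩ ⟨true,0,⟨0,[(29,0),(3,0)]⟩,⟨0,[(2,0)]⟩⟩]⟩)))) (.Q [0,0,0,0,0,-1,0,
  0,0,1,0,-1] (.ed true [0,1,0,1] .k) (.R ⟨1,false,false,true,[1,0,0,-1],[0,-1,1],[1,0,0,0,0,0,0,0,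
  -1],(⟨0,[(27,0)]⟩,⟨0,[(28,0)]⟩),(⟨0,[(13,0)]⟩,⟨0,[(36,0),(3,0)]⟩),⟨0,[(0,0)]⟩,.k,.k,(.x (-1) ⟨11,
  [(13,3),(1,3),(9,4),(0,4),(11,1)]⟩ ⟨0,[(40,0)]⟩),(.r 0 ⟨3,[(7,1),(0,0),(9,0),(2,0),(3,1)]⟩ ⟨1,[(4,
  1),(3,0),(1,0),(1,1),(3,0),(6,1),(4,1)]⟩),.k,.k,⟨false,0,⟨14,[(1,11),(0,0),(5,6),(1,6),(3,9),(6,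
  19),(1,6),(1,0)]⟩,⟨2,[(4,0),(7,1),(10,2),(2,0),(1,0),(2,2)]⟩⟩,⟨true,(-1),⟨0,[(6,0),(20,0)]⟩,⟨3,
  [(20,1),(7,3),(9,0),(5,2)]⟩⟩,⟨true,0,⟨0,[]⟩,⟨0,[(47,0)]⟩⟩,⟨false,0,⟨11,[(4,9),(4,0),(1,5),(11,0),
  (2,0),(0,4),(0,2),(18,8)]⟩,⟨1,[(1,0),(3,0),(2,0),(5,1),(6,1),(1,0),(4,0),(15,0)]⟩⟩,⟨false,1,⟨23,
  [(8,7),(1,3),(7,3),(4,3),(1,2),(0,2),(18,17)]⟩,⟨0,[(43,0)]⟩⟩,⟨false,0,⟨8,[(4,4),(4,1),(0,2),(12,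
  1),(2,1),(0,3),(3,2)]⟩,⟨2,[(1,0),(3,1),(8,0),(5,0),(0,2),(1,0),(4,0),(15,0)]⟩⟩,[.o ⟨false,0,⟨0,
  [(31,0),(11,0)]⟩,⟨0,[(8,0),(36,0)]⟩⟩,.a ⟨true,0,⟨1,[(11,0),(15,0),(0,0),(14,2)]⟩,⟨0,[(21,0),(1,
  0)]⟩⟩ ⟨true,0,⟨0,[(1,0),(8,0),(9,0),(0,0)]⟩,⟨4,[(4,0),(1,1),(16,1),(2,1),(1,0),(18,3)]⟩⟩ ⟨false,0,
  ⟨0,[(1,0),(2,0),(5,0),(12,0)]⟩,⟨1,[(8,1),(19,1),(15,0),(0,0)]⟩⟩,.o ⟨false,1,⟨1,[(28,1),(9,0),(5,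
  0)]⟩,⟨8,[(2,1),(1,1),(1,0),(1,0),(5,0),(12,6),(10,2)]⟩⟩,.e ⟨false,1,⟨2,[(1,0),(12,1),(6,0),(3,0),
  (18,1)]⟩,⟨6,[(4,2),(1,0),(0,0),(0,0),(1,0),(12,1),(2,1),(1,2)]⟩⟩ ⟨false,0,⟨0,[(1,0),(2,0),(5,0),
  (12,0)]⟩,⟨0,[(8,0),(19,0),(16,0)]⟩⟩]⟩) (.R ⟨0,false,false,true,[1,0,0,-1],[0,-1,1],[1,0,0,0,0,0,0,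
  0,-1],(⟨0,[(27,0)]⟩,⟨0,[(28,0)]⟩),(⟨0,[(13,0)]⟩,⟨0,[(36,0),(3,0)]⟩),⟨0,[(0,0)]⟩,.k,.k,(.x (-1)
  ⟨11,[(13,3),(1,3),(9,4),(0,4),(11,1)]⟩ ⟨0,[(40,0)]⟩),(.r 0 ⟨3,[(7,1),(0,0),(9,0),(2,0),(3,1)]⟩
  ⟨16,[(0,8),(3,8),(5,3),(0,1),(0,12),(0,2),(1,2),(7,16),(2,3),(4,4)]⟩),.k,.k,⟨false,0,⟨14,[(1,11),
  (0,0),(5,6),(1,6),(3,9),(6,19),(1,6),(1,0)]⟩,⟨2,[(4,0),(7,1),(10,2),(2,0),(1,0),(2,2)]⟩⟩,⟨true,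
  (-1),⟨0,[(6,0),(20,0)]⟩,⟨7,[(0,2),(4,1),(7,0),(1,0),(4,3),(5,0),(1,2),(15,4)]⟩⟩,⟨true,0,⟨0,[]⟩,⟨0,
  [(47,0)]⟩⟩,⟨false,0,⟨11,[(4,9),(4,0),(1,5),(11,0),(2,0),(0,4),(0,2),(18,8)]⟩,⟨7,[(0,2),(0,2),(3,
  4),(2,0),(4,0),(0,5),(0,0),(5,9),(1,6),(20,2)]⟩⟩,⟨false,0,⟨0,[]⟩,⟨0,[]⟩⟩,⟨false,0,⟨0,[]⟩,⟨0,[]⟩⟩,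
  [.o ⟨false,0,⟨0,[(31,0),(11,0)]⟩,⟨0,[(8,0),(36,0)]⟩⟩,.a ⟨true,0,⟨1,[(11,0),(15,0),(0,0),(14,2)]⟩,
  ⟨0,[(21,0),(1,0)]⟩⟩ ⟨true,0,⟨0,[(1,0),(8,0),(9,0),(0,0)]⟩,⟨4,[(4,0),(1,1),(16,1),(2,1),(1,0),(18,
  3)]⟩⟩ ⟨false,0,⟨0,[(1,0),(2,0),(5,0),(12,0)]⟩,⟨1,[(8,1),(19,1),(15,0),(0,0)]⟩⟩,.o ⟨false,1,⟨9,[(0,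
  5),(4,3),(7,1),(1,1),(10,1),(11,0),(5,2)]⟩,⟨8,[(2,1),(1,1),(1,0),(1,0),(5,0),(12,6),(10,2)]⟩⟩,.e
  ⟨false,1,⟨2,[(1,0),(12,1),(6,0),(3,0),(18,1)]⟩,⟨23,[(0,2),(3,7),(1,3),(0,3),(2,1),(2,0),(1,0),(7,
  7),(2,7),(1,4)]⟩⟩ ⟨false,0,⟨0,[(1,0),(2,0),(5,0),(12,0)]⟩,⟨0,[(8,0),(19,0),(16,0)]⟩⟩]⟩)))) (.Q [0,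
  0,0,0,0,1,0,0,0,-1,0,1] (.ed false [0,1,0,1] .k) (.R ⟨0,false,false,false,[1,0,0,-1],[1,-1],[0,1,
  0,0,0,0,0,0,-1],(⟨0,[(25,0)]⟩,⟨0,[(26,0)]⟩),(⟨0,[(37,0)]⟩,⟨0,[(38,0)]⟩),⟨0,[(0,0)]⟩,.k,.k,(.x
  (-1) ⟨11,[(11,3),(1,3),(9,4),(0,4),(11,1)]⟩ ⟨0,[(38,0)]⟩),(.x (-1) ⟨0,[(38,0),(3,0)]⟩ ⟨5,[(11,1),
  (1,1),(4,1),(12,6),(0,2)]⟩),.k,.k,⟨true,0,⟨3,[(4,0),(0,0),(8,0),(6,1),(1,1),(21,0)]⟩,⟨2,[(1,1),(0,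
  0),(6,0),(0,1),(7,0),(7,0)]⟩⟩,⟨false,0,⟨2,[(4,0),(20,2),(2,0),(7,0)]⟩,⟨0,[(26,0),(15,0)]⟩⟩,⟨true,
  0,⟨0,[(45,0)]⟩,⟨0,[]⟩⟩,⟨false,0,⟨7,[(1,1),(0,5),(9,1),(12,1),(10,0),(5,0)]⟩,⟨7,[(3,1),(4,1),(10,
  3),(1,3),(1,2),(2,5),(15,2)]⟩⟩,⟨false,0,⟨0,[]⟩,⟨0,[]⟩⟩,⟨false,0,⟨0,[]⟩,⟨0,[]⟩⟩,[.a ⟨true,0,⟨0,
  [(41,0)]⟩,⟨3,[(8,0),(10,1),(1,1),(3,2),(0,2)]⟩⟩ ⟨false,1,⟨1,[(23,0),(18,0),(2,1)]⟩,⟨8,[(1,6),(7,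
  1),(0,5),(1,2),(5,1),(5,0)]⟩⟩ ⟨true,0,⟨23,[(2,5),(1,9),(5,5),(12,2),(1,17),(1,5),(0,9),(0,5),(6,
  0)]⟩,⟨7,[(0,2),(7,1),(2,0),(1,0),(5,3),(1,3),(4,4)]⟩⟩,.o ⟨false,1,⟨3,[(2,1),(0,1),(32,0),(6,0)]⟩,
  ⟨0,[(40,0)]⟩⟩,.o ⟨false,1,⟨9,[(0,5),(2,3),(7,1),(1,1),(10,1),(11,0),(5,2)]⟩,⟨2,[(4,0),(20,2),(2,
  0),(7,0)]⟩⟩,.e ⟨false,1,⟨1,[(23,0),(18,0)]⟩,⟨3,[(1,0),(0,0),(9,0),(11,0),(1,0),(12,0)]⟩⟩ ⟨false,1,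
  ⟨23,[(2,7),(7,3),(12,4),(0,0),(0,15),(10,7),(6,5)]⟩,⟨7,[(0,2),(7,1),(2,0),(1,0),(5,3),(1,3),(4,
  4)]⟩⟩]⟩) (.Q [0,0,0,0,0,0,1,1,0,0,-1,1] (.p false [0,0,1] [0,0,0,1] (⟨0,[(35,0)]⟩,⟨0,[(34,0)]⟩)
  .k 2 (⟨0,[(26,0)]⟩,⟨0,[(25,0)]⟩) .k (.r (-1) ⟨23,[(9,9),(0,5),(7,9),(2,1),(1,14),(0,2),(4,3),(2,
  1)]⟩ ⟨7,[(1,3),(8,1),(11,0),(1,1),(2,0),(2,0),(2,1)]⟩)) (.R ⟨1,false,false,false,[1,0,0,-1],[1,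
  -1],[1,1,0,0,0,0,0,0,-1],(⟨0,[(26,0)]⟩,⟨0,[(27,0)]⟩),(⟨0,[(38,0)]⟩,⟨0,[(39,0)]⟩),⟨0,[(1,0)]⟩,.k,
  .k,(.x (-1) ⟨11,[(12,3),(1,3),(9,4),(0,4),(11,1)]⟩ ⟨0,[(39,0)]⟩),(.x (-1) ⟨0,[(39,0),(3,0)]⟩ ⟨5,
  [(12,1),(1,1),(4,1),(12,6),(0,2)]⟩),.k,.k,⟨true,0,⟨3,[(5,0),(0,0),(8,0),(6,1),(1,1),(21,0)]⟩,⟨2,
  [(2,1),(0,0),(6,0),(0,1),(7,0),(7,0)]⟩⟩,⟨false,0,⟨2,[(5,0),(20,2),(2,0),(7,0)]⟩,⟨0,[(27,0),(15,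
  0)]⟩⟩,⟨false,0,⟨0,[]⟩,⟨3,[(24,0),(0,0),(18,1)]⟩⟩,⟨false,0,⟨7,[(2,1),(0,5),(9,1),(12,1),(10,0),(5,
  0)]⟩,⟨7,[(4,1),(4,1),(10,3),(1,3),(1,2),(2,5),(15,2)]⟩⟩,⟨true,0,⟨0,[(41,0)]⟩,⟨0,[(42,0)]⟩⟩,⟨false,
  0,⟨3,[(2,1),(0,1),(9,1),(12,1),(10,0),(5,0)]⟩,⟨1,[(24,0),(2,1),(15,0)]⟩⟩,[.a ⟨true,0,⟨0,[(42,0)]⟩,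
  ⟨3,[(9,0),(10,1),(1,1),(3,2),(0,2)]⟩⟩ ⟨false,1,⟨1,[(24,0),(18,0),(2,1)]⟩,⟨8,[(2,6),(7,1),(0,5),(1,
  2),(5,1),(5,0)]⟩⟩ ⟨true,0,⟨23,[(3,5),(1,9),(5,5),(12,2),(1,17),(1,5),(0,9),(0,5),(6,0)]⟩,⟨0,[(0,
  0),(19,0),(1,0)]⟩⟩,.o ⟨false,1,⟨3,[(3,1),(0,1),(32,0),(6,0)]⟩,⟨0,[(41,0)]⟩⟩,.o ⟨false,1,⟨1,[(27,
  1),(9,0),(5,0)]⟩,⟨2,[(5,0),(20,2),(2,0),(7,0)]⟩⟩,.e ⟨false,1,⟨1,[(24,0),(18,0)]⟩,⟨3,[(2,0),(0,0),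
  (9,0),(11,0),(1,0),(12,0)]⟩⟩ ⟨false,1,⟨23,[(3,7),(7,3),(12,4),(0,0),(0,15),(10,7),(6,5)]⟩,⟨0,[(0,
  0),(19,0),(1,0)]⟩⟩]⟩) (.R ⟨1,false,false,false,[1,0,0,-1],[1,0,-1],[1,1,0,0,0,0,0,0,-1],(⟨0,[(26,
  0)]⟩,⟨0,[(27,0)]⟩),(⟨0,[(35,0)]⟩,⟨0,[(36,0)]⟩),⟨0,[(1,0)]⟩,.k,.k,(.x (-1) ⟨11,[(12,3),(1,3),(9,4),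
  (0,4),(11,1)]⟩ ⟨0,[(39,0)]⟩),.k,(.x 0 ⟨7,[(5,1),(5,1),(0,7),(3,3),(6,0),(4,0),(1,0)]⟩ ⟨7,[(18,3),
  (5,2),(0,2),(13,11),(3,1)]⟩),.k,⟨false,1,⟨0,[(0,0),(3,0),(5,0),(11,0),(19,1)]⟩,⟨5,[(2,3),(8,1),(8,
  1),(4,0),(18,0)]⟩⟩,⟨true,0,⟨0,[(26,0),(2,0)]⟩,⟨4,[(2,0),(1,0),(0,0),(5,0),(4,0),(6,0),(3,3),(2,
  0)]⟩⟩,⟨false,0,⟨0,[]⟩,⟨3,[(24,0),(0,0),(18,1)]⟩⟩,⟨false,0,⟨6,[(0,4),(1,1),(0,0),(15,0),(5,1),(0,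
  0),(13,2)]⟩,⟨9,[(4,3),(5,3),(0,1),(12,2),(2,5),(2,1),(12,0)]⟩⟩,⟨true,0,⟨0,[(41,0)]⟩,⟨0,[(42,0)]⟩⟩,
  ⟨false,0,⟨3,[(0,3),(1,1),(10,1),(11,0),(18,0)]⟩,⟨2,[(4,0),(5,0),(0,0),(12,0),(2,1),(2,0),(11,
  1)]⟩⟩,[.e ⟨false,1,⟨1,[(24,0),(18,0),(2,1)]⟩,⟨8,[(2,6),(7,1),(0,5),(1,2),(5,1),(5,0)]⟩⟩ ⟨false,0,
  ⟨0,[(0,0)]⟩,⟨19,[(4,7),(5,7),(0,3),(12,0),(0,4),(1,11),(2,3),(12,1)]⟩⟩,.o ⟨false,1,⟨0,[(28,0),(15,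
  0)]⟩,⟨0,[(30,0)]⟩⟩,.o ⟨false,1,⟨1,[(27,1),(9,0),(5,0)]⟩,⟨2,[(5,0),(20,2),(2,0),(7,0)]⟩⟩,.a ⟨true,
  0,⟨0,[(27,0)]⟩,⟨0,[(26,0)]⟩⟩ ⟨false,1,⟨1,[(24,0),(18,0)]⟩,⟨3,[(2,0),(0,0),(9,0),(11,0),(1,0),(12,
  0)]⟩⟩ ⟨true,0,⟨0,[(0,0)]⟩,⟨0,[(27,0),(2,0)]⟩⟩]⟩)))) (.Q [0,1,1,0,0,0,0,0,1,0,0,-1] (.p false [0,0,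
  0,1] [] (⟨0,[(24,0)]⟩,⟨0,[(23,0)]⟩) .k 0 (⟨0,[]⟩,⟨0,[]⟩) .k .k) (.K ⟨0,[0,0,0,1],0,0,(⟨0,[(25,
  0)]⟩,⟨0,[(24,0)]⟩),.k,(.r (-1) ⟨1,[(9,0),(13,0),(20,0)]⟩ ⟨21,[(1,3),(1,4),(0,3),(0,2),(5,6),(5,0),
  (4,8),(1,3)]⟩),(.x 0 ⟨0,[(37,0)]⟩ ⟨11,[(10,3),(1,3),(9,4),(0,4),(11,1)]⟩),.k,.k,[⟨0,[(25,0)]⟩,⟨0,
  [(24,0)]⟩,⟨0,[(1,0),(38,1)]⟩,⟨0,[(0,0)]⟩]⟩) (.I [0,1,1,1,-1,0,0,0,-1] (.Q [0,0,-2,0,1,0,0,0,0,-1,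
  0,1] (.p true [0,0,0,1] [1] (⟨0,[(26,0)]⟩,⟨0,[(25,0)]⟩) .k 1 (⟨0,[]⟩,⟨0,[]⟩) .k .k) (.R ⟨1,false,
  false,true,[0,0,0,1],[0,1],[1,0,0,0,0,0,0,0,1],(⟨0,[(27,0)]⟩,⟨0,[(26,0)]⟩),(⟨0,[(39,0)]⟩,⟨0,[(38,
  0)]⟩),⟨2,[(0,0),(1,1),(2,1),(6,0),(1,0),(7,1),(2,0),(16,1)]⟩,.k,.k,(.r (-1) ⟨1,[(11,0),(13,0),(20,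
  0)]⟩ ⟨59,[(1,6),(1,0),(2,18),(0,4),(1,3),(3,15),(8,2),(1,25),(1,0)]⟩),(.r (-1) ⟨1,[(11,0),(13,0),
  (20,0)]⟩ ⟨59,[(1,6),(1,0),(2,18),(0,4),(1,3),(3,15),(8,2),(1,25),(1,0)]⟩),(.r (-2) ⟨3,[(11,3),(12,
  0),(0,2),(20,3)]⟩ ⟨14,[(1,13),(1,0),(2,4),(0,1),(1,0),(3,4),(12,0),(13,1),(3,3)]⟩),.k,⟨false,2,⟨7,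
  [(11,3),(12,0),(0,4),(17,3),(0,1)]⟩,⟨0,[(1,0)]⟩⟩,⟨true,1,⟨2,[(3,1),(7,1),(13,0),(1,0)]⟩,⟨0,[(5,0),
  (20,0),(2,0)]⟩⟩,⟨true,0,⟨0,[]⟩,⟨0,[(46,0)]⟩⟩,⟨false,0,⟨1,[(2,0),(0,0)]⟩,⟨11,[(5,3),(5,5),(13,5),
  (0,11),(2,9),(2,5),(4,0),(6,2)]⟩⟩,⟨false,1,⟨23,[(7,7),(1,3),(7,3),(4,3),(1,2),(0,2),(18,17)]⟩,⟨0,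
  [(42,0)]⟩⟩,⟨false,0,⟨2,[(2,1),(0,0),(3,0),(1,0),(10,0),(1,0)]⟩,⟨1,[(5,0),(5,1),(7,0),(5,0),(0,1),
  (2,0),(2,1)]⟩⟩,[.o ⟨false,0,⟨0,[(41,0)]⟩,⟨3,[(11,1),(17,1),(2,1),(4,0),(6,0)]⟩⟩,.a ⟨true,0,⟨3,[(2,
  1),(5,0),(8,0),(4,1),(2,0),(0,1)]⟩,⟨0,[(42,0)]⟩⟩ ⟨true,1,⟨1,[(25,0),(18,0)]⟩,⟨0,[(1,0),(40,0)]⟩⟩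
  ⟨false,1,⟨1,[(2,0),(0,0),(21,0),(17,0)]⟩,⟨2,[(5,0),(20,2),(2,0),(7,0),(4,2)]⟩⟩,.o ⟨false,0,⟨2,[(5,
  0),(20,2),(2,0),(7,0)]⟩,⟨5,[(0,1),(3,1),(20,0),(1,1),(9,0)]⟩⟩,.o ⟨false,0,⟨0,[(26,0),(2,0),(2,
  0)]⟩,⟨0,[(0,0)]⟩⟩]⟩) (.K ⟨0,[1,0,0,-1],1,0,(⟨0,[(26,0)]⟩,⟨0,[(27,0)]⟩),.k,(.x (-1) ⟨11,[(12,3),(1,
  3),(9,4),(0,4),(11,1)]⟩ ⟨0,[(39,0)]⟩),(.r 0 ⟨59,[(1,6),(1,0),(2,18),(0,4),(1,3),(3,15),(8,2),(1,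
  25),(1,0)]⟩ ⟨1,[(11,0),(13,0),(20,0)]⟩),.k,.k,[⟨0,[(0,0)]⟩,⟨2,[(3,1),(7,1),(13,0),(1,0)]⟩,⟨1,[(0,
  0),(24,0),(0,0),(19,1)]⟩,⟨0,[(2,0),(25,0),(1,0)]⟩]⟩)) (.Q [0,0,1,2,0,0,0,0,1,1,0,-1] (.p false [0,
  0,0,1] [1] (⟨0,[(26,0)]⟩,⟨0,[(25,0)]⟩) .k 1 (⟨0,[]⟩,⟨0,[]⟩) .k .k) (.R ⟨1,false,false,true,[1,-1],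
  [0,0,0,1],[0,1,1],(⟨0,[(38,0)]⟩,⟨0,[(39,0)]⟩),(⟨0,[(27,0)]⟩,⟨0,[(26,0)]⟩),⟨1,[(12,0),(1,0),(23,
  0)]⟩,.k,.k,(.r (-1) ⟨0,[(11,0),(34,0)]⟩ ⟨35,[(0,3),(2,3),(2,27),(2,11),(3,3),(5,11),(4,12),(0,12),
  (11,1)]⟩),(.x (-1) ⟨11,[(12,3),(1,3),(9,4),(0,4),(11,1)]⟩ ⟨0,[(39,0)]⟩),(.r (-1) ⟨3,[(2,1),(8,2),
  (12,0),(1,1),(1,1),(1,1),(11,1),(3,0)]⟩ ⟨17,[(0,1),(2,1),(2,13),(2,5),(3,1),(5,5),(4,1),(0,10),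
  (11,0)]⟩),.k,⟨false,0,⟨17,[(2,11),(2,3),(18,2),(1,11),(1,5),(0,3),(0,5),(6,0)]⟩,⟨1,[(25,0),(17,
  0)]⟩⟩,⟨true,0,⟨0,[(26,0)]⟩,⟨2,[(5,0),(21,2),(1,0),(7,0)]⟩⟩,⟨true,(-1),⟨0,[(5,0),(16,0)]⟩,⟨1,[(11,
  0),(31,0),(2,0)]⟩⟩,⟨false,0,⟨0,[(0,0),(41,0)]⟩,⟨5,[(2,0),(1,4),(0,1),(5,2),(7,0),(20,0)]⟩⟩,⟨false,
  0,⟨35,[(0,3),(2,3),(2,27),(2,11),(3,3),(5,11),(4,12),(0,12),(11,1)]⟩,⟨0,[(11,0)]⟩⟩,⟨false,0,⟨0,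
  [(0,0)]⟩,⟨12,[(2,1),(1,8),(0,7),(5,10),(7,3),(4,0),(2,1),(14,3)]⟩⟩,[.e ⟨false,0,⟨0,[(46,0)]⟩,⟨1,
  [(43,0),(0,0)]⟩⟩ ⟨false,1,⟨1,[(25,0),(0,1),(16,0),(2,1)]⟩,⟨2,[(2,2),(2,0),(23,0),(7,0)]⟩⟩,.a
  ⟨true,0,⟨0,[(0,0),(41,1)]⟩,⟨0,[(2,0),(43,0)]⟩⟩ ⟨true,0,⟨1,[(32,0),(0,0)]⟩,⟨0,[]⟩⟩ ⟨false,1,⟨1,
  [(25,0),(0,1),(16,0)]⟩,⟨2,[(2,1),(1,0),(0,0),(22,0),(0,0),(0,0)]⟩⟩,.o ⟨false,0,⟨2,[(5,0),(23,0),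
  (7,0)]⟩,⟨3,[(24,0),(0,0),(17,1)]⟩⟩,.o ⟨false,0,⟨0,[(29,0),(2,0)]⟩,⟨0,[(43,0)]⟩⟩]⟩) (.Q [0,-1,0,1,
  0,0,0,0,0,1] (.pp false [-1,1]) (.Q [0,1,0,-2,0,0,0,0,0,-1] (.pp true [-1,1]) (.R ⟨2,false,false,
  true,[0,1],[1,-1],[0,1],(⟨0,[]⟩,⟨0,[]⟩),(⟨0,[(40,0)]⟩,⟨0,[(41,0)]⟩),⟨0,[]⟩,.k,.k,.k,(.r 0 ⟨12,[(8,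
  9),(0,1),(1,3),(3,3),(5,1),(2,1),(1,4),(0,4)]⟩ ⟨0,[(13,0),(34,0)]⟩),.k,.k,⟨true,0,⟨25,[(8,9),(0,
  1),(1,3),(3,3),(5,1),(2,1),(1,4),(0,4)]⟩,⟨0,[(44,0)]⟩⟩,⟨false,0,⟨2,[(7,0),(23,0),(7,0)]⟩,⟨3,[(1,
  0),(3,1),(6,0),(0,2),(13,0),(0,1),(4,1)]⟩⟩,⟨false,1,⟨3,[(13,1),(12,0),(0,0),(20,1)]⟩,⟨9,[(1,0),(6,
  2),(0,0),(5,3),(2,0),(27,2)]⟩⟩,⟨true,0,⟨0,[(0,0)]⟩,⟨8,[(1,5),(7,1),(1,0),(7,3),(4,3)]⟩⟩,⟨false,1,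
  ⟨3,[(26,0),(0,0),(17,1)]⟩,⟨3,[(7,0),(27,0),(6,0),(3,0)]⟩⟩,⟨false,1,⟨3,[(0,1),(25,0),(0,0),(11,0),
  (6,0)]⟩,⟨0,[(1,0)]⟩⟩,[.e ⟨true,0,⟨0,[(48,0)]⟩,⟨3,[(7,0),(27,0),(6,0),(3,0)]⟩⟩ ⟨true,0,⟨1,[(0,0),
  (30,0),(2,0),(13,0)]⟩,⟨0,[(1,0)]⟩⟩,.a ⟨true,0,⟨0,[(44,0)]⟩,⟨2,[(1,1),(10,0),(20,1)]⟩⟩ ⟨false,1,⟨3,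
  [(26,0),(0,0),(17,1)]⟩,⟨0,[]⟩⟩ ⟨true,0,⟨11,[(0,5),(6,3),(23,3),(7,0),(6,2)]⟩,⟨2,[(1,1),(10,0),(20,
  1)]⟩⟩,.o ⟨false,1,⟨3,[(26,0),(0,0),(17,1)]⟩,⟨2,[(7,0),(23,0),(7,0)]⟩⟩,.e ⟨false,1,⟨3,[(26,0),(0,
  0),(17,1)]⟩,⟨3,[(7,0),(27,0),(6,0),(3,0)]⟩⟩ ⟨false,1,⟨3,[(0,1),(25,0),(0,0),(11,0),(6,0)]⟩,⟨0,[(1,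
  0)]⟩⟩]⟩) (.Q [0,0,1,1,0,0,0,0,1,1,0,-1] (.p false [0,0,0,1] [1] (⟨0,[(29,0)]⟩,⟨0,[(28,0)]⟩) .k 1
  (⟨0,[]⟩,⟨0,[]⟩) .k .k) (.R ⟨1,true,false,true,[1,-1],[0,0,0,1],[0,1,1],(⟨0,[(41,0)]⟩,⟨0,[(42,
  0)]⟩),(⟨0,[(30,0)]⟩,⟨0,[(29,0)]⟩),⟨1,[(15,0),(1,0),(23,0)]⟩,.k,.k,(.r (-1) ⟨0,[(14,0),(34,0)]⟩
  ⟨24,[(0,1),(0,1),(4,1),(2,19),(2,9),(9,9),(4,8),(0,8),(11,1)]⟩),(.x (-1) ⟨11,[(15,3),(1,3),(9,4),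
  (0,4),(11,1)]⟩ ⟨0,[(42,0)]⟩),(.r (-1) ⟨3,[(3,1),(10,1),(12,0),(1,1),(16,0),(2,1)]⟩ ⟨99,[(0,7),(0,
  7),(4,7),(2,79),(2,39),(9,39),(4,10),(0,60),(11,7)]⟩),.k,⟨false,0,⟨22,[(3,6),(1,5),(2,4),(1,6),(1,
  2),(3,0),(5,1),(4,4),(1,12)]⟩,⟨1,[(28,0),(17,0)]⟩⟩,⟨true,0,⟨0,[(29,0)]⟩,⟨2,[(8,0),(21,2),(1,0),(7,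
  0)]⟩⟩,⟨true,(-1),⟨0,[(8,0),(16,0)]⟩,⟨1,[(14,0),(31,0),(2,0)]⟩⟩,⟨false,0,⟨0,[(0,0)]⟩,⟨1,[(3,0),(3,
  0),(39,0)]⟩⟩,⟨false,0,⟨24,[(0,1),(0,1),(4,1),(2,19),(2,9),(9,9),(4,8),(0,8),(11,1)]⟩,⟨0,[(14,
  0)]⟩⟩,⟨true,0,⟨0,[(0,0),(43,0)]⟩,⟨0,[(3,0)]⟩⟩,[]⟩) (.R ⟨2,true,false,false,[0,1],[1,0,0,-1],[1,1,
  1,1],(⟨0,[]⟩,⟨0,[]⟩),(⟨0,[(29,0)]⟩,⟨0,[(30,0)]⟩),⟨0,[]⟩,.k,.k,.k,(.x 0 ⟨0,[(42,0)]⟩ ⟨11,[(15,3),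
  (1,3),(9,4),(0,4),(11,1)]⟩),.k,.k,⟨true,0,⟨3,[(8,0),(0,0),(8,0),(6,1),(2,1),(20,0)]⟩,⟨16,[(0,6),
  (2,4),(1,0),(2,1),(13,0),(4,1),(1,12),(13,7)]⟩⟩,⟨false,1,⟨5,[(0,1),(4,0),(0,0),(0,1),(20,2),(11,
  0)]⟩,⟨0,[(29,0)]⟩⟩,⟨false,0,⟨0,[]⟩,⟨3,[(27,0),(0,0),(18,1)]⟩⟩,⟨true,0,⟨0,[(0,0)]⟩,⟨3,[(8,0),(0,0),
  (8,0),(6,1),(2,1),(0,3),(19,0)]⟩⟩,⟨true,0,⟨0,[(44,0)]⟩,⟨0,[(45,0)]⟩⟩,⟨false,1,⟨3,[(5,1),(1,1),(32,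
  0),(6,0)]⟩,⟨0,[(4,0),(3,0),(16,0),(3,0)]⟩⟩,[]⟩))) (.R ⟨2,true,false,false,[0,1],[1,0,0,-1],[0,1,
  1],(⟨0,[]⟩,⟨0,[]⟩),(⟨0,[(27,0)]⟩,⟨0,[(28,0)]⟩),⟨0,[]⟩,.k,.k,.k,(.x 0 ⟨0,[(40,0)]⟩ ⟨11,[(13,3),(1,
  3),(9,4),(0,4),(11,1)]⟩),.k,.k,⟨true,0,⟨1,[(6,0),(16,0),(2,0),(16,0),(3,0)]⟩,⟨2,[(3,2),(2,0),(20,
  2),(2,0),(7,0)]⟩⟩,⟨false,1,⟨3,[(1,0),(1,0),(0,0),(0,0),(20,1),(11,0)]⟩,⟨0,[(27,0)]⟩⟩,⟨false,0,⟨0,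
  [(43,0)]⟩,⟨23,[(8,7),(1,3),(7,3),(4,3),(1,2),(0,2),(18,17)]⟩⟩,⟨true,0,⟨0,[(0,0),(2,0)]⟩,⟨3,[(6,0),
  (0,0),(8,0),(6,1),(2,1),(0,3),(19,0)]⟩⟩,⟨true,0,⟨0,[(47,0)]⟩,⟨0,[]⟩⟩,⟨false,1,⟨3,[(3,1),(1,1),(32,
  0),(6,0)]⟩,⟨0,[(2,0),(3,0),(16,0),(3,0)]⟩⟩,[]⟩)))))))

theorem ok132 : chk (cU (-1) true 10) t132 r71 = true := by decide +kernel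

noncomputable def t162 : Tre :=
  (.K ⟨0,[1,1,-1],1,0,(⟨0,[(30,0),(3,0)]⟩,⟨1,[(3,0),(27,0)]⟩),.k,.k,(.r 0 ⟨7,[(0,1),(7,7),(5,1),(4,
  0),(0,0),(6,9)]⟩ ⟨0,[(9,0),(27,0)]⟩),.k,.k,[⟨0,[(0,0)]⟩,⟨2,[(4,0),(3,0),(0,1),(11,0),(0,0)]⟩,⟨0,
  [(0,0),(8,0),(31,0)]⟩,⟨0,[(1,0)]⟩]⟩)

theorem ok162 : chk (cU (-1) true 10) t162 r89 = true := by decide +kernel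

noncomputable def t191 : Tre :=
  (.Q [0,0,0,-1,0,0,-2,-2,0,-1,2] (.p true [0,0,1] [1,0,-1] (⟨0,[(30,0)]⟩,⟨0,[(29,0)]⟩) .k 2 (⟨0,
  [(29,0)]⟩,⟨0,[(30,0)]⟩) .k (.r (-1) ⟨9,[(0,7),(7,3),(9,2),(0,2),(16,3)]⟩ ⟨0,[(28,1)]⟩)) (.R ⟨1,
  false,false,false,[1,0,-1],[0,0,1],[1,0,1],(⟨0,[(30,0)]⟩,⟨0,[(31,0)]⟩),(⟨0,[(31,0)]⟩,⟨0,[(30,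
  0)]⟩),⟨0,[(16,0)]⟩,.k,.k,.k,.k,(.r (-1) ⟨3,[(0,3),(17,3),(0,0),(0,0),(17,1)]⟩ ⟨0,[(1,0)]⟩),.k,
  ⟨false,0,⟨0,[(29,0)]⟩,⟨5,[(1,1),(7,1),(9,0),(0,0),(17,1)]⟩⟩,⟨true,0,⟨0,[(18,0)]⟩,⟨0,[(14,0)]⟩⟩,
  ⟨false,0,⟨1,[(1,0),(33,0),(1,0)]⟩,⟨3,[(19,0),(0,0),(8,3),(8,1)]⟩⟩,⟨true,0,⟨0,[(2,0)]⟩,⟨1,[(0,0),
  (3,0),(21,0)]⟩⟩,⟨false,0,⟨0,[(10,0)]⟩,⟨11,[(0,7),(8,3),(8,7),(0,2),(0,2),(17,1)]⟩⟩,⟨false,1,⟨3,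
  [(2,2),(4,1),(10,0),(0,0),(0,0),(17,0),(0,0)]⟩,⟨0,[(0,0)]⟩⟩,[.a ⟨true,0,⟨1,[(2,0),(18,0),(0,0)]⟩,
  ⟨4,[(0,1),(7,0),(12,1),(0,1)]⟩⟩ ⟨false,0,⟨0,[]⟩,⟨3,[(19,0),(0,0),(17,1)]⟩⟩ ⟨true,0,⟨1,[(2,0),(15,
  0)]⟩,⟨9,[(0,3),(7,1),(5,5),(12,2),(0,0)]⟩⟩,.o ⟨false,1,⟨7,[(2,3),(16,0),(0,0),(11,1),(6,3)]⟩,⟨0,
  [(23,0)]⟩⟩,.o ⟨false,1,⟨9,[(3,1),(10,3),(4,2),(0,2),(11,1)]⟩,⟨0,[(15,0),(9,0)]⟩⟩,.o ⟨false,0,⟨0,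
  [(24,0)]⟩,⟨7,[(18,3),(0,0),(0,0),(11,1),(5,3)]⟩⟩]⟩) (.Q [0,0,0,-2,0,0,-2,-2,0,-1,2] (.p true [0,0,
  1] [1,0,-1] (⟨0,[(31,0)]⟩,⟨0,[(30,0)]⟩) .k 2 (⟨0,[(30,0)]⟩,⟨0,[(31,0)]⟩) .k (.r (-1) ⟨9,[(1,7),(7,
  3),(9,2),(0,2),(16,3)]⟩ ⟨0,[(29,1)]⟩)) (.R ⟨1,false,false,true,[1,0,-1],[0,1,1],[0,1,2,1,0,0,0,1],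
  (⟨0,[(31,0)]⟩,⟨0,[(32,0)]⟩),(⟨0,[(32,0),(2,0)]⟩,⟨0,[(17,0)]⟩),⟨0,[(17,0)]⟩,.k,.k,.k,(.r (-1) ⟨3,
  [(0,1),(18,1),(0,0),(0,0),(8,3),(8,1)]⟩ ⟨0,[(2,0)]⟩),(.r (-1) ⟨0,[(0,0),(18,0),(19,0)]⟩ ⟨4,[(2,3),
  (5,1),(19,1),(0,1),(7,1)]⟩),.k,⟨true,0,⟨1,[(28,0),(0,0)]⟩,⟨0,[]⟩⟩,⟨false,1,⟨0,[(19,0),(19,0)]⟩,⟨0,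
  [(15,0)]⟩⟩,⟨false,0,⟨1,[(2,1),(25,0),(0,0)]⟩,⟨1,[(0,0),(15,1),(2,0),(19,1)]⟩⟩,⟨false,0,⟨0,[(1,
  0)]⟩,⟨23,[(0,19),(8,7),(10,4),(0,4),(11,1),(6,11)]⟩⟩,⟨false,0,⟨4,[(2,3),(5,1),(19,1),(0,1),(7,
  1)]⟩,⟨3,[(0,2),(9,1),(5,3),(2,2),(19,1)]⟩⟩,⟨true,0,⟨0,[(1,0),(35,0)]⟩,⟨0,[(0,0)]⟩⟩,[.o ⟨false,0,
  ⟨0,[(13,0)]⟩,⟨7,[(0,3),(19,0),(0,0),(11,1),(6,3)]⟩⟩,.a ⟨true,0,⟨4,[(1,2),(7,0),(12,1),(0,1)]⟩,⟨1,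
  [(0,0),(21,0),(0,0)]⟩⟩ ⟨false,0,⟨4,[(2,1),(5,0),(19,0),(0,0),(7,0)]⟩,⟨1,[(0,0),(18,0),(19,1)]⟩⟩
  ⟨true,0,⟨6,[(1,3),(7,0),(3,0),(2,0),(2,2)]⟩,⟨3,[(0,1),(14,1),(12,0),(0,0)]⟩⟩,.o ⟨false,1,⟨9,[(4,
  1),(10,3),(4,2),(0,2),(11,1)]⟩,⟨0,[(16,0),(9,0)]⟩⟩,.o ⟨false,0,⟨0,[(25,0)]⟩,⟨7,[(19,3),(0,0),(0,
  0),(11,1),(5,3)]⟩⟩]⟩) (.Q [0,1,-1,0,0,0,0,0,-1,0,0,1] (.p true [0,0,0,1] [] (⟨0,[(23,0)]⟩,⟨0,[(22,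
  0)]⟩) .k 0 (⟨0,[]⟩,⟨0,[]⟩) .k .k) (.Q [0,1,1,0,0,0,0,0,1,0,0,-1] (.p false [0,0,0,1] [] (⟨0,[(24,
  0)]⟩,⟨0,[(23,0)]⟩) .k 0 (⟨0,[]⟩,⟨0,[]⟩) .k .k) (.K ⟨0,[0,0,0,1],0,0,(⟨0,[(25,0)]⟩,⟨0,[(24,0)]⟩),
  .k,(.r (-1) ⟨1,[(12,0),(10,0),(8,0),(7,0)]⟩ ⟨1,[(1,1),(5,0),(7,0),(8,1),(2,0),(2,0),(7,1)]⟩),(.x
  0 ⟨0,[(37,0)]⟩ ⟨15,[(8,3),(5,3),(7,6),(0,6),(11,1)]⟩),.k,.k,[⟨0,[(25,0)]⟩,⟨0,[(24,0)]⟩,⟨0,[(1,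
  0)]⟩,⟨0,[(0,0)]⟩]⟩) (.Q [0,0,0,0,0,0,1,1,0,0,-1,1] (.p false [0,0,1] [0,0,0,1] (⟨0,[(34,0)]⟩,⟨0,
  [(33,0)]⟩) .k 2 (⟨0,[(25,0)]⟩,⟨0,[(24,0)]⟩) .k (.r 0 ⟨0,[(0,0),(23,0),(2,0),(0,0)]⟩ ⟨3,[(22,0),(0,
  2),(8,3)]⟩)) (.Q [0,0,0,0,0,-1,0,0,0,1,0,-1] (.ed true [0,1,0,1] .k) (.I [1,1,-1,0,0,0,0,1,-1]
  (.R ⟨1,false,false,false,[1,0,0,-1],[1,0,-1],[1,1,0,0,0,0,0,0,-1],(⟨0,[(27,0)]⟩,⟨0,[(28,0)]⟩),(⟨0,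
  [(36,0)]⟩,⟨0,[(37,0)]⟩),⟨0,[(1,0)]⟩,.k,.k,(.x (-1) ⟨15,[(11,3),(5,3),(7,6),(0,6),(11,1)]⟩ ⟨0,[(40,
  0)]⟩),.k,(.x 0 ⟨4,[(11,2),(7,0),(1,1),(9,1),(1,0)]⟩ ⟨9,[(9,1),(10,3),(4,2),(0,2),(9,9),(1,1),(1,
  9)]⟩),.k,⟨false,0,⟨0,[(0,0)]⟩,⟨1,[(26,0),(8,1),(9,0)]⟩⟩,⟨true,0,⟨0,[(27,0),(2,0)]⟩,⟨0,[(2,0),(32,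
  0)]⟩⟩,⟨false,0,⟨0,[]⟩,⟨3,[(25,0),(0,0),(18,1)]⟩⟩,⟨false,1,⟨1,[(26,0),(0,1),(2,1),(4,1),(9,0)]⟩,⟨0,
  [(3,0),(27,0)]⟩⟩,⟨true,0,⟨0,[(42,0)]⟩,⟨0,[(43,0)]⟩⟩,⟨false,1,⟨13,[(10,9),(3,1),(11,6),(0,13),(2,
  3),(1,1),(0,3),(7,5),(3,6)]⟩,⟨0,[(3,0),(27,0),(11,0)]⟩⟩,[.a ⟨true,0,⟨0,[(21,0),(1,0),(19,0)]⟩,⟨1,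
  [(8,0),(18,0),(0,0)]⟩⟩ ⟨false,0,⟨0,[(0,0),(34,0)]⟩,⟨1,[(26,0),(18,0)]⟩⟩ ⟨true,0,⟨0,[(27,0),(2,0),
  (4,0)]⟩,⟨0,[(2,0)]⟩⟩,.o ⟨false,1,⟨0,[(29,0),(15,0)]⟩,⟨0,[(31,0)]⟩⟩,.o ⟨false,1,⟨1,[(28,1),(9,0),
  (5,0)]⟩,⟨0,[(21,0),(5,0),(2,0),(0,0)]⟩⟩,.e ⟨false,0,⟨0,[(0,0),(20,0)]⟩,⟨1,[(26,0),(6,0),(0,0),(10,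
  0)]⟩⟩ ⟨false,1,⟨0,[(27,0),(1,0),(15,0)]⟩,⟨0,[(2,0)]⟩⟩]⟩) (.I [0,1,1,0,0,0,0,1,1] (.R ⟨1,false,
  false,true,[1,0,0,-1],[0,0,1],[1,0,0,0,0,0,0,0,-1],(⟨0,[(28,0)]⟩,⟨0,[(29,0)]⟩),(⟨0,[(38,0)]⟩,⟨0,
  [(37,0)]⟩),⟨0,[(2,0)]⟩,.k,.k,(.x (-1) ⟨15,[(12,3),(5,3),(7,6),(0,6),(11,1)]⟩ ⟨0,[(41,0)]⟩),.k,(.r
  0 ⟨0,[(4,0),(17,0),(5,0),(1,0),(1,0),(11,0)]⟩ ⟨7,[(0,3),(13,3),(11,2),(0,4)]⟩),.k,⟨true,0,⟨1,[(4,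
  1),(17,1),(5,1),(1,0),(0,0),(0,0),(1,0)]⟩,⟨0,[(0,0)]⟩⟩,⟨false,0,⟨0,[(22,0),(5,0),(3,0)]⟩,⟨19,[(10,
  11),(10,3),(4,2),(0,2),(1,19),(9,1)]⟩⟩,⟨true,0,⟨0,[]⟩,⟨0,[(48,0)]⟩⟩,⟨true,0,⟨1,[(0,0),(0,0),(26,
  1),(3,1)]⟩,⟨0,[(4,0),(25,0)]⟩⟩,⟨false,1,⟨23,[(6,3),(8,7),(10,4),(0,4),(11,1),(6,11)]⟩,⟨0,[(44,
  0)]⟩⟩,⟨true,0,⟨1,[(0,0),(0,0),(17,1),(8,1)]⟩,⟨0,[(4,0),(25,0),(13,0)]⟩⟩,[.o ⟨false,0,⟨0,[(32,0)]⟩,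
  ⟨0,[(30,0),(15,0)]⟩⟩,.e ⟨true,0,⟨0,[(4,0),(17,0),(5,0),(2,0),(0,0)]⟩,⟨3,[(0,2),(0,0),(23,0),(4,0),
  (2,0)]⟩⟩ ⟨true,0,⟨1,[(9,0),(18,1),(2,0),(2,0)]⟩,⟨1,[(0,0),(0,0),(2,1),(25,1)]⟩⟩,.o ⟨false,1,⟨1,
  [(29,1),(9,0),(5,0)]⟩,⟨0,[(22,0),(5,0),(2,0),(0,0)]⟩⟩,.a ⟨true,0,⟨0,[(29,0)]⟩,⟨0,[(28,0)]⟩⟩
  ⟨false,1,⟨4,[(4,0),(1,0),(6,1),(8,1),(3,1),(1,0),(17,0)]⟩,⟨1,[(0,0),(0,0)]⟩⟩ ⟨true,0,⟨0,[(28,0),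
  (3,0)]⟩,⟨1,[(0,0),(0,0),(2,1),(25,1)]⟩⟩]⟩) (.I [0,1,-1,-2,0,0,0,1,-1] (.R ⟨1,false,false,false,[1,
  0,0,-1],[1,1,-1],[0,1,0,-1,0,0,0,0,-1],(⟨0,[(29,0)]⟩,⟨0,[(30,0)]⟩),(⟨0,[(38,0),(3,0)]⟩,⟨1,[(13,0),
  (25,0)]⟩),⟨0,[(3,0)]⟩,.k,.k,(.x (-1) ⟨15,[(13,3),(5,3),(7,6),(0,6),(11,1)]⟩ ⟨0,[(42,0)]⟩),(.r
  (-1) ⟨15,[(0,5),(8,1),(7,5),(9,5),(0,0),(18,2)]⟩ ⟨0,[(2,0),(41,0)]⟩),(.r (-1) ⟨9,[(0,6),(0,0),(15,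
  5),(9,0),(9,1),(9,2)]⟩ ⟨9,[(2,9),(12,1),(0,1),(18,4),(0,2),(7,11)]⟩),.k,⟨true,0,⟨0,[(0,0)]⟩,⟨9,
  [(2,9),(12,3),(0,3),(18,4),(0,0),(7,3)]⟩⟩,⟨false,1,⟨19,[(11,11),(10,3),(4,2),(0,2),(0,19),(10,
  1)]⟩,⟨0,[(4,0),(32,0)]⟩⟩,⟨false,0,⟨0,[(45,0)]⟩,⟨23,[(7,3),(8,7),(10,4),(0,4),(11,1),(6,11)]⟩⟩,
  ⟨false,1,⟨55,[(2,35),(12,3),(0,23),(5,15),(4,8),(0,18),(0,55),(10,19),(6,7)]⟩,⟨1,[(0,0),(0,0),(2,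
  1)]⟩⟩,⟨true,0,⟨0,[(49,0)]⟩,⟨0,[]⟩⟩,⟨false,1,⟨13,[(2,7),(12,3),(0,9),(5,1),(4,1),(0,4),(0,13),(10,
  5),(6,0)]⟩,⟨1,[(0,1),(0,0),(0,0),(1,1)]⟩⟩,[.a ⟨true,0,⟨2,[(2,0),(2,0),(10,0),(8,0),(3,0),(1,0)]⟩,
  ⟨1,[(0,0),(1,0),(7,0),(18,0),(0,0)]⟩⟩ ⟨false,0,⟨8,[(0,5),(0,1),(4,0),(5,2),(13,1),(2,0),(4,0)]⟩,
  ⟨55,[(2,5),(4,9),(3,3),(3,1),(0,15),(11,24),(11,2),(6,23)]⟩⟩ ⟨true,0,⟨6,[(12,4),(3,0),(12,6),(2,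
  1),(1,0),(0,1),(7,2)]⟩,⟨1,[(0,0),(1,0),(1,1)]⟩⟩,.o ⟨false,1,⟨0,[(12,0),(34,0)]⟩,⟨1,[(0,0),(1,0),
  (30,1)]⟩⟩,.o ⟨false,1,⟨1,[(30,1),(9,0),(5,0)]⟩,⟨1,[(1,0),(0,0),(26,1),(2,1),(0,1)]⟩⟩,.e ⟨false,0,
  ⟨1,[(0,0),(0,0)]⟩,⟨7,[(2,3),(12,3),(11,2),(0,4)]⟩⟩ ⟨false,1,⟨0,[(12,0),(16,0),(17,0)]⟩,⟨1,[(0,0),
  (1,0),(1,1)]⟩⟩]⟩) (.K ⟨1,[1,-1,0,-1],0,0,(⟨0,[(3,0)]⟩,⟨0,[(30,0),(11,0)]⟩),(.x (-1) ⟨15,[(13,3),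
  (5,3),(7,6),(0,6),(11,1)]⟩ ⟨0,[(42,0)]⟩),(.r (-1) ⟨3,[(1,0),(4,0),(7,1),(2,0),(8,0),(0,0),(1,0),
  (15,4)]⟩ ⟨2,[(0,0),(1,1),(6,1),(24,0),(0,0),(8,1)]⟩),.k,.k,.k,[⟨1,[(29,1),(5,0),(0,0)]⟩,⟨4,[(2,0),
  (1,2),(0,0),(24,0),(0,1),(0,2),(2,1)]⟩,⟨0,[(2,0),(22,0),(3,0),(3,0)]⟩,⟨0,[(5,0),(39,0)]⟩]⟩))))
  (.I [0,1,-1,0,0,0,0,1,-1] (.R ⟨0,false,false,false,[1,0,0,-1],[1,0,-1],[0,1,0,0,0,0,0,0,-1],(⟨0,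
  [(27,0)]⟩,⟨0,[(28,0)]⟩),(⟨0,[(36,0)]⟩,⟨0,[(37,0)]⟩),⟨0,[(1,0)]⟩,.k,.k,(.x (-1) ⟨15,[(11,3),(5,3),
  (7,6),(0,6),(11,1)]⟩ ⟨0,[(40,0)]⟩),.k,.k,.k,⟨false,0,⟨0,[(0,0)]⟩,⟨1,[(26,0),(8,1),(9,0)]⟩⟩,⟨true,
  0,⟨0,[(27,0),(2,0)]⟩,⟨0,[(2,0),(32,0)]⟩⟩,⟨true,0,⟨0,[(47,0)]⟩,⟨0,[]⟩⟩,⟨false,1,⟨1,[(26,0),(0,1),
  (2,1),(4,1),(9,0)]⟩,⟨0,[(3,0),(27,0)]⟩⟩,⟨false,0,⟨0,[]⟩,⟨0,[]⟩⟩,⟨false,0,⟨0,[]⟩,⟨0,[]⟩⟩,[.a ⟨true,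
  0,⟨0,[(21,0),(1,0),(19,0)]⟩,⟨1,[(8,0),(18,0),(0,0)]⟩⟩ ⟨false,0,⟨0,[(0,0),(34,0)]⟩,⟨1,[(26,0),(18,
  0)]⟩⟩ ⟨true,0,⟨0,[(27,0),(2,0),(4,0)]⟩,⟨0,[(2,0)]⟩⟩,.o ⟨false,1,⟨0,[(29,0),(15,0)]⟩,⟨0,[(31,0)]⟩⟩,
  .o ⟨false,1,⟨1,[(28,1),(9,0),(5,0)]⟩,⟨0,[(21,0),(5,0),(2,0),(0,0)]⟩⟩,.e ⟨false,0,⟨0,[(0,0),(20,
  0)]⟩,⟨1,[(26,0),(6,0),(0,0),(10,0)]⟩⟩ ⟨false,1,⟨0,[(27,0),(1,0),(15,0)]⟩,⟨0,[(2,0)]⟩⟩]⟩) (.Q [0,1,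
  1,0,0,0,1,1,1,1,-1,-1] (.p false [0,0,1] [1,0,0,-1] (⟨0,[(37,0)]⟩,⟨0,[(36,0)]⟩) .k 2 (⟨0,[(27,
  0)]⟩,⟨0,[(28,0)]⟩) .k (.r (-1) ⟨19,[(7,7),(7,3),(9,2),(0,12),(16,3)]⟩ ⟨0,[(3,0),(23,0),(1,0),(3,
  0)]⟩)) (.Q [0,0,0,0,0,0,-1,-1,0,-1,1,1] (.p true [0,0,1] [1,0,0,-1] (⟨0,[(38,0)]⟩,⟨0,[(37,0)]⟩)
  .k 2 (⟨0,[(28,0)]⟩,⟨0,[(29,0)]⟩) .k (.r (-1) ⟨19,[(8,7),(7,3),(9,2),(0,12),(16,3)]⟩ ⟨0,[(4,0),(23,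
  0),(1,0),(3,0)]⟩)) (.R ⟨0,false,false,true,[1,0,0,-1],[0,0,1],[1,1],(⟨0,[(29,0)]⟩,⟨0,[(30,0)]⟩),
  (⟨0,[(39,0)]⟩,⟨0,[(38,0)]⟩),⟨0,[(3,0)]⟩,.k,.k,(.x (-1) ⟨15,[(13,3),(5,3),(7,6),(0,6),(11,1)]⟩ ⟨0,
  [(42,0)]⟩),.k,.k,.k,⟨true,0,⟨0,[(37,0)]⟩,⟨3,[(9,1),(25,0),(0,0),(8,1)]⟩⟩,⟨false,0,⟨0,[(23,0),(5,
  0),(3,0)]⟩,⟨4,[(0,1),(8,0),(1,1),(2,0),(12,0),(0,0),(1,2)]⟩⟩,⟨false,1,⟨3,[(27,0),(0,2)]⟩,⟨0,[(5,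
  0),(17,0),(5,0),(2,0),(0,0)]⟩⟩,⟨true,0,⟨0,[(1,0)]⟩,⟨0,[(5,0),(25,0)]⟩⟩,⟨false,0,⟨0,[]⟩,⟨0,[]⟩⟩,
  ⟨false,0,⟨0,[]⟩,⟨0,[]⟩⟩,[.o ⟨false,0,⟨0,[(33,0)]⟩,⟨0,[(31,0),(15,0)]⟩⟩,.e ⟨true,0,⟨0,[]⟩,⟨1,[(35,
  0),(0,0)]⟩⟩ ⟨true,0,⟨1,[(10,0),(18,1),(2,0),(2,0)]⟩,⟨0,[(0,0)]⟩⟩,.o ⟨false,1,⟨7,[(0,3),(3,3),(22,
  0),(0,0),(11,1),(5,3)]⟩,⟨0,[(23,0),(5,0),(2,0),(0,0)]⟩⟩,.a ⟨true,0,⟨0,[(30,0)]⟩,⟨0,[(29,0)]⟩⟩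
  ⟨false,1,⟨3,[(27,0),(0,0),(17,1)]⟩,⟨3,[(35,0),(0,0),(6,1)]⟩⟩ ⟨true,0,⟨0,[(29,0),(3,0)]⟩,⟨0,[(0,
  0)]⟩⟩]⟩) (.R ⟨0,false,false,true,[1,0,0,-1],[0,0,1],[1,1],(⟨0,[(29,0)]⟩,⟨0,[(30,0)]⟩),(⟨0,[(39,
  0)]⟩,⟨0,[(38,0)]⟩),⟨0,[(3,0)]⟩,.k,.k,(.x (-1) ⟨15,[(13,3),(5,3),(7,6),(0,6),(11,1)]⟩ ⟨0,[(42,
  0)]⟩),.k,.k,.k,⟨true,0,⟨0,[(37,0)]⟩,⟨3,[(9,1),(25,0),(0,0),(8,1)]⟩⟩,⟨false,0,⟨0,[(0,0),(36,0)]⟩,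
  ⟨19,[(11,11),(10,3),(4,2),(0,2),(1,19),(9,1)]⟩⟩,⟨false,1,⟨3,[(27,0),(0,2)]⟩,⟨2,[(0,1),(4,2),(17,
  0),(5,0),(1,0),(0,1),(2,0)]⟩⟩,⟨true,0,⟨0,[(1,0)]⟩,⟨0,[(5,0),(25,0)]⟩⟩,⟨false,0,⟨0,[]⟩,⟨0,[]⟩⟩,
  ⟨false,0,⟨0,[]⟩,⟨0,[]⟩⟩,[.o ⟨false,0,⟨0,[(33,0)]⟩,⟨0,[(31,0),(15,0)]⟩⟩,.a ⟨true,0,⟨1,[(10,0),(18,
  0),(0,0)]⟩,⟨1,[(2,0),(2,0),(19,0),(3,0),(1,0),(13,0)]⟩⟩ ⟨true,0,⟨0,[]⟩,⟨1,[(35,0),(0,0)]⟩⟩ ⟨false,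
  0,⟨0,[(0,0)]⟩,⟨7,[(12,3),(1,3),(12,0),(0,0),(1,7),(6,3),(9,1)]⟩⟩,.o ⟨false,1,⟨1,[(30,1),(9,0),(5,
  0)]⟩,⟨2,[(0,1),(22,0),(5,0),(1,0),(0,1),(2,0)]⟩⟩,.e ⟨false,1,⟨3,[(27,0),(0,0),(17,1)]⟩,⟨3,[(35,0),
  (0,0),(6,1)]⟩⟩ ⟨false,0,⟨0,[(0,0)]⟩,⟨33,[(2,9),(2,9),(6,1),(1,1),(7,3),(7,23),(3,21),(5,12),(6,
  18)]⟩⟩]⟩)) (.Q [0,0,0,-1,0,0,0,0,0,-1,0,1] (.p true [0,0,0,1] [1] (⟨0,[(29,0)]⟩,⟨0,[(28,0)]⟩) .k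
  1 (⟨0,[]⟩,⟨0,[]⟩) .k .k) (.R ⟨0,false,false,true,[1,0,0,-1],[0,1],[1,1],(⟨0,[(29,0)]⟩,⟨0,[(30,
  0)]⟩),(⟨0,[(42,0)]⟩,⟨0,[(41,0)]⟩),⟨0,[(3,0)]⟩,.k,.k,(.x (-1) ⟨15,[(13,3),(5,3),(7,6),(0,6),(11,
  1)]⟩ ⟨0,[(42,0)]⟩),(.x (-1) ⟨15,[(13,3),(5,3),(7,6),(0,6),(11,1)]⟩ ⟨0,[(42,0)]⟩),.k,.k,⟨false,1,
  ⟨0,[(17,0),(19,0)]⟩,⟨9,[(15,1),(0,1),(18,4),(0,2),(7,1)]⟩⟩,⟨true,0,⟨0,[(29,0)]⟩,⟨5,[(0,2),(11,0),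
  (2,0),(14,2),(1,1),(2,2)]⟩⟩,⟨false,1,⟨3,[(27,0),(0,2)]⟩,⟨1,[(1,1),(8,0),(18,1),(2,0),(2,0)]⟩⟩,
  ⟨true,0,⟨0,[(2,0),(22,0),(3,0),(3,0)]⟩,⟨0,[(1,0),(31,0),(11,0)]⟩⟩,⟨false,0,⟨0,[]⟩,⟨0,[]⟩⟩,⟨false,
  0,⟨0,[]⟩,⟨0,[]⟩⟩,[.o ⟨false,0,⟨0,[(44,0)]⟩,⟨1,[(40,0),(4,1),(1,0)]⟩⟩,.e ⟨true,0,⟨0,[]⟩,⟨1,[(35,0),
  (0,0)]⟩⟩ ⟨true,0,⟨9,[(15,1),(0,1),(12,9),(5,4),(0,2),(7,1)]⟩,⟨0,[(0,0)]⟩⟩,.o ⟨false,1,⟨1,[(30,1),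
  (9,0),(5,0)]⟩,⟨0,[(23,0),(5,0),(2,0),(0,0)]⟩⟩,.a ⟨true,0,⟨0,[(30,0)]⟩,⟨0,[(29,0)]⟩⟩ ⟨false,1,⟨3,
  [(27,0),(0,0),(17,1)]⟩,⟨3,[(35,0),(0,0),(6,1)]⟩⟩ ⟨true,0,⟨0,[(29,0),(14,0)]⟩,⟨0,[(0,0)]⟩⟩]⟩) (.R
  ⟨0,false,false,true,[1,0,0,-1],[0,1],[1,1],(⟨0,[(29,0)]⟩,⟨0,[(30,0)]⟩),(⟨0,[(42,0)]⟩,⟨0,[(41,
  0)]⟩),⟨0,[(3,0)]⟩,.k,.k,(.x (-1) ⟨15,[(13,3),(5,3),(7,6),(0,6),(11,1)]⟩ ⟨0,[(42,0)]⟩),(.x (-1)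
  ⟨15,[(13,3),(5,3),(7,6),(0,6),(11,1)]⟩ ⟨0,[(42,0)]⟩),.k,.k,⟨false,1,⟨0,[(17,0),(19,0)]⟩,⟨9,[(15,
  1),(0,1),(18,4),(0,2),(7,1)]⟩⟩,⟨true,0,⟨0,[(29,0)]⟩,⟨5,[(3,3),(9,0),(5,0),(10,1),(1,2),(2,2)]⟩⟩,
  ⟨false,1,⟨3,[(27,0),(0,2)]⟩,⟨1,[(1,1),(8,0),(18,1),(2,0),(2,0)]⟩⟩,⟨true,0,⟨0,[(2,0),(22,0),(3,0),
  (3,0)]⟩,⟨0,[(1,0),(31,0),(11,0)]⟩⟩,⟨false,0,⟨0,[]⟩,⟨0,[]⟩⟩,⟨false,0,⟨0,[]⟩,⟨0,[]⟩⟩,[.o ⟨false,0,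
  ⟨0,[(44,0)]⟩,⟨1,[(40,0),(4,1),(1,0)]⟩⟩,.a ⟨true,0,⟨0,[(0,0),(29,0)]⟩,⟨0,[(45,0)]⟩⟩ ⟨true,0,⟨0,[]⟩,
  ⟨1,[(35,0),(0,0)]⟩⟩ ⟨false,0,⟨0,[(0,0)]⟩,⟨15,[(14,7),(11,3),(0,0),(0,0),(1,15),(9,5),(4,7)]⟩⟩,.o
  ⟨false,1,⟨1,[(30,1),(9,0),(5,0)]⟩,⟨0,[(23,0),(5,0),(2,0),(0,0)]⟩⟩,.e ⟨false,1,⟨3,[(27,0),(0,0),
  (17,1)]⟩,⟨3,[(35,0),(0,0),(6,1)]⟩⟩ ⟨false,0,⟨0,[(0,0)]⟩,⟨1,[(30,1),(9,0),(4,1),(1,0)]⟩⟩]⟩)))))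
  (.I [1,1,-1,0,0,0,0,1,-1] (.R ⟨1,false,false,false,[1,0,0,-1],[1,0,-1],[1,1,0,0,0,0,0,0,-1],(⟨0,
  [(26,0)]⟩,⟨0,[(27,0)]⟩),(⟨0,[(35,0)]⟩,⟨0,[(36,0)]⟩),⟨3,[(1,1),(5,0),(2,0),(5,0),(9,1)]⟩,.k,.k,(.x
  (-1) ⟨15,[(10,3),(5,3),(7,6),(0,6),(11,1)]⟩ ⟨0,[(39,0)]⟩),.k,(.x 0 ⟨4,[(10,2),(7,0),(1,1),(9,1),
  (1,0)]⟩ ⟨9,[(8,1),(10,3),(4,2),(0,2),(9,9),(1,1),(1,9)]⟩),.k,⟨false,0,⟨0,[(0,0)]⟩,⟨1,[(25,0),(8,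
  1),(9,0)]⟩⟩,⟨true,0,⟨0,[(26,0),(2,0)]⟩,⟨0,[(20,0),(6,0),(2,0)]⟩⟩,⟨false,0,⟨0,[]⟩,⟨3,[(24,0),(0,0),
  (18,1)]⟩⟩,⟨false,1,⟨1,[(1,1),(23,0),(6,0),(0,0),(10,0)]⟩,⟨0,[(2,0),(27,0)]⟩⟩,⟨true,0,⟨0,[(41,0)]⟩,
  ⟨0,[(42,0)]⟩⟩,⟨false,1,⟨15,[(1,15),(10,3),(0,3),(10,0),(0,8),(6,7),(0,3),(10,5)]⟩,⟨0,[(2,0),(27,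
  0),(11,0)]⟩⟩,[.e ⟨false,0,⟨0,[(0,0),(33,0)]⟩,⟨1,[(25,0),(18,0)]⟩⟩ ⟨false,0,⟨0,[(1,0)]⟩,⟨7,[(4,1),
  (9,3),(8,1),(0,0),(0,0),(1,7),(9,1)]⟩⟩,.o ⟨false,1,⟨0,[(28,0),(15,0)]⟩,⟨0,[(30,0)]⟩⟩,.o ⟨false,1,
  ⟨1,[(27,1),(9,0),(5,0)]⟩,⟨1,[(1,1),(5,0),(21,0),(2,0)]⟩⟩,.a ⟨true,0,⟨0,[(27,0)]⟩,⟨0,[(26,0)]⟩⟩
  ⟨false,0,⟨0,[(0,0),(19,0)]⟩,⟨1,[(25,0),(6,0),(0,0),(10,0)]⟩⟩ ⟨true,0,⟨0,[(1,0)]⟩,⟨0,[(27,0),(2,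
  0)]⟩⟩]⟩) (.Q [0,1,1,-1,0,0,0,0,1,0,0,-1] (.p false [0,0,0,1] [] (⟨0,[(27,0)]⟩,⟨0,[(26,0)]⟩) .k 0
  (⟨0,[]⟩,⟨0,[]⟩) .k .k) (.R ⟨2,false,false,true,[0,1],[0,0,0,1],[1],(⟨0,[]⟩,⟨0,[]⟩),(⟨0,[(28,0)]⟩,
  ⟨0,[(27,0)]⟩),⟨0,[]⟩,.k,.k,.k,(.r 0 ⟨9,[(2,7),(0,2),(0,6),(2,1),(5,3),(6,1),(6,1),(5,11)]⟩ ⟨1,
  [(15,0),(10,0),(8,0),(7,0)]⟩),.k,.k,⟨true,0,⟨1,[(2,1),(0,1),(4,0),(21,0),(2,0)]⟩,⟨2,[(0,1),(0,0),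
  (16,0),(4,0),(4,1)]⟩⟩,⟨false,0,⟨1,[(2,1),(5,0),(21,0),(2,0)]⟩,⟨0,[(28,0),(15,0)]⟩⟩,⟨false,1,⟨1,
  [(15,0),(19,0),(7,0),(1,0)]⟩,⟨9,[(13,1),(0,1),(18,4),(0,2),(7,1)]⟩⟩,⟨true,0,⟨0,[(0,0)]⟩,⟨4,[(3,2),
  (0,1),(0,0),(4,0),(3,0)]⟩⟩,⟨false,1,⟨1,[(44,0),(0,0)]⟩,⟨1,[(33,0),(0,0)]⟩⟩,⟨false,1,⟨39,[(0,23),
  (1,15),(2,3),(7,7),(11,10),(0,18),(6,7),(4,1),(6,7)]⟩,⟨0,[(3,0)]⟩⟩,[.e ⟨true,0,⟨0,[]⟩,⟨1,[(33,0),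
  (0,0)]⟩⟩ ⟨true,0,⟨9,[(0,9),(12,1),(0,1),(18,4),(0,2),(7,1)]⟩,⟨0,[(3,0)]⟩⟩,.a ⟨true,0,⟨0,[(1,0),(0,
  0),(5,0),(14,0),(19,0)]⟩,⟨1,[(3,0),(0,0)]⟩⟩ ⟨false,1,⟨1,[(44,0),(0,0)]⟩,⟨0,[(47,0)]⟩⟩ ⟨true,0,⟨19,
  [(0,15),(0,3),(0,3),(10,7),(19,6),(0,2),(6,1)]⟩,⟨1,[(3,0),(0,0)]⟩⟩,.o ⟨false,1,⟨3,[(25,0),(0,0),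
  (17,1)]⟩,⟨0,[(21,0),(8,0),(0,0)]⟩⟩,.e ⟨false,1,⟨1,[(44,0),(0,0)]⟩,⟨1,[(33,0),(0,0)]⟩⟩ ⟨false,1,
  ⟨39,[(0,23),(1,15),(2,3),(7,7),(11,10),(0,18),(6,7),(4,1),(6,7)]⟩,⟨0,[(3,0)]⟩⟩]⟩) (.I [1,1,1,1,-1,
  0,0,-1,-1] (.R ⟨1,false,false,false,[1,0,0,-1],[0,-1,1],[1,1,0,0,0,0,0,0,-1],(⟨0,[(28,0)]⟩,⟨0,
  [(29,0)]⟩),(⟨1,[(12,0),(25,0)]⟩,⟨0,[(37,0),(3,0)]⟩),⟨3,[(3,1),(5,0),(2,0),(5,0),(9,1)]⟩,.k,.k,(.x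
  (-1) ⟨15,[(12,3),(5,3),(7,6),(0,6),(11,1)]⟩ ⟨0,[(41,0)]⟩),(.r 0 ⟨7,[(0,3),(1,1),(12,1),(10,2),(7,
  1),(11,0)]⟩ ⟨0,[(2,0),(6,0),(3,0),(10,0),(19,0)]⟩),.k,.k,⟨true,(-1),⟨0,[(0,0)]⟩,⟨5,[(8,1),(7,1),
  (10,2),(14,1),(1,5),(1,0)]⟩⟩,⟨false,0,⟨0,[(28,0),(5,0)]⟩,⟨0,[(10,0),(18,0)]⟩⟩,⟨false,0,⟨0,[]⟩,⟨3,
  [(26,0),(0,0),(18,1)]⟩⟩,⟨false,1,⟨1,[(9,0),(17,0),(0,1),(2,0),(2,0),(9,1),(1,0)]⟩,⟨0,[(4,0),(6,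
  0)]⟩⟩,⟨true,0,⟨0,[(43,0)]⟩,⟨0,[(44,0)]⟩⟩,⟨false,1,⟨1,[(9,0),(17,0),(0,1),(2,0),(2,0),(11,0)]⟩,⟨0,
  [(4,0),(25,0)]⟩⟩,[.e ⟨false,0,⟨0,[(0,0),(15,0)]⟩,⟨1,[(27,0),(18,0)]⟩⟩ ⟨false,0,⟨0,[(3,0),(5,0),
  (34,0)]⟩,⟨1,[(1,1),(25,0),(5,1),(5,0)]⟩⟩,.o ⟨false,1,⟨7,[(9,3),(16,0),(0,0),(11,1),(4,7),(1,3)]⟩,
  ⟨0,[(11,0)]⟩⟩,.o ⟨false,1,⟨1,[(29,1),(9,0),(5,0)]⟩,⟨1,[(3,1),(5,0),(21,0),(2,0)]⟩⟩,.a ⟨true,0,⟨0,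
  [(29,0)]⟩,⟨0,[(28,0)]⟩⟩ ⟨false,0,⟨1,[(0,0),(2,0),(0,0),(4,0),(3,0)]⟩,⟨1,[(27,0),(6,0),(0,0),(10,
  0)]⟩⟩ ⟨true,0,⟨0,[(3,0),(5,0),(34,0)]⟩,⟨0,[(11,0),(17,0)]⟩⟩]⟩) (.I [0,0,-3,0,1,2] (.Q [0,1,1,-2,0,
  0,0,0,1,0,0,-1] (.p false [0,0,0,1] [] (⟨0,[(30,0)]⟩,⟨0,[(29,0)]⟩) .k 0 (⟨0,[]⟩,⟨0,[]⟩) .k .k)
  (.Q [0,0,-3,0,1,0,0,0,0,0,0,1] (.p true [0,0,0,1] [] (⟨0,[(31,0)]⟩,⟨0,[(30,0)]⟩) .k 0 (⟨0,[]⟩,⟨0,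
  []⟩) .k .k) (.R ⟨1,false,false,false,[1,-1],[1,0,0,-1],[0,1,1],(⟨0,[(43,0)]⟩,⟨0,[(44,0)]⟩),(⟨0,
  [(31,0)]⟩,⟨0,[(32,0)]⟩),⟨2,[(15,0),(5,0),(21,1)]⟩,.k,.k,(.r (-1) ⟨10,[(0,3),(0,7),(5,5),(8,3),(2,
  1),(5,1),(2,1),(0,0),(1,1)]⟩ ⟨4,[(17,1),(0,1),(18,4),(0,2),(7,1)]⟩),(.r (-1) ⟨3,[(0,1),(0,1),(28,
  0),(18,0)]⟩ ⟨6,[(4,2),(1,4),(1,3),(2,1),(5,0),(6,1),(6,1),(5,8)]⟩),(.x 0 ⟨3,[(15,1),(5,1),(2,1),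
  (12,6),(0,2)]⟩ ⟨0,[(2,0)]⟩),.k,⟨true,0,⟨1,[(1,0),(3,0),(16,0),(4,0),(4,0)]⟩,⟨1,[(6,1),(0,1),(4,0),
  (21,0),(2,0)]⟩⟩,⟨false,1,⟨0,[(0,0)]⟩,⟨0,[(31,0),(2,0),(2,0)]⟩⟩,⟨false,0,⟨4,[(17,0),(0,0),(18,4),
  (0,3),(7,0)]⟩,⟨0,[(19,0),(5,0)]⟩⟩,⟨false,0,⟨0,[(4,0)]⟩,⟨11,[(1,7),(4,1),(10,1),(11,2),(0,4),(0,1),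
  (5,1),(4,0),(6,2)]⟩⟩,⟨false,0,⟨4,[(17,1),(0,1),(18,4),(0,2),(7,1)]⟩,⟨1,[(1,0),(5,0),(11,1),(5,
  1)]⟩⟩,⟨true,0,⟨10,[(4,6),(3,3),(0,2),(4,2),(3,2)]⟩,⟨0,[(1,0)]⟩⟩,[.e ⟨false,0,⟨0,[(51,0)]⟩,⟨1,[(48,
  0),(0,0)]⟩⟩ ⟨false,1,⟨57,[(0,19),(1,11),(1,15),(2,2),(0,18),(7,15),(4,15),(1,7),(5,9)]⟩,⟨4,[(1,3),
  (3,0),(0,0),(10,2),(0,0),(18,1)]⟩⟩,.a ⟨true,0,⟨0,[(7,0)]⟩,⟨4,[(1,2),(3,1),(3,1),(17,1),(3,2),(0,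
  0),(3,1)]⟩⟩ ⟨true,0,⟨1,[(37,0),(0,0)]⟩,⟨0,[]⟩⟩ ⟨false,1,⟨0,[(7,0),(40,0)]⟩,⟨9,[(1,9),(15,3),(0,3),
  (18,4),(0,0),(7,3)]⟩⟩,.o ⟨false,0,⟨0,[(25,0),(8,0),(0,0)]⟩,⟨3,[(29,0),(0,0),(17,1)]⟩⟩,.o ⟨false,0,
  ⟨0,[(34,0),(2,0)]⟩,⟨0,[(48,0)]⟩⟩]⟩) (.R ⟨1,false,false,false,[1,-1],[1,0,0,-1],[1,0,1],(⟨0,[(43,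
  0)]⟩,⟨0,[(44,0)]⟩),(⟨0,[(31,0)]⟩,⟨0,[(32,0)]⟩),⟨2,[(15,0),(5,0),(21,1)]⟩,.k,.k,(.r (-1) ⟨1,[(1,0),
  (5,0),(11,1),(19,1)]⟩ ⟨4,[(0,1),(16,1),(0,1),(10,0),(0,0),(1,1),(4,1),(8,1)]⟩),(.r (-1) ⟨3,[(1,0),
  (5,0),(11,1),(10,1),(8,1)]⟩ ⟨65,[(0,21),(3,6),(3,14),(0,2),(4,2),(2,10),(0,13),(10,21),(7,10)]⟩),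
  (.x 0 ⟨3,[(0,1),(14,1),(5,1),(2,1),(4,0),(0,0),(1,1),(4,3)]⟩ ⟨0,[(2,0)]⟩),.k,⟨false,1,⟨3,[(29,0),
  (0,2)]⟩,⟨0,[(6,0),(0,0),(27,0)]⟩⟩,⟨true,1,⟨0,[(32,0),(15,0)]⟩,⟨0,[(0,0)]⟩⟩,⟨false,0,⟨23,[(0,7),(4,
  11),(11,11),(11,6),(0,0),(1,7)]⟩,⟨0,[(19,0),(19,0)]⟩⟩,⟨false,0,⟨0,[(4,0)]⟩,⟨11,[(0,1),(0,5),(27,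
  2),(0,5),(0,3),(10,1),(6,2)]⟩⟩,⟨false,0,⟨35,[(0,7),(4,11),(11,23),(0,11),(10,6),(0,0),(1,7),(4,
  11)]⟩,⟨1,[(1,0),(5,0),(11,1),(19,1)]⟩⟩,⟨true,0,⟨10,[(4,6),(3,3),(0,2),(4,2),(3,2)]⟩,⟨0,[(1,0)]⟩⟩,
  [.e ⟨false,0,⟨0,[]⟩,⟨3,[(29,0),(0,0),(17,1)]⟩⟩ ⟨false,1,⟨1,[(7,0),(0,0),(39,1)]⟩,⟨5,[(0,3),(29,2),
  (0,1),(10,0)]⟩⟩,.a ⟨true,0,⟨0,[(7,0)]⟩,⟨7,[(0,0),(0,3),(3,1),(3,1),(13,0),(3,3),(2,0),(0,2),(4,1),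
  (3,1),(2,0)]⟩⟩ ⟨true,0,⟨3,[(0,0),(31,0),(12,0),(3,0)]⟩,⟨0,[(51,0)]⟩⟩ ⟨false,1,⟨0,[(7,0),(40,0)]⟩,
  ⟨35,[(0,19),(0,11),(27,2),(0,14),(0,3),(10,1),(3,23)]⟩⟩,.o ⟨false,0,⟨4,[(0,1),(4,1),(1,1),(6,0),
  (1,0),(17,0),(0,2),(6,0)]⟩,⟨3,[(29,0),(0,0),(17,1)]⟩⟩,.o ⟨false,0,⟨0,[(34,0),(2,0)]⟩,⟨0,[(48,
  0)]⟩⟩]⟩)) (.Q [0,0,0,-1,0,0,1,1,0,0,-1,1] (.p false [0,0,1] [0,0,0,1] (⟨0,[(40,0)]⟩,⟨0,[(39,0)]⟩)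
  .k 2 (⟨0,[(31,0)]⟩,⟨0,[(30,0)]⟩) .k (.r 0 ⟨1,[(5,1),(0,0),(0,0),(3,1),(21,1)]⟩ ⟨3,[(28,0),(0,2),
  (8,3)]⟩)) (.I [1,1,-1,-1,0,0,0,1,-1] (.R ⟨1,false,false,false,[1,0,0,-1],[1,1,-1],[1,1,0,0,0,0,0,
  0,-1],(⟨0,[(32,0)]⟩,⟨0,[(33,0)]⟩),(⟨0,[(41,0),(3,0)]⟩,⟨1,[(16,0),(25,0)]⟩),⟨3,[(7,1),(5,0),(2,0),
  (5,0),(9,1)]⟩,.k,.k,(.x (-1) ⟨15,[(16,3),(5,3),(7,6),(0,6),(11,1)]⟩ ⟨0,[(45,0)]⟩),(.r (-1) ⟨1,[(0,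
  0),(3,0),(25,0)]⟩ ⟨0,[(6,0),(40,0)]⟩),(.r (-1) ⟨5,[(0,3),(19,3),(5,1),(3,0),(17,3),(1,0)]⟩ ⟨9,[(6,
  9),(11,1),(0,1),(18,4),(0,2),(7,11)]⟩),.k,⟨true,0,⟨0,[(0,0)]⟩,⟨9,[(6,9),(11,1),(0,1),(18,4),(0,2),
  (7,1)]⟩⟩,⟨false,1,⟨4,[(7,1),(4,0),(1,1),(2,0),(12,0),(0,0),(0,2)]⟩,⟨5,[(1,3),(0,0),(3,0),(8,1),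
  (13,1),(3,0),(6,0)]⟩⟩,⟨false,0,⟨0,[]⟩,⟨3,[(30,0),(0,0),(18,1)]⟩⟩,⟨false,1,⟨7,[(6,3),(0,7),(10,3),
  (11,2),(0,4)]⟩,⟨1,[(0,0),(0,0),(6,0),(17,0),(9,0)]⟩⟩,⟨true,0,⟨0,[(47,0)]⟩,⟨0,[(48,0)]⟩⟩,⟨false,1,
  ⟨7,[(7,7),(10,3),(0,3),(10,0),(0,4),(6,3),(11,1)]⟩,⟨0,[(0,0),(0,0),(24,0)]⟩⟩,[.a ⟨true,0,⟨4,[(6,
  0),(0,0),(0,0),(10,1),(8,0),(8,0)]⟩,⟨0,[(1,0),(30,0)]⟩⟩ ⟨false,0,⟨5,[(0,3),(1,0),(4,1),(1,0),(5,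
  1),(13,1)]⟩,⟨1,[(31,0),(18,0)]⟩⟩ ⟨true,0,⟨9,[(7,9),(10,1),(0,1),(18,4),(0,2),(7,1)]⟩,⟨0,[(1,0)]⟩⟩,
  .o ⟨false,1,⟨0,[(15,0),(34,0)]⟩,⟨0,[(36,0),(11,0)]⟩⟩,.o ⟨false,1,⟨1,[(33,1),(9,0),(5,0)]⟩,⟨1,[(7,
  1),(5,0),(21,0),(2,0)]⟩⟩,.e ⟨false,0,⟨3,[(0,2),(1,0),(4,0),(15,0),(2,2)]⟩,⟨1,[(31,0),(6,0),(0,0),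
  (10,0)]⟩⟩ ⟨false,1,⟨23,[(7,23),(2,3),(8,7),(10,4),(0,4),(11,1),(6,11)]⟩,⟨0,[(1,0)]⟩⟩]⟩) (.K ⟨1,[1,
  -1,0,-1],0,0,(⟨3,[(7,1),(5,0),(2,0),(5,0),(9,1)]⟩,⟨0,[(33,0),(11,0)]⟩),(.x (-1) ⟨15,[(16,3),(5,3),
  (7,6),(0,6),(11,1)]⟩ ⟨0,[(45,0)]⟩),(.r (-1) ⟨7,[(7,1),(0,1),(0,1),(3,0),(3,5),(11,2),(0,1),(1,1),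
  (15,9)]⟩ ⟨2,[(0,2),(11,1),(24,0),(0,0),(8,0),(4,0)]⟩),.k,.k,.k,[⟨1,[(32,1),(5,0),(0,0)]⟩,⟨4,[(0,
  0),(0,2),(6,0),(6,1),(17,0),(1,2),(2,1)]⟩,⟨0,[(6,0),(21,0),(3,0),(3,0)]⟩,⟨0,[(8,0),(39,0)]⟩]⟩))
  (.K ⟨1,[1,-1,0,-1],0,0,(⟨3,[(6,1),(5,0),(2,0),(5,0),(9,1)]⟩,⟨0,[(32,0),(11,0)]⟩),(.x (-1) ⟨15,
  [(15,3),(5,3),(7,6),(0,6),(11,1)]⟩ ⟨0,[(44,0)]⟩),(.r (-1) ⟨7,[(6,1),(0,1),(0,1),(3,0),(3,5),(11,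
  2),(0,1),(1,1),(15,9)]⟩ ⟨4,[(5,4),(5,1),(5,0),(19,0),(0,0),(7,5)]⟩),.k,.k,.k,[⟨1,[(31,1),(5,0),(0,
  0)]⟩,⟨3,[(5,1),(1,1),(24,1),(0,0),(0,2),(0,2),(1,0)]⟩,⟨0,[(5,0),(21,0),(3,0),(3,0)]⟩,⟨0,[(7,0),
  (39,0)]⟩]⟩))) (.Q [0,0,-3,0,1,0,0,0,0,0,0,1] (.p true [0,0,0,1] [] (⟨0,[(30,0)]⟩,⟨0,[(29,0)]⟩) .k
  0 (⟨0,[]⟩,⟨0,[]⟩) .k .k) (.Q [0,1,1,-2,0,0,0,0,1,0,0,-1] (.p false [0,0,0,1] [] (⟨0,[(31,0)]⟩,⟨0,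
  [(30,0)]⟩) .k 0 (⟨0,[]⟩,⟨0,[]⟩) .k .k) (.R ⟨1,true,false,false,[1,-1],[1,0,0,-1],[1,0,-1,-1],(⟨0,
  [(43,0)]⟩,⟨0,[(44,0)]⟩),(⟨0,[(31,0)]⟩,⟨0,[(32,0)]⟩),⟨2,[(15,0),(5,0),(21,1)]⟩,.k,.k,(.r (-1) ⟨10,
  [(0,1),(0,3),(14,3),(2,1),(5,1),(2,1),(0,0),(1,1),(15,11)]⟩ ⟨4,[(17,1),(0,1),(18,4),(0,2),(7,
  1)]⟩),(.r (-1) ⟨3,[(0,1),(0,1),(28,0),(18,0)]⟩ ⟨60,[(2,23),(1,12),(1,12),(2,13),(4,13),(2,0),(0,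
  1),(10,23),(7,0),(6,47)]⟩),(.r (-2) ⟨3,[(0,3),(0,3),(27,0),(0,0),(18,1)]⟩ ⟨0,[(2,0),(1,0),(1,0),
  (15,0),(21,1)]⟩),.k,⟨true,1,⟨3,[(0,1),(0,1),(28,0),(18,0)]⟩,⟨0,[(2,0),(3,0),(0,0),(14,0),(21,
  1)]⟩⟩,⟨false,1,⟨0,[(1,0)]⟩,⟨17,[(0,5),(1,2),(3,11),(4,3),(5,3),(11,2),(7,11),(6,5),(0,0)]⟩⟩,⟨true,
  0,⟨0,[]⟩,⟨0,[(51,0)]⟩⟩,⟨false,0,⟨0,[(4,0)]⟩,⟨11,[(0,7),(5,1),(10,1),(11,2),(0,4),(0,1),(5,1),(4,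
  0),(6,2)]⟩⟩,⟨false,1,⟨23,[(9,3),(8,7),(10,4),(0,4),(11,1),(6,11)]⟩,⟨0,[(47,0)]⟩⟩,⟨true,0,⟨10,[(4,
  6),(3,3),(0,2),(4,2),(3,2)]⟩,⟨0,[(0,0)]⟩⟩,[]⟩) (.Q [0,0,0,-1,0,0,1,1,0,0,-1,1] (.p false [0,0,1]
  [0,0,0,1] (⟨0,[(41,0)]⟩,⟨0,[(40,0)]⟩) .k 2 (⟨0,[(32,0)]⟩,⟨0,[(31,0)]⟩) .k (.r 0 ⟨9,[(2,0),(3,7),
  (0,7),(3,4),(17,0),(5,7),(8,1),(2,4)]⟩ ⟨3,[(29,0),(0,2),(8,3)]⟩)) (.I [1,1,-1,-1,0,0,0,1,-1] (.R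
  ⟨1,false,false,false,[1,0,0,-1],[1,1,-1],[1,1,0,0,0,0,0,0,-1],(⟨0,[(33,0)]⟩,⟨0,[(34,0)]⟩),(⟨0,
  [(42,0),(3,0)]⟩,⟨1,[(17,0),(25,0)]⟩),⟨3,[(8,1),(5,0),(2,0),(5,0),(9,1)]⟩,.k,.k,(.x (-1) ⟨15,[(17,
  3),(5,3),(7,6),(0,6),(11,1)]⟩ ⟨0,[(46,0)]⟩),(.r (-1) ⟨1,[(0,0),(4,0),(25,0)]⟩ ⟨0,[(7,0),(40,0)]⟩),
  (.r (-1) ⟨8,[(0,4),(20,6),(5,2),(3,1),(15,0),(1,5)]⟩ ⟨9,[(7,9),(11,1),(0,1),(18,4),(0,2),(7,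
  11)]⟩),.k,⟨true,0,⟨0,[(0,0)]⟩,⟨9,[(7,9),(11,1),(0,1),(18,4),(0,2),(7,1)]⟩⟩,⟨false,1,⟨4,[(8,1),(4,
  0),(1,1),(2,0),(12,0),(0,0),(0,2)]⟩,⟨4,[(1,2),(4,0),(0,0),(8,1),(13,1),(3,0)]⟩⟩,⟨false,0,⟨0,[]⟩,
  ⟨3,[(31,0),(0,0),(18,1)]⟩⟩,⟨false,1,⟨7,[(7,3),(0,7),(10,3),(11,2),(0,4)]⟩,⟨1,[(0,0),(0,0),(7,0),
  (17,0),(9,0)]⟩⟩,⟨true,0,⟨0,[(48,0)]⟩,⟨0,[(49,0)]⟩⟩,⟨false,1,⟨7,[(8,7),(10,3),(0,3),(10,0),(0,4),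
  (6,3),(11,1)]⟩,⟨0,[(0,0),(0,0),(25,0)]⟩⟩,[.a ⟨true,0,⟨4,[(7,0),(0,0),(0,0),(10,1),(8,0),(8,0)]⟩,
  ⟨0,[(1,0),(31,0)]⟩⟩ ⟨false,0,⟨5,[(0,3),(1,0),(5,1),(1,0),(5,1),(13,1)]⟩,⟨1,[(32,0),(18,0)]⟩⟩
  ⟨true,0,⟨9,[(8,9),(10,1),(0,1),(18,4),(0,2),(7,1)]⟩,⟨0,[(1,0)]⟩⟩,.o ⟨false,1,⟨0,[(16,0),(34,0)]⟩,
  ⟨0,[(37,0),(11,0)]⟩⟩,.o ⟨false,1,⟨11,[(3,3),(27,0),(0,0),(1,7),(9,5)]⟩,⟨1,[(8,1),(5,0),(21,0),(2,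
  0)]⟩⟩,.e ⟨false,0,⟨3,[(0,2),(1,0),(5,0),(15,0),(2,2)]⟩,⟨1,[(32,0),(6,0),(0,0),(10,0)]⟩⟩ ⟨false,1,
  ⟨23,[(8,23),(2,3),(8,7),(10,4),(0,4),(11,1),(6,11)]⟩,⟨0,[(1,0)]⟩⟩]⟩) (.K ⟨1,[1,1,0,-1],1,0,(⟨0,
  [(33,0),(12,0)]⟩,⟨1,[(3,0),(0,0),(29,0)]⟩),(.r 0 ⟨4,[(2,0),(1,1),(3,0),(2,0),(4,0),(14,1),(14,
  3)]⟩ ⟨21,[(3,1),(14,5),(2,1),(8,3),(1,10),(0,1),(4,1),(10,13),(1,0)]⟩),.k,(.r 1 ⟨0,[(4,0),(1,0),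
  (1,0),(15,0),(21,1)]⟩ ⟨7,[(18,3),(2,3),(8,3),(0,0),(0,4),(5,3),(10,7),(1,1)]⟩),.k,.k,[⟨0,[(4,0),
  (28,0),(12,1)]⟩,⟨11,[(3,3),(27,0),(0,0),(1,7),(9,5)]⟩,⟨0,[(7,0),(21,0),(3,0),(3,0),(11,1)]⟩,⟨0,
  [(6,0)]⟩]⟩)) (.K ⟨1,[1,1,0,-1],1,0,(⟨0,[(32,0),(12,0)]⟩,⟨1,[(2,0),(0,0),(29,0)]⟩),(.r 0 ⟨9,[(0,1),
  (0,1),(1,3),(6,0),(4,0),(7,0),(6,3),(14,7)]⟩ ⟨21,[(2,1),(14,5),(2,1),(8,3),(1,10),(0,1),(4,1),(10,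
  13),(1,0)]⟩),.k,(.r 1 ⟨0,[(3,0),(1,0),(1,0),(15,0),(21,1)]⟩ ⟨7,[(17,3),(2,3),(8,3),(0,0),(0,4),(5,
  3),(10,7),(1,1)]⟩),.k,.k,[⟨0,[(3,0),(28,0),(12,1)]⟩,⟨11,[(2,3),(27,0),(0,0),(1,7),(9,5)]⟩,⟨0,[(6,
  0),(21,0),(3,0),(3,0),(11,1)]⟩,⟨0,[(5,0)]⟩]⟩))) (.Q [0,1,1,-2,0,0,0,0,1,0,0,-1] (.p false [0,0,0,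
  1] [] (⟨0,[(31,0)]⟩,⟨0,[(30,0)]⟩) .k 0 (⟨0,[]⟩,⟨0,[]⟩) .k .k) (.R ⟨1,false,false,false,[1,-1],[1,
  0,0,-1],[1],(⟨0,[(43,0)]⟩,⟨0,[(44,0)]⟩),(⟨0,[(31,0)]⟩,⟨0,[(32,0)]⟩),⟨2,[(15,0),(5,0),(21,1)]⟩,.k,
  .k,(.r (-1) ⟨0,[(19,0),(19,0),(7,0)]⟩ ⟨4,[(1,1),(15,1),(0,1),(10,0),(0,0),(1,1),(4,1),(8,1)]⟩),
  (.r (-1) ⟨5,[(0,0),(4,0),(13,3),(10,1),(1,0),(6,2)]⟩ ⟨54,[(1,21),(2,9),(3,0),(0,8),(4,8),(3,8),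
  (10,21),(2,10)]⟩),(.r (-2) ⟨9,[(0,3),(15,5),(2,5),(8,5),(1,2),(1,3),(3,5),(12,4)]⟩ ⟨10,[(1,10),(2,
  6),(3,3),(0,2),(4,2),(3,2)]⟩),.k,⟨false,1,⟨1,[(30,0),(17,0)]⟩,⟨9,[(1,1),(4,3),(0,4),(0,0),(20,1),
  (5,3)]⟩⟩,⟨true,1,⟨0,[(32,0),(15,0)]⟩,⟨0,[(1,0)]⟩⟩,⟨false,0,⟨14,[(1,0),(2,0),(0,2),(11,4),(0,1),
  (10,0),(7,1),(7,2)]⟩,⟨39,[(0,7),(15,11),(2,11),(8,11),(0,4),(0,0),(1,7),(3,11),(12,9)]⟩⟩,⟨false,0,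
  ⟨0,[(4,0)]⟩,⟨11,[(0,5),(0,1),(27,2),(0,5),(0,3),(10,1),(6,2)]⟩⟩,⟨false,0,⟨2,[(17,1),(0,0),(6,0),
  (11,0)]⟩,⟨5,[(0,1),(18,3),(9,0),(2,1),(6,3),(7,3),(1,0)]⟩⟩,⟨true,0,⟨10,[(4,6),(3,3),(0,2),(4,2),
  (3,2)]⟩,⟨0,[(0,0)]⟩⟩,[.a ⟨true,0,⟨1,[(7,0),(0,0)]⟩,⟨0,[(5,0),(0,0),(5,0),(14,0),(19,0)]⟩⟩ ⟨true,0,
  ⟨0,[]⟩,⟨5,[(1,1),(27,0),(0,0),(1,1)]⟩⟩ ⟨false,1,⟨1,[(7,0),(0,0),(39,1)]⟩,⟨5,[(1,3),(28,2),(0,1),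
  (10,0)]⟩⟩,.e ⟨false,1,⟨1,[(48,0),(0,0)]⟩,⟨0,[(51,0)]⟩⟩ ⟨false,1,⟨0,[(7,0),(40,0)]⟩,⟨35,[(0,11),(0,
  19),(27,2),(0,14),(0,3),(10,1),(3,23)]⟩⟩,.o ⟨false,0,⟨4,[(1,1),(3,1),(1,1),(6,0),(1,0),(17,0),(0,
  2),(6,0)]⟩,⟨3,[(29,0),(0,0),(17,1)]⟩⟩,.o ⟨false,0,⟨11,[(1,7),(27,0),(0,0),(1,7),(9,5)]⟩,⟨0,[(48,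
  0)]⟩⟩]⟩) (.K ⟨1,[1,-1,0,-1],0,0,(⟨3,[(6,1),(5,0),(2,0),(5,0),(9,1)]⟩,⟨0,[(32,0),(11,0)]⟩),(.r 0
  ⟨0,[(6,0),(0,0),(27,0),(11,0)]⟩ ⟨19,[(1,3),(15,3),(0,3),(10,6),(0,16),(1,3),(4,3),(8,3)]⟩),(.r
  (-1) ⟨15,[(6,1),(0,4),(0,2),(7,11),(11,5),(0,3),(1,5),(3,1),(11,19)]⟩ ⟨10,[(1,3),(3,2),(11,4),(0,
  1),(11,3),(1,3),(4,1),(8,7)]⟩),.k,.k,.k,[⟨9,[(1,1),(26,1),(0,0),(0,0),(0,7),(6,3)]⟩,⟨4,[(1,0),(3,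
  1),(1,1),(24,3),(0,0),(0,1),(0,2),(6,0)]⟩,⟨0,[(5,0),(21,0),(3,0),(3,0)]⟩,⟨0,[(7,0),(39,
  0)]⟩]⟩))))))))) (.I [0,0,0,0,0,0,0,0,1] (.Q [0,0,0,0,0,0,1,1,0,0,-1,1] (.p false [0,0,1] [0,0,0,
  1] (⟨0,[(34,0)]⟩,⟨0,[(33,0)]⟩) .k 2 (⟨0,[(25,0)]⟩,⟨0,[(24,0)]⟩) .k (.r (-1) ⟨19,[(4,7),(7,3),(9,
  12),(0,2),(16,3)]⟩ ⟨0,[(0,0),(31,0)]⟩)) (.I [0,0,1,1,0,0,0,0,-1] (.Q [0,0,0,0,0,-1,0,0,0,0,0,1]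
  (.ed false [1,-1,0,1] .k) (.R ⟨1,false,false,false,[0,0,0,1],[0,-1,1],[1,0,0,0,0,0,0,0,1],(⟨0,
  [(28,0)]⟩,⟨0,[(27,0)]⟩),(⟨1,[(11,0),(25,0)]⟩,⟨0,[(36,0),(3,0)]⟩),⟨0,[(0,0)]⟩,.k,.k,(.r (-1) ⟨1,
  [(15,0),(10,0),(8,0),(7,0)]⟩ ⟨0,[(1,0)]⟩),(.r 0 ⟨5,[(3,5),(10,2),(17,1),(0,4),(1,0),(5,0)]⟩ ⟨0,
  [(1,0),(13,0),(27,0)]⟩),.k,.k,⟨false,0,⟨2,[(3,2),(6,0),(3,0),(6,0),(2,0)]⟩,⟨0,[(1,0),(13,0),(27,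
  0)]⟩⟩,⟨true,0,⟨0,[(2,0),(32,0)]⟩,⟨0,[(27,0),(2,0)]⟩⟩,⟨true,0,⟨0,[]⟩,⟨0,[(47,0)]⟩⟩,⟨false,1,⟨0,[(1,
  0),(0,0),(12,0),(5,0),(21,0)]⟩,⟨2,[(4,2),(9,0),(17,1),(9,0)]⟩⟩,⟨false,1,⟨23,[(5,3),(8,7),(10,4),
  (0,4),(11,1),(6,11)]⟩,⟨0,[(43,0)]⟩⟩,⟨false,1,⟨0,[(1,0),(0,0),(12,0),(5,0)]⟩,⟨0,[(4,0),(27,0)]⟩⟩,
  [.a ⟨true,0,⟨1,[(8,0),(18,0),(0,0),(14,1)]⟩,⟨0,[(21,0),(1,0)]⟩⟩ ⟨true,0,⟨0,[(3,0)]⟩,⟨0,[(1,0),(41,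
  0)]⟩⟩ ⟨false,1,⟨1,[(2,0),(9,0),(2,0),(8,0),(3,0)]⟩,⟨15,[(1,6),(2,6),(5,6),(3,0),(5,1),(0,3),(5,8),
  (4,3)]⟩⟩,.o ⟨false,1,⟨7,[(8,3),(16,0),(0,0),(11,1),(4,7),(1,3)]⟩,⟨0,[(10,0)]⟩⟩,.o ⟨false,0,⟨0,
  [(21,0),(5,0),(2,0),(0,0)]⟩,⟨1,[(28,1),(9,0),(5,0)]⟩⟩,.o ⟨false,0,⟨0,[(27,0),(2,0),(2,0)]⟩,⟨1,[(2,
  1),(7,0),(1,0),(8,0),(22,0)]⟩⟩]⟩) (.R ⟨0,false,false,false,[0,0,0,1],[0,-1,1],[1,0,0,0,0,0,0,0,1],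
  (⟨0,[(28,0)]⟩,⟨0,[(27,0)]⟩),(⟨1,[(11,0),(25,0)]⟩,⟨0,[(36,0),(3,0)]⟩),⟨0,[(0,0)]⟩,.k,.k,(.r (-1)
  ⟨1,[(15,0),(10,0),(8,0),(7,0)]⟩ ⟨0,[(1,0)]⟩),(.r 0 ⟨5,[(3,5),(10,2),(17,1),(0,4),(1,0),(5,0)]⟩ ⟨0,
  [(1,0),(13,0),(27,0)]⟩),.k,.k,⟨false,0,⟨2,[(3,2),(6,0),(3,0),(6,0),(2,0)]⟩,⟨0,[(1,0),(13,0),(27,
  0)]⟩⟩,⟨true,0,⟨0,[(2,0),(32,0)]⟩,⟨0,[(27,0),(2,0)]⟩⟩,⟨true,0,⟨0,[]⟩,⟨0,[(47,0)]⟩⟩,⟨false,1,⟨0,[(1,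
  0),(0,0),(12,0),(5,0),(21,0)]⟩,⟨2,[(4,2),(9,0),(17,1),(9,0)]⟩⟩,⟨false,0,⟨0,[]⟩,⟨0,[]⟩⟩,⟨false,0,
  ⟨0,[]⟩,⟨0,[]⟩⟩,[.a ⟨true,0,⟨1,[(8,0),(18,0),(0,0),(14,1)]⟩,⟨0,[(21,0),(1,0)]⟩⟩ ⟨true,0,⟨0,[(3,
  0)]⟩,⟨0,[(1,0),(41,0)]⟩⟩ ⟨false,1,⟨1,[(2,0),(9,0),(2,0),(8,0),(3,0)]⟩,⟨15,[(1,6),(2,6),(5,6),(3,
  0),(5,1),(0,3),(5,8),(4,3)]⟩⟩,.o ⟨false,1,⟨7,[(8,3),(16,0),(0,0),(11,1),(4,7),(1,3)]⟩,⟨0,[(10,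
  0)]⟩⟩,.o ⟨false,0,⟨5,[(0,3),(10,0),(5,0),(9,1),(2,2),(2,2)]⟩,⟨1,[(28,1),(9,0),(5,0)]⟩⟩,.o ⟨false,
  0,⟨0,[(27,0),(2,0),(2,0)]⟩,⟨1,[(2,1),(7,0),(1,0),(8,0),(22,0)]⟩⟩]⟩)) (.Q [0,0,0,0,0,-1,0,0,0,1,0,
  -1] (.ed true [0,1,0,1] .k) (.R ⟨1,false,false,false,[1,0,0,-1],[1,0,-1],[1,1,0,0,0,0,0,0,-1],(⟨0,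
  [(27,0)]⟩,⟨0,[(28,0)]⟩),(⟨0,[(36,0)]⟩,⟨0,[(37,0)]⟩),⟨0,[(0,0)]⟩,.k,.k,(.x (-1) ⟨15,[(11,3),(5,3),
  (7,6),(0,6),(11,1)]⟩ ⟨0,[(40,0)]⟩),.k,(.x 0 ⟨4,[(11,2),(7,0),(1,1),(9,1),(1,0)]⟩ ⟨9,[(9,1),(10,3),
  (4,2),(0,2),(9,9),(1,1),(1,9)]⟩),.k,⟨false,1,⟨1,[(15,0),(7,0),(1,0),(5,0)]⟩,⟨0,[(3,0),(17,0)]⟩⟩,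
  ⟨true,0,⟨0,[(27,0),(2,0)]⟩,⟨0,[(2,0),(32,0)]⟩⟩,⟨false,0,⟨0,[]⟩,⟨3,[(25,0),(0,0),(18,1)]⟩⟩,⟨false,
  0,⟨10,[(1,1),(2,8),(9,0),(5,1),(0,3),(5,1),(4,5),(8,1)]⟩,⟨1,[(2,1),(22,0),(18,0)]⟩⟩,⟨true,0,⟨0,
  [(42,0)]⟩,⟨0,[(43,0)]⟩⟩,⟨false,0,⟨10,[(1,0),(2,9),(9,5),(5,0),(0,1),(5,0),(4,2),(8,0)]⟩,⟨3,[(2,2),
  (9,0),(2,0),(8,0),(0,1),(2,0),(14,1)]⟩⟩,[.a ⟨true,0,⟨0,[(21,0),(1,0),(19,0)]⟩,⟨1,[(8,0),(18,0),(0,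
  0)]⟩⟩ ⟨false,1,⟨1,[(25,0),(18,0),(2,1)]⟩,⟨3,[(1,1),(1,1),(9,0),(7,0),(19,0)]⟩⟩ ⟨true,0,⟨0,[(27,0),
  (2,0),(4,0)]⟩,⟨0,[(2,0)]⟩⟩,.o ⟨false,1,⟨0,[(29,0),(15,0)]⟩,⟨0,[(31,0)]⟩⟩,.o ⟨false,1,⟨1,[(28,1),
  (9,0),(5,0)]⟩,⟨0,[(21,0),(5,0),(2,0),(0,0)]⟩⟩,.e ⟨false,1,⟨1,[(25,0),(18,0)]⟩,⟨3,[(3,3),(29,0),(0,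
  0),(6,1)]⟩⟩ ⟨false,1,⟨3,[(4,1),(5,0),(1,0),(8,0),(3,0),(1,1),(4,1),(12,1)]⟩,⟨0,[(2,0)]⟩⟩]⟩) (.R
  ⟨0,false,false,false,[1,0,0,-1],[1,0,-1],[0,1,0,0,0,0,0,0,-1],(⟨0,[(27,0)]⟩,⟨0,[(28,0)]⟩),(⟨0,
  [(36,0)]⟩,⟨0,[(37,0)]⟩),⟨0,[(0,0)]⟩,.k,.k,(.x (-1) ⟨15,[(11,3),(5,3),(7,6),(0,6),(11,1)]⟩ ⟨0,[(40,
  0)]⟩),.k,.k,.k,⟨false,1,⟨1,[(15,0),(7,0),(1,0),(5,0)]⟩,⟨0,[(3,0),(17,0)]⟩⟩,⟨true,0,⟨0,[(27,0),(2,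
  0)]⟩,⟨5,[(0,3),(10,0),(5,0),(6,2),(3,1)]⟩⟩,⟨true,0,⟨0,[(47,0)]⟩,⟨0,[]⟩⟩,⟨false,0,⟨10,[(1,1),(2,8),
  (9,0),(5,1),(0,3),(5,1),(4,5),(8,1)]⟩,⟨1,[(2,1),(22,0),(18,0)]⟩⟩,⟨false,0,⟨0,[]⟩,⟨0,[]⟩⟩,⟨false,0,
  ⟨0,[]⟩,⟨0,[]⟩⟩,[.a ⟨true,0,⟨0,[(21,0),(1,0),(19,0)]⟩,⟨1,[(8,0),(18,0),(0,0)]⟩⟩ ⟨false,1,⟨1,[(25,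
  0),(18,0),(2,1)]⟩,⟨3,[(1,1),(1,1),(9,0),(7,0),(19,0)]⟩⟩ ⟨true,0,⟨0,[(27,0),(2,0),(4,0)]⟩,⟨0,[(2,
  0)]⟩⟩,.o ⟨false,1,⟨0,[(29,0),(15,0)]⟩,⟨0,[(31,0)]⟩⟩,.o ⟨false,1,⟨1,[(28,1),(9,0),(5,0)]⟩,⟨0,[(21,
  0),(5,0),(2,0),(0,0)]⟩⟩,.e ⟨false,1,⟨1,[(25,0),(18,0)]⟩,⟨3,[(3,3),(29,0),(0,0),(6,1)]⟩⟩ ⟨false,1,
  ⟨3,[(4,1),(5,0),(1,0),(8,0),(3,0),(1,1),(4,1),(12,1)]⟩,⟨0,[(2,0)]⟩⟩]⟩))) (.I [0,0,-2,-2,1,0,0,0,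
  -1] (.R ⟨1,false,false,false,[1,0,0,-1],[1,0,-1],[1,0,0,0,0,0,0,0,-1],(⟨0,[(26,0)]⟩,⟨0,[(27,0)]⟩),
  (⟨0,[(35,0)]⟩,⟨0,[(36,0)]⟩),⟨3,[(1,1),(5,0),(2,0),(5,0),(9,1)]⟩,.k,.k,(.x (-1) ⟨15,[(10,3),(5,3),
  (7,6),(0,6),(11,1)]⟩ ⟨0,[(39,0)]⟩),.k,(.r (-1) ⟨15,[(0,11),(5,7),(17,2),(0,0)]⟩ ⟨5,[(2,5),(10,2),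
  (17,1),(0,4),(1,0),(5,0)]⟩),.k,⟨false,1,⟨14,[(0,4),(3,1),(1,2),(1,1),(3,1),(1,2),(7,1),(1,4)]⟩,⟨0,
  [(2,0),(31,0)]⟩⟩,⟨true,0,⟨0,[(26,0),(2,0)]⟩,⟨0,[(20,0),(6,0),(2,0)]⟩⟩,⟨true,0,⟨0,[]⟩,⟨0,[(46,
  0)]⟩⟩,⟨false,0,⟨1,[(1,0),(0,0),(0,0),(27,0),(8,0)]⟩,⟨3,[(0,1),(3,1),(19,0),(2,3),(9,0)]⟩⟩,⟨false,
  1,⟨23,[(4,3),(8,7),(10,4),(0,4),(11,1),(6,11)]⟩,⟨0,[(42,0)]⟩⟩,⟨false,0,⟨3,[(1,0),(0,0),(0,2),(9,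
  1),(17,0),(8,0)]⟩,⟨3,[(0,1),(6,1),(16,0),(2,3),(9,0)]⟩⟩,[.e ⟨false,1,⟨1,[(24,0),(18,0)]⟩,⟨0,[(2,
  0)]⟩⟩ ⟨false,0,⟨0,[(1,0)]⟩,⟨7,[(4,1),(9,3),(8,1),(0,0),(0,0),(1,7),(9,1)]⟩⟩,.o ⟨false,1,⟨0,[(28,
  0),(15,0)]⟩,⟨0,[(30,0)]⟩⟩,.o ⟨false,1,⟨1,[(27,1),(9,0),(5,0)]⟩,⟨1,[(1,1),(5,0),(21,0),(2,0)]⟩⟩,.a
  ⟨true,0,⟨0,[(27,0)]⟩,⟨0,[(26,0)]⟩⟩ ⟨false,1,⟨8,[(0,4),(3,0),(3,0),(3,2),(0,0),(6,3),(3,1),(19,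
  0)]⟩,⟨1,[(2,1),(29,0),(0,0)]⟩⟩ ⟨true,0,⟨0,[(1,0)]⟩,⟨0,[(27,0),(2,0)]⟩⟩]⟩) (.I [0,1,0,-1,0,0,0,1]
  (.I [0,0,-2,-2,1,0,0,2] (.R ⟨1,false,false,false,[1,0,0,-1],[1,0,-1],[0,0,0,-1,0,0,0,0,-1],(⟨0,
  [(28,0)]⟩,⟨0,[(29,0)]⟩),(⟨0,[(37,0)]⟩,⟨0,[(38,0)]⟩),⟨3,[(3,1),(5,0),(2,0),(5,0),(9,1)]⟩,.k,.k,(.x
  (-1) ⟨15,[(12,3),(5,3),(7,6),(0,6),(11,1)]⟩ ⟨0,[(41,0)]⟩),.k,(.r (-1) ⟨1,[(0,0),(25,0)]⟩ ⟨15,[(2,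
  5),(12,1),(11,4),(5,1),(0,3),(1,11),(9,0)]⟩),.k,⟨false,1,⟨1,[(0,0),(25,0)]⟩,⟨2,[(4,2),(6,0),(3,0),
  (6,0),(2,0)]⟩⟩,⟨true,0,⟨0,[(28,0),(2,0)]⟩,⟨0,[(22,0),(6,0),(2,0)]⟩⟩,⟨true,0,⟨0,[(44,0)]⟩,⟨0,[(43,
  0)]⟩⟩,⟨false,0,⟨1,[(3,0),(0,0),(0,0),(27,0),(8,0)]⟩,⟨1,[(9,0),(3,0),(5,0),(2,0),(3,0),(2,1)]⟩⟩,
  ⟨false,1,⟨3,[(26,0),(0,0),(18,1)]⟩,⟨0,[]⟩⟩,⟨false,0,⟨5,[(2,0),(0,3),(0,0),(0,1),(9,1),(11,0),(14,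
  1)]⟩,⟨1,[(9,0),(3,0),(8,0),(3,0),(2,1),(2,0),(11,0)]⟩⟩,[.e ⟨false,1,⟨1,[(16,0),(9,0),(9,0),(7,
  0)]⟩,⟨1,[(2,0),(1,0),(40,0)]⟩⟩ ⟨false,0,⟨0,[(3,0)]⟩,⟨7,[(6,1),(9,3),(8,1),(0,0),(0,0),(1,7),(9,
  1)]⟩⟩,.o ⟨false,1,⟨0,[(30,0),(15,0)]⟩,⟨0,[(32,0)]⟩⟩,.o ⟨false,1,⟨1,[(29,1),(9,0),(5,0)]⟩,⟨1,[(3,
  1),(5,0),(21,0),(2,0)]⟩⟩,.a ⟨true,0,⟨0,[(29,0)]⟩,⟨0,[(28,0)]⟩⟩ ⟨false,1,⟨1,[(0,0),(21,1),(3,0)]⟩,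
  ⟨7,[(2,3),(23,0),(0,2)]⟩⟩ ⟨true,0,⟨0,[(3,0)]⟩,⟨0,[(29,0),(2,0)]⟩⟩]⟩) (.R ⟨1,false,false,false,[1,
  0,0,-1],[1,0,-1],[1,1,0,0,0,0,0,0,-1],(⟨0,[(28,0)]⟩,⟨0,[(29,0)]⟩),(⟨0,[(37,0)]⟩,⟨0,[(38,0)]⟩),⟨3,
  [(3,1),(5,0),(2,0),(5,0),(9,1)]⟩,.k,.k,(.x (-1) ⟨15,[(12,3),(5,3),(7,6),(0,6),(11,1)]⟩ ⟨0,[(41,
  0)]⟩),.k,(.x 0 ⟨4,[(12,2),(7,0),(1,1),(9,1),(1,0)]⟩ ⟨9,[(10,1),(10,3),(4,2),(0,2),(9,9),(1,1),(1,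
  9)]⟩),.k,⟨false,1,⟨3,[(1,0),(14,1),(2,0),(4,0),(1,1),(16,0)]⟩,⟨0,[(4,0),(17,0)]⟩⟩,⟨true,0,⟨0,[(28,
  0),(2,0)]⟩,⟨0,[(22,0),(6,0),(2,0)]⟩⟩,⟨false,0,⟨0,[]⟩,⟨3,[(26,0),(0,0),(18,1)]⟩⟩,⟨false,0,⟨1,[(3,
  0),(0,0),(0,0),(27,0),(8,0)]⟩,⟨1,[(9,0),(3,0),(5,0),(2,0),(3,0),(2,1)]⟩⟩,⟨true,0,⟨0,[(43,0)]⟩,⟨0,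
  [(44,0)]⟩⟩,⟨false,0,⟨5,[(2,0),(0,3),(0,0),(0,1),(9,1),(11,0),(14,1)]⟩,⟨1,[(9,0),(3,0),(8,0),(3,0),
  (2,1),(2,0),(11,0)]⟩⟩,[.e ⟨false,1,⟨1,[(26,0),(18,0),(2,1)]⟩,⟨0,[(2,0),(13,0),(5,0),(21,0)]⟩⟩
  ⟨false,0,⟨0,[(3,0)]⟩,⟨7,[(6,1),(9,3),(8,1),(0,0),(0,0),(1,7),(9,1)]⟩⟩,.o ⟨false,1,⟨0,[(30,0),(15,
  0)]⟩,⟨0,[(32,0)]⟩⟩,.o ⟨false,1,⟨1,[(29,1),(9,0),(5,0)]⟩,⟨1,[(3,1),(5,0),(21,0),(2,0)]⟩⟩,.a ⟨true,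
  0,⟨0,[(29,0)]⟩,⟨0,[(28,0)]⟩⟩ ⟨false,1,⟨1,[(26,0),(18,0)]⟩,⟨3,[(2,0),(1,0),(22,0),(14,1),(1,1)]⟩⟩
  ⟨true,0,⟨0,[(3,0)]⟩,⟨0,[(29,0),(2,0)]⟩⟩]⟩)) (.R ⟨1,false,false,false,[1,0,0,-1],[1,0,-1],[1,1,0,0,
  0,0,0,0,-1],(⟨0,[(27,0)]⟩,⟨0,[(28,0)]⟩),(⟨0,[(36,0)]⟩,⟨0,[(37,0)]⟩),⟨3,[(2,1),(5,0),(2,0),(5,0),
  (9,1)]⟩,.k,.k,(.x (-1) ⟨15,[(11,3),(5,3),(7,6),(0,6),(11,1)]⟩ ⟨0,[(40,0)]⟩),.k,(.x 0 ⟨4,[(11,2),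
  (7,0),(1,1),(9,1),(1,0)]⟩ ⟨9,[(9,1),(10,3),(4,2),(0,2),(9,9),(1,1),(1,9)]⟩),.k,⟨false,1,⟨1,[(15,
  0),(7,0),(1,0),(5,0)]⟩,⟨0,[(3,0),(17,0)]⟩⟩,⟨true,0,⟨0,[(27,0),(2,0)]⟩,⟨0,[(21,0),(6,0),(2,0)]⟩⟩,
  ⟨false,0,⟨0,[]⟩,⟨3,[(25,0),(0,0),(18,1)]⟩⟩,⟨false,0,⟨1,[(2,0),(0,0),(0,0),(27,0),(8,0)]⟩,⟨1,[(0,
  0),(7,0),(3,0),(12,0),(2,1),(2,0)]⟩⟩,⟨true,0,⟨0,[(42,0)]⟩,⟨0,[(43,0)]⟩⟩,⟨false,0,⟨5,[(1,0),(0,3),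
  (0,0),(0,1),(9,1),(11,0),(14,1)]⟩,⟨1,[(8,0),(3,0),(8,0),(3,0),(2,1),(2,0),(11,0)]⟩⟩,[.e ⟨false,1,
  ⟨1,[(25,0),(18,0),(2,1)]⟩,⟨0,[(1,0),(13,0),(5,0),(21,0)]⟩⟩ ⟨false,0,⟨0,[(2,0)]⟩,⟨7,[(5,1),(9,3),
  (8,1),(0,0),(0,0),(1,7),(9,1)]⟩⟩,.o ⟨false,1,⟨0,[(29,0),(15,0)]⟩,⟨0,[(31,0)]⟩⟩,.o ⟨false,1,⟨1,
  [(28,1),(9,0),(5,0)]⟩,⟨1,[(2,1),(5,0),(21,0),(2,0)]⟩⟩,.a ⟨true,0,⟨0,[(28,0)]⟩,⟨0,[(27,0)]⟩⟩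
  ⟨false,1,⟨1,[(25,0),(18,0)]⟩,⟨3,[(1,0),(1,0),(22,0),(14,1),(1,1)]⟩⟩ ⟨true,0,⟨0,[(2,0)]⟩,⟨0,[(28,
  0),(2,0)]⟩⟩]⟩)))) (.Q [0,0,0,1,0,0,0,0,0,1,0,-1] (.p false [0,0,0,1] [1] (⟨0,[(25,0)]⟩,⟨0,[(24,
  0)]⟩) .k 1 (⟨0,[]⟩,⟨0,[]⟩) .k .k) (.Q [0,0,0,0,0,-1,0,0,0,1,0,-1] (.ed true [0,1,0,1] .k) (.R ⟨1,
  false,false,true,[1,0,0,-1],[0,1],[1,1,0,0,0,0,0,0,-1],(⟨0,[(26,0)]⟩,⟨0,[(27,0)]⟩),(⟨0,[(39,0)]⟩,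
  ⟨0,[(38,0)]⟩),⟨0,[(0,0)]⟩,.k,.k,(.x (-1) ⟨15,[(10,3),(5,3),(7,6),(0,6),(11,1)]⟩ ⟨0,[(39,0)]⟩),(.x
  (-1) ⟨15,[(10,3),(5,3),(7,6),(0,6),(11,1)]⟩ ⟨0,[(39,0)]⟩),(.r (-1) ⟨0,[(2,0),(11,0),(19,0),(7,
  0)]⟩ ⟨9,[(3,9),(8,1),(0,1),(13,9),(4,4),(0,2),(7,11)]⟩),.k,⟨false,1,⟨0,[(2,0),(11,0),(19,0)]⟩,⟨0,
  [(3,0),(23,0),(13,0)]⟩⟩,⟨true,0,⟨0,[(26,0)]⟩,⟨0,[(20,0),(6,0),(1,0),(0,0)]⟩⟩,⟨false,0,⟨0,[]⟩,⟨3,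
  [(24,0),(0,0),(18,1)]⟩⟩,⟨false,0,⟨1,[(3,1),(0,0),(21,0),(0,0),(3,1)]⟩,⟨5,[(2,5),(4,0),(3,3),(8,1),
  (2,0),(3,5),(9,1),(2,1),(1,1)]⟩⟩,⟨true,0,⟨0,[(41,0)]⟩,⟨0,[(42,0)]⟩⟩,⟨false,0,⟨4,[(1,1),(1,4),(0,
  2),(8,0),(13,1),(3,4)]⟩,⟨5,[(2,5),(4,0),(3,3),(8,1),(2,0),(3,5),(9,1),(2,1),(1,7)]⟩⟩,[.o ⟨false,0,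
  ⟨0,[(41,0)]⟩,⟨1,[(37,0),(4,1),(1,0)]⟩⟩,.a ⟨true,0,⟨0,[(1,0),(25,0)]⟩,⟨0,[(42,0)]⟩⟩ ⟨true,0,⟨0,[(2,
  0)]⟩,⟨0,[(3,0),(23,0),(18,0)]⟩⟩ ⟨false,0,⟨0,[(1,0)]⟩,⟨15,[(11,7),(11,3),(0,0),(0,0),(1,15),(9,5),
  (4,7)]⟩⟩,.o ⟨false,1,⟨1,[(27,1),(9,0),(5,0)]⟩,⟨3,[(2,1),(0,1),(22,1),(1,0),(0,0),(0,0),(1,0)]⟩⟩,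
  .e ⟨false,1,⟨1,[(24,0),(18,0)]⟩,⟨0,[(3,0),(23,0)]⟩⟩ ⟨false,0,⟨0,[(1,0)]⟩,⟨1,[(27,1),(9,0),(4,1),
  (1,0)]⟩⟩]⟩) (.I [1,0,0,1,0,0,0,0,-1] (.R ⟨0,false,false,true,[1,0,0,-1],[0,1],[0,1,0,0,0,0,0,0,
  -1],(⟨0,[(27,0)]⟩,⟨0,[(28,0)]⟩),(⟨0,[(40,0)]⟩,⟨0,[(39,0)]⟩),⟨0,[(1,0)]⟩,.k,.k,(.x (-1) ⟨15,[(11,
  3),(5,3),(7,6),(0,6),(11,1)]⟩ ⟨0,[(40,0)]⟩),(.x (-1) ⟨15,[(11,3),(5,3),(7,6),(0,6),(11,1)]⟩ ⟨0,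
  [(40,0)]⟩),.k,.k,⟨false,1,⟨0,[(3,0),(11,0),(19,0)]⟩,⟨0,[(4,0),(23,0),(13,0)]⟩⟩,⟨true,0,⟨0,[(27,
  0)]⟩,⟨5,[(1,3),(9,0),(5,0),(10,1),(1,2),(2,2)]⟩⟩,⟨true,0,⟨0,[(47,0)]⟩,⟨0,[]⟩⟩,⟨false,0,⟨1,[(4,1),
  (0,0),(21,0),(0,0),(3,1)]⟩,⟨15,[(1,15),(1,3),(7,0),(0,9),(4,8),(1,3),(4,0),(0,5),(15,7),(1,5)]⟩⟩,
  ⟨false,0,⟨0,[]⟩,⟨0,[]⟩⟩,⟨false,0,⟨0,[]⟩,⟨0,[]⟩⟩,[.o ⟨false,0,⟨0,[(42,0)]⟩,⟨1,[(38,0),(4,1),(1,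
  0)]⟩⟩,.a ⟨true,0,⟨0,[(2,0),(25,0)]⟩,⟨0,[(43,0)]⟩⟩ ⟨true,0,⟨0,[(0,0),(42,0)]⟩,⟨0,[(4,0),(23,0),(18,
  0)]⟩⟩ ⟨false,0,⟨0,[(2,0)]⟩,⟨15,[(12,7),(11,3),(0,0),(0,0),(1,15),(9,5),(4,7)]⟩⟩,.o ⟨false,1,⟨1,
  [(28,1),(9,0),(5,0)]⟩,⟨3,[(3,1),(0,1),(22,1),(1,0),(0,0),(0,0),(1,0)]⟩⟩,.e ⟨false,1,⟨1,[(25,0),
  (18,0)]⟩,⟨0,[(4,0),(23,0)]⟩⟩ ⟨false,0,⟨0,[(2,0)]⟩,⟨1,[(28,1),(9,0),(4,1),(1,0)]⟩⟩]⟩) (.R ⟨1,false,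
  false,false,[0,0,0,1],[1,-1],[0,0,0,-1,0,0,0,0,1],(⟨0,[(28,0)]⟩,⟨0,[(27,0)]⟩),(⟨0,[(39,0)]⟩,⟨0,
  [(40,0)]⟩),⟨2,[(1,0),(9,0),(5,0),(10,1)]⟩,.k,.k,(.r (-1) ⟨15,[(0,7),(11,3),(2,3),(8,3),(0,0),(0,
  4),(5,3),(12,1)]⟩ ⟨9,[(3,9),(9,1),(0,1),(18,4),(0,2),(7,1)]⟩),(.x 0 ⟨0,[(40,0)]⟩ ⟨15,[(11,3),(5,
  3),(7,6),(0,6),(11,1)]⟩),.k,.k,⟨true,0,⟨9,[(0,9),(12,1),(0,1),(18,4),(0,2),(7,1)]⟩,⟨0,[(3,0)]⟩⟩,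
  ⟨false,1,⟨1,[(28,1),(9,0),(5,0)]⟩,⟨0,[(27,0)]⟩⟩,⟨true,0,⟨0,[(43,0)]⟩,⟨0,[(42,0)]⟩⟩,⟨false,1,⟨15,
  [(1,15),(1,3),(7,0),(0,9),(4,8),(1,3),(4,0),(0,5),(15,7),(1,5)]⟩,⟨13,[(0,5),(1,5),(1,7),(0,4),(8,
  1),(9,2),(7,7),(1,5)]⟩⟩,⟨false,1,⟨3,[(25,0),(0,0),(18,1)]⟩,⟨0,[]⟩⟩,⟨false,1,⟨3,[(1,3),(1,1),(1,0),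
  (5,0),(0,1),(4,0),(3,1),(3,0),(19,0)]⟩,⟨1,[(0,1),(1,1),(30,0),(0,0)]⟩⟩,[.a ⟨true,0,⟨0,[(43,0)]⟩,
  ⟨0,[(2,0),(25,0)]⟩⟩ ⟨true,0,⟨0,[(0,0)]⟩,⟨9,[(3,9),(9,1),(0,1),(18,4),(0,2),(7,1)]⟩⟩ ⟨false,1,⟨5,
  [(1,3),(9,0),(0,5),(4,0),(6,2),(3,1)]⟩,⟨1,[(2,1),(30,0),(0,0)]⟩⟩,.o ⟨false,1,⟨1,[(38,0),(4,1),(1,
  0)]⟩,⟨0,[(42,0)]⟩⟩,.o ⟨false,0,⟨3,[(3,1),(0,1),(22,1),(1,0),(0,0),(0,0),(1,0)]⟩,⟨1,[(28,1),(9,0),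
  (5,0)]⟩⟩,.o ⟨false,0,⟨0,[(27,0),(2,0),(2,0)]⟩,⟨13,[(1,13),(7,3),(1,1),(5,5),(1,1),(18,0),(5,
  8)]⟩⟩]⟩))) (.I [1,1,0,0,0,0,0,0,1] (.R ⟨1,false,false,false,[0,0,0,1],[0,0,1],[1,1,0,0,0,0,0,0,1],
  (⟨0,[(27,0)]⟩,⟨0,[(26,0)]⟩),(⟨0,[(36,0)]⟩,⟨0,[(35,0)]⟩),⟨19,[(1,5),(2,0),(5,4),(2,1),(2,4),(10,
  13)]⟩,.k,.k,(.r (-1) ⟨1,[(14,0),(10,0),(8,0),(7,0)]⟩ ⟨9,[(2,9),(9,1),(0,1),(18,4),(0,2),(7,1)]⟩),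
  .k,(.r (-1) ⟨1,[(14,0),(10,0),(8,2),(7,0)]⟩ ⟨4,[(2,4),(3,1),(5,0),(19,0),(0,0),(7,0)]⟩),.k,⟨true,
  0,⟨0,[(0,0),(33,0)]⟩,⟨1,[(2,1),(3,0),(33,0),(1,0)]⟩⟩,⟨false,1,⟨9,[(1,5),(2,0),(8,1),(9,4),(3,3),
  (15,9)]⟩,⟨0,[(26,0),(2,0)]⟩⟩,⟨false,0,⟨0,[]⟩,⟨3,[(24,0),(0,0),(18,1)]⟩⟩,⟨false,1,⟨3,[(1,1),(0,1),
  (1,1),(9,1),(5,1),(3,0),(2,1),(16,0)]⟩,⟨0,[(3,0),(27,0)]⟩⟩,⟨true,0,⟨0,[(41,0)]⟩,⟨0,[(42,0)]⟩⟩,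
  ⟨false,1,⟨5,[(1,1),(0,3),(1,3),(3,1),(11,1),(3,0),(2,3),(15,0),(0,1)]⟩,⟨0,[(3,0),(27,0),(10,0)]⟩⟩,
  [.a ⟨true,0,⟨1,[(7,0),(18,0),(0,0)]⟩,⟨0,[(20,0),(1,0),(19,0)]⟩⟩ ⟨true,0,⟨0,[(0,0)]⟩,⟨3,[(2,3),(29,
  0),(0,0),(6,1)]⟩⟩ ⟨false,1,⟨7,[(1,3),(2,2),(9,1),(8,0),(3,3),(15,5)]⟩,⟨0,[(26,0),(2,0),(4,0)]⟩⟩,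
  .o ⟨false,1,⟨7,[(7,3),(16,0),(0,0),(11,1),(6,3)]⟩,⟨0,[(28,0)]⟩⟩,.o ⟨false,0,⟨3,[(2,1),(0,1),(22,
  1),(1,0),(0,0),(0,0),(1,0)]⟩,⟨1,[(27,1),(9,0),(5,0)]⟩⟩,.o ⟨false,0,⟨0,[(26,0),(2,0),(2,0)]⟩,⟨8,
  [(1,8),(2,1),(3,0),(0,0),(3,1),(6,0),(22,7)]⟩⟩]⟩) (.Q [0,0,0,0,0,1,0,0,0,-1,0,1] (.ed false [0,1,
  0,1] .k) (.R ⟨0,false,false,true,[1,0,0,-1],[0,1],[0,1,0,0,0,0,0,0,-1],(⟨0,[(27,0)]⟩,⟨0,[(28,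
  0)]⟩),(⟨0,[(40,0)]⟩,⟨0,[(39,0)]⟩),⟨0,[(0,0)]⟩,.k,.k,(.x (-1) ⟨15,[(11,3),(5,3),(7,6),(0,6),(11,
  1)]⟩ ⟨0,[(40,0)]⟩),(.x (-1) ⟨15,[(11,3),(5,3),(7,6),(0,6),(11,1)]⟩ ⟨0,[(40,0)]⟩),.k,.k,⟨false,1,
  ⟨0,[(3,0),(11,0),(19,0)]⟩,⟨0,[(4,0),(23,0),(13,0)]⟩⟩,⟨true,0,⟨0,[(27,0)]⟩,⟨5,[(2,2),(7,0),(2,0),
  (14,2),(1,1),(2,2)]⟩⟩,⟨true,0,⟨0,[(47,0)]⟩,⟨0,[]⟩⟩,⟨false,0,⟨1,[(4,1),(0,0),(21,0),(0,0),(3,1)]⟩,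
  ⟨3,[(1,1),(0,3),(22,0),(18,1),(0,0)]⟩⟩,⟨false,0,⟨0,[]⟩,⟨0,[]⟩⟩,⟨false,0,⟨0,[]⟩,⟨0,[]⟩⟩,[.o ⟨false,
  0,⟨0,[(42,0)]⟩,⟨1,[(38,0),(4,1),(1,0)]⟩⟩,.e ⟨true,0,⟨0,[(1,0),(3,0),(4,0),(3,0),(28,4)]⟩,⟨0,[(4,
  0),(23,0),(18,0)]⟩⟩ ⟨true,0,⟨9,[(13,1),(0,1),(12,9),(5,4),(0,2),(7,1)]⟩,⟨0,[(2,0)]⟩⟩,.o ⟨false,1,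
  ⟨1,[(28,1),(9,0),(5,0)]⟩,⟨3,[(3,1),(0,1),(22,1),(1,0),(0,0),(0,0),(1,0)]⟩⟩,.a ⟨true,0,⟨0,[(28,
  0)]⟩,⟨0,[(27,0)]⟩⟩ ⟨false,1,⟨1,[(25,0),(18,0)]⟩,⟨0,[(4,0),(23,0)]⟩⟩ ⟨true,0,⟨0,[(27,0),(14,0)]⟩,
  ⟨0,[(2,0)]⟩⟩]⟩) (.R ⟨1,false,false,true,[1,0,0,-1],[0,1],[1,1,0,0,0,0,0,0,-1],(⟨0,[(27,0)]⟩,⟨0,
  [(28,0)]⟩),(⟨0,[(40,0)]⟩,⟨0,[(39,0)]⟩),⟨0,[(0,0)]⟩,.k,.k,(.x (-1) ⟨15,[(11,3),(5,3),(7,6),(0,6),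
  (11,1)]⟩ ⟨0,[(40,0)]⟩),(.x (-1) ⟨15,[(11,3),(5,3),(7,6),(0,6),(11,1)]⟩ ⟨0,[(40,0)]⟩),(.r (-1) ⟨0,
  [(3,0),(11,0),(19,0),(7,0)]⟩ ⟨9,[(4,9),(8,1),(0,1),(13,9),(4,4),(0,2),(7,11)]⟩),.k,⟨false,1,⟨0,
  [(3,0),(11,0),(19,0)]⟩,⟨0,[(4,0),(23,0),(13,0)]⟩⟩,⟨true,0,⟨0,[(27,0)]⟩,⟨5,[(2,2),(7,0),(2,0),(14,
  2),(1,1),(2,2)]⟩⟩,⟨false,0,⟨0,[]⟩,⟨3,[(25,0),(0,0),(18,1)]⟩⟩,⟨false,0,⟨1,[(4,1),(0,0),(21,0),(0,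
  0),(3,1)]⟩,⟨3,[(1,1),(0,3),(22,0),(18,1),(0,0)]⟩⟩,⟨true,0,⟨0,[(42,0)]⟩,⟨0,[(43,0)]⟩⟩,⟨false,0,⟨2,
  [(4,2),(0,1),(8,0),(12,0),(0,0),(3,2)]⟩,⟨7,[(1,1),(0,7),(12,3),(5,3),(3,2),(17,3),(1,0)]⟩⟩,[.o
  ⟨false,0,⟨0,[(42,0)]⟩,⟨1,[(38,0),(4,1),(1,0)]⟩⟩,.e ⟨true,0,⟨0,[(3,0)]⟩,⟨0,[(4,0),(23,0),(18,0)]⟩⟩
  ⟨true,0,⟨9,[(13,1),(0,1),(12,9),(5,4),(0,2),(7,1)]⟩,⟨0,[(2,0)]⟩⟩,.o ⟨false,1,⟨1,[(28,1),(9,0),(5,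
  0)]⟩,⟨3,[(3,1),(0,1),(22,1),(1,0),(0,0),(0,0),(1,0)]⟩⟩,.a ⟨true,0,⟨0,[(28,0)]⟩,⟨0,[(27,0)]⟩⟩
  ⟨false,1,⟨1,[(25,0),(18,0)]⟩,⟨0,[(4,0),(23,0)]⟩⟩ ⟨true,0,⟨0,[(27,0),(14,0)]⟩,⟨0,[(2,
  0)]⟩⟩]⟩))))))))

theorem ok191 : chk (cU (-1) true 10) t191 l105 = true := by decide +kernel

noncomputable def t205 : Tre :=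
  (.Q [0,0,-2,0,1,0,-1,0,0,0,1] (.p true [0,0,1] [] (⟨0,[(24,0)]⟩,⟨0,[(23,0)]⟩) .k 0 (⟨0,[]⟩,⟨0,
  []⟩) .k .k) (.Q [0,0,2,0,-1,0,1,0,0,1,-1] (.p false [0,0,1] [1] (⟨0,[(25,0)]⟩,⟨0,[(24,0)]⟩) .k 1
  (⟨0,[]⟩,⟨0,[]⟩) .k .k) (.K ⟨0,[1,1,-1],1,0,(⟨1,[(0,0),(1,0),(22,0)]⟩,⟨0,[(6,0),(1,0),(0,0)]⟩),.k,
  .k,(.x (-1) ⟨0,[(2,0)]⟩ ⟨0,[(0,0),(5,0),(19,1),(0,0)]⟩),.k,.k,[⟨0,[(0,0)]⟩,⟨0,[(1,0)]⟩,⟨2,[(0,0),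
  (1,0),(17,2),(5,0),(1,1),(3,2)]⟩,⟨0,[(3,0)]⟩]⟩) (.Q [0,-1,-3,0,1,0,-1,0,-1,-1,1,1] (.p true [0,0,
  1] [1,0,0,-1] (⟨0,[(26,0)]⟩,⟨0,[(25,0)]⟩) .k 2 (⟨0,[(16,0)]⟩,⟨0,[(17,0)]⟩) .k (.x 0 ⟨0,[(22,0),(3,
  0)]⟩ ⟨39,[(1,3),(0,19),(3,19),(2,7),(4,4),(0,4),(11,5)]⟩)) (.Q [0,-1,-1,0,0,0,0,0,-1,0,0,1] (.p
  true [0,0,0,1] [] (⟨0,[(18,0)]⟩,⟨0,[(17,0)]⟩) .k 0 (⟨0,[]⟩,⟨0,[]⟩) .k .k) (.Q [0,-1,-1,2,0,0,-1,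
  -1,-1,-1,1,1] (.p true [0,0,1] [1,0,0,-1] (⟨0,[(28,0)]⟩,⟨0,[(27,0)]⟩) .k 2 (⟨0,[(18,0)]⟩,⟨0,[(19,
  0)]⟩) .k (.r (-1) ⟨11,[(3,3),(3,5),(8,0),(0,6),(4,5),(2,1),(8,5)]⟩ ⟨5,[(0,3),(5,1),(8,1),(0,0),(1,
  3),(1,3),(8,0),(4,1)]⟩)) (.Q [0,0,0,0,0,-2,0,0,0,0,1] (.p true [0,0,1] [] (⟨0,[(29,0)]⟩,⟨0,[(28,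
  0)]⟩) .k 0 (⟨0,[]⟩,⟨0,[]⟩) .k .k) (.R ⟨1,false,false,false,[0,-1,1],[1,0,0,-1],[1,0,-1,-1,0,0,0,
  1],(⟨1,[(0,0),(29,0)]⟩,⟨0,[(29,0),(3,0)]⟩),(⟨0,[(20,0)]⟩,⟨0,[(21,0)]⟩),⟨0,[(0,0)]⟩,.k,.k,(.x 0 ⟨1,
  [(0,1),(25,2),(0,0)]⟩ ⟨0,[(6,0)]⟩),(.r (-2) ⟨5,[(5,3),(3,1),(8,1),(0,4),(4,3),(11,7),(1,0)]⟩ ⟨0,
  [(3,0),(4,1),(11,0),(3,0),(11,0)]⟩),(.r (-2) ⟨1,[(5,1),(13,0),(4,1),(11,3),(1,0)]⟩ ⟨4,[(1,1),(0,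
  0),(5,5),(9,0),(1,2),(2,0),(0,2)]⟩),.k,⟨false,2,⟨1,[(5,1),(13,0),(4,1),(11,1),(1,0)]⟩,⟨0,[(3,0),
  (4,1),(11,0),(3,0),(11,0)]⟩⟩,⟨true,1,⟨0,[(4,0),(16,0)]⟩,⟨1,[(8,1),(0,0),(10,1),(3,0),(1,0),(9,
  2)]⟩⟩,⟨true,0,⟨0,[]⟩,⟨0,[(40,0)]⟩⟩,⟨false,0,⟨0,[(3,0),(4,0)]⟩,⟨3,[(9,1),(8,0),(0,2),(0,3),(3,1),
  (1,1),(9,5)]⟩⟩,⟨false,1,⟨0,[(35,0),(2,0)]⟩,⟨0,[(36,0)]⟩⟩,⟨false,0,⟨0,[(1,0)]⟩,⟨3,[(9,1),(8,0),(0,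
  2),(0,3),(3,1),(1,1),(9,9)]⟩⟩,[.o ⟨false,0,⟨0,[(3,0),(4,0),(15,0),(11,0)]⟩,⟨7,[(18,0),(0,4),(0,7),
  (2,3),(2,3),(4,1)]⟩⟩,.a ⟨true,0,⟨0,[(2,0)]⟩,⟨1,[(8,0),(7,0),(2,0),(0,1),(3,0),(11,1)]⟩⟩ ⟨true,1,
  ⟨3,[(3,1),(5,1),(9,0),(0,1),(3,1),(11,5),(1,0)]⟩,⟨0,[(8,0),(31,0)]⟩⟩ ⟨false,1,⟨0,[(3,0)]⟩,⟨3,[(8,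
  1),(10,1),(0,3),(3,1),(1,2),(0,0),(8,1),(3,1)]⟩⟩,.o ⟨false,0,⟨0,[(26,0)]⟩,⟨4,[(5,2),(7,0),(17,
  1)]⟩⟩,.o ⟨false,0,⟨1,[(26,2),(0,0)]⟩,⟨0,[(4,0)]⟩⟩]⟩) (.R ⟨0,false,false,false,[0,-1,1],[1,0,0,-1],
  [1,0,-1,-1,0,0,0,1],(⟨0,[(10,0),(1,0),(0,0)]⟩,⟨1,[(0,0),(19,0),(0,0),(7,0)]⟩),(⟨0,[(20,0)]⟩,⟨0,
  [(21,0)]⟩),⟨0,[(0,0)]⟩,.k,.k,(.x 0 ⟨3,[(10,4),(1,1),(10,4),(2,4),(3,4)]⟩ ⟨0,[(6,0)]⟩),(.r (-2) ⟨5,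
  [(5,3),(3,1),(8,1),(0,4),(4,3),(11,7),(1,0)]⟩ ⟨0,[(3,0),(4,1),(11,0),(3,0),(11,0)]⟩),.k,.k,⟨false,
  2,⟨1,[(5,1),(13,0),(4,1),(11,1),(1,0)]⟩,⟨0,[(3,0),(4,1),(11,0),(3,0),(11,0)]⟩⟩,⟨true,1,⟨0,[(4,0),
  (16,0)]⟩,⟨1,[(8,1),(0,0),(10,1),(3,0),(1,0),(9,2)]⟩⟩,⟨true,0,⟨0,[]⟩,⟨0,[(40,0)]⟩⟩,⟨false,0,⟨0,[(3,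
  0),(4,0)]⟩,⟨3,[(9,1),(8,0),(0,2),(0,3),(3,1),(1,1),(9,5)]⟩⟩,⟨false,0,⟨0,[]⟩,⟨0,[]⟩⟩,⟨false,0,⟨0,
  []⟩,⟨0,[]⟩⟩,[.o ⟨false,0,⟨0,[(3,0),(4,0),(15,0),(11,0)]⟩,⟨7,[(18,0),(0,4),(0,7),(2,3),(2,3),(4,
  1)]⟩⟩,.a ⟨true,0,⟨0,[(2,0)]⟩,⟨1,[(8,0),(7,0),(2,0),(0,1),(3,0),(11,1)]⟩⟩ ⟨true,1,⟨3,[(3,1),(5,1),
  (9,0),(0,1),(3,1),(11,5),(1,0)]⟩,⟨0,[(8,0),(31,0)]⟩⟩ ⟨false,1,⟨0,[(3,0)]⟩,⟨3,[(8,1),(10,1),(0,3),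
  (3,1),(1,2),(0,0),(8,1),(3,1)]⟩⟩,.o ⟨false,0,⟨0,[(26,0)]⟩,⟨4,[(5,2),(7,0),(17,1)]⟩⟩,.o ⟨false,0,
  ⟨1,[(26,2),(0,0)]⟩,⟨0,[(4,0)]⟩⟩]⟩)) (.R ⟨2,false,false,true,[0,1],[0,0,0,1],[],(⟨0,[]⟩,⟨0,[]⟩),
  (⟨0,[(20,0)]⟩,⟨0,[(19,0)]⟩),⟨0,[]⟩,.k,.k,.k,(.r 0 ⟨20,[(1,1),(0,0),(4,9),(0,3),(1,5),(1,1),(2,0),
  (1,8),(1,2)]⟩ ⟨1,[(0,0),(1,0),(15,0),(8,0)]⟩),.k,.k,⟨true,0,⟨3,[(1,2),(0,0),(4,1),(11,3),(2,0),(0,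
  1),(6,0),(2,0),(1,1)]⟩,⟨3,[(0,1),(2,1),(3,2),(7,0),(2,0),(1,1),(2,0)]⟩⟩,⟨false,0,⟨3,[(3,0),(3,1),
  (11,3),(2,0),(0,1),(6,0),(2,0),(1,1)]⟩,⟨0,[(20,0),(15,0)]⟩⟩,⟨false,1,⟨1,[(0,0),(1,0),(24,0),(9,
  0)]⟩,⟨5,[(7,1),(0,1),(8,0),(0,0),(15,1)]⟩⟩,⟨true,0,⟨0,[(0,0),(2,0),(3,0)]⟩,⟨0,[(1,0),(32,0)]⟩⟩,
  ⟨false,1,⟨1,[(36,0),(0,0)]⟩,⟨1,[(25,0),(0,0)]⟩⟩,⟨false,1,⟨19,[(0,3),(6,5),(0,1),(3,1),(4,3),(0,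
  11),(0,15),(10,8),(6,0)]⟩,⟨0,[(1,0)]⟩⟩,[.a ⟨true,0,⟨9,[(0,3),(6,2),(7,2),(2,2),(0,5),(4,0),(9,
  1)]⟩,⟨0,[(1,0)]⟩⟩ ⟨false,1,⟨3,[(17,0),(0,0),(17,1)]⟩,⟨0,[]⟩⟩ ⟨true,0,⟨16,[(0,8),(6,9),(2,0),(1,4),
  (5,3),(0,7),(10,5),(3,6)]⟩,⟨0,[(1,0)]⟩⟩,.o ⟨false,1,⟨19,[(0,3),(6,5),(0,1),(3,1),(4,3),(0,11),(0,
  15),(10,8),(6,0)]⟩,⟨0,[(2,0),(4,0),(15,0),(11,0)]⟩⟩,.o ⟨false,1,⟨3,[(17,0),(0,0),(17,1)]⟩,⟨3,[(3,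
  0),(3,1),(14,0),(0,1),(6,0),(2,0),(1,1)]⟩⟩,.e ⟨false,1,⟨1,[(36,0),(0,0)]⟩,⟨1,[(25,0),(0,0)]⟩⟩
  ⟨false,1,⟨19,[(0,3),(6,5),(0,1),(3,1),(4,3),(0,11),(0,15),(10,8),(6,0)]⟩,⟨0,[(1,0)]⟩⟩]⟩)) (.K ⟨0,
  [0,0,0,1],0,0,(⟨0,[(19,0)]⟩,⟨0,[(18,0)]⟩),.k,(.r (-1) ⟨1,[(17,0),(16,1),(0,0)]⟩ ⟨6,[(1,0),(4,3),
  (0,1),(6,0),(1,2),(1,0),(3,1)]⟩),(.x 0 ⟨0,[(31,0)]⟩ ⟨7,[(8,3),(7,2),(0,2),(10,3),(0,1)]⟩),.k,.k,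
  [⟨0,[(19,0)]⟩,⟨0,[(18,0)]⟩,⟨13,[(1,11),(4,12),(3,3),(3,8),(1,0),(2,1),(2,12),(4,7),(2,3),(3,21),
  (3,3)]⟩,⟨0,[(0,0)]⟩]⟩)) (.I [0,0,-2,-2,1,0,0,0,1] (.I [0,0,1,0,0,0,0,0,-1] (.Q [0,-1,1,0,0,0,0,0,
  1,0,0,-1] (.p false [0,0,0,1] [] (⟨0,[(20,0)]⟩,⟨0,[(19,0)]⟩) .k 0 (⟨0,[]⟩,⟨0,[]⟩) .k .k) (.I [1,
  -1,-2,-1,1,0,0,0,1] (.Q [0,0,0,0,0,-1,0,0,0,1,0,-1] (.ed true [0,1,0,1] .k) (.R ⟨1,false,false,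
  false,[1,0,0,-1],[1,0,-1],[1,1,0,0,0,0,0,0,-1],(⟨0,[(22,0)]⟩,⟨0,[(23,0)]⟩),(⟨0,[(31,0)]⟩,⟨0,[(32,
  0)]⟩),⟨0,[(0,0)]⟩,.k,.k,(.x (-1) ⟨7,[(12,3),(7,2),(0,2),(10,3),(0,1)]⟩ ⟨0,[(35,0)]⟩),.k,(.x 0 ⟨0,
  [(12,0),(1,0),(10,0)]⟩ ⟨15,[(5,1),(2,7),(11,4),(0,3),(1,1),(1,9),(5,7),(8,0)]⟩),.k,⟨false,1,⟨0,
  [(3,0),(3,0),(18,0)]⟩,⟨0,[(1,0),(8,0)]⟩⟩,⟨true,0,⟨0,[(22,0),(2,0)]⟩,⟨0,[(16,0),(6,0),(2,0)]⟩⟩,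
  ⟨false,0,⟨0,[]⟩,⟨3,[(20,0),(0,0),(18,1)]⟩⟩,⟨false,0,⟨2,[(1,0),(0,1),(7,0),(4,0),(0,0),(5,0),(4,
  0)]⟩,⟨7,[(3,7),(2,4),(1,2),(3,4),(1,3),(8,7),(2,7),(9,3)]⟩⟩,⟨true,0,⟨0,[(37,0)]⟩,⟨0,[(38,0)]⟩⟩,
  ⟨false,0,⟨0,[(2,0),(4,0),(2,0)]⟩,⟨7,[(3,7),(2,4),(1,2),(3,4),(1,3),(8,7),(2,7),(9,3),(1,7)]⟩⟩,[.o
  ⟨false,0,⟨0,[(6,0),(3,0),(27,0)]⟩,⟨3,[(20,0),(0,0),(4,3),(13,1)]⟩⟩,.o ⟨false,1,⟨0,[(24,0),(15,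
  0)]⟩,⟨0,[(26,0)]⟩⟩,.o ⟨false,1,⟨1,[(23,1),(9,0),(5,0)]⟩,⟨3,[(6,0),(3,1),(11,3),(2,0),(0,1),(6,0),
  (2,0),(1,1)]⟩⟩,.a ⟨true,0,⟨0,[(23,0)]⟩,⟨0,[(22,0)]⟩⟩ ⟨false,1,⟨1,[(20,0),(18,0)]⟩,⟨0,[(2,0),(20,
  0)]⟩⟩ ⟨true,0,⟨0,[(6,0),(3,0),(11,0),(15,0)]⟩,⟨0,[(23,0),(2,0)]⟩⟩]⟩) (.R ⟨0,false,false,false,[1,
  0,0,-1],[1,0,-1],[0,1,0,0,0,0,0,0,-1],(⟨0,[(22,0)]⟩,⟨0,[(23,0)]⟩),(⟨0,[(31,0)]⟩,⟨0,[(32,0)]⟩),⟨0,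
  [(0,0)]⟩,.k,.k,(.x (-1) ⟨7,[(12,3),(7,2),(0,2),(10,3),(0,1)]⟩ ⟨0,[(35,0)]⟩),.k,.k,.k,⟨false,1,⟨0,
  [(3,0),(3,0),(18,0)]⟩,⟨0,[(1,0),(8,0)]⟩⟩,⟨true,0,⟨0,[(22,0),(2,0)]⟩,⟨4,[(0,2),(11,1),(1,0),(4,0),
  (3,1),(4,0)]⟩⟩,⟨true,0,⟨0,[(42,0)]⟩,⟨0,[]⟩⟩,⟨false,0,⟨2,[(1,0),(0,1),(7,0),(4,0),(0,0),(5,0),(4,
  0)]⟩,⟨3,[(0,1),(5,0),(1,0),(2,1),(0,2),(1,1),(5,1),(2,1),(2,1),(11,1)]⟩⟩,⟨false,0,⟨0,[]⟩,⟨0,[]⟩⟩,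
  ⟨false,0,⟨0,[]⟩,⟨0,[]⟩⟩,[.o ⟨false,0,⟨0,[(6,0),(3,0),(27,0)]⟩,⟨3,[(20,0),(0,0),(4,3),(13,1)]⟩⟩,.o
  ⟨false,1,⟨0,[(24,0),(15,0)]⟩,⟨0,[(26,0)]⟩⟩,.o ⟨false,1,⟨1,[(23,1),(9,0),(5,0)]⟩,⟨3,[(6,0),(3,1),
  (11,3),(2,0),(0,1),(6,0),(2,0),(1,1)]⟩⟩,.a ⟨true,0,⟨0,[(23,0)]⟩,⟨0,[(22,0)]⟩⟩ ⟨false,1,⟨1,[(20,0),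
  (18,0)]⟩,⟨0,[(2,0),(20,0)]⟩⟩ ⟨true,0,⟨0,[(6,0),(3,0),(11,0),(15,0)]⟩,⟨0,[(23,0),(2,0)]⟩⟩]⟩)) (.Q
  [0,0,0,0,0,-1,0,0,0,1,0,-1] (.ed true [0,1,0,1] .k) (.R ⟨1,false,false,false,[1,0,0,-1],[1,-1,-1],
  [1,0,0,0,0,0,0,0,-1],(⟨0,[(22,0)]⟩,⟨0,[(23,0)]⟩),(⟨0,[(17,0)]⟩,⟨0,[(32,0),(2,0)]⟩),⟨0,[(0,0)]⟩,.k,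
  .k,(.x (-1) ⟨7,[(12,3),(7,2),(0,2),(10,3),(0,1)]⟩ ⟨0,[(35,0)]⟩),(.r 0 ⟨23,[(1,15),(4,4),(0,3),(0,
  2),(2,19),(0,4),(1,3),(5,3),(5,3),(11,11)]⟩ ⟨7,[(4,3),(15,0),(0,2),(8,7)]⟩),.k,.k,⟨true,0,⟨23,[(1,
  15),(4,4),(0,3),(0,2),(2,19),(0,4),(1,3),(5,3),(5,3),(11,11)]⟩,⟨0,[(4,0),(5,0)]⟩⟩,⟨false,0,⟨0,
  [(22,0),(2,0)]⟩,⟨0,[(6,0),(12,0),(3,0)]⟩⟩,⟨true,0,⟨0,[]⟩,⟨0,[(42,0)]⟩⟩,⟨false,0,⟨1,[(2,0),(1,0),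
  (5,0),(4,0),(0,0),(5,0),(15,0)]⟩,⟨9,[(1,1),(4,4),(1,2),(3,4),(0,7),(0,3),(5,3),(2,9),(2,1),(9,
  5)]⟩⟩,⟨false,1,⟨0,[(37,0),(2,0)]⟩,⟨0,[(38,0)]⟩⟩,⟨false,0,⟨2,[(2,1),(1,0),(2,0),(2,1),(4,0),(0,0),
  (5,0)]⟩,⟨9,[(1,1),(4,4),(1,2),(3,4),(1,3),(5,3),(2,9),(2,9),(9,5),(1,1)]⟩⟩,[.o ⟨false,0,⟨0,[(6,0),
  (3,0),(27,1)]⟩,⟨3,[(13,3),(6,0),(0,0),(18,1)]⟩⟩,.o ⟨false,1,⟨7,[(4,1),(10,3),(0,1),(3,0),(9,5),(2,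
  1),(4,3),(1,2)]⟩,⟨0,[(13,0)]⟩⟩,.o ⟨false,1,⟨1,[(23,1),(9,0),(5,0)]⟩,⟨2,[(1,0),(0,0),(19,1),(10,0),
  (4,0)]⟩⟩,.a ⟨true,0,⟨0,[(23,0)]⟩,⟨0,[(22,0)]⟩⟩ ⟨false,1,⟨9,[(1,1),(4,4),(1,2),(3,4),(1,3),(5,3),
  (15,5),(1,1)]⟩,⟨5,[(2,1),(1,0),(0,0),(4,0),(2,0),(1,0),(5,0),(1,2)]⟩⟩ ⟨true,0,⟨0,[(6,0),(3,0),(11,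
  0),(15,1)]⟩,⟨0,[(13,0),(9,0)]⟩⟩]⟩) (.R ⟨0,false,false,true,[1,0,0,-1],[0,0,1],[1,0,0,0,0,0,0,0,
  -1],(⟨0,[(22,0)]⟩,⟨0,[(23,0)]⟩),(⟨0,[(32,0)]⟩,⟨0,[(31,0)]⟩),⟨0,[(0,0)]⟩,.k,.k,(.x (-1) ⟨7,[(12,3),
  (7,2),(0,2),(10,3),(0,1)]⟩ ⟨0,[(35,0)]⟩),.k,.k,.k,⟨true,0,⟨7,[(1,7),(4,4),(1,2),(3,4),(1,3),(1,7),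
  (19,3),(1,7)]⟩,⟨0,[(2,0),(15,0),(4,0),(2,0),(11,0)]⟩⟩,⟨false,0,⟨0,[(16,0),(5,0),(3,0)]⟩,⟨4,[(7,2),
  (7,0),(7,4),(9,1)]⟩⟩,⟨true,0,⟨0,[]⟩,⟨0,[(42,0)]⟩⟩,⟨false,0,⟨4,[(2,2),(1,0),(0,0),(5,1),(2,0),(3,
  0),(3,0),(3,2),(4,1),(2,0),(3,0)]⟩,⟨9,[(0,1),(0,1),(4,7),(5,0),(2,0),(0,9),(3,3),(2,7),(8,0),(3,
  0),(1,1)]⟩⟩,⟨false,0,⟨0,[]⟩,⟨0,[]⟩⟩,⟨false,0,⟨0,[]⟩,⟨0,[]⟩⟩,[.o ⟨false,0,⟨0,[(26,0)]⟩,⟨0,[(24,0),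
  (15,0)]⟩⟩,.o ⟨false,1,⟨3,[(20,0),(0,0),(4,3),(13,1)]⟩,⟨0,[(6,0),(3,0),(27,0)]⟩⟩,.o ⟨false,1,⟨1,
  [(23,1),(9,0),(5,0)]⟩,⟨2,[(1,0),(0,0),(19,1),(10,0),(4,0)]⟩⟩,.a ⟨true,0,⟨0,[(23,0)]⟩,⟨0,[(22,
  0)]⟩⟩ ⟨false,1,⟨9,[(1,1),(4,4),(1,2),(3,4),(1,3),(5,3),(15,5),(1,1)]⟩,⟨5,[(2,1),(1,0),(0,0),(4,0),
  (2,0),(1,0),(5,0),(1,2)]⟩⟩ ⟨true,0,⟨0,[(22,0),(3,0)]⟩,⟨0,[(6,0),(3,0),(12,0),(14,0)]⟩⟩]⟩))) (.K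
  ⟨0,[0,0,0,1],0,0,(⟨0,[(21,0)]⟩,⟨0,[(20,0)]⟩),.k,(.r (-1) ⟨7,[(2,3),(15,0),(0,2)]⟩ ⟨5,[(0,0),(0,0),
  (2,0),(3,2),(0,1),(1,0),(6,1),(1,0)]⟩),(.x 0 ⟨0,[(33,0)]⟩ ⟨7,[(10,3),(7,2),(0,2),(10,3),(0,1)]⟩),
  .k,.k,[⟨0,[(21,0)]⟩,⟨0,[(20,0)]⟩,⟨0,[(0,0)]⟩,⟨0,[(3,0),(0,0)]⟩]⟩)) (.Q [0,0,0,0,0,-1,0,0,0,0,0,1]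
  (.ed false [1,-1,0,1] .k) (.R ⟨1,false,false,true,[0,0,0,1],[0,1],[1,0,0,0,0,0,0,0,1],(⟨0,[(21,
  0)]⟩,⟨0,[(20,0)]⟩),(⟨0,[(33,0)]⟩,⟨0,[(32,0)]⟩),⟨0,[(0,0)]⟩,.k,.k,(.r 0 ⟨0,[(1,0),(34,0)]⟩ ⟨11,[(8,
  3),(0,3),(8,10),(0,4),(15,3)]⟩),(.r 0 ⟨0,[(1,0),(34,0)]⟩ ⟨11,[(8,3),(0,3),(8,10),(0,4),(15,3)]⟩),
  (.r (-1) ⟨0,[(2,0)]⟩ ⟨11,[(8,7),(0,7),(8,6),(0,0),(15,7)]⟩),.k,⟨false,1,⟨1,[(1,0),(0,0),(31,0),(2,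
  0)]⟩,⟨1,[(8,0),(7,0),(1,0),(5,0)]⟩⟩,⟨true,1,⟨0,[(21,0),(15,0)]⟩,⟨0,[(4,0),(3,1),(0,0),(10,0),(3,
  0),(11,2)]⟩⟩,⟨true,0,⟨0,[]⟩,⟨0,[(40,0)]⟩⟩,⟨false,1,⟨9,[(0,9),(4,3),(0,3),(1,2),(0,1),(1,3),(0,1),
  (1,2),(3,4),(16,0)]⟩,⟨5,[(1,4),(1,0),(4,0),(11,4),(2,1),(0,0),(6,1),(2,3),(1,6)]⟩⟩,⟨false,1,⟨0,
  [(35,0),(2,0)]⟩,⟨0,[(36,0)]⟩⟩,⟨false,1,⟨7,[(0,7),(3,2),(0,3),(0,4),(1,7),(0,3),(0,2),(0,3),(0,3),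
  (5,3)]⟩,⟨5,[(1,4),(1,0),(4,0),(11,4),(2,1),(0,0),(6,1),(2,3),(1,12)]⟩⟩,[.o ⟨false,0,⟨0,[(35,0)]⟩,
  ⟨1,[(31,0),(4,1),(1,0)]⟩⟩,.a ⟨true,0,⟨2,[(5,0),(2,0),(0,0),(2,0),(3,0),(12,1),(2,0)]⟩,⟨0,[(36,
  0)]⟩⟩ ⟨true,0,⟨14,[(1,11),(1,0),(15,0),(1,0),(1,0),(10,7)]⟩,⟨1,[(8,0),(7,0),(1,0),(5,0),(11,1)]⟩⟩
  ⟨false,1,⟨4,[(0,4),(4,1),(0,1),(2,0),(1,1),(0,0),(1,2),(20,1),(1,0)]⟩,⟨3,[(4,0),(3,1),(11,3),(2,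
  0),(0,1),(6,0),(2,0),(1,5)]⟩⟩,.o ⟨false,0,⟨3,[(4,0),(3,1),(11,3),(2,0),(0,1),(6,0),(2,0),(1,1)]⟩,
  ⟨1,[(21,1),(9,0),(5,0)]⟩⟩,.o ⟨false,0,⟨25,[(3,9),(4,1),(9,4),(1,15),(2,11),(0,1),(6,6),(2,5),(1,
  1)]⟩,⟨0,[(4,0),(9,0),(6,0),(2,0)]⟩⟩]⟩) (.R ⟨0,false,false,true,[0,0,0,1],[0,1],[0,1,1,1],(⟨0,[(21,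
  0)]⟩,⟨0,[(20,0)]⟩),(⟨0,[(33,0)]⟩,⟨0,[(32,0)]⟩),⟨0,[(0,0)]⟩,.k,.k,(.r 0 ⟨0,[(1,0),(34,0)]⟩ ⟨11,[(8,
  3),(0,3),(8,10),(0,4),(15,3)]⟩),(.r 0 ⟨0,[(1,0),(34,0)]⟩ ⟨11,[(8,3),(0,3),(8,10),(0,4),(15,3)]⟩),
  .k,.k,⟨false,1,⟨3,[(18,0),(0,0),(17,1)]⟩,⟨0,[]⟩⟩,⟨true,1,⟨0,[(21,0),(15,0)]⟩,⟨1,[(0,1),(7,1),(0,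
  0),(0,0),(12,0),(0,0),(5,0),(5,2)]⟩⟩,⟨true,0,⟨1,[(8,0),(7,0),(1,0),(5,0)]⟩,⟨0,[(1,0),(34,0)]⟩⟩,
  ⟨false,1,⟨23,[(4,4),(0,11),(0,2),(1,7),(0,3),(0,4),(0,11),(0,3),(1,7),(3,11),(2,23)]⟩,⟨16,[(0,11),
  (0,9),(0,1),(0,4),(6,5),(12,4),(6,5),(0,2),(2,10),(1,12)]⟩⟩,⟨false,0,⟨0,[]⟩,⟨0,[]⟩⟩,⟨false,0,⟨0,
  []⟩,⟨0,[]⟩⟩,[.o ⟨false,0,⟨0,[(35,0)]⟩,⟨1,[(31,0),(4,1),(1,0)]⟩⟩,.a ⟨true,0,⟨2,[(5,0),(2,0),(0,0),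
  (2,0),(3,0),(12,1),(2,0)]⟩,⟨0,[(36,0)]⟩⟩ ⟨true,0,⟨5,[(8,1),(0,1),(8,0),(0,0),(15,1)]⟩,⟨0,[(36,
  0)]⟩⟩ ⟨false,1,⟨0,[(5,0),(5,0),(2,0),(6,0)]⟩,⟨22,[(0,14),(2,3),(6,9),(1,4),(5,1),(1,3),(2,13),(7,
  1),(2,1),(1,22)]⟩⟩,.o ⟨false,0,⟨22,[(0,14),(2,3),(6,9),(1,4),(5,1),(1,3),(2,13),(7,1),(2,1)]⟩,⟨1,
  [(21,1),(9,0),(5,0)]⟩⟩,.o ⟨false,0,⟨22,[(0,2),(2,9),(6,1),(1,0),(5,4),(1,9),(2,11),(7,4),(2,4)]⟩,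
  ⟨0,[(4,0),(9,0),(6,0),(2,0)]⟩⟩]⟩))) (.Q [0,1,-1,0,0,0,0,0,-1,0,0,1] (.p true [0,0,0,1] [] (⟨0,
  [(19,0)]⟩,⟨0,[(18,0)]⟩) .k 0 (⟨0,[]⟩,⟨0,[]⟩) .k .k) (.K ⟨0,[0,0,0,1],0,0,(⟨0,[(20,0)]⟩,⟨0,[(19,
  0)]⟩),.k,(.r (-1) ⟨1,[(18,0),(16,1),(0,0)]⟩ ⟨7,[(1,3),(15,2),(0,0)]⟩),(.x 0 ⟨0,[(32,0)]⟩ ⟨7,[(9,
  3),(7,2),(0,2),(10,3),(0,1)]⟩),.k,.k,[⟨0,[(20,0)]⟩,⟨0,[(19,0)]⟩,⟨0,[(0,0)]⟩,⟨0,[(2,0),(0,0)]⟩]⟩)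
  (.R ⟨1,false,false,true,[1,0,0,-1],[0,0,1],[1,0,0,0,0,0,0,0,-1],(⟨0,[(19,0)]⟩,⟨0,[(20,0)]⟩),(⟨0,
  [(29,0)]⟩,⟨0,[(28,0)]⟩),⟨2,[(0,0),(0,0),(1,0),(5,1),(1,0),(3,0),(3,1),(15,2)]⟩,.k,.k,(.x (-1) ⟨7,
  [(9,3),(7,2),(0,2),(10,3),(0,1)]⟩ ⟨0,[(32,0)]⟩),.k,(.r 0 ⟨3,[(1,3),(1,4),(1,2),(1,3),(1,4),(1,3),
  (23,15)]⟩ ⟨3,[(8,1),(1,1),(6,0),(0,2),(7,1)]⟩),.k,⟨true,0,⟨13,[(1,9),(1,4),(1,2),(3,4),(1,3),(1,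
  13),(3,1),(17,19)]⟩,⟨0,[(0,0),(14,0),(4,0),(2,0),(11,0)]⟩⟩,⟨false,0,⟨0,[(13,0),(5,0),(3,0)]⟩,⟨4,
  [(4,2),(7,0),(7,4),(9,1)]⟩⟩,⟨true,0,⟨0,[]⟩,⟨0,[(39,0)]⟩⟩,⟨false,0,⟨0,[(0,0),(18,0),(0,0),(2,0)]⟩,
  ⟨4,[(1,0),(1,3),(9,4),(3,1),(2,4),(1,0),(12,1)]⟩⟩,⟨false,1,⟨0,[(34,0),(2,0)]⟩,⟨0,[(35,0)]⟩⟩,
  ⟨false,0,⟨17,[(0,14),(1,0),(5,4),(1,6),(0,4),(3,5),(2,0),(0,1),(3,5),(4,9),(2,4)]⟩,⟨4,[(1,0),(1,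
  3),(9,4),(3,1),(2,4),(1,0),(12,6)]⟩⟩,[.o ⟨false,0,⟨0,[(23,0)]⟩,⟨0,[(21,0),(15,0)]⟩⟩,.o ⟨false,1,
  ⟨3,[(17,0),(0,0),(4,3),(13,1)]⟩,⟨0,[(3,0),(3,0),(27,0)]⟩⟩,.o ⟨false,1,⟨1,[(20,1),(9,0),(5,0)]⟩,
  ⟨14,[(0,2),(0,3),(0,0),(16,10),(1,0),(0,0),(0,0),(6,4),(4,7)]⟩⟩,.a ⟨true,0,⟨0,[(20,0)]⟩,⟨0,[(19,
  0)]⟩⟩ ⟨false,1,⟨55,[(1,7),(1,24),(1,14),(3,24),(1,19),(5,23),(15,27),(1,15)]⟩,⟨6,[(0,3),(1,0),(12,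
  0),(2,0),(1,4),(0,0),(1,0),(11,0)]⟩⟩ ⟨true,0,⟨0,[(19,0),(3,0)]⟩,⟨0,[(3,0),(3,0),(12,0),(14,
  0)]⟩⟩]⟩))))) (.Q [0,0,0,0,0,0,-2,-2,0,-1,2] (.p true [0,0,1] [1,0,-1] (⟨0,[(25,0)]⟩,⟨0,[(24,0)]⟩)
  .k 2 (⟨0,[(24,0)]⟩,⟨0,[(25,0)]⟩) .k (.r (-1) ⟨6,[(1,1),(2,3),(3,3),(10,9),(5,1),(1,3),(3,3),(0,1),
  (0,2)]⟩ ⟨0,[(23,1)]⟩)) (.Q [0,0,0,1,0,0,1,1,0,1,-1] (.p false [0,0,1] [1] (⟨0,[(26,0)]⟩,⟨0,[(25,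
  0)]⟩) .k 1 (⟨0,[]⟩,⟨0,[]⟩) .k .k) (.R ⟨0,false,false,false,[0,-1,1],[1,-1,-1],[],(⟨0,[(7,0),(1,0),
  (0,0)]⟩,⟨0,[(26,0),(3,0)]⟩),(⟨0,[(12,0)]⟩,⟨0,[(27,0),(2,0)]⟩),⟨0,[(2,0),(0,0)]⟩,.k,.k,(.x 0 ⟨3,
  [(2,3),(4,3),(7,0),(0,0),(10,7),(0,1)]⟩ ⟨0,[(3,0)]⟩),.k,.k,.k,⟨true,0,⟨1,[(6,0),(1,0),(15,0)]⟩,⟨0,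
  [(25,0),(7,0)]⟩⟩,⟨false,1,⟨0,[(10,0),(23,0)]⟩,⟨0,[(14,0)]⟩⟩,⟨false,0,⟨1,[(5,0),(5,0),(20,0),(2,
  0)]⟩,⟨3,[(0,1),(9,1),(10,1),(11,5),(0,2),(0,0)]⟩⟩,⟨true,0,⟨0,[(1,0)]⟩,⟨0,[(0,0),(20,0),(11,0)]⟩⟩,
  ⟨false,0,⟨0,[]⟩,⟨0,[]⟩⟩,⟨false,0,⟨0,[]⟩,⟨0,[]⟩⟩,[.a ⟨true,0,⟨1,[(1,0),(15,0),(0,0),(14,1)]⟩,⟨0,
  [(0,0)]⟩⟩ ⟨false,1,⟨3,[(15,0),(0,0),(17,1)]⟩,⟨0,[]⟩⟩ ⟨true,1,⟨7,[(1,3),(8,3),(4,0),(0,0),(16,7),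
  (0,5)]⟩,⟨0,[(0,0),(1,0)]⟩⟩,.o ⟨false,1,⟨7,[(1,3),(13,0),(0,0),(11,1),(4,7),(1,3)]⟩,⟨0,[(8,0)]⟩⟩,
  .o ⟨false,0,⟨0,[(23,0)]⟩,⟨3,[(10,1),(17,0),(5,2)]⟩⟩,.o ⟨false,(-1),⟨0,[(2,0)]⟩,⟨3,[(10,1),(4,0),
  (0,0),(11,0),(5,4)]⟩⟩]⟩) (.Q [0,0,0,0,0,0,1,1,0,1,-1] (.p false [0,0,1] [1] (⟨0,[(27,0)]⟩,⟨0,[(26,
  0)]⟩) .k 1 (⟨0,[]⟩,⟨0,[]⟩) .k .k) (.R ⟨0,false,false,true,[0,-1,1],[1,-1],[1,1,-1,-1],(⟨0,[(8,0),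
  (1,0),(0,0)]⟩,⟨0,[(27,0),(3,0)]⟩),(⟨0,[(30,0)]⟩,⟨0,[(31,0)]⟩),⟨0,[(3,0),(0,0)]⟩,.k,.k,(.x 0 ⟨3,
  [(3,3),(4,3),(7,0),(0,0),(10,7),(0,1)]⟩ ⟨0,[(4,0)]⟩),.k,.k,.k,⟨true,0,⟨0,[]⟩,⟨5,[(3,1),(12,0),(0,
  0),(7,1)]⟩⟩,⟨false,1,⟨3,[(11,1),(17,0),(5,2)]⟩,⟨1,[(15,0),(2,0),(0,0)]⟩⟩,⟨false,0,⟨0,[(26,0)]⟩,⟨3,
  [(0,1),(10,1),(10,1),(12,0),(0,2)]⟩⟩,⟨true,0,⟨0,[(20,0)]⟩,⟨0,[(0,0)]⟩⟩,⟨false,0,⟨0,[]⟩,⟨0,[]⟩⟩,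
  ⟨false,0,⟨0,[]⟩,⟨0,[]⟩⟩,[.o ⟨false,0,⟨0,[(1,0),(20,0)]⟩,⟨0,[(33,0),(2,0)]⟩⟩,.a ⟨true,0,⟨0,[(34,
  0)]⟩,⟨2,[(4,0),(1,0),(0,0),(2,0),(2,0),(0,0),(15,1)]⟩⟩ ⟨false,1,⟨0,[(34,0),(0,0)]⟩,⟨5,[(6,1),(0,
  1),(8,0),(0,0),(15,1)]⟩⟩ ⟨true,1,⟨3,[(11,1),(17,0),(4,3),(0,2)]⟩,⟨0,[(0,0),(5,0)]⟩⟩,.o ⟨false,0,
  ⟨0,[(24,0)]⟩,⟨3,[(11,1),(17,0),(5,2)]⟩⟩,.o ⟨false,(-1),⟨0,[(3,0)]⟩,⟨3,[(11,1),(4,0),(0,0),(11,0),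
  (5,4)]⟩⟩]⟩) (.R ⟨0,false,false,false,[0,-1,1],[1,-1],[],(⟨0,[(8,0),(1,0),(0,0)]⟩,⟨0,[(27,0),(3,
  0)]⟩),(⟨0,[(30,0)]⟩,⟨0,[(31,0)]⟩),⟨0,[(3,0),(0,0)]⟩,.k,.k,(.x 0 ⟨3,[(3,3),(4,3),(7,0),(0,0),(10,
  7),(0,1)]⟩ ⟨0,[(4,0)]⟩),.k,.k,.k,⟨true,0,⟨5,[(6,1),(0,1),(8,0),(0,0),(15,1)]⟩,⟨0,[(34,0)]⟩⟩,
  ⟨false,1,⟨3,[(11,1),(17,0),(5,2)]⟩,⟨1,[(15,0),(2,0),(0,0)]⟩⟩,⟨false,0,⟨1,[(6,0),(5,0),(20,0),(2,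
  0)]⟩,⟨13,[(4,1),(2,3),(3,3),(10,9),(5,1),(1,3),(3,17),(0,8),(0,2)]⟩⟩,⟨true,0,⟨0,[(0,0)]⟩,⟨0,[(18,
  0),(0,0),(2,0)]⟩⟩,⟨false,0,⟨0,[]⟩,⟨0,[]⟩⟩,⟨false,0,⟨0,[]⟩,⟨0,[]⟩⟩,[.a ⟨true,0,⟨0,[(34,0)]⟩,⟨2,[(4,
  0),(1,0),(0,0),(2,0),(2,0),(0,0),(15,1)]⟩⟩ ⟨false,1,⟨3,[(16,0),(0,0),(17,1)]⟩,⟨0,[]⟩⟩ ⟨true,1,⟨3,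
  [(11,1),(17,0),(4,3),(0,2)]⟩,⟨2,[(3,1),(2,0),(0,0),(2,0),(3,0),(12,1),(2,0)]⟩⟩,.o ⟨false,1,⟨1,
  [(29,0),(4,1),(1,0)]⟩,⟨0,[(33,0)]⟩⟩,.o ⟨false,0,⟨0,[(24,0)]⟩,⟨3,[(11,1),(17,0),(5,2)]⟩⟩,.o ⟨false,
  (-1),⟨0,[(3,0)]⟩,⟨3,[(11,1),(4,0),(0,0),(11,0),(5,4)]⟩⟩]⟩))) (.R ⟨0,false,false,true,[0,-1,1],[1,
  -1,-1],[1],(⟨0,[(6,0),(1,0),(0,0)]⟩,⟨0,[(25,0),(3,0)]⟩),(⟨0,[(11,0)]⟩,⟨0,[(26,0),(2,0)]⟩),⟨0,[(1,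
  0),(0,0)]⟩,.k,.k,(.x 0 ⟨3,[(1,3),(4,3),(7,0),(0,0),(10,7),(0,1)]⟩ ⟨0,[(2,0)]⟩),.k,.k,.k,⟨true,0,
  ⟨0,[(5,0)]⟩,⟨1,[(13,0),(4,0),(2,0),(10,1)]⟩⟩,⟨false,1,⟨0,[(9,0),(23,0)]⟩,⟨0,[(13,0)]⟩⟩,⟨false,0,
  ⟨1,[(4,0),(5,0),(20,0),(2,0)]⟩,⟨7,[(0,3),(8,3),(4,0),(0,0),(16,7),(0,5)]⟩⟩,⟨true,0,⟨0,[(10,0),(1,
  0),(5,0),(13,0)]⟩,⟨0,[(0,0)]⟩⟩,⟨false,0,⟨0,[]⟩,⟨0,[]⟩⟩,⟨false,0,⟨0,[]⟩,⟨0,[]⟩⟩,[.o ⟨false,0,⟨0,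
  [(18,0),(13,0)]⟩,⟨0,[(7,0),(26,0)]⟩⟩,.a ⟨true,0,⟨0,[(10,0),(1,0),(19,1)]⟩,⟨4,[(0,1),(1,0),(1,0),
  (0,1),(0,0),(1,1),(2,1),(0,1)]⟩⟩ ⟨false,1,⟨1,[(33,0),(0,0)]⟩,⟨0,[(36,0)]⟩⟩ ⟨true,1,⟨5,[(9,3),(0,
  1),(7,1),(2,1),(10,5),(0,4),(0,0)]⟩,⟨0,[(0,0),(3,0)]⟩⟩,.o ⟨false,0,⟨0,[(22,0)]⟩,⟨3,[(9,1),(17,0),
  (5,2)]⟩⟩,.o ⟨false,(-1),⟨0,[(1,0)]⟩,⟨3,[(9,1),(4,0),(0,0),(11,0),(5,4)]⟩⟩]⟩)))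

theorem ok205 : chk (cU (-1) true 10) t205 l107 = true := by decide +kernel

noncomputable def t206 : Tre :=
  (.Q [0,0,3,0,-1,0,0,0,0,-1] (.pp true [-1,1]) (.R ⟨1,false,false,true,[1,-1],[0,1],[1,0,-1,-1],
  (⟨0,[(29,0)]⟩,⟨0,[(30,0)]⟩),(⟨0,[(30,0)]⟩,⟨0,[(29,0)]⟩),⟨0,[(7,0),(19,0)]⟩,.k,.k,(.r (-1) ⟨0,[(33,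
  1),(0,0)]⟩ ⟨2,[(0,1),(1,1),(12,0),(0,0)]⟩),(.r (-1) ⟨0,[(33,1),(0,0)]⟩ ⟨2,[(0,1),(1,1),(12,0),(0,
  0)]⟩),(.r (-2) ⟨3,[(15,0),(0,0),(16,11),(0,5)]⟩ ⟨0,[(0,0),(1,0)]⟩),.k,⟨false,2,⟨1,[(33,3),(0,2),
  (0,0)]⟩,⟨0,[(1,0)]⟩⟩,⟨true,1,⟨0,[(17,0),(0,0),(15,0)]⟩,⟨0,[(0,0)]⟩⟩,⟨true,0,⟨0,[]⟩,⟨0,[(37,0)]⟩⟩,
  ⟨false,0,⟨2,[(2,1),(14,0),(0,0)]⟩,⟨1,[(28,0),(4,3),(1,0)]⟩⟩,⟨false,1,⟨5,[(2,1),(12,0),(0,0),(11,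
  0),(6,2)]⟩,⟨0,[(33,0)]⟩⟩,⟨false,0,⟨0,[(2,0)]⟩,⟨1,[(28,0),(4,5),(1,0)]⟩⟩,[.o ⟨false,0,⟨0,[(32,0)]⟩,
  ⟨1,[(28,0),(4,1),(1,0)]⟩⟩,.a ⟨true,0,⟨2,[(2,0),(14,1),(0,1)]⟩,⟨0,[(33,0)]⟩⟩ ⟨true,1,⟨1,[(33,1),(0,
  0),(0,0)]⟩,⟨0,[(1,0),(31,0)]⟩⟩ ⟨false,1,⟨2,[(2,0),(14,1),(0,1),(15,2)]⟩,⟨2,[(0,0),(27,0),(4,2)]⟩⟩,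
  .o ⟨false,0,⟨2,[(0,0),(27,0)]⟩,⟨3,[(15,0),(0,0),(17,1)]⟩⟩,.o ⟨false,0,⟨11,[(0,7),(14,2),(0,2),(11,
  1)]⟩,⟨0,[(34,0)]⟩⟩]⟩) (.K ⟨0,[1,1,-1],1,0,(⟨0,[(26,0),(3,0)]⟩,⟨11,[(0,4),(2,5),(6,2),(16,5),(0,
  0)]⟩),.k,.k,(.r 1 ⟨0,[(1,0),(9,0)]⟩ ⟨11,[(0,9),(9,5),(4,2),(0,2),(4,11),(6,1),(4,23),(1,5)]⟩),.k,
  .k,[⟨0,[(3,0),(22,0),(3,1)]⟩,⟨5,[(0,4),(9,2),(17,0)]⟩,⟨0,[(17,0),(0,0),(2,0),(11,0)]⟩,⟨0,[(4,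
  0)]⟩]⟩))

theorem ok206 : chk (cU (-1) true 10) t206 l109 = true := by decide +kernel

end Helper11.CT.Tm1_34_m1_m1_u
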