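import Pool.Agent.Helper11.CT.Cfg
import Pool.Agent.Helper11.CT.Cut

set_option autoImplicit false
set_option linter.all false

namespace Helper11.CT.Tm1_34_m1_m1_u

open Helper11.CT

noncomputable def base : List Con :=
  [(false,[0,1,0,1,0,0,-1,0,0,0,1]),
  (false,[0,0,0,0,0,0,2,0,0,1,-2]),
  (true,[0,0,0,0,1,0,0,0,-2]),
  (true,[0,0,0,0,1,0,0,0,2]),
  (false,[0,0,0,0,0,0,0,0,0,1,0,-1]),
  (false,[0,0,0,0,0,0,0,0,0,0,0,1]),
  (false,[0,1,0,0,0,0,-1,-1,0,-1,1]),
  (false,[0,0,1,0,0,0,-1,0,0,-1,1]),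
  (false,[0,1,0,0,0,0,1,1,0,0,-1]),
  (false,[0,1,0,0,0,0,-1,-1,0,0,1]),
  (false,[0,0,1,0,0,0,1,0,0,0,-1]),
  (false,[0,0,1,0,0,0,-1,0,0,0,1]),
  (true,[0,0,0,0,0,0,0,-1]),
  (false,[0,0,0,0,0,0,0,0,0,1,-1]),
  (false,[0,0,0,0,0,0,0,0,0,0,1]),
  (false,[0,0,0,0,1,0,0,0,0,-2]),
  (false,[0,0,0,0,0,-1,0,0,0,1]),
  (true,[0,0,0,0,0,1]),
  (true,[1,-2,1]),
  (true,[0,1,0,1]),
  (true,[0,0,0,-1]),
  (true,[0,0,-2,0,1]),
  (true,[0,-2,0,0,1]),
  (true,[-1,0,1]),
  (true,[-1,1])]

noncomputable def l0 : List Con := (false, [0,0,0,0,0,1,0,0,0,-1,1]) :: base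

noncomputable def r0 : List Con := (false, [0,0,0,0,0,-1,0,0,0,1,-1]) :: base

noncomputable def l1 : List Con := (false, [0,-1,0,1,0,0,1,1,0,2,-1]) :: l0

noncomputable def r1 : List Con := (false, [0,1,0,-1,0,0,-1,-1,0,-2,1]) :: l0

noncomputable def l2 : List Con := (false, [0,0,0,1,0,0,1,0,0,1,-1]) :: r1

noncomputable def r2 : List Con := (false, [0,0,0,-1,0,0,-1,0,0,-1,1]) :: r1

noncomputable def l3 : List Con := (false, [0,0,-1,0,0,0,0,-1,0,1]) :: l2

noncomputable def r3 : List Con := (false, [0,0,1,0,0,0,0,1,0,-1]) :: l2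

noncomputable def l4 : List Con := (false, [0,0,0,-1,0,0,-1,-1,0,-1,1]) :: r3

noncomputable def r4 : List Con := (false, [0,0,0,1,0,0,1,1,0,1,-1]) :: r3

noncomputable def l5 : List Con := (false, [0,0,0,1,0,0,0,0,0,1]) :: r2

noncomputable def r5 : List Con := (false, [0,0,0,-1,0,0,0,0,0,-1]) :: r2

noncomputable def l6 : List Con := (false, [0,0,0,0,0,0,-1,-1,0,-1,1]) :: r5

noncomputable def r6 : List Con := (false, [0,0,0,0,0,0,1,1,0,1,-1]) :: r5

noncomputable def l7 : List Con := (true, [1,1,1,0,-1,0,0,0,-1]) :: l6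

noncomputable def r7 : List Con := (true, [0,-1,-1,0,1,0,0,0,1]) :: l6

noncomputable def l8 : List Con := (false, [0,-1,0,-1,0,0,-1,-1,0,-1,1]) :: r7

noncomputable def r8 : List Con := (false, [0,1,0,1,0,0,1,1,0,1,-1]) :: r7

noncomputable def l9 : List Con := (false, [0,0,0,0,0,0,-1,0,0,0,1]) :: r8

noncomputable def r9 : List Con := (false, [0,0,0,0,0,0,1,0,0,0,-1]) :: r8

noncomputable def l10 : List Con := (false, [0,0,0,-1,0,0,1,1,0,0,-1]) :: r9

noncomputable def r10 : List Con := (false, [0,0,0,1,0,0,-1,-1,0,0,1]) :: r9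

noncomputable def l11 : List Con := (false, [0,0,0,0,0,1,0,0,0,0,-1]) :: r10

noncomputable def r11 : List Con := (false, [0,0,0,0,0,-1,0,0,0,0,1]) :: r10

noncomputable def l12 : List Con := (false, [0,0,0,-1,0,0,1,1,0,1,-1]) :: r11

noncomputable def r12 : List Con := (false, [0,0,0,1,0,0,-1,-1,0,-1,1]) :: r11

noncomputable def l13 : List Con := (false, [0,0,2,0,-1,0,1,0,0,1,-1]) :: r12

noncomputable def r13 : List Con := (false, [0,0,-2,0,1,0,-1,0,0,-1,1]) :: r12

noncomputable def l14 : List Con := (true, [0,1,0,0,0,0,0,1]) :: r0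

noncomputable def r14 : List Con := (true, [1,-1,0,0,0,0,0,-1]) :: r0

noncomputable def l15 : List Con := (false, [0,0,0,-1,0,0,1,0,0,0,-1]) :: l14

noncomputable def r15 : List Con := (false, [0,0,0,1,0,0,-1,0,0,0,1]) :: l14

noncomputable def l16 : List Con := (false, [0,0,0,-1,0,0,-1,0,0,0,1]) :: l15

noncomputable def r16 : List Con := (false, [0,0,0,1,0,0,1,0,0,0,-1]) :: l15

noncomputable def l17 : List Con := (false, [0,0,0,0,0,0,2,1,0,1,-2]) :: l16

noncomputable def r17 : List Con := (false, [0,0,0,0,0,0,-2,-1,0,-1,2]) :: l16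

noncomputable def l18 : List Con := (false, [0,0,0,0,0,0,0,1,0,1]) :: r17

noncomputable def r18 : List Con := (false, [0,0,0,0,0,0,0,-1,0,-1]) :: r17

noncomputable def l19 : List Con := (false, [0,0,0,0,0,-1,0,0,0,0,1]) :: r18

noncomputable def r19 : List Con := (false, [0,0,0,0,0,1,0,0,0,0,-1]) :: r18

noncomputable def l20 : List Con := (false, [0,0,-1,0,0,0,2,0,0,1,-2]) :: r14

noncomputable def r20 : List Con := (false, [0,0,1,0,0,0,-2,0,0,-1,2]) :: r14

noncomputable def l21 : List Con := (true, [0,0,-1,-1,0,0,0,-2]) :: l20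

noncomputable def r21 : List Con := (true, [1,0,1,1,0,0,0,2]) :: l20

noncomputable def l22 : List Con := (false, [0,0,0,0,0,-2,0,0,0,1,-1]) :: r21

noncomputable def r22 : List Con := (false, [0,0,0,0,0,2,0,0,0,-1,1]) :: r21

noncomputable def l23 : List Con := (true, [0,0,1,0,0,-1,-2]) :: l22

noncomputable def r23 : List Con := (true, [1,0,-1,0,0,1,2]) :: l22

noncomputable def l24 : List Con := (true, [0,0,-1,0,0,1,2]) :: r23

noncomputable def r24 : List Con := (true, [1,0,1,0,0,-1,-2]) :: r23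

noncomputable def l25 : List Con := (true, [1,-1,-2,-2,1]) :: r24

noncomputable def r25 : List Con := (true, [0,1,2,2,-1]) :: r24

noncomputable def l26 : List Con := (false, [0,0,-2,-1,1,0,-1,0,0,-1,1]) :: l25

noncomputable def r26 : List Con := (false, [0,0,2,1,-1,0,1,0,0,1,-1]) :: l25

noncomputable def l27 : List Con := (false, [0,0,0,-2,0,0,1,1,0,0,-1]) :: l26

noncomputable def r27 : List Con := (false, [0,0,0,2,0,0,-1,-1,0,0,1]) :: l26

noncomputable def l28 : List Con := (false, [0,0,0,0,0,-2,0,0,0,0,1]) :: r27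

noncomputable def r28 : List Con := (false, [0,0,0,0,0,2,0,0,0,0,-1]) :: r27

noncomputable def l29 : List Con := (false, [0,-1,0,-1,0,0,1,1,0,1,-1]) :: l28

noncomputable def r29 : List Con := (false, [0,1,0,1,0,0,-1,-1,0,-1,1]) :: l28

noncomputable def l30 : List Con := (false, [0,0,2,0,-1,0,1,0,0,1,-1]) :: r29

noncomputable def r30 : List Con := (false, [0,0,-2,0,1,0,-1,0,0,-1,1]) :: r29

noncomputable def l31 : List Con := (true, [0,0,1,1,0,0,0,2]) :: r30

noncomputable def r31 : List Con := (true, [1,0,-1,-1,0,0,0,-2]) :: r30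

noncomputable def l32 : List Con := (false, [0,1,0,-1,0,0,0,0,0,-1]) :: r31

noncomputable def r32 : List Con := (false, [0,-1,0,1,0,0,0,0,0,1]) :: r31

noncomputable def l33 : List Con := (true, [0,0,1,0,0,-1,-2]) :: r20

noncomputable def r33 : List Con := (true, [1,0,-1,0,0,1,2]) :: r20

noncomputable def l34 : List Con := (false, [0,0,0,1,0,0,1,0,0,1,-1]) :: l33

noncomputable def r34 : List Con := (false, [0,0,0,-1,0,0,-1,0,0,-1,1]) :: l33

noncomputable def l35 : List Con := (false, [0,0,0,-1,0,0,-1,0,0,0,1]) :: l34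

noncomputable def r35 : List Con := (false, [0,0,0,1,0,0,1,0,0,0,-1]) :: l34

noncomputable def l36 : List Con := (false, [0,-1,0,-1,0,0,-1,-1,0,0,1]) :: r35

noncomputable def r36 : List Con := (false, [0,1,0,1,0,0,1,1,0,0,-1]) :: r35

noncomputable def l37 : List Con := (false, [0,0,0,0,0,2,0,0,0,-1,1]) :: r36

noncomputable def r37 : List Con := (false, [0,0,0,0,0,-2,0,0,0,1,-1]) :: r36

noncomputable def l38 : List Con := (true, [1,-1,1,1,0,0,0,1]) :: r37

noncomputable def r38 : List Con := (true, [0,1,-1,-1,0,0,0,-1]) :: r37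

noncomputable def l39 : List Con := (false, [0,0,0,0,0,1,0,0,0,0,-1]) :: l38

noncomputable def r39 : List Con := (false, [0,0,0,0,0,-1,0,0,0,0,1]) :: l38

noncomputable def l40 : List Con := (true, [0,1,2,2,-1]) :: r39

noncomputable def r40 : List Con := (true, [1,-1,-2,-2,1]) :: r39

noncomputable def l41 : List Con := (false, [0,0,0,-1,0,0,-2,-2,0,-1,2]) :: r40

noncomputable def r41 : List Con := (false, [0,0,0,1,0,0,2,2,0,1,-2]) :: r40

noncomputable def l42 : List Con := (false, [0,0,0,0,0,0,2,2,0,1,-2]) :: l41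

noncomputable def r42 : List Con := (false, [0,0,0,0,0,0,-2,-2,0,-1,2]) :: l41

noncomputable def l43 : List Con := (false, [0,0,0,-1,0,0,2,2,0,1,-2]) :: r42

noncomputable def r43 : List Con := (false, [0,0,0,1,0,0,-2,-2,0,-1,2]) :: r42

noncomputable def l44 : List Con := (true, [0,1,-1,-2,0,0,0,-1]) :: r43

noncomputable def r44 : List Con := (true, [1,-1,1,2,0,0,0,1]) :: r43

noncomputable def l45 : List Con := (false, [0,0,0,-1,0,0,1,1,0,1,-1]) :: l44

noncomputable def r45 : List Con := (false, [0,0,0,1,0,0,-1,-1,0,-1,1]) :: l44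

noncomputable def l46 : List Con := (false, [0,1,1,0,-1,0,0,0,1,0,0,-1]) :: r45

noncomputable def r46 : List Con := (false, [0,-1,-1,0,1,0,0,0,-1,0,0,1]) :: r45

noncomputable def l47 : List Con := (false, [0,0,-2,0,1,0,-1,0,0,-1,1]) :: r46

noncomputable def r47 : List Con := (false, [0,0,2,0,-1,0,1,0,0,1,-1]) :: r46

noncomputable def l48 : List Con := (false, [0,0,2,0,-1,0,2,0,0,1,-2]) :: r44

noncomputable def r48 : List Con := (false, [0,0,-2,0,1,0,-2,0,0,-1,2]) :: r44

noncomputable def l49 : List Con := (false, [0,0,0,-2,0,0,2,2,0,1,-2]) :: l48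

noncomputable def r49 : List Con := (false, [0,0,0,2,0,0,-2,-2,0,-1,2]) :: l48

noncomputable def l50 : List Con := (true, [0,0,-2,0,1,2,-1]) :: r49

noncomputable def r50 : List Con := (true, [1,0,2,0,-1,-2,1]) :: r49

noncomputable def l51 : List Con := (false, [0,0,2,0,-1,0,1,0,0,1,-1]) :: l50

noncomputable def r51 : List Con := (false, [0,0,-2,0,1,0,-1,0,0,-1,1]) :: l50

noncomputable def l52 : List Con := (false, [0,0,0,-1,0,0,1,1,0,1,-1]) :: r51

noncomputable def r52 : List Con := (false, [0,0,0,1,0,0,-1,-1,0,-1,1]) :: r51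

noncomputable def l53 : List Con := (false, [0,0,0,2,0,0,-1,-1,0,0,1]) :: r50

noncomputable def r53 : List Con := (false, [0,0,0,-2,0,0,1,1,0,0,-1]) :: r50

noncomputable def l54 : List Con := (true, [1,-1,1,1,0,0,0,0,1]) :: l53

noncomputable def r54 : List Con := (true, [0,1,-1,-1,0,0,0,0,-1]) :: l53

noncomputable def l55 : List Con := (false, [0,0,0,0,0,2,0,0,0,0,-1]) :: r48

noncomputable def r55 : List Con := (false, [0,0,0,0,0,-2,0,0,0,0,1]) :: r48

noncomputable def l56 : List Con := (false, [0,0,0,-2,0,0,2,2,0,1,-2]) :: r55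

noncomputable def r56 : List Con := (false, [0,0,0,2,0,0,-2,-2,0,-1,2]) :: r55

noncomputable def l57 : List Con := (true, [0,0,0,0,0,0,0,0,1]) :: r56

noncomputable def r57 : List Con := (true, [1,0,0,0,0,0,0,0,-1]) :: r56

noncomputable def l58 : List Con := (true, [0,1,1,0,0,0,0,0,1]) :: r57

noncomputable def r58 : List Con := (true, [1,-1,-1,0,0,0,0,0,-1]) :: r57

noncomputable def l59 : List Con := (false, [0,1,-1,0,0,0,0,0,-1,0,0,1]) :: l58

noncomputable def r59 : List Con := (false, [0,-1,1,0,0,0,0,0,1,0,0,-1]) :: l58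

noncomputable def l60 : List Con := (false, [0,1,1,0,0,0,0,0,1,0,0,-1]) :: l59

noncomputable def r60 : List Con := (false, [0,-1,-1,0,0,0,0,0,-1,0,0,1]) :: l59

noncomputable def l61 : List Con := (false, [0,0,0,0,0,1,0,0,0,-1,0,1]) :: r60

noncomputable def r61 : List Con := (false, [0,0,0,0,0,-1,0,0,0,1,0,-1]) :: r60

noncomputable def l62 : List Con := (false, [0,0,0,0,0,0,-1,-1,0,0,1,-1]) :: r61

noncomputable def r62 : List Con := (false, [0,0,0,0,0,0,1,1,0,0,-1,1]) :: r61

noncomputable def l63 : List Con := (true, [0,1,-1,-1,0,0,0,1,-1]) :: l62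

noncomputable def r63 : List Con := (true, [1,-1,1,1,0,0,0,-1,1]) :: l62

noncomputable def l64 : List Con := (false, [0,0,1,0,0,0,0,0,1,1,0,-1]) :: r63

noncomputable def r64 : List Con := (false, [0,0,-1,0,0,0,0,0,-1,-1,0,1]) :: r63

noncomputable def l65 : List Con := (false, [0,1,1,-1,0,0,0,0,1,0,0,-1]) :: r64

noncomputable def r65 : List Con := (false, [0,-1,-1,1,0,0,0,0,-1,0,0,1]) :: r64

noncomputable def l66 : List Con := (true, [0,0,-2,-2,1,0,0,0,1]) :: r65

noncomputable def r66 : List Con := (true, [1,0,2,2,-1,0,0,0,-1]) :: r65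

noncomputable def l67 : List Con := (false, [0,0,0,-2,0,0,-2,-2,0,-1,2]) :: r41

noncomputable def r67 : List Con := (false, [0,0,0,2,0,0,2,2,0,1,-2]) :: r41

noncomputable def l68 : List Con := (false, [0,0,-2,-1,1,0,-1,0,0,-1,1]) :: r67

noncomputable def r68 : List Con := (false, [0,0,2,1,-1,0,1,0,0,1,-1]) :: r67

noncomputable def l69 : List Con := (false, [0,-1,0,-1,0,0,1,1,0,1,-1]) :: r68

noncomputable def r69 : List Con := (false, [0,1,0,1,0,0,-1,-1,0,-1,1]) :: r68

noncomputable def l70 : List Con := (true, [1,0,-2,-1,1,0,0,1]) :: r69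

noncomputable def r70 : List Con := (true, [0,0,2,1,-1,0,0,-1]) :: r69

noncomputable def l71 : List Con := (false, [0,0,-2,0,1,0,-1,0,0,0,1]) :: r70

noncomputable def r71 : List Con := (false, [0,0,2,0,-1,0,1,0,0,0,-1]) :: r70

noncomputable def l72 : List Con := (true, [0,0,-2,0,1,2,-1]) :: l71

noncomputable def r72 : List Con := (true, [1,0,2,0,-1,-2,1]) :: l71

noncomputable def l73 : List Con := (true, [0,0,2,0,-1,-2,1]) :: r72

noncomputable def r73 : List Con := (true, [1,0,-2,0,1,2,-1]) :: r72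

noncomputable def l74 : List Con := (true, [0,0,2,2,-1,0,0,-1]) :: r73

noncomputable def r74 : List Con := (true, [1,0,-2,-2,1,0,0,1]) :: r73

noncomputable def l75 : List Con := (true, [0,0,-2,-2,1,0,0,1]) :: r74

noncomputable def r75 : List Con := (true, [1,0,2,2,-1,0,0,-1]) :: r74

noncomputable def l76 : List Con := (false, [0,0,0,0,0,1,0,0,0,0,-1]) :: r34

noncomputable def r76 : List Con := (false, [0,0,0,0,0,-1,0,0,0,0,1]) :: r34

noncomputable def l77 : List Con := (false, [0,-1,0,-1,0,0,-1,-1,0,0,1]) :: r33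

noncomputable def r77 : List Con := (false, [0,1,0,1,0,0,1,1,0,0,-1]) :: r33

noncomputable def l78 : List Con := (false, [0,0,0,0,0,2,0,0,0,-1,1]) :: r77

noncomputable def r78 : List Con := (false, [0,0,0,0,0,-2,0,0,0,1,-1]) :: r77

noncomputable def l79 : List Con := (true, [0,1,-1,-1,0,0,0,-1]) :: r78

noncomputable def r79 : List Con := (true, [1,-1,1,1,0,0,0,1]) :: r78

noncomputable def l80 : List Con := (true, [1,0,-2,-1,1,0,0,1]) :: r79

noncomputable def r80 : List Con := (true, [0,0,2,1,-1,0,0,-1]) :: r79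

noncomputable def l81 : List Con := (false, [0,0,0,-2,0,0,1,1,0,0,-1]) :: l80

noncomputable def r81 : List Con := (false, [0,0,0,2,0,0,-1,-1,0,0,1]) :: l80

noncomputable def l82 : List Con := (true, [0,1,-1,-2,0,0,0,-1]) :: r81

noncomputable def r82 : List Con := (true, [1,-1,1,2,0,0,0,1]) :: r81

noncomputable def l83 : List Con := (true, [0,0,-1,0,0,1,2]) :: l82

noncomputable def r83 : List Con := (true, [1,0,1,0,0,-1,-2]) :: l82

noncomputable def l84 : List Con := (true, [0,0,-1,-1,0,0,0,-2]) :: r83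

noncomputable def r84 : List Con := (true, [1,0,1,1,0,0,0,2]) :: r83

noncomputable def l85 : List Con := (false, [0,0,-2,0,1,0,-2,-1,0,-1,2]) :: r84

noncomputable def r85 : List Con := (false, [0,0,2,0,-1,0,2,1,0,1,-2]) :: r84

noncomputable def l86 : List Con := (false, [0,0,0,0,0,2,0,0,0,0,-1]) :: l85

noncomputable def r86 : List Con := (false, [0,0,0,0,0,-2,0,0,0,0,1]) :: l85

noncomputable def l87 : List Con := (false, [0,0,2,1,-1,0,1,0,0,1,-1]) :: r86

noncomputable def r87 : List Con := (false, [0,0,-2,-1,1,0,-1,0,0,-1,1]) :: r86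

noncomputable def l88 : List Con := (false, [0,-1,0,-1,0,0,1,1,0,1,-1]) :: r87

noncomputable def r88 : List Con := (false, [0,1,0,1,0,0,-1,-1,0,-1,1]) :: r87

noncomputable def l89 : List Con := (false, [0,0,-2,0,1,0,-1,0,0,-1,1]) :: r88

noncomputable def r89 : List Con := (false, [0,0,2,0,-1,0,1,0,0,1,-1]) :: r88

noncomputable def l90 : List Con := (false, [0,0,0,0,0,0,-2,-2,0,-1,2]) :: l89

noncomputable def r90 : List Con := (false, [0,0,0,0,0,0,2,2,0,1,-2]) :: l89

noncomputable def l91 : List Con := (false, [0,0,-2,-1,1,0,-1,0,0,-1,1]) :: r82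

noncomputable def r91 : List Con := (false, [0,0,2,1,-1,0,1,0,0,1,-1]) :: r82

noncomputable def l92 : List Con := (false, [0,0,0,0,0,-2,0,0,0,0,1]) :: l91

noncomputable def r92 : List Con := (false, [0,0,0,0,0,2,0,0,0,0,-1]) :: l91

noncomputable def l93 : List Con := (false, [0,-1,0,-1,0,0,1,1,0,1,-1]) :: l92

noncomputable def r93 : List Con := (false, [0,1,0,1,0,0,-1,-1,0,-1,1]) :: l92

noncomputable def l94 : List Con := (false, [0,0,-2,0,1,0,-1,0,0,-1,1]) :: r93

noncomputable def r94 : List Con := (false, [0,0,2,0,-1,0,1,0,0,1,-1]) :: r93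

noncomputable def l95 : List Con := (false, [0,0,0,0,0,0,-2,-2,0,-1,2]) :: l94

noncomputable def r95 : List Con := (false, [0,0,0,0,0,0,2,2,0,1,-2]) :: l94

noncomputable def l96 : List Con := (false, [0,0,0,-1,0,0,2,2,0,1,-2]) :: l95

noncomputable def r96 : List Con := (false, [0,0,0,1,0,0,-2,-2,0,-1,2]) :: l95

noncomputable def l97 : List Con := (true, [0,0,-2,-2,1,0,0,2]) :: r96

noncomputable def r97 : List Con := (true, [1,0,2,2,-1,0,0,-2]) :: r96

noncomputable def l98 : List Con := (false, [0,0,0,-2,0,0,-1,-1,0,-1,1]) :: l97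

noncomputable def r98 : List Con := (false, [0,0,0,2,0,0,1,1,0,1,-1]) :: l97

noncomputable def l99 : List Con := (false, [0,0,0,-2,0,0,2,2,0,1,-2]) :: r98

noncomputable def r99 : List Con := (false, [0,0,0,2,0,0,-2,-2,0,-1,2]) :: r98

noncomputable def l100 : List Con := (false, [0,-1,0,2,0,0,0,0,0,1]) :: r99

noncomputable def r100 : List Con := (false, [0,1,0,-2,0,0,0,0,0,-1]) :: r99

noncomputable def l101 : List Con := (false, [0,1,0,-3,0,0,0,0,0,-1]) :: l100

noncomputable def r101 : List Con := (false, [0,-1,0,3,0,0,0,0,0,1]) :: l100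

noncomputable def l102 : List Con := (true, [0,0,0,-1,0,0,0,0,1]) :: r97

noncomputable def r102 : List Con := (true, [1,0,0,1,0,0,0,0,-1]) :: r97

noncomputable def l103 : List Con := (false, [0,1,1,0,0,0,0,0,1,0,0,-1]) :: r102

noncomputable def r103 : List Con := (false, [0,-1,-1,0,0,0,0,0,-1,0,0,1]) :: r102

noncomputable def l104 : List Con := (false, [0,0,0,0,0,0,-1,-1,0,0,1,-1]) :: r103

noncomputable def r104 : List Con := (false, [0,0,0,0,0,0,1,1,0,0,-1,1]) :: r103

noncomputable def l105 : List Con := (true, [0,0,1,1,0,0,0,2]) :: r95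

noncomputable def r105 : List Con := (true, [1,0,-1,-1,0,0,0,-2]) :: r95

noncomputable def l106 : List Con := (false, [0,-1,0,-1,0,0,1,1,0,1,-1]) :: r80

noncomputable def r106 : List Con := (false, [0,1,0,1,0,0,-1,-1,0,-1,1]) :: r80

noncomputable def l107 : List Con := (true, [0,0,-2,0,1,2,-1]) :: r106

noncomputable def r107 : List Con := (true, [1,0,2,0,-1,-2,1]) :: r106

noncomputable def l108 : List Con := (false, [0,0,0,3,0,0,0,0,0,1]) :: r107

noncomputable def r108 : List Con := (false, [0,0,0,-3,0,0,0,0,0,-1]) :: r107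

noncomputable def l109 : List Con := (true, [0,1,2,2,-1]) :: l108

noncomputable def r109 : List Con := (true, [1,-1,-2,-2,1]) :: l108

noncomputable def l110 : List Con := (true, [0,1,-1,-2,0,0,0,-1]) :: r109

noncomputable def r110 : List Con := (true, [1,-1,1,2,0,0,0,1]) :: r109

noncomputable def l111 : List Con := (true, [0,0,-1,0,0,1,2]) :: l110

noncomputable def r111 : List Con := (true, [1,0,1,0,0,-1,-2]) :: l110

noncomputable def l112 : List Con := (false, [0,0,0,-2,0,0,-1,-1,0,-1,1]) :: r111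

noncomputable def r112 : List Con := (false, [0,0,0,2,0,0,1,1,0,1,-1]) :: r111

noncomputable def l113 : List Con := (true, [0,0,-1,-1,0,0,0,-2]) :: r112

noncomputable def r113 : List Con := (true, [1,0,1,1,0,0,0,2]) :: r112

noncomputable def l114 : List Con := (false, [0,0,0,0,0,0,-2,-2,0,-1,2]) :: r113

noncomputable def r114 : List Con := (false, [0,0,0,0,0,0,2,2,0,1,-2]) :: r113

noncomputable def l115 : List Con := (false, [0,0,1,2,0,0,0,0,1,1,0,-1]) :: r110

noncomputable def r115 : List Con := (false, [0,0,-1,-2,0,0,0,0,-1,-1,0,1]) :: r110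

noncomputable def l116 : List Con := (false, [0,0,-2,0,1,0,-1,0,0,0,1]) :: l115

noncomputable def r116 : List Con := (false, [0,0,2,0,-1,0,1,0,0,0,-1]) :: l115

noncomputable def l117 : List Con := (false, [0,1,-1,0,0,0,0,0,-1,0,0,1]) :: r116

noncomputable def r117 : List Con := (false, [0,-1,1,0,0,0,0,0,1,0,0,-1]) :: r116

noncomputable def l118 : List Con := (true, [0,1,0,-1,0,0,0,1]) :: r117

noncomputable def r118 : List Con := (true, [1,-1,0,1,0,0,0,-1]) :: r117

end Helper11.CT.Tm1_34_m1_m1_u
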