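import Pool.Agent.Helper11.CT.Cfg
import Pool.Agent.Helper11.CT.Cut

set_option autoImplicit false
set_option linter.all false

namespace Helper11.CT.Tm1_35_m1_1_v

open Helper11.CT

noncomputable def base : List Con :=
  [(false,[0,0,0,0,0,0,2,0,0,1,-2]),
  (true,[0,0,0,0,1,0,0,0,-2]),
  (true,[0,0,0,0,1,0,0,0,2]),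
  (false,[0,0,0,0,0,0,0,0,0,1,0,-2]),
  (false,[0,0,0,0,0,0,0,0,0,0,0,1]),
  (false,[0,1,0,0,0,0,-1,-1,0,-1,1]),
  (false,[0,0,1,0,0,0,-1,0,0,-1,1]),
  (false,[0,1,0,0,0,0,1,1,0,0,-1]),
  (false,[0,1,0,0,0,0,-1,-1,0,0,1]),
  (false,[0,0,1,0,0,0,1,0,0,0,-1]),
  (false,[0,0,1,0,0,0,-1,0,0,0,1]),
  (true,[0,0,0,0,0,0,0,1]),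
  (false,[0,0,0,0,0,0,0,0,0,1,-1]),
  (false,[0,0,0,0,0,0,0,0,0,0,1]),
  (false,[0,0,0,0,1,0,0,0,0,-2]),
  (false,[0,0,0,0,0,-1,0,0,0,1]),
  (true,[0,0,0,0,0,1]),
  (true,[0,2,-1]),
  (true,[1,-1,1]),
  (true,[0,1,0,1]),
  (true,[0,0,0,-1]),
  (true,[0,0,-2,0,1]),
  (true,[0,-2,0,0,1]),
  (true,[-1,0,1]),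
  (true,[-1,1])]

noncomputable def l0 : List Con := (false, [0,0,0,0,0,1,0,0,0,-1,1]) :: base

noncomputable def r0 : List Con := (false, [0,0,0,0,0,-1,0,0,0,1,-1]) :: base

noncomputable def l1 : List Con := (true, [1,0,-1,0,0,0,0,2]) :: l0

noncomputable def r1 : List Con := (true, [0,0,1,0,0,0,0,-2]) :: l0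

noncomputable def t0 : Tre :=
  (.Q [0,0,0,0,0,0,-1,0,0,0,1] (.p true [0,0,1] [] (⟨0,[(15,0)]⟩,⟨0,[(14,0)]⟩) .k 0 (⟨0,[]⟩,⟨0,[]⟩)
  .k .k) (.R ⟨0,false,false,false,[1,0,-1],[0,0,1],[],(⟨0,[(15,0)]⟩,⟨0,[(16,0)]⟩),(⟨0,[(16,0)]⟩,⟨0,
  [(15,0)]⟩),⟨0,[(2,0)]⟩,.k,.k,.k,.k,.k,.k,⟨false,1,⟨1,[(3,0),(4,0),(2,0),(12,0),(0,0)]⟩,⟨3,[(1,1),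
  (10,0),(0,0)]⟩⟩,⟨true,0,⟨0,[(3,0)]⟩,⟨0,[(0,0),(8,0)]⟩⟩,⟨true,0,⟨0,[(14,0)]⟩,⟨1,[(3,0),(4,0),(2,
  0)]⟩⟩,⟨false,0,⟨0,[(1,0),(1,0),(17,0)]⟩,⟨0,[(8,0),(2,0),(13,0)]⟩⟩,⟨false,0,⟨0,[]⟩,⟨0,[]⟩⟩,⟨false,
  0,⟨0,[]⟩,⟨0,[]⟩⟩,[.o ⟨false,0,⟨0,[(1,0),(1,0),(4,0),(12,0)]⟩,⟨1,[(11,1),(5,0),(7,0)]⟩⟩,.o ⟨false,
  1,⟨0,[(10,0),(14,0)]⟩,⟨0,[(8,0)]⟩⟩,.a ⟨true,0,⟨0,[(0,0)]⟩,⟨1,[(3,0),(11,0),(0,0)]⟩⟩ ⟨false,1,⟨3,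
  [(4,0),(0,0),(19,1)]⟩,⟨0,[]⟩⟩ ⟨true,0,⟨3,[(1,1),(1,3),(8,0),(0,0)]⟩,⟨0,[(0,0),(7,0)]⟩⟩,.o ⟨false,
  0,⟨0,[(9,0)]⟩,⟨7,[(3,3),(0,0),(0,0),(11,1),(6,3)]⟩⟩]⟩) (.Q [0,-1,0,-1,0,0,1,1,0,0,-1] (.p false
  [0,0,1] [] (⟨0,[(16,0)]⟩,⟨0,[(15,0)]⟩) .k 0 (⟨0,[]⟩,⟨0,[]⟩) .k .k) (.R ⟨2,true,false,false,[0,1],
  [0,0,1],[0,0,1],(⟨0,[]⟩,⟨0,[]⟩),(⟨0,[(17,0)]⟩,⟨0,[(16,0)]⟩),⟨0,[]⟩,.k,.k,.k,.k,.k,.k,⟨true,0,⟨1,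
  [(4,0),(4,0),(2,0),(9,1)]⟩,⟨3,[(2,1),(10,0),(0,0)]⟩⟩,⟨false,0,⟨0,[(1,0)]⟩,⟨0,[(14,0),(10,0)]⟩⟩,
  ⟨true,0,⟨0,[(24,0)]⟩,⟨0,[(23,0)]⟩⟩,⟨false,0,⟨0,[(0,0)]⟩,⟨0,[(12,0),(10,0),(2,0)]⟩⟩,⟨false,1,⟨3,
  [(5,0),(0,0),(19,1)]⟩,⟨0,[]⟩⟩,⟨true,0,⟨1,[(1,0),(0,0),(10,0)]⟩,⟨0,[(12,0)]⟩⟩,[]⟩) (.Q [0,0,0,0,0,
  1,0,0,0,0,-1] (.ed true [1,-1,1] .k) (.Q [0,0,0,0,0,0,-1,0,0,1,1] (.p true [1,-1,1] [] (⟨0,[(18,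
  0),(1,0)]⟩,⟨0,[(0,0)]⟩) .k 0 (⟨0,[]⟩,⟨0,[]⟩) .k .k) (.K ⟨0,[1,-1,1],0,0,(⟨0,[(19,0),(1,0)]⟩,⟨0,
  [(1,0)]⟩),.k,(.r (-1) ⟨7,[(4,3),(2,0),(0,0),(17,15),(0,5)]⟩ ⟨0,[(2,0),(0,0),(20,1),(0,0)]⟩),.k,.k,
  .k,[⟨0,[(0,0)]⟩,⟨0,[(3,0)]⟩,⟨2,[(0,1),(1,2),(3,0)]⟩,⟨1,[(3,2),(0,0),(6,0),(0,0),(0,0),(12,1)]⟩]⟩)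
  (.Q [0,0,0,1,0,0,0,0,0,1] (.pp false [-1,1]) (.R ⟨0,false,false,false,[0,0,1],[1,-1],[0,0,0,-1,0,
  0,0,1],(⟨0,[(20,0)]⟩,⟨0,[(19,0)]⟩),(⟨0,[(22,0)]⟩,⟨0,[(23,0)]⟩),⟨0,[(2,0)]⟩,.k,.k,.k,.k,.k,.k,
  ⟨false,0,⟨0,[(18,0)]⟩,⟨1,[(7,0),(4,0),(2,0),(12,0),(0,0)]⟩⟩,⟨true,0,⟨0,[(13,0)]⟩,⟨1,[(7,0),(11,0),
  (0,0)]⟩⟩,⟨true,0,⟨0,[(27,0)]⟩,⟨0,[(26,0)]⟩⟩,⟨false,1,⟨0,[(12,0),(14,0),(1,0)]⟩,⟨5,[(0,5),(0,0),(3,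
  2),(1,0),(8,2)]⟩⟩,⟨false,0,⟨0,[]⟩,⟨0,[]⟩⟩,⟨false,0,⟨0,[]⟩,⟨0,[]⟩⟩,[.a ⟨true,0,⟨0,[(27,0)]⟩,⟨0,[(0,
  0)]⟩⟩ ⟨true,0,⟨3,[(5,1),(10,0),(0,0),(9,3)]⟩,⟨2,[(1,0),(1,2),(3,0),(17,2)]⟩⟩ ⟨false,1,⟨0,[(13,0),
  (13,0),(0,0)]⟩,⟨2,[(0,2),(0,0),(5,0)]⟩⟩,.o ⟨false,1,⟨1,[(21,0),(5,1),(1,0)]⟩,⟨0,[(26,0)]⟩⟩,.o
  ⟨false,0,⟨0,[(4,0)]⟩,⟨1,[(17,1),(3,0),(6,0)]⟩⟩,.o ⟨false,0,⟨0,[(16,0)]⟩,⟨0,[(13,0),(14,0)]⟩⟩]⟩)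
  (.I [1,-1,0,0,0,0,0,0,-1] (.R ⟨0,false,false,false,[0,0,0,1],[0,0,1],[0,1,0,0,0,0,0,0,1],(⟨0,[(12,
  0)]⟩,⟨1,[(11,0),(8,0),(0,0)]⟩),(⟨0,[(21,0)]⟩,⟨0,[(20,0)]⟩),⟨1,[(3,0),(3,0),(3,0)]⟩,.k,.k,(.r (-1)
  ⟨1,[(10,0),(17,1),(0,0)]⟩ ⟨1,[(0,1),(16,0),(0,0),(8,1)]⟩),.k,.k,.k,⟨false,1,⟨1,[(8,0),(1,0),(2,0),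
  (2,0),(12,0)]⟩,⟨3,[(0,3),(5,1),(10,0),(0,0)]⟩⟩,⟨true,0,⟨2,[(2,0),(5,0),(3,2)]⟩,⟨1,[(11,0),(2,0),
  (3,0)]⟩⟩,⟨true,0,⟨0,[(32,0)]⟩,⟨0,[]⟩⟩,⟨false,0,⟨5,[(0,5),(1,0),(3,2),(1,0),(3,5),(4,2)]⟩,⟨1,[(10,
  0),(0,0),(1,0),(2,0),(13,0)]⟩⟩,⟨false,0,⟨0,[]⟩,⟨0,[]⟩⟩,⟨false,0,⟨0,[]⟩,⟨0,[]⟩⟩,[.o ⟨false,0,⟨5,
  [(2,0),(3,2),(1,0),(8,2)]⟩,⟨1,[(16,1),(5,0),(7,0)]⟩⟩,.o ⟨false,1,⟨0,[(15,0),(14,0)]⟩,⟨0,[(13,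
  0)]⟩⟩,.a ⟨true,0,⟨1,[(11,0),(8,0),(0,0)]⟩,⟨0,[(12,0)]⟩⟩ ⟨false,1,⟨3,[(9,0),(0,2)]⟩,⟨0,[(0,0)]⟩⟩
  ⟨true,0,⟨5,[(2,0),(3,2),(1,0),(3,5),(4,2)]⟩,⟨1,[(11,0),(1,0),(2,0)]⟩⟩,.o ⟨false,0,⟨1,[(11,0),(2,
  0),(2,0)]⟩,⟨1,[(12,1),(9,0),(6,0)]⟩⟩]⟩) (.I [0,0,1,1,0,0,0,-1,1] (.I [0,0,-1,-1,0,0,0,0,1] (.R ⟨0,
  false,false,false,[0,0,0,1],[1,-1],[0,0,0,-1,0,0,0,0,1],(⟨0,[(14,0)]⟩,⟨1,[(13,0),(8,0),(0,0)]⟩),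
  (⟨0,[(25,0)]⟩,⟨0,[(26,0)]⟩),⟨1,[(5,0),(3,0),(3,0)]⟩,.k,.k,(.r 0 ⟨0,[(0,0)]⟩ ⟨1,[(11,0),(7,0),(0,
  0),(8,1),(2,0)]⟩),(.r 0 ⟨3,[(1,3),(6,1),(10,0),(0,0)]⟩ ⟨1,[(11,0),(18,1),(0,0)]⟩),.k,.k,⟨false,0,
  ⟨4,[(0,1),(0,1),(0,0),(5,0),(19,0)]⟩,⟨1,[(11,0),(19,0)]⟩⟩,⟨true,0,⟨2,[(4,0),(9,2),(1,1),(2,0)]⟩,
  ⟨1,[(13,0),(8,0),(0,0)]⟩⟩,⟨true,0,⟨0,[(30,0)]⟩,⟨0,[(29,0)]⟩⟩,⟨false,1,⟨1,[(3,1),(7,0),(2,1),(17,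
  0)]⟩,⟨5,[(0,5),(3,1),(1,11),(1,5),(1,4),(2,2),(14,11)]⟩⟩,⟨false,0,⟨0,[]⟩,⟨0,[]⟩⟩,⟨false,0,⟨0,[]⟩,
  ⟨0,[]⟩⟩,[.o ⟨false,0,⟨0,[(3,0)]⟩,⟨3,[(11,0),(0,0),(16,3),(2,1)]⟩⟩,.o ⟨false,1,⟨1,[(24,0),(5,1),(1,
  0)]⟩,⟨0,[(29,0)]⟩⟩,.a ⟨true,0,⟨1,[(13,0),(8,0),(0,0)]⟩,⟨0,[(14,0)]⟩⟩ ⟨false,0,⟨0,[(0,0),(27,0)]⟩,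
  ⟨1,[(11,0),(17,1),(2,0)]⟩⟩ ⟨true,0,⟨0,[(3,0),(10,0)]⟩,⟨1,[(13,0),(8,0),(0,0),(5,1)]⟩⟩,.o ⟨false,0,
  ⟨1,[(13,0),(2,0),(2,0)]⟩,⟨1,[(14,1),(9,0),(6,0)]⟩⟩]⟩) (.Q [0,0,0,0,0,0,1,1,-1,0,-1,1] (.p false
  [0,0,1] [0,0,0,1] (⟨0,[(23,0)]⟩,⟨0,[(22,0)]⟩) .k 2 (⟨0,[(14,0)]⟩,⟨1,[(13,0),(8,0),(0,0)]⟩) .k (.x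
  0 ⟨2,[(4,0),(5,0),(12,2)]⟩ ⟨1,[(20,1),(1,1),(1,0),(6,0)]⟩)) (.I [0,0,1,1,0,0,0,0,-1] (.K ⟨2,[0,0,
  0,1],0,0,(⟨0,[(16,0)]⟩,⟨1,[(15,0),(8,0),(0,0)]⟩),.k,(.r (-1) ⟨1,[(14,0),(17,1),(0,0)]⟩ ⟨0,[(0,
  0)]⟩),(.r 0 ⟨3,[(3,3),(6,1),(10,0),(0,0)]⟩ ⟨1,[(13,0),(18,1),(0,0)]⟩),.k,.k,[⟨2,[(6,0),(5,0),(3,
  2)]⟩,⟨1,[(12,0),(2,0)]⟩,⟨1,[(16,1),(4,0),(0,0)]⟩,⟨1,[(15,0),(2,0),(2,0)]⟩,⟨0,[(1,0),(18,0)]⟩,⟨5,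
  [(3,0),(0,4),(0,0),(0,0),(3,0),(4,2),(1,0)]⟩]⟩) (.K ⟨2,[0,0,0,1],0,0,(⟨0,[(16,0)]⟩,⟨1,[(15,0),(8,
  0),(0,0)]⟩),.k,(.x 0 ⟨2,[(6,0),(11,1),(2,0),(5,2)]⟩ ⟨3,[(13,0),(0,0),(13,3),(4,1)]⟩),(.r 0 ⟨3,[(3,
  3),(6,1),(10,0),(0,0)]⟩ ⟨1,[(13,0),(18,1),(0,0)]⟩),.k,.k,[⟨2,[(6,0),(5,0),(3,2)]⟩,⟨1,[(12,0),(2,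
  0)]⟩,⟨1,[(16,1),(4,0),(0,0)]⟩,⟨1,[(15,0),(2,0),(2,0)]⟩,⟨0,[(1,0),(18,0)]⟩,⟨27,[(0,1),(2,1),(0,23),
  (1,6),(3,2),(4,13),(1,3),(0,2)]⟩]⟩)) (.R ⟨0,false,false,false,[0,0,0,1],[1,-1],[1,0,1],(⟨0,[(15,
  0)]⟩,⟨1,[(14,0),(8,0),(0,0)]⟩),(⟨0,[(26,0)]⟩,⟨0,[(27,0)]⟩),⟨1,[(6,0),(3,0),(3,0)]⟩,.k,.k,(.x 0 ⟨2,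
  [(5,0),(11,1),(2,0),(5,2)]⟩ ⟨3,[(12,0),(0,0),(13,3),(4,1)]⟩),(.r 0 ⟨3,[(2,3),(6,1),(10,0),(0,0)]⟩
  ⟨1,[(12,0),(18,1),(0,0)]⟩),.k,.k,⟨false,0,⟨7,[(1,3),(0,3),(6,1),(10,0),(0,0)]⟩,⟨0,[(31,0),(0,
  0)]⟩⟩,⟨true,0,⟨2,[(5,0),(9,2),(1,1),(2,0)]⟩,⟨1,[(14,0),(8,0),(0,0)]⟩⟩,⟨true,0,⟨0,[(1,0),(29,0)]⟩,
  ⟨5,[(0,5),(4,1),(3,2),(1,1),(3,5),(12,2)]⟩⟩,⟨false,1,⟨1,[(4,1),(7,0),(2,1),(17,0)]⟩,⟨0,[(0,0),(6,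
  0),(1,0),(1,0),(17,0)]⟩⟩,⟨false,0,⟨0,[]⟩,⟨0,[]⟩⟩,⟨false,0,⟨0,[]⟩,⟨0,[]⟩⟩,[.o ⟨false,0,⟨0,[(4,0)]⟩,
  ⟨3,[(12,0),(0,0),(16,3),(2,1)]⟩⟩,.o ⟨false,1,⟨1,[(25,0),(5,1),(1,0)]⟩,⟨0,[(30,0)]⟩⟩,.a ⟨true,0,⟨1,
  [(14,0),(8,0),(0,0)]⟩,⟨0,[(15,0)]⟩⟩ ⟨false,0,⟨0,[(29,0)]⟩,⟨3,[(12,0),(0,0),(18,1)]⟩⟩ ⟨true,0,⟨0,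
  [(4,0),(10,0)]⟩,⟨1,[(14,0),(8,0),(0,0),(5,1)]⟩⟩,.o ⟨false,0,⟨1,[(14,0),(2,0),(2,0)]⟩,⟨1,[(15,1),
  (9,0),(6,0)]⟩⟩]⟩))) (.K ⟨2,[1,0,0,-1],0,0,(⟨1,[(12,0),(8,0),(0,0)]⟩,⟨0,[(13,0)]⟩),.k,(.x 0 ⟨2,[(3,
  0),(11,1),(2,0),(5,2)]⟩ ⟨3,[(10,0),(0,0),(13,3),(4,1)]⟩),(.r 0 ⟨2,[(0,2),(2,0),(1,2),(3,0),(17,5),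
  (0,2)]⟩ ⟨1,[(11,0),(17,1),(0,0)]⟩),.k,.k,[⟨1,[(9,0),(2,0)]⟩,⟨2,[(3,0),(5,0),(3,2)]⟩,⟨1,[(9,0),(2,
  0),(6,1)]⟩,⟨2,[(3,0),(9,2),(1,1),(2,0)]⟩,⟨1,[(1,1),(10,0),(8,0),(0,0)]⟩,⟨2,[(0,2),(2,1),(1,2),(7,
  2),(1,0),(2,1)]⟩]⟩))))) (.Q [0,-1,0,-1,0,0,1,1,0,1,-1] (.p false [0,0,1] [1] (⟨0,[(18,0)]⟩,⟨0,
  [(17,0)]⟩) .k 1 (⟨0,[]⟩,⟨0,[]⟩) .k .k) (.R ⟨2,true,false,true,[0,1],[1,1,-1],[0,1,1],(⟨0,[]⟩,⟨0,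
  []⟩),(⟨0,[(18,0),(3,0)]⟩,⟨0,[(1,0)]⟩),⟨0,[]⟩,.k,.k,.k,.k,.k,.k,⟨true,0,⟨5,[(0,0),(3,1),(7,0),(0,
  0),(2,0),(9,4)]⟩,⟨0,[(2,0),(0,0),(20,0)]⟩⟩,⟨false,1,⟨0,[(12,0),(14,0)]⟩,⟨1,[(6,0),(11,0),(0,0)]⟩⟩,
  ⟨false,0,⟨0,[(26,0)]⟩,⟨0,[(25,0),(2,0)]⟩⟩,⟨true,0,⟨0,[(11,0)]⟩,⟨0,[(0,0),(24,0)]⟩⟩,⟨true,0,⟨0,
  [(30,0)]⟩,⟨0,[]⟩⟩,⟨false,1,⟨1,[(2,1),(17,0),(7,0)]⟩,⟨0,[(0,0)]⟩⟩,[]⟩) (.Q [0,0,0,1,0,0,0,0,0,1]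
  (.pp false [-1,1]) (.R ⟨0,false,false,false,[1,0,-1],[1,-1],[1,0,-1,-1],(⟨0,[(19,0)]⟩,⟨0,[(20,
  0)]⟩),(⟨0,[(22,0)]⟩,⟨0,[(23,0)]⟩),⟨0,[(6,0)]⟩,.k,.k,.k,.k,.k,.k,⟨true,0,⟨0,[]⟩,⟨1,[(16,0),(0,
  0)]⟩⟩,⟨false,0,⟨0,[(4,0)]⟩,⟨0,[(17,0),(10,0)]⟩⟩,⟨false,1,⟨7,[(5,3),(2,0),(0,0),(17,7),(0,1),(0,
  3)]⟩,⟨1,[(1,0),(1,0),(3,0),(17,1)]⟩⟩,⟨true,0,⟨1,[(4,0),(0,0),(10,0),(10,1)]⟩,⟨0,[(3,0)]⟩⟩,⟨false,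
  0,⟨0,[]⟩,⟨0,[]⟩⟩,⟨false,0,⟨0,[]⟩,⟨0,[]⟩⟩,[.a ⟨true,0,⟨0,[(27,0)]⟩,⟨0,[(0,0)]⟩⟩ ⟨false,1,⟨0,[(27,
  0),(0,0)]⟩,⟨0,[(25,0),(0,0)]⟩⟩ ⟨true,0,⟨0,[(4,0),(22,0)]⟩,⟨0,[(0,0),(12,0)]⟩⟩,.o ⟨false,1,⟨1,[(21,
  0),(5,1),(1,0)]⟩,⟨0,[(26,0)]⟩⟩,.o ⟨false,1,⟨1,[(17,1),(3,0),(6,0)]⟩,⟨0,[(4,0)]⟩⟩,.o ⟨false,0,⟨0,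
  [(13,0)]⟩,⟨7,[(7,3),(0,0),(0,0),(11,1),(6,3)]⟩⟩]⟩) (.I [0,0,-1,-2,0,0,0,1] (.Q [0,0,-2,0,1,0,-1,0,
  0,0,1] (.p true [0,0,1] [] (⟨0,[(21,0)]⟩,⟨0,[(20,0)]⟩) .k 0 (⟨0,[]⟩,⟨0,[]⟩) .k .k) (.R ⟨1,true,
  false,true,[0,0,1],[0,1],[0,1,0,-1,0,0,0,1],(⟨0,[(22,0)]⟩,⟨0,[(21,0)]⟩),(⟨0,[(25,0)]⟩,⟨0,[(24,
  0)]⟩),⟨0,[(4,0)]⟩,.k,.k,.k,.k,(.r (-1) ⟨3,[(1,3),(8,0),(0,0),(18,1)]⟩ ⟨1,[(3,0),(1,0),(3,0),(17,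
  3),(0,1)]⟩),.k,⟨true,0,⟨0,[(1,0)]⟩,⟨1,[(3,0),(1,0),(3,0),(17,3),(0,1)]⟩⟩,⟨false,1,⟨0,[(0,0)]⟩,⟨0,
  [(18,0)]⟩⟩,⟨false,0,⟨0,[(29,0)]⟩,⟨0,[(28,0),(2,0)]⟩⟩,⟨true,0,⟨0,[(5,0)]⟩,⟨6,[(1,2),(0,0),(4,1),(1,
  0),(8,4)]⟩⟩,⟨true,0,⟨0,[(33,0)]⟩,⟨0,[]⟩⟩,⟨false,1,⟨0,[(5,0),(22,0),(2,0)]⟩,⟨0,[(1,0),(4,0),(20,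
  0)]⟩⟩,[]⟩) (.R ⟨1,true,false,true,[0,0,1],[0,1],[1,1,0,0,0,0,0,1],(⟨0,[(22,0)]⟩,⟨0,[(21,0)]⟩),(⟨0,
  [(25,0)]⟩,⟨0,[(24,0)]⟩),⟨0,[(4,0)]⟩,.k,.k,.k,.k,(.r (-1) ⟨3,[(1,3),(8,0),(0,0),(18,1)]⟩ ⟨0,[(0,0),
  (4,0),(22,0),(2,0)]⟩),.k,⟨false,1,⟨15,[(1,7),(5,3),(2,2),(0,2),(18,9)]⟩,⟨3,[(0,1),(2,0),(1,2),(3,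
  0),(21,1)]⟩⟩,⟨true,1,⟨0,[(19,0),(10,0)]⟩,⟨0,[(0,0)]⟩⟩,⟨false,0,⟨0,[]⟩,⟨3,[(10,0),(0,0),(19,1)]⟩⟩,
  ⟨true,0,⟨0,[(5,0)]⟩,⟨11,[(0,0),(0,5),(5,2),(1,1),(8,6),(4,0)]⟩⟩,⟨true,0,⟨0,[(28,0)]⟩,⟨0,[(29,
  0)]⟩⟩,⟨false,1,⟨0,[(5,0),(22,0),(2,0)]⟩,⟨1,[(0,0),(0,1),(4,0),(24,0)]⟩⟩,[]⟩)) (.I [1,0,1,0,-1,0,0,
  1,-1] (.Q [0,0,0,0,0,1,0,0,0,0,0,-1] (.p false [0,0,0,1] [] (⟨0,[(13,0)]⟩,⟨1,[(12,0),(8,0),(0,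
  0)]⟩) .k 0 (⟨0,[]⟩,⟨0,[]⟩) .k .k) (.R ⟨0,false,false,true,[0,0,0,1],[0,1],[1,1,1,1],(⟨0,[(14,0)]⟩,
  ⟨1,[(13,0),(8,0),(0,0)]⟩),(⟨0,[(26,0)]⟩,⟨0,[(25,0)]⟩),⟨0,[(0,0)]⟩,.k,.k,(.r (-1) ⟨1,[(12,0),(17,
  1),(0,0)]⟩ ⟨23,[(1,7),(0,11),(5,1),(2,7),(7,2),(0,2)]⟩),(.r (-1) ⟨1,[(12,0),(17,1),(0,0)]⟩ ⟨23,
  [(1,7),(0,11),(5,1),(2,7),(7,2),(0,2)]⟩),.k,.k,⟨true,0,⟨0,[]⟩,⟨1,[(19,0),(0,0)]⟩⟩,⟨false,1,⟨0,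
  [(14,0),(16,0)]⟩,⟨1,[(13,0),(2,0),(2,0)]⟩⟩,⟨true,(-1),⟨1,[(1,1),(2,0),(1,0),(3,0)]⟩,⟨1,[(12,0),
  (17,1),(0,0)]⟩⟩,⟨false,0,⟨3,[(1,3),(0,1),(7,0),(3,3),(0,0),(2,0),(12,2),(0,0)]⟩,⟨1,[(3,0),(8,0),
  (0,0),(16,0),(1,0)]⟩⟩,⟨false,0,⟨0,[]⟩,⟨0,[]⟩⟩,⟨false,0,⟨0,[]⟩,⟨0,[]⟩⟩,[.o ⟨false,0,⟨0,[(29,0)]⟩,
  ⟨1,[(24,0),(5,1),(1,0)]⟩⟩,.o ⟨false,1,⟨15,[(2,7),(5,3),(2,6),(0,6),(18,1)]⟩,⟨0,[(3,0)]⟩⟩,.a ⟨true,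
  0,⟨1,[(13,0),(8,0),(0,0)]⟩,⟨0,[(14,0)]⟩⟩ ⟨false,0,⟨7,[(2,3),(5,1),(10,2),(0,2)]⟩,⟨1,[(30,1),(0,0),
  (0,0)]⟩⟩ ⟨true,0,⟨0,[(14,0),(14,0)]⟩,⟨1,[(3,0),(9,0),(16,0)]⟩⟩,.o ⟨false,0,⟨1,[(13,0),(2,0),(2,
  0)]⟩,⟨1,[(14,1),(9,0),(6,0)]⟩⟩]⟩) (.I [0,0,-1,-1,0,0,0,0,-1] (.R ⟨1,false,false,false,[1,0,0,-1],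
  [0,0,1],[1,1,0,0,0,0,0,0,-1],(⟨1,[(14,0),(8,0),(0,0)]⟩,⟨0,[(15,0)]⟩),(⟨0,[(24,0)]⟩,⟨0,[(23,0)]⟩),
  ⟨0,[(1,0),(12,0)]⟩,.k,.k,(.r 0 ⟨0,[(0,0)]⟩ ⟨7,[(3,3),(8,0),(0,4),(4,3),(2,3),(11,1)]⟩),.k,(.x 0
  ⟨5,[(1,5),(1,0),(0,2),(0,0),(3,0),(4,2),(2,4),(5,5),(5,0)]⟩ ⟨3,[(10,1),(0,1),(0,0),(0,0),(10,1),
  (2,1),(4,1)]⟩),.k,⟨false,0,⟨1,[(0,1),(4,0),(1,0),(3,0)]⟩,⟨3,[(9,1),(3,1),(6,0),(0,0),(11,1)]⟩⟩,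
  ⟨true,0,⟨1,[(11,0),(2,0)]⟩,⟨0,[(15,0),(1,0)]⟩⟩,⟨false,0,⟨0,[]⟩,⟨3,[(12,0),(0,0),(19,1)]⟩⟩,⟨false,
  1,⟨3,[(9,1),(1,1),(1,1),(0,1),(5,0),(0,0),(11,1)]⟩,⟨0,[(0,0),(4,0),(9,0),(13,0)]⟩⟩,⟨true,0,⟨0,
  [(30,0)]⟩,⟨0,[(31,0)]⟩⟩,⟨false,1,⟨7,[(3,3),(5,5),(1,3),(1,3),(0,3),(5,0),(0,0),(11,3)]⟩,⟨0,[(0,0),
  (14,0),(0,0),(12,0)]⟩⟩,[.o ⟨false,0,⟨1,[(8,0),(0,0),(10,0)]⟩,⟨1,[(19,1),(5,0),(7,0)]⟩⟩,.o ⟨false,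
  1,⟨0,[(18,0),(14,0)]⟩,⟨0,[(16,0)]⟩⟩,.a ⟨true,0,⟨0,[(15,0)]⟩,⟨1,[(14,0),(8,0),(0,0)]⟩⟩ ⟨false,0,⟨4,
  [(0,1),(1,0),(0,0),(8,0)]⟩,⟨1,[(13,0),(19,0)]⟩⟩ ⟨true,0,⟨3,[(9,1),(1,1),(2,1),(5,0),(0,0)]⟩,⟨0,
  [(15,0),(0,0)]⟩⟩,.o ⟨false,0,⟨7,[(2,1),(0,1),(0,3),(8,0),(1,7),(1,1),(2,1),(4,0)]⟩,⟨7,[(12,0),(0,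
  0),(0,3),(10,1),(6,3)]⟩⟩]⟩) (.Q [0,1,0,0,0,0,0,0,1,0,0,-1] (.p false [0,0,0,1] [] (⟨0,[(15,0)]⟩,
  ⟨1,[(14,0),(8,0),(0,0)]⟩) .k 0 (⟨0,[]⟩,⟨0,[]⟩) .k .k) (.K ⟨2,[0,0,0,1],0,0,(⟨0,[(16,0)]⟩,⟨1,[(15,
  0),(8,0),(0,0)]⟩),.k,(.r (-1) ⟨1,[(14,0),(17,1),(0,0)]⟩ ⟨4,[(1,0),(1,1),(0,1),(8,1)]⟩),(.x (-1)
  ⟨3,[(13,0),(0,0),(13,3),(4,1)]⟩ ⟨1,[(2,1),(12,0),(2,0),(2,0)]⟩),.k,.k,[⟨0,[(9,0),(6,0)]⟩,⟨1,[(12,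
  0),(2,0)]⟩,⟨1,[(16,1),(4,0),(0,0)]⟩,⟨1,[(15,0),(2,0),(2,0)]⟩,⟨5,[(3,1),(8,0),(0,1),(2,5),(0,0),(2,
  0),(8,1)]⟩,⟨0,[(0,0)]⟩]⟩) (.R ⟨1,false,false,false,[1,0,0,-1],[1,-1],[0,0,0,-1,0,0,0,0,-1],(⟨1,
  [(15,0),(8,0),(0,0)]⟩,⟨0,[(16,0)]⟩),(⟨0,[(27,0)]⟩,⟨0,[(28,0)]⟩),⟨0,[(2,0),(12,0)]⟩,.k,.k,(.x 0 ⟨1,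
  [(2,1),(12,0),(2,0),(2,0)]⟩ ⟨3,[(13,0),(0,0),(13,3),(4,1)]⟩),(.r 0 ⟨4,[(1,0),(1,1),(0,1),(8,1)]⟩
  ⟨1,[(14,0),(17,1),(0,0)]⟩),.k,.k,⟨false,0,⟨11,[(0,5),(2,1),(1,0),(0,0),(2,1),(3,1),(1,2),(1,0),
  (11,1)]⟩,⟨1,[(14,0),(18,0)]⟩⟩,⟨true,0,⟨1,[(15,0),(2,0),(2,0)]⟩,⟨0,[(16,0)]⟩⟩,⟨true,0,⟨0,[(32,0)]⟩,
  ⟨0,[(31,0)]⟩⟩,⟨false,1,⟨1,[(5,0),(8,0),(0,0),(16,0),(1,0)]⟩,⟨0,[(0,0),(30,0)]⟩⟩,⟨false,1,⟨3,[(13,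
  0),(0,0),(19,1)]⟩,⟨0,[]⟩⟩,⟨false,1,⟨3,[(1,1),(3,1),(8,0),(0,1),(17,0),(0,1)]⟩,⟨7,[(0,4),(2,0),(9,
  0),(2,2),(3,0),(0,0),(7,1)]⟩⟩,[.o ⟨false,0,⟨0,[(5,0)]⟩,⟨15,[(4,7),(5,3),(2,6),(0,6),(18,1)]⟩⟩,.o
  ⟨false,1,⟨1,[(26,0),(5,1),(1,0)]⟩,⟨0,[(31,0)]⟩⟩,.a ⟨true,0,⟨0,[(16,0)]⟩,⟨1,[(15,0),(8,0),(0,0)]⟩⟩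
  ⟨false,0,⟨1,[(0,1),(4,0),(9,0),(16,0)]⟩,⟨15,[(4,7),(5,3),(2,2),(0,10),(18,1)]⟩⟩ ⟨true,0,⟨1,[(5,0),
  (9,0),(16,0)]⟩,⟨0,[(16,0),(14,0)]⟩⟩,.o ⟨false,0,⟨6,[(1,0),(1,0),(0,0),(0,2),(10,6),(1,1),(2,1),(4,
  0)]⟩,⟨7,[(13,0),(0,0),(0,3),(10,1),(6,3)]⟩⟩]⟩)))) (.Q [0,1,0,0,0,0,0,0,-1,0,0,1] (.p true [0,0,0,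
  1] [] (⟨0,[(13,0)]⟩,⟨1,[(12,0),(8,0),(0,0)]⟩) .k 0 (⟨0,[]⟩,⟨0,[]⟩) .k .k) (.I [0,0,1,1,0,0,0,0,1]
  (.Q [0,1,0,0,0,0,0,0,1,0,0,-1] (.p false [0,0,0,1] [] (⟨0,[(15,0)]⟩,⟨1,[(14,0),(8,0),(0,0)]⟩) .k
  0 (⟨0,[]⟩,⟨0,[]⟩) .k .k) (.K ⟨2,[0,0,0,1],0,0,(⟨0,[(16,0)]⟩,⟨1,[(15,0),(8,0),(0,0)]⟩),.k,(.x 0 ⟨6,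
  [(4,1),(0,3),(4,0),(7,2),(2,2),(5,6)]⟩ ⟨3,[(13,0),(0,0),(13,3),(4,1)]⟩),(.r 0 ⟨0,[(1,0)]⟩ ⟨1,[(13,
  0),(18,1),(0,0)]⟩),.k,.k,[⟨0,[(9,0),(6,0)]⟩,⟨1,[(12,0),(2,0)]⟩,⟨1,[(16,1),(4,0),(0,0)]⟩,⟨1,[(15,
  0),(2,0),(2,0)]⟩,⟨0,[(2,0)]⟩,⟨0,[(0,0)]⟩]⟩) (.Q [0,1,0,0,0,0,0,0,1,1,0,-1] (.p false [0,0,0,1]
  [1] (⟨0,[(16,0)]⟩,⟨1,[(15,0),(8,0),(0,0)]⟩) .k 1 (⟨0,[]⟩,⟨0,[]⟩) .k .k) (.K ⟨1,[1,0,0,-1],0,0,(⟨1,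
  [(16,0),(8,0),(0,0)]⟩,⟨0,[(17,0)]⟩),.k,(.r (-1) ⟨1,[(14,0),(18,1),(0,0)]⟩ ⟨0,[(2,0)]⟩),(.x (-1)
  ⟨3,[(14,0),(0,0),(13,3),(4,1)]⟩ ⟨6,[(5,1),(0,3),(4,0),(7,2),(2,2),(5,6)]⟩),.k,.k,[⟨1,[(13,0),(2,
  0),(6,1)]⟩,⟨4,[(1,0),(0,0),(2,0),(0,2),(10,3),(1,1),(0,0),(1,0)]⟩,⟨0,[(0,0)]⟩,⟨0,[(1,0)]⟩]⟩) (.Q
  [0,0,0,0,0,1,0,0,0,0,0,-1] (.p false [0,0,0,1] [] (⟨0,[(17,0)]⟩,⟨1,[(16,0),(8,0),(0,0)]⟩) .k 0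
  (⟨0,[]⟩,⟨0,[]⟩) .k .k) (.R ⟨0,false,false,false,[0,0,0,1],[0,0,1],[1,0,0,0,0,0,0,0,1],(⟨0,[(18,
  0)]⟩,⟨1,[(17,0),(8,0),(0,0)]⟩),(⟨0,[(27,0)]⟩,⟨0,[(26,0)]⟩),⟨0,[(0,0)]⟩,.k,.k,(.x 0 ⟨6,[(6,1),(0,
  3),(4,0),(7,2),(2,2),(5,6)]⟩ ⟨3,[(15,0),(0,0),(13,3),(4,1)]⟩),.k,.k,.k,⟨false,1,⟨0,[(5,0)]⟩,⟨3,
  [(1,1),(2,1),(7,1),(4,1),(5,0),(0,0)]⟩⟩,⟨true,0,⟨0,[(11,0),(6,0)]⟩,⟨1,[(17,0),(2,0),(3,0)]⟩⟩,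
  ⟨true,0,⟨0,[]⟩,⟨0,[(38,0)]⟩⟩,⟨false,0,⟨3,[(1,0),(0,2),(9,1),(1,0),(8,1)]⟩,⟨1,[(16,0),(0,0),(1,0),
  (2,0),(13,0)]⟩⟩,⟨false,0,⟨0,[]⟩,⟨0,[]⟩⟩,⟨false,0,⟨0,[]⟩,⟨0,[]⟩⟩,[.o ⟨false,0,⟨1,[(11,0),(0,0),(10,
  0)]⟩,⟨1,[(22,1),(5,0),(7,0)]⟩⟩,.o ⟨false,1,⟨0,[(21,0),(14,0)]⟩,⟨0,[(19,0)]⟩⟩,.a ⟨true,0,⟨1,[(17,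
  0),(8,0),(0,0)]⟩,⟨0,[(18,0)]⟩⟩ ⟨false,1,⟨1,[(16,0),(19,0)]⟩,⟨1,[(1,0),(2,0),(12,0)]⟩⟩ ⟨true,0,⟨6,
  [(1,0),(1,0),(3,0),(4,2),(1,1),(3,5),(2,0),(1,1)]⟩,⟨1,[(17,0),(1,0),(2,0)]⟩⟩,.o ⟨false,0,⟨1,[(17,
  0),(2,0),(2,0)]⟩,⟨1,[(18,1),(9,0),(6,0)]⟩⟩]⟩) (.R ⟨1,false,false,false,[0,0,0,1],[0,0,1],[1,0,0,0,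
  0,0,0,0,1],(⟨0,[(18,0)]⟩,⟨1,[(17,0),(8,0),(0,0)]⟩),(⟨0,[(27,0)]⟩,⟨0,[(26,0)]⟩),⟨0,[(0,0)]⟩,.k,.k,
  (.x 0 ⟨1,[(0,1),(16,0),(2,0),(2,0)]⟩ ⟨3,[(15,0),(0,0),(13,3),(4,1)]⟩),.k,(.r (-1) ⟨0,[(5,0),(28,
  0)]⟩ ⟨7,[(1,3),(2,3),(1,3),(5,5),(4,3),(5,4),(0,4)]⟩),.k,⟨false,1,⟨0,[(5,0)]⟩,⟨3,[(1,1),(2,1),(7,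
  1),(4,1),(5,0),(0,0)]⟩⟩,⟨true,0,⟨0,[(11,0),(6,0)]⟩,⟨1,[(17,0),(2,0),(3,0)]⟩⟩,⟨true,0,⟨0,[]⟩,⟨0,
  [(38,0)]⟩⟩,⟨false,0,⟨3,[(1,0),(0,2),(9,1),(1,0),(8,1)]⟩,⟨1,[(16,0),(0,0),(1,0),(2,0),(13,0)]⟩⟩,
  ⟨false,1,⟨15,[(6,7),(5,3),(2,2),(0,2),(18,1),(0,7)]⟩,⟨0,[(34,0)]⟩⟩,⟨false,0,⟨7,[(1,2),(0,4),(3,3),
  (5,5),(1,2),(8,1)]⟩,⟨1,[(16,0),(0,0),(1,0),(2,0),(11,1),(1,0)]⟩⟩,[.o ⟨false,0,⟨1,[(11,0),(0,0),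
  (10,0)]⟩,⟨1,[(22,1),(5,0),(7,0)]⟩⟩,.o ⟨false,1,⟨0,[(21,0),(14,0)]⟩,⟨0,[(19,0)]⟩⟩,.a ⟨true,0,⟨1,
  [(17,0),(8,0),(0,0)]⟩,⟨0,[(18,0)]⟩⟩ ⟨false,1,⟨1,[(16,0),(19,0)]⟩,⟨1,[(1,0),(2,0),(12,0)]⟩⟩ ⟨true,
  0,⟨6,[(1,0),(1,0),(3,0),(4,2),(1,1),(3,5),(2,0),(1,1)]⟩,⟨1,[(17,0),(1,0),(2,0)]⟩⟩,.o ⟨false,0,⟨1,
  [(17,0),(2,0),(2,0)]⟩,⟨1,[(18,1),(9,0),(6,0)]⟩⟩]⟩)))) (.Q [0,0,0,0,0,1,0,0,0,0,0,-1] (.p false [0,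
  0,0,1] [] (⟨0,[(15,0)]⟩,⟨1,[(14,0),(8,0),(0,0)]⟩) .k 0 (⟨0,[]⟩,⟨0,[]⟩) .k .k) (.R ⟨0,false,false,
  false,[0,0,0,1],[0,0,1],[1,0,0,0,0,0,0,0,1],(⟨0,[(16,0)]⟩,⟨1,[(15,0),(8,0),(0,0)]⟩),(⟨0,[(25,0)]⟩,
  ⟨0,[(24,0)]⟩),⟨0,[(0,0)]⟩,.k,.k,(.r (-1) ⟨0,[(1,0),(12,0)]⟩ ⟨10,[(1,4),(0,5),(1,7),(5,3),(4,2),(2,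
  2),(2,2),(8,5)]⟩),.k,.k,.k,⟨false,1,⟨0,[(3,0)]⟩,⟨21,[(1,11),(0,9),(1,5),(5,13),(4,4),(2,4),(2,4),
  (8,9)]⟩⟩,⟨true,0,⟨0,[(9,0),(6,0)]⟩,⟨1,[(15,0),(2,0),(3,0)]⟩⟩,⟨true,0,⟨0,[]⟩,⟨0,[(36,0)]⟩⟩,⟨false,
  0,⟨6,[(1,5),(0,0),(1,2),(4,6),(0,4),(5,5),(13,7)]⟩,⟨1,[(14,0),(0,0),(1,0),(2,0),(13,0)]⟩⟩,⟨false,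
  0,⟨0,[]⟩,⟨0,[]⟩⟩,⟨false,0,⟨0,[]⟩,⟨0,[]⟩⟩,[.o ⟨false,0,⟨1,[(9,0),(0,0),(10,0)]⟩,⟨1,[(20,1),(5,0),
  (7,0)]⟩⟩,.o ⟨false,1,⟨0,[(19,0),(14,0)]⟩,⟨0,[(17,0)]⟩⟩,.a ⟨true,0,⟨1,[(15,0),(8,0),(0,0)]⟩,⟨0,
  [(16,0)]⟩⟩ ⟨false,1,⟨1,[(14,0),(19,0)]⟩,⟨21,[(1,15),(0,5),(1,7),(5,3),(4,2),(2,2),(2,2),(8,5)]⟩⟩
  ⟨true,0,⟨1,[(9,0),(0,0),(5,1),(4,0)]⟩,⟨1,[(15,0),(1,0),(2,0)]⟩⟩,.o ⟨false,0,⟨1,[(15,0),(2,0),(2,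
  0)]⟩,⟨1,[(16,1),(9,0),(6,0)]⟩⟩]⟩) (.R ⟨1,false,false,false,[0,0,0,1],[0,0,1],[0,0,0,-1,0,0,0,0,1],
  (⟨0,[(16,0)]⟩,⟨1,[(15,0),(8,0),(0,0)]⟩),(⟨0,[(25,0)]⟩,⟨0,[(24,0)]⟩),⟨0,[(0,0)]⟩,.k,.k,(.r (-1) ⟨0,
  [(1,0),(12,0)]⟩ ⟨10,[(1,4),(0,5),(1,7),(5,3),(4,2),(2,2),(2,2),(8,5)]⟩),.k,(.r (-1) ⟨0,[(3,0),(28,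
  0)]⟩ ⟨10,[(1,2),(0,7),(1,6),(5,8),(4,3),(2,3),(2,3),(8,7)]⟩),.k,⟨false,1,⟨0,[(3,0),(28,0)]⟩,⟨10,
  [(1,6),(0,3),(1,8),(5,9),(4,1),(2,1),(2,1),(8,3)]⟩⟩,⟨true,0,⟨0,[(9,0),(6,0)]⟩,⟨1,[(15,0),(2,0),(3,
  0)]⟩⟩,⟨true,0,⟨0,[(32,0)]⟩,⟨0,[(31,0)]⟩⟩,⟨false,0,⟨6,[(1,5),(0,0),(1,2),(4,6),(0,4),(5,5),(13,
  7)]⟩,⟨1,[(14,0),(0,0),(1,0),(2,0),(13,0)]⟩⟩,⟨false,1,⟨3,[(13,0),(0,0),(19,1)]⟩,⟨0,[]⟩⟩,⟨false,0,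
  ⟨0,[(1,0),(2,0),(4,0),(0,0),(5,0),(13,0)]⟩,⟨1,[(14,0),(0,0),(1,0),(2,0),(11,1),(1,0)]⟩⟩,[.o
  ⟨false,0,⟨1,[(9,0),(0,0),(10,0)]⟩,⟨1,[(20,1),(5,0),(7,0)]⟩⟩,.o ⟨false,1,⟨0,[(19,0),(14,0)]⟩,⟨0,
  [(17,0)]⟩⟩,.a ⟨true,0,⟨1,[(15,0),(8,0),(0,0)]⟩,⟨0,[(16,0)]⟩⟩ ⟨false,1,⟨1,[(14,0),(17,1),(1,0)]⟩,
  ⟨10,[(1,8),(0,1),(1,9),(5,4),(4,0),(2,0),(2,0),(8,1)]⟩⟩ ⟨true,0,⟨1,[(9,0),(0,0),(5,1),(4,0)]⟩,⟨1,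
  [(15,0),(1,0),(2,0)]⟩⟩,.o ⟨false,0,⟨1,[(15,0),(2,0),(2,0)]⟩,⟨1,[(16,1),(9,0),(6,0)]⟩⟩]⟩))) (.Q [0,
  0,0,0,0,-1,0,0,0,1,0,-1] (.p false [0,0,0,1] [1] (⟨0,[(14,0)]⟩,⟨1,[(13,0),(8,0),(0,0)]⟩) .k 1 (⟨0,
  []⟩,⟨0,[]⟩) .k .k) (.R ⟨1,false,false,false,[1,0,0,-1],[0,0,1],[1,1,0,0,0,0,0,0,-1],(⟨1,[(14,0),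
  (8,0),(0,0)]⟩,⟨0,[(15,0)]⟩),(⟨0,[(24,0)]⟩,⟨0,[(23,0)]⟩),⟨0,[(0,0)]⟩,.k,.k,(.r (-1) ⟨1,[(12,0),(18,
  1),(0,0)]⟩ ⟨1,[(1,1),(13,1),(4,0),(0,0),(8,1)]⟩),.k,(.x 0 ⟨2,[(3,0),(0,2),(0,0),(3,0),(7,1),(5,2),
  (2,2),(2,0)]⟩ ⟨3,[(10,1),(0,1),(0,0),(0,0),(10,1),(2,1),(4,1)]⟩),.k,⟨false,1,⟨1,[(11,0),(0,0),(3,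
  0),(2,0),(12,0)]⟩,⟨3,[(1,3),(7,1),(5,3),(4,0),(0,0)]⟩⟩,⟨true,0,⟨1,[(11,0),(2,0)]⟩,⟨0,[(15,0),(1,
  0)]⟩⟩,⟨false,0,⟨0,[]⟩,⟨3,[(12,0),(0,0),(19,1)]⟩⟩,⟨false,0,⟨3,[(1,3),(7,1),(1,2),(9,1),(1,0),(0,
  0)]⟩,⟨1,[(12,0),(2,1),(0,1),(16,0)]⟩⟩,⟨true,0,⟨0,[(30,0)]⟩,⟨0,[(31,0)]⟩⟩,⟨false,0,⟨7,[(1,7),(1,3),
  (5,5),(1,4),(9,1),(1,2),(0,2)]⟩,⟨1,[(12,0),(2,1),(0,1),(14,1),(1,0)]⟩⟩,[.o ⟨false,0,⟨1,[(8,0),(0,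
  0),(10,0)]⟩,⟨1,[(19,1),(5,0),(7,0)]⟩⟩,.o ⟨false,1,⟨0,[(18,0),(14,0)]⟩,⟨0,[(16,0)]⟩⟩,.a ⟨true,0,⟨0,
  [(15,0)]⟩,⟨1,[(14,0),(8,0),(0,0)]⟩⟩ ⟨false,1,⟨3,[(12,2),(0,0)]⟩,⟨0,[(1,0),(13,0)]⟩⟩ ⟨true,0,⟨3,
  [(9,1),(1,1),(2,1),(5,0),(0,0)]⟩,⟨0,[(15,0),(0,0)]⟩⟩,.o ⟨false,0,⟨6,[(3,1),(0,3),(4,0),(5,6),(1,
  2),(2,2)]⟩,⟨7,[(12,0),(0,0),(0,3),(10,1),(6,3)]⟩⟩]⟩) (.R ⟨0,false,false,false,[1,0,0,-1],[0,0,1],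
  [0,1,0,0,0,0,0,0,-1],(⟨1,[(14,0),(8,0),(0,0)]⟩,⟨0,[(15,0)]⟩),(⟨0,[(24,0)]⟩,⟨0,[(23,0)]⟩),⟨0,[(0,
  0)]⟩,.k,.k,(.r (-1) ⟨1,[(12,0),(18,1),(0,0)]⟩ ⟨1,[(1,1),(13,1),(4,0),(0,0),(8,1)]⟩),.k,.k,.k,
  ⟨false,1,⟨1,[(11,0),(0,0),(3,0),(2,0),(12,0)]⟩,⟨3,[(1,3),(7,1),(5,3),(4,0),(0,0)]⟩⟩,⟨true,0,⟨1,
  [(11,0),(2,0)]⟩,⟨0,[(15,0),(1,0)]⟩⟩,⟨true,0,⟨0,[(35,0)]⟩,⟨0,[]⟩⟩,⟨false,0,⟨3,[(1,3),(7,1),(1,2),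
  (9,1),(1,0),(0,0)]⟩,⟨1,[(12,0),(2,1),(0,1),(16,0)]⟩⟩,⟨false,0,⟨0,[]⟩,⟨0,[]⟩⟩,⟨false,0,⟨0,[]⟩,⟨0,
  []⟩⟩,[.o ⟨false,0,⟨1,[(8,0),(0,0),(10,0)]⟩,⟨1,[(19,1),(5,0),(7,0)]⟩⟩,.o ⟨false,1,⟨0,[(18,0),(14,
  0)]⟩,⟨0,[(16,0)]⟩⟩,.a ⟨true,0,⟨0,[(15,0)]⟩,⟨1,[(14,0),(8,0),(0,0)]⟩⟩ ⟨false,1,⟨3,[(12,2),(0,0)]⟩,
  ⟨0,[(1,0),(13,0)]⟩⟩ ⟨true,0,⟨3,[(9,1),(1,1),(2,1),(5,0),(0,0)]⟩,⟨0,[(15,0),(0,0)]⟩⟩,.o ⟨false,0,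
  ⟨6,[(3,1),(0,3),(4,0),(5,6),(1,2),(2,2)]⟩,⟨7,[(12,0),(0,0),(0,3),(10,1),(6,3)]⟩⟩]⟩))))))))))

theorem ok0 : chk (cU (-1) false 10) t0 l1 = true := by decide +kernel

noncomputable def l2 : List Con := (false, [0,0,0,1,0,0,1,1,0,1,-1]) :: r1

noncomputable def r2 : List Con := (false, [0,0,0,-1,0,0,-1,-1,0,-1,1]) :: r1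

noncomputable def l3 : List Con := (true, [0,1,-1,-1]) :: l2

noncomputable def r3 : List Con := (true, [1,-1,1,1]) :: l2

noncomputable def t1 : Tre :=
  (.Q [0,0,0,0,0,1,0,0,0,0,-1] (.ed true [1,-1,1] .k) (.Q [0,-1,0,1,0,0,1,1,0,2,-1] (.p false [-1,1,
  1] [1] (⟨0,[(4,0)]⟩,⟨0,[(17,0),(2,0)]⟩) .k 1 (⟨0,[]⟩,⟨0,[]⟩) .k .k) (.I [0,0,-2,-1,1,0,0,-1] (.K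
  ⟨1,[-1,1,1],0,0,(⟨0,[(6,0)]⟩,⟨0,[(19,0),(2,0)]⟩),.k,.k,(.r 0 ⟨0,[(4,0),(8,0),(11,0),(0,0)]⟩ ⟨0,
  [(0,0),(26,0)]⟩),.k,.k,[⟨1,[(13,1),(2,0),(0,0)]⟩,⟨3,[(1,0),(5,1),(7,0),(11,0)]⟩,⟨0,[(12,0),(14,
  0)]⟩,⟨0,[(1,0)]⟩]⟩) (.Q [0,0,0,1,0,0,-1,0,0,0,1] (.p true [0,0,1] [] (⟨0,[(20,0)]⟩,⟨0,[(19,0)]⟩)
  .k 0 (⟨0,[]⟩,⟨0,[]⟩) .k .k) (.R ⟨0,false,false,true,[1,0,-1],[0,1],[],(⟨0,[(20,0)]⟩,⟨0,[(21,0)]⟩),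
  (⟨0,[(24,0)]⟩,⟨0,[(23,0)]⟩),⟨0,[(7,0)]⟩,.k,.k,.k,.k,.k,.k,⟨true,1,⟨1,[(28,1),(0,0),(0,0)]⟩,⟨1,[(1,
  1),(4,0),(18,0)]⟩⟩,⟨false,1,⟨23,[(2,7),(1,7),(1,3),(1,7),(0,0),(0,0),(18,21)]⟩,⟨0,[(14,0)]⟩⟩,
  ⟨true,0,⟨0,[(19,0)]⟩,⟨1,[(6,0),(18,0)]⟩⟩,⟨false,0,⟨0,[(5,0)]⟩,⟨0,[(13,0),(14,0),(1,0)]⟩⟩,⟨false,0,
  ⟨0,[]⟩,⟨0,[]⟩⟩,⟨false,0,⟨0,[]⟩,⟨0,[]⟩⟩,[.o ⟨false,0,⟨0,[(27,0)]⟩,⟨1,[(22,0),(5,1),(1,0)]⟩⟩,.a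
  ⟨true,0,⟨3,[(0,1),(1,1),(3,0),(18,0)]⟩,⟨0,[(28,0)]⟩⟩ ⟨false,1,⟨1,[(29,0),(0,0)]⟩,⟨0,[(32,0)]⟩⟩
  ⟨true,0,⟨0,[(0,0),(7,0)]⟩,⟨0,[(14,0),(13,0)]⟩⟩,.e ⟨false,1,⟨3,[(9,0),(0,0),(19,1)]⟩,⟨0,[]⟩⟩
  ⟨false,0,⟨0,[(0,0),(7,0)]⟩,⟨1,[(14,1),(13,1),(0,0),(0,0)]⟩⟩,.o ⟨false,0,⟨0,[(14,0)]⟩,⟨7,[(8,3),(0,
  0),(0,0),(11,1),(6,3)]⟩⟩]⟩) (.R ⟨0,false,false,true,[1,-1],[2,-1,-1],[0,1,0,-1,0,0,0,-1],(⟨0,[(23,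
  0)]⟩,⟨0,[(24,0)]⟩),(⟨0,[(20,0),(2,0)]⟩,⟨0,[(7,0)]⟩),⟨0,[(3,0),(3,0)]⟩,.k,.k,(.r (-1) ⟨0,[(28,1),
  (0,0)]⟩ ⟨9,[(1,7),(4,3),(2,0),(0,0),(16,11),(2,5)]⟩),.k,.k,.k,⟨true,0,⟨1,[(17,0),(0,0)]⟩,⟨0,[]⟩⟩,
  ⟨false,1,⟨0,[(14,0),(14,0)]⟩,⟨3,[(2,0),(5,1),(7,0),(11,0)]⟩⟩,⟨false,0,⟨3,[(6,1),(10,0),(0,0)]⟩,⟨1,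
  [(19,1),(9,0),(0,0)]⟩⟩,⟨true,0,⟨0,[(13,0)]⟩,⟨1,[(2,0),(12,0),(12,0)]⟩⟩,⟨false,0,⟨0,[]⟩,⟨0,[]⟩⟩,
  ⟨false,0,⟨0,[]⟩,⟨0,[]⟩⟩,[.a ⟨true,0,⟨0,[(13,0),(14,0)]⟩,⟨0,[(2,0)]⟩⟩ ⟨true,0,⟨0,[(0,0),(15,0)]⟩,
  ⟨1,[(1,1),(27,0),(0,0)]⟩⟩ ⟨false,1,⟨0,[(13,0),(14,0),(0,0)]⟩,⟨5,[(1,1),(0,3),(14,1),(4,0),(7,
  0)]⟩⟩,.o ⟨false,1,⟨1,[(13,1),(8,0),(5,1),(1,0)]⟩,⟨0,[(5,0)]⟩⟩,.o ⟨false,0,⟨2,[(0,0),(0,0),(11,0),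
  (8,0),(3,0)]⟩,⟨3,[(9,0),(0,0),(18,1)]⟩⟩,.o ⟨false,0,⟨0,[(14,0),(2,0)]⟩,⟨0,[(29,0)]⟩⟩]⟩))) (.Q [0,
  0,-1,0,0,0,2,0,0,2,-2] (.p false [0,0,1] [2,-1,-1] (⟨0,[(19,0)]⟩,⟨0,[(18,0)]⟩) .k 2 (⟨0,[(18,0),
  (2,0)]⟩,⟨0,[(5,0)]⟩) .k (.r 0 ⟨0,[(17,1)]⟩ ⟨3,[(4,3),(2,0),(0,0),(18,1)]⟩)) (.I [0,0,-2,-2,1,0,0,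
  -1] (.K ⟨2,[2,-1,-1],0,0,(⟨0,[(20,0),(2,0)]⟩,⟨0,[(7,0)]⟩),.k,(.r (-1) ⟨0,[(0,0)]⟩ ⟨0,[(5,0),(8,0),
  (11,0),(0,0)]⟩),.k,(.r (-1) ⟨15,[(0,7),(5,11),(2,0),(0,0),(18,5)]⟩ ⟨0,[(5,0),(8,0),(4,0)]⟩),.k,
  [⟨0,[(1,0)]⟩,⟨0,[(2,0),(2,0),(20,0)]⟩,⟨0,[(1,0),(16,0)]⟩,⟨0,[(2,0),(2,0),(8,0),(11,0)]⟩,⟨1,[(1,0),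
  (3,1),(12,1),(6,0)]⟩,⟨0,[(2,0)]⟩]⟩) (.K ⟨2,[2,-1,-1],0,0,(⟨0,[(20,0),(2,0)]⟩,⟨0,[(7,0)]⟩),.k,(.x
  0 ⟨1,[(0,0),(1,1),(16,0),(0,1),(1,0),(0,3),(2,1)]⟩ ⟨7,[(1,3),(5,7),(1,0),(0,0),(13,7),(4,5)]⟩),.k,
  (.r (-1) ⟨0,[(6,0),(21,0),(0,0)]⟩ ⟨3,[(0,1),(8,0),(0,0),(8,5)]⟩),.k,[⟨0,[(1,0)]⟩,⟨3,[(0,0),(1,0),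
  (14,0),(4,0),(3,0),(1,0)]⟩,⟨0,[(1,0),(16,0)]⟩,⟨3,[(0,0),(1,0),(11,3),(2,0),(4,0),(3,0),(1,0)]⟩,⟨1,
  [(1,0),(3,1),(12,1),(6,0)]⟩,⟨0,[(2,0)]⟩]⟩)) (.Q [0,0,0,0,0,0,-1,0,0,0,1] (.p true [0,0,1] [] (⟨0,
  [(20,0)]⟩,⟨0,[(19,0)]⟩) .k 0 (⟨0,[]⟩,⟨0,[]⟩) .k .k) (.Q [0,0,0,1,0,0,0,0,0,1] (.pp false [-1,1])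
  (.R ⟨0,false,false,false,[0,0,1],[-1,1,1],[1,1,0,0,0,0,0,1],(⟨0,[(22,0)]⟩,⟨0,[(21,0)]⟩),(⟨0,[(8,
  0)]⟩,⟨0,[(21,0),(2,0)]⟩),⟨0,[(4,0)]⟩,.k,.k,.k,.k,.k,.k,⟨true,0,⟨0,[(5,0)]⟩,⟨0,[(27,1),(0,0)]⟩⟩,
  ⟨false,1,⟨0,[(21,0),(0,0),(7,0)]⟩,⟨0,[(2,0),(6,0)]⟩⟩,⟨false,0,⟨0,[]⟩,⟨3,[(10,0),(0,0),(19,1)]⟩⟩,
  ⟨true,0,⟨0,[(0,0)]⟩,⟨1,[(3,0),(12,0),(12,0)]⟩⟩,⟨false,0,⟨0,[]⟩,⟨0,[]⟩⟩,⟨false,0,⟨0,[]⟩,⟨0,[]⟩⟩,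
  [.o ⟨false,0,⟨0,[(6,0)]⟩,⟨3,[(3,3),(6,0),(0,0),(19,1)]⟩⟩,.o ⟨false,1,⟨3,[(6,3),(3,0),(0,0),(19,
  1)]⟩,⟨0,[(3,0)]⟩⟩,.a ⟨true,0,⟨1,[(9,0),(11,0),(0,0)]⟩,⟨0,[(1,0)]⟩⟩ ⟨false,0,⟨0,[(20,0)]⟩,⟨7,[(7,
  3),(2,0),(0,0),(18,1),(0,3)]⟩⟩ ⟨true,0,⟨0,[(1,0),(4,0)]⟩,⟨4,[(3,2),(1,1),(1,0),(1,0),(8,0)]⟩⟩,.o
  ⟨false,0,⟨0,[(18,0)]⟩,⟨7,[(2,3),(7,0),(0,0),(18,5)]⟩⟩]⟩) (.R ⟨0,false,false,false,[0,0,1],[1,-1],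
  [1,1],(⟨0,[(22,0)]⟩,⟨0,[(21,0)]⟩),(⟨0,[(24,0)]⟩,⟨0,[(25,0)]⟩),⟨0,[(4,0)]⟩,.k,.k,.k,.k,.k,.k,
  ⟨false,0,⟨0,[(28,0)]⟩,⟨1,[(29,1),(0,0),(0,0)]⟩⟩,⟨true,0,⟨0,[(15,0)]⟩,⟨1,[(9,0),(11,0),(0,0)]⟩⟩,
  ⟨true,0,⟨1,[(7,0),(18,0)]⟩,⟨0,[(20,0)]⟩⟩,⟨false,1,⟨1,[(3,0),(13,0),(11,0),(1,1)]⟩,⟨0,[(6,0)]⟩⟩,
  ⟨false,0,⟨0,[]⟩,⟨0,[]⟩⟩,⟨false,0,⟨0,[]⟩,⟨0,[]⟩⟩,[.o ⟨false,0,⟨0,[(0,0)]⟩,⟨3,[(10,0),(0,0),(16,3),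
  (2,1)]⟩⟩,.o ⟨false,1,⟨1,[(23,0),(5,1),(1,0)]⟩,⟨0,[(28,0)]⟩⟩,.a ⟨true,0,⟨1,[(9,0),(11,0),(0,0)]⟩,
  ⟨0,[(1,0)]⟩⟩ ⟨false,0,⟨0,[]⟩,⟨3,[(10,0),(0,0),(19,1)]⟩⟩ ⟨true,0,⟨0,[(0,0),(0,0)]⟩,⟨1,[(6,0),(2,0),
  (7,0),(10,0)]⟩⟩,.o ⟨false,0,⟨0,[(18,0)]⟩,⟨7,[(2,3),(7,0),(0,0),(18,5)]⟩⟩]⟩)) (.Q [0,-1,0,-1,0,0,1,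
  1,0,0,-1] (.p false [0,0,1] [] (⟨0,[(21,0)]⟩,⟨0,[(20,0)]⟩) .k 0 (⟨0,[]⟩,⟨0,[]⟩) .k .k) (.R ⟨2,
  true,false,false,[0,1],[0,0,1],[0,1],(⟨0,[]⟩,⟨0,[]⟩),(⟨0,[(22,0)]⟩,⟨0,[(21,0)]⟩),⟨0,[]⟩,.k,.k,.k,
  .k,.k,.k,⟨true,0,⟨1,[(7,0),(18,0)]⟩,⟨0,[(20,0),(6,0)]⟩⟩,⟨false,0,⟨0,[(1,0)]⟩,⟨0,[(19,0),(10,0)]⟩⟩,
  ⟨true,0,⟨0,[(5,0)]⟩,⟨0,[(27,0),(0,0)]⟩⟩,⟨false,0,⟨0,[(0,0)]⟩,⟨0,[(17,0),(10,0),(2,0)]⟩⟩,⟨false,1,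
  ⟨3,[(10,0),(0,0),(18,1)]⟩,⟨0,[(27,0)]⟩⟩,⟨true,0,⟨1,[(0,0),(2,0),(2,1)]⟩,⟨0,[(17,0)]⟩⟩,[]⟩) (.Q [0,
  0,0,0,0,0,-1,0,0,1,1] (.p true [1,-1,1] [] (⟨0,[(22,0),(1,0)]⟩,⟨0,[(4,0)]⟩) .k 0 (⟨0,[]⟩,⟨0,[]⟩)
  .k .k) (.K ⟨0,[1,-1,1],0,0,(⟨0,[(23,0),(1,0)]⟩,⟨0,[(5,0)]⟩),.k,(.r (-1) ⟨0,[(21,0),(8,1),(0,0)]⟩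
  ⟨0,[(1,0),(0,0),(25,1),(0,0)]⟩),.k,.k,.k,[⟨0,[(0,0)]⟩,⟨0,[(2,0)]⟩,⟨2,[(0,1),(0,2),(8,0)]⟩,⟨1,[(2,
  1),(1,0),(12,0),(3,1),(8,0)]⟩]⟩) (.I [0,0,1,1,0,0,0,0,-1] (.Q [0,1,0,0,0,0,0,0,1,0,0,-1] (.p
  false [0,0,0,1] [] (⟨0,[(15,0)]⟩,⟨1,[(14,0),(8,0),(0,0)]⟩) .k 0 (⟨0,[]⟩,⟨0,[]⟩) .k .k) (.K ⟨2,[0,
  0,0,1],0,0,(⟨0,[(16,0)]⟩,⟨1,[(15,0),(8,0),(0,0)]⟩),.k,(.r (-1) ⟨1,[(14,0),(17,1),(0,0)]⟩ ⟨0,[(1,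
  0)]⟩),(.x (-1) ⟨3,[(13,0),(0,0),(13,3),(4,1)]⟩ ⟨4,[(2,0),(2,1),(15,2),(5,4)]⟩),.k,.k,[⟨2,[(2,0),
  (9,0),(3,2)]⟩,⟨1,[(12,0),(2,0)]⟩,⟨1,[(16,1),(4,0),(0,0)]⟩,⟨7,[(5,1),(9,3),(5,4),(0,0)]⟩,⟨0,[(1,0),
  (6,0),(7,0)]⟩,⟨0,[(0,0)]⟩]⟩) (.I [1,-1,0,0,0,0,0,0,-1] (.R ⟨0,false,false,false,[0,0,0,1],[0,0,1],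
  [0,1,0,0,0,0,0,0,1],(⟨0,[(17,0)]⟩,⟨1,[(16,0),(8,0),(0,0)]⟩),(⟨0,[(26,0)]⟩,⟨0,[(25,0)]⟩),⟨1,[(8,0),
  (3,0),(3,0)]⟩,.k,.k,(.r (-1) ⟨1,[(15,0),(17,1),(0,0)]⟩ ⟨0,[(2,0)]⟩),.k,.k,.k,⟨false,1,⟨1,[(11,0),
  (3,0),(14,0),(3,0)]⟩,⟨0,[(0,0),(23,0)]⟩⟩,⟨true,0,⟨2,[(3,0),(9,0),(3,2)]⟩,⟨7,[(6,1),(9,3),(5,0),(0,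
  4)]⟩⟩,⟨true,0,⟨0,[(37,0)]⟩,⟨0,[]⟩⟩,⟨false,0,⟨2,[(1,2),(1,0),(9,0),(10,2)]⟩,⟨3,[(4,0),(2,0),(7,1),
  (0,1),(4,1),(13,1)]⟩⟩,⟨false,0,⟨0,[]⟩,⟨0,[]⟩⟩,⟨false,0,⟨0,[]⟩,⟨0,[]⟩⟩,[.o ⟨false,0,⟨2,[(3,0),(9,
  0),(10,2)]⟩,⟨1,[(21,1),(5,0),(7,0)]⟩⟩,.o ⟨false,1,⟨0,[(20,0),(14,0)]⟩,⟨0,[(18,0)]⟩⟩,.a ⟨true,0,⟨1,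
  [(16,0),(8,0),(0,0)]⟩,⟨0,[(17,0)]⟩⟩ ⟨false,1,⟨3,[(14,0),(0,2)]⟩,⟨0,[(0,0)]⟩⟩ ⟨true,0,⟨2,[(3,0),(9,
  0),(3,2),(6,2)]⟩,⟨3,[(4,0),(2,0),(8,1),(4,1)]⟩⟩,.o ⟨false,0,⟨7,[(6,1),(9,3),(5,4),(0,0)]⟩,⟨1,[(17,
  1),(9,0),(6,0)]⟩⟩]⟩) (.K ⟨1,[1,0,0,-1],0,0,(⟨1,[(16,0),(8,0),(0,0)]⟩,⟨0,[(17,0)]⟩),.k,(.x 0 ⟨4,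
  [(3,0),(2,1),(15,2),(5,4)]⟩ ⟨3,[(14,0),(0,0),(13,3),(4,1)]⟩),(.r 0 ⟨0,[(2,0)]⟩ ⟨1,[(15,0),(17,1),
  (0,0)]⟩),.k,.k,[⟨1,[(13,0),(2,0),(6,1)]⟩,⟨4,[(3,0),(2,1),(10,4),(4,2)]⟩,⟨1,[(0,1),(15,0),(8,0),(0,
  0)]⟩,⟨0,[(1,0)]⟩]⟩))) (.I [0,0,-1,-1,0,0,0,0,1] (.Q [0,-1,0,-1,0,0,0,0,1,0,0,-1] (.p false [0,0,0,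
  1] [] (⟨0,[(16,0)]⟩,⟨1,[(15,0),(8,0),(0,0)]⟩) .k 0 (⟨0,[]⟩,⟨0,[]⟩) .k .k) (.R ⟨0,false,false,
  false,[0,0,0,1],[0,0,1],[0,1,0,0,0,0,0,0,1],(⟨0,[(17,0)]⟩,⟨1,[(16,0),(8,0),(0,0)]⟩),(⟨0,[(26,0)]⟩,
  ⟨0,[(25,0)]⟩),⟨1,[(8,0),(3,0),(3,0)]⟩,.k,.k,(.r 0 ⟨0,[(1,0)]⟩ ⟨1,[(14,0),(7,0),(0,0),(8,1),(2,
  0)]⟩),.k,.k,.k,⟨false,0,⟨2,[(2,2),(0,0),(0,2),(8,0)]⟩,⟨1,[(14,0),(9,1),(10,0)]⟩⟩,⟨true,0,⟨2,[(3,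
  0),(9,0),(3,2)]⟩,⟨7,[(6,1),(9,3),(5,0),(0,4)]⟩⟩,⟨true,0,⟨0,[(37,0)]⟩,⟨0,[]⟩⟩,⟨false,1,⟨5,[(3,1),
  (9,1),(0,2),(2,5),(6,5),(10,2)]⟩,⟨0,[(0,0),(3,0)]⟩⟩,⟨false,0,⟨0,[]⟩,⟨0,[]⟩⟩,⟨false,0,⟨0,[]⟩,⟨0,
  []⟩⟩,[.o ⟨false,0,⟨2,[(3,0),(9,0),(10,2)]⟩,⟨1,[(21,1),(5,0),(7,0)]⟩⟩,.o ⟨false,1,⟨0,[(20,0),(14,
  0)]⟩,⟨0,[(18,0)]⟩⟩,.a ⟨true,0,⟨1,[(16,0),(8,0),(0,0)]⟩,⟨0,[(17,0)]⟩⟩ ⟨false,0,⟨0,[(0,0),(16,0),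
  (14,0)]⟩,⟨1,[(14,0),(20,0)]⟩⟩ ⟨true,0,⟨2,[(3,0),(9,0),(3,2),(6,2)]⟩,⟨3,[(4,0),(2,0),(8,1),(4,
  1)]⟩⟩,.o ⟨false,0,⟨7,[(6,1),(9,3),(5,4),(0,0)]⟩,⟨1,[(17,1),(9,0),(6,0)]⟩⟩]⟩) (.K ⟨2,[0,0,0,1],0,0,
  (⟨0,[(17,0)]⟩,⟨1,[(16,0),(8,0),(0,0)]⟩),.k,(.r 0 ⟨0,[(1,0)]⟩ ⟨1,[(14,0),(7,0),(0,0),(8,1),(2,
  0)]⟩),(.r 0 ⟨0,[(2,0),(28,1),(0,1)]⟩ ⟨0,[(2,0),(11,0)]⟩),.k,.k,[⟨2,[(3,0),(9,0),(3,2)]⟩,⟨1,[(13,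
  0),(2,0)]⟩,⟨1,[(17,1),(4,0),(0,0)]⟩,⟨7,[(6,1),(9,3),(5,4),(0,0)]⟩,⟨0,[(0,0),(32,0)]⟩,⟨7,[(2,7),(3,
  1),(9,3),(5,4),(0,0),(8,7)]⟩]⟩)) (.K ⟨2,[0,0,0,1],0,0,(⟨0,[(16,0)]⟩,⟨1,[(15,0),(8,0),(0,0)]⟩),.k,
  (.x 0 ⟨4,[(2,0),(2,1),(15,2),(5,4)]⟩ ⟨3,[(13,0),(0,0),(13,3),(4,1)]⟩),(.r 0 ⟨0,[(1,0),(28,1),(0,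
  1)]⟩ ⟨0,[(1,0),(11,0)]⟩),.k,.k,[⟨2,[(2,0),(9,0),(3,2)]⟩,⟨1,[(12,0),(2,0)]⟩,⟨1,[(16,1),(4,0),(0,
  0)]⟩,⟨7,[(5,1),(9,3),(5,4),(0,0)]⟩,⟨0,[(0,0),(7,0),(7,0)]⟩,⟨7,[(1,7),(3,1),(9,3),(5,4),(0,0),(8,
  7)]⟩]⟩)))))))) (.Q [0,-1,0,-1,0,0,1,1,0,1,-1] (.p false [0,0,1] [1] (⟨0,[(18,0)]⟩,⟨0,[(17,0)]⟩)
  .k 1 (⟨0,[]⟩,⟨0,[]⟩) .k .k) (.R ⟨2,true,false,true,[0,1],[1,1,-1],[1,1,1,1],(⟨0,[]⟩,⟨0,[]⟩),(⟨0,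
  [(18,0),(3,0)]⟩,⟨0,[(1,0)]⟩),⟨0,[]⟩,.k,.k,.k,.k,.k,.k,⟨true,0,⟨0,[(17,0)]⟩,⟨3,[(4,1),(10,0),(0,
  0)]⟩⟩,⟨false,1,⟨0,[(12,0),(14,0)]⟩,⟨1,[(6,0),(11,0),(0,0)]⟩⟩,⟨false,0,⟨0,[]⟩,⟨3,[(7,0),(0,0),(19,
  1)]⟩⟩,⟨true,0,⟨0,[(11,0)]⟩,⟨10,[(0,4),(2,4),(2,0),(6,0),(2,1),(6,1)]⟩⟩,⟨true,0,⟨0,[(25,0)]⟩,⟨0,
  [(26,0)]⟩⟩,⟨false,1,⟨0,[(11,0),(13,0),(2,0)]⟩,⟨0,[(0,0)]⟩⟩,[]⟩) (.Q [0,0,0,0,0,0,-1,0,0,0,1] (.p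
  true [0,0,1] [] (⟨0,[(19,0)]⟩,⟨0,[(18,0)]⟩) .k 0 (⟨0,[]⟩,⟨0,[]⟩) .k .k) (.K ⟨0,[0,-1,1],0,0,(⟨0,
  [(2,0)]⟩,⟨0,[(19,0),(3,0)]⟩),.k,(.r (-1) ⟨0,[(18,0),(8,1),(0,0)]⟩ ⟨3,[(1,3),(2,3),(0,1),(10,0),(0,
  0),(7,3)]⟩),.k,.k,.k,[⟨0,[(0,0)]⟩,⟨1,[(7,0),(11,0),(0,0)]⟩,⟨0,[(1,0),(17,0),(0,0)]⟩,⟨0,[(14,0),
  (12,0)]⟩]⟩) (.Q [0,0,0,1,0,0,0,0,0,1] (.pp false [-1,1]) (.R ⟨0,false,false,false,[1,0,-1],[0,1],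
  [1,0,1],(⟨0,[(20,0)]⟩,⟨0,[(21,0)]⟩),(⟨0,[(24,0)]⟩,⟨0,[(23,0)]⟩),⟨0,[(7,0)]⟩,.k,.k,.k,.k,.k,.k,
  ⟨true,0,⟨0,[(28,0)]⟩,⟨3,[(2,1),(2,1),(11,0),(0,0),(7,1)]⟩⟩,⟨false,1,⟨1,[(0,0),(7,0),(19,0),(0,
  1)]⟩,⟨0,[(14,0)]⟩⟩,⟨false,0,⟨0,[(19,0),(6,0)]⟩,⟨7,[(6,3),(2,0),(0,0),(18,5)]⟩⟩,⟨true,0,⟨0,[(5,
  0)]⟩,⟨0,[(13,0),(14,0)]⟩⟩,⟨false,0,⟨0,[]⟩,⟨0,[]⟩⟩,⟨false,0,⟨0,[]⟩,⟨0,[]⟩⟩,[.a ⟨true,0,⟨0,[(0,0)]⟩,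
  ⟨0,[(28,0)]⟩⟩ ⟨false,0,⟨0,[]⟩,⟨3,[(9,0),(0,0),(18,1)]⟩⟩ ⟨true,0,⟨0,[(0,0),(0,0)]⟩,⟨0,[(14,0),(13,
  0)]⟩⟩,.o ⟨false,1,⟨0,[(27,0),(2,0)]⟩,⟨0,[(1,0),(2,0),(9,0)]⟩⟩,.o ⟨false,1,⟨1,[(18,1),(3,0),(6,
  0)]⟩,⟨0,[(1,0)]⟩⟩,.o ⟨false,0,⟨0,[(14,0)]⟩,⟨7,[(8,3),(0,0),(0,0),(11,1),(6,3)]⟩⟩]⟩) (.I [0,0,1,1,
  0,0,0,0,-1] (.Q [0,1,0,0,0,0,0,0,1,1,0,-1] (.p false [0,0,0,1] [1] (⟨0,[(13,0)]⟩,⟨1,[(12,0),(8,0),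
  (0,0)]⟩) .k 1 (⟨0,[]⟩,⟨0,[]⟩) .k .k) (.Q [0,1,0,0,0,0,0,0,-1,-1,0,1] (.p true [0,0,0,1] [1] (⟨0,
  [(14,0)]⟩,⟨1,[(13,0),(8,0),(0,0)]⟩) .k 1 (⟨0,[]⟩,⟨0,[]⟩) .k .k) (.K ⟨2,[1,0,0,-1],0,0,(⟨1,[(14,0),
  (8,0),(0,0)]⟩,⟨0,[(15,0)]⟩),.k,(.x 0 ⟨0,[(4,0),(12,0),(8,0)]⟩ ⟨3,[(12,0),(0,0),(13,3),(4,1)]⟩),
  (.r 0 ⟨0,[(2,0)]⟩ ⟨1,[(13,0),(17,1),(0,0)]⟩),.k,.k,[⟨1,[(11,0),(2,0)]⟩,⟨0,[(4,0),(10,0)]⟩,⟨1,[(11,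
  0),(2,0),(6,1)]⟩,⟨0,[(4,0),(10,0),(1,0)]⟩,⟨0,[(1,0)]⟩,⟨0,[(0,0)]⟩]⟩) (.K ⟨1,[0,0,0,1],0,0,(⟨0,
  [(15,0)]⟩,⟨1,[(14,0),(8,0),(0,0)]⟩),.k,(.r (-1) ⟨1,[(13,0),(17,1),(0,0)]⟩ ⟨0,[(2,0)]⟩),(.x (-1)
  ⟨3,[(12,0),(0,0),(13,3),(4,1)]⟩ ⟨0,[(4,0),(12,0),(8,0)]⟩),.k,.k,[⟨1,[(15,1),(4,0),(0,0)]⟩,⟨1,[(14,
  0),(2,0),(2,0)]⟩,⟨0,[(2,0),(4,0),(7,0)]⟩,⟨0,[(0,0)]⟩]⟩)) (.Q [0,0,0,0,0,1,0,0,0,0,0,-1] (.p false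
  [0,0,0,1] [] (⟨0,[(14,0)]⟩,⟨1,[(13,0),(8,0),(0,0)]⟩) .k 0 (⟨0,[]⟩,⟨0,[]⟩) .k .k) (.R ⟨0,false,
  false,false,[0,0,0,1],[1,-1],[1,0,0,0,0,0,0,0,1],(⟨0,[(15,0)]⟩,⟨1,[(14,0),(8,0),(0,0)]⟩),(⟨0,[(26,
  0)]⟩,⟨0,[(27,0)]⟩),⟨0,[(0,0)]⟩,.k,.k,(.r (-1) ⟨1,[(13,0),(17,1),(0,0)]⟩ ⟨0,[(2,0)]⟩),(.r (-1) ⟨0,
  [(2,0),(10,0)]⟩ ⟨1,[(1,1),(5,1),(6,0),(8,0),(0,0)]⟩),.k,.k,⟨false,1,⟨1,[(13,0),(16,1),(2,0)]⟩,⟨1,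
  [(1,1),(5,1),(6,0),(8,0),(0,0)]⟩⟩,⟨true,0,⟨0,[(4,0),(10,0),(1,0)]⟩,⟨1,[(14,0),(8,0),(0,0)]⟩⟩,
  ⟨true,0,⟨0,[]⟩,⟨0,[(35,0)]⟩⟩,⟨false,0,⟨0,[(1,0),(29,0)]⟩,⟨1,[(8,0),(4,0),(0,0),(4,0),(10,0),(2,
  0)]⟩⟩,⟨false,0,⟨0,[]⟩,⟨0,[]⟩⟩,⟨false,0,⟨0,[]⟩,⟨0,[]⟩⟩,[.o ⟨false,0,⟨0,[(3,0)]⟩,⟨3,[(12,0),(0,0),
  (16,3),(2,1)]⟩⟩,.o ⟨false,1,⟨1,[(25,0),(5,1),(1,0)]⟩,⟨0,[(30,0)]⟩⟩,.a ⟨true,0,⟨1,[(14,0),(8,0),(0,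
  0)]⟩,⟨0,[(15,0)]⟩⟩ ⟨false,1,⟨1,[(13,0),(19,0)]⟩,⟨3,[(1,1),(0,1),(4,1),(6,0),(8,0),(0,0)]⟩⟩ ⟨true,
  0,⟨0,[(3,0),(11,0)]⟩,⟨1,[(8,0),(5,0),(4,0),(10,0)]⟩⟩,.o ⟨false,0,⟨1,[(14,0),(2,0),(2,0)]⟩,⟨1,[(15,
  1),(9,0),(6,0)]⟩⟩]⟩) (.R ⟨1,false,false,false,[0,0,0,1],[1,-1],[1,0,0,0,0,0,0,0,1],(⟨0,[(15,0)]⟩,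
  ⟨1,[(14,0),(8,0),(0,0)]⟩),(⟨0,[(26,0)]⟩,⟨0,[(27,0)]⟩),⟨0,[(0,0)]⟩,.k,.k,(.r (-1) ⟨1,[(13,0),(17,
  1),(0,0)]⟩ ⟨0,[(2,0)]⟩),(.r (-1) ⟨0,[(2,0),(10,0)]⟩ ⟨1,[(1,1),(5,1),(6,0),(8,0),(0,0)]⟩),.k,.k,
  ⟨false,1,⟨1,[(13,0),(16,1),(2,0)]⟩,⟨1,[(1,1),(5,1),(6,0),(8,0),(0,0)]⟩⟩,⟨true,0,⟨0,[(4,0),(10,0),
  (1,0)]⟩,⟨1,[(14,0),(8,0),(0,0)]⟩⟩,⟨true,0,⟨0,[]⟩,⟨0,[(35,0)]⟩⟩,⟨false,0,⟨0,[(1,0),(29,0)]⟩,⟨1,[(8,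
  0),(4,0),(0,0),(4,0),(10,0),(2,0)]⟩⟩,⟨false,1,⟨0,[(30,0),(2,0)]⟩,⟨0,[(31,0)]⟩⟩,⟨false,0,⟨0,[(1,
  0)]⟩,⟨3,[(12,0),(0,2),(0,1),(8,1),(0,1)]⟩⟩,[.o ⟨false,0,⟨0,[(3,0)]⟩,⟨3,[(12,0),(0,0),(16,3),(2,
  1)]⟩⟩,.o ⟨false,1,⟨1,[(25,0),(5,1),(1,0)]⟩,⟨0,[(30,0)]⟩⟩,.a ⟨true,0,⟨1,[(14,0),(8,0),(0,0)]⟩,⟨0,
  [(15,0)]⟩⟩ ⟨false,1,⟨1,[(13,0),(19,0)]⟩,⟨3,[(1,1),(0,1),(4,1),(6,0),(8,0),(0,0)]⟩⟩ ⟨true,0,⟨0,[(3,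
  0),(11,0)]⟩,⟨1,[(8,0),(5,0),(4,0),(10,0)]⟩⟩,.o ⟨false,0,⟨1,[(14,0),(2,0),(2,0)]⟩,⟨1,[(15,1),(9,0),
  (6,0)]⟩⟩]⟩))) (.Q [0,0,0,0,0,1,0,0,0,0,0,-1] (.p false [0,0,0,1] [] (⟨0,[(13,0)]⟩,⟨1,[(12,0),(8,
  0),(0,0)]⟩) .k 0 (⟨0,[]⟩,⟨0,[]⟩) .k .k) (.R ⟨0,false,false,false,[0,0,0,1],[1,-1],[1,0,0,-1,0,0,0,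
  0,1],(⟨0,[(14,0)]⟩,⟨1,[(13,0),(8,0),(0,0)]⟩),(⟨0,[(25,0)]⟩,⟨0,[(26,0)]⟩),⟨0,[(0,0)]⟩,.k,.k,(.x 0
  ⟨0,[(3,0),(12,0),(8,0)]⟩ ⟨3,[(11,0),(0,0),(13,3),(4,1)]⟩),(.r 0 ⟨1,[(1,1),(2,1),(2,1),(11,0),(0,
  0),(7,1)]⟩ ⟨1,[(11,0),(18,1),(0,0)]⟩),.k,.k,⟨false,0,⟨3,[(1,3),(2,1),(2,1),(11,0),(0,0),(7,1)]⟩,
  ⟨1,[(11,0),(19,0)]⟩⟩,⟨true,0,⟨0,[(3,0),(10,0),(1,0)]⟩,⟨1,[(13,0),(8,0),(0,0)]⟩⟩,⟨true,0,⟨0,[(30,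
  0)]⟩,⟨0,[(29,0)]⟩⟩,⟨false,1,⟨1,[(2,1),(8,0),(2,1),(17,0)]⟩,⟨1,[(1,1),(2,1),(2,1),(5,0),(8,0),(0,
  0),(4,1)]⟩⟩,⟨false,0,⟨0,[]⟩,⟨0,[]⟩⟩,⟨false,0,⟨0,[]⟩,⟨0,[]⟩⟩,[.o ⟨false,0,⟨0,[(2,0)]⟩,⟨3,[(11,0),
  (0,0),(16,3),(2,1)]⟩⟩,.o ⟨false,1,⟨1,[(24,0),(5,1),(1,0)]⟩,⟨0,[(29,0)]⟩⟩,.a ⟨true,0,⟨1,[(13,0),(8,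
  0),(0,0)]⟩,⟨0,[(14,0)]⟩⟩ ⟨false,0,⟨0,[(1,0),(26,0)]⟩,⟨1,[(11,0),(17,1),(2,0)]⟩⟩ ⟨true,0,⟨0,[(2,0),
  (11,0)]⟩,⟨1,[(7,0),(5,0),(4,0),(10,0)]⟩⟩,.o ⟨false,0,⟨1,[(13,0),(2,0),(2,0)]⟩,⟨1,[(14,1),(9,0),(6,
  0)]⟩⟩]⟩) (.Q [0,1,0,0,0,0,0,0,-1,0,0,1] (.p true [0,0,0,1] [] (⟨0,[(14,0)]⟩,⟨1,[(13,0),(8,0),(0,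
  0)]⟩) .k 0 (⟨0,[]⟩,⟨0,[]⟩) .k .k) (.K ⟨2,[0,0,0,1],0,0,(⟨0,[(15,0)]⟩,⟨1,[(14,0),(8,0),(0,0)]⟩),.k,
  (.x 0 ⟨1,[(1,1),(12,0),(2,0),(2,0)]⟩ ⟨3,[(12,0),(0,0),(13,3),(4,1)]⟩),(.r 0 ⟨1,[(2,1),(2,1),(2,1),
  (11,0),(0,0),(7,1)]⟩ ⟨1,[(12,0),(18,1),(0,0)]⟩),.k,.k,[⟨0,[(4,0),(10,0)]⟩,⟨1,[(11,0),(2,0)]⟩,⟨1,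
  [(15,1),(4,0),(0,0)]⟩,⟨1,[(14,0),(2,0),(2,0)]⟩,⟨0,[(0,0)]⟩,⟨1,[(2,1),(11,0),(2,0),(2,0),(9,
  1)]⟩]⟩) (.R ⟨1,false,false,false,[1,0,0,-1],[1,-1],[1,0,0,0,0,0,0,0,-1],(⟨1,[(14,0),(8,0),(0,0)]⟩,
  ⟨0,[(15,0)]⟩),(⟨0,[(26,0)]⟩,⟨0,[(27,0)]⟩),⟨0,[(1,0),(12,0)]⟩,.k,.k,(.r (-1) ⟨1,[(12,0),(18,1),(0,
  0)]⟩ ⟨1,[(0,1),(14,1),(4,0),(0,0),(8,1)]⟩),(.r (-1) ⟨1,[(12,0),(7,0),(0,0),(8,1),(2,0)]⟩ ⟨0,[(0,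
  0),(0,0),(5,0),(19,0)]⟩),.k,.k,⟨false,1,⟨1,[(12,0),(17,1),(2,0)]⟩,⟨0,[(0,0),(0,0),(5,0),(19,0)]⟩⟩,
  ⟨true,0,⟨1,[(14,0),(2,0),(2,0)]⟩,⟨0,[(15,0)]⟩⟩,⟨true,0,⟨0,[]⟩,⟨0,[(35,0)]⟩⟩,⟨false,0,⟨0,[(0,0),
  (30,0)]⟩,⟨1,[(12,0),(2,1),(14,1),(2,0)]⟩⟩,⟨false,1,⟨0,[(30,0),(2,0)]⟩,⟨0,[(31,0)]⟩⟩,⟨false,0,⟨0,
  [(0,0)]⟩,⟨3,[(12,2),(0,0),(1,3)]⟩⟩,[.o ⟨false,0,⟨0,[(3,0)]⟩,⟨3,[(12,0),(0,0),(16,3),(2,1)]⟩⟩,.o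
  ⟨false,1,⟨1,[(25,0),(5,1),(1,0)]⟩,⟨0,[(30,0)]⟩⟩,.a ⟨true,0,⟨0,[(15,0)]⟩,⟨1,[(14,0),(8,0),(0,0)]⟩⟩
  ⟨false,1,⟨1,[(12,0),(20,0)]⟩,⟨3,[(0,1),(1,1),(12,1),(4,0),(0,0),(8,1)]⟩⟩ ⟨true,0,⟨1,[(3,0),(10,0),
  (16,0)]⟩,⟨0,[(15,0),(14,0)]⟩⟩,.o ⟨false,0,⟨0,[(4,0),(10,0),(1,0)]⟩,⟨7,[(12,0),(0,0),(0,3),(10,1),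
  (6,3)]⟩⟩]⟩))))))))

theorem ok1 : chk (cU (-1) false 10) t1 l3 = true := by decide +kernel

noncomputable def t2 : Tre :=
  (.Q [0,-1,0,-1,1,0,-2,-2,0,-2,2] (.p true [0,0,1] [2,-1,-1] (⟨0,[(17,0)]⟩,⟨0,[(16,0)]⟩) .k 2 (⟨0,
  [(16,0),(2,0)]⟩,⟨0,[(3,0)]⟩) .k (.r 0 ⟨0,[(15,1)]⟩ ⟨3,[(2,3),(2,0),(0,0),(18,1)]⟩)) (.Q [0,0,-1,0,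
  0,0,1,0,0,2,-1] (.p false [-1,1,1] [1] (⟨0,[(4,0)]⟩,⟨0,[(17,0),(2,0)]⟩) .k 1 (⟨0,[]⟩,⟨0,[]⟩) .k
  .k) (.I [0,0,-2,-2,1,0,0,-1] (.K ⟨1,[-1,1,1],0,0,(⟨0,[(6,0)]⟩,⟨0,[(19,0),(2,0)]⟩),.k,.k,(.r 0 ⟨3,
  [(3,1),(0,3),(8,3),(2,0),(0,0),(8,1)]⟩ ⟨0,[(0,0)]⟩),.k,.k,[⟨1,[(13,1),(2,0),(0,0)]⟩,⟨1,[(1,0),(14,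
  0)]⟩,⟨0,[(12,0),(14,0)]⟩,⟨0,[(1,0),(1,0),(14,0)]⟩]⟩) (.R ⟨0,false,false,true,[1,0,-1],[0,1],[],
  (⟨0,[(19,0)]⟩,⟨0,[(20,0)]⟩),(⟨0,[(23,0)]⟩,⟨0,[(22,0)]⟩),⟨0,[(6,0)]⟩,.k,.k,.k,.k,.k,.k,⟨true,1,⟨1,
  [(27,1),(0,0),(0,0)]⟩,⟨1,[(0,1),(4,0),(18,0),(2,1)]⟩⟩,⟨false,1,⟨11,[(1,3),(5,3),(0,0),(0,0),(18,
  9)]⟩,⟨0,[(13,0)]⟩⟩,⟨true,0,⟨0,[(18,0)]⟩,⟨1,[(5,0),(18,0)]⟩⟩,⟨false,0,⟨0,[(4,0)]⟩,⟨7,[(2,3),(5,0),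
  (0,0),(17,3),(1,1)]⟩⟩,⟨false,0,⟨0,[]⟩,⟨0,[]⟩⟩,⟨false,0,⟨0,[]⟩,⟨0,[]⟩⟩,[.o ⟨false,0,⟨0,[(26,0)]⟩,
  ⟨1,[(21,0),(5,1),(1,0)]⟩⟩,.a ⟨true,0,⟨3,[(0,1),(0,1),(13,1),(12,0),(0,0)]⟩,⟨0,[(27,0)]⟩⟩ ⟨false,1,
  ⟨1,[(28,0),(0,0)]⟩,⟨0,[(31,0)]⟩⟩ ⟨true,0,⟨5,[(0,1),(0,1),(1,0),(1,0),(1,1),(18,0),(1,1)]⟩,⟨0,[(13,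
  0),(13,0)]⟩⟩,.e ⟨false,1,⟨3,[(8,0),(0,0),(19,1)]⟩,⟨0,[]⟩⟩ ⟨false,0,⟨5,[(0,1),(0,1),(1,0),(1,0),(1,
  1),(18,0),(1,1)]⟩,⟨7,[(2,3),(5,0),(0,0),(8,7),(8,3),(1,1)]⟩⟩,.o ⟨false,0,⟨0,[(13,0)]⟩,⟨7,[(7,3),
  (0,0),(0,0),(11,1),(6,3)]⟩⟩]⟩)) (.Q [0,0,0,1,0,0,0,0,0,1] (.pp false [-1,1]) (.R ⟨0,false,false,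
  true,[-1,1,1],[0,1],[0,1,1,0,0,0,0,1],(⟨0,[(6,0)]⟩,⟨0,[(19,0),(2,0)]⟩),(⟨0,[(23,0)]⟩,⟨0,[(22,
  0)]⟩),⟨0,[(19,0)]⟩,.k,.k,.k,.k,.k,.k,⟨true,0,⟨0,[(18,0),(8,0)]⟩,⟨1,[(3,0),(1,0),(20,0)]⟩⟩,⟨false,
  1,⟨1,[(1,0),(15,0),(10,1)]⟩,⟨1,[(7,0),(11,0),(0,0)]⟩⟩,⟨false,0,⟨0,[(27,0)]⟩,⟨0,[(26,0),(2,0)]⟩⟩,
  ⟨true,0,⟨0,[(12,0)]⟩,⟨0,[(4,0),(22,0)]⟩⟩,⟨false,0,⟨0,[]⟩,⟨0,[]⟩⟩,⟨false,0,⟨0,[]⟩,⟨0,[]⟩⟩,[.o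
  ⟨false,0,⟨0,[(26,0)]⟩,⟨1,[(21,0),(5,1),(1,0)]⟩⟩,.a ⟨true,0,⟨0,[(0,0)]⟩,⟨0,[(27,0)]⟩⟩ ⟨false,0,⟨0,
  [(18,0)]⟩,⟨7,[(5,3),(2,0),(0,0),(18,5)]⟩⟩ ⟨true,0,⟨0,[(0,0),(0,0)]⟩,⟨1,[(7,0),(11,0),(0,0),(6,
  1)]⟩⟩,.o ⟨false,1,⟨3,[(7,1),(0,0),(0,0),(9,1),(0,1),(7,1)]⟩,⟨0,[(1,0)]⟩⟩,.o ⟨false,0,⟨1,[(7,0),
  (11,0),(0,0)]⟩,⟨1,[(1,0),(15,0),(3,0),(6,0)]⟩⟩]⟩) (.Q [0,0,0,0,0,0,1,0,0,0,-1] (.p false [0,0,1]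
  [] (⟨0,[(20,0)]⟩,⟨0,[(19,0)]⟩) .k 0 (⟨0,[]⟩,⟨0,[]⟩) .k .k) (.Q [0,-1,0,-1,0,0,1,1,0,0,-1] (.p
  false [0,0,1] [] (⟨0,[(21,0)]⟩,⟨0,[(20,0)]⟩) .k 0 (⟨0,[]⟩,⟨0,[]⟩) .k .k) (.R ⟨2,true,false,false,
  [0,1],[0,0,1],[0,0,1],(⟨0,[]⟩,⟨0,[]⟩),(⟨0,[(22,0)]⟩,⟨0,[(21,0)]⟩),⟨0,[]⟩,.k,.k,.k,.k,.k,.k,⟨true,
  0,⟨3,[(7,1),(10,0),(0,0)]⟩,⟨0,[(20,0)]⟩⟩,⟨false,0,⟨0,[(1,0)]⟩,⟨0,[(19,0),(10,0)]⟩⟩,⟨true,0,⟨0,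
  [(29,0)]⟩,⟨0,[(28,0)]⟩⟩,⟨false,0,⟨0,[(0,0)]⟩,⟨0,[(17,0),(10,0),(2,0)]⟩⟩,⟨false,1,⟨3,[(10,0),(0,0),
  (19,1)]⟩,⟨0,[]⟩⟩,⟨true,0,⟨3,[(0,1),(0,0),(1,0),(2,1),(19,0)]⟩,⟨0,[(17,0)]⟩⟩,[]⟩) (.Q [0,0,0,0,0,1,
  0,0,0,0,-1] (.ed true [1,-1,1] .k) (.Q [0,0,0,0,0,0,-1,0,0,1,1] (.p true [1,-1,1] [] (⟨0,[(23,0),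
  (1,0)]⟩,⟨0,[(0,0)]⟩) .k 0 (⟨0,[]⟩,⟨0,[]⟩) .k .k) (.K ⟨0,[1,-1,1],0,0,(⟨0,[(24,0),(1,0)]⟩,⟨0,[(1,
  0)]⟩),.k,(.r (-1) ⟨0,[(22,0),(8,1),(0,0)]⟩ ⟨3,[(7,3),(1,1),(10,0),(0,0),(8,3)]⟩),.k,.k,.k,[⟨0,[(0,
  0)]⟩,⟨0,[(3,0)]⟩,⟨2,[(0,1),(1,2),(8,0)]⟩,⟨0,[(4,0),(13,0)]⟩]⟩) (.Q [0,1,0,0,0,0,0,0,1,0,0,-1] (.p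
  false [0,0,0,1] [] (⟨0,[(15,0)]⟩,⟨1,[(14,0),(8,0),(0,0)]⟩) .k 0 (⟨0,[]⟩,⟨0,[]⟩) .k .k) (.I [1,-1,
  0,0,0,0,0,0,1] (.Q [0,0,0,0,0,1,0,0,0,-1,0,1] (.p true [0,0,0,1] [1] (⟨0,[(17,0)]⟩,⟨1,[(16,0),(8,
  0),(0,0)]⟩) .k 1 (⟨0,[]⟩,⟨0,[]⟩) .k .k) (.R ⟨0,false,false,false,[1,0,0,-1],[0,0,1],[0,1,0,0,0,0,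
  0,0,-1],(⟨1,[(17,0),(8,0),(0,0)]⟩,⟨0,[(18,0)]⟩),(⟨0,[(27,0)]⟩,⟨0,[(26,0)]⟩),⟨0,[(0,0)]⟩,.k,.k,(.r
  (-1) ⟨1,[(15,0),(18,1),(0,0)]⟩ ⟨1,[(1,1),(21,0),(0,0),(8,1)]⟩),.k,.k,.k,⟨false,1,⟨1,[(12,0),(2,0),
  (15,0),(3,0)]⟩,⟨0,[(1,0),(23,0)]⟩⟩,⟨true,0,⟨1,[(14,0),(2,0)]⟩,⟨1,[(8,0),(9,1),(5,0)]⟩⟩,⟨true,0,⟨0,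
  [(38,0)]⟩,⟨0,[]⟩⟩,⟨false,0,⟨1,[(1,1),(12,0),(2,0),(7,1)]⟩,⟨5,[(5,1),(3,1),(5,2),(2,5),(9,0)]⟩⟩,
  ⟨false,0,⟨0,[]⟩,⟨0,[]⟩⟩,⟨false,0,⟨0,[]⟩,⟨0,[]⟩⟩,[.o ⟨false,0,⟨2,[(3,0),(10,0),(10,2)]⟩,⟨11,[(5,3),
  (3,3),(5,2),(0,2),(11,1)]⟩⟩,.o ⟨false,1,⟨0,[(21,0),(14,0)]⟩,⟨0,[(19,0)]⟩⟩,.a ⟨true,0,⟨0,[(18,0)]⟩,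
  ⟨1,[(17,0),(8,0),(0,0)]⟩⟩ ⟨false,1,⟨3,[(15,2),(0,0)]⟩,⟨0,[(1,0)]⟩⟩ ⟨true,0,⟨1,[(14,0),(2,0),(7,
  1)]⟩,⟨0,[(18,0),(0,0)]⟩⟩,.o ⟨false,0,⟨1,[(8,0),(9,1),(4,0)]⟩,⟨7,[(15,0),(0,0),(0,3),(10,1),(6,
  3)]⟩⟩]⟩) (.R ⟨0,false,false,false,[0,0,0,1],[1,-1],[1,0,0,0,0,0,0,0,1],(⟨0,[(18,0)]⟩,⟨1,[(17,0),
  (8,0),(0,0)]⟩),(⟨0,[(29,0)]⟩,⟨0,[(30,0)]⟩),⟨1,[(4,0),(8,0),(3,0)]⟩,.k,.k,(.x 0 ⟨1,[(8,0),(14,0),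
  (5,1)]⟩ ⟨3,[(15,0),(0,0),(13,3),(4,1)]⟩),(.r 0 ⟨1,[(1,1),(21,0),(0,0),(8,1)]⟩ ⟨1,[(15,0),(18,1),
  (0,0)]⟩),.k,.k,⟨false,0,⟨0,[(1,0),(31,0)]⟩,⟨1,[(15,0),(18,1),(0,0)]⟩⟩,⟨true,0,⟨1,[(8,0),(9,1),(4,
  0)]⟩,⟨1,[(17,0),(8,0),(0,0)]⟩⟩,⟨true,0,⟨0,[]⟩,⟨0,[(38,0)]⟩⟩,⟨false,1,⟨1,[(7,1),(7,0),(2,1),(17,
  0)]⟩,⟨4,[(1,3),(0,0),(2,1),(5,2),(5,1),(4,0)]⟩⟩,⟨false,0,⟨0,[]⟩,⟨0,[]⟩⟩,⟨false,0,⟨0,[]⟩,⟨0,[]⟩⟩,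
  [.o ⟨false,0,⟨0,[(7,0)]⟩,⟨3,[(15,0),(0,0),(16,3),(2,1)]⟩⟩,.o ⟨false,1,⟨1,[(28,0),(5,1),(1,0)]⟩,⟨0,
  [(33,0)]⟩⟩,.a ⟨true,0,⟨1,[(17,0),(8,0),(0,0)]⟩,⟨0,[(18,0)]⟩⟩ ⟨false,0,⟨0,[(1,0)]⟩,⟨3,[(15,2),(0,
  0)]⟩⟩ ⟨true,0,⟨0,[(7,0),(10,0)]⟩,⟨1,[(11,0),(5,0),(4,0),(10,0)]⟩⟩,.o ⟨false,0,⟨3,[(8,0),(8,1),(5,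
  1),(0,0)]⟩,⟨1,[(18,1),(9,0),(6,0)]⟩⟩]⟩)) (.K ⟨2,[0,0,0,1],0,0,(⟨0,[(17,0)]⟩,⟨1,[(16,0),(8,0),(0,
  0)]⟩),.k,(.r (-1) ⟨1,[(15,0),(17,1),(0,0)]⟩ ⟨0,[(0,0),(8,0)]⟩),(.r 0 ⟨0,[(1,0),(7,0),(7,0)]⟩ ⟨1,
  [(14,0),(18,1),(0,0)]⟩),.k,.k,[⟨2,[(2,0),(10,0),(3,2)]⟩,⟨1,[(13,0),(2,0)]⟩,⟨1,[(17,1),(4,0),(0,
  0)]⟩,⟨3,[(7,0),(8,1),(5,1),(0,0)]⟩,⟨0,[(0,0),(16,0)]⟩,⟨0,[(1,0)]⟩]⟩)) (.I [1,0,-1,0,1,0,0,-1,1]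
  (.R ⟨0,false,false,false,[0,0,0,1],[0,0,1],[1,0,0,0,0,0,0,0,1],(⟨0,[(17,0)]⟩,⟨1,[(16,0),(8,0),(0,
  0)]⟩),(⟨0,[(26,0)]⟩,⟨0,[(25,0)]⟩),⟨1,[(3,0),(8,0),(3,0)]⟩,.k,.k,(.r (-1) ⟨1,[(15,0),(17,1),(0,
  0)]⟩ ⟨3,[(1,3),(5,0),(8,1),(5,1),(0,0),(8,3)]⟩),.k,.k,.k,⟨false,1,⟨0,[(0,0)]⟩,⟨11,[(1,11),(5,2),
  (8,5),(3,3),(2,0),(0,7),(5,3)]⟩⟩,⟨true,0,⟨2,[(2,0),(10,0),(3,2)]⟩,⟨3,[(7,0),(8,1),(6,2)]⟩⟩,⟨true,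
  0,⟨0,[]⟩,⟨0,[(37,0)]⟩⟩,⟨false,0,⟨2,[(1,2),(0,0),(10,0),(10,2)]⟩,⟨15,[(0,3),(3,3),(3,3),(5,0),(0,
  6),(0,7),(6,3)]⟩⟩,⟨false,0,⟨0,[]⟩,⟨0,[]⟩⟩,⟨false,0,⟨0,[]⟩,⟨0,[]⟩⟩,[.o ⟨false,0,⟨2,[(2,0),(10,0),
  (10,2)]⟩,⟨11,[(4,3),(3,3),(5,2),(0,2),(11,1)]⟩⟩,.o ⟨false,1,⟨0,[(20,0),(14,0)]⟩,⟨0,[(18,0)]⟩⟩,.a
  ⟨true,0,⟨1,[(16,0),(8,0),(0,0)]⟩,⟨0,[(17,0)]⟩⟩ ⟨false,1,⟨1,[(15,0),(19,0)]⟩,⟨3,[(1,3),(5,0),(8,1),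
  (5,0),(7,1)]⟩⟩ ⟨true,0,⟨2,[(2,0),(10,0),(3,2),(6,2)]⟩,⟨1,[(16,0),(1,0),(2,0)]⟩⟩,.o ⟨false,0,⟨3,
  [(7,0),(8,1),(5,1),(0,0)]⟩,⟨1,[(17,1),(9,0),(6,0)]⟩⟩]⟩) (.R ⟨0,false,false,true,[0,0,0,1],[0,1],
  [1,1,1,1],(⟨0,[(17,0)]⟩,⟨1,[(16,0),(8,0),(0,0)]⟩),(⟨0,[(29,0)]⟩,⟨0,[(28,0)]⟩),⟨1,[(3,0),(8,0),(3,
  0)]⟩,.k,.k,(.r (-1) ⟨1,[(15,0),(17,1),(0,0)]⟩ ⟨5,[(0,1),(8,2),(1,0),(2,1),(17,2)]⟩),(.r (-1) ⟨1,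
  [(15,0),(17,1),(0,0)]⟩ ⟨5,[(0,1),(8,2),(1,0),(2,1),(17,2)]⟩),.k,.k,⟨true,0,⟨0,[]⟩,⟨1,[(22,0),(0,
  0)]⟩⟩,⟨false,1,⟨0,[(17,0),(16,0)]⟩,⟨3,[(7,0),(8,1),(5,1),(0,0)]⟩⟩,⟨true,(-1),⟨2,[(0,2),(1,0),(1,
  2),(8,0)]⟩,⟨1,[(15,0),(17,1),(0,0)]⟩⟩,⟨false,0,⟨0,[(1,0),(30,0)]⟩,⟨1,[(6,0),(8,0),(0,0),(16,0),(1,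
  0)]⟩⟩,⟨false,0,⟨0,[]⟩,⟨0,[]⟩⟩,⟨false,0,⟨0,[]⟩,⟨0,[]⟩⟩,[.o ⟨false,0,⟨0,[(32,0)]⟩,⟨1,[(27,0),(5,1),
  (1,0)]⟩⟩,.o ⟨false,1,⟨3,[(14,0),(0,0),(16,3),(2,1)]⟩,⟨0,[(6,0)]⟩⟩,.a ⟨true,0,⟨1,[(16,0),(8,0),(0,
  0)]⟩,⟨0,[(17,0)]⟩⟩ ⟨false,0,⟨3,[(9,1),(12,0),(0,0),(8,1)]⟩,⟨1,[(33,1),(0,0),(0,0)]⟩⟩ ⟨true,0,⟨0,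
  [(17,0),(14,0)]⟩,⟨1,[(6,0),(9,0),(16,0)]⟩⟩,.o ⟨false,0,⟨3,[(7,0),(8,1),(5,1),(0,0)]⟩,⟨1,[(17,1),
  (9,0),(6,0)]⟩⟩]⟩)))) (.Q [0,-1,0,-1,0,0,1,1,0,1,-1] (.p false [0,0,1] [1] (⟨0,[(23,0)]⟩,⟨0,[(22,
  0)]⟩) .k 1 (⟨0,[]⟩,⟨0,[]⟩) .k .k) (.R ⟨2,true,false,true,[0,1],[1,1,-1],[0,1,1],(⟨0,[]⟩,⟨0,[]⟩),
  (⟨0,[(23,0),(3,0)]⟩,⟨0,[(1,0)]⟩),⟨0,[]⟩,.k,.k,.k,.k,.k,.k,⟨true,0,⟨0,[(22,0),(8,0)]⟩,⟨1,[(7,0),(1,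
  0),(20,0)]⟩⟩,⟨false,1,⟨1,[(5,0),(15,0),(10,1)]⟩,⟨1,[(11,0),(11,0),(0,0)]⟩⟩,⟨false,0,⟨0,[(31,0)]⟩,
  ⟨0,[(30,0),(2,0)]⟩⟩,⟨true,0,⟨0,[(16,0)]⟩,⟨10,[(0,4),(7,4),(2,0),(6,0),(2,1),(6,1)]⟩⟩,⟨true,0,⟨0,
  [(35,0)]⟩,⟨0,[]⟩⟩,⟨false,1,⟨1,[(2,1),(22,0),(7,0)]⟩,⟨0,[(0,0)]⟩⟩,[]⟩) (.Q [0,1,0,0,0,0,0,0,1,0,0,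
  -1] (.p false [0,0,0,1] [] (⟨0,[(15,0)]⟩,⟨1,[(14,0),(8,0),(0,0)]⟩) .k 0 (⟨0,[]⟩,⟨0,[]⟩) .k .k)
  (.I [0,-1,0,0,0,0,0,0,1] (.Q [0,0,0,0,0,-1,0,0,0,1,0,-1] (.p false [0,0,0,1] [1] (⟨0,[(17,0)]⟩,⟨1,
  [(16,0),(8,0),(0,0)]⟩) .k 1 (⟨0,[]⟩,⟨0,[]⟩) .k .k) (.I [0,0,2,2,-1,0,0,0,1] (.R ⟨1,false,false,
  true,[1,0,0,-1],[0,1],[1,1,0,0,0,0,0,0,-1],(⟨1,[(18,0),(8,0),(0,0)]⟩,⟨0,[(19,0)]⟩),(⟨0,[(31,0)]⟩,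
  ⟨0,[(30,0)]⟩),⟨0,[(1,0)]⟩,.k,.k,(.r (-1) ⟨1,[(16,0),(18,1),(0,0)]⟩ ⟨7,[(0,3),(15,0),(0,2)]⟩),(.r
  (-1) ⟨1,[(16,0),(18,1),(0,0)]⟩ ⟨7,[(0,3),(15,0),(0,2)]⟩),(.r (-2) ⟨3,[(16,2),(0,0),(17,7),(0,3)]⟩
  ⟨0,[(0,0)]⟩),.k,⟨true,1,⟨1,[(16,0),(18,1),(0,0)]⟩,⟨0,[(0,0),(34,0)]⟩⟩,⟨false,1,⟨1,[(18,0),(8,0),
  (0,0),(7,1)]⟩,⟨1,[(9,0),(9,1),(4,0)]⟩⟩,⟨false,0,⟨0,[]⟩,⟨3,[(16,0),(0,0),(19,1)]⟩⟩,⟨false,0,⟨13,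
  [(0,0),(1,10),(3,4),(5,6),(4,0),(0,6),(4,1),(8,1)]⟩,⟨1,[(8,1),(7,0),(2,1),(17,0)]⟩⟩,⟨true,0,⟨0,
  [(34,0)]⟩,⟨0,[(35,0)]⟩⟩,⟨false,0,⟨1,[(0,0),(1,0),(3,0),(5,0),(5,0),(17,0)]⟩,⟨1,[(8,1),(7,0),(2,1),
  (15,1),(1,0)]⟩⟩,[.o ⟨false,0,⟨0,[(34,0)]⟩,⟨1,[(29,0),(5,1),(1,0)]⟩⟩,.o ⟨false,1,⟨3,[(16,0),(0,0),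
  (16,3),(2,1)]⟩,⟨0,[(8,0)]⟩⟩,.a ⟨true,0,⟨0,[(19,0)]⟩,⟨1,[(18,0),(8,0),(0,0)]⟩⟩ ⟨false,1,⟨3,[(16,2),
  (0,0)]⟩,⟨0,[(2,0)]⟩⟩ ⟨true,0,⟨1,[(12,0),(5,0),(4,0),(10,0)]⟩,⟨0,[(8,0),(10,0)]⟩⟩,.o ⟨false,0,⟨1,
  [(9,0),(9,1),(4,0)]⟩,⟨7,[(16,0),(0,0),(0,3),(10,1),(6,3)]⟩⟩]⟩) (.I [1,-1,0,1,0,0,0,1,1] (.R ⟨1,
  false,false,false,[1,0,0,-1],[0,0,1],[1,1,0,0,0,0,0,0,-1],(⟨1,[(19,0),(8,0),(0,0)]⟩,⟨0,[(20,0)]⟩),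
  (⟨0,[(29,0)]⟩,⟨0,[(28,0)]⟩),⟨0,[(2,0)]⟩,.k,.k,(.r (-1) ⟨7,[(1,3),(15,2),(0,0)]⟩ ⟨2,[(0,1),(3,0),
  (9,0),(5,0),(4,0),(0,0),(8,0)]⟩),.k,(.r (-1) ⟨3,[(1,1),(12,1),(2,0),(19,0)]⟩ ⟨7,[(0,5),(3,1),(15,
  1),(2,1),(1,2),(0,4),(8,1)]⟩),.k,⟨false,1,⟨1,[(14,0),(2,0),(15,0),(3,0)]⟩,⟨0,[(0,0),(35,0)]⟩⟩,
  ⟨true,0,⟨1,[(16,0),(2,0)]⟩,⟨1,[(10,0),(9,1),(5,0)]⟩⟩,⟨false,0,⟨0,[]⟩,⟨3,[(17,0),(0,0),(19,1)]⟩⟩,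
  ⟨false,0,⟨1,[(0,1),(15,0),(2,0),(16,1)]⟩,⟨11,[(5,3),(5,3),(5,6),(0,0),(1,11)]⟩⟩,⟨true,0,⟨0,[(35,
  0)]⟩,⟨0,[(36,0)]⟩⟩,⟨false,0,⟨1,[(0,1),(15,0),(2,0)]⟩,⟨11,[(1,3),(8,1),(0,3),(2,1),(2,3),(2,11),(4,
  0),(0,2),(13,3)]⟩⟩,[.o ⟨false,0,⟨0,[(9,0),(3,0)]⟩,⟨2,[(5,0),(5,0),(5,0),(0,0)]⟩⟩,.o ⟨false,1,⟨0,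
  [(23,0),(14,0)]⟩,⟨0,[(21,0)]⟩⟩,.a ⟨true,0,⟨0,[(20,0)]⟩,⟨1,[(19,0),(8,0),(0,0)]⟩⟩ ⟨false,1,⟨3,[(17,
  2),(0,0)]⟩,⟨0,[(3,0)]⟩⟩ ⟨true,0,⟨1,[(16,0),(2,0),(7,1)]⟩,⟨0,[(20,0),(0,0)]⟩⟩,.o ⟨false,0,⟨1,[(10,
  0),(9,1),(4,0)]⟩,⟨7,[(17,0),(0,0),(0,3),(10,1),(6,3)]⟩⟩]⟩) (.R ⟨1,false,false,true,[1,0,0,-1],[0,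
  0,1],[0,1,0,-1,0,0,0,0,-1],(⟨1,[(19,0),(8,0),(0,0)]⟩,⟨0,[(20,0)]⟩),(⟨0,[(29,0)]⟩,⟨0,[(28,0)]⟩),⟨0,
  [(2,0)]⟩,.k,.k,(.r (-1) ⟨7,[(1,3),(15,2),(0,0)]⟩ ⟨1,[(3,1),(21,0),(0,0),(8,1)]⟩),.k,(.r (-1) ⟨3,
  [(1,1),(12,1),(2,0),(19,0)]⟩ ⟨3,[(3,3),(6,0),(2,1),(9,1),(2,2),(8,1)]⟩),.k,⟨false,1,⟨3,[(1,1),(12,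
  1),(2,0),(19,0)]⟩,⟨0,[(3,0),(23,0),(7,0)]⟩⟩,⟨true,0,⟨1,[(16,0),(2,0)]⟩,⟨1,[(10,0),(9,1),(5,0)]⟩⟩,
  ⟨false,0,⟨0,[(36,0)]⟩,⟨0,[(35,0),(2,0)]⟩⟩,⟨false,0,⟨2,[(3,1),(0,0),(8,1),(5,0),(3,0),(12,1)]⟩,⟨11,
  [(0,1),(0,9),(3,5),(4,0),(0,1),(0,17),(7,11),(5,0)]⟩⟩,⟨true,0,⟨0,[(40,0)]⟩,⟨0,[]⟩⟩,⟨false,0,⟨4,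
  [(3,3),(0,0),(0,0),(7,3),(5,1),(3,1)]⟩,⟨5,[(0,1),(0,3),(8,0),(0,1),(0,5),(7,5),(5,0)]⟩⟩,[.o
  ⟨false,0,⟨0,[(23,0)]⟩,⟨11,[(5,3),(5,3),(5,0),(0,0),(19,5)]⟩⟩,.o ⟨false,0,⟨0,[(9,0),(3,0)]⟩,⟨2,[(5,
  0),(5,0),(5,0),(0,0)]⟩⟩,.a ⟨true,0,⟨0,[(20,0)]⟩,⟨1,[(19,0),(8,0),(0,0)]⟩⟩ ⟨true,0,⟨0,[(0,0),(26,
  0)]⟩,⟨0,[(3,0),(31,0)]⟩⟩ ⟨false,0,⟨1,[(16,0),(2,0),(7,1)]⟩,⟨11,[(5,3),(5,3),(5,0),(0,0),(1,11),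
  (17,5)]⟩⟩,.o ⟨false,0,⟨1,[(10,0),(9,1),(4,0)]⟩,⟨7,[(17,0),(0,0),(0,3),(10,1),(6,3)]⟩⟩]⟩))) (.R ⟨0,
  false,false,false,[1,0,0,-1],[0,0,1],[0,1,0,0,0,0,0,0,-1],(⟨1,[(17,0),(8,0),(0,0)]⟩,⟨0,[(18,0)]⟩),
  (⟨0,[(27,0)]⟩,⟨0,[(26,0)]⟩),⟨0,[(0,0)]⟩,.k,.k,(.r (-1) ⟨1,[(15,0),(18,1),(0,0)]⟩ ⟨1,[(1,1),(21,0),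
  (0,0),(8,1)]⟩),.k,.k,.k,⟨false,1,⟨1,[(12,0),(2,0),(15,0),(3,0)]⟩,⟨0,[(1,0),(23,0)]⟩⟩,⟨true,0,⟨1,
  [(14,0),(2,0)]⟩,⟨1,[(8,0),(9,1),(5,0)]⟩⟩,⟨true,0,⟨0,[(38,0)]⟩,⟨0,[]⟩⟩,⟨false,0,⟨1,[(1,1),(12,0),
  (2,0),(7,1)]⟩,⟨11,[(3,3),(5,3),(5,6),(0,0),(1,11)]⟩⟩,⟨false,0,⟨0,[]⟩,⟨0,[]⟩⟩,⟨false,0,⟨0,[]⟩,⟨0,
  []⟩⟩,[.o ⟨false,0,⟨0,[(7,0),(3,0)]⟩,⟨2,[(3,0),(5,0),(5,0),(0,0)]⟩⟩,.o ⟨false,1,⟨0,[(21,0),(14,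
  0)]⟩,⟨0,[(19,0)]⟩⟩,.a ⟨true,0,⟨0,[(18,0)]⟩,⟨1,[(17,0),(8,0),(0,0)]⟩⟩ ⟨false,1,⟨3,[(15,2),(0,0)]⟩,
  ⟨0,[(1,0)]⟩⟩ ⟨true,0,⟨1,[(14,0),(2,0),(7,1)]⟩,⟨0,[(18,0),(0,0)]⟩⟩,.o ⟨false,0,⟨1,[(8,0),(9,1),(4,
  0)]⟩,⟨7,[(15,0),(0,0),(0,3),(10,1),(6,3)]⟩⟩]⟩)) (.I [0,0,1,1,0,0,0,0,-1] (.K ⟨2,[0,0,0,1],0,0,(⟨0,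
  [(18,0)]⟩,⟨1,[(17,0),(8,0),(0,0)]⟩),.k,(.r (-1) ⟨1,[(16,0),(17,1),(0,0)]⟩ ⟨0,[(0,0)]⟩),(.r 0 ⟨0,
  [(2,0),(7,0),(7,0)]⟩ ⟨1,[(15,0),(18,1),(0,0)]⟩),.k,.k,[⟨0,[(6,0),(11,0)]⟩,⟨1,[(14,0),(2,0)]⟩,⟨1,
  [(18,1),(4,0),(0,0)]⟩,⟨3,[(8,0),(8,1),(5,1),(0,0)]⟩,⟨0,[(1,0),(16,0)]⟩,⟨0,[(2,0)]⟩]⟩) (.K ⟨1,[0,0,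
  0,1],0,0,(⟨0,[(18,0)]⟩,⟨1,[(17,0),(8,0),(0,0)]⟩),.k,(.x 0 ⟨1,[(8,0),(14,0),(5,1)]⟩ ⟨3,[(15,0),(0,
  0),(13,3),(4,1)]⟩),(.r 0 ⟨0,[(2,0),(7,0),(7,0)]⟩ ⟨1,[(15,0),(18,1),(0,0)]⟩),.k,.k,[⟨1,[(18,1),(4,
  0),(0,0)]⟩,⟨3,[(8,0),(8,1),(5,1),(0,0)]⟩,⟨0,[(1,0),(16,0)]⟩,⟨1,[(0,1),(9,1),(6,0),(8,0),(0,
  0)]⟩]⟩))) (.Q [0,0,0,0,0,1,0,0,0,0,0,-1] (.p false [0,0,0,1] [] (⟨0,[(16,0)]⟩,⟨1,[(15,0),(8,0),(0,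
  0)]⟩) .k 0 (⟨0,[]⟩,⟨0,[]⟩) .k .k) (.I [0,1,-1,-1,0,0,0,-1,-1] (.R ⟨0,false,false,true,[0,0,0,1],
  [2,-1,-1],[1,0,0,0,0,0,0,0,1],(⟨0,[(18,0)]⟩,⟨1,[(17,0),(8,0),(0,0)]⟩),(⟨0,[(26,0),(2,0)]⟩,⟨0,[(13,
  0)]⟩),⟨0,[(1,0)]⟩,.k,.k,(.r (-1) ⟨1,[(16,0),(17,1),(0,0)]⟩ ⟨3,[(2,3),(5,0),(8,1),(5,1),(0,0),(8,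
  3)]⟩),(.x (-1) ⟨3,[(13,1),(0,1),(0,0),(0,0),(10,1),(2,1),(4,1)]⟩ ⟨0,[(8,0),(17,0),(2,0)]⟩),.k,.k,
  ⟨false,1,⟨1,[(10,1),(5,0),(8,1),(9,0)]⟩,⟨0,[(0,0)]⟩⟩,⟨true,0,⟨0,[(8,0),(9,0)]⟩,⟨1,[(14,0),(2,0),
  (8,1),(0,1)]⟩⟩,⟨true,0,⟨0,[]⟩,⟨0,[(38,0)]⟩⟩,⟨false,0,⟨0,[(2,0),(4,0),(11,0)]⟩,⟨1,[(11,1),(4,0),(0,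
  0),(8,0),(0,0),(8,0)]⟩⟩,⟨false,0,⟨0,[]⟩,⟨0,[]⟩⟩,⟨false,0,⟨0,[]⟩,⟨0,[]⟩⟩,[.o ⟨false,0,⟨0,[(7,0),
  (11,0)]⟩,⟨3,[(11,3),(3,0),(0,0),(19,1)]⟩⟩,.o ⟨false,1,⟨1,[(9,0),(18,0),(5,0),(3,0)]⟩,⟨0,[(11,
  0)]⟩⟩,.a ⟨true,0,⟨1,[(17,0),(8,0),(0,0)]⟩,⟨0,[(18,0)]⟩⟩ ⟨false,1,⟨1,[(16,0),(19,0)]⟩,⟨15,[(0,3),
  (1,11),(5,2),(8,5),(3,3),(2,0),(8,3)]⟩⟩ ⟨true,0,⟨0,[(7,0),(10,0),(0,0)]⟩,⟨1,[(11,1),(5,0),(8,0),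
  (0,0)]⟩⟩,.o ⟨false,0,⟨3,[(8,0),(8,1),(5,1),(0,0)]⟩,⟨1,[(18,1),(9,0),(6,0)]⟩⟩]⟩) (.I [1,1,0,-1,0,0,
  0,0,1] (.R ⟨0,false,false,false,[0,0,0,1],[2,-1,-1],[1,1,0,-1,0,0,0,0,1],(⟨0,[(19,0)]⟩,⟨1,[(18,0),
  (8,0),(0,0)]⟩),(⟨0,[(27,0),(2,0)]⟩,⟨0,[(14,0)]⟩),⟨0,[(2,0)]⟩,.k,.k,(.r (-1) ⟨1,[(17,0),(17,1),(0,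
  0)]⟩ ⟨3,[(3,3),(5,0),(8,1),(5,1),(0,0),(8,3)]⟩),(.x (-1) ⟨3,[(14,1),(0,1),(0,0),(0,0),(10,1),(2,
  1),(4,1)]⟩ ⟨0,[(9,0),(17,0),(2,0)]⟩),.k,.k,⟨false,0,⟨1,[(0,0),(0,0),(24,0),(5,0)]⟩,⟨21,[(3,17),(0,
  5),(5,5),(2,1),(1,8),(0,1),(1,8),(17,11),(0,1)]⟩⟩,⟨true,0,⟨0,[(9,0),(9,0)]⟩,⟨1,[(15,0),(2,0),(8,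
  1),(0,1)]⟩⟩,⟨false,0,⟨0,[(35,0)]⟩,⟨0,[(34,0),(2,0)]⟩⟩,⟨true,0,⟨0,[(3,0),(4,0),(11,0)]⟩,⟨1,[(1,1),
  (13,0),(2,0),(8,1),(0,1),(3,1)]⟩⟩,⟨false,0,⟨0,[]⟩,⟨0,[]⟩⟩,⟨false,0,⟨0,[]⟩,⟨0,[]⟩⟩,[.o ⟨false,1,
  ⟨17,[(0,5),(7,3),(1,7),(5,2),(3,1),(8,6)]⟩,⟨0,[(12,0)]⟩⟩,.o ⟨false,1,⟨3,[(8,1),(1,1),(18,0),(7,
  0)]⟩,⟨0,[(12,0),(26,0)]⟩⟩,.a ⟨true,0,⟨1,[(18,0),(8,0),(0,0)]⟩,⟨0,[(19,0)]⟩⟩ ⟨true,0,⟨0,[(0,0)]⟩,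
  ⟨3,[(3,3),(0,1),(2,0),(1,0),(2,1),(5,1),(13,0)]⟩⟩ ⟨false,1,⟨3,[(8,1),(1,1),(8,3),(9,0),(7,0)]⟩,⟨1,
  [(12,1),(5,0),(8,0),(0,0)]⟩⟩,.o ⟨false,0,⟨3,[(9,0),(8,1),(5,1),(0,0)]⟩,⟨1,[(19,1),(9,0),(6,
  0)]⟩⟩]⟩) (.R ⟨0,false,false,false,[0,0,0,1],[2,-1,-1],[1],(⟨0,[(19,0)]⟩,⟨1,[(18,0),(8,0),(0,0)]⟩),
  (⟨0,[(27,0),(2,0)]⟩,⟨0,[(14,0)]⟩),⟨0,[(2,0)]⟩,.k,.k,(.r (-1) ⟨1,[(17,0),(17,1),(0,0)]⟩ ⟨1,[(0,1),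
  (23,0),(0,0),(13,1)]⟩),(.x (-1) ⟨3,[(14,1),(0,1),(0,0),(0,0),(10,1),(2,1),(4,1)]⟩ ⟨0,[(9,0),(17,
  0),(2,0)]⟩),.k,.k,⟨false,0,⟨1,[(0,0),(0,0),(24,0),(5,0)]⟩,⟨7,[(13,3),(2,0),(0,0),(17,7),(0,5)]⟩⟩,
  ⟨true,0,⟨0,[(9,0),(9,0)]⟩,⟨1,[(15,0),(2,0),(8,1),(0,1)]⟩⟩,⟨false,0,⟨2,[(0,0),(2,1),(4,0),(9,0)]⟩,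
  ⟨3,[(16,0),(0,2)]⟩⟩,⟨true,0,⟨0,[(3,0),(4,0),(11,0)]⟩,⟨1,[(1,1),(13,0),(2,0),(8,1),(0,1),(3,1)]⟩⟩,
  ⟨false,0,⟨0,[]⟩,⟨0,[]⟩⟩,⟨false,0,⟨0,[]⟩,⟨0,[]⟩⟩,[.o ⟨false,1,⟨1,[(10,0),(18,0),(5,0),(3,0)]⟩,⟨0,
  [(12,0)]⟩⟩,.o ⟨false,1,⟨3,[(8,1),(1,1),(18,0),(7,0)]⟩,⟨0,[(12,0),(26,0)]⟩⟩,.a ⟨true,0,⟨1,[(18,0),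
  (8,0),(0,0)]⟩,⟨0,[(19,0)]⟩⟩ ⟨true,0,⟨0,[]⟩,⟨0,[(39,0)]⟩⟩ ⟨false,1,⟨3,[(8,1),(1,1),(8,3),(9,0),(7,
  0)]⟩,⟨1,[(12,1),(5,0),(8,0),(0,0)]⟩⟩,.o ⟨false,0,⟨3,[(9,0),(8,1),(5,1),(0,0)]⟩,⟨1,[(19,1),(9,0),
  (6,0)]⟩⟩]⟩))) (.I [1,0,-1,-1,0,0,0,0,-1] (.R ⟨1,false,false,true,[0,0,0,1],[2,-1,-1],[1,0,0,0,0,0,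
  0,0,1],(⟨0,[(18,0)]⟩,⟨1,[(17,0),(8,0),(0,0)]⟩),(⟨0,[(26,0),(2,0)]⟩,⟨0,[(13,0)]⟩),⟨0,[(1,0)]⟩,.k,
  .k,(.r (-1) ⟨1,[(16,0),(17,1),(0,0)]⟩ ⟨3,[(2,3),(5,0),(8,1),(5,1),(0,0),(8,3)]⟩),(.x (-1) ⟨3,[(13,
  1),(0,1),(0,0),(0,0),(10,1),(2,1),(4,1)]⟩ ⟨0,[(8,0),(17,0),(2,0)]⟩),.k,.k,⟨false,1,⟨1,[(10,1),(5,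
  0),(8,1),(9,0)]⟩,⟨1,[(0,1),(11,0),(18,0)]⟩⟩,⟨true,0,⟨0,[(8,0),(9,0)]⟩,⟨1,[(14,0),(2,0),(8,1),(0,
  1)]⟩⟩,⟨true,0,⟨0,[]⟩,⟨0,[(38,0)]⟩⟩,⟨false,0,⟨0,[(2,0),(4,0),(11,0)]⟩,⟨1,[(11,1),(4,0),(0,0),(8,0),
  (0,0),(8,0)]⟩⟩,⟨false,1,⟨0,[(33,0),(2,0)]⟩,⟨0,[(34,0)]⟩⟩,⟨false,0,⟨0,[(2,0),(0,0),(3,0)]⟩,⟨1,[(11,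
  1),(4,0),(0,0),(8,0),(0,0),(6,1),(1,0)]⟩⟩,[.o ⟨false,0,⟨0,[(7,0),(11,0)]⟩,⟨3,[(11,3),(3,0),(0,0),
  (19,1)]⟩⟩,.o ⟨false,1,⟨1,[(9,0),(18,0),(5,0),(3,0)]⟩,⟨0,[(11,0)]⟩⟩,.a ⟨true,0,⟨1,[(17,0),(8,0),(0,
  0)]⟩,⟨0,[(18,0)]⟩⟩ ⟨false,1,⟨1,[(16,0),(19,0)]⟩,⟨7,[(0,3),(1,3),(5,0),(8,1),(5,1),(0,0),(8,3)]⟩⟩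
  ⟨true,0,⟨0,[(7,0),(10,0),(0,0)]⟩,⟨1,[(11,1),(5,0),(8,0),(0,0)]⟩⟩,.o ⟨false,0,⟨3,[(8,0),(8,1),(5,
  1),(0,0)]⟩,⟨1,[(18,1),(9,0),(6,0)]⟩⟩]⟩) (.R ⟨1,false,false,false,[1,0,0,-1],[1,-1],[0,0,0,-1,0,0,
  0,0,-1],(⟨1,[(17,0),(8,0),(0,0)]⟩,⟨0,[(18,0)]⟩),(⟨0,[(29,0)]⟩,⟨0,[(30,0)]⟩),⟨0,[(1,0),(15,0)]⟩,.k,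
  .k,(.r (-1) ⟨1,[(15,0),(18,1),(0,0)]⟩ ⟨0,[(0,0)]⟩),(.r 0 ⟨3,[(2,3),(5,0),(8,1),(5,1),(0,0),(8,
  3)]⟩ ⟨1,[(16,0),(17,1),(0,0)]⟩),.k,.k,⟨false,0,⟨3,[(2,3),(5,0),(8,1),(5,0),(7,1)]⟩,⟨1,[(16,0),(18,
  0)]⟩⟩,⟨true,0,⟨3,[(8,0),(8,1),(5,1),(0,0)]⟩,⟨0,[(18,0)]⟩⟩,⟨true,0,⟨0,[(34,0)]⟩,⟨0,[(33,0)]⟩⟩,
  ⟨false,1,⟨1,[(7,0),(8,0),(0,0),(16,0),(1,0)]⟩,⟨0,[(2,0),(30,0)]⟩⟩,⟨false,1,⟨3,[(15,0),(0,0),(19,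
  1)]⟩,⟨0,[]⟩⟩,⟨false,1,⟨3,[(7,1),(2,1),(5,1),(0,1),(17,0),(0,0)]⟩,⟨0,[(2,0),(35,0)]⟩⟩,[.o ⟨false,0,
  ⟨0,[(7,0)]⟩,⟨3,[(15,0),(0,0),(16,3),(2,1)]⟩⟩,.o ⟨false,1,⟨1,[(28,0),(5,1),(1,0)]⟩,⟨0,[(33,0)]⟩⟩,
  .a ⟨true,0,⟨0,[(18,0)]⟩,⟨1,[(17,0),(8,0),(0,0)]⟩⟩ ⟨false,0,⟨1,[(2,1),(4,0),(9,0),(16,0)]⟩,⟨1,[(16,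
  0),(16,1),(2,0)]⟩⟩ ⟨true,0,⟨1,[(7,0),(9,0),(16,0)]⟩,⟨0,[(18,0),(14,0)]⟩⟩,.o ⟨false,0,⟨1,[(8,0),(9,
  1),(4,0)]⟩,⟨7,[(15,0),(0,0),(0,3),(10,1),(6,3)]⟩⟩]⟩))))))) (.R ⟨0,false,false,true,[1,0,-1],[0,0,
  1],[0,1,0,0,0,0,0,-1],(⟨0,[(20,0)]⟩,⟨0,[(21,0)]⟩),(⟨0,[(21,0)]⟩,⟨0,[(20,0)]⟩),⟨0,[(7,0)]⟩,.k,.k,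
  .k,.k,.k,.k,⟨false,1,⟨0,[(6,0),(22,0)]⟩,⟨0,[(19,1)]⟩⟩,⟨true,0,⟨0,[(8,0)]⟩,⟨1,[(0,1),(1,0),(15,
  0)]⟩⟩,⟨true,0,⟨0,[(32,0)]⟩,⟨0,[]⟩⟩,⟨false,0,⟨0,[(8,0),(10,1)]⟩,⟨1,[(0,1),(2,0),(0,0),(1,0),(22,
  0)]⟩⟩,⟨false,0,⟨0,[]⟩,⟨0,[]⟩⟩,⟨false,0,⟨0,[]⟩,⟨0,[]⟩⟩,[.o ⟨false,0,⟨0,[(15,0)]⟩,⟨1,[(3,0),(23,0),
  (2,0)]⟩⟩,.o ⟨false,0,⟨0,[(1,0),(3,0)]⟩,⟨3,[(3,1),(5,0),(0,0),(16,1)]⟩⟩,.a ⟨true,0,⟨0,[(0,0)]⟩,⟨1,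
  [(8,0),(11,0),(0,0)]⟩⟩ ⟨true,0,⟨1,[(6,0),(18,0)]⟩,⟨0,[(19,0)]⟩⟩ ⟨false,0,⟨0,[(8,0),(10,0)]⟩,⟨1,
  [(0,1),(2,0),(23,0),(2,0)]⟩⟩,.o ⟨false,0,⟨0,[(14,0)]⟩,⟨7,[(8,3),(0,0),(0,0),(11,1),(6,3)]⟩⟩]⟩))))
  (.Q [0,0,-2,1,1,0,0,0,0,1] (.pp false [-1,1]) (.Q [0,0,0,1,0,0,0,0,0,1] (.pp false [-1,1]) (.R ⟨0,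
  false,false,true,[1,0,-1],[0,1],[],(⟨0,[(19,0)]⟩,⟨0,[(20,0)]⟩),(⟨0,[(23,0)]⟩,⟨0,[(22,0)]⟩),⟨0,[(6,
  0)]⟩,.k,.k,.k,.k,.k,.k,⟨true,1,⟨1,[(27,1),(0,0),(0,0)]⟩,⟨0,[(2,0),(9,1),(12,1)]⟩⟩,⟨false,1,⟨1,[(1,
  0),(5,0),(19,0),(0,0)]⟩,⟨0,[(13,0)]⟩⟩,⟨true,0,⟨0,[(18,0)]⟩,⟨1,[(5,0),(18,0)]⟩⟩,⟨false,0,⟨0,[(4,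
  0)]⟩,⟨0,[(12,0),(14,0),(1,0)]⟩⟩,⟨false,0,⟨0,[]⟩,⟨0,[]⟩⟩,⟨false,0,⟨0,[]⟩,⟨0,[]⟩⟩,[.o ⟨false,0,⟨0,
  [(26,0)]⟩,⟨1,[(21,0),(5,1),(1,0)]⟩⟩,.a ⟨true,0,⟨0,[(0,0)]⟩,⟨0,[(27,0)]⟩⟩ ⟨false,1,⟨1,[(28,0),(0,
  0)]⟩,⟨0,[(31,0)]⟩⟩ ⟨true,0,⟨1,[(2,0),(0,0),(1,0),(22,0)]⟩,⟨0,[(13,0),(13,0)]⟩⟩,.e ⟨false,1,⟨3,[(8,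
  0),(0,0),(19,1)]⟩,⟨0,[]⟩⟩ ⟨false,0,⟨1,[(2,0),(0,0),(1,0),(22,0)]⟩,⟨1,[(13,1),(13,1),(0,0),(0,
  0)]⟩⟩,.o ⟨false,0,⟨0,[(13,0)]⟩,⟨7,[(7,3),(0,0),(0,0),(11,1),(6,3)]⟩⟩]⟩) (.I [0,0,2,2,-1,0,0,2]
  (.Q [0,1,0,1,0,0,-1,-1,0,0,1] (.p true [0,0,1] [] (⟨0,[(21,0)]⟩,⟨0,[(20,0)]⟩) .k 0 (⟨0,[]⟩,⟨0,
  []⟩) .k .k) (.Q [0,0,0,0,0,-1,0,0,0,0,1] (.ed false [1,-1,1] .k) (.Q [0,-1,0,-1,0,0,1,1,0,1,-1]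
  (.p false [0,0,1] [1] (⟨0,[(23,0)]⟩,⟨0,[(22,0)]⟩) .k 1 (⟨0,[]⟩,⟨0,[]⟩) .k .k) (.R ⟨2,true,false,
  true,[0,1],[1,1,-1],[1,1,1,1],(⟨0,[]⟩,⟨0,[]⟩),(⟨0,[(23,0),(3,0)]⟩,⟨0,[(1,0)]⟩),⟨0,[]⟩,.k,.k,.k,.k,
  .k,.k,⟨true,0,⟨0,[(22,0)]⟩,⟨3,[(9,1),(10,0),(0,0)]⟩⟩,⟨false,1,⟨0,[(17,0),(14,0)]⟩,⟨47,[(0,13),(4,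
  5),(0,7),(2,11),(1,11),(0,0),(0,0),(5,5)]⟩⟩,⟨false,0,⟨0,[]⟩,⟨3,[(12,0),(0,0),(19,1)]⟩⟩,⟨true,0,⟨0,
  [(16,0)]⟩,⟨5,[(0,1),(5,1),(5,0),(0,0)]⟩⟩,⟨true,0,⟨0,[(30,0)]⟩,⟨0,[(31,0)]⟩⟩,⟨false,1,⟨1,[(2,1),
  (22,0),(7,0)]⟩,⟨0,[(0,0)]⟩⟩,[]⟩) (.Q [0,0,0,1,0,0,0,0,-1,0,0,1] (.p true [0,0,0,1] [] (⟨0,[(15,
  0)]⟩,⟨1,[(14,0),(8,0),(0,0)]⟩) .k 0 (⟨0,[]⟩,⟨0,[]⟩) .k .k) (.Q [0,1,0,0,0,0,0,0,1,1,0,-1] (.p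
  false [0,0,0,1] [1] (⟨0,[(16,0)]⟩,⟨1,[(15,0),(8,0),(0,0)]⟩) .k 1 (⟨0,[]⟩,⟨0,[]⟩) .k .k) (.K ⟨2,[1,
  0,0,-1],0,0,(⟨1,[(16,0),(8,0),(0,0)]⟩,⟨0,[(17,0)]⟩),.k,(.x 0 ⟨4,[(5,0),(0,1),(4,0),(7,0),(2,0),(4,
  0),(0,4)]⟩ ⟨3,[(14,0),(0,0),(13,3),(4,1)]⟩),(.r 0 ⟨17,[(1,7),(3,5),(0,1),(4,5),(2,4),(1,3),(10,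
  0)]⟩ ⟨1,[(15,0),(17,1),(0,0)]⟩),.k,.k,[⟨1,[(13,0),(2,0)]⟩,⟨1,[(6,1),(1,0),(0,0),(1,0),(5,1),(16,
  0)]⟩,⟨1,[(13,0),(2,0),(6,1)]⟩,⟨4,[(5,0),(0,1),(4,0),(5,4),(1,0),(2,0),(4,0)]⟩,⟨0,[(0,0)]⟩,⟨0,[(1,
  0),(4,0),(30,0)]⟩]⟩) (.Q [0,0,0,0,0,1,0,0,0,0,0,-1] (.p false [0,0,0,1] [] (⟨0,[(17,0)]⟩,⟨1,[(16,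
  0),(8,0),(0,0)]⟩) .k 0 (⟨0,[]⟩,⟨0,[]⟩) .k .k) (.R ⟨0,false,false,true,[0,0,0,1],[0,1],[1,1,1,1],
  (⟨0,[(18,0)]⟩,⟨1,[(17,0),(8,0),(0,0)]⟩),(⟨0,[(30,0)]⟩,⟨0,[(29,0)]⟩),⟨0,[(0,0)]⟩,.k,.k,(.r (-1) ⟨1,
  [(16,0),(17,1),(0,0)]⟩ ⟨19,[(1,1),(0,3),(0,1),(2,6),(5,5),(1,0),(0,6),(1,2)]⟩),(.r (-1) ⟨1,[(16,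
  0),(17,1),(0,0)]⟩ ⟨19,[(1,1),(0,3),(0,1),(2,6),(5,5),(1,0),(0,6),(1,2)]⟩),.k,.k,⟨true,0,⟨0,[]⟩,⟨1,
  [(23,0),(0,0)]⟩⟩,⟨false,1,⟨0,[(18,0),(16,0)]⟩,⟨1,[(17,0),(2,0),(2,0)]⟩⟩,⟨true,(-1),⟨5,[(1,5),(4,
  1),(2,3),(2,1),(4,2),(1,4),(2,2),(11,1)]⟩,⟨1,[(16,0),(17,1),(0,0)]⟩⟩,⟨false,0,⟨0,[(2,0)]⟩,⟨1,[(7,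
  0),(8,0),(0,0),(16,0),(1,0)]⟩⟩,⟨false,0,⟨0,[]⟩,⟨0,[]⟩⟩,⟨false,0,⟨0,[]⟩,⟨0,[]⟩⟩,[.o ⟨false,0,⟨0,
  [(33,0)]⟩,⟨1,[(28,0),(5,1),(1,0)]⟩⟩,.o ⟨false,1,⟨19,[(8,3),(1,7),(4,6),(0,6),(11,1),(4,7)]⟩,⟨0,
  [(7,0)]⟩⟩,.a ⟨true,0,⟨1,[(17,0),(8,0),(0,0)]⟩,⟨0,[(18,0)]⟩⟩ ⟨false,0,⟨7,[(6,1),(3,1),(1,1),(2,0),
  (0,0),(16,1)]⟩,⟨1,[(34,1),(0,0),(0,0)]⟩⟩ ⟨true,0,⟨0,[(18,0),(14,0)]⟩,⟨1,[(7,0),(9,0),(16,0)]⟩⟩,.o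
  ⟨false,0,⟨1,[(17,0),(2,0),(2,0)]⟩,⟨1,[(18,1),(9,0),(6,0)]⟩⟩]⟩) (.R ⟨1,false,false,true,[0,0,0,1],
  [0,1],[1,1,0,0,0,0,0,0,1],(⟨0,[(18,0)]⟩,⟨1,[(17,0),(8,0),(0,0)]⟩),(⟨0,[(30,0)]⟩,⟨0,[(29,0)]⟩),⟨0,
  [(0,0)]⟩,.k,.k,(.r (-1) ⟨1,[(16,0),(17,1),(0,0)]⟩ ⟨19,[(1,1),(0,3),(0,1),(2,6),(5,5),(1,0),(0,6),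
  (1,2)]⟩),(.r (-1) ⟨1,[(16,0),(17,1),(0,0)]⟩ ⟨19,[(1,1),(0,3),(0,1),(2,6),(5,5),(1,0),(0,6),(1,
  2)]⟩),(.r (-2) ⟨3,[(15,0),(0,2),(17,7),(0,3)]⟩ ⟨5,[(1,5),(1,0),(1,0),(0,3),(2,1),(2,3),(4,2),(4,
  1)]⟩),.k,⟨true,1,⟨1,[(16,0),(17,1),(0,0)]⟩,⟨5,[(1,5),(4,3),(2,1),(2,3),(4,2),(1,0),(2,2),(11,
  3)]⟩⟩,⟨false,1,⟨0,[(18,0),(16,0)]⟩,⟨1,[(17,0),(2,0),(2,0)]⟩⟩,⟨false,0,⟨0,[]⟩,⟨3,[(15,0),(0,0),(19,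
  1)]⟩⟩,⟨false,0,⟨0,[(2,0)]⟩,⟨1,[(7,0),(8,0),(0,0),(16,0),(1,0)]⟩⟩,⟨true,0,⟨0,[(33,0)]⟩,⟨0,[(34,
  0)]⟩⟩,⟨false,0,⟨4,[(1,0),(0,3),(0,1),(4,0),(0,0),(0,1)]⟩,⟨1,[(7,0),(8,0),(0,0),(16,2),(1,0)]⟩⟩,
  [.o ⟨false,0,⟨0,[(33,0)]⟩,⟨1,[(28,0),(5,1),(1,0)]⟩⟩,.o ⟨false,1,⟨19,[(8,3),(1,7),(4,6),(0,6),(11,
  1),(4,7)]⟩,⟨0,[(7,0)]⟩⟩,.a ⟨true,0,⟨1,[(17,0),(8,0),(0,0)]⟩,⟨0,[(18,0)]⟩⟩ ⟨false,1,⟨3,[(15,0),(0,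
  2)]⟩,⟨1,[(1,1),(15,0),(8,0),(0,0)]⟩⟩ ⟨true,0,⟨0,[(18,0),(14,0)]⟩,⟨1,[(7,0),(9,0),(16,0)]⟩⟩,.o
  ⟨false,0,⟨1,[(17,0),(2,0),(2,0)]⟩,⟨1,[(18,1),(9,0),(6,0)]⟩⟩]⟩))) (.Q [0,1,0,0,0,0,0,0,-1,0,0,1]
  (.p true [0,0,0,1] [] (⟨0,[(16,0)]⟩,⟨1,[(15,0),(8,0),(0,0)]⟩) .k 0 (⟨0,[]⟩,⟨0,[]⟩) .k .k) (.K ⟨2,
  [0,0,0,1],0,0,(⟨0,[(17,0)]⟩,⟨1,[(16,0),(8,0),(0,0)]⟩),.k,(.x 0 ⟨4,[(5,0),(0,1),(4,0),(7,0),(2,0),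
  (4,0),(0,4)]⟩ ⟨3,[(14,0),(0,0),(13,3),(4,1)]⟩),(.r 0 ⟨5,[(1,1),(0,1),(2,0),(2,0),(0,2),(1,0),(3,
  1),(1,1)]⟩ ⟨1,[(14,0),(18,1),(0,0)]⟩),.k,.k,[⟨1,[(6,1),(1,0),(0,0),(1,0),(5,1),(16,0)]⟩,⟨1,[(13,
  0),(2,0)]⟩,⟨1,[(17,1),(4,0),(0,0)]⟩,⟨1,[(16,0),(2,0),(2,0)]⟩,⟨0,[(0,0)]⟩,⟨22,[(1,14),(0,9),(2,0),
  (2,2),(6,3),(0,3),(3,1),(1,1),(7,3)]⟩]⟩) (.Q [0,0,0,0,0,1,0,0,0,0,0,-1] (.p false [0,0,0,1] []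
  (⟨0,[(17,0)]⟩,⟨1,[(16,0),(8,0),(0,0)]⟩) .k 0 (⟨0,[]⟩,⟨0,[]⟩) .k .k) (.R ⟨0,false,false,false,[0,0,
  0,1],[1,-1],[0,0,-1,-1],(⟨0,[(18,0)]⟩,⟨1,[(17,0),(8,0),(0,0)]⟩),(⟨0,[(29,0)]⟩,⟨0,[(30,0)]⟩),⟨0,
  [(0,0)]⟩,.k,.k,(.x 0 ⟨4,[(6,0),(0,1),(4,0),(7,0),(2,0),(4,0),(0,4)]⟩ ⟨3,[(15,0),(0,0),(13,3),(4,
  1)]⟩),(.r 0 ⟨9,[(1,1),(1,1),(2,2),(2,0),(0,0),(1,2),(3,3),(1,1)]⟩ ⟨1,[(15,0),(18,1),(0,0)]⟩),.k,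
  .k,⟨false,1,⟨3,[(15,0),(0,0),(18,1)]⟩,⟨0,[]⟩⟩,⟨true,0,⟨4,[(6,0),(0,1),(4,0),(5,4),(1,0),(2,0),(4,
  0)]⟩,⟨1,[(17,0),(8,0),(0,0)]⟩⟩,⟨true,1,⟨1,[(15,0),(18,1),(0,0)]⟩,⟨2,[(1,2),(4,0),(2,1),(2,0),(5,
  2),(0,3),(14,0)]⟩⟩,⟨false,1,⟨1,[(7,1),(7,0),(2,1),(17,0)]⟩,⟨82,[(1,60),(3,33),(0,1),(1,17),(0,26),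
  (2,11),(3,10),(0,10),(6,19)]⟩⟩,⟨false,0,⟨0,[]⟩,⟨0,[]⟩⟩,⟨false,0,⟨0,[]⟩,⟨0,[]⟩⟩,[.o ⟨false,0,⟨0,
  [(7,0)]⟩,⟨19,[(8,3),(1,7),(4,6),(0,6),(11,1),(4,7)]⟩⟩,.o ⟨false,1,⟨1,[(28,0),(5,1),(1,0)]⟩,⟨0,
  [(33,0)]⟩⟩,.a ⟨true,0,⟨1,[(17,0),(8,0),(0,0)]⟩,⟨0,[(18,0)]⟩⟩ ⟨false,1,⟨1,[(34,1),(0,0),(0,0)]⟩,⟨7,
  [(6,1),(3,1),(1,1),(2,0),(0,0),(16,1)]⟩⟩ ⟨true,0,⟨0,[(7,0),(10,0)]⟩,⟨7,[(5,3),(3,1),(5,0),(0,0),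
  (0,3),(15,1)]⟩⟩,.o ⟨false,0,⟨1,[(17,0),(2,0),(2,0)]⟩,⟨1,[(18,1),(9,0),(6,0)]⟩⟩]⟩) (.R ⟨1,false,
  false,true,[1,0,0,-1],[0,1],[1,1,0,0,0,0,0,0,-1],(⟨1,[(17,0),(8,0),(0,0)]⟩,⟨0,[(18,0)]⟩),(⟨0,[(30,
  0)]⟩,⟨0,[(29,0)]⟩),⟨0,[(0,0),(16,0)]⟩,.k,.k,(.r (-1) ⟨1,[(15,0),(18,1),(0,0)]⟩ ⟨9,[(1,1),(1,1),(2,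
  2),(2,0),(0,0),(1,2),(3,3),(1,1)]⟩),(.r (-1) ⟨1,[(15,0),(18,1),(0,0)]⟩ ⟨9,[(1,1),(1,1),(2,2),(2,
  0),(0,0),(1,2),(3,3),(1,1)]⟩),(.r (-2) ⟨3,[(15,2),(0,0),(17,7),(0,3)]⟩ ⟨2,[(1,2),(1,0),(2,1),(2,
  0),(2,1),(5,2),(0,0)]⟩),.k,⟨true,1,⟨1,[(15,0),(18,1),(0,0)]⟩,⟨2,[(1,2),(4,1),(2,0),(2,1),(5,2),(0,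
  1),(14,1)]⟩⟩,⟨false,1,⟨1,[(8,0),(8,0),(16,0),(0,0)]⟩,⟨4,[(6,0),(0,1),(4,0),(5,4),(1,0),(2,0),(4,
  0)]⟩⟩,⟨false,0,⟨0,[]⟩,⟨3,[(15,0),(0,0),(19,1)]⟩⟩,⟨false,0,⟨82,[(1,60),(3,33),(0,1),(1,17),(0,26),
  (2,11),(3,10),(0,10),(6,19)]⟩,⟨1,[(7,1),(7,0),(2,1),(17,0)]⟩⟩,⟨true,0,⟨0,[(33,0)]⟩,⟨0,[(34,0)]⟩⟩,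
  ⟨false,0,⟨40,[(1,32),(1,5),(1,15),(0,13),(1,20),(0,10),(2,13),(3,3),(0,3)]⟩,⟨1,[(7,1),(7,0),(2,1),
  (15,1),(1,0)]⟩⟩,[.o ⟨false,0,⟨0,[(33,0)]⟩,⟨1,[(28,0),(5,1),(1,0)]⟩⟩,.o ⟨false,1,⟨19,[(8,3),(1,7),
  (4,6),(0,6),(11,1),(4,7)]⟩,⟨0,[(7,0)]⟩⟩,.a ⟨true,0,⟨0,[(18,0)]⟩,⟨1,[(17,0),(8,0),(0,0)]⟩⟩ ⟨false,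
  1,⟨3,[(15,2),(0,0)]⟩,⟨0,[(1,0),(16,0)]⟩⟩ ⟨true,0,⟨7,[(5,3),(3,1),(5,0),(0,0),(0,3),(15,1)]⟩,⟨0,
  [(7,0),(10,0)]⟩⟩,.o ⟨false,0,⟨4,[(6,0),(0,1),(4,0),(5,4),(1,0),(2,0),(4,0)]⟩,⟨7,[(15,0),(0,0),(0,
  3),(10,1),(6,3)]⟩⟩]⟩))))) (.I [0,1,1,0,-1,0,0,0,-1] (.R ⟨0,false,false,true,[0,0,0,1],[0,1],[0,1,
  1],(⟨0,[(15,0)]⟩,⟨1,[(14,0),(8,0),(0,0)]⟩),(⟨0,[(27,0)]⟩,⟨0,[(26,0)]⟩),⟨1,[(1,0),(8,0),(3,0)]⟩,.k,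
  .k,(.r (-1) ⟨1,[(13,0),(17,1),(0,0)]⟩ ⟨2,[(0,0),(6,1),(4,0),(17,0)]⟩),(.r (-1) ⟨1,[(13,0),(17,1),
  (0,0)]⟩ ⟨2,[(0,0),(6,1),(4,0),(17,0)]⟩),.k,.k,⟨true,0,⟨0,[(31,0)]⟩,⟨7,[(3,1),(3,1),(1,1),(2,0),(0,
  0),(16,1)]⟩⟩,⟨false,1,⟨0,[(15,0),(16,0)]⟩,⟨1,[(14,0),(2,0),(2,0)]⟩⟩,⟨true,(-1),⟨0,[(0,0)]⟩,⟨1,
  [(13,0),(18,0)]⟩⟩,⟨false,0,⟨0,[(0,0),(6,0),(7,0),(16,0)]⟩,⟨1,[(4,0),(8,0),(0,0),(16,0),(1,0)]⟩⟩,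
  ⟨false,0,⟨0,[]⟩,⟨0,[]⟩⟩,⟨false,0,⟨0,[]⟩,⟨0,[]⟩⟩,[.o ⟨false,0,⟨0,[(30,0)]⟩,⟨1,[(25,0),(5,1),(1,
  0)]⟩⟩,.o ⟨false,1,⟨19,[(5,3),(1,7),(4,6),(0,6),(11,1),(4,7)]⟩,⟨0,[(4,0)]⟩⟩,.a ⟨true,0,⟨1,[(14,0),
  (8,0),(0,0)]⟩,⟨0,[(15,0)]⟩⟩ ⟨false,0,⟨1,[(20,0),(0,0)]⟩,⟨1,[(32,0),(0,0)]⟩⟩ ⟨true,0,⟨0,[(15,0),
  (14,0)]⟩,⟨1,[(4,0),(9,0),(16,0)]⟩⟩,.o ⟨false,0,⟨1,[(14,0),(2,0),(2,0)]⟩,⟨1,[(15,1),(9,0),(6,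
  0)]⟩⟩]⟩) (.Q [0,1,0,0,0,0,0,0,-1,0,0,1] (.p true [0,0,0,1] [] (⟨0,[(15,0)]⟩,⟨1,[(14,0),(8,0),(0,
  0)]⟩) .k 0 (⟨0,[]⟩,⟨0,[]⟩) .k .k) (.I [0,0,1,1,0,0,0,0,-1] (.K ⟨2,[0,0,0,1],0,0,(⟨0,[(17,0)]⟩,⟨1,
  [(16,0),(8,0),(0,0)]⟩),.k,(.r (-1) ⟨1,[(15,0),(17,1),(0,0)]⟩ ⟨0,[(0,0)]⟩),(.r 0 ⟨2,[(2,2),(2,1),
  (2,0),(2,1),(6,1),(14,1)]⟩ ⟨1,[(14,0),(18,1),(0,0)]⟩),.k,.k,[⟨1,[(6,1),(1,0),(0,0),(1,0),(5,1),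
  (16,0)]⟩,⟨1,[(13,0),(2,0)]⟩,⟨1,[(17,1),(4,0),(0,0)]⟩,⟨1,[(16,0),(2,0),(2,0)]⟩,⟨0,[(1,0)]⟩,⟨5,[(2,
  5),(2,1),(0,2),(1,3),(2,1),(4,2),(1,7),(14,4)]⟩]⟩) (.K ⟨1,[0,0,0,1],0,0,(⟨0,[(17,0)]⟩,⟨1,[(16,0),
  (8,0),(0,0)]⟩),.k,(.x 0 ⟨4,[(5,0),(0,1),(4,0),(7,0),(2,0),(4,0),(0,4)]⟩ ⟨3,[(14,0),(0,0),(13,3),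
  (4,1)]⟩),(.r 0 ⟨3,[(0,0),(1,0),(2,1),(5,1),(3,0),(16,0)]⟩ ⟨0,[(0,0),(13,0)]⟩),.k,.k,[⟨1,[(17,1),
  (4,0),(0,0)]⟩,⟨1,[(16,0),(2,0),(2,0)]⟩,⟨0,[(1,0)]⟩,⟨1,[(0,1),(8,1),(6,0),(8,0),(0,0)]⟩]⟩)) (.R ⟨0,
  false,false,false,[0,0,0,1],[1,-1],[0,0,-1,-1],(⟨0,[(16,0)]⟩,⟨1,[(15,0),(8,0),(0,0)]⟩),(⟨0,[(27,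
  0)]⟩,⟨0,[(28,0)]⟩),⟨1,[(2,0),(8,0),(3,0)]⟩,.k,.k,(.x 0 ⟨4,[(4,0),(0,1),(4,0),(7,0),(2,0),(4,0),(0,
  4)]⟩ ⟨3,[(13,0),(0,0),(13,3),(4,1)]⟩),(.r 0 ⟨2,[(0,0),(3,0),(5,0),(3,0),(1,0),(14,0)]⟩ ⟨1,[(13,0),
  (18,1),(0,0)]⟩),.k,.k,⟨false,1,⟨3,[(13,0),(0,0),(18,1)]⟩,⟨0,[]⟩⟩,⟨true,0,⟨4,[(4,0),(0,1),(4,0),(5,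
  4),(1,0),(2,0),(4,0)]⟩,⟨1,[(15,0),(8,0),(0,0)]⟩⟩,⟨true,1,⟨1,[(13,0),(18,1),(0,0)]⟩,⟨2,[(0,2),(3,
  0),(2,1),(2,0),(5,2),(0,3),(14,0)]⟩⟩,⟨false,1,⟨1,[(5,1),(7,0),(2,1),(17,0)]⟩,⟨50,[(0,36),(2,21),
  (2,9),(0,16),(0,1),(1,5),(3,6),(0,6),(6,11)]⟩⟩,⟨false,0,⟨0,[]⟩,⟨0,[]⟩⟩,⟨false,0,⟨0,[]⟩,⟨0,[]⟩⟩,
  [.o ⟨false,0,⟨0,[(5,0)]⟩,⟨19,[(6,3),(1,7),(4,6),(0,6),(11,1),(4,7)]⟩⟩,.o ⟨false,1,⟨1,[(26,0),(5,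
  1),(1,0)]⟩,⟨0,[(31,0)]⟩⟩,.a ⟨true,0,⟨1,[(15,0),(8,0),(0,0)]⟩,⟨0,[(16,0)]⟩⟩ ⟨false,1,⟨1,[(32,1),(0,
  0),(0,0)]⟩,⟨7,[(4,1),(3,1),(1,1),(2,0),(0,0),(16,1)]⟩⟩ ⟨true,0,⟨0,[(5,0),(10,0)]⟩,⟨7,[(3,3),(3,1),
  (5,0),(0,0),(0,3),(15,1)]⟩⟩,.o ⟨false,0,⟨1,[(15,0),(2,0),(2,0)]⟩,⟨1,[(16,1),(9,0),(6,0)]⟩⟩]⟩))))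
  (.R ⟨2,true,false,false,[0,1],[0,0,1],[0,0,1],(⟨0,[]⟩,⟨0,[]⟩),(⟨0,[(22,0)]⟩,⟨0,[(21,0)]⟩),⟨0,[]⟩,
  .k,.k,.k,.k,.k,.k,⟨true,0,⟨3,[(7,1),(10,0),(0,0)]⟩,⟨0,[(20,0)]⟩⟩,⟨false,0,⟨1,[(2,1),(1,0),(0,0),
  (1,0),(22,0)]⟩,⟨0,[(19,0),(10,0)]⟩⟩,⟨true,0,⟨0,[(29,0)]⟩,⟨0,[(28,0)]⟩⟩,⟨false,0,⟨0,[(0,0)]⟩,⟨21,
  [(3,15),(1,4),(1,8),(6,3),(4,17),(3,5),(4,0)]⟩⟩,⟨false,1,⟨3,[(10,0),(0,0),(19,1)]⟩,⟨0,[]⟩⟩,⟨true,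
  0,⟨2,[(0,0),(3,0),(18,0)]⟩,⟨0,[(17,0)]⟩⟩,[]⟩)) (.K ⟨2,[-1,1,1],0,0,(⟨0,[(7,0)]⟩,⟨0,[(20,0),(2,
  0)]⟩),.k,.k,(.r 0 ⟨1,[(3,0),(0,1),(13,1),(3,0),(4,0)]⟩ ⟨1,[(0,0),(27,1),(0,0)]⟩),.k,(.r 0 ⟨0,[(5,
  0),(8,0),(4,0)]⟩ ⟨27,[(0,15),(1,3),(3,11),(2,2),(0,2),(11,1)]⟩),[⟨8,[(1,3),(1,0),(0,2),(8,1),(0,
  2),(2,2),(4,0)]⟩,⟨0,[(0,0),(2,0),(0,0)]⟩,⟨1,[(14,1),(2,0),(0,0)]⟩,⟨4,[(0,0),(2,1),(2,0),(1,0),(9,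
  0),(11,0)]⟩,⟨0,[(13,0),(14,0)]⟩,⟨3,[(3,1),(5,0),(0,0),(16,1)]⟩]⟩))) (.Q [0,-1,0,-1,0,0,1,1,0,0,
  -1] (.p false [0,0,1] [] (⟨0,[(19,0)]⟩,⟨0,[(18,0)]⟩) .k 0 (⟨0,[]⟩,⟨0,[]⟩) .k .k) (.R ⟨2,true,
  false,false,[0,1],[0,0,1],[0,0,1],(⟨0,[]⟩,⟨0,[]⟩),(⟨0,[(20,0)]⟩,⟨0,[(19,0)]⟩),⟨0,[]⟩,.k,.k,.k,.k,
  .k,.k,⟨true,0,⟨3,[(5,1),(10,0),(0,0)]⟩,⟨0,[(18,0)]⟩⟩,⟨false,0,⟨1,[(1,1),(0,0),(0,0),(1,0),(22,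
  2)]⟩,⟨0,[(17,0),(10,0)]⟩⟩,⟨true,0,⟨0,[(27,0)]⟩,⟨0,[(26,0)]⟩⟩,⟨false,0,⟨0,[(0,0)]⟩,⟨0,[(15,0),(10,
  0),(2,0)]⟩⟩,⟨false,1,⟨3,[(8,0),(0,0),(19,1)]⟩,⟨0,[]⟩⟩,⟨true,0,⟨2,[(0,0),(1,0),(18,0)]⟩,⟨0,[(15,
  0)]⟩⟩,[]⟩) (.Q [0,0,1,0,0,0,-2,0,0,-2,2] (.p true [0,0,1] [2,-1,-1] (⟨0,[(20,0)]⟩,⟨0,[(19,0)]⟩)
  .k 2 (⟨0,[(19,0),(2,0)]⟩,⟨0,[(6,0)]⟩) .k (.r 0 ⟨0,[(18,1)]⟩ ⟨3,[(5,3),(2,0),(0,0),(18,1)]⟩)) (.Q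
  [0,0,0,1,0,0,0,0,-1,0,0,1] (.p true [0,0,0,1] [] (⟨0,[(12,0)]⟩,⟨1,[(11,0),(8,0),(0,0)]⟩) .k 0 (⟨0,
  []⟩,⟨0,[]⟩) .k .k) (.I [1,1,0,0,0,0,0,0,1] (.I [0,0,1,1,0,0,0,0,1] (.K ⟨2,[1,0,0,-1],0,0,(⟨1,[(14,
  0),(8,0),(0,0)]⟩,⟨0,[(15,0)]⟩),.k,(.r (-1) ⟨1,[(12,0),(18,1),(0,0)]⟩ ⟨0,[(0,0)]⟩),(.r 0 ⟨21,[(2,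
  7),(1,1),(0,5),(0,0),(0,9),(4,6),(1,3),(15,6)]⟩ ⟨1,[(13,0),(17,1),(0,0)]⟩),.k,.k,[⟨1,[(11,0),(2,
  0)]⟩,⟨1,[(5,1),(0,0),(0,0),(1,0),(5,1),(16,2)]⟩,⟨1,[(11,0),(2,0),(6,1)]⟩,⟨7,[(0,0),(1,0),(0,0),(1,
  1),(9,6),(4,1),(4,1)]⟩,⟨1,[(1,1),(12,0),(8,0),(0,0)]⟩,⟨7,[(2,5),(2,5),(6,0),(2,1),(9,0),(2,3),(3,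
  3)]⟩]⟩) (.K ⟨1,[1,0,0,-1],0,0,(⟨1,[(14,0),(8,0),(0,0)]⟩,⟨0,[(15,0)]⟩),.k,(.x 0 ⟨7,[(3,0),(1,1),(1,
  0),(12,1),(4,1),(0,7),(3,0)]⟩ ⟨3,[(12,0),(0,0),(13,3),(4,1)]⟩),(.r 0 ⟨21,[(2,7),(1,1),(0,5),(0,0),
  (0,9),(4,6),(1,3),(15,6)]⟩ ⟨0,[(0,0),(12,0)]⟩),.k,.k,[⟨1,[(11,0),(2,0),(6,1)]⟩,⟨3,[(2,1),(2,1),(7,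
  0),(1,1),(9,0)]⟩,⟨1,[(1,1),(12,0),(8,0),(0,0)]⟩,⟨0,[(0,0),(6,0),(7,0)]⟩]⟩)) (.Q [0,0,0,0,0,1,0,0,
  0,0,0,-1] (.p false [0,0,0,1] [] (⟨0,[(14,0)]⟩,⟨1,[(13,0),(8,0),(0,0)]⟩) .k 0 (⟨0,[]⟩,⟨0,[]⟩) .k
  .k) (.R ⟨0,false,false,true,[0,0,0,1],[0,1],[1,1,1,1],(⟨0,[(15,0)]⟩,⟨1,[(14,0),(8,0),(0,0)]⟩),(⟨0,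
  [(27,0)]⟩,⟨0,[(26,0)]⟩),⟨0,[(0,0)]⟩,.k,.k,(.r (-1) ⟨1,[(13,0),(17,1),(0,0)]⟩ ⟨21,[(2,7),(1,1),(0,
  5),(0,0),(0,9),(4,6),(1,3),(15,6)]⟩),(.r (-1) ⟨1,[(13,0),(17,1),(0,0)]⟩ ⟨21,[(2,7),(1,1),(0,5),(0,
  0),(0,9),(4,6),(1,3),(15,6)]⟩),.k,.k,⟨true,0,⟨0,[]⟩,⟨1,[(20,0),(0,0)]⟩⟩,⟨false,1,⟨0,[(15,0),(16,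
  0)]⟩,⟨7,[(3,1),(10,3),(5,4),(0,0)]⟩⟩,⟨true,(-1),⟨1,[(1,1),(2,0),(0,0),(0,0),(9,0),(13,0)]⟩,⟨1,
  [(13,0),(17,1),(0,0)]⟩⟩,⟨false,0,⟨0,[(2,0)]⟩,⟨1,[(5,0),(7,0),(0,0),(16,0),(0,0),(0,0)]⟩⟩,⟨false,0,
  ⟨0,[]⟩,⟨0,[]⟩⟩,⟨false,0,⟨0,[]⟩,⟨0,[]⟩⟩,[.o ⟨false,0,⟨0,[(30,0)]⟩,⟨1,[(25,0),(5,1),(1,0)]⟩⟩,.o
  ⟨false,1,⟨3,[(12,0),(0,0),(16,3),(2,1)]⟩,⟨0,[(5,0),(26,0)]⟩⟩,.a ⟨true,0,⟨1,[(14,0),(8,0),(0,0)]⟩,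
  ⟨0,[(15,0)]⟩⟩ ⟨false,0,⟨3,[(7,1),(12,0),(0,0),(8,1)]⟩,⟨1,[(31,1),(0,0),(0,0)]⟩⟩ ⟨true,0,⟨0,[(15,
  0),(14,0)]⟩,⟨1,[(5,0),(8,0),(16,0),(0,0)]⟩⟩,.o ⟨false,0,⟨7,[(3,1),(10,3),(5,4),(0,0)]⟩,⟨1,[(15,1),
  (9,0),(6,0)]⟩⟩]⟩) (.R ⟨1,false,false,true,[0,0,0,1],[0,1],[1,1,0,0,0,0,0,0,1],(⟨0,[(15,0)]⟩,⟨1,
  [(14,0),(8,0),(0,0)]⟩),(⟨0,[(27,0)]⟩,⟨0,[(26,0)]⟩),⟨0,[(0,0)]⟩,.k,.k,(.r (-1) ⟨1,[(13,0),(17,1),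
  (0,0)]⟩ ⟨21,[(2,7),(1,1),(0,5),(0,0),(0,9),(4,6),(1,3),(15,6)]⟩),(.r (-1) ⟨1,[(13,0),(17,1),(0,
  0)]⟩ ⟨21,[(2,7),(1,1),(0,5),(0,0),(0,9),(4,6),(1,3),(15,6)]⟩),(.r (-2) ⟨3,[(12,0),(0,2),(17,7),(0,
  3)]⟩ ⟨1,[(1,1),(2,0),(0,0),(0,0),(0,1),(8,0),(13,0)]⟩),.k,⟨true,1,⟨1,[(13,0),(17,1),(0,0)]⟩,⟨4,
  [(1,0),(0,3),(1,1),(0,3),(0,0),(0,1),(6,1)]⟩⟩,⟨false,1,⟨0,[(15,0),(16,0)]⟩,⟨7,[(3,1),(10,3),(5,4),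
  (0,0)]⟩⟩,⟨false,0,⟨0,[]⟩,⟨3,[(12,0),(0,0),(19,1)]⟩⟩,⟨false,0,⟨0,[(2,0)]⟩,⟨1,[(5,0),(7,0),(0,0),
  (16,0),(0,0),(0,0)]⟩⟩,⟨true,0,⟨0,[(30,0)]⟩,⟨0,[(31,0)]⟩⟩,⟨false,0,⟨1,[(1,0),(0,0),(3,0),(0,1),(7,
  0),(0,1),(15,0)]⟩,⟨1,[(5,0),(7,0),(0,0),(16,2),(0,0),(0,0)]⟩⟩,[.o ⟨false,0,⟨0,[(30,0)]⟩,⟨1,[(25,
  0),(5,1),(1,0)]⟩⟩,.o ⟨false,1,⟨3,[(12,0),(0,0),(16,3),(2,1)]⟩,⟨0,[(5,0),(26,0)]⟩⟩,.a ⟨true,0,⟨1,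
  [(14,0),(8,0),(0,0)]⟩,⟨0,[(15,0)]⟩⟩ ⟨false,1,⟨3,[(12,0),(0,2)]⟩,⟨0,[(1,0)]⟩⟩ ⟨true,0,⟨0,[(15,0),
  (14,0)]⟩,⟨1,[(5,0),(8,0),(16,0),(0,0)]⟩⟩,.o ⟨false,0,⟨7,[(3,1),(10,3),(5,4),(0,0)]⟩,⟨1,[(15,1),(9,
  0),(6,0)]⟩⟩]⟩))) (.Q [0,1,0,0,0,0,0,0,-1,0,0,1] (.p true [0,0,0,1] [] (⟨0,[(13,0)]⟩,⟨1,[(12,0),(8,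
  0),(0,0)]⟩) .k 0 (⟨0,[]⟩,⟨0,[]⟩) .k .k) (.K ⟨2,[0,0,0,1],0,0,(⟨0,[(14,0)]⟩,⟨1,[(13,0),(8,0),(0,
  0)]⟩),.k,(.x 0 ⟨7,[(2,0),(1,1),(1,0),(12,1),(4,1),(0,7),(3,0)]⟩ ⟨3,[(11,0),(0,0),(13,3),(4,1)]⟩),
  (.r 0 ⟨2,[(1,0),(3,0),(0,2),(5,0),(1,0),(0,1)]⟩ ⟨1,[(11,0),(18,1),(0,0)]⟩),.k,.k,[⟨1,[(4,1),(0,0),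
  (0,0),(1,0),(5,1),(16,2)]⟩,⟨1,[(10,0),(2,0)]⟩,⟨1,[(14,1),(4,0),(0,0)]⟩,⟨7,[(2,1),(10,3),(5,4),(0,
  0)]⟩,⟨0,[(0,0)]⟩,⟨0,[(1,0),(27,0)]⟩]⟩) (.Q [0,0,0,0,0,-1,0,0,0,1,0,-1] (.p false [0,0,0,1] [1]
  (⟨0,[(14,0)]⟩,⟨1,[(13,0),(8,0),(0,0)]⟩) .k 1 (⟨0,[]⟩,⟨0,[]⟩) .k .k) (.R ⟨1,false,false,true,[1,0,
  0,-1],[0,1],[1,1,0,0,0,0,0,0,-1],(⟨1,[(14,0),(8,0),(0,0)]⟩,⟨0,[(15,0)]⟩),(⟨0,[(27,0)]⟩,⟨0,[(26,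
  0)]⟩),⟨0,[(0,0)]⟩,.k,.k,(.r (-1) ⟨1,[(12,0),(18,1),(0,0)]⟩ ⟨7,[(1,1),(2,1),(0,1),(0,0),(0,3),(5,
  2),(1,1),(14,2)]⟩),(.r (-1) ⟨1,[(12,0),(18,1),(0,0)]⟩ ⟨7,[(1,1),(2,1),(0,1),(0,0),(0,3),(5,2),(1,
  1),(14,2)]⟩),(.r (-2) ⟨3,[(12,2),(0,0),(17,7),(0,3)]⟩ ⟨1,[(1,1),(2,0),(0,0),(0,0),(0,1),(7,1),(0,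
  0),(13,0)]⟩),.k,⟨true,1,⟨1,[(12,0),(18,1),(0,0)]⟩,⟨7,[(1,5),(2,5),(0,5),(0,2),(0,3),(5,0),(1,5),
  (14,0)]⟩⟩,⟨false,1,⟨1,[(14,0),(8,0),(0,0),(7,1)]⟩,⟨7,[(3,0),(1,1),(1,0),(7,7),(4,1),(4,1),(4,
  0)]⟩⟩,⟨false,0,⟨0,[]⟩,⟨3,[(12,0),(0,0),(19,1)]⟩⟩,⟨false,0,⟨5,[(1,3),(2,3),(1,1),(6,0),(0,0),(8,0),
  (0,0),(8,0)]⟩,⟨1,[(5,1),(6,0),(2,1),(16,1),(0,0)]⟩⟩,⟨true,0,⟨0,[(30,0)]⟩,⟨0,[(31,0)]⟩⟩,⟨false,0,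
  ⟨0,[(1,0),(2,0),(3,0)]⟩,⟨1,[(5,1),(6,0),(2,1),(15,1),(0,1),(0,0)]⟩⟩,[.o ⟨false,0,⟨0,[(30,0)]⟩,⟨1,
  [(25,0),(5,1),(1,0)]⟩⟩,.o ⟨false,1,⟨3,[(12,0),(0,0),(16,3),(2,1)]⟩,⟨0,[(5,0),(26,0)]⟩⟩,.a ⟨true,0,
  ⟨0,[(15,0)]⟩,⟨1,[(14,0),(8,0),(0,0)]⟩⟩ ⟨false,1,⟨3,[(12,2),(0,0)]⟩,⟨0,[(1,0),(13,0)]⟩⟩ ⟨true,0,⟨7,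
  [(4,3),(1,1),(5,0),(0,0),(0,3),(15,1)]⟩,⟨0,[(5,0),(9,0),(16,0)]⟩⟩,.o ⟨false,0,⟨7,[(3,0),(1,1),(1,
  0),(7,7),(4,1),(4,1),(4,0)]⟩,⟨7,[(12,0),(0,0),(0,3),(10,1),(6,3)]⟩⟩]⟩) (.R ⟨0,false,false,true,[1,
  0,0,-1],[0,1],[1,1,1,1],(⟨1,[(14,0),(8,0),(0,0)]⟩,⟨0,[(15,0)]⟩),(⟨0,[(27,0)]⟩,⟨0,[(26,0)]⟩),⟨0,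
  [(0,0)]⟩,.k,.k,(.r (-1) ⟨1,[(12,0),(18,1),(0,0)]⟩ ⟨7,[(1,1),(2,1),(0,1),(0,0),(0,3),(5,2),(1,1),
  (14,2)]⟩),(.r (-1) ⟨1,[(12,0),(18,1),(0,0)]⟩ ⟨7,[(1,1),(2,1),(0,1),(0,0),(0,3),(5,2),(1,1),(14,
  2)]⟩),.k,.k,⟨true,0,⟨0,[]⟩,⟨1,[(20,0),(0,0)]⟩⟩,⟨false,1,⟨1,[(14,0),(8,0),(0,0),(7,1)]⟩,⟨7,[(3,0),
  (1,1),(1,0),(7,7),(4,1),(4,1),(4,0)]⟩⟩,⟨true,(-1),⟨1,[(1,1),(2,0),(0,0),(0,0),(8,1),(0,0),(13,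
  0)]⟩,⟨1,[(12,0),(18,1),(0,0)]⟩⟩,⟨false,0,⟨5,[(1,3),(2,3),(1,1),(6,0),(0,0),(8,0),(0,0),(8,0)]⟩,⟨1,
  [(5,1),(6,0),(2,1),(16,1),(0,0)]⟩⟩,⟨false,0,⟨0,[]⟩,⟨0,[]⟩⟩,⟨false,0,⟨0,[]⟩,⟨0,[]⟩⟩,[.o ⟨false,0,
  ⟨0,[(30,0)]⟩,⟨1,[(25,0),(5,1),(1,0)]⟩⟩,.o ⟨false,1,⟨3,[(12,0),(0,0),(16,3),(2,1)]⟩,⟨0,[(5,0),(26,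
  0)]⟩⟩,.a ⟨true,0,⟨0,[(15,0)]⟩,⟨1,[(14,0),(8,0),(0,0)]⟩⟩ ⟨false,0,⟨3,[(7,1),(12,0),(0,0),(8,1)]⟩,
  ⟨1,[(31,1),(0,0),(0,0)]⟩⟩ ⟨true,0,⟨7,[(4,3),(1,1),(5,0),(0,0),(0,3),(15,1)]⟩,⟨0,[(5,0),(9,0),(16,
  0)]⟩⟩,.o ⟨false,0,⟨7,[(3,0),(1,1),(1,0),(7,7),(4,1),(4,1),(4,0)]⟩,⟨7,[(12,0),(0,0),(0,3),(10,1),
  (6,3)]⟩⟩]⟩)))) (.K ⟨2,[-1,1,1],0,0,(⟨0,[(7,0)]⟩,⟨0,[(20,0),(2,0)]⟩),.k,.k,(.x (-1) ⟨7,[(0,3),(6,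
  7),(1,0),(0,0),(13,7),(4,5)]⟩ ⟨1,[(2,1),(1,1),(8,1),(5,1),(0,1),(1,0),(0,3),(5,0)]⟩),.k,(.r 0 ⟨0,
  [(5,0),(8,0),(4,0)]⟩ ⟨0,[(6,0),(21,0),(0,0)]⟩),[⟨6,[(2,1),(1,0),(9,0),(2,0),(4,1),(4,0)]⟩,⟨0,[(0,
  0)]⟩,⟨1,[(14,1),(2,0),(0,0)]⟩,⟨3,[(0,1),(16,0),(0,0)]⟩,⟨0,[(13,0),(14,0)]⟩,⟨3,[(3,1),(5,0),(0,0),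
  (16,1)]⟩]⟩)))))

theorem ok2 : chk (cU (-1) false 10) t2 r3 = true := by decide +kernel

noncomputable def t3 : Tre :=
  .I [0,1,-1,-1] t1 t2

theorem ok3 : chk (cU (-1) false 10) t3 l2 = true :=
  chk_I (e' := [1,-1,1,1]) (by decide +kernel) (by decide +kernel) ok1 ok2

noncomputable def t4 : Tre :=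
  (.R ⟨2,true,false,false,[0,1],[1,0,-1],[1,1,1,1],(⟨0,[]⟩,⟨0,[]⟩),(⟨0,[(15,0)]⟩,⟨0,[(16,0)]⟩),⟨0,
  []⟩,.k,.k,.k,.k,.k,.k,⟨false,0,⟨0,[(14,0),(7,0)]⟩,⟨1,[(0,1),(2,0),(11,0),(0,0),(7,0),(0,0)]⟩⟩,
  ⟨true,0,⟨0,[(9,0)]⟩,⟨1,[(3,0),(11,0),(0,0)]⟩⟩,⟨false,0,⟨0,[]⟩,⟨3,[(4,0),(0,0),(19,1)]⟩⟩,⟨true,0,
  ⟨0,[(0,0)]⟩,⟨1,[(3,0),(10,1),(0,0),(0,0),(5,1)]⟩⟩,⟨true,0,⟨0,[(22,0)]⟩,⟨0,[(23,0)]⟩⟩,⟨false,1,⟨0,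
  [(8,0),(16,0)]⟩,⟨1,[(3,0),(10,1),(0,0),(0,0)]⟩⟩,[]⟩)

theorem ok4 : chk (cU (-1) false 10) t4 r2 = true := by decide +kernel

noncomputable def t5 : Tre :=
  .Q [0,0,0,1,0,0,1,1,0,1,-1] (.p false [0,0,1] [1] (⟨0,[(15,0)]⟩,⟨0,[(14,0)]⟩) .k 1 (⟨0,[]⟩,⟨0,
  []⟩) .k .k) t3 t4

theorem ok5 : chk (cU (-1) false 10) t5 r1 = true :=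
  chk_Q (e' := [0,0,0,-1,0,0,-1,-1,0,-1,1]) (by decide +kernel) (by decide +kernel) ok3 ok4

noncomputable def t6 : Tre :=
  .I [1,0,-1,0,0,0,0,2] t0 t5

theorem ok6 : chk (cU (-1) false 10) t6 l0 = true :=
  chk_I (e' := [0,0,1,0,0,0,0,-2]) (by decide +kernel) (by decide +kernel) ok0 ok5

noncomputable def l4 : List Con := (false, [0,0,1,1,0,0,1,0,0,0,-1]) :: r0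

noncomputable def r4 : List Con := (false, [0,0,-1,-1,0,0,-1,0,0,0,1]) :: r0

noncomputable def l5 : List Con := (false, [0,-1,0,-2,0,0,0,0,0,-1]) :: l4

noncomputable def r5 : List Con := (false, [0,1,0,2,0,0,0,0,0,1]) :: l4

noncomputable def t7 : Tre :=
  (.I [0,0,-1,-2] (.R ⟨2,true,false,false,[0,1],[1,-1],[1,0,1,1],(⟨0,[]⟩,⟨0,[]⟩),(⟨0,[(19,0)]⟩,⟨0,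
  [(20,0)]⟩),⟨0,[]⟩,.k,.k,.k,(.r 0 ⟨0,[(22,1),(0,1)]⟩ ⟨3,[(0,3),(4,0),(0,0),(18,1)]⟩),.k,.k,⟨true,0,
  ⟨0,[(22,1),(0,1)]⟩,⟨0,[(0,0)]⟩⟩,⟨false,0,⟨1,[(1,0),(0,0),(7,0),(12,0)]⟩,⟨0,[(16,0),(0,0),(7,0)]⟩⟩,
  ⟨true,0,⟨0,[]⟩,⟨0,[(28,0)]⟩⟩,⟨false,0,⟨0,[(1,0)]⟩,⟨0,[(16,0),(0,0),(5,1),(2,0)]⟩⟩,⟨false,1,⟨0,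
  [(23,0),(2,0)]⟩,⟨0,[(24,0)]⟩⟩,⟨true,0,⟨0,[(1,0),(21,0)]⟩,⟨0,[(16,0),(0,0),(5,0)]⟩⟩,[]⟩) (.Q [0,0,
  0,0,0,0,1,0,0,0,-1] (.p false [0,0,1] [] (⟨0,[(17,0)]⟩,⟨0,[(16,0)]⟩) .k 0 (⟨0,[]⟩,⟨0,[]⟩) .k .k)
  (.Q [0,-1,0,-1,0,0,1,1,0,0,-1] (.p false [0,0,1] [] (⟨0,[(18,0)]⟩,⟨0,[(17,0)]⟩) .k 0 (⟨0,[]⟩,⟨0,
  []⟩) .k .k) (.R ⟨2,true,false,false,[0,1],[0,0,1],[0,0,1],(⟨0,[]⟩,⟨0,[]⟩),(⟨0,[(19,0)]⟩,⟨0,[(18,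
  0)]⟩),⟨0,[]⟩,.k,.k,.k,.k,.k,.k,⟨true,0,⟨1,[(6,0),(4,0),(2,0),(9,1)]⟩,⟨0,[(17,0)]⟩⟩,⟨false,0,⟨0,
  [(1,0)]⟩,⟨0,[(16,0),(10,0)]⟩⟩,⟨true,0,⟨0,[(26,0)]⟩,⟨0,[(25,0)]⟩⟩,⟨false,0,⟨0,[(0,0)]⟩,⟨7,[(2,3),
  (4,0),(0,0),(5,7),(12,1),(0,3)]⟩⟩,⟨false,1,⟨3,[(7,0),(0,0),(19,1)]⟩,⟨0,[]⟩⟩,⟨true,0,⟨0,[(0,0),(24,
  0)]⟩,⟨0,[(14,0)]⟩⟩,[]⟩) (.R ⟨2,true,false,false,[0,1],[1,0,-1],[1,1,1,1],(⟨0,[]⟩,⟨0,[]⟩),(⟨0,[(18,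
  0)]⟩,⟨0,[(19,0)]⟩),⟨0,[]⟩,.k,.k,.k,.k,.k,.k,⟨false,0,⟨0,[(17,0),(7,0)]⟩,⟨1,[(0,1),(2,1),(2,0),(11,
  0),(0,0),(7,0),(0,0)]⟩⟩,⟨true,0,⟨0,[(12,0)]⟩,⟨1,[(6,0),(11,0),(0,0)]⟩⟩,⟨false,0,⟨0,[]⟩,⟨3,[(7,0),
  (0,0),(19,1)]⟩⟩,⟨true,0,⟨0,[(0,0),(2,0)]⟩,⟨1,[(6,0),(10,1),(0,0),(0,0),(5,1)]⟩⟩,⟨true,0,⟨0,[(25,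
  0)]⟩,⟨0,[(26,0)]⟩⟩,⟨false,1,⟨0,[(11,0),(16,0)]⟩,⟨1,[(6,0),(10,1),(0,0),(0,0)]⟩⟩,[]⟩)) (.K ⟨0,[1,
  -1,-1],0,0,(⟨0,[(4,0)]⟩,⟨0,[(18,0),(2,0)]⟩),.k,(.r (-1) ⟨1,[(2,1),(2,0),(7,1),(3,0),(0,0),(7,1)]⟩
  ⟨1,[(1,1),(12,0),(0,0),(0,1)]⟩),.k,.k,.k,[⟨1,[(5,0),(11,0),(0,0)]⟩,⟨0,[(0,0)]⟩,⟨1,[(5,0),(10,1),
  (0,0),(0,0),(5,1)]⟩,⟨1,[(2,0),(7,0),(2,0),(15,0)]⟩]⟩)))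

theorem ok7 : chk (cU (-1) false 10) t7 l5 = true := by decide +kernel

noncomputable def l6 : List Con := (false, [0,0,1,0,0,0,0,0,0,-1]) :: r5

noncomputable def r6 : List Con := (false, [0,0,-1,0,0,0,0,0,0,1]) :: r5

noncomputable def l7 : List Con := (false, [0,0,0,1,0,0,2,1,0,1,-2]) :: l6

noncomputable def r7 : List Con := (false, [0,0,0,-1,0,0,-2,-1,0,-1,2]) :: l6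

noncomputable def l8 : List Con := (true, [1,-1,2,2,0,0,0,1]) :: l7

noncomputable def r8 : List Con := (true, [0,1,-2,-2,0,0,0,-1]) :: l7

noncomputable def l9 : List Con := (false, [0,1,0,-1,0,0,-2,-1,0,-1,2]) :: l8

noncomputable def r9 : List Con := (false, [0,-1,0,1,0,0,2,1,0,1,-2]) :: l8

noncomputable def l10 : List Con := (false, [0,1,0,-1,0,0,0,0,0,-1]) :: l9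

noncomputable def r10 : List Con := (false, [0,-1,0,1,0,0,0,0,0,1]) :: l9

noncomputable def l11 : List Con := (true, [1,-1,2,2]) :: l10

noncomputable def r11 : List Con := (true, [0,1,-2,-2]) :: l10

noncomputable def l12 : List Con := (false, [0,1,0,0,0,0,-2,-1,0,-1,2]) :: l11

noncomputable def r12 : List Con := (false, [0,-1,0,0,0,0,2,1,0,1,-2]) :: l11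

noncomputable def t8 : Tre :=
  (.Q [0,0,0,0,0,2,0,0,0,-1] (.pp true [-1,1]) (.Q [0,0,0,0,0,0,-1,0,0,0,1] (.p true [0,0,1] [] (⟨0,
  [(24,0)]⟩,⟨0,[(23,0)]⟩) .k 0 (⟨0,[]⟩,⟨0,[]⟩) .k .k) (.K ⟨0,[1,-1,-1],0,0,(⟨0,[(11,0)]⟩,⟨0,[(25,0),
  (2,0)]⟩),.k,(.x 0 ⟨0,[(8,0),(2,0),(6,0),(8,0)]⟩ ⟨1,[(1,0),(10,0),(12,1),(2,1),(4,1)]⟩),.k,.k,.k,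
  [⟨1,[(12,0),(11,0),(0,0)]⟩,⟨0,[(0,0)]⟩,⟨4,[(7,0),(1,1),(9,2),(3,0),(0,1),(0,1)]⟩,⟨0,[(17,0),(14,
  0)]⟩]⟩) (.Q [0,0,0,1,0,0,0,0,0,1] (.pp false [-1,1]) (.R ⟨0,false,false,false,[0,0,1],[1,-1],[0,
  1],(⟨0,[(26,0)]⟩,⟨0,[(25,0)]⟩),(⟨0,[(28,0)]⟩,⟨0,[(29,0)]⟩),⟨0,[(2,0),(9,0)]⟩,.k,.k,.k,.k,.k,.k,
  ⟨false,0,⟨0,[(32,0)]⟩,⟨1,[(33,1),(0,0),(0,0)]⟩⟩,⟨true,0,⟨0,[(19,0)]⟩,⟨1,[(0,0),(12,0),(19,0)]⟩⟩,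
  ⟨true,0,⟨1,[(13,0),(4,0),(2,0)]⟩,⟨0,[(24,0)]⟩⟩,⟨false,1,⟨0,[(18,0),(14,0),(1,0)]⟩,⟨1,[(0,0),(7,0),
  (15,0)]⟩⟩,⟨false,0,⟨0,[]⟩,⟨0,[]⟩⟩,⟨false,0,⟨0,[]⟩,⟨0,[]⟩⟩,[.a ⟨true,0,⟨0,[(33,0)]⟩,⟨0,[(0,0)]⟩⟩
  ⟨true,0,⟨0,[(37,0)]⟩,⟨0,[(31,0)]⟩⟩ ⟨false,1,⟨1,[(5,0),(0,0),(17,0),(9,0),(0,0)]⟩,⟨0,[(0,0),(0,
  0)]⟩⟩,.o ⟨false,1,⟨0,[(5,0),(29,0)]⟩,⟨0,[(32,0)]⟩⟩,.o ⟨false,0,⟨0,[(1,0)]⟩,⟨1,[(23,1),(3,0),(6,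
  0)]⟩⟩,.o ⟨false,0,⟨0,[(22,0)]⟩,⟨3,[(3,1),(20,1),(2,0),(6,1),(0,0)]⟩⟩]⟩) (.Q [0,0,0,0,0,0,-1,0,0,1,
  1] (.p true [1,-1,1] [] (⟨0,[(26,0),(1,0)]⟩,⟨0,[(2,0),(9,0)]⟩) .k 0 (⟨0,[]⟩,⟨0,[]⟩) .k .k) (.R ⟨0,
  false,false,false,[0,1,-1],[1,0,-1],[0,1,1,0,0,0,0,-1],(⟨0,[(3,0),(9,0)]⟩,⟨0,[(27,0),(1,0)]⟩),(⟨0,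
  [(26,0)]⟩,⟨0,[(27,0)]⟩),⟨0,[(27,0)]⟩,.k,.k,.k,.k,.k,.k,⟨false,0,⟨0,[(38,0)]⟩,⟨1,[(35,0),(0,0)]⟩⟩,
  ⟨true,0,⟨0,[(10,0)]⟩,⟨2,[(0,1),(13,0)]⟩⟩,⟨false,0,⟨0,[(34,0)]⟩,⟨3,[(11,1),(16,0),(7,2)]⟩⟩,⟨true,0,
  ⟨0,[(1,0)]⟩,⟨5,[(0,1),(10,2),(2,0),(23,2)]⟩⟩,⟨false,0,⟨0,[]⟩,⟨0,[]⟩⟩,⟨false,0,⟨0,[]⟩,⟨0,[]⟩⟩,[.o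
  ⟨false,1,⟨1,[(22,1),(5,0),(7,0)]⟩,⟨1,[(1,0),(7,0),(15,0)]⟩⟩,.o ⟨false,1,⟨0,[(19,0),(16,0)]⟩,⟨0,
  [(21,0)]⟩⟩,.o ⟨false,1,⟨1,[(0,1),(27,0),(6,0)]⟩,⟨0,[(1,0),(10,0)]⟩⟩,.a ⟨true,0,⟨0,[(0,0)]⟩,⟨0,[(2,
  0)]⟩⟩ ⟨true,0,⟨1,[(14,0),(4,0),(2,0)]⟩,⟨0,[(25,0)]⟩⟩ ⟨false,1,⟨0,[(2,0),(16,0),(16,0)]⟩,⟨2,[(0,1),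
  (8,0),(15,1),(8,0)]⟩⟩]⟩) (.Q [0,0,0,-1,0,0,-1,-1,0,0,1] (.p true [0,0,1] [] (⟨0,[(27,0)]⟩,⟨0,[(26,
  0)]⟩) .k 0 (⟨0,[]⟩,⟨0,[]⟩) .k .k) (.R ⟨2,true,false,true,[0,1],[0,1,1],[0,0,1],(⟨0,[]⟩,⟨0,[]⟩),
  (⟨0,[(28,0),(2,0)]⟩,⟨0,[(14,0)]⟩),⟨0,[]⟩,.k,.k,.k,.k,.k,.k,⟨false,1,⟨5,[(0,5),(0,1),(13,1),(20,2),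
  (0,2)]⟩,⟨0,[(26,0),(7,0)]⟩⟩,⟨true,0,⟨0,[(3,0)]⟩,⟨0,[(25,0)]⟩⟩,⟨true,0,⟨0,[(35,0)]⟩,⟨0,[(34,0)]⟩⟩,
  ⟨false,0,⟨1,[(2,0),(7,0),(15,0)]⟩,⟨0,[(23,0),(13,0)]⟩⟩,⟨false,1,⟨3,[(16,0),(0,0),(19,1)]⟩,⟨0,[]⟩⟩,
  ⟨true,0,⟨3,[(1,0),(8,0),(11,0),(3,1),(7,2)]⟩,⟨0,[(0,0)]⟩⟩,[]⟩) (.Q [0,-1,0,-1,0,0,1,1,0,0,-1] (.p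
  false [0,0,1] [] (⟨0,[(28,0)]⟩,⟨0,[(27,0)]⟩) .k 0 (⟨0,[]⟩,⟨0,[]⟩) .k .k) (.R ⟨2,true,false,false,
  [0,1],[0,0,1],[0,0,1],(⟨0,[]⟩,⟨0,[]⟩),(⟨0,[(29,0)]⟩,⟨0,[(28,0)]⟩),⟨0,[]⟩,.k,.k,.k,.k,.k,.k,⟨true,
  0,⟨1,[(16,0),(4,0),(2,0),(9,1)]⟩,⟨0,[(27,0)]⟩⟩,⟨false,0,⟨0,[(4,0)]⟩,⟨0,[(26,0),(10,0)]⟩⟩,⟨true,0,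
  ⟨0,[(36,0)]⟩,⟨0,[(35,0)]⟩⟩,⟨false,0,⟨0,[(0,0)]⟩,⟨3,[(13,1),(10,3),(5,0),(7,2)]⟩⟩,⟨false,1,⟨3,[(17,
  0),(0,0),(19,1)]⟩,⟨0,[]⟩⟩,⟨true,0,⟨2,[(0,0),(0,0),(21,0)]⟩,⟨0,[(24,0)]⟩⟩,[]⟩) (.I [0,0,1,1,0,0,0,
  0,1] (.I [1,0,1,1,0,0,0,0,-1] (.I [0,1,-1,0,0,0,0,-1,-1] (.Q [0,1,0,0,0,0,0,0,1,0,0,-1] (.p false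
  [0,0,0,1] [] (⟨0,[(23,0)]⟩,⟨1,[(22,0),(8,0),(0,0)]⟩) .k 0 (⟨0,[]⟩,⟨0,[]⟩) .k .k) (.K ⟨2,[0,0,0,1],
  0,0,(⟨0,[(24,0)]⟩,⟨1,[(23,0),(8,0),(0,0)]⟩),.k,(.r (-1) ⟨1,[(22,0),(17,1),(0,0)]⟩ ⟨0,[(1,1),(1,0),
  (27,1),(6,1)]⟩),(.r 0 ⟨0,[(3,0)]⟩ ⟨1,[(21,0),(18,1),(0,0)]⟩),.k,.k,[⟨2,[(6,0),(13,0),(3,2)]⟩,⟨1,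
  [(20,0),(2,0)]⟩,⟨1,[(24,1),(4,0),(0,0)]⟩,⟨1,[(23,0),(2,0),(2,0)]⟩,⟨2,[(1,0),(0,1),(21,2),(6,0),(5,
  0),(2,1)]⟩,⟨0,[(0,0)]⟩]⟩) (.R ⟨0,false,false,true,[0,0,0,1],[1,-1,-1],[1,0,0,-1,0,0,0,0,1],(⟨0,
  [(24,0)]⟩,⟨1,[(23,0),(8,0),(0,0)]⟩),(⟨0,[(19,0)]⟩,⟨0,[(33,0),(2,0)]⟩),⟨1,[(9,0),(13,0)]⟩,.k,.k,
  (.r (-1) ⟨1,[(22,0),(17,1),(0,0)]⟩ ⟨0,[(0,1),(2,0),(2,3),(3,1),(8,4),(3,0),(7,1),(1,4),(2,4)]⟩),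
  (.r 0 ⟨0,[(3,0),(27,0)]⟩ ⟨3,[(1,1),(11,1),(6,1),(0,0),(18,1),(0,0),(0,1)]⟩),.k,.k,⟨false,1,⟨1,
  [(22,0),(8,1),(10,0)]⟩,⟨0,[(1,0)]⟩⟩,⟨true,0,⟨0,[(24,0),(1,0)]⟩,⟨1,[(20,0),(2,0)]⟩⟩,⟨true,0,⟨0,
  [(40,0)]⟩,⟨0,[(39,0)]⟩⟩,⟨false,0,⟨2,[(0,2),(6,0),(5,1),(6,0),(4,0)]⟩,⟨3,[(3,1),(11,1),(6,0),(0,1),
  (7,1),(9,0),(0,1)]⟩⟩,⟨false,0,⟨0,[]⟩,⟨0,[]⟩⟩,⟨false,0,⟨0,[]⟩,⟨0,[]⟩⟩,[.o ⟨false,0,⟨2,[(7,0),(5,1),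
  (6,0),(4,0)]⟩,⟨5,[(14,1),(0,1),(11,1),(6,0),(6,1),(0,2)]⟩⟩,.o ⟨false,1,⟨7,[(13,7),(6,3),(0,0),(0,
  0),(11,1),(7,3)]⟩,⟨0,[(5,0)]⟩⟩,.a ⟨true,0,⟨1,[(23,0),(8,0),(0,0)]⟩,⟨0,[(24,0)]⟩⟩ ⟨false,1,⟨1,[(22,
  0),(17,1),(1,0)]⟩,⟨3,[(0,1),(0,1),(3,1),(4,0),(3,0),(8,0)]⟩⟩ ⟨true,0,⟨2,[(7,0),(5,1),(6,0),(3,2),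
  (0,0)]⟩,⟨1,[(5,1),(17,0),(8,0),(0,0)]⟩⟩,.o ⟨false,0,⟨1,[(23,0),(2,0),(2,0)]⟩,⟨1,[(24,1),(9,0),(6,
  0)]⟩⟩]⟩)) (.I [0,1,-1,-1] (.K ⟨2,[0,0,0,1],0,0,(⟨0,[(24,0)]⟩,⟨1,[(23,0),(8,0),(0,0)]⟩),.k,(.x 0
  ⟨0,[(16,0),(18,0)]⟩ ⟨3,[(21,0),(0,0),(13,3),(4,1)]⟩),(.r 0 ⟨0,[(3,0)]⟩ ⟨1,[(0,1),(20,0),(20,0)]⟩),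
  .k,.k,[⟨2,[(6,0),(13,0),(3,2)]⟩,⟨1,[(20,0),(2,0)]⟩,⟨1,[(24,1),(4,0),(0,0)]⟩,⟨1,[(23,0),(2,0),(2,
  0)]⟩,⟨0,[(0,0),(1,0),(21,0)]⟩,⟨1,[(0,1),(0,0),(1,0),(0,0),(1,0),(16,0)]⟩]⟩) (.I [1,1,-1,0,0,0,0,0,
  1] (.R ⟨0,false,false,false,[0,0,0,1],[1,-1],[0,0,1],(⟨0,[(25,0)]⟩,⟨1,[(24,0),(8,0),(0,0)]⟩),(⟨0,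
  [(36,0)]⟩,⟨0,[(37,0)]⟩),⟨1,[(10,0),(13,0)]⟩,.k,.k,(.x 0 ⟨0,[(17,0),(18,0)]⟩ ⟨3,[(22,0),(0,0),(13,
  3),(4,1)]⟩),(.r 0 ⟨0,[(4,0)]⟩ ⟨1,[(22,0),(18,1),(0,0)]⟩),.k,.k,⟨false,0,⟨2,[(5,0),(9,0),(14,0)]⟩,
  ⟨0,[(41,0),(0,0)]⟩⟩,⟨true,0,⟨0,[(17,0),(7,0)]⟩,⟨1,[(24,0),(8,0),(0,0)]⟩⟩,⟨true,0,⟨0,[(3,0),(37,
  0)]⟩,⟨0,[(0,0)]⟩⟩,⟨false,1,⟨1,[(8,1),(13,0),(2,1),(17,0)]⟩,⟨1,[(0,1),(0,1),(22,0),(8,0),(0,0)]⟩⟩,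
  ⟨false,0,⟨0,[]⟩,⟨0,[]⟩⟩,⟨false,0,⟨0,[]⟩,⟨0,[]⟩⟩,[.o ⟨false,0,⟨0,[(8,0)]⟩,⟨3,[(18,1),(3,0),(0,0),
  (11,0),(7,0)]⟩⟩,.o ⟨false,1,⟨0,[(13,0),(29,0)]⟩,⟨0,[(40,0)]⟩⟩,.a ⟨true,0,⟨1,[(24,0),(8,0),(0,0)]⟩,
  ⟨0,[(25,0)]⟩⟩ ⟨false,0,⟨0,[(1,0),(6,0),(11,0),(13,0),(2,0)]⟩,⟨3,[(22,0),(0,0),(18,1)]⟩⟩ ⟨true,0,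
  ⟨0,[(8,0),(16,0)]⟩,⟨1,[(18,0),(5,0),(20,0)]⟩⟩,.o ⟨false,0,⟨1,[(24,0),(2,0),(2,0)]⟩,⟨1,[(25,1),(9,
  0),(6,0)]⟩⟩]⟩) (.Q [0,1,0,0,0,0,0,0,1,1,0,-1] (.p false [0,0,0,1] [1] (⟨0,[(25,0)]⟩,⟨1,[(24,0),(8,
  0),(0,0)]⟩) .k 1 (⟨0,[]⟩,⟨0,[]⟩) .k .k) (.Q [0,1,0,0,0,0,0,0,-1,-1,0,1] (.p true [0,0,0,1] [1]
  (⟨0,[(26,0)]⟩,⟨1,[(25,0),(8,0),(0,0)]⟩) .k 1 (⟨0,[]⟩,⟨0,[]⟩) .k .k) (.K ⟨2,[1,0,0,-1],0,0,(⟨1,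
  [(26,0),(8,0),(0,0)]⟩,⟨0,[(27,0)]⟩),.k,(.r (-1) ⟨1,[(24,0),(18,1),(0,0)]⟩ ⟨0,[(6,0)]⟩),(.r 0 ⟨0,
  [(2,0),(5,0),(0,0),(3,0),(8,1),(13,1),(2,1)]⟩ ⟨1,[(25,0),(17,1),(0,0)]⟩),.k,.k,[⟨1,[(23,0),(2,
  0)]⟩,⟨2,[(9,0),(13,0),(3,2)]⟩,⟨0,[(1,0),(0,0)]⟩,⟨0,[(19,0),(7,0)]⟩,⟨0,[(1,0)]⟩,⟨0,[(0,0)]⟩]⟩) (.K
  ⟨1,[0,0,0,1],0,0,(⟨0,[(27,0)]⟩,⟨1,[(26,0),(8,0),(0,0)]⟩),.k,(.r (-1) ⟨1,[(25,0),(17,1),(0,0)]⟩ ⟨0,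
  [(0,1),(1,2),(5,0),(0,0),(3,0),(13,1),(12,1)]⟩),(.r 0 ⟨0,[(6,0)]⟩ ⟨1,[(24,0),(18,1),(0,0)]⟩),.k,
  .k,[⟨1,[(27,1),(4,0),(0,0)]⟩,⟨1,[(26,0),(2,0),(2,0)]⟩,⟨0,[(2,0),(24,0),(12,0)]⟩,⟨0,[(0,0)]⟩]⟩))
  (.R ⟨0,false,false,false,[0,0,0,1],[0,0,1],[0,1,0,0,0,0,0,0,1],(⟨0,[(26,0)]⟩,⟨1,[(25,0),(8,0),(0,
  0)]⟩),(⟨0,[(35,0)]⟩,⟨0,[(34,0)]⟩),⟨1,[(11,0),(13,0)]⟩,.k,.k,(.r (-1) ⟨1,[(24,0),(17,1),(0,0)]⟩ ⟨0,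
  [(0,3),(2,2),(2,0),(1,4),(3,1),(8,8),(3,1),(9,8),(2,8),(0,1)]⟩),.k,.k,.k,⟨false,1,⟨1,[(22,0),(1,
  0),(2,0),(2,0),(12,0)]⟩,⟨1,[(0,1),(24,0),(7,1),(0,0),(0,0)]⟩⟩,⟨true,0,⟨2,[(8,0),(13,0),(3,2)]⟩,⟨1,
  [(25,0),(2,0),(3,0)]⟩⟩,⟨true,0,⟨0,[(46,0)]⟩,⟨0,[]⟩⟩,⟨false,0,⟨1,[(0,1),(16,0),(15,0),(0,0),(0,0),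
  (6,0)]⟩,⟨1,[(24,0),(0,0),(1,0),(2,0),(13,0)]⟩⟩,⟨false,0,⟨0,[]⟩,⟨0,[]⟩⟩,⟨false,0,⟨0,[]⟩,⟨0,[]⟩⟩,
  [.o ⟨false,0,⟨1,[(9,0),(7,0),(15,0)]⟩,⟨1,[(30,1),(5,0),(7,0)]⟩⟩,.o ⟨false,1,⟨0,[(29,0),(14,0)]⟩,
  ⟨0,[(27,0)]⟩⟩,.a ⟨true,0,⟨1,[(25,0),(8,0),(0,0)]⟩,⟨0,[(26,0)]⟩⟩ ⟨false,1,⟨3,[(23,0),(0,2)]⟩,⟨1,
  [(0,1),(24,0),(8,0),(0,0)]⟩⟩ ⟨true,0,⟨1,[(9,0),(7,0),(8,1),(6,0)]⟩,⟨1,[(25,0),(1,0),(2,0)]⟩⟩,.o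
  ⟨false,0,⟨1,[(25,0),(2,0),(2,0)]⟩,⟨1,[(26,1),(9,0),(6,0)]⟩⟩]⟩))))) (.R ⟨0,false,false,false,[0,0,
  0,1],[1,-1],[0,0,0,-1,0,0,0,0,1],(⟨0,[(22,0)]⟩,⟨1,[(21,0),(8,0),(0,0)]⟩),(⟨0,[(33,0)]⟩,⟨0,[(34,
  0)]⟩),⟨1,[(7,0),(13,0)]⟩,.k,.k,(.r 0 ⟨0,[(0,0)]⟩ ⟨11,[(2,3),(9,3),(6,8),(0,2),(6,3)]⟩),(.r 0 ⟨0,
  [(1,0)]⟩ ⟨0,[(0,0),(18,0)]⟩),.k,.k,⟨false,0,⟨1,[(0,0),(0,0)]⟩,⟨1,[(19,0),(19,0)]⟩⟩,⟨true,0,⟨0,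
  [(14,0),(7,0)]⟩,⟨1,[(21,0),(8,0),(0,0)]⟩⟩,⟨true,0,⟨0,[(38,0)]⟩,⟨0,[(37,0)]⟩⟩,⟨false,1,⟨1,[(5,1),
  (13,0),(2,1),(17,0)]⟩,⟨1,[(0,1),(8,0),(5,0),(5,0)]⟩⟩,⟨false,0,⟨0,[]⟩,⟨0,[]⟩⟩,⟨false,0,⟨0,[]⟩,⟨0,
  []⟩⟩,[.o ⟨false,0,⟨0,[(5,0)]⟩,⟨3,[(15,1),(3,0),(0,0),(11,0),(7,0)]⟩⟩,.o ⟨false,1,⟨0,[(10,0),(29,
  0)]⟩,⟨0,[(37,0)]⟩⟩,.a ⟨true,0,⟨1,[(21,0),(8,0),(0,0)]⟩,⟨0,[(22,0)]⟩⟩ ⟨false,0,⟨0,[(0,0),(35,0)]⟩,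
  ⟨3,[(15,1),(3,1),(12,0),(7,0)]⟩⟩ ⟨true,0,⟨0,[(5,0),(16,0)]⟩,⟨1,[(15,0),(5,0),(20,0)]⟩⟩,.o ⟨false,
  0,⟨1,[(21,0),(2,0),(2,0)]⟩,⟨1,[(22,1),(9,0),(6,0)]⟩⟩]⟩)) (.R ⟨0,false,false,true,[0,0,0,1],[1,-1,
  -1],[0,0,0,-1,0,0,0,0,1],(⟨0,[(21,0)]⟩,⟨1,[(20,0),(8,0),(0,0)]⟩),(⟨0,[(16,0)]⟩,⟨0,[(30,0),(2,
  0)]⟩),⟨1,[(6,0),(13,0)]⟩,.k,.k,(.r (-1) ⟨0,[(0,0),(18,0)]⟩ ⟨2,[(0,2),(0,1),(9,1),(14,1)]⟩),(.x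
  (-1) ⟨3,[(6,1),(10,1),(0,0),(0,0),(10,3),(7,1)]⟩ ⟨0,[(16,0),(6,0)]⟩),.k,.k,⟨false,1,⟨1,[(19,0),(8,
  1),(10,0)]⟩,⟨2,[(0,2),(0,2),(1,0),(13,0)]⟩⟩,⟨true,0,⟨0,[(21,0),(1,0)]⟩,⟨1,[(17,0),(2,0)]⟩⟩,⟨true,
  0,⟨0,[(37,0)]⟩,⟨0,[(36,0)]⟩⟩,⟨false,0,⟨0,[(0,0),(20,0),(0,0),(12,0)]⟩,⟨1,[(2,1),(16,0),(0,0),(8,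
  0),(0,0),(8,0)]⟩⟩,⟨false,0,⟨0,[]⟩,⟨0,[]⟩⟩,⟨false,0,⟨0,[]⟩,⟨0,[]⟩⟩,[.o ⟨false,0,⟨2,[(4,0),(5,1),(6,
  0),(4,0)]⟩,⟨5,[(11,1),(0,1),(11,1),(6,0),(6,1),(0,2)]⟩⟩,.o ⟨false,1,⟨7,[(10,7),(6,3),(0,0),(0,0),
  (11,1),(7,3)]⟩,⟨0,[(2,0)]⟩⟩,.a ⟨true,0,⟨1,[(20,0),(8,0),(0,0)]⟩,⟨0,[(21,0)]⟩⟩ ⟨false,1,⟨1,[(19,0),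
  (17,1),(1,0)]⟩,⟨1,[(0,1),(0,0),(0,0),(5,0)]⟩⟩ ⟨true,0,⟨2,[(4,0),(5,1),(6,0),(3,2),(0,0)]⟩,⟨1,[(2,
  1),(17,0),(8,0),(0,0)]⟩⟩,.o ⟨false,0,⟨1,[(20,0),(2,0),(2,0)]⟩,⟨1,[(21,1),(9,0),(6,0)]⟩⟩]⟩)))))))
  (.I [0,0,-2,-2,1,0,0,-1] (.Q [0,0,0,0,0,0,-1,0,0,0,1] (.p true [0,0,1] [] (⟨0,[(25,0)]⟩,⟨0,[(24,
  0)]⟩) .k 0 (⟨0,[]⟩,⟨0,[]⟩) .k .k) (.K ⟨0,[1,-1,-1],0,0,(⟨0,[(12,0)]⟩,⟨0,[(26,0),(2,0)]⟩),.k,(.r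
  (-1) ⟨0,[(1,0)]⟩ ⟨0,[(7,0),(29,0)]⟩),.k,.k,.k,[⟨1,[(13,0),(11,0),(0,0)]⟩,⟨0,[(0,0)]⟩,⟨4,[(8,0),(1,
  1),(9,2),(3,0),(0,1),(0,1)]⟩,⟨0,[(18,0),(14,0)]⟩]⟩) (.Q [0,0,0,1,0,0,0,0,0,1] (.pp false [-1,1])
  (.R ⟨1,false,false,false,[1,0,-1],[1,-1],[1,0,0,0,0,0,0,-1],(⟨0,[(26,0)]⟩,⟨0,[(27,0)]⟩),(⟨0,[(29,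
  0)]⟩,⟨0,[(30,0)]⟩),⟨0,[(13,0)]⟩,.k,.k,.k,.k,.k,.k,⟨true,0,⟨0,[(0,0),(0,0),(17,0),(12,0)]⟩,⟨0,[(25,
  0),(8,0)]⟩⟩,⟨false,0,⟨0,[(1,0)]⟩,⟨0,[(24,0),(10,0)]⟩⟩,⟨true,0,⟨0,[]⟩,⟨0,[(38,0)]⟩⟩,⟨true,0,⟨0,[(1,
  0),(23,0),(8,0)]⟩,⟨0,[(0,0),(18,0)]⟩⟩,⟨false,1,⟨3,[(11,1),(16,0),(7,2)]⟩,⟨0,[(34,0)]⟩⟩,⟨true,0,⟨0,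
  [(1,0),(23,0)]⟩,⟨0,[(22,0)]⟩⟩,[.a ⟨true,0,⟨0,[(34,0)]⟩,⟨0,[(0,0)]⟩⟩ ⟨false,1,⟨5,[(2,3),(2,2),(5,
  0),(2,0),(4,1),(15,1)]⟩,⟨0,[(25,0)]⟩⟩ ⟨true,0,⟨0,[(1,0),(32,0)]⟩,⟨2,[(0,0),(3,0),(3,0),(15,0)]⟩⟩,
  .o ⟨false,1,⟨0,[(6,0),(29,0)]⟩,⟨0,[(33,0)]⟩⟩,.o ⟨false,1,⟨1,[(24,1),(3,0),(6,0)]⟩,⟨0,[(1,0)]⟩⟩,.o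
  ⟨false,0,⟨0,[(20,0)]⟩,⟨7,[(14,3),(0,0),(0,0),(11,1),(6,3)]⟩⟩]⟩) (.Q [0,0,0,-1,0,0,-1,-1,0,0,1]
  (.p true [0,0,1] [] (⟨0,[(27,0)]⟩,⟨0,[(26,0)]⟩) .k 0 (⟨0,[]⟩,⟨0,[]⟩) .k .k) (.R ⟨2,true,false,
  true,[0,1],[0,1,1],[0,0,1],(⟨0,[]⟩,⟨0,[]⟩),(⟨0,[(28,0),(2,0)]⟩,⟨0,[(14,0)]⟩),⟨0,[]⟩,.k,.k,.k,.k,
  .k,.k,⟨false,1,⟨1,[(0,1),(1,1),(33,0),(0,0)]⟩,⟨0,[(26,0),(7,0)]⟩⟩,⟨true,0,⟨0,[(2,0)]⟩,⟨0,[(25,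
  0)]⟩⟩,⟨true,0,⟨0,[(35,0)]⟩,⟨0,[(34,0)]⟩⟩,⟨false,0,⟨1,[(1,0),(8,0),(15,0)]⟩,⟨0,[(23,0),(13,0)]⟩⟩,
  ⟨false,1,⟨3,[(16,0),(0,0),(19,1)]⟩,⟨0,[]⟩⟩,⟨true,0,⟨1,[(1,0),(8,0),(15,0),(7,1)]⟩,⟨0,[(0,0)]⟩⟩,
  []⟩) (.Q [0,-1,0,-1,0,0,1,1,0,0,-1] (.p false [0,0,1] [] (⟨0,[(28,0)]⟩,⟨0,[(27,0)]⟩) .k 0 (⟨0,[]⟩,
  ⟨0,[]⟩) .k .k) (.R ⟨2,true,false,false,[0,1],[0,0,1],[0,0,1],(⟨0,[]⟩,⟨0,[]⟩),(⟨0,[(29,0)]⟩,⟨0,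
  [(28,0)]⟩),⟨0,[]⟩,.k,.k,.k,.k,.k,.k,⟨true,0,⟨1,[(16,0),(4,0),(2,0),(9,1)]⟩,⟨0,[(27,0)]⟩⟩,⟨false,0,
  ⟨0,[(3,0)]⟩,⟨0,[(26,0),(10,0)]⟩⟩,⟨true,0,⟨0,[(36,0)]⟩,⟨0,[(35,0)]⟩⟩,⟨false,0,⟨0,[(0,0)]⟩,⟨3,[(13,
  1),(10,3),(5,0),(7,2)]⟩⟩,⟨false,1,⟨3,[(17,0),(0,0),(19,1)]⟩,⟨0,[]⟩⟩,⟨true,0,⟨2,[(0,0),(0,0),(21,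
  0)]⟩,⟨0,[(24,0)]⟩⟩,[]⟩) (.I [0,0,-1,-1,0,0,0,-1,-1] (.R ⟨1,false,false,false,[1,0,0,-1],[0,0,1],
  [0,0,0,-1,0,0,0,0,-1],(⟨1,[(20,0),(8,0),(0,0)]⟩,⟨0,[(21,0)]⟩),(⟨0,[(30,0)]⟩,⟨0,[(29,0)]⟩),⟨1,[(6,
  0),(13,0)]⟩,.k,.k,(.r 0 ⟨0,[(0,0),(27,0)]⟩ ⟨11,[(1,3),(9,3),(6,2),(0,8),(6,3)]⟩),.k,(.r 0 ⟨0,[(0,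
  0)]⟩ ⟨11,[(11,5),(6,2),(0,8),(4,1),(2,1),(0,3),(5,1)]⟩),.k,⟨false,0,⟨0,[(0,0)]⟩,⟨15,[(11,7),(6,0),
  (0,8),(8,7),(5,3),(3,5)]⟩⟩,⟨true,0,⟨1,[(17,0),(2,0)]⟩,⟨0,[(21,0),(1,0)]⟩⟩,⟨true,0,⟨0,[(37,0)]⟩,⟨0,
  [(36,0)]⟩⟩,⟨false,1,⟨1,[(12,0),(6,0),(0,0),(7,0),(8,0),(1,0)]⟩,⟨0,[(0,0),(1,0),(4,0),(13,0),(13,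
  0)]⟩⟩,⟨false,1,⟨3,[(18,0),(0,0),(19,1)]⟩,⟨0,[]⟩⟩,⟨false,1,⟨1,[(2,1),(16,0),(0,0),(8,0),(0,0),(8,
  0)]⟩,⟨0,[(0,0),(20,0),(1,0)]⟩⟩,[.o ⟨false,0,⟨1,[(3,0),(8,0),(15,0)]⟩,⟨1,[(25,1),(5,0),(7,0)]⟩⟩,.o
  ⟨false,1,⟨0,[(24,0),(14,0)]⟩,⟨0,[(22,0)]⟩⟩,.a ⟨true,0,⟨0,[(21,0)]⟩,⟨1,[(20,0),(8,0),(0,0)]⟩⟩
  ⟨false,0,⟨0,[(0,0),(27,0),(6,0)]⟩,⟨3,[(14,1),(4,1),(11,0),(7,0)]⟩⟩ ⟨true,0,⟨1,[(12,0),(7,0),(7,0),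
  (8,0)]⟩,⟨0,[(21,0),(0,0)]⟩⟩,.o ⟨false,0,⟨0,[(13,0),(7,0)]⟩,⟨7,[(18,0),(0,0),(0,3),(10,1),(6,
  3)]⟩⟩]⟩) (.I [0,0,1,1,0,0,0,1,-1] (.Q [0,0,0,0,0,0,1,1,-1,0,-1,1] (.p false [0,0,1] [0,0,0,1] (⟨0,
  [(31,0)]⟩,⟨0,[(30,0)]⟩) .k 2 (⟨0,[(22,0)]⟩,⟨1,[(21,0),(8,0),(0,0)]⟩) .k (.x 0 ⟨0,[(5,0),(25,0)]⟩
  ⟨3,[(0,1),(10,1),(8,0),(9,3),(1,0),(6,0),(0,0)]⟩)) (.Q [0,1,0,0,0,0,0,0,1,1,0,-1] (.p false [0,0,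
  0,1] [1] (⟨0,[(23,0)]⟩,⟨1,[(22,0),(8,0),(0,0)]⟩) .k 1 (⟨0,[]⟩,⟨0,[]⟩) .k .k) (.I [0,0,1,1,0,0,0,0,
  -1] (.K ⟨2,[1,0,0,-1],0,0,(⟨1,[(24,0),(8,0),(0,0)]⟩,⟨0,[(25,0)]⟩),.k,(.x 0 ⟨1,[(10,0),(16,0),(2,
  0)]⟩ ⟨3,[(22,0),(0,0),(13,3),(4,1)]⟩),(.r 0 ⟨0,[(0,0)]⟩ ⟨1,[(9,0),(13,0),(8,0)]⟩),.k,.k,[⟨1,[(21,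
  0),(2,0)]⟩,⟨0,[(8,0),(16,0)]⟩,⟨1,[(21,0),(2,0),(6,1)]⟩,⟨0,[(17,0),(7,0)]⟩,⟨0,[(1,0)]⟩,⟨0,[(2,0),
  (23,0)]⟩]⟩) (.K ⟨2,[1,0,0,-1],0,0,(⟨1,[(24,0),(8,0),(0,0)]⟩,⟨0,[(25,0)]⟩),.k,(.r (-1) ⟨1,[(9,0),
  (12,0),(9,0)]⟩ ⟨4,[(0,2),(3,1),(0,1),(6,1),(17,1)]⟩),(.x (-1) ⟨3,[(22,0),(0,0),(13,3),(4,1)]⟩ ⟨1,
  [(10,0),(16,0),(2,0)]⟩),.k,.k,[⟨1,[(21,0),(2,0)]⟩,⟨0,[(8,0),(16,0)]⟩,⟨1,[(21,0),(2,0),(6,1)]⟩,⟨0,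
  [(17,0),(7,0)]⟩,⟨0,[(1,0)]⟩,⟨0,[(2,0),(23,0)]⟩]⟩)) (.Q [0,0,0,0,0,-1,0,0,0,0,0,1] (.p true [0,0,0,
  1] [] (⟨0,[(24,0)]⟩,⟨1,[(23,0),(8,0),(0,0)]⟩) .k 0 (⟨0,[]⟩,⟨0,[]⟩) .k .k) (.R ⟨1,false,false,
  false,[1,0,0,-1],[1,-1],[1,0,0,0,0,0,0,0,-1],(⟨1,[(24,0),(8,0),(0,0)]⟩,⟨0,[(25,0)]⟩),(⟨0,[(36,
  0)]⟩,⟨0,[(37,0)]⟩),⟨1,[(10,0),(13,0)]⟩,.k,.k,(.x 0 ⟨1,[(10,0),(16,0),(2,0)]⟩ ⟨3,[(22,0),(0,0),(13,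
  3),(4,1)]⟩),(.r 0 ⟨13,[(1,5),(1,7),(1,1),(6,1),(8,2),(2,2),(4,5),(0,1)]⟩ ⟨1,[(9,0),(13,0),(8,
  0)]⟩),.k,.k,⟨false,0,⟨11,[(1,9),(1,1),(1,1),(12,3),(2,0),(2,4),(13,1)]⟩,⟨1,[(9,0),(13,0),(8,0)]⟩⟩,
  ⟨true,0,⟨1,[(24,0),(2,0),(2,0)]⟩,⟨0,[(25,0)]⟩⟩,⟨true,0,⟨0,[]⟩,⟨0,[(45,0)]⟩⟩,⟨false,1,⟨1,[(7,0),
  (15,0),(0,0),(16,0),(1,0)]⟩,⟨3,[(1,2),(0,0),(15,1),(10,0),(3,0),(0,0)]⟩⟩,⟨false,1,⟨3,[(18,1),(16,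
  0),(7,2)]⟩,⟨0,[(41,0)]⟩⟩,⟨false,1,⟨0,[(1,0),(21,0),(0,0)]⟩,⟨1,[(1,0),(0,0),(26,0),(3,0),(0,0)]⟩⟩,
  [.o ⟨false,0,⟨0,[(7,0)]⟩,⟨3,[(18,1),(3,0),(0,0),(11,0),(7,0)]⟩⟩,.o ⟨false,1,⟨0,[(13,0),(29,0)]⟩,
  ⟨0,[(40,0)]⟩⟩,.a ⟨true,0,⟨0,[(25,0)]⟩,⟨1,[(24,0),(8,0),(0,0)]⟩⟩ ⟨false,0,⟨1,[(1,1),(22,0),(8,0),
  (0,0)]⟩,⟨3,[(22,0),(0,2)]⟩⟩ ⟨true,0,⟨1,[(7,0),(16,0),(16,0)]⟩,⟨0,[(25,0),(14,0)]⟩⟩,.o ⟨false,0,⟨0,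
  [(17,0),(7,0)]⟩,⟨7,[(22,0),(0,0),(0,3),(10,1),(6,3)]⟩⟩]⟩) (.R ⟨0,false,false,false,[0,0,0,1],[0,0,
  1],[0,1,0,0,0,0,0,0,1],(⟨0,[(25,0)]⟩,⟨1,[(24,0),(8,0),(0,0)]⟩),(⟨0,[(34,0)]⟩,⟨0,[(33,0)]⟩),⟨0,[(0,
  0)]⟩,.k,.k,(.r (-1) ⟨1,[(9,0),(13,0),(8,0)]⟩ ⟨13,[(1,5),(1,7),(1,1),(6,1),(8,2),(2,2),(4,5),(0,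
  1)]⟩),.k,.k,.k,⟨false,1,⟨15,[(5,7),(3,3),(11,5),(1,7),(2,3),(8,0),(2,1),(3,2)]⟩,⟨1,[(1,1),(22,0),
  (7,1),(0,0),(0,0)]⟩⟩,⟨true,0,⟨0,[(8,0),(16,0)]⟩,⟨1,[(24,0),(2,0),(3,0)]⟩⟩,⟨true,0,⟨0,[(45,0)]⟩,⟨0,
  []⟩⟩,⟨false,0,⟨1,[(1,1),(14,0),(15,0),(0,0),(0,0),(6,0)]⟩,⟨1,[(23,0),(0,0),(1,0),(2,0),(13,0)]⟩⟩,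
  ⟨false,0,⟨0,[]⟩,⟨0,[]⟩⟩,⟨false,0,⟨0,[]⟩,⟨0,[]⟩⟩,[.o ⟨false,0,⟨1,[(7,0),(8,0),(15,0)]⟩,⟨1,[(29,1),
  (5,0),(7,0)]⟩⟩,.o ⟨false,1,⟨0,[(28,0),(14,0)]⟩,⟨0,[(26,0)]⟩⟩,.a ⟨true,0,⟨1,[(24,0),(8,0),(0,0)]⟩,
  ⟨0,[(25,0)]⟩⟩ ⟨false,1,⟨3,[(22,0),(0,2)]⟩,⟨1,[(1,1),(22,0),(8,0),(0,0)]⟩⟩ ⟨true,0,⟨1,[(7,0),(8,0),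
  (8,1),(6,0)]⟩,⟨1,[(24,0),(1,0),(2,0)]⟩⟩,.o ⟨false,0,⟨1,[(24,0),(2,0),(2,0)]⟩,⟨1,[(25,1),(9,0),(6,
  0)]⟩⟩]⟩))) (.Q [0,1,0,0,0,0,0,0,-1,0,0,1] (.p true [0,0,0,1] [] (⟨0,[(23,0)]⟩,⟨1,[(22,0),(8,0),(0,
  0)]⟩) .k 0 (⟨0,[]⟩,⟨0,[]⟩) .k .k) (.K ⟨2,[0,0,0,1],0,0,(⟨0,[(24,0)]⟩,⟨1,[(23,0),(8,0),(0,0)]⟩),.k,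
  (.x 0 ⟨1,[(9,0),(16,0),(2,0)]⟩ ⟨3,[(21,0),(0,0),(13,3),(4,1)]⟩),(.r 0 ⟨1,[(1,0),(1,0),(14,0),(5,
  0)]⟩ ⟨1,[(8,0),(12,0),(9,0)]⟩),.k,.k,[⟨0,[(7,0),(16,0)]⟩,⟨1,[(20,0),(2,0)]⟩,⟨1,[(24,1),(4,0),(0,
  0)]⟩,⟨1,[(23,0),(2,0),(2,0)]⟩,⟨0,[(0,0)]⟩,⟨0,[(1,0),(25,0)]⟩]⟩) (.R ⟨1,false,false,false,[1,0,0,
  -1],[0,0,1],[1,1,0,0,0,0,0,0,-1],(⟨1,[(23,0),(8,0),(0,0)]⟩,⟨0,[(24,0)]⟩),(⟨0,[(33,0)]⟩,⟨0,[(32,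
  0)]⟩),⟨1,[(9,0),(13,0)]⟩,.k,.k,(.r (-1) ⟨1,[(8,0),(12,0),(9,0)]⟩ ⟨1,[(1,0),(1,0),(14,0),(5,0)]⟩),
  .k,(.x 0 ⟨0,[(19,0),(6,0)]⟩ ⟨7,[(20,3),(0,0),(0,0),(10,7),(0,1),(1,7),(4,3)]⟩),.k,⟨false,1,⟨15,
  [(4,7),(3,3),(11,5),(0,7),(3,3),(8,0),(2,1),(3,2)]⟩,⟨0,[(0,0),(23,0),(6,0)]⟩⟩,⟨true,0,⟨1,[(20,0),
  (2,0)]⟩,⟨0,[(24,0),(1,0)]⟩⟩,⟨false,0,⟨0,[]⟩,⟨3,[(21,0),(0,0),(19,1)]⟩⟩,⟨false,0,⟨1,[(0,1),(14,0),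
  (15,0),(0,0),(0,0),(6,0)]⟩,⟨1,[(21,0),(2,1),(0,1),(16,0)]⟩⟩,⟨true,0,⟨0,[(39,0)]⟩,⟨0,[(40,0)]⟩⟩,
  ⟨false,0,⟨0,[(0,0),(4,0),(26,0),(0,0)]⟩,⟨5,[(8,1),(4,1),(7,2),(2,5),(0,1),(8,0),(3,3)]⟩⟩,[.o
  ⟨false,0,⟨1,[(6,0),(8,0),(15,0)]⟩,⟨1,[(28,1),(5,0),(7,0)]⟩⟩,.o ⟨false,1,⟨0,[(27,0),(14,0)]⟩,⟨0,
  [(25,0)]⟩⟩,.a ⟨true,0,⟨0,[(24,0)]⟩,⟨1,[(23,0),(8,0),(0,0)]⟩⟩ ⟨false,1,⟨3,[(21,2),(0,0)]⟩,⟨0,[(0,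
  0),(23,0)]⟩⟩ ⟨true,0,⟨1,[(15,0),(7,0),(7,0),(8,0)]⟩,⟨0,[(24,0),(0,0)]⟩⟩,.o ⟨false,0,⟨0,[(16,0),(7,
  0)]⟩,⟨7,[(21,0),(0,0),(0,3),(10,1),(6,3)]⟩⟩]⟩))) (.R ⟨1,false,false,true,[1,0,0,-1],[1,-1,-1],[0,
  0,0,-1,0,0,0,0,-1],(⟨1,[(21,0),(8,0),(0,0)]⟩,⟨0,[(22,0)]⟩),(⟨0,[(17,0)]⟩,⟨0,[(31,0),(2,0)]⟩),⟨1,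
  [(7,0),(13,0)]⟩,.k,.k,(.r (-1) ⟨1,[(6,0),(12,0),(9,0)]⟩ ⟨7,[(0,2),(0,4),(0,1),(6,1),(17,1)]⟩),(.x
  (-1) ⟨7,[(18,3),(0,0),(0,0),(10,7),(0,1),(1,7),(4,3)]⟩ ⟨0,[(17,0),(6,0)]⟩),.k,.k,⟨false,1,⟨1,[(19,
  0),(9,1),(10,0)]⟩,⟨0,[(0,0),(36,0)]⟩⟩,⟨true,0,⟨1,[(21,0),(2,0),(3,0)]⟩,⟨0,[(5,0),(16,0)]⟩⟩,⟨true,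
  0,⟨0,[(38,0)]⟩,⟨0,[(37,0)]⟩⟩,⟨false,0,⟨1,[(0,1),(20,0),(2,0),(3,0)]⟩,⟨1,[(3,1),(15,0),(2,1),(17,
  0)]⟩⟩,⟨false,1,⟨3,[(19,0),(0,0),(19,1)]⟩,⟨0,[]⟩⟩,⟨false,0,⟨1,[(0,1),(7,0),(3,0),(8,0)]⟩,⟨1,[(4,0),
  (8,0),(5,0),(2,1),(6,0),(10,0)]⟩⟩,[.o ⟨false,0,⟨2,[(4,0),(6,1),(6,0),(4,0)]⟩,⟨5,[(12,1),(0,1),(11,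
  1),(6,0),(6,1),(0,2)]⟩⟩,.o ⟨false,1,⟨9,[(6,1),(4,5),(7,0),(0,0),(5,1),(0,3),(4,1),(7,3)]⟩,⟨0,[(3,
  0)]⟩⟩,.a ⟨true,0,⟨0,[(22,0)]⟩,⟨1,[(21,0),(8,0),(0,0)]⟩⟩ ⟨false,1,⟨1,[(19,0),(18,1),(1,0)]⟩,⟨3,[(0,
  3),(2,1),(4,0),(3,1),(2,0),(13,0)]⟩⟩ ⟨true,0,⟨1,[(11,1),(6,0),(2,0)]⟩,⟨0,[(3,0),(18,0)]⟩⟩,.o
  ⟨false,0,⟨0,[(14,0),(7,0)]⟩,⟨7,[(19,0),(0,0),(0,3),(10,1),(6,3)]⟩⟩]⟩))))))) (.I [0,0,-2,0,1,2,1]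
  (.Q [0,0,0,0,0,0,-1,0,0,0,1] (.p true [0,0,1] [] (⟨0,[(26,0)]⟩,⟨0,[(25,0)]⟩) .k 0 (⟨0,[]⟩,⟨0,[]⟩)
  .k .k) (.K ⟨0,[1,-1,-1],0,0,(⟨0,[(13,0)]⟩,⟨0,[(27,0),(2,0)]⟩),.k,(.x 0 ⟨1,[(3,0),(9,1),(6,2),(2,
  0)]⟩ ⟨0,[(1,0)]⟩),.k,.k,.k,[⟨1,[(14,0),(11,0),(0,0)]⟩,⟨0,[(0,0)]⟩,⟨4,[(9,0),(1,1),(9,2),(3,0),(0,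
  1),(0,1)]⟩,⟨0,[(19,0),(14,0)]⟩]⟩) (.Q [0,0,0,1,0,0,0,0,0,1] (.pp false [-1,1]) (.R ⟨1,false,false,
  false,[1,0,-1],[1,-1],[1,0,0,0,0,0,0,-1],(⟨0,[(27,0)]⟩,⟨0,[(28,0)]⟩),(⟨0,[(30,0)]⟩,⟨0,[(31,0)]⟩),
  ⟨0,[(14,0)]⟩,.k,.k,.k,.k,.k,.k,⟨true,0,⟨0,[(0,0),(0,0),(18,0),(12,0)]⟩,⟨0,[(26,0),(8,0)]⟩⟩,⟨false,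
  0,⟨0,[(1,0)]⟩,⟨0,[(25,0),(10,0)]⟩⟩,⟨true,0,⟨0,[]⟩,⟨0,[(39,0)]⟩⟩,⟨true,0,⟨0,[(1,0),(24,0),(8,0)]⟩,
  ⟨0,[(0,0),(19,0)]⟩⟩,⟨false,1,⟨3,[(12,1),(16,0),(7,2)]⟩,⟨0,[(35,0)]⟩⟩,⟨true,0,⟨0,[(1,0),(24,0)]⟩,
  ⟨0,[(23,0)]⟩⟩,[.a ⟨true,0,⟨0,[(35,0)]⟩,⟨0,[(0,0)]⟩⟩ ⟨false,1,⟨1,[(15,0),(4,0),(2,0),(12,0),(0,
  0)]⟩,⟨0,[(26,0)]⟩⟩ ⟨true,0,⟨0,[(1,0),(33,0)]⟩,⟨2,[(0,0),(4,0),(3,0),(15,0)]⟩⟩,.o ⟨false,1,⟨0,[(7,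
  0),(29,0)]⟩,⟨0,[(34,0)]⟩⟩,.o ⟨false,1,⟨1,[(25,1),(3,0),(6,0)]⟩,⟨0,[(1,0)]⟩⟩,.o ⟨false,0,⟨0,[(21,
  0)]⟩,⟨7,[(15,3),(0,0),(0,0),(11,1),(6,3)]⟩⟩]⟩) (.Q [0,-1,0,-1,0,0,1,1,0,0,-1] (.p false [0,0,1]
  [] (⟨0,[(28,0)]⟩,⟨0,[(27,0)]⟩) .k 0 (⟨0,[]⟩,⟨0,[]⟩) .k .k) (.R ⟨2,true,false,false,[0,1],[0,0,1],
  [0,0,1],(⟨0,[]⟩,⟨0,[]⟩),(⟨0,[(29,0)]⟩,⟨0,[(28,0)]⟩),⟨0,[]⟩,.k,.k,.k,.k,.k,.k,⟨true,0,⟨1,[(16,0),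
  (4,0),(2,0),(9,1)]⟩,⟨0,[(27,0)]⟩⟩,⟨false,0,⟨0,[(2,0)]⟩,⟨0,[(26,0),(10,0)]⟩⟩,⟨true,0,⟨0,[(36,0)]⟩,
  ⟨0,[(35,0)]⟩⟩,⟨false,0,⟨0,[(0,0)]⟩,⟨3,[(13,1),(10,3),(5,0),(7,2)]⟩⟩,⟨false,1,⟨3,[(17,0),(0,0),(19,
  1)]⟩,⟨0,[]⟩⟩,⟨true,0,⟨11,[(0,5),(3,1),(6,1),(11,1),(6,0),(2,1),(3,0)]⟩,⟨0,[(24,0)]⟩⟩,[]⟩) (.I [0,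
  0,1,1,0,0,0,0,1] (.I [0,0,1,1,0,0,0,0,-1] (.I [0,1,-1,-1] (.Q [0,1,0,0,0,0,0,0,1,0,0,-1] (.p
  false [0,0,0,1] [] (⟨0,[(23,0)]⟩,⟨1,[(22,0),(8,0),(0,0)]⟩) .k 0 (⟨0,[]⟩,⟨0,[]⟩) .k .k) (.K ⟨2,[0,
  0,0,1],0,0,(⟨0,[(24,0)]⟩,⟨1,[(23,0),(8,0),(0,0)]⟩),.k,(.r (-1) ⟨1,[(22,0),(17,1),(0,0)]⟩ ⟨0,[(2,
  0)]⟩),(.r 0 ⟨0,[(3,0)]⟩ ⟨1,[(21,0),(18,1),(0,0)]⟩),.k,.k,[⟨0,[(6,0),(17,0)]⟩,⟨1,[(20,0),(2,0)]⟩,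
  ⟨1,[(24,1),(4,0),(0,0)]⟩,⟨1,[(23,0),(2,0),(2,0)]⟩,⟨0,[(1,0),(0,0),(21,0)]⟩,⟨0,[(0,0)]⟩]⟩) (.K ⟨1,
  [1,0,0,-1],0,0,(⟨1,[(23,0),(8,0),(0,0)]⟩,⟨0,[(24,0)]⟩),.k,(.r (-1) ⟨1,[(21,0),(18,1),(0,0)]⟩ ⟨0,
  [(3,0)]⟩),(.r 0 ⟨0,[(2,0)]⟩ ⟨1,[(22,0),(17,1),(0,0)]⟩),.k,.k,[⟨1,[(20,0),(2,0),(6,1)]⟩,⟨0,[(16,0),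
  (7,0)]⟩,⟨1,[(1,1),(1,1),(19,0),(8,0),(0,0)]⟩,⟨0,[(0,0)]⟩]⟩)) (.I [1,1,0,1,0,0,0,0,1] (.Q [0,1,0,0,
  0,0,0,0,-1,0,0,1] (.p true [0,0,0,1] [] (⟨0,[(24,0)]⟩,⟨1,[(23,0),(8,0),(0,0)]⟩) .k 0 (⟨0,[]⟩,⟨0,
  []⟩) .k .k) (.K ⟨2,[0,0,0,1],0,0,(⟨0,[(25,0)]⟩,⟨1,[(24,0),(8,0),(0,0)]⟩),.k,(.r (-1) ⟨1,[(23,0),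
  (17,1),(0,0)]⟩ ⟨0,[(3,0)]⟩),(.r 0 ⟨0,[(4,0)]⟩ ⟨1,[(22,0),(18,1),(0,0)]⟩),.k,.k,[⟨0,[(7,0),(17,
  0)]⟩,⟨1,[(21,0),(2,0)]⟩,⟨1,[(25,1),(4,0),(0,0)]⟩,⟨1,[(24,0),(2,0),(2,0)]⟩,⟨0,[(0,0)]⟩,⟨1,[(1,1),
  (4,0),(17,0),(16,0)]⟩]⟩) (.R ⟨1,false,false,true,[1,0,0,-1],[0,1],[1,1,0,0,0,0,0,0,-1],(⟨1,[(24,
  0),(8,0),(0,0)]⟩,⟨0,[(25,0)]⟩),(⟨0,[(37,0)]⟩,⟨0,[(36,0)]⟩),⟨1,[(10,0),(13,0)]⟩,.k,.k,(.r (-1) ⟨1,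
  [(22,0),(18,1),(0,0)]⟩ ⟨0,[(4,0)]⟩),(.r (-1) ⟨1,[(22,0),(18,1),(0,0)]⟩ ⟨0,[(4,0)]⟩),(.r (-2) ⟨3,
  [(22,2),(0,0),(17,7),(0,3)]⟩ ⟨1,[(0,1),(8,1),(11,0),(3,1),(0,0),(2,0)]⟩),.k,⟨true,1,⟨1,[(22,0),
  (18,1),(0,0)]⟩,⟨0,[(0,0),(8,0),(4,0),(6,0),(3,0)]⟩⟩,⟨false,1,⟨1,[(24,0),(8,0),(0,0),(7,1)]⟩,⟨0,
  [(17,0),(7,0)]⟩⟩,⟨false,0,⟨0,[]⟩,⟨3,[(22,0),(0,0),(19,1)]⟩⟩,⟨false,0,⟨5,[(0,3),(0,1),(16,1),(5,0),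
  (8,2),(0,2)]⟩,⟨1,[(6,1),(15,0),(2,1),(17,0)]⟩⟩,⟨true,0,⟨0,[(40,0)]⟩,⟨0,[(41,0)]⟩⟩,⟨false,0,⟨0,[(0,
  0),(17,0)]⟩,⟨1,[(6,1),(15,0),(2,1),(15,1),(1,0)]⟩⟩,[.o ⟨false,0,⟨0,[(40,0)]⟩,⟨0,[(13,0),(29,0)]⟩⟩,
  .o ⟨false,1,⟨3,[(18,1),(3,0),(0,0),(11,0),(7,0)]⟩,⟨0,[(6,0)]⟩⟩,.a ⟨true,0,⟨0,[(25,0)]⟩,⟨1,[(24,0),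
  (8,0),(0,0)]⟩⟩ ⟨false,1,⟨3,[(22,2),(0,0)]⟩,⟨0,[(0,0),(24,0)]⟩⟩ ⟨true,0,⟨1,[(18,0),(5,0),(20,0)]⟩,
  ⟨0,[(6,0),(18,0)]⟩⟩,.o ⟨false,0,⟨0,[(17,0),(7,0)]⟩,⟨7,[(22,0),(0,0),(0,3),(10,1),(6,3)]⟩⟩]⟩)) (.R
  ⟨1,false,false,false,[1,0,0,-1],[1,-1],[0,0,0,-1,0,0,0,0,-1],(⟨1,[(23,0),(8,0),(0,0)]⟩,⟨0,[(24,
  0)]⟩),(⟨0,[(35,0)]⟩,⟨0,[(36,0)]⟩),⟨1,[(9,0),(13,0)]⟩,.k,.k,(.r (-1) ⟨1,[(21,0),(18,1),(0,0)]⟩ ⟨0,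
  [(3,0)]⟩),(.r 0 ⟨0,[(2,0)]⟩ ⟨1,[(22,0),(17,1),(0,0)]⟩),.k,.k,⟨false,0,⟨6,[(0,4),(1,1),(1,0),(1,0),
  (1,0),(28,1),(3,0)]⟩,⟨1,[(22,0),(18,0)]⟩⟩,⟨true,0,⟨1,[(23,0),(2,0),(2,0)]⟩,⟨0,[(24,0)]⟩⟩,⟨true,0,
  ⟨0,[(40,0)]⟩,⟨0,[(39,0)]⟩⟩,⟨false,1,⟨1,[(5,0),(16,0),(0,0),(16,0),(1,0)]⟩,⟨6,[(0,5),(1,0),(1,3),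
  (1,3),(1,3),(15,6),(12,0),(3,3)]⟩⟩,⟨false,1,⟨3,[(21,0),(0,0),(19,1)]⟩,⟨0,[]⟩⟩,⟨false,1,⟨3,[(3,1),
  (1,1),(16,0),(0,1),(17,0),(0,1)]⟩,⟨6,[(0,4),(1,1),(1,0),(1,0),(1,0),(15,6),(12,1),(3,0)]⟩⟩,[.o
  ⟨false,0,⟨0,[(5,0)]⟩,⟨3,[(17,1),(3,0),(0,0),(11,0),(7,0)]⟩⟩,.o ⟨false,1,⟨0,[(12,0),(29,0)]⟩,⟨0,
  [(39,0)]⟩⟩,.a ⟨true,0,⟨0,[(24,0)]⟩,⟨1,[(23,0),(8,0),(0,0)]⟩⟩ ⟨false,0,⟨0,[(0,0)]⟩,⟨3,[(17,1),(4,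
  1),(11,0),(7,0)]⟩⟩ ⟨true,0,⟨1,[(5,0),(17,0),(16,0)]⟩,⟨0,[(24,0),(14,0)]⟩⟩,.o ⟨false,0,⟨0,[(16,0),
  (7,0)]⟩,⟨7,[(21,0),(0,0),(0,3),(10,1),(6,3)]⟩⟩]⟩))) (.Q [0,-1,0,0,0,0,0,0,1,0,0,-1] (.p false [0,
  0,0,1] [] (⟨0,[(22,0)]⟩,⟨1,[(21,0),(8,0),(0,0)]⟩) .k 0 (⟨0,[]⟩,⟨0,[]⟩) .k .k) (.R ⟨1,false,false,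
  true,[1,0,0,-1],[0,1],[1,1,0,0,0,0,0,0,-1],(⟨1,[(22,0),(8,0),(0,0)]⟩,⟨0,[(23,0)]⟩),(⟨0,[(35,0)]⟩,
  ⟨0,[(34,0)]⟩),⟨1,[(8,0),(13,0)]⟩,.k,.k,(.r (-1) ⟨0,[(1,0),(18,0)]⟩ ⟨0,[(2,0)]⟩),(.r (-1) ⟨0,[(1,
  0),(18,0)]⟩ ⟨0,[(2,0)]⟩),(.r (-2) ⟨3,[(1,7),(18,6),(0,0)]⟩ ⟨1,[(0,0),(0,0),(1,0),(3,1),(11,0),(3,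
  0),(0,0),(12,0)]⟩),.k,⟨true,1,⟨0,[(1,0),(18,0)]⟩,⟨1,[(1,1),(5,1),(11,0),(4,0),(2,0),(9,1)]⟩⟩,
  ⟨false,1,⟨1,[(22,0),(8,0),(0,0),(7,1)]⟩,⟨0,[(15,0),(7,0)]⟩⟩,⟨false,0,⟨0,[]⟩,⟨3,[(20,0),(0,0),(19,
  1)]⟩⟩,⟨false,0,⟨3,[(0,1),(0,0),(0,0),(13,1),(5,0),(8,0),(0,0)]⟩,⟨1,[(4,1),(15,0),(2,1),(17,0)]⟩⟩,
  ⟨true,0,⟨0,[(38,0)]⟩,⟨0,[(39,0)]⟩⟩,⟨false,0,⟨0,[(0,0),(15,0)]⟩,⟨1,[(4,1),(15,0),(2,1),(15,1),(1,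
  0)]⟩⟩,[.o ⟨false,0,⟨0,[(38,0)]⟩,⟨0,[(11,0),(29,0)]⟩⟩,.o ⟨false,1,⟨3,[(16,1),(3,0),(0,0),(11,0),(7,
  0)]⟩,⟨0,[(4,0)]⟩⟩,.a ⟨true,0,⟨0,[(23,0)]⟩,⟨1,[(22,0),(8,0),(0,0)]⟩⟩ ⟨false,1,⟨3,[(20,2),(0,0)]⟩,
  ⟨0,[(0,0),(22,0)]⟩⟩ ⟨true,0,⟨1,[(16,0),(5,0),(20,0)]⟩,⟨0,[(4,0),(18,0)]⟩⟩,.o ⟨false,0,⟨0,[(15,0),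
  (7,0)]⟩,⟨7,[(20,0),(0,0),(0,3),(10,1),(6,3)]⟩⟩]⟩) (.K ⟨2,[0,0,0,1],0,0,(⟨0,[(23,0)]⟩,⟨1,[(22,0),
  (8,0),(0,0)]⟩),.k,(.x 0 ⟨1,[(8,0),(16,0),(2,0)]⟩ ⟨3,[(6,1),(22,1),(1,1),(1,0),(6,0)]⟩),(.r 0 ⟨0,
  [(2,0)]⟩ ⟨0,[(1,0),(18,0)]⟩),.k,.k,[⟨0,[(5,0),(17,0)]⟩,⟨1,[(19,0),(2,0)]⟩,⟨1,[(23,1),(4,0),(0,
  0)]⟩,⟨1,[(22,0),(2,0),(2,0)]⟩,⟨0,[(0,0)]⟩,⟨15,[(1,6),(0,8),(4,0),(3,4),(5,0),(4,7),(1,0),(8,0),(2,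
  4)]⟩]⟩))) (.R ⟨1,false,false,false,[1,0,0,-1],[0,1,1],[1,1,0,0,0,0,0,0,-1],(⟨1,[(20,0),(8,0),(0,
  0)]⟩,⟨0,[(21,0)]⟩),(⟨0,[(30,0),(2,0)]⟩,⟨0,[(16,0)]⟩),⟨1,[(6,0),(13,0)]⟩,.k,.k,(.x 0 ⟨1,[(6,0),(16,
  0),(2,0)]⟩ ⟨3,[(4,1),(22,1),(1,1),(1,0),(6,0)]⟩),(.r (-1) ⟨3,[(0,1),(9,1),(6,2),(0,0),(3,0),(2,0),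
  (12,0),(0,1)]⟩ ⟨1,[(5,0),(13,0),(8,0)]⟩),(.x 0 ⟨1,[(6,0),(9,1),(6,2),(2,0)]⟩ ⟨0,[(4,0)]⟩),.k,
  ⟨true,0,⟨1,[(0,1),(16,0),(4,0),(2,0)]⟩,⟨1,[(5,0),(13,0),(8,0),(6,1)]⟩⟩,⟨false,1,⟨1,[(17,0),(2,0),
  (17,1)]⟩,⟨0,[(21,0),(1,0)]⟩⟩,⟨false,0,⟨0,[]⟩,⟨3,[(18,0),(0,0),(19,1)]⟩⟩,⟨false,1,⟨3,[(5,0),(6,1),
  (6,1),(0,1),(7,0),(9,0),(0,1)]⟩,⟨0,[(0,0),(20,0),(0,0),(12,0)]⟩⟩,⟨true,0,⟨0,[(36,0)]⟩,⟨0,[(37,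
  0)]⟩⟩,⟨false,1,⟨1,[(5,1),(11,0),(1,0),(0,0),(17,1),(0,0)]⟩,⟨2,[(0,2),(1,0),(7,1),(6,0),(3,2),(0,
  0),(12,2)]⟩⟩,[.o ⟨false,0,⟨1,[(2,0),(2,0),(6,0),(25,0)]⟩,⟨7,[(10,7),(6,3),(0,0),(0,0),(11,1),(7,
  3)]⟩⟩,.o ⟨false,1,⟨5,[(11,1),(0,1),(11,1),(6,0),(6,1),(0,2)]⟩,⟨2,[(2,0),(7,1),(6,0),(4,0)]⟩⟩,.a
  ⟨true,0,⟨0,[(21,0)]⟩,⟨1,[(20,0),(8,0),(0,0)]⟩⟩ ⟨false,0,⟨6,[(0,4),(0,0),(3,0),(2,0),(9,0),(7,0)]⟩,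
  ⟨1,[(19,0),(19,0)]⟩⟩ ⟨true,0,⟨3,[(5,0),(6,1),(7,1),(7,0),(9,0)]⟩,⟨2,[(2,0),(7,1),(6,0),(3,2),(0,
  0)]⟩⟩,.o ⟨false,0,⟨0,[(13,0),(7,0)]⟩,⟨7,[(18,0),(0,0),(0,3),(10,1),(6,3)]⟩⟩]⟩))))) (.I [0,0,2,2,
  -1,0,0,1] (.K ⟨0,[0,1,1],1,0,(⟨0,[(27,0),(2,0)]⟩,⟨0,[(13,0)]⟩),.k,.k,(.r 1 ⟨0,[(0,0)]⟩ ⟨3,[(7,3),
  (6,3),(0,0),(0,0),(17,3),(0,3),(0,1)]⟩),.k,.k,[⟨0,[(1,0),(25,0),(2,1)]⟩,⟨1,[(14,0),(11,0),(0,0),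
  (7,1)]⟩,⟨0,[(22,0),(11,0)]⟩,⟨5,[(2,1),(6,1),(11,1),(6,0),(2,1),(3,0)]⟩]⟩) (.I [0,0,2,0,-1,-2,-1]
  (.K ⟨0,[0,1,1],1,0,(⟨0,[(28,0),(2,0)]⟩,⟨0,[(14,0)]⟩),.k,.k,(.x (-2) ⟨7,[(15,3),(0,2),(0,2),(10,7),
  (0,1),(1,15),(4,7)]⟩ ⟨0,[(0,0)]⟩),.k,.k,[⟨0,[(2,0),(25,0),(2,1)]⟩,⟨1,[(15,0),(11,0),(0,0),(7,1)]⟩,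
  ⟨0,[(23,0),(11,0)]⟩,⟨5,[(3,1),(6,1),(11,1),(6,0),(2,1),(3,0)]⟩]⟩) (.I [1,0,1,1,0,0,0,-1] (.Q [0,0,
  0,0,0,1,0,0,0,0,-1] (.ed true [1,-1,1] .k) (.Q [0,0,0,-1,0,0,-1,-1,0,0,1] (.p true [0,0,1] [] (⟨0,
  [(30,0)]⟩,⟨0,[(29,0)]⟩) .k 0 (⟨0,[]⟩,⟨0,[]⟩) .k .k) (.R ⟨0,false,false,true,[0,0,1],[1,-1],[1,1,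
  1],(⟨0,[(31,0)]⟩,⟨0,[(30,0)]⟩),(⟨0,[(33,0)]⟩,⟨0,[(34,0)]⟩),⟨0,[(1,0)]⟩,.k,.k,.k,.k,.k,.k,⟨false,0,
  ⟨2,[(2,0),(9,0),(29,0)]⟩,⟨1,[(4,0),(24,0),(9,0)]⟩⟩,⟨true,0,⟨0,[(24,0)]⟩,⟨1,[(18,0),(11,0),(0,
  0)]⟩⟩,⟨false,0,⟨1,[(0,0),(1,0),(24,0)]⟩,⟨1,[(29,1),(9,0),(0,0)]⟩⟩,⟨true,0,⟨1,[(0,0),(9,0),(12,
  0)]⟩,⟨9,[(3,1),(2,2),(6,3),(15,2),(0,1),(2,3),(5,0)]⟩⟩,⟨false,0,⟨0,[]⟩,⟨0,[]⟩⟩,⟨false,0,⟨0,[]⟩,⟨0,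
  []⟩⟩,[.o ⟨false,0,⟨0,[(10,0)]⟩,⟨3,[(15,1),(16,0),(7,2)]⟩⟩,.e ⟨false,0,⟨0,[]⟩,⟨3,[(19,0),(0,0),(18,
  1)]⟩⟩ ⟨false,1,⟨3,[(4,0),(6,1),(17,2),(2,0),(6,0),(0,0)]⟩,⟨0,[(0,0),(5,0),(11,0),(20,0)]⟩⟩,.a
  ⟨true,0,⟨1,[(18,0),(11,0),(0,0)]⟩,⟨1,[(0,1),(5,0),(22,0),(9,0)]⟩⟩ ⟨false,0,⟨1,[(27,0),(0,0)]⟩,⟨1,
  [(39,0),(0,0)]⟩⟩ ⟨true,0,⟨1,[(10,0),(0,0),(17,0)]⟩,⟨0,[(0,0),(5,0),(11,0),(20,0)]⟩⟩,.o ⟨false,0,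
  ⟨0,[(27,0)]⟩,⟨3,[(8,1),(20,1),(2,0),(6,1),(0,0)]⟩⟩]⟩) (.Q [0,-1,0,0,1,0,-2,-2,0,-1,2] (.p true [0,
  0,1] [1,0,-1] (⟨0,[(31,0)]⟩,⟨0,[(30,0)]⟩) .k 2 (⟨0,[(30,0)]⟩,⟨0,[(31,0)]⟩) .k (.r 0 ⟨0,[(29,1)]⟩
  ⟨5,[(2,7),(1,3),(14,0),(0,0)]⟩)) (.R ⟨0,false,false,false,[0,0,1],[1,-1,-1],[1,0,0,0,0,0,0,1],(⟨0,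
  [(32,0)]⟩,⟨0,[(31,0)]⟩),(⟨0,[(18,0)]⟩,⟨0,[(32,0),(2,0)]⟩),⟨0,[(2,0)]⟩,.k,.k,.k,(.r 0 ⟨5,[(13,2),
  (12,0),(2,0),(0,7),(5,0)]⟩ ⟨1,[(0,0),(4,0),(0,0),(12,1),(4,0),(7,0),(2,1),(4,0)]⟩),.k,.k,⟨false,0,
  ⟨1,[(7,0),(22,2),(9,0)]⟩,⟨1,[(0,0),(4,0),(0,0),(12,1),(4,0),(7,0),(2,1),(4,0)]⟩⟩,⟨true,0,⟨1,[(7,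
  0),(4,1),(17,0),(10,0)]⟩,⟨0,[(19,0)]⟩⟩,⟨true,0,⟨0,[]⟩,⟨0,[(43,0)]⟩⟩,⟨false,1,⟨0,[(0,0),(38,0)]⟩,
  ⟨0,[(14,0),(15,0)]⟩⟩,⟨false,0,⟨0,[]⟩,⟨0,[]⟩⟩,⟨false,0,⟨0,[]⟩,⟨0,[]⟩⟩,[.o ⟨false,1,⟨19,[(0,1),(4,
  3),(6,11),(7,2),(0,2),(6,7),(4,2),(7,4)]⟩,⟨0,[(1,0)]⟩⟩,.o ⟨false,1,⟨1,[(0,0),(10,0),(27,0),(1,
  0)]⟩,⟨1,[(1,0),(24,0),(11,0)]⟩⟩,.a ⟨true,0,⟨1,[(19,0),(11,0),(0,0)]⟩,⟨0,[(6,0),(25,0),(2,1),(4,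
  0)]⟩⟩ ⟨true,0,⟨0,[(30,0)]⟩,⟨1,[(19,0),(4,0),(2,0)]⟩⟩ ⟨false,1,⟨0,[(12,0),(28,0)]⟩,⟨0,[(14,0)]⟩⟩,
  .o ⟨false,0,⟨0,[(28,0)]⟩,⟨3,[(9,1),(20,1),(2,0),(6,1),(0,0)]⟩⟩]⟩) (.R ⟨0,false,false,false,[0,0,
  1],[1,0,-1],[1],(⟨0,[(32,0)]⟩,⟨0,[(31,0)]⟩),(⟨0,[(31,0)]⟩,⟨0,[(32,0)]⟩),⟨0,[(2,0)]⟩,.k,.k,.k,.k,
  .k,.k,⟨true,0,⟨0,[(30,0)]⟩,⟨0,[(3,0),(35,0)]⟩⟩,⟨false,1,⟨1,[(9,1),(20,1),(9,0),(0,0)]⟩,⟨0,[(19,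
  0)]⟩⟩,⟨false,1,⟨11,[(3,7),(1,3),(14,0),(0,0),(19,5)]⟩,⟨0,[(30,0)]⟩⟩,⟨true,1,⟨11,[(3,7),(1,3),(3,
  11),(10,0),(0,0),(19,5)]⟩,⟨0,[(0,0)]⟩⟩,⟨false,0,⟨0,[]⟩,⟨0,[]⟩⟩,⟨false,0,⟨0,[]⟩,⟨0,[]⟩⟩,[.o ⟨false,
  1,⟨11,[(3,3),(1,1),(3,5),(10,1),(0,1),(11,2),(7,2)]⟩,⟨3,[(0,1),(32,0),(7,0)]⟩⟩,.o ⟨false,1,⟨0,
  [(24,0),(16,0)]⟩,⟨0,[(26,0)]⟩⟩,.a ⟨true,0,⟨1,[(19,0),(11,0),(0,0)]⟩,⟨0,[(6,0),(25,0),(2,1),(4,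
  0)]⟩⟩ ⟨true,0,⟨0,[]⟩,⟨0,[(43,0)]⟩⟩ ⟨false,1,⟨0,[(9,0),(31,0)]⟩,⟨7,[(0,3),(18,3),(0,0),(0,0),(19,
  1)]⟩⟩,.o ⟨false,0,⟨0,[(28,0)]⟩,⟨3,[(9,1),(20,1),(2,0),(6,1),(0,0)]⟩⟩]⟩))) (.Q [0,0,1,1,0,0,-1,-1,
  0,-1,1] (.p true [0,0,1] [1] (⟨0,[(30,0)]⟩,⟨0,[(29,0)]⟩) .k 1 (⟨0,[]⟩,⟨0,[]⟩) .k .k) (.Q [0,1,0,1,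
  0,0,-1,-1,0,-1,1] (.p true [0,0,1] [1] (⟨0,[(31,0)]⟩,⟨0,[(30,0)]⟩) .k 1 (⟨0,[]⟩,⟨0,[]⟩) .k .k)
  (.K ⟨0,[1,1,-1],1,0,(⟨0,[(31,0),(3,0)]⟩,⟨0,[(2,0)]⟩),.k,.k,(.r 0 ⟨2,[(3,3),(9,0),(29,0)]⟩ ⟨0,[(5,
  0),(24,1)]⟩),.k,.k,[⟨0,[(6,0),(12,0),(12,0),(2,1)]⟩,⟨0,[(6,0),(25,0),(2,1),(4,1)]⟩,⟨0,[(26,0),(4,
  0),(0,0),(6,0)]⟩,⟨0,[(0,0)]⟩]⟩) (.R ⟨2,true,false,true,[0,1],[1,1,-1],[0,1,1],(⟨0,[]⟩,⟨0,[]⟩),(⟨0,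
  [(31,0),(3,0)]⟩,⟨0,[(2,0)]⟩),⟨0,[]⟩,.k,.k,.k,.k,.k,.k,⟨true,0,⟨3,[(0,1),(10,0),(0,0),(17,2)]⟩,⟨0,
  [(3,0)]⟩⟩,⟨false,1,⟨3,[(9,1),(20,1),(2,0),(6,1),(0,0)]⟩,⟨1,[(19,0),(11,0),(0,0)]⟩⟩,⟨false,0,⟨0,
  [(39,0)]⟩,⟨3,[(16,1),(16,0),(7,2)]⟩⟩,⟨true,0,⟨0,[(24,0)]⟩,⟨2,[(0,1),(15,0),(9,0)]⟩⟩,⟨true,0,⟨0,
  [(43,0)]⟩,⟨0,[]⟩⟩,⟨false,1,⟨3,[(1,3),(18,0),(0,0),(18,1)]⟩,⟨0,[(0,0)]⟩⟩,[]⟩)) (.R ⟨2,true,false,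
  true,[0,1],[1,1,-1],[0,1,1],(⟨0,[]⟩,⟨0,[]⟩),(⟨0,[(30,0),(3,0)]⟩,⟨0,[(1,0)]⟩),⟨0,[]⟩,.k,.k,.k,.k,
  .k,.k,⟨true,0,⟨0,[(0,0),(23,0)]⟩,⟨0,[(2,0)]⟩⟩,⟨false,1,⟨3,[(8,1),(20,1),(2,0),(6,1),(0,0)]⟩,⟨1,
  [(18,0),(11,0),(0,0)]⟩⟩,⟨false,0,⟨0,[(38,0)]⟩,⟨3,[(15,1),(16,0),(7,2)]⟩⟩,⟨true,0,⟨0,[(23,0)]⟩,⟨1,
  [(0,0),(12,0),(14,0)]⟩⟩,⟨true,0,⟨0,[(42,0)]⟩,⟨0,[]⟩⟩,⟨false,1,⟨7,[(2,3),(5,3),(6,1),(16,2),(6,1),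
  (0,2)]⟩,⟨0,[(0,0),(35,0)]⟩⟩,[]⟩))) (.R ⟨1,true,false,false,[1,0,-1],[0,1,1],[0,0,0,-1,0,0,0,-1],
  (⟨0,[(28,0)]⟩,⟨0,[(29,0)]⟩),(⟨0,[(29,0),(2,0)]⟩,⟨0,[(15,0)]⟩),⟨0,[(15,0)]⟩,.k,.k,.k,(.r (-2) ⟨9,
  [(2,13),(4,5),(6,5),(2,2),(0,2),(5,5)]⟩ ⟨0,[(0,0),(3,0)]⟩),(.r (-2) ⟨4,[(2,7),(4,1),(6,1),(2,0),
  (0,0),(5,1)]⟩ ⟨9,[(0,5),(3,9),(5,2),(12,0),(2,0),(6,0)]⟩),.k,⟨true,1,⟨1,[(2,1),(13,0),(4,0),(2,0),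
  (9,1)]⟩,⟨9,[(0,5),(3,9),(5,2),(12,0),(2,0),(6,0)]⟩⟩,⟨false,1,⟨0,[(16,0),(20,0)]⟩,⟨2,[(0,0),(3,0),
  (4,2),(0,0),(27,0)]⟩⟩,⟨true,0,⟨0,[(36,0)]⟩,⟨0,[(35,0)]⟩⟩,⟨false,0,⟨1,[(0,1),(3,1),(11,1),(20,0),
  (0,0)]⟩,⟨0,[(2,0),(4,0),(1,0)]⟩⟩,⟨false,1,⟨3,[(17,0),(0,0),(19,1)]⟩,⟨0,[]⟩⟩,⟨true,0,⟨18,[(0,5),(3,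
  8),(5,2),(0,17),(1,0),(9,1),(13,8)]⟩,⟨0,[(2,0),(0,0),(17,0),(7,0),(2,1)]⟩⟩,[]⟩)))))))

theorem ok8 : chk (cU (-1) false 10) t8 l12 = true := by decide +kernel

noncomputable def t9 : Tre :=
  (.Q [0,0,0,1,0,0,0,0,0,1] (.pp false [-1,1]) (.R ⟨1,false,false,false,[1,0,-1],[1,-1],[1,0,0,0,0,
  0,0,-1],(⟨0,[(23,0)]⟩,⟨0,[(24,0)]⟩),(⟨0,[(26,0)]⟩,⟨0,[(27,0)]⟩),⟨0,[(10,0)]⟩,.k,.k,.k,.k,.k,.k,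
  ⟨true,0,⟨0,[(0,0),(0,0),(14,1),(12,0)]⟩,⟨0,[(22,0),(8,0)]⟩⟩,⟨false,0,⟨0,[(1,0),(14,0)]⟩,⟨0,[(21,
  0),(10,0)]⟩⟩,⟨true,0,⟨0,[]⟩,⟨0,[(35,0)]⟩⟩,⟨true,0,⟨1,[(1,0),(1,0),(18,0),(8,0)]⟩,⟨0,[(0,0),(15,
  0)]⟩⟩,⟨false,1,⟨3,[(8,1),(16,0),(7,2)]⟩,⟨0,[(31,0)]⟩⟩,⟨true,0,⟨0,[(1,0),(14,0),(5,0)]⟩,⟨0,[(19,
  0)]⟩⟩,[.a ⟨true,0,⟨0,[(31,0)]⟩,⟨0,[(0,0)]⟩⟩ ⟨false,1,⟨1,[(11,0),(4,0),(2,0),(12,0),(0,0)]⟩,⟨0,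
  [(22,0)]⟩⟩ ⟨true,0,⟨0,[(1,0),(14,0),(14,0)]⟩,⟨1,[(0,0),(3,0),(0,0)]⟩⟩,.o ⟨false,1,⟨0,[(3,0),(29,
  0)]⟩,⟨0,[(30,0)]⟩⟩,.o ⟨false,1,⟨1,[(21,1),(3,0),(6,0)]⟩,⟨0,[(1,0),(14,0)]⟩⟩,.o ⟨false,0,⟨0,[(17,
  0)]⟩,⟨7,[(11,3),(0,0),(0,0),(11,1),(6,3)]⟩⟩]⟩) (.Q [0,-1,0,-1,0,0,1,1,0,0,-1] (.p false [0,0,1]
  [] (⟨0,[(24,0)]⟩,⟨0,[(23,0)]⟩) .k 0 (⟨0,[]⟩,⟨0,[]⟩) .k .k) (.R ⟨2,true,false,false,[0,1],[0,0,1],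
  [0,0,1],(⟨0,[]⟩,⟨0,[]⟩),(⟨0,[(25,0)]⟩,⟨0,[(24,0)]⟩),⟨0,[]⟩,.k,.k,.k,.k,.k,.k,⟨true,0,⟨1,[(12,0),
  (4,0),(2,0),(9,1)]⟩,⟨0,[(23,0)]⟩⟩,⟨false,0,⟨0,[(2,0),(14,0)]⟩,⟨0,[(22,0),(10,0)]⟩⟩,⟨true,0,⟨0,
  [(32,0)]⟩,⟨0,[(31,0)]⟩⟩,⟨false,0,⟨0,[(0,0)]⟩,⟨3,[(9,1),(10,3),(5,0),(7,2)]⟩⟩,⟨false,1,⟨3,[(13,0),
  (0,0),(19,1)]⟩,⟨0,[]⟩⟩,⟨true,0,⟨1,[(1,0),(5,0),(15,0)]⟩,⟨0,[(20,0)]⟩⟩,[]⟩) (.Q [0,0,0,-1,0,0,-1,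
  -1,0,0,1] (.p true [0,0,1] [] (⟨0,[(25,0)]⟩,⟨0,[(24,0)]⟩) .k 0 (⟨0,[]⟩,⟨0,[]⟩) .k .k) (.R ⟨2,true,
  false,true,[0,1],[0,1,1],[0,0,1],(⟨0,[]⟩,⟨0,[]⟩),(⟨0,[(26,0),(2,0)]⟩,⟨0,[(12,0)]⟩),⟨0,[]⟩,.k,.k,
  .k,.k,.k,.k,⟨false,1,⟨1,[(0,1),(2,1),(14,1),(15,0),(0,0)]⟩,⟨0,[(24,0),(7,0)]⟩⟩,⟨true,0,⟨0,[(3,0),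
  (14,0)]⟩,⟨0,[(23,0)]⟩⟩,⟨true,0,⟨0,[(33,0)]⟩,⟨0,[(32,0)]⟩⟩,⟨false,0,⟨1,[(2,0),(5,0),(15,0)]⟩,⟨7,
  [(0,3),(0,3),(12,0),(0,0),(19,5)]⟩⟩,⟨false,1,⟨3,[(14,0),(0,0),(19,1)]⟩,⟨0,[]⟩⟩,⟨true,0,⟨1,[(2,0),
  (5,0),(15,0),(7,1)]⟩,⟨0,[(0,0)]⟩⟩,[]⟩) (.Q [0,0,-1,0,0,0,2,0,0,1,-2] (.p false [0,0,1] [1,0,-1]
  (⟨0,[(26,0)]⟩,⟨0,[(25,0)]⟩) .k 2 (⟨0,[(25,0)]⟩,⟨0,[(26,0)]⟩) .k (.r 0 ⟨0,[(24,1)]⟩ ⟨0,[(13,0),(4,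
  0),(2,0),(13,0)]⟩)) (.K ⟨2,[0,1,1],0,0,(⟨0,[(27,0),(2,0)]⟩,⟨0,[(13,0)]⟩),.k,.k,(.r 0 ⟨0,[(8,0),
  (29,0)]⟩ ⟨1,[(0,1),(6,1),(26,1),(0,0),(0,0)]⟩),.k,(.r 0 ⟨5,[(8,2),(12,0),(2,0),(0,7),(5,0)]⟩ ⟨1,
  [(0,1),(6,1),(6,0),(4,0),(2,0),(13,1)]⟩),[⟨1,[(23,0),(0,0)]⟩,⟨0,[(0,0)]⟩,⟨1,[(23,0),(0,2)]⟩,⟨2,
  [(0,0),(2,0),(8,0)]⟩,⟨0,[(22,0),(11,0)]⟩,⟨1,[(1,0),(19,0),(11,0)]⟩]⟩) (.Q [0,0,0,0,0,1,0,0,0,0,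
  -1] (.ed true [1,-1,1] .k) (.Q [0,0,0,0,0,0,-1,0,0,1,1] (.p true [1,-1,1] [] (⟨0,[(28,0),(1,0)]⟩,
  ⟨0,[(0,0)]⟩) .k 0 (⟨0,[]⟩,⟨0,[]⟩) .k .k) (.K ⟨0,[1,-1,1],0,0,(⟨0,[(29,0),(1,0)]⟩,⟨0,[(1,0)]⟩),.k,
  (.r (-1) ⟨0,[(27,0),(8,1),(0,0)]⟩ ⟨1,[(7,1),(8,0),(4,0),(2,0)]⟩),.k,.k,.k,[⟨0,[(0,0)]⟩,⟨0,[(6,0),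
  (14,0)]⟩,⟨2,[(0,1),(3,2),(11,0)]⟩,⟨0,[(5,0),(17,0)]⟩]⟩) (.Q [0,1,0,-1,0,0,-2,-2,0,-1,2] (.p true
  [0,0,1] [1,0,-1] (⟨0,[(29,0)]⟩,⟨0,[(28,0)]⟩) .k 2 (⟨0,[(28,0)]⟩,⟨0,[(29,0)]⟩) .k (.r 0 ⟨0,[(27,
  1)]⟩ ⟨0,[(16,0),(4,0),(2,0),(13,0)]⟩)) (.R ⟨1,true,false,false,[1,0,-1],[0,0,1],[1,0,0,0,0,0,0,
  -1],(⟨0,[(29,0)]⟩,⟨0,[(30,0)]⟩),(⟨0,[(30,0)]⟩,⟨0,[(29,0)]⟩),⟨0,[(16,0)]⟩,.k,.k,.k,.k,(.r (-1) ⟨1,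
  [(0,1),(16,1),(20,0),(0,0)]⟩ ⟨9,[(3,0),(7,3),(2,0),(9,2),(2,0),(0,12)]⟩),.k,⟨false,1,⟨5,[(0,5),(0,
  1),(3,5),(1,5),(9,1),(20,2),(0,2)]⟩,⟨0,[(28,1)]⟩⟩,⟨true,0,⟨0,[(17,0)]⟩,⟨0,[(3,0)]⟩⟩,⟨true,0,⟨0,
  []⟩,⟨0,[(41,0)]⟩⟩,⟨false,0,⟨0,[(7,0),(20,0)]⟩,⟨11,[(0,7),(4,7),(12,0),(0,0),(11,1),(7,7)]⟩⟩,
  ⟨false,1,⟨3,[(14,1),(16,0),(7,2)]⟩,⟨0,[(37,0)]⟩⟩,⟨true,0,⟨0,[(12,0),(15,0)]⟩,⟨0,[(0,0)]⟩⟩,[]⟩)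
  (.I [1,0,-1,0,0,0,0,0,-1] (.Q [0,0,0,0,0,1,0,0,0,0,0,-1] (.p false [0,0,0,1] [] (⟨0,[(22,0)]⟩,⟨1,
  [(21,0),(8,0),(0,0)]⟩) .k 0 (⟨0,[]⟩,⟨0,[]⟩) .k .k) (.R ⟨0,false,false,false,[0,0,0,1],[1,-1],[1,0,
  0,0,0,0,0,0,1],(⟨0,[(23,0)]⟩,⟨1,[(22,0),(8,0),(0,0)]⟩),(⟨0,[(34,0)]⟩,⟨0,[(35,0)]⟩),⟨0,[(0,0)]⟩,.k,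
  .k,(.r (-1) ⟨1,[(21,0),(17,1),(0,0)]⟩ ⟨5,[(1,5),(5,1),(5,1),(14,4),(0,2)]⟩),(.r (-1) ⟨11,[(7,3),
  (5,3),(6,2),(0,8),(6,3)]⟩ ⟨0,[(1,0),(37,0)]⟩),.k,.k,⟨false,1,⟨3,[(16,1),(4,1),(11,0),(7,0)]⟩,⟨0,
  [(1,0),(37,0)]⟩⟩,⟨true,0,⟨0,[(15,0),(7,0)]⟩,⟨1,[(22,0),(8,0),(0,0)]⟩⟩,⟨true,0,⟨0,[]⟩,⟨0,[(43,
  0)]⟩⟩,⟨false,0,⟨0,[(1,0),(6,0),(14,0),(13,0)]⟩,⟨7,[(16,3),(3,0),(0,4),(0,3),(18,1)]⟩⟩,⟨false,0,⟨0,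
  []⟩,⟨0,[]⟩⟩,⟨false,0,⟨0,[]⟩,⟨0,[]⟩⟩,[.o ⟨false,0,⟨0,[(8,0)]⟩,⟨3,[(16,1),(3,0),(0,0),(11,0),(7,
  0)]⟩⟩,.o ⟨false,1,⟨3,[(8,3),(11,0),(0,0),(19,1)]⟩,⟨0,[(38,0)]⟩⟩,.a ⟨true,0,⟨1,[(22,0),(8,0),(0,
  0)]⟩,⟨0,[(23,0)]⟩⟩ ⟨false,1,⟨1,[(21,0),(19,0)]⟩,⟨1,[(1,1),(26,0),(0,0)]⟩⟩ ⟨true,0,⟨0,[(8,0),(14,
  0)]⟩,⟨1,[(16,0),(5,0),(20,0)]⟩⟩,.o ⟨false,0,⟨1,[(22,0),(2,0),(2,0)]⟩,⟨1,[(23,1),(9,0),(6,0)]⟩⟩]⟩)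
  (.R ⟨1,false,false,true,[1,0,0,-1],[1,-1,-1],[0,0,0,-1,0,0,0,0,-1],(⟨1,[(22,0),(8,0),(0,0)]⟩,⟨0,
  [(23,0)]⟩),(⟨0,[(18,0)]⟩,⟨0,[(32,0),(2,0)]⟩),⟨0,[(0,0),(21,0)]⟩,.k,.k,(.r 0 ⟨0,[(1,0),(37,0)]⟩
  ⟨11,[(7,3),(5,3),(6,2),(0,8),(6,3)]⟩),(.x (-1) ⟨7,[(19,3),(0,0),(0,0),(10,7),(0,1),(1,7),(4,3)]⟩
  ⟨1,[(5,0),(9,0),(2,1)]⟩),.k,.k,⟨false,0,⟨0,[(1,0),(3,0),(3,0)]⟩,⟨1,[(19,0),(1,0),(2,0),(2,0),(12,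
  0)]⟩⟩,⟨true,0,⟨3,[(5,1),(16,1),(5,0),(0,0)]⟩,⟨2,[(3,0),(15,0),(3,2)]⟩⟩,⟨true,0,⟨0,[(39,0)]⟩,⟨0,
  [(38,0)]⟩⟩,⟨false,1,⟨1,[(12,1),(6,0),(1,0),(0,0),(18,0)]⟩,⟨2,[(1,2),(0,0),(0,0),(9,0),(9,2),(13,
  0)]⟩⟩,⟨false,1,⟨3,[(20,0),(0,0),(19,1)]⟩,⟨0,[]⟩⟩,⟨false,1,⟨1,[(21,0),(0,0),(1,0),(2,0),(13,0)]⟩,
  ⟨2,[(1,2),(6,1),(0,1),(3,0),(9,2),(5,0)]⟩⟩,[.o ⟨false,0,⟨2,[(8,0),(3,1),(6,0),(4,0)]⟩,⟨7,[(2,3),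
  (13,1),(3,0),(0,0),(11,2),(7,2)]⟩⟩,.o ⟨false,1,⟨7,[(12,7),(6,3),(0,0),(0,0),(11,1),(7,3)]⟩,⟨0,[(6,
  0)]⟩⟩,.a ⟨true,0,⟨0,[(23,0)]⟩,⟨1,[(22,0),(8,0),(0,0)]⟩⟩ ⟨false,0,⟨0,[(1,0),(35,0),(1,0)]⟩,⟨3,[(16,
  1),(4,1),(11,0),(7,0)]⟩⟩ ⟨true,0,⟨1,[(12,1),(6,0),(2,0)]⟩,⟨0,[(6,0),(16,0)]⟩⟩,.o ⟨false,0,⟨0,[(15,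
  0),(7,0)]⟩,⟨7,[(20,0),(0,0),(0,3),(10,1),(6,3)]⟩⟩]⟩)) (.I [0,0,1,1,0,0,0,0,-1] (.I [0,1,0,0,0,0,0,
  0,1] (.Q [0,1,0,0,0,0,0,0,-1,-1,0,1] (.p true [0,0,0,1] [1] (⟨0,[(24,0)]⟩,⟨1,[(23,0),(8,0),(0,
  0)]⟩) .k 1 (⟨0,[]⟩,⟨0,[]⟩) .k .k) (.K ⟨2,[1,0,0,-1],0,0,(⟨1,[(24,0),(8,0),(0,0)]⟩,⟨0,[(25,0)]⟩),
  .k,(.x 0 ⟨0,[(17,0),(18,0)]⟩ ⟨3,[(22,0),(0,0),(13,3),(4,1)]⟩),(.r 0 ⟨0,[(2,0)]⟩ ⟨1,[(23,0),(17,1),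
  (0,0)]⟩),.k,.k,[⟨1,[(21,0),(2,0)]⟩,⟨2,[(5,0),(15,0),(3,2)]⟩,⟨1,[(21,0),(2,0),(6,1)]⟩,⟨0,[(17,0),
  (7,0)]⟩,⟨1,[(1,1),(22,0),(8,0),(0,0)]⟩,⟨0,[(0,0)]⟩]⟩) (.Q [0,0,0,0,0,1,0,0,0,0,0,-1] (.p false [0,
  0,0,1] [] (⟨0,[(25,0)]⟩,⟨1,[(24,0),(8,0),(0,0)]⟩) .k 0 (⟨0,[]⟩,⟨0,[]⟩) .k .k) (.R ⟨0,false,false,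
  false,[0,0,0,1],[1,-1],[0,0,0,-1,0,0,0,0,1],(⟨0,[(26,0)]⟩,⟨1,[(25,0),(8,0),(0,0)]⟩),(⟨0,[(37,0)]⟩,
  ⟨0,[(38,0)]⟩),⟨0,[(0,0)]⟩,.k,.k,(.r (-1) ⟨1,[(24,0),(17,1),(0,0)]⟩ ⟨0,[(3,0)]⟩),(.r 0 ⟨5,[(1,1),
  (0,3),(3,0),(6,1),(2,0),(9,1),(0,0)]⟩ ⟨1,[(23,0),(18,1),(0,0)]⟩),.k,.k,⟨false,0,⟨2,[(1,1),(0,0),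
  (6,0),(1,0),(14,1),(0,0)]⟩,⟨1,[(23,0),(19,0)]⟩⟩,⟨true,0,⟨0,[(18,0),(7,0)]⟩,⟨1,[(25,0),(8,0),(0,
  0)]⟩⟩,⟨true,0,⟨0,[(42,0)]⟩,⟨0,[(41,0)]⟩⟩,⟨false,1,⟨1,[(11,1),(11,0),(2,1),(17,0)]⟩,⟨0,[(1,0),(39,
  0)]⟩⟩,⟨false,0,⟨0,[]⟩,⟨0,[]⟩⟩,⟨false,0,⟨0,[]⟩,⟨0,[]⟩⟩,[.o ⟨false,0,⟨0,[(11,0)]⟩,⟨3,[(19,1),(3,0),
  (0,0),(11,0),(7,0)]⟩⟩,.o ⟨false,1,⟨3,[(11,3),(11,0),(0,0),(19,1)]⟩,⟨0,[(41,0)]⟩⟩,.a ⟨true,0,⟨1,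
  [(25,0),(8,0),(0,0)]⟩,⟨0,[(26,0)]⟩⟩ ⟨false,0,⟨0,[(1,0),(9,0),(14,0)]⟩,⟨3,[(19,1),(3,1),(12,0),(7,
  0)]⟩⟩ ⟨true,0,⟨0,[(11,0),(14,0)]⟩,⟨1,[(19,0),(5,0),(20,0)]⟩⟩,.o ⟨false,0,⟨1,[(25,0),(2,0),(2,0)]⟩,
  ⟨1,[(26,1),(9,0),(6,0)]⟩⟩]⟩) (.R ⟨1,false,false,false,[0,0,0,1],[1,-1],[0,0,0,-1,0,0,0,0,1],(⟨0,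
  [(26,0)]⟩,⟨1,[(25,0),(8,0),(0,0)]⟩),(⟨0,[(37,0)]⟩,⟨0,[(38,0)]⟩),⟨0,[(0,0)]⟩,.k,.k,(.r (-1) ⟨1,
  [(24,0),(17,1),(0,0)]⟩ ⟨0,[(3,0)]⟩),(.r 0 ⟨5,[(1,1),(0,3),(3,0),(6,1),(2,0),(9,1),(0,0)]⟩ ⟨1,[(23,
  0),(18,1),(0,0)]⟩),.k,.k,⟨false,0,⟨2,[(1,1),(0,0),(6,0),(1,0),(14,1),(0,0)]⟩,⟨1,[(23,0),(19,0)]⟩⟩,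
  ⟨true,0,⟨0,[(18,0),(7,0)]⟩,⟨1,[(25,0),(8,0),(0,0)]⟩⟩,⟨true,0,⟨0,[(42,0)]⟩,⟨0,[(41,0)]⟩⟩,⟨false,1,
  ⟨1,[(11,1),(11,0),(2,1),(17,0)]⟩,⟨0,[(1,0),(39,0)]⟩⟩,⟨false,1,⟨3,[(23,0),(0,0),(19,1)]⟩,⟨0,[]⟩⟩,
  ⟨false,1,⟨1,[(3,1),(7,1),(14,1),(16,0),(0,0)]⟩,⟨7,[(1,5),(0,1),(19,0),(2,0),(6,1),(6,1)]⟩⟩,[.o
  ⟨false,0,⟨0,[(11,0)]⟩,⟨3,[(19,1),(3,0),(0,0),(11,0),(7,0)]⟩⟩,.o ⟨false,1,⟨3,[(11,3),(11,0),(0,0),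
  (19,1)]⟩,⟨0,[(41,0)]⟩⟩,.a ⟨true,0,⟨1,[(25,0),(8,0),(0,0)]⟩,⟨0,[(26,0)]⟩⟩ ⟨false,0,⟨0,[(1,0),(9,0),
  (14,0)]⟩,⟨3,[(19,1),(3,1),(12,0),(7,0)]⟩⟩ ⟨true,0,⟨0,[(11,0),(14,0)]⟩,⟨1,[(19,0),(5,0),(20,0)]⟩⟩,
  .o ⟨false,0,⟨1,[(25,0),(2,0),(2,0)]⟩,⟨1,[(26,1),(9,0),(6,0)]⟩⟩]⟩))) (.Q [0,0,0,0,0,1,0,0,0,0,0,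
  -1] (.p false [0,0,0,1] [] (⟨0,[(24,0)]⟩,⟨1,[(23,0),(8,0),(0,0)]⟩) .k 0 (⟨0,[]⟩,⟨0,[]⟩) .k .k)
  (.R ⟨0,false,false,false,[0,0,0,1],[0,0,1],[0,1,0,0,0,0,0,0,1],(⟨0,[(25,0)]⟩,⟨1,[(24,0),(8,0),(0,
  0)]⟩),(⟨0,[(34,0)]⟩,⟨0,[(33,0)]⟩),⟨0,[(0,0)]⟩,.k,.k,(.r (-1) ⟨1,[(23,0),(17,1),(0,0)]⟩ ⟨0,[(2,
  0)]⟩),.k,.k,.k,⟨false,1,⟨1,[(21,0),(1,0),(2,0),(2,0),(12,0)]⟩,⟨0,[(1,0),(30,0)]⟩⟩,⟨true,0,⟨2,[(5,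
  0),(15,0),(3,2)]⟩,⟨3,[(7,1),(16,1),(5,0),(0,0)]⟩⟩,⟨true,0,⟨0,[(45,0)]⟩,⟨0,[]⟩⟩,⟨false,0,⟨2,[(1,2),
  (2,0),(5,0),(14,2),(2,0)]⟩,⟨1,[(23,0),(0,0),(1,0),(2,0),(13,0)]⟩⟩,⟨false,0,⟨0,[]⟩,⟨0,[]⟩⟩,⟨false,
  0,⟨0,[]⟩,⟨0,[]⟩⟩,[.o ⟨false,0,⟨2,[(4,0),(5,0),(17,0)]⟩,⟨1,[(29,1),(5,0),(7,0)]⟩⟩,.o ⟨false,1,⟨0,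
  [(28,0),(14,0)]⟩,⟨0,[(26,0)]⟩⟩,.a ⟨true,0,⟨1,[(24,0),(8,0),(0,0)]⟩,⟨0,[(25,0)]⟩⟩ ⟨false,1,⟨3,[(22,
  0),(0,2)]⟩,⟨0,[(1,0)]⟩⟩ ⟨true,0,⟨2,[(4,0),(5,0),(14,2),(2,0)]⟩,⟨1,[(24,0),(1,0),(2,0)]⟩⟩,.o
  ⟨false,0,⟨1,[(24,0),(2,0),(2,0)]⟩,⟨1,[(25,1),(9,0),(6,0)]⟩⟩]⟩) (.Q [0,-1,0,0,1,0,0,0,1,0,0,-1]
  (.p false [0,0,0,1] [] (⟨0,[(25,0)]⟩,⟨1,[(24,0),(8,0),(0,0)]⟩) .k 0 (⟨0,[]⟩,⟨0,[]⟩) .k .k) (.R ⟨1,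
  false,false,false,[1,0,0,-1],[1,-1],[1,0,0,0,0,0,0,0,-1],(⟨1,[(25,0),(8,0),(0,0)]⟩,⟨0,[(26,0)]⟩),
  (⟨0,[(37,0)]⟩,⟨0,[(38,0)]⟩),⟨0,[(1,0),(23,0)]⟩,.k,.k,(.x 0 ⟨0,[(18,0),(18,0)]⟩ ⟨3,[(23,0),(0,0),
  (13,3),(4,1)]⟩),(.r 0 ⟨0,[(3,0)]⟩ ⟨1,[(24,0),(17,1),(0,0)]⟩),.k,.k,⟨false,0,⟨0,[(2,0),(38,0)]⟩,⟨1,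
  [(24,0),(17,1),(0,0)]⟩⟩,⟨true,0,⟨1,[(25,0),(2,0),(2,0)]⟩,⟨0,[(26,0)]⟩⟩,⟨true,0,⟨0,[]⟩,⟨0,[(46,
  0)]⟩⟩,⟨false,1,⟨0,[(0,0),(41,0)]⟩,⟨0,[(2,0),(23,0),(14,0)]⟩⟩,⟨false,1,⟨3,[(19,1),(16,0),(7,2)]⟩,
  ⟨0,[(42,0)]⟩⟩,⟨false,1,⟨0,[(0,0)]⟩,⟨2,[(2,1),(0,0),(22,2),(12,0),(2,0)]⟩⟩,[.o ⟨false,0,⟨0,[(11,
  0)]⟩,⟨3,[(19,1),(3,0),(0,0),(11,0),(7,0)]⟩⟩,.o ⟨false,1,⟨3,[(11,3),(11,0),(0,0),(19,1)]⟩,⟨0,[(41,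
  0)]⟩⟩,.a ⟨true,0,⟨0,[(26,0)]⟩,⟨1,[(25,0),(8,0),(0,0)]⟩⟩ ⟨false,0,⟨0,[(2,0)]⟩,⟨3,[(23,0),(0,2)]⟩⟩
  ⟨true,0,⟨1,[(11,0),(13,0),(16,0)]⟩,⟨0,[(26,0),(14,0)]⟩⟩,.o ⟨false,0,⟨0,[(18,0),(7,0)]⟩,⟨7,[(23,0),
  (0,0),(0,3),(10,1),(6,3)]⟩⟩]⟩) (.K ⟨1,[0,0,0,1],0,1,(⟨0,[(26,0)]⟩,⟨1,[(25,0),(8,0),(0,0)]⟩),.k,
  (.r (-1) ⟨1,[(24,0),(17,1),(0,0)]⟩ ⟨0,[(3,0)]⟩),(.r (-1) ⟨11,[(10,3),(5,3),(6,2),(0,8),(6,3)]⟩ ⟨3,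
  [(0,1),(1,1),(8,0),(13,0),(16,2),(0,1)]⟩),.k,.k,[⟨1,[(26,1),(4,0),(0,0)]⟩,⟨3,[(8,0),(9,0),(6,1),
  (5,1)]⟩,⟨0,[(0,0)]⟩,⟨1,[(24,0),(0,0),(8,0),(0,0),(8,0)]⟩]⟩)))) (.Q [0,0,0,0,0,1,0,0,0,0,0,-1] (.p
  false [0,0,0,1] [] (⟨0,[(23,0)]⟩,⟨1,[(22,0),(8,0),(0,0)]⟩) .k 0 (⟨0,[]⟩,⟨0,[]⟩) .k .k) (.R ⟨0,
  false,false,false,[0,0,0,1],[1,-1],[1,0,0,-1,0,0,0,0,1],(⟨0,[(24,0)]⟩,⟨1,[(23,0),(8,0),(0,0)]⟩),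
  (⟨0,[(35,0)]⟩,⟨0,[(36,0)]⟩),⟨0,[(0,0)]⟩,.k,.k,(.x 0 ⟨0,[(16,0),(18,0)]⟩ ⟨3,[(21,0),(0,0),(13,3),
  (4,1)]⟩),(.r 0 ⟨4,[(1,1),(0,2),(1,0),(3,0),(2,0),(2,0),(2,0)]⟩ ⟨1,[(21,0),(18,1),(0,0)]⟩),.k,.k,
  ⟨false,0,⟨9,[(1,6),(0,2),(1,0),(3,0),(2,0),(2,0),(2,0)]⟩,⟨1,[(21,0),(19,0)]⟩⟩,⟨true,0,⟨0,[(16,0),
  (7,0)]⟩,⟨1,[(23,0),(8,0),(0,0)]⟩⟩,⟨true,0,⟨0,[(40,0)]⟩,⟨0,[(39,0)]⟩⟩,⟨false,1,⟨1,[(9,1),(11,0),(2,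
  1),(17,0)]⟩,⟨1,[(1,1),(9,0),(5,0),(5,0)]⟩⟩,⟨false,0,⟨0,[]⟩,⟨0,[]⟩⟩,⟨false,0,⟨0,[]⟩,⟨0,[]⟩⟩,[.o
  ⟨false,0,⟨0,[(9,0)]⟩,⟨3,[(17,1),(3,0),(0,0),(11,0),(7,0)]⟩⟩,.o ⟨false,1,⟨3,[(9,3),(11,0),(0,0),
  (19,1)]⟩,⟨0,[(39,0)]⟩⟩,.a ⟨true,0,⟨1,[(23,0),(8,0),(0,0)]⟩,⟨0,[(24,0)]⟩⟩ ⟨false,0,⟨0,[(1,0),(36,
  0)]⟩,⟨3,[(17,1),(3,1),(12,0),(7,0)]⟩⟩ ⟨true,0,⟨0,[(9,0),(14,0)]⟩,⟨1,[(17,0),(5,0),(20,0)]⟩⟩,.o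
  ⟨false,0,⟨1,[(23,0),(2,0),(2,0)]⟩,⟨1,[(24,1),(9,0),(6,0)]⟩⟩]⟩) (.I [0,-1,0,0,0,0,0,0,1] (.R ⟨1,
  false,false,false,[1,0,0,-1],[0,0,1],[1,1,0,0,0,0,0,0,-1],(⟨1,[(24,0),(8,0),(0,0)]⟩,⟨0,[(25,0)]⟩),
  (⟨0,[(34,0)]⟩,⟨0,[(33,0)]⟩),⟨0,[(1,0),(22,0)]⟩,.k,.k,(.r (-1) ⟨1,[(22,0),(18,1),(0,0)]⟩ ⟨4,[(0,1),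
  (2,2),(8,0),(27,2)]⟩),.k,(.x 0 ⟨1,[(7,0),(9,0),(2,1)]⟩ ⟨7,[(21,3),(0,0),(0,0),(10,7),(0,1),(1,7),
  (4,3)]⟩),.k,⟨false,1,⟨1,[(21,0),(0,0),(3,0),(2,0),(12,0)]⟩,⟨0,[(0,0),(31,0)]⟩⟩,⟨true,0,⟨1,[(21,0),
  (2,0)]⟩,⟨1,[(7,0),(9,0),(7,1)]⟩⟩,⟨false,0,⟨0,[]⟩,⟨3,[(22,0),(0,0),(19,1)]⟩⟩,⟨false,0,⟨3,[(0,1),(1,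
  0),(0,0),(0,1),(19,1),(16,0)]⟩,⟨1,[(22,0),(2,1),(0,1),(16,0)]⟩⟩,⟨true,0,⟨0,[(40,0)]⟩,⟨0,[(41,
  0)]⟩⟩,⟨false,0,⟨15,[(0,13),(1,0),(0,0),(0,4),(3,5),(9,2),(5,7)]⟩,⟨5,[(10,1),(3,3),(6,1),(0,2),(2,
  5),(0,1),(16,2)]⟩⟩,[.o ⟨false,0,⟨2,[(4,0),(5,0),(17,0)]⟩,⟨1,[(29,1),(5,0),(7,0)]⟩⟩,.o ⟨false,1,⟨0,
  [(28,0),(14,0)]⟩,⟨0,[(26,0)]⟩⟩,.a ⟨true,0,⟨0,[(25,0)]⟩,⟨1,[(24,0),(8,0),(0,0)]⟩⟩ ⟨false,1,⟨3,[(22,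
  2),(0,0)]⟩,⟨0,[(0,0)]⟩⟩ ⟨true,0,⟨5,[(4,1),(19,2),(3,1),(4,0),(0,0),(6,1)]⟩,⟨0,[(25,0),(0,0)]⟩⟩,.o
  ⟨false,0,⟨0,[(17,0),(7,0)]⟩,⟨7,[(22,0),(0,0),(0,3),(10,1),(6,3)]⟩⟩]⟩) (.K ⟨2,[0,0,0,1],0,0,(⟨0,
  [(25,0)]⟩,⟨1,[(24,0),(8,0),(0,0)]⟩),.k,(.x 0 ⟨0,[(17,0),(18,0)]⟩ ⟨3,[(22,0),(0,0),(13,3),(4,1)]⟩),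
  (.r 0 ⟨4,[(2,1),(0,2),(1,0),(3,0),(2,0),(2,0),(2,0)]⟩ ⟨1,[(22,0),(18,1),(0,0)]⟩),.k,.k,[⟨2,[(5,0),
  (15,0),(3,2)]⟩,⟨1,[(21,0),(2,0)]⟩,⟨1,[(25,1),(4,0),(0,0)]⟩,⟨1,[(24,0),(2,0),(2,0)]⟩,⟨0,[(0,0),(24,
  0)]⟩,⟨21,[(2,7),(0,13),(1,1),(1,0),(0,7),(15,10),(1,7),(11,6)]⟩]⟩))))))) (.Q [0,-1,0,-1,0,0,1,1,0,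
  1,-1] (.p false [0,0,1] [1] (⟨0,[(28,0)]⟩,⟨0,[(27,0)]⟩) .k 1 (⟨0,[]⟩,⟨0,[]⟩) .k .k) (.R ⟨2,true,
  false,true,[0,1],[1,1,-1],[0,1,1],(⟨0,[]⟩,⟨0,[]⟩),(⟨0,[(28,0),(3,0)]⟩,⟨0,[(1,0)]⟩),⟨0,[]⟩,.k,.k,
  .k,.k,.k,.k,⟨true,0,⟨3,[(0,1),(7,0),(0,0),(17,2)]⟩,⟨0,[(4,0),(1,0),(14,0),(12,0)]⟩⟩,⟨false,1,⟨3,
  [(2,1),(27,0),(6,2)]⟩,⟨1,[(0,0),(3,0),(11,0)]⟩⟩,⟨false,0,⟨0,[(36,0)]⟩,⟨3,[(13,1),(16,0),(7,2)]⟩⟩,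
  ⟨true,0,⟨0,[(21,0)]⟩,⟨2,[(0,1),(12,0),(9,0)]⟩⟩,⟨true,0,⟨0,[(40,0)]⟩,⟨0,[]⟩⟩,⟨false,1,⟨1,[(4,1),
  (25,0),(7,0)]⟩,⟨0,[(0,0)]⟩⟩,[]⟩) (.Q [0,1,0,-1,0,0,-2,-2,0,-1,2] (.p true [0,0,1] [1,0,-1] (⟨0,
  [(29,0)]⟩,⟨0,[(28,0)]⟩) .k 2 (⟨0,[(28,0)]⟩,⟨0,[(29,0)]⟩) .k (.r 0 ⟨0,[(27,1)]⟩ ⟨0,[(16,0),(4,0),
  (2,0),(13,0)]⟩)) (.R ⟨1,true,false,false,[1,0,-1],[0,0,1],[1,0,0,0,0,0,0,-1],(⟨0,[(29,0)]⟩,⟨0,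
  [(30,0)]⟩),(⟨0,[(30,0)]⟩,⟨0,[(29,0)]⟩),⟨0,[(16,0)]⟩,.k,.k,.k,.k,(.r (-1) ⟨1,[(0,1),(16,1),(20,0),
  (0,0)]⟩ ⟨9,[(3,0),(7,3),(2,0),(9,2),(2,0),(0,12)]⟩),.k,⟨false,1,⟨1,[(0,1),(0,0),(3,0),(1,1),(9,0),
  (20,0),(0,0)]⟩,⟨0,[(28,1)]⟩⟩,⟨true,0,⟨0,[(17,0)]⟩,⟨0,[(3,0)]⟩⟩,⟨true,0,⟨0,[]⟩,⟨0,[(41,0)]⟩⟩,
  ⟨false,0,⟨0,[(7,0),(20,0)]⟩,⟨5,[(0,3),(0,1),(3,1),(12,0),(0,0),(19,3)]⟩⟩,⟨false,1,⟨3,[(14,1),(16,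
  0),(7,2)]⟩,⟨0,[(37,0)]⟩⟩,⟨true,0,⟨0,[(12,0),(15,0)]⟩,⟨0,[(0,0)]⟩⟩,[]⟩) (.I [0,0,-1,-1,0,0,0,0,-1]
  (.I [0,1,2,1,-1,0,0,-1] (.R ⟨1,false,false,true,[1,0,0,-1],[1,0,-1],[0,0,0,-1,0,0,0,0,-1],(⟨1,
  [(22,0),(8,0),(0,0)]⟩,⟨0,[(23,0)]⟩),(⟨0,[(31,0)]⟩,⟨0,[(32,0)]⟩),⟨1,[(4,0),(13,0),(3,0)]⟩,.k,.k,
  (.r 0 ⟨0,[(1,0)]⟩ ⟨39,[(0,7),(9,3),(2,7),(2,3),(3,12),(0,32),(11,1)]⟩),.k,(.r 0 ⟨0,[(1,0),(28,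
  0)]⟩ ⟨3,[(0,1),(2,0),(3,0),(11,0),(0,0),(0,2),(19,1)]⟩),.k,⟨true,0,⟨0,[(1,0),(3,0),(3,0)]⟩,⟨3,[(0,
  1),(2,0),(3,0),(11,0),(1,1)]⟩⟩,⟨false,1,⟨7,[(5,3),(14,0),(0,0),(0,3),(17,5)]⟩,⟨2,[(3,0),(4,0),(0,
  0),(9,0),(3,2)]⟩⟩,⟨true,0,⟨0,[(39,0)]⟩,⟨0,[(38,0)]⟩⟩,⟨false,1,⟨1,[(21,0),(0,0),(1,0),(2,0),(13,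
  0)]⟩,⟨1,[(1,1),(0,0),(5,0),(1,0),(12,1)]⟩⟩,⟨false,1,⟨3,[(20,0),(0,0),(19,1)]⟩,⟨0,[]⟩⟩,⟨false,1,⟨1,
  [(3,0),(3,0),(13,0),(0,0),(18,0)]⟩,⟨2,[(1,2),(6,1),(0,1),(3,0),(9,2),(5,0)]⟩⟩,[.o ⟨false,0,⟨0,
  [(24,0)]⟩,⟨0,[(26,0),(14,0)]⟩⟩,.o ⟨false,1,⟨1,[(27,1),(5,0),(7,0)]⟩,⟨2,[(2,0),(5,0),(17,0)]⟩⟩,.a
  ⟨true,0,⟨0,[(23,0)]⟩,⟨1,[(22,0),(8,0),(0,0)]⟩⟩ ⟨false,0,⟨0,[(1,0),(35,0)]⟩,⟨3,[(16,1),(4,1),(11,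
  0),(7,0)]⟩⟩ ⟨true,0,⟨1,[(22,0),(1,0),(2,0)]⟩,⟨2,[(2,0),(5,0),(14,2),(2,0)]⟩⟩,.o ⟨false,0,⟨0,[(15,
  0),(7,0)]⟩,⟨7,[(20,0),(0,0),(0,3),(10,1),(6,3)]⟩⟩]⟩) (.R ⟨1,false,false,false,[1,0,0,-1],[1,-1],
  [0,0,0,-1,0,0,0,0,-1],(⟨1,[(22,0),(8,0),(0,0)]⟩,⟨0,[(23,0)]⟩),(⟨0,[(34,0)]⟩,⟨0,[(35,0)]⟩),⟨1,[(4,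
  0),(13,0),(3,0)]⟩,.k,.k,(.r 0 ⟨0,[(1,0)]⟩ ⟨27,[(3,3),(6,3),(2,3),(2,3),(3,6),(0,20),(6,7),(0,
  3)]⟩),(.r 0 ⟨6,[(1,6),(1,1),(6,1),(2,1),(2,1),(11,3),(0,1)]⟩ ⟨0,[(1,0),(19,0)]⟩),.k,.k,⟨false,0,
  ⟨6,[(1,6),(1,0),(6,0),(2,0),(2,0),(11,1),(0,0)]⟩,⟨1,[(21,0),(18,0)]⟩⟩,⟨true,0,⟨1,[(22,0),(2,0),(2,
  0)]⟩,⟨0,[(23,0)]⟩⟩,⟨true,0,⟨0,[(39,0)]⟩,⟨0,[(38,0)]⟩⟩,⟨false,1,⟨1,[(8,0),(12,0),(0,0),(16,0),(1,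
  0)]⟩,⟨3,[(1,3),(1,0),(2,0),(3,1),(5,0),(6,3)]⟩⟩,⟨false,1,⟨3,[(20,0),(0,0),(19,1)]⟩,⟨0,[]⟩⟩,⟨false,
  1,⟨3,[(0,0),(2,1),(4,0),(0,0),(11,1),(0,1),(14,1),(3,0)]⟩,⟨6,[(1,6),(1,0),(6,0),(2,0),(2,0),(6,6),
  (4,1),(0,0)]⟩⟩,[.o ⟨false,0,⟨0,[(8,0)]⟩,⟨3,[(16,1),(3,0),(0,0),(11,0),(7,0)]⟩⟩,.o ⟨false,1,⟨3,[(8,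
  3),(11,0),(0,0),(19,1)]⟩,⟨0,[(38,0)]⟩⟩,.a ⟨true,0,⟨0,[(23,0)]⟩,⟨1,[(22,0),(8,0),(0,0)]⟩⟩ ⟨false,0,
  ⟨0,[(1,0),(35,0)]⟩,⟨3,[(16,1),(4,1),(11,0),(7,0)]⟩⟩ ⟨true,0,⟨1,[(8,0),(13,0),(16,0)]⟩,⟨0,[(23,0),
  (14,0)]⟩⟩,.o ⟨false,0,⟨0,[(15,0),(7,0)]⟩,⟨7,[(20,0),(0,0),(0,3),(10,1),(6,3)]⟩⟩]⟩)) (.I [0,0,1,1,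
  0,0,0,1,-1] (.Q [0,0,0,-1,0,0,-1,-1,-1,-1,1,1] (.p true [0,0,1] [1,0,0,-1] (⟨0,[(32,0)]⟩,⟨0,[(31,
  0)]⟩) .k 2 (⟨1,[(22,0),(8,0),(0,0)]⟩,⟨0,[(23,0)]⟩) .k (.x 0 ⟨2,[(3,0),(4,0),(0,0),(9,0),(12,2)]⟩
  ⟨3,[(5,1),(14,0),(0,0),(9,3),(1,0),(6,0)]⟩)) (.Q [0,1,0,0,0,0,0,0,1,0,0,-1] (.p false [0,0,0,1]
  [] (⟨0,[(24,0)]⟩,⟨1,[(23,0),(8,0),(0,0)]⟩) .k 0 (⟨0,[]⟩,⟨0,[]⟩) .k .k) (.K ⟨2,[0,0,0,1],0,0,(⟨0,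
  [(25,0)]⟩,⟨1,[(24,0),(8,0),(0,0)]⟩),.k,(.r (-1) ⟨1,[(23,0),(17,1),(0,0)]⟩ ⟨11,[(1,5),(0,5),(2,1),
  (6,2),(3,1),(1,0),(2,1),(2,2)]⟩),(.x (-1) ⟨3,[(22,0),(0,0),(13,3),(4,1)]⟩ ⟨1,[(6,0),(13,0),(6,0),
  (2,0)]⟩),.k,.k,[⟨2,[(5,0),(4,0),(0,0),(9,0),(3,2)]⟩,⟨1,[(21,0),(2,0)]⟩,⟨1,[(25,1),(4,0),(0,0)]⟩,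
  ⟨1,[(24,0),(2,0),(2,0)]⟩,⟨3,[(1,1),(0,1),(18,0),(3,1),(7,0),(0,0),(3,1)]⟩,⟨0,[(0,0)]⟩]⟩) (.R ⟨1,
  false,false,false,[1,0,0,-1],[1,-1],[0,0,0,-1,0,0,0,0,-1],(⟨1,[(24,0),(8,0),(0,0)]⟩,⟨0,[(25,0)]⟩),
  (⟨0,[(36,0)]⟩,⟨0,[(37,0)]⟩),⟨1,[(6,0),(13,0),(3,0)]⟩,.k,.k,(.x 0 ⟨1,[(6,0),(13,0),(6,0),(2,0)]⟩
  ⟨3,[(22,0),(0,0),(13,3),(4,1)]⟩),(.r 0 ⟨17,[(0,2),(0,6),(0,7),(2,0),(6,0),(5,2),(0,7),(4,4)]⟩ ⟨1,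
  [(23,0),(17,1),(0,0)]⟩),.k,.k,⟨false,0,⟨11,[(0,3),(0,5),(0,1),(5,3),(12,0),(2,4),(13,1)]⟩,⟨1,[(23,
  0),(18,0)]⟩⟩,⟨true,0,⟨1,[(24,0),(2,0),(2,0)]⟩,⟨0,[(25,0)]⟩⟩,⟨true,0,⟨0,[(41,0)]⟩,⟨0,[(40,0)]⟩⟩,
  ⟨false,1,⟨1,[(10,0),(12,0),(0,0),(16,0),(1,0)]⟩,⟨0,[(0,0),(39,0)]⟩⟩,⟨false,1,⟨3,[(22,0),(0,0),(19,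
  1)]⟩,⟨0,[]⟩⟩,⟨false,1,⟨3,[(3,1),(6,1),(12,0),(0,1),(17,0),(0,1)]⟩,⟨5,[(0,3),(0,0),(0,0),(18,0),(3,
  0),(5,0),(6,1)]⟩⟩,[.o ⟨false,0,⟨0,[(10,0)]⟩,⟨3,[(18,1),(3,0),(0,0),(11,0),(7,0)]⟩⟩,.o ⟨false,1,⟨3,
  [(10,3),(11,0),(0,0),(19,1)]⟩,⟨0,[(40,0)]⟩⟩,.a ⟨true,0,⟨0,[(25,0)]⟩,⟨1,[(24,0),(8,0),(0,0)]⟩⟩
  ⟨false,0,⟨1,[(0,1),(9,0),(13,0),(16,0)]⟩,⟨3,[(18,1),(4,1),(11,0),(7,0)]⟩⟩ ⟨true,0,⟨1,[(10,0),(13,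
  0),(16,0)]⟩,⟨0,[(25,0),(14,0)]⟩⟩,.o ⟨false,0,⟨0,[(17,0),(7,0)]⟩,⟨7,[(22,0),(0,0),(0,3),(10,1),(6,
  3)]⟩⟩]⟩)) (.Q [0,1,0,1,0,0,0,0,-1,0,0,1] (.p true [0,0,0,1] [] (⟨0,[(24,0)]⟩,⟨1,[(23,0),(8,0),(0,
  0)]⟩) .k 0 (⟨0,[]⟩,⟨0,[]⟩) .k .k) (.I [0,0,1,1,0,0,0,0,-1] (.K ⟨2,[0,0,0,1],0,0,(⟨0,[(26,0)]⟩,⟨1,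
  [(25,0),(8,0),(0,0)]⟩),.k,(.r (-1) ⟨1,[(24,0),(17,1),(0,0)]⟩ ⟨0,[(0,0)]⟩),(.r 0 ⟨0,[(2,0),(3,0),
  (0,0),(3,0),(9,0),(4,0),(11,1),(1,0)]⟩ ⟨1,[(23,0),(18,1),(0,0)]⟩),.k,.k,[⟨2,[(6,0),(4,0),(0,0),(9,
  0),(3,2)]⟩,⟨1,[(22,0),(2,0)]⟩,⟨1,[(26,1),(4,0),(0,0)]⟩,⟨1,[(25,0),(2,0),(2,0)]⟩,⟨0,[(1,0),(40,
  0)]⟩,⟨2,[(2,2),(8,0),(3,1),(6,0),(4,0)]⟩]⟩) (.K ⟨2,[0,0,0,1],0,0,(⟨0,[(26,0)]⟩,⟨1,[(25,0),(8,0),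
  (0,0)]⟩),.k,(.x 0 ⟨1,[(7,0),(13,0),(6,0),(2,0)]⟩ ⟨3,[(23,0),(0,0),(13,3),(4,1)]⟩),(.r 0 ⟨0,[(0,0),
  (4,1),(0,3),(0,5),(3,3),(9,5),(16,11),(1,1)]⟩ ⟨1,[(23,0),(18,1),(0,0)]⟩),.k,.k,[⟨2,[(6,0),(4,0),
  (0,0),(9,0),(3,2)]⟩,⟨1,[(22,0),(2,0)]⟩,⟨1,[(26,1),(4,0),(0,0)]⟩,⟨1,[(25,0),(2,0),(2,0)]⟩,⟨0,[(1,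
  0),(40,0)]⟩,⟨9,[(0,2),(1,1),(1,4),(9,3),(10,3),(1,1),(11,1)]⟩]⟩)) (.Q [0,-1,0,0,0,0,0,0,1,1,0,-1]
  (.p false [0,0,0,1] [1] (⟨0,[(25,0)]⟩,⟨1,[(24,0),(8,0),(0,0)]⟩) .k 1 (⟨0,[]⟩,⟨0,[]⟩) .k .k) (.I
  [1,1,-1,0,0,0,0,-1,1] (.R ⟨1,false,false,true,[1,0,0,-1],[1,-1,-1],[0,0,0,-1,0,0,0,0,-1],(⟨1,[(26,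
  0),(8,0),(0,0)]⟩,⟨0,[(27,0)]⟩),(⟨0,[(22,0)]⟩,⟨0,[(36,0),(2,0)]⟩),⟨1,[(8,0),(13,0),(3,0)]⟩,.k,.k,
  (.r (-1) ⟨1,[(24,0),(18,1),(0,0)]⟩ ⟨0,[(1,0),(4,1),(0,3),(0,5),(3,4),(9,5),(4,0),(11,11),(1,0)]⟩),
  (.r 0 ⟨0,[(4,0)]⟩ ⟨3,[(0,3),(23,0),(0,0),(17,3),(1,1)]⟩),.k,.k,⟨false,1,⟨1,[(24,0),(9,1),(10,0)]⟩,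
  ⟨0,[(0,0)]⟩⟩,⟨true,0,⟨3,[(9,1),(16,1),(5,0),(0,0)]⟩,⟨2,[(7,0),(4,0),(0,0),(9,0),(3,2)]⟩⟩,⟨true,0,
  ⟨0,[(43,0)]⟩,⟨0,[(42,0)]⟩⟩,⟨false,0,⟨0,[(2,0),(28,0)]⟩,⟨1,[(10,1),(13,0),(2,1),(17,0)]⟩⟩,⟨false,1,
  ⟨3,[(24,0),(0,0),(19,1)]⟩,⟨0,[]⟩⟩,⟨false,0,⟨1,[(1,0),(0,0),(4,0),(23,0)]⟩,⟨5,[(6,1),(5,1),(11,2),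
  (2,5),(2,1),(14,2)]⟩⟩,[.o ⟨false,0,⟨2,[(12,0),(3,1),(6,0),(4,0)]⟩,⟨7,[(6,3),(13,1),(3,0),(0,0),
  (11,2),(7,2)]⟩⟩,.o ⟨false,1,⟨7,[(16,7),(6,3),(0,0),(0,0),(11,1),(7,3)]⟩,⟨0,[(10,0)]⟩⟩,.a ⟨true,0,
  ⟨0,[(27,0)]⟩,⟨1,[(26,0),(8,0),(0,0)]⟩⟩ ⟨false,1,⟨1,[(24,0),(18,1),(1,0)]⟩,⟨4,[(0,2),(0,0),(0,0),
  (3,1),(0,1),(1,0),(7,0),(9,1)]⟩⟩ ⟨true,0,⟨1,[(16,1),(6,0),(2,0)]⟩,⟨0,[(10,0),(16,0)]⟩⟩,.o ⟨false,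
  0,⟨0,[(19,0),(7,0)]⟩,⟨7,[(24,0),(0,0),(0,3),(10,1),(6,3)]⟩⟩]⟩) (.Q [0,1,0,0,0,0,0,0,-1,0,0,1] (.p
  true [0,0,0,1] [] (⟨0,[(27,0)]⟩,⟨1,[(26,0),(8,0),(0,0)]⟩) .k 0 (⟨0,[]⟩,⟨0,[]⟩) .k .k) (.K ⟨1,[0,0,
  0,1],0,0,(⟨0,[(28,0)]⟩,⟨1,[(27,0),(8,0),(0,0)]⟩),.k,(.r (-1) ⟨1,[(26,0),(17,1),(0,0)]⟩ ⟨1,[(1,1),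
  (6,0),(3,0),(11,0)]⟩),(.r 0 ⟨0,[(1,0),(0,1),(4,1),(0,5),(0,7),(3,6),(0,0),(8,7),(4,1),(11,15)]⟩
  ⟨1,[(25,0),(18,1),(0,0)]⟩),.k,.k,[⟨1,[(28,1),(4,0),(0,0)]⟩,⟨1,[(27,0),(2,0),(2,0)]⟩,⟨0,[(0,0)]⟩,
  ⟨0,[(2,0)]⟩]⟩) (.R ⟨1,false,false,false,[1,0,0,-1],[0,0,1],[1,1,0,0,0,0,0,0,-1],(⟨1,[(27,0),(8,0),
  (0,0)]⟩,⟨0,[(28,0)]⟩),(⟨0,[(37,0)]⟩,⟨0,[(36,0)]⟩),⟨1,[(9,0),(13,0),(3,0)]⟩,.k,.k,(.r (-1) ⟨1,[(25,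
  0),(18,1),(0,0)]⟩ ⟨0,[(0,1),(0,0),(5,1),(0,5),(0,9),(3,6),(0,0),(8,9),(4,1),(11,19)]⟩),.k,(.x 0
  ⟨1,[(10,0),(9,0),(2,1)]⟩ ⟨7,[(24,3),(0,0),(0,0),(10,7),(0,1),(1,7),(4,3)]⟩),.k,⟨false,1,⟨1,[(24,
  0),(0,0),(3,0),(2,0),(12,0)]⟩,⟨0,[(0,0),(27,0),(6,0)]⟩⟩,⟨true,0,⟨1,[(24,0),(2,0)]⟩,⟨1,[(10,0),(9,
  0),(7,1)]⟩⟩,⟨false,0,⟨0,[]⟩,⟨3,[(25,0),(0,0),(19,1)]⟩⟩,⟨false,0,⟨2,[(2,1),(0,0),(3,0),(23,0)]⟩,⟨1,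
  [(25,0),(2,1),(0,1),(16,0)]⟩⟩,⟨true,0,⟨0,[(43,0)]⟩,⟨0,[(44,0)]⟩⟩,⟨false,0,⟨4,[(0,2),(1,0),(1,0),
  (2,1),(13,0)]⟩,⟨5,[(13,1),(3,3),(6,1),(0,2),(2,5),(0,1),(16,2)]⟩⟩,[.o ⟨false,0,⟨2,[(7,0),(5,0),
  (17,0)]⟩,⟨1,[(32,1),(5,0),(7,0)]⟩⟩,.o ⟨false,1,⟨0,[(31,0),(14,0)]⟩,⟨0,[(29,0)]⟩⟩,.a ⟨true,0,⟨0,
  [(28,0)]⟩,⟨1,[(27,0),(8,0),(0,0)]⟩⟩ ⟨false,1,⟨3,[(25,2),(0,0)]⟩,⟨0,[(0,0),(27,0)]⟩⟩ ⟨true,0,⟨5,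
  [(7,1),(19,2),(3,1),(4,0),(0,0),(6,1)]⟩,⟨0,[(28,0),(0,0)]⟩⟩,.o ⟨false,0,⟨0,[(20,0),(7,0)]⟩,⟨7,
  [(25,0),(0,0),(0,3),(10,1),(6,3)]⟩⟩]⟩))) (.K ⟨2,[1,0,0,-1],0,0,(⟨1,[(25,0),(8,0),(0,0)]⟩,⟨0,[(26,
  0)]⟩),.k,(.r (-1) ⟨1,[(23,0),(18,1),(0,0)]⟩ ⟨0,[(0,3),(0,4),(3,1),(0,3),(0,5),(13,5),(4,0),(11,
  11),(1,0)]⟩),(.x (-1) ⟨3,[(23,0),(0,0),(13,3),(4,1)]⟩ ⟨1,[(7,0),(13,0),(6,0),(2,0)]⟩),.k,.k,[⟨1,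
  [(22,0),(2,0)]⟩,⟨2,[(6,0),(4,0),(0,0),(9,0),(3,2)]⟩,⟨1,[(22,0),(2,0),(6,1)]⟩,⟨0,[(18,0),(7,0)]⟩,
  ⟨0,[(2,0),(27,0),(11,0)]⟩,⟨0,[(0,0)]⟩]⟩)))) (.R ⟨1,false,false,false,[1,0,0,-1],[0,0,1],[0,0,0,-1,
  0,0,0,0,-1],(⟨1,[(22,0),(8,0),(0,0)]⟩,⟨0,[(23,0)]⟩),(⟨0,[(32,0)]⟩,⟨0,[(31,0)]⟩),⟨1,[(4,0),(13,0),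
  (3,0)]⟩,.k,.k,(.r (-1) ⟨1,[(20,0),(18,1),(0,0)]⟩ ⟨1,[(0,1),(1,4),(0,7),(0,12),(0,0),(2,8),(9,12),
  (16,25),(1,2)]⟩),.k,(.r (-1) ⟨0,[(0,0),(19,0)]⟩ ⟨0,[(1,0),(28,0)]⟩),.k,⟨false,1,⟨0,[(0,0),(19,
  0)]⟩,⟨5,[(0,4),(0,0),(0,1),(2,3),(0,3),(9,1),(13,2)]⟩⟩,⟨true,0,⟨1,[(19,0),(2,0)]⟩,⟨1,[(5,0),(9,0),
  (7,1)]⟩⟩,⟨true,0,⟨0,[(39,0)]⟩,⟨0,[(38,0)]⟩⟩,⟨false,0,⟨3,[(0,2),(0,0),(0,2),(2,1),(3,0),(12,1),(16,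
  0)]⟩,⟨1,[(20,0),(2,1),(0,1),(16,0)]⟩⟩,⟨false,1,⟨3,[(20,0),(0,0),(19,1)]⟩,⟨0,[]⟩⟩,⟨false,0,⟨5,[(0,
  5),(1,5),(0,0),(1,1),(1,0),(5,1),(8,2)]⟩,⟨7,[(0,1),(7,1),(3,3),(7,4),(2,7),(0,1),(3,1),(12,2)]⟩⟩,
  [.o ⟨false,0,⟨2,[(2,0),(5,0),(17,0)]⟩,⟨1,[(27,1),(5,0),(7,0)]⟩⟩,.o ⟨false,1,⟨0,[(26,0),(14,0)]⟩,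
  ⟨0,[(24,0)]⟩⟩,.a ⟨true,0,⟨0,[(23,0)]⟩,⟨1,[(22,0),(8,0),(0,0)]⟩⟩ ⟨false,1,⟨1,[(20,0),(18,1),(1,
  0)]⟩,⟨14,[(0,10),(0,3),(0,7),(0,5),(1,4),(7,0),(2,2)]⟩⟩ ⟨true,0,⟨5,[(2,1),(19,2),(3,1),(4,0),(0,
  0),(6,1)]⟩,⟨0,[(23,0),(0,0)]⟩⟩,.o ⟨false,0,⟨0,[(15,0),(7,0)]⟩,⟨7,[(20,0),(0,0),(0,3),(10,1),(6,
  3)]⟩⟩]⟩))))))))))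

theorem ok9 : chk (cU (-1) false 10) t9 r12 = true := by decide +kernel

noncomputable def t10 : Tre :=
  .Q [0,1,0,0,0,0,-2,-1,0,-1,2] (.p true [0,0,1] [1,0,-1] (⟨0,[(22,0)]⟩,⟨0,[(21,0)]⟩) .k 2 (⟨0,[(21,
  0)]⟩,⟨0,[(22,0)]⟩) .k (.r 0 ⟨0,[(20,1)]⟩ ⟨0,[(9,0),(4,0),(2,0),(13,0)]⟩)) t8 t9

theorem ok10 : chk (cU (-1) false 10) t10 l11 = true :=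
  chk_Q (e' := [0,-1,0,0,0,0,2,1,0,1,-2]) (by decide +kernel) (by decide +kernel) ok8 ok9

noncomputable def t11 : Tre :=
  (.Q [0,0,0,1,0,0,1,1,0,1,-1] (.p false [0,0,1] [1] (⟨0,[(22,0)]⟩,⟨0,[(21,0)]⟩) .k 1 (⟨0,[]⟩,⟨0,
  []⟩) .k .k) (.R ⟨1,true,false,false,[1,0,-1],[0,1],[0,1,0,-1,0,0,0,-1],(⟨0,[(22,0)]⟩,⟨0,[(23,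
  0)]⟩),(⟨0,[(26,0)]⟩,⟨0,[(25,0)]⟩),⟨0,[(9,0)]⟩,.k,.k,.k,.k,(.r (-1) ⟨1,[(1,1),(8,0),(4,0),(2,0),
  (13,1)]⟩ ⟨0,[(4,0),(29,0)]⟩),.k,⟨true,0,⟨1,[(1,1),(8,0),(4,0),(2,0),(9,1)]⟩,⟨0,[(4,0)]⟩⟩,⟨false,1,
  ⟨1,[(1,0),(5,0),(2,0),(20,0),(0,0)]⟩,⟨0,[(16,0)]⟩⟩,⟨false,0,⟨0,[(30,0)]⟩,⟨3,[(7,1),(16,0),(7,
  2)]⟩⟩,⟨true,0,⟨0,[(0,0)]⟩,⟨0,[(15,0),(14,0)]⟩⟩,⟨true,0,⟨0,[(34,0)]⟩,⟨0,[]⟩⟩,⟨false,1,⟨11,[(0,3),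
  (3,3),(0,3),(1,3),(3,0),(0,0),(18,3),(0,5)]⟩,⟨0,[(1,0),(13,0),(12,1)]⟩⟩,[]⟩) (.R ⟨2,true,false,
  true,[0,1],[1,0,-1],[1,0,1,1],(⟨0,[]⟩,⟨0,[]⟩),(⟨0,[(22,0)]⟩,⟨0,[(23,0)]⟩),⟨0,[]⟩,.k,.k,.k,.k,.k,
  .k,⟨false,1,⟨7,[(4,3),(6,0),(0,0),(8,3),(9,3),(0,1)]⟩,⟨1,[(0,1),(0,0),(5,0),(2,0)]⟩⟩,⟨true,0,⟨0,
  [(16,0)]⟩,⟨1,[(10,0),(11,0),(0,0)]⟩⟩,⟨true,0,⟨0,[]⟩,⟨0,[(34,0)]⟩⟩,⟨false,0,⟨0,[(0,0)]⟩,⟨15,[(5,7),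
  (1,3),(3,2),(0,2),(8,7),(0,3),(0,3),(8,9)]⟩⟩,⟨false,1,⟨3,[(7,1),(16,0),(7,2)]⟩,⟨0,[(30,0)]⟩⟩,
  ⟨true,0,⟨0,[(15,0)]⟩,⟨1,[(5,0),(15,0),(0,0),(0,0),(6,0)]⟩⟩,[]⟩))

theorem ok11 : chk (cU (-1) false 10) t11 r11 = true := by decide +kernel

noncomputable def t12 : Tre :=
  .I [1,-1,2,2] t10 t11

theorem ok12 : chk (cU (-1) false 10) t12 l10 = true :=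
  chk_I (e' := [0,1,-2,-2]) (by decide +kernel) (by decide +kernel) ok10 ok11

noncomputable def t13 : Tre :=
  (.Q [0,0,0,0,0,-1,0,0,0,0,1] (.ed false [1,-1,1] .k) (.K ⟨0,[0,-1,1],0,0,(⟨0,[(0,0)]⟩,⟨0,[(21,0),
  (3,0)]⟩),.k,(.r (-1) ⟨0,[(20,0),(8,1),(0,0)]⟩ ⟨5,[(1,2),(1,0),(3,6),(6,2),(2,3),(9,2)]⟩),.k,.k,.k,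
  [⟨1,[(1,0),(0,0),(17,0)]⟩,⟨1,[(9,0),(11,0),(0,0)]⟩,⟨2,[(1,0),(4,0),(7,1),(2,0)]⟩,⟨0,[(16,0),(12,
  0)]⟩]⟩) (.K ⟨1,[0,1,-1],0,0,(⟨0,[(0,0)]⟩,⟨0,[(22,0),(1,0)]⟩),.k,.k,(.r 0 ⟨5,[(1,2),(1,0),(3,6),(6,
  2),(2,3),(9,2)]⟩ ⟨0,[(20,0),(8,1),(0,0)]⟩),.k,.k,[⟨1,[(18,2),(0,0)]⟩,⟨1,[(1,0),(0,0),(17,0)]⟩,⟨0,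
  [(16,0),(12,0)]⟩,⟨0,[(1,1),(12,0),(14,0)]⟩]⟩))

theorem ok13 : chk (cU (-1) false 10) t13 r10 = true := by decide +kernel

noncomputable def t14 : Tre :=
  .Q [0,1,0,-1,0,0,0,0,0,-1] (.pp true [-1,1]) t12 t13

theorem ok14 : chk (cU (-1) false 10) t14 l9 = true :=
  chk_Q (e' := [0,-1,0,1,0,0,0,0,0,1]) (by decide +kernel) (by decide +kernel) ok12 ok13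

noncomputable def t15 : Tre :=
  (.Q [0,0,0,1,0,0,0,0,0,1] (.pp false [-1,1]) (.R ⟨1,false,false,false,[1,0,-1],[1,-1],[1,0,0,0,0,
  0,0,-1],(⟨0,[(20,0)]⟩,⟨0,[(21,0)]⟩),(⟨0,[(23,0)]⟩,⟨0,[(24,0)]⟩),⟨0,[(7,0)]⟩,.k,.k,.k,.k,.k,.k,
  ⟨true,0,⟨2,[(0,1),(0,0),(6,0),(4,3),(12,2)]⟩,⟨0,[(19,0),(8,0)]⟩⟩,⟨false,0,⟨0,[(1,0),(11,0),(14,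
  0)]⟩,⟨0,[(18,0),(10,0)]⟩⟩,⟨true,0,⟨0,[]⟩,⟨0,[(32,0)]⟩⟩,⟨true,0,⟨0,[(1,0),(11,0),(5,0),(8,1)]⟩,⟨0,
  [(0,0),(12,0)]⟩⟩,⟨false,1,⟨3,[(5,1),(16,0),(7,2)]⟩,⟨0,[(28,0)]⟩⟩,⟨true,0,⟨0,[(1,0),(11,0),(5,0),
  (8,0)]⟩,⟨0,[(16,0)]⟩⟩,[.a ⟨true,0,⟨0,[(28,0)]⟩,⟨0,[(0,0)]⟩⟩ ⟨false,1,⟨1,[(8,0),(4,0),(2,0),(12,0),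
  (0,0)]⟩,⟨0,[(19,0)]⟩⟩ ⟨true,0,⟨0,[(1,0),(11,0),(14,1)]⟩,⟨0,[(0,0),(13,0)]⟩⟩,.o ⟨false,1,⟨1,[(22,
  0),(5,1),(1,0)]⟩,⟨0,[(27,0)]⟩⟩,.o ⟨false,1,⟨1,[(18,1),(3,0),(6,0)]⟩,⟨0,[(1,0),(11,0),(14,0)]⟩⟩,.o
  ⟨false,0,⟨0,[(14,0)]⟩,⟨7,[(8,3),(0,0),(0,0),(11,1),(6,3)]⟩⟩]⟩) (.Q [0,0,-1,0,0,0,2,0,0,1,-2] (.p
  false [0,0,1] [1,0,-1] (⟨0,[(21,0)]⟩,⟨0,[(20,0)]⟩) .k 2 (⟨0,[(20,0)]⟩,⟨0,[(21,0)]⟩) .k (.r 0 ⟨0,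
  [(19,1)]⟩ ⟨0,[(8,0),(4,0),(2,0),(13,0)]⟩)) (.Q [0,1,0,-1,-1,0,1,1,0,0,-1] (.p false [0,0,1] []
  (⟨0,[(22,0)]⟩,⟨0,[(21,0)]⟩) .k 0 (⟨0,[]⟩,⟨0,[]⟩) .k .k) (.R ⟨2,true,false,false,[0,1],[0,0,1],[0,
  0,1],(⟨0,[]⟩,⟨0,[]⟩),(⟨0,[(23,0)]⟩,⟨0,[(22,0)]⟩),⟨0,[]⟩,.k,.k,.k,.k,.k,.k,⟨true,0,⟨1,[(10,0),(4,
  0),(2,0),(9,1)]⟩,⟨0,[(21,0)]⟩⟩,⟨false,0,⟨2,[(1,0),(0,0),(5,0)]⟩,⟨0,[(20,0),(10,0)]⟩⟩,⟨true,0,⟨0,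
  [(30,0)]⟩,⟨0,[(29,0)]⟩⟩,⟨false,0,⟨0,[(0,0),(31,0)]⟩,⟨3,[(7,1),(10,3),(5,0),(7,2)]⟩⟩,⟨false,1,⟨3,
  [(11,0),(0,0),(19,1)]⟩,⟨0,[]⟩⟩,⟨true,0,⟨7,[(0,1),(2,1),(13,1),(3,1),(2,0),(7,0)]⟩,⟨0,[(18,0)]⟩⟩,
  []⟩) (.I [0,0,-2,-2,1,0,0,-1] (.K ⟨2,[0,1,1],0,0,(⟨0,[(24,0),(2,0)]⟩,⟨0,[(10,0)]⟩),.k,.k,(.r 0 ⟨0,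
  [(5,0),(29,0)]⟩ ⟨0,[(0,0)]⟩),.k,(.r 0 ⟨5,[(5,2),(12,0),(2,0),(0,7),(5,0)]⟩ ⟨2,[(0,1),(0,0),(0,0),
  (8,0),(4,1),(2,0),(9,1)]⟩),[⟨1,[(20,0),(0,0)]⟩,⟨0,[(2,0)]⟩,⟨1,[(20,0),(0,2)]⟩,⟨2,[(2,0),(0,0),(5,
  0)]⟩,⟨0,[(19,0),(11,0)]⟩,⟨2,[(3,0),(0,0),(13,0),(3,0),(7,2)]⟩]⟩) (.K ⟨2,[0,1,1],0,0,(⟨0,[(24,0),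
  (2,0)]⟩,⟨0,[(10,0)]⟩),.k,.k,(.x (-1) ⟨3,[(2,1),(21,3),(0,0),(1,7),(4,2)]⟩ ⟨0,[(7,0),(2,0),(6,0),
  (8,0)]⟩),.k,(.r 0 ⟨5,[(5,2),(12,0),(2,0),(0,7),(5,0)]⟩ ⟨0,[(2,0),(0,0),(15,1),(13,0)]⟩),[⟨1,[(20,
  0),(0,0)]⟩,⟨0,[(2,0)]⟩,⟨1,[(20,0),(0,2)]⟩,⟨2,[(2,0),(0,0),(5,0)]⟩,⟨0,[(19,0),(11,0)]⟩,⟨5,[(0,1),
  (5,1),(11,1),(6,0),(2,1),(3,0)]⟩]⟩))) (.Q [0,-1,0,-1,0,0,1,1,0,0,-1] (.p false [0,0,1] [] (⟨0,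
  [(22,0)]⟩,⟨0,[(21,0)]⟩) .k 0 (⟨0,[]⟩,⟨0,[]⟩) .k .k) (.R ⟨2,true,false,false,[0,1],[0,0,1],[0,0,1],
  (⟨0,[]⟩,⟨0,[]⟩),(⟨0,[(23,0)]⟩,⟨0,[(22,0)]⟩),⟨0,[]⟩,.k,.k,.k,.k,.k,.k,⟨true,0,⟨1,[(10,0),(4,0),(2,
  0),(9,1)]⟩,⟨0,[(21,0)]⟩⟩,⟨false,0,⟨2,[(2,0),(0,0),(6,0),(4,0)]⟩,⟨0,[(20,0),(10,0)]⟩⟩,⟨true,0,⟨0,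
  [(30,0)]⟩,⟨0,[(29,0)]⟩⟩,⟨false,0,⟨0,[(0,0)]⟩,⟨3,[(7,1),(10,3),(5,0),(7,2)]⟩⟩,⟨false,1,⟨3,[(11,0),
  (0,0),(19,1)]⟩,⟨0,[]⟩⟩,⟨true,0,⟨2,[(2,0),(0,0),(13,0),(3,0)]⟩,⟨0,[(18,0)]⟩⟩,[]⟩) (.I [1,-1,0,0,0,
  0,0,0,-1] (.Q [0,0,0,0,0,1,0,0,0,0,0,-1] (.p false [0,0,0,1] [] (⟨0,[(15,0)]⟩,⟨1,[(14,0),(8,0),(0,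
  0)]⟩) .k 0 (⟨0,[]⟩,⟨0,[]⟩) .k .k) (.R ⟨0,false,false,false,[0,0,0,1],[0,0,1],[0,1,0,0,0,0,0,0,1],
  (⟨0,[(16,0)]⟩,⟨1,[(15,0),(8,0),(0,0)]⟩),(⟨0,[(25,0)]⟩,⟨0,[(24,0)]⟩),⟨0,[(0,0)]⟩,.k,.k,(.r (-1) ⟨1,
  [(14,0),(17,1),(0,0)]⟩ ⟨2,[(1,2),(0,0),(3,0),(14,0),(14,2)]⟩),.k,.k,.k,⟨false,1,⟨1,[(12,0),(1,0),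
  (2,0),(2,0),(12,0)]⟩,⟨0,[(1,0),(21,0)]⟩⟩,⟨true,0,⟨2,[(4,0),(0,0),(6,0),(3,2),(0,0)]⟩,⟨3,[(3,1),
  (11,1),(5,0),(0,0)]⟩⟩,⟨true,0,⟨0,[(36,0)]⟩,⟨0,[]⟩⟩,⟨false,0,⟨2,[(1,2),(2,0),(0,0),(10,2),(2,0),(3,
  0)]⟩,⟨1,[(14,0),(0,0),(1,0),(2,0),(13,0)]⟩⟩,⟨false,0,⟨0,[]⟩,⟨0,[]⟩⟩,⟨false,0,⟨0,[]⟩,⟨0,[]⟩⟩,[.o
  ⟨false,0,⟨2,[(4,0),(0,0),(13,0),(3,0)]⟩,⟨1,[(20,1),(5,0),(7,0)]⟩⟩,.o ⟨false,1,⟨0,[(19,0),(14,0)]⟩,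
  ⟨0,[(17,0)]⟩⟩,.a ⟨true,0,⟨1,[(15,0),(8,0),(0,0)]⟩,⟨0,[(16,0)]⟩⟩ ⟨false,1,⟨3,[(13,0),(0,2)]⟩,⟨0,
  [(1,0)]⟩⟩ ⟨true,0,⟨2,[(4,0),(0,0),(10,2),(2,0),(3,0)]⟩,⟨1,[(15,0),(1,0),(2,0)]⟩⟩,.o ⟨false,0,⟨1,
  [(15,0),(2,0),(2,0)]⟩,⟨1,[(16,1),(9,0),(6,0)]⟩⟩]⟩) (.I [0,0,-1,-1,0,0,0,0,-1] (.R ⟨1,false,false,
  false,[1,0,0,-1],[0,0,1],[1,1,0,0,0,0,0,0,-1],(⟨1,[(16,0),(8,0),(0,0)]⟩,⟨0,[(17,0)]⟩),(⟨0,[(26,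
  0)]⟩,⟨0,[(25,0)]⟩),⟨0,[(1,0),(14,0)]⟩,.k,.k,(.r 0 ⟨0,[(0,0)]⟩ ⟨11,[(3,3),(3,3),(6,2),(0,8),(6,
  3)]⟩),.k,(.x 0 ⟨1,[(4,0),(4,0),(2,1)]⟩ ⟨7,[(13,3),(0,0),(0,0),(10,7),(0,1),(1,7),(4,3)]⟩),.k,
  ⟨false,0,⟨2,[(0,2),(2,1),(2,0),(6,0),(4,1)]⟩,⟨1,[(15,0),(8,1),(10,0)]⟩⟩,⟨true,0,⟨1,[(13,0),(2,
  0)]⟩,⟨1,[(4,0),(4,0),(7,1)]⟩⟩,⟨false,0,⟨0,[]⟩,⟨3,[(14,0),(0,0),(19,1)]⟩⟩,⟨false,1,⟨1,[(8,0),(6,0),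
  (0,0),(7,0),(8,0),(1,0)]⟩,⟨0,[(2,0),(14,0),(0,0)]⟩⟩,⟨true,0,⟨0,[(32,0)]⟩,⟨0,[(33,0)]⟩⟩,⟨false,1,
  ⟨3,[(6,0),(0,0),(0,0),(6,1),(0,1),(7,0),(9,0),(0,0)]⟩,⟨0,[(2,0),(2,0),(11,0),(3,0)]⟩⟩,[.o ⟨false,
  0,⟨2,[(5,0),(0,0),(13,0),(3,0)]⟩,⟨1,[(21,1),(5,0),(7,0)]⟩⟩,.o ⟨false,1,⟨0,[(20,0),(14,0)]⟩,⟨0,
  [(18,0)]⟩⟩,.a ⟨true,0,⟨0,[(17,0)]⟩,⟨1,[(16,0),(8,0),(0,0)]⟩⟩ ⟨false,0,⟨0,[(2,0),(34,0)]⟩,⟨1,[(15,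
  0),(19,0)]⟩⟩ ⟨true,0,⟨1,[(8,0),(7,0),(7,0),(8,0)]⟩,⟨0,[(17,0),(0,0)]⟩⟩,.o ⟨false,0,⟨0,[(9,0),(7,
  0)]⟩,⟨7,[(14,0),(0,0),(0,3),(10,1),(6,3)]⟩⟩]⟩) (.R ⟨1,false,false,false,[1,0,0,-1],[1,-1],[1,0,0,
  0,0,0,0,0,-1],(⟨1,[(16,0),(8,0),(0,0)]⟩,⟨0,[(17,0)]⟩),(⟨0,[(28,0)]⟩,⟨0,[(29,0)]⟩),⟨0,[(1,0),(14,
  0)]⟩,.k,.k,(.x 0 ⟨0,[(9,0),(18,0)]⟩ ⟨3,[(14,0),(0,0),(13,3),(4,1)]⟩),(.r 0 ⟨2,[(2,2),(0,0),(3,0),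
  (14,0),(14,2)]⟩ ⟨1,[(15,0),(17,1),(0,0)]⟩),.k,.k,⟨false,0,⟨0,[(2,0),(29,0)]⟩,⟨1,[(15,0),(17,1),(0,
  0)]⟩⟩,⟨true,0,⟨1,[(16,0),(2,0),(2,0)]⟩,⟨0,[(17,0)]⟩⟩,⟨true,0,⟨0,[]⟩,⟨0,[(37,0)]⟩⟩,⟨false,1,⟨1,[(5,
  0),(9,0),(0,0),(16,0),(1,0)]⟩,⟨0,[(2,0),(14,0),(14,0)]⟩⟩,⟨false,1,⟨3,[(10,1),(16,0),(7,2)]⟩,⟨0,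
  [(33,0)]⟩⟩,⟨false,1,⟨3,[(0,1),(4,1),(9,0),(0,1),(17,0),(0,1)]⟩,⟨0,[(2,0),(14,0),(19,0)]⟩⟩,[.o
  ⟨false,0,⟨0,[(5,0)]⟩,⟨3,[(10,1),(3,0),(0,0),(11,0),(7,0)]⟩⟩,.o ⟨false,1,⟨1,[(27,0),(5,1),(1,0)]⟩,
  ⟨0,[(32,0)]⟩⟩,.a ⟨true,0,⟨0,[(17,0)]⟩,⟨1,[(16,0),(8,0),(0,0)]⟩⟩ ⟨false,0,⟨0,[(2,0)]⟩,⟨3,[(14,0),
  (0,2)]⟩⟩ ⟨true,0,⟨1,[(5,0),(10,0),(16,0)]⟩,⟨0,[(17,0),(14,0)]⟩⟩,.o ⟨false,0,⟨0,[(9,0),(7,0)]⟩,⟨7,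
  [(14,0),(0,0),(0,3),(10,1),(6,3)]⟩⟩]⟩))) (.Q [0,-1,0,-1,0,0,0,0,1,0,0,-1] (.p false [0,0,0,1] []
  (⟨0,[(15,0)]⟩,⟨1,[(14,0),(8,0),(0,0)]⟩) .k 0 (⟨0,[]⟩,⟨0,[]⟩) .k .k) (.Q [0,0,0,0,0,1,0,0,0,0,-1]
  (.ed true [1,-1,1] .k) (.Q [0,0,0,0,0,-1,0,0,0,1,0,-1] (.p false [0,0,0,1] [1] (⟨0,[(17,0)]⟩,⟨1,
  [(16,0),(8,0),(0,0)]⟩) .k 1 (⟨0,[]⟩,⟨0,[]⟩) .k .k) (.I [0,-1,0,0,0,0,0,0,1] (.R ⟨1,false,false,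
  false,[1,0,0,-1],[0,0,1],[1,1,0,0,0,0,0,0,-1],(⟨1,[(18,0),(8,0),(0,0)]⟩,⟨0,[(19,0)]⟩),(⟨0,[(28,
  0)]⟩,⟨0,[(27,0)]⟩),⟨0,[(1,0)]⟩,.k,.k,(.r (-1) ⟨1,[(16,0),(18,1),(0,0)]⟩ ⟨5,[(0,2),(3,2),(0,1),(3,
  1),(14,1)]⟩),.k,(.x 0 ⟨1,[(6,0),(4,0),(2,1)]⟩ ⟨7,[(15,3),(0,0),(0,0),(10,7),(0,1),(1,7),(4,3)]⟩),
  .k,⟨false,1,⟨1,[(15,0),(0,0),(3,0),(2,0),(12,0)]⟩,⟨0,[(0,0),(25,0)]⟩⟩,⟨true,0,⟨1,[(15,0),(2,0)]⟩,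
  ⟨1,[(6,0),(4,0),(7,1)]⟩⟩,⟨false,0,⟨0,[]⟩,⟨3,[(16,0),(0,0),(19,1)]⟩⟩,⟨false,0,⟨3,[(0,0),(2,1),(0,
  0),(3,1),(9,0),(7,1),(0,0),(0,0)]⟩,⟨1,[(16,0),(2,1),(0,1),(16,0)]⟩⟩,⟨true,0,⟨0,[(34,0)]⟩,⟨0,[(35,
  0)]⟩⟩,⟨false,0,⟨1,[(0,1),(7,0),(9,0),(7,0),(7,0)]⟩,⟨1,[(7,1),(8,0),(2,1),(3,1),(13,0)]⟩⟩,[.o
  ⟨false,0,⟨2,[(7,0),(0,0),(13,0),(3,0)]⟩,⟨1,[(23,1),(5,0),(7,0)]⟩⟩,.o ⟨false,1,⟨0,[(22,0),(14,0)]⟩,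
  ⟨0,[(20,0)]⟩⟩,.a ⟨true,0,⟨0,[(19,0)]⟩,⟨1,[(18,0),(8,0),(0,0)]⟩⟩ ⟨false,1,⟨3,[(16,2),(0,0)]⟩,⟨0,
  [(0,0)]⟩⟩ ⟨true,0,⟨1,[(10,0),(7,0),(7,0),(8,0)]⟩,⟨0,[(19,0),(0,0)]⟩⟩,.o ⟨false,0,⟨0,[(11,0),(7,
  0)]⟩,⟨7,[(16,0),(0,0),(0,3),(10,1),(6,3)]⟩⟩]⟩) (.K ⟨2,[0,0,0,1],0,0,(⟨0,[(19,0)]⟩,⟨1,[(18,0),(8,
  0),(0,0)]⟩),.k,(.x 0 ⟨0,[(11,0),(18,0)]⟩ ⟨3,[(16,0),(0,0),(13,3),(4,1)]⟩),(.r 0 ⟨7,[(3,3),(0,3),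
  (0,2),(2,0),(0,2),(3,1),(5,3),(0,0)]⟩ ⟨1,[(16,0),(18,1),(0,0)]⟩),.k,.k,[⟨2,[(7,0),(0,0),(6,0),(3,
  2),(0,0)]⟩,⟨1,[(15,0),(2,0)]⟩,⟨1,[(19,1),(4,0),(0,0)]⟩,⟨1,[(18,0),(2,0),(2,0)]⟩,⟨0,[(0,0),(18,
  0)]⟩,⟨3,[(3,1),(0,1),(13,0),(1,0),(1,0),(11,1)]⟩]⟩)) (.R ⟨0,false,false,false,[0,0,0,1],[1,-1],[0,
  0,0,-1,0,0,0,0,1],(⟨0,[(18,0)]⟩,⟨1,[(17,0),(8,0),(0,0)]⟩),(⟨0,[(29,0)]⟩,⟨0,[(30,0)]⟩),⟨0,[(0,0),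
  (16,0)]⟩,.k,.k,(.x 0 ⟨0,[(10,0),(18,0)]⟩ ⟨3,[(15,0),(0,0),(13,3),(4,1)]⟩),(.r 0 ⟨7,[(2,3),(0,3),
  (0,2),(2,0),(0,2),(3,1),(5,3),(0,0)]⟩ ⟨1,[(15,0),(18,1),(0,0)]⟩),.k,.k,⟨false,0,⟨0,[(2,0),(15,0),
  (14,0)]⟩,⟨1,[(15,0),(19,0)]⟩⟩,⟨true,0,⟨0,[(10,0),(7,0)]⟩,⟨1,[(17,0),(8,0),(0,0)]⟩⟩,⟨true,0,⟨0,
  [(34,0)]⟩,⟨0,[(33,0)]⟩⟩,⟨false,1,⟨1,[(6,1),(8,0),(2,1),(17,0)]⟩,⟨0,[(2,0),(8,0)]⟩⟩,⟨false,0,⟨0,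
  []⟩,⟨0,[]⟩⟩,⟨false,0,⟨0,[]⟩,⟨0,[]⟩⟩,[.o ⟨false,0,⟨0,[(6,0)]⟩,⟨3,[(11,1),(3,0),(0,0),(11,0),(7,
  0)]⟩⟩,.o ⟨false,1,⟨1,[(28,0),(5,1),(1,0)]⟩,⟨0,[(33,0)]⟩⟩,.a ⟨true,0,⟨1,[(17,0),(8,0),(0,0)]⟩,⟨0,
  [(18,0)]⟩⟩ ⟨false,0,⟨0,[(2,0),(15,0)]⟩,⟨3,[(11,1),(3,1),(12,0),(7,0)]⟩⟩ ⟨true,0,⟨0,[(6,0),(11,
  0)]⟩,⟨1,[(11,0),(5,0),(20,0)]⟩⟩,.o ⟨false,0,⟨1,[(17,0),(2,0),(2,0)]⟩,⟨1,[(18,1),(9,0),(6,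
  0)]⟩⟩]⟩)) (.Q [0,-1,0,-1,0,0,1,1,0,1,-1] (.p false [0,0,1] [1] (⟨0,[(26,0)]⟩,⟨0,[(25,0)]⟩) .k 1
  (⟨0,[]⟩,⟨0,[]⟩) .k .k) (.R ⟨2,true,false,true,[0,1],[1,1,-1],[0,1,1],(⟨0,[]⟩,⟨0,[]⟩),(⟨0,[(26,0),
  (3,0)]⟩,⟨0,[(1,0)]⟩),⟨0,[]⟩,.k,.k,.k,.k,.k,.k,⟨true,0,⟨2,[(0,1),(4,0),(0,0),(18,0),(5,0)]⟩,⟨2,[(4,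
  1),(2,0),(6,0),(4,1),(12,2)]⟩⟩,⟨false,1,⟨3,[(5,1),(22,0),(6,2)]⟩,⟨1,[(14,0),(11,0),(0,0)]⟩⟩,
  ⟨false,0,⟨0,[(34,0)]⟩,⟨3,[(11,1),(16,0),(7,2)]⟩⟩,⟨true,0,⟨0,[(19,0)]⟩,⟨2,[(0,1),(10,0),(9,0)]⟩⟩,
  ⟨true,0,⟨0,[(38,0)]⟩,⟨0,[]⟩⟩,⟨false,1,⟨1,[(4,1),(23,0),(7,0)]⟩,⟨0,[(0,0)]⟩⟩,[]⟩) (.I [0,0,1,1,0,0,
  0,1,-1] (.I [0,1,-1,-1,0,0,0,-1,1] (.R ⟨1,false,false,true,[1,0,0,-1],[1,-1,-1],[1,0,0,0,0,0,0,0,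
  -1],(⟨1,[(19,0),(8,0),(0,0)]⟩,⟨0,[(20,0)]⟩),(⟨0,[(15,0)]⟩,⟨0,[(29,0),(2,0)]⟩),⟨1,[(3,0),(11,0),(3,
  0)]⟩,.k,.k,(.r (-1) ⟨1,[(17,0),(18,1),(0,0)]⟩ ⟨0,[(0,0),(9,0)]⟩),(.r 0 ⟨0,[(1,0)]⟩ ⟨3,[(0,3),(16,
  0),(0,0),(19,1)]⟩),.k,.k,⟨false,1,⟨1,[(1,1),(35,0),(0,0)]⟩,⟨0,[(0,0)]⟩⟩,⟨true,0,⟨3,[(7,1),(11,1),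
  (5,0),(0,0)]⟩,⟨4,[(2,0),(5,1),(0,0),(6,1),(3,4)]⟩⟩,⟨true,0,⟨0,[]⟩,⟨0,[(40,0)]⟩⟩,⟨false,0,⟨0,[(4,
  0),(19,0)]⟩,⟨3,[(1,1),(7,1),(7,0),(2,3),(9,0),(6,0),(0,0)]⟩⟩,⟨false,1,⟨3,[(13,1),(16,0),(7,2)]⟩,
  ⟨0,[(36,0)]⟩⟩,⟨false,0,⟨0,[(4,0),(1,0)]⟩,⟨5,[(8,1),(0,1),(7,2),(2,5),(2,1),(3,1),(10,2)]⟩⟩,[.o
  ⟨false,0,⟨0,[(8,0),(15,0)]⟩,⟨5,[(10,1),(0,1),(11,1),(6,0),(6,1),(0,2)]⟩⟩,.o ⟨false,1,⟨5,[(0,3),(7,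
  1),(8,1),(3,1),(4,3),(3,0),(7,2)]⟩,⟨5,[(2,2),(5,0),(0,3),(13,0),(3,3)]⟩⟩,.a ⟨true,0,⟨0,[(20,0)]⟩,
  ⟨1,[(19,0),(8,0),(0,0)]⟩⟩ ⟨false,1,⟨1,[(17,0),(20,0)]⟩,⟨7,[(2,1),(1,4),(0,2),(3,0),(3,0),(6,4),(6,
  0)]⟩⟩ ⟨true,0,⟨1,[(8,0),(10,0),(4,1),(11,0)]⟩,⟨5,[(2,2),(5,0),(0,3),(10,5),(2,0),(3,3)]⟩⟩,.o
  ⟨false,0,⟨0,[(12,0),(7,0)]⟩,⟨7,[(17,0),(0,0),(0,3),(10,1),(6,3)]⟩⟩]⟩) (.Q [0,1,0,0,0,0,0,0,-1,0,0,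
  1] (.p true [0,0,0,1] [] (⟨0,[(20,0)]⟩,⟨1,[(19,0),(8,0),(0,0)]⟩) .k 0 (⟨0,[]⟩,⟨0,[]⟩) .k .k) (.K
  ⟨2,[0,0,0,1],0,0,(⟨0,[(21,0)]⟩,⟨1,[(20,0),(8,0),(0,0)]⟩),.k,(.r (-1) ⟨1,[(19,0),(17,1),(0,0)]⟩ ⟨1,
  [(1,1),(15,0),(4,0),(2,0)]⟩),(.r 0 ⟨13,[(3,0),(1,6),(0,6),(0,4),(2,0),(0,4),(3,3),(5,6)]⟩ ⟨1,[(18,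
  0),(18,1),(0,0)]⟩),.k,.k,[⟨4,[(3,0),(5,1),(0,0),(6,1),(3,4)]⟩,⟨1,[(17,0),(2,0)]⟩,⟨1,[(21,1),(4,0),
  (0,0)]⟩,⟨1,[(20,0),(2,0),(2,0)]⟩,⟨0,[(0,0)]⟩,⟨2,[(3,0),(1,0),(0,1),(13,0),(3,0)]⟩]⟩) (.Q [0,0,0,0,
  0,1,0,0,0,0,0,-1] (.p false [0,0,0,1] [] (⟨0,[(21,0)]⟩,⟨1,[(20,0),(8,0),(0,0)]⟩) .k 0 (⟨0,[]⟩,⟨0,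
  []⟩) .k .k) (.R ⟨0,false,false,false,[0,0,0,1],[1,-1],[1,0,0,0,0,0,0,0,1],(⟨0,[(22,0)]⟩,⟨1,[(21,
  0),(8,0),(0,0)]⟩),(⟨0,[(33,0)]⟩,⟨0,[(34,0)]⟩),⟨0,[(0,0)]⟩,.k,.k,(.r (-1) ⟨1,[(20,0),(17,1),(0,
  0)]⟩ ⟨1,[(2,1),(15,0),(4,0),(2,0)]⟩),(.r 0 ⟨7,[(1,2),(5,4),(0,1),(3,1),(3,1),(5,2),(13,1)]⟩ ⟨1,
  [(19,0),(18,1),(0,0)]⟩),.k,.k,⟨false,0,⟨9,[(1,6),(2,3),(2,2),(3,1),(3,1),(6,6),(6,1)]⟩,⟨1,[(19,0),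
  (18,1),(0,0)]⟩⟩,⟨true,0,⟨0,[(14,0),(7,0)]⟩,⟨1,[(21,0),(8,0),(0,0)]⟩⟩,⟨true,0,⟨0,[]⟩,⟨0,[(42,0)]⟩⟩,
  ⟨false,1,⟨1,[(10,1),(8,0),(2,1),(17,0)]⟩,⟨0,[(6,0),(8,0)]⟩⟩,⟨false,0,⟨0,[]⟩,⟨0,[]⟩⟩,⟨false,0,⟨0,
  []⟩,⟨0,[]⟩⟩,[.o ⟨false,0,⟨0,[(10,0)]⟩,⟨3,[(15,1),(3,0),(0,0),(11,0),(7,0)]⟩⟩,.o ⟨false,1,⟨1,[(32,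
  0),(5,1),(1,0)]⟩,⟨0,[(37,0)]⟩⟩,.a ⟨true,0,⟨1,[(21,0),(8,0),(0,0)]⟩,⟨0,[(22,0)]⟩⟩ ⟨false,0,⟨0,[(1,
  0),(20,0)]⟩,⟨3,[(19,2),(0,0)]⟩⟩ ⟨true,0,⟨0,[(10,0),(11,0)]⟩,⟨1,[(15,0),(5,0),(20,0)]⟩⟩,.o ⟨false,
  0,⟨1,[(21,0),(2,0),(2,0)]⟩,⟨1,[(22,1),(9,0),(6,0)]⟩⟩]⟩) (.R ⟨1,false,false,false,[0,0,0,1],[1,-1],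
  [1,0,0,0,0,0,0,0,1],(⟨0,[(22,0)]⟩,⟨1,[(21,0),(8,0),(0,0)]⟩),(⟨0,[(33,0)]⟩,⟨0,[(34,0)]⟩),⟨0,[(0,
  0)]⟩,.k,.k,(.r (-1) ⟨1,[(20,0),(17,1),(0,0)]⟩ ⟨1,[(2,1),(15,0),(4,0),(2,0)]⟩),(.r 0 ⟨7,[(1,2),(5,
  4),(0,1),(3,1),(3,1),(5,2),(13,1)]⟩ ⟨1,[(19,0),(18,1),(0,0)]⟩),.k,.k,⟨false,0,⟨9,[(1,6),(2,3),(2,
  2),(3,1),(3,1),(6,6),(6,1)]⟩,⟨1,[(19,0),(18,1),(0,0)]⟩⟩,⟨true,0,⟨0,[(14,0),(7,0)]⟩,⟨1,[(21,0),(8,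
  0),(0,0)]⟩⟩,⟨true,0,⟨0,[]⟩,⟨0,[(42,0)]⟩⟩,⟨false,1,⟨1,[(10,1),(8,0),(2,1),(17,0)]⟩,⟨0,[(6,0),(8,
  0)]⟩⟩,⟨false,1,⟨3,[(15,1),(16,0),(7,2)]⟩,⟨0,[(38,0)]⟩⟩,⟨false,1,⟨9,[(2,1),(1,3),(5,7),(0,1),(7,3),
  (2,9),(16,0),(0,4)]⟩,⟨5,[(6,3),(0,1),(7,1),(5,0),(8,2),(0,2)]⟩⟩,[.o ⟨false,0,⟨0,[(10,0)]⟩,⟨3,[(15,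
  1),(3,0),(0,0),(11,0),(7,0)]⟩⟩,.o ⟨false,1,⟨1,[(32,0),(5,1),(1,0)]⟩,⟨0,[(37,0)]⟩⟩,.a ⟨true,0,⟨1,
  [(21,0),(8,0),(0,0)]⟩,⟨0,[(22,0)]⟩⟩ ⟨false,0,⟨0,[(1,0),(20,0)]⟩,⟨3,[(19,2),(0,0)]⟩⟩ ⟨true,0,⟨0,
  [(10,0),(11,0)]⟩,⟨1,[(15,0),(5,0),(20,0)]⟩⟩,.o ⟨false,0,⟨1,[(21,0),(2,0),(2,0)]⟩,⟨1,[(22,1),(9,0),
  (6,0)]⟩⟩]⟩)))) (.R ⟨1,false,false,false,[1,0,0,-1],[0,0,1],[0,0,0,-1,0,0,0,0,-1],(⟨1,[(18,0),(8,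
  0),(0,0)]⟩,⟨0,[(19,0)]⟩),(⟨0,[(28,0)]⟩,⟨0,[(27,0)]⟩),⟨1,[(2,0),(11,0),(3,0)]⟩,.k,.k,(.r (-1) ⟨1,
  [(16,0),(18,1),(0,0)]⟩ ⟨5,[(0,2),(3,2),(0,0),(3,3),(14,0)]⟩),.k,(.r (-1) ⟨0,[(0,0),(15,0)]⟩ ⟨2,
  [(0,0),(3,1),(4,1),(16,1)]⟩),.k,⟨false,1,⟨0,[(0,0),(15,0)]⟩,⟨14,[(0,13),(0,5),(2,0),(3,2),(0,6),
  (2,2),(13,24)]⟩⟩,⟨true,0,⟨1,[(15,0),(2,0)]⟩,⟨1,[(6,0),(4,0),(7,1)]⟩⟩,⟨true,0,⟨0,[(35,0)]⟩,⟨0,[(34,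
  0)]⟩⟩,⟨false,0,⟨11,[(3,9),(0,1),(3,5),(3,1),(5,0),(7,5),(0,2),(0,2)]⟩,⟨1,[(16,0),(2,1),(0,1),(16,
  0)]⟩⟩,⟨false,1,⟨3,[(16,0),(0,0),(19,1)]⟩,⟨0,[]⟩⟩,⟨false,0,⟨4,[(0,1),(0,0),(1,2),(2,1),(1,4),(3,1),
  (5,0),(7,2)]⟩,⟨1,[(7,1),(8,0),(2,1),(3,1),(13,0)]⟩⟩,[.o ⟨false,0,⟨2,[(7,0),(0,0),(13,0),(3,0)]⟩,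
  ⟨1,[(23,1),(5,0),(7,0)]⟩⟩,.o ⟨false,1,⟨0,[(22,0),(14,0)]⟩,⟨0,[(20,0)]⟩⟩,.a ⟨true,0,⟨0,[(19,0)]⟩,
  ⟨1,[(18,0),(8,0),(0,0)]⟩⟩ ⟨false,1,⟨1,[(16,0),(18,1),(1,0)]⟩,⟨14,[(0,13),(0,5),(2,0),(3,2),(0,6),
  (2,2),(13,9)]⟩⟩ ⟨true,0,⟨1,[(10,0),(7,0),(7,0),(8,0)]⟩,⟨0,[(19,0),(0,0)]⟩⟩,.o ⟨false,0,⟨0,[(11,0),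
  (7,0)]⟩,⟨7,[(16,0),(0,0),(0,3),(10,1),(6,3)]⟩⟩]⟩)))) (.I [0,0,1,1,0,0,0,0,-1] (.K ⟨2,[1,0,0,-1],0,
  0,(⟨1,[(16,0),(8,0),(0,0)]⟩,⟨0,[(17,0)]⟩),.k,(.x 0 ⟨0,[(9,0),(18,0)]⟩ ⟨3,[(14,0),(0,0),(13,3),(4,
  1)]⟩),(.r 0 ⟨0,[(0,0)]⟩ ⟨1,[(15,0),(17,1),(0,0)]⟩),.k,.k,[⟨1,[(13,0),(2,0)]⟩,⟨2,[(5,0),(0,0),(6,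
  0),(3,2),(0,0)]⟩,⟨1,[(13,0),(2,0),(6,1)]⟩,⟨0,[(9,0),(7,0)]⟩,⟨1,[(2,1),(13,0),(8,0),(0,0)]⟩,⟨0,[(1,
  0),(3,0)]⟩]⟩) (.K ⟨2,[0,0,0,1],0,0,(⟨0,[(17,0)]⟩,⟨1,[(16,0),(8,0),(0,0)]⟩),.k,(.x 0 ⟨0,[(9,0),(18,
  0)]⟩ ⟨3,[(14,0),(0,0),(13,3),(4,1)]⟩),(.r 0 ⟨4,[(0,2),(1,1),(0,1),(3,1),(3,1),(19,1)]⟩ ⟨0,[(0,0),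
  (13,0)]⟩),.k,.k,[⟨2,[(5,0),(0,0),(6,0),(3,2),(0,0)]⟩,⟨1,[(13,0),(2,0)]⟩,⟨1,[(17,1),(4,0),(0,0)]⟩,
  ⟨1,[(16,0),(2,0),(2,0)]⟩,⟨0,[(1,0),(31,0)]⟩,⟨1,[(0,0),(1,0),(6,0),(6,0),(15,0)]⟩]⟩)))))))

theorem ok15 : chk (cU (-1) false 10) t15 r9 = true := by decide +kernel

noncomputable def t16 : Tre :=
  .Q [0,1,0,-1,0,0,-2,-1,0,-1,2] (.p true [0,0,1] [1,0,-1] (⟨0,[(19,0)]⟩,⟨0,[(18,0)]⟩) .k 2 (⟨0,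
  [(18,0)]⟩,⟨0,[(19,0)]⟩) .k (.r 0 ⟨0,[(17,1)]⟩ ⟨0,[(6,0),(4,0),(2,0),(13,0)]⟩)) t14 t15

theorem ok16 : chk (cU (-1) false 10) t16 l8 = true :=
  chk_Q (e' := [0,-1,0,1,0,0,2,1,0,1,-2]) (by decide +kernel) (by decide +kernel) ok14 ok15

noncomputable def t17 : Tre :=
  (.Q [0,0,0,1,0,0,1,1,0,1,-1] (.p false [0,0,1] [1] (⟨0,[(19,0)]⟩,⟨0,[(18,0)]⟩) .k 1 (⟨0,[]⟩,⟨0,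
  []⟩) .k .k) (.R ⟨1,true,false,false,[1,0,-1],[0,1],[0,0,2,1],(⟨0,[(19,0)]⟩,⟨0,[(20,0)]⟩),(⟨0,[(23,
  0)]⟩,⟨0,[(22,0)]⟩),⟨0,[(6,0)]⟩,.k,.k,.k,.k,(.r (-1) ⟨3,[(1,3),(6,0),(0,0),(19,1)]⟩ ⟨2,[(0,2),(3,
  0),(0,0),(7,3),(11,0)]⟩),.k,⟨true,0,⟨1,[(16,0),(0,0)]⟩,⟨0,[]⟩⟩,⟨false,1,⟨15,[(0,7),(0,7),(2,3),(2,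
  3),(0,0),(0,0),(18,7),(0,5)]⟩,⟨0,[(13,0)]⟩⟩,⟨false,0,⟨0,[(0,0),(12,0),(11,0)]⟩,⟨3,[(1,1),(5,0),(4,
  0),(2,0),(12,1),(0,1)]⟩⟩,⟨true,0,⟨0,[(0,0)]⟩,⟨3,[(1,1),(10,1),(0,1),(2,0),(0,0)]⟩⟩,⟨true,0,⟨2,[(0,
  2),(3,0),(0,0),(7,3),(11,0)]⟩,⟨0,[(1,0)]⟩⟩,⟨false,1,⟨3,[(0,3),(3,1),(16,0),(7,2)]⟩,⟨0,[(1,0),(11,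
  0),(11,0)]⟩⟩,[]⟩) (.R ⟨2,true,false,true,[0,1],[1,0,-1],[0,1,0,0,0,0,0,-1],(⟨0,[]⟩,⟨0,[]⟩),(⟨0,
  [(19,0)]⟩,⟨0,[(20,0)]⟩),⟨0,[]⟩,.k,.k,.k,.k,.k,.k,⟨false,1,⟨3,[(8,0),(0,0),(18,1)]⟩,⟨0,[]⟩⟩,⟨true,
  0,⟨0,[(13,0)]⟩,⟨1,[(7,0),(11,0),(0,0)]⟩⟩,⟨true,0,⟨3,[(1,1),(5,0),(4,0),(2,0)]⟩,⟨2,[(2,0),(1,0),(8,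
  1),(4,1),(6,0)]⟩⟩,⟨false,0,⟨0,[(0,0)]⟩,⟨15,[(2,7),(1,3),(3,2),(0,2),(8,7),(0,3),(0,3),(8,9)]⟩⟩,
  ⟨false,1,⟨1,[(7,0),(4,0),(2,0),(12,0),(0,0)]⟩,⟨0,[(18,0),(6,0)]⟩⟩,⟨true,0,⟨0,[(12,0)]⟩,⟨1,[(2,0),
  (15,0),(0,0),(0,0),(6,0)]⟩⟩,[]⟩))

theorem ok17 : chk (cU (-1) false 10) t17 r8 = true := by decide +kernel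

noncomputable def t18 : Tre :=
  .I [1,-1,2,2,0,0,0,1] t16 t17

theorem ok18 : chk (cU (-1) false 10) t18 l7 = true :=
  chk_I (e' := [0,1,-2,-2,0,0,0,-1]) (by decide +kernel) (by decide +kernel) ok16 ok17

noncomputable def t19 : Tre :=
  (.Q [0,0,0,0,0,0,-1,0,0,0,1] (.p true [0,0,1] [] (⟨0,[(18,0)]⟩,⟨0,[(17,0)]⟩) .k 0 (⟨0,[]⟩,⟨0,[]⟩)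
  .k .k) (.K ⟨0,[1,-1,-1],0,0,(⟨0,[(5,0)]⟩,⟨0,[(19,0),(2,0)]⟩),.k,(.r (-1) ⟨0,[(1,0),(4,0),(19,0),
  (0,0)]⟩ ⟨2,[(3,1),(0,1),(7,1),(4,2),(6,1)]⟩),.k,.k,.k,[⟨1,[(6,0),(11,0),(0,0)]⟩,⟨0,[(0,0)]⟩,⟨3,
  [(3,1),(2,0),(6,1),(3,1),(0,0),(0,0)]⟩,⟨0,[(11,0),(14,0)]⟩]⟩) (.R ⟨2,true,false,false,[0,1],[1,0,
  -1],[1,1,1,1],(⟨0,[]⟩,⟨0,[]⟩),(⟨0,[(18,0)]⟩,⟨0,[(19,0)]⟩),⟨0,[]⟩,.k,.k,.k,.k,.k,.k,⟨false,0,⟨0,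
  [(17,0),(7,0)]⟩,⟨1,[(1,1),(4,1),(20,0),(0,0)]⟩⟩,⟨true,0,⟨0,[(12,0)]⟩,⟨1,[(6,0),(11,0),(0,0)]⟩⟩,
  ⟨false,0,⟨0,[]⟩,⟨3,[(7,0),(0,0),(19,1)]⟩⟩,⟨true,0,⟨0,[(0,0),(0,0)]⟩,⟨3,[(3,1),(2,0),(6,1),(3,1),
  (0,0),(0,0)]⟩⟩,⟨true,0,⟨0,[(25,0)]⟩,⟨0,[(26,0)]⟩⟩,⟨false,1,⟨0,[(11,0),(16,0)]⟩,⟨1,[(6,0),(10,1),
  (0,0),(0,0)]⟩⟩,[]⟩))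

theorem ok19 : chk (cU (-1) false 10) t19 r7 = true := by decide +kernel

noncomputable def t20 : Tre :=
  .Q [0,0,0,1,0,0,2,1,0,1,-2] (.p false [0,0,1] [1,0,-1] (⟨0,[(17,0)]⟩,⟨0,[(16,0)]⟩) .k 2 (⟨0,[(16,
  0)]⟩,⟨0,[(17,0)]⟩) .k (.r 0 ⟨0,[(15,1)]⟩ ⟨0,[(4,0),(4,0),(2,0),(13,0)]⟩)) t18 t19

theorem ok20 : chk (cU (-1) false 10) t20 l6 = true :=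
  chk_Q (e' := [0,0,0,-1,0,0,-2,-1,0,-1,2]) (by decide +kernel) (by decide +kernel) ok18 ok19

noncomputable def t21 : Tre :=
  (.I [0,0,-2,-2,1,0,0,-1] (.K ⟨0,[1,-1,-1],0,0,(⟨0,[(4,0)]⟩,⟨0,[(18,0),(2,0)]⟩),.k,(.r (-1) ⟨0,[(0,
  0)]⟩ ⟨2,[(2,1),(0,1),(7,1),(4,2),(6,1)]⟩),.k,.k,.k,[⟨2,[(1,0),(3,1),(9,0)]⟩,⟨0,[(1,0),(9,0)]⟩,⟨5,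
  [(1,0),(0,2),(2,1),(6,2),(2,0),(0,2)]⟩,⟨0,[(10,0),(14,0)]⟩]⟩) (.Q [0,0,0,0,0,1,0,0,0,0,-1] (.ed
  true [1,-1,1] .k) (.R ⟨0,false,false,true,[0,1,-1],[0,1],[],(⟨0,[(0,0)]⟩,⟨0,[(19,0),(1,0)]⟩),(⟨0,
  [(22,0)]⟩,⟨0,[(21,0)]⟩),⟨0,[(19,0)]⟩,.k,.k,.k,.k,.k,.k,⟨true,1,⟨1,[(26,1),(0,0),(0,0)]⟩,⟨1,[(1,1),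
  (4,0),(4,0),(2,0),(11,1)]⟩⟩,⟨false,1,⟨7,[(6,3),(0,0),(0,0),(11,1),(6,3)]⟩,⟨0,[(2,0),(9,0)]⟩⟩,
  ⟨false,1,⟨1,[(17,1),(8,1),(0,0),(0,0)]⟩,⟨0,[(2,0),(1,0),(6,0),(12,0)]⟩⟩,⟨true,0,⟨0,[(13,0)]⟩,⟨0,
  [(2,0),(8,0),(12,0)]⟩⟩,⟨false,0,⟨0,[]⟩,⟨0,[]⟩⟩,⟨false,0,⟨0,[]⟩,⟨0,[]⟩⟩,[.o ⟨false,0,⟨0,[(25,0)]⟩,
  ⟨1,[(20,0),(5,1),(1,0)]⟩⟩,.a ⟨true,0,⟨1,[(2,0),(0,0),(20,0)]⟩,⟨0,[(26,0)]⟩⟩ ⟨false,1,⟨1,[(27,0),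
  (0,0)]⟩,⟨0,[(30,0)]⟩⟩ ⟨true,0,⟨0,[(4,0)]⟩,⟨0,[(2,0),(9,0),(13,0)]⟩⟩,.e ⟨false,1,⟨3,[(7,0),(0,0),
  (19,1)]⟩,⟨0,[]⟩⟩ ⟨false,0,⟨0,[(4,0)]⟩,⟨1,[(2,1),(9,1),(13,1),(0,0),(0,0)]⟩⟩,.o ⟨false,0,⟨0,[(2,0),
  (9,0)]⟩,⟨7,[(6,3),(0,0),(0,0),(11,5)]⟩⟩]⟩) (.K ⟨0,[0,-1,1],0,0,(⟨0,[(0,0)]⟩,⟨0,[(18,0),(3,0)]⟩),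
  .k,(.r (-1) ⟨0,[(17,0),(8,1),(0,0)]⟩ ⟨1,[(2,0),(0,0),(0,1),(6,1),(12,2)]⟩),.k,.k,.k,[⟨0,[(2,0),(9,
  0)]⟩,⟨2,[(2,0),(3,1),(9,0)]⟩,⟨1,[(2,0),(0,0),(7,1),(12,0)]⟩,⟨0,[(13,0),(12,0)]⟩]⟩)))

theorem ok21 : chk (cU (-1) false 10) t21 r6 = true := by decide +kernel

noncomputable def t22 : Tre :=
  .Q [0,0,1,0,0,0,0,0,0,-1] (.pp true [-1,1]) t20 t21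

theorem ok22 : chk (cU (-1) false 10) t22 r5 = true :=
  chk_Q (e' := [0,0,-1,0,0,0,0,0,0,1]) (by decide +kernel) (by decide +kernel) ok20 ok21

noncomputable def t23 : Tre :=
  .Q [0,-1,0,-2,0,0,0,0,0,-1] (.pp true [-1,1]) t7 t22

theorem ok23 : chk (cU (-1) false 10) t23 l4 = true :=
  chk_Q (e' := [0,1,0,2,0,0,0,0,0,1]) (by decide +kernel) (by decide +kernel) ok7 ok22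

noncomputable def t24 : Tre :=
  (.K ⟨0,[1,-1,-1],0,0,(⟨0,[(1,0)]⟩,⟨0,[(15,0),(2,0)]⟩),.k,(.r (-1) ⟨1,[(0,1),(1,1),(4,1),(14,1),(0,
  0),(0,0)]⟩ ⟨0,[(13,0),(6,1),(0,1)]⟩),.k,.k,.k,[⟨1,[(2,0),(11,0),(0,0)]⟩,⟨0,[(0,0),(19,0),(0,0)]⟩,
  ⟨1,[(2,0),(10,1),(0,0),(0,0),(5,1)]⟩,⟨0,[(7,0),(14,0)]⟩]⟩)

theorem ok24 : chk (cU (-1) false 10) t24 r4 = true := by decide +kernel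

noncomputable def t25 : Tre :=
  .Q [0,0,1,1,0,0,1,0,0,0,-1] (.p false [0,0,1] [] (⟨0,[(14,0)]⟩,⟨0,[(13,0)]⟩) .k 0 (⟨0,[]⟩,⟨0,[]⟩)
  .k .k) t23 t24

theorem ok25 : chk (cU (-1) false 10) t25 r0 = true :=
  chk_Q (e' := [0,0,-1,-1,0,0,-1,0,0,0,1]) (by decide +kernel) (by decide +kernel) ok23 ok24

noncomputable def t26 : Tre :=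
  .Q [0,0,0,0,0,1,0,0,0,-1,1] (.ed false [0,1,1] .k) t6 t25

theorem ok26 : chk (cU (-1) false 10) t26 base = true :=
  chk_Q (e' := [0,0,0,0,0,-1,0,0,0,1,-1]) (by decide +kernel) (by decide +kernel) ok6 ok25

theorem ok : chkB (cU (-1) false 10) (fax (fcU (-1)) false 35 (-1) 10 true (tU false)) t26 base = true :=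
  chkB_of (by decide +kernel) ok26

end Helper11.CT.Tm1_35_m1_1_v
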